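import Pool.Agent.H883.ZR.Base3

set_option autoImplicit false
set_option linter.unusedSectionVars false

/-!
# Fixed vectors: the four patterns of heights
-/

namespace Pool.Agent.H883.ZR.FX

open Real NumberField Height Module Finset MvPolynomial
open Pool.Agent.H489ZP
open Pool.Agent.H393R2.RothNS (TT DD l1)
open Pool.Agent.H883.ZQ

section

variable {I : Type} [Fintype I] [DecidableEq I] {I' : Type} [Fintype I'] [DecidableEq I'] {d : ℕ}

/-- a set of small rank all of whose proper subsets have large rank -/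
def Mn (ξ : I × Bool → Fin d → ℝ) (S : Finset I) : Prop :=
  S.Nonempty ∧ rk ξ S ≤ S.card ∧
    ∀ T : Finset I, T ⊆ S → T.Nonempty → T ≠ S → T.card + 1 ≤ rk ξ T

lemma exists_mn (ξ : I × Bool → Fin d → ℝ) (h : ∃ S : Finset I, S.Nonempty ∧ rk ξ S ≤ S.card) :
    ∃ S : Finset I, Mn ξ S := by
  classical
  obtain ⟨S0, hS0, hS0r⟩ := h
  obtain ⟨S, hSm, hmin⟩ := Finset.exists_min_image
    (Finset.univ.filter fun S : Finset I => S.Nonempty ∧ rk ξ S ≤ S.card) Finset.card
    ⟨S0, Finset.mem_filter.2 ⟨Finset.mem_univ _, hS0, hS0r⟩⟩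
  obtain ⟨hSne, hSr⟩ := (Finset.mem_filter.1 hSm).2
  refine ⟨S, hSne, hSr, ?_⟩
  intro T hTS hT hne
  by_contra hcon
  push Not at hcon
  have h2 := hmin T (Finset.mem_filter.2 ⟨Finset.mem_univ _, hT, by omega⟩)
  exact hne (Finset.eq_of_subset_of_card_le hTS h2)

lemma rk_comp (ξ : I × Bool → Fin d → ℝ) (e : I' ↪ I) (T : Finset I') :
    rk (fun r : I' × Bool => ξ (e r.1, r.2)) T = rk ξ (T.map e) := by
  have hset : (fun r : I' × Bool => ξ (e r.1, r.2)) '' (ov T : Set (I' × Bool)) =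
      ξ '' (ov (T.map e) : Set (I × Bool)) := by
    ext x
    constructor
    · rintro ⟨⟨i, b⟩, hr, rfl⟩
      rw [Finset.mem_coe, mem_ov] at hr
      refine ⟨(e i, b), ?_, rfl⟩
      rw [Finset.mem_coe, mem_ov]
      exact Finset.mem_map_of_mem _ hr
    · rintro ⟨⟨i, b⟩, hr, rfl⟩
      rw [Finset.mem_coe, mem_ov, Finset.mem_map] at hr
      obtain ⟨i', hi', rfl⟩ := hr
      exact ⟨(i', b), by rw [Finset.mem_coe, mem_ov]; exact hi', rfl⟩
  unfold rk
  rw [hset]

lemma mn_comp {ξ : I × Bool → Fin d → ℝ} {S : Finset I} (hS : Mn ξ S) (e : I' ↪ I)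
    (he : (Finset.univ : Finset I').map e = S) :
    rk (fun r : I' × Bool => ξ (e r.1, r.2)) Finset.univ ≤ Fintype.card I' ∧
      ∀ T : Finset I', T.Nonempty → T ≠ Finset.univ →
        T.card + 1 ≤ rk (fun r : I' × Bool => ξ (e r.1, r.2)) T := by
  constructor
  · rw [rk_comp, he]
    refine hS.2.1.trans ?_
    rw [← he, Finset.card_map, Finset.card_univ]
  · intro T hT hne
    rw [rk_comp, ← Finset.card_map e]
    refine hS.2.2 _ ?_ hT.map ?_
    · rw [← he]
      exact Finset.map_subset_map.2 (Finset.subset_univ _)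
    · intro h
      rw [← he] at h
      exact hne (Finset.map_injective e h)

lemma near_comp {K : Type} [Field K] [NumberField K] {u : I → K}
    {ξ : I × Bool → Fin d → ℝ} {H : I → ℝ} {t : AbsoluteValue K ℝ → Fin d → ℝ}
    {err : AbsoluteValue K ℝ → ℝ} {η η' : ℝ} (h : NearW u ξ H t err η) (hη : η ≤ η')
    (e : I' → I) :
    NearW (fun i => u (e i)) (fun r => ξ (e r.1, r.2)) (fun i => H (e i)) t err η' :=
  ⟨fun v r => h.inf v (e r.1, r.2), fun v r => h.fin v (e r.1, r.2),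
    fun T => (h.tot T).trans (mul_le_mul_of_nonneg_right hη (Nat.cast_nonneg _))⟩

/-- **Lacunary heights on a minimal set.** -/
lemma lacS (hSS : S_S) (hST : S_T) (hIT : S_IT) {ξ : I × Bool → Fin d → ℝ} {S : Finset I}
    (hS : Mn ξ S) {κ0 : ℝ} (hκ : 0 < κ0) :
    ∃ (B η : ℝ), 0 < η ∧
      ∀ (K : Type) [Field K] [NumberField K] (u : I → K), (∀ i, u i ≠ 0) →
      (∀ i, 1 - u i ≠ 0) → ∀ (H : I → ℝ), (∀ i, 1 ≤ H i) → (∀ i ∈ S, B ≤ H i) →
      (∀ i ∈ S, ∀ j ∈ S, i ≠ j → B * H i ≤ H j ∨ B * H j ≤ H i) →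
      ∀ (t : AbsoluteValue K ℝ → Fin d → ℝ) (err : AbsoluteValue K ℝ → ℝ),
      NearW u ξ H t err η → (∀ i, logHeight₁ (u i) ≤ finrank ℚ K * H i) →
      (∀ i, finrank ℚ K * (κ0 * H i) ≤ logHeight₁ (u i)) → False := by
  classical
  have hne : Nonempty {x // x ∈ S} := ⟨⟨_, hS.1.choose_spec⟩⟩
  have he : (Finset.univ : Finset {x // x ∈ S}).map (Function.Embedding.subtype _) = S := by
    ext i
    simp
  obtain ⟨h1, h2⟩ := mn_comp hS (Function.Embedding.subtype _) he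
  obtain ⟨C, δ, η, hC, hδ, hη, hW⟩ := WLC hSS hST {x // x ∈ S} _ h1 h2 hκ
  obtain ⟨B1, hB1⟩ := hIT {x // x ∈ S} C δ κ0 (by linarith) hδ hκ
  refine ⟨max C B1, η, hη, ?_⟩
  intro K _ _ u hu0 hu1 H hH1 hHB hlac t err hN hup hlo
  obtain ⟨i1, hi1⟩ := Finite.exists_max (fun i : {x // x ∈ S} => H i.1)
  obtain ⟨F, hF, hd, hl, hv⟩ := hW K (fun i => u i.1) (fun i => hu0 _) (fun i => hu1 _)
    (fun i => H i.1) i1 hi1 (fun i => (le_max_left _ _).trans (hHB i.1 i.2)) t err
    (near_comp hN le_rfl _) (fun i => hup _) (hlo _)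
  refine hB1 K (fun i => u i.1) (fun i => H i.1) i1 hi1
    ⟨fun i => (le_max_right _ _).trans (hHB _ i.2), fun i j hij => ?_⟩ (fun i => hlo _) F hF hd
    hl hv
  have hmono : ∀ i : I, B1 * H i ≤ max C B1 * H i := fun i =>
    mul_le_mul_of_nonneg_right (le_max_right _ _) (by linarith [hH1 i])
  rcases hlac i.1 i.2 j.1 j.2 (fun h => hij (Subtype.ext h)) with h | h
  · exact Or.inl ((hmono _).trans h)
  · exact Or.inr ((hmono _).trans h)

/-- **Constant heights on a minimal set.** -/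
lemma constS {ξ : I × Bool → Fin d → ℝ} {S : Finset I}
    (hS : Mn ξ S) {κ0 : ℝ} (hκ : 0 < κ0) :
    ∃ (G : MvPolynomial I ℤ) (B η : ℝ), G ≠ 0 ∧ 0 < η ∧
      ∀ (K : Type) [Field K] [NumberField K] (u : I → K), (∀ i, u i ≠ 0) →
      (∀ i, 1 - u i ≠ 0) → ∀ (H : I → ℝ) (h : ℝ), (∀ i ∈ S, H i = h) → B ≤ h →
      ∀ (t : AbsoluteValue K ℝ → Fin d → ℝ) (err : AbsoluteValue K ℝ → ℝ),
      NearW u ξ H t err η → (∀ i, logHeight₁ (u i) ≤ finrank ℚ K * H i) →
      (∀ i, finrank ℚ K * (κ0 * H i) ≤ logHeight₁ (u i)) → aeval u G = 0 := by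
  classical
  have hne : Nonempty {x // x ∈ S} := ⟨⟨_, hS.1.choose_spec⟩⟩
  have he : (Finset.univ : Finset {x // x ∈ S}).map (Function.Embedding.subtype _) = S := by
    ext i
    simp
  obtain ⟨h1, h2⟩ := mn_comp hS (Function.Embedding.subtype _) he
  obtain ⟨G, hG, η, B, hη, h⟩ := caseA {x // x ∈ S} (fun r => ξ (r.1.1, r.2))
    ⟨Finset.univ, Finset.univ_nonempty, by rw [Finset.card_univ]; exact h1⟩ hκ
  refine ⟨MvPolynomial.rename Subtype.val G, B, η, ?_, hη, ?_⟩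
  · intro h0
    exact hG (MvPolynomial.rename_injective _ Subtype.val_injective (by rw [h0, map_zero]))
  · intro K _ _ u hu0 hu1 H h0 hH hB t err hN hup hlo
    rw [MvPolynomial.aeval_rename]
    refine h K (u ∘ Subtype.val) (fun i => hu0 _) (fun i => hu1 _) h0 hB t err
      ⟨fun v r => ?_, fun v r => ?_, hN.tot⟩ (fun i => ?_) (fun i => ?_)
    · have h3 := hN.inf v (r.1.1, r.2)
      rw [hH _ r.1.2] at h3
      exact h3
    · have h3 := hN.fin v (r.1.1, r.2)
      rw [hH _ r.1.2] at h3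
      exact h3
    · have h3 := hup i.1
      rw [hH _ i.2] at h3
      exact h3
    · have h3 := hlo i.1
      rw [hH _ i.2] at h3
      exact h3

end

lemma rk_le (ξ : Fin 3 × Bool → Fin 3 → ℝ) (T : Finset (Fin 3)) : rk ξ T ≤ 3 := by
  unfold rk
  refine (Submodule.finrank_le _).trans ?_
  rw [Module.finrank_fin_fun]

lemma ex3 (ξ : Fin 3 × Bool → Fin 3 → ℝ) : ∃ S : Finset (Fin 3), Mn ξ S :=
  exists_mn ξ ⟨Finset.univ, Finset.univ_nonempty, by
    rw [Finset.card_univ, Fintype.card_fin]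
    exact rk_le ξ _⟩

theorem fx111 (hSS : S_S) (hST : S_T) (hIT : S_IT) : S_FX Pt111 := by
  intro ξ κ0 hκ
  obtain ⟨S, hS⟩ := ex3 ξ
  obtain ⟨B, η, hη, h⟩ := lacS hSS hST hIT hS hκ
  refine ⟨1, B, η, one_ne_zero, hη, ?_⟩
  intro K _ _ u hu0 hu1 H hP hH t err hN hup hlo
  exact (h K u hu0 hu1 H hH (fun i _ => hP.1 i) (fun i _ j _ hij => hP.2 i j hij) t err hN hup
    hlo).elim

theorem fx3 : S_FX Pt3 := by
  intro ξ κ0 hκ
  obtain ⟨S, hS⟩ := ex3 ξ
  obtain ⟨G, B, η, hG, hη, h⟩ := constS hS hκ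
  refine ⟨G, B, η, hG, hη, ?_⟩
  intro K _ _ u hu0 hu1 H hP hH t err hN hup hlo
  refine h K u hu0 hu1 H (H 0) (fun i _ => ?_) hP.2.2 t err hN hup hlo
  fin_cases i
  · rfl
  · exact hP.1.symm
  · exact (hP.1.trans hP.2.1).symm

/-- the coordinates, the first one last -/
def e21 : Fin 2 ⊕ Fin 1 ↪ Fin 3 :=
  ⟨Sum.elim ![1, 2] ![0], by decide⟩

lemma e21_univ : (Finset.univ : Finset (Fin 2 ⊕ Fin 1)).map e21 = Finset.univ := by
  decide

lemma dec0 : ∀ S : Finset (Fin 3), 0 ∉ S → ∀ i ∈ S, i = 1 ∨ i = 2 := by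
  decide

lemma dec1 : ∀ S : Finset (Fin 3), 0 ∈ S → S ≠ Finset.univ →
    ∀ i ∈ S, ∀ j ∈ S, i ≠ j → i = 0 ∧ (j = 1 ∨ j = 2) ∨ j = 0 ∧ (i = 1 ∨ i = 2) := by
  decide

theorem fx21 (hSS : S_S) (hST : S_T) (hIT : S_IT) (hIT21 : S_IT21) : S_FX Pt21 := by
  intro ξ κ0 hκ
  obtain ⟨S, hS⟩ := ex3 ξ
  by_cases h0 : 0 ∈ S
  swap
  · obtain ⟨G, B, η, hG, hη, h⟩ := constS hS hκ
    refine ⟨G, B, η, hG, hη, ?_⟩
    intro K _ _ u hu0 hu1 H hP hH t err hN hup hlo
    refine h K u hu0 hu1 H (H 1) (fun i hi => ?_) hP.2.1 t err hN hup hlo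
    rcases dec0 S h0 i hi with rfl | rfl
    · rfl
    · exact hP.1.symm
  by_cases hu : S = Finset.univ
  swap
  · obtain ⟨B, η, hη, h⟩ := lacS hSS hST hIT hS hκ
    refine ⟨1, B, η, one_ne_zero, hη, ?_⟩
    intro K _ _ u hu0 hu1 H hP hH t err hN hup hlo
    obtain ⟨p1, p2, p3, p4⟩ := hP
    refine (h K u hu0 hu1 H hH (fun i _ => ?_) (fun i hi j hj hij => ?_) t err hN hup
      hlo).elim
    · fin_cases i
      · exact p2.trans p4
      · exact p2
      · change B ≤ H 2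
        rw [← p1]
        exact p2
    · rcases dec1 S h0 hu i hi j hj hij with ⟨rfl, h⟩ | ⟨rfl, h⟩
      · right
        rcases h with rfl | rfl
        · exact p3
        · rw [← p1]
          exact p3
      · left
        rcases h with rfl | rfl
        · exact p3
        · rw [← p1]
          exact p3
  subst hu
  obtain ⟨h1, h2⟩ := mn_comp hS e21 e21_univ
  obtain ⟨C, δ, η, hC, hδ, hη, hW⟩ := WLC hSS hST (Fin 2 ⊕ Fin 1) _ h1 h2 hκ
  obtain ⟨G, B1, hG, hB1⟩ := hIT21 (3 * C) δ κ0 (by linarith) hδ hκ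
  have hinj : Function.Injective fun i : Fin 2 => e21 (Sum.inl i) := fun i j h =>
    Sum.inl_injective (e21.injective h)
  refine ⟨MvPolynomial.rename (fun i : Fin 2 => e21 (Sum.inl i)) G, max C B1, η, ?_, hη, ?_⟩
  · intro h
    exact hG (MvPolynomial.rename_injective _ hinj (by rw [h, map_zero]))
  intro K _ _ u hu0 hu1 H hP hH t err hN hup hlo
  obtain ⟨p1, p2, p3, p4⟩ := hP
  rw [MvPolynomial.aeval_rename]
  have hH1 : 0 < H 1 := by linarith [hH 1]
  have hH0 : 0 < H 0 := by linarith [hH 0]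
  have hr : 1 ≤ H 0 / H 1 := by
    rw [le_div_iff₀ hH1, one_mul]
    exact p4
  have q0 : H (e21 (Sum.inr 0)) = H 0 := rfl
  have q1 : ∀ i, H (e21 (Sum.inl i)) = H 1 := by
    intro i
    fin_cases i
    · rfl
    · exact p1.symm
  have q2 : ∀ i, C ≤ H (e21 i) := by
    intro i
    rcases i with i | i
    · rw [q1]
      exact (le_max_left _ _).trans p2
    · fin_cases i
      exact ((le_max_left _ _).trans p2).trans p4
  have q3 : ∀ i, H (e21 i) ≤ H (e21 (Sum.inr 0)) := by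
    intro i
    rcases i with i | i
    · rw [q1, q0]
      exact p4
    · fin_cases i
      exact le_refl _
  obtain ⟨F, hF, hd, hl, hv⟩ := hW K (fun i => u (e21 i)) (fun i => hu0 _) (fun i => hu1 _)
    (fun i => H (e21 i)) (Sum.inr 0) q3 q2 t err (near_comp hN le_rfl _) (fun i => hup _)
    (hlo _)
  refine hB1 K (fun i => u (e21 i)) (H 0) (H 1) ((le_max_right _ _).trans p2) ?_ ?_ ?_ F hF ?_ ?_
    ?_ ?_
  · exact (mul_le_mul_of_nonneg_right (le_max_right _ _) hH1.le).trans p3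
  · intro i
    have h3 := hlo (e21 (Sum.inl i))
    rw [q1] at h3
    exact h3
  · exact hlo (e21 (Sum.inr 0))
  · intro i
    have h3 := hd (Sum.inl i)
    simp only [q0, q1] at h3
    refine h3.trans ?_
    have h4 : 0 ≤ C * (H 0 / H 1) := by positivity
    linarith
  · have h3 := hd (Sum.inr 0)
    simp only [q0] at h3
    rw [div_self hH0.ne'] at h3
    linarith
  · refine hl.trans ?_
    rw [Fintype.sum_sum_type]
    simp only [q0, q1, Fin.sum_univ_two, Fin.sum_univ_one]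
    have h4 : H 0 / H (e21 (Sum.inr 0)) = 1 := by
      rw [q0]
      exact div_self hH0.ne'
    have h5 : C ≤ C * (H 0 / H 1) := le_mul_of_one_le_right (by linarith) hr
    simp only [q0, div_self hH0.ne']
    nlinarith
  · intro κ hκ0 hκi
    apply hv
    intro i
    rcases i with i | i
    · simp only [q0, q1]
      exact hκi i
    · fin_cases i
      change ((κ (Sum.inr 0) : ℕ) : ℝ) ≤ _
      rw [hκ0, Nat.cast_zero]
      simp only [q0]
      positivity

/-- the coordinates, the last one first -/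
def e12 : Fin 1 ⊕ Fin 2 ↪ Fin 3 :=
  ⟨Sum.elim ![2] ![0, 1], by decide⟩

lemma e12_univ : (Finset.univ : Finset (Fin 1 ⊕ Fin 2)).map e12 = Finset.univ := by
  decide

lemma dec2 : ∀ S : Finset (Fin 3), 2 ∉ S → ∀ i ∈ S, i = 0 ∨ i = 1 := by
  decide

lemma dec3 : ∀ S : Finset (Fin 3), 2 ∈ S → S ≠ Finset.univ →
    ∀ i ∈ S, ∀ j ∈ S, i ≠ j → i = 2 ∧ (j = 0 ∨ j = 1) ∨ j = 2 ∧ (i = 0 ∨ i = 1) := by
  decide

theorem fx12 (hSS : S_S) (hST : S_T) (hIT : S_IT) (hP12 : S_P12) : S_FX Pt12 := by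
  intro ξ κ0 hκ
  obtain ⟨S, hS⟩ := ex3 ξ
  by_cases h0 : 2 ∈ S
  swap
  · obtain ⟨G, B, η, hG, hη, h⟩ := constS hS hκ
    refine ⟨G, B, η, hG, hη, ?_⟩
    intro K _ _ u hu0 hu1 H hP hH t err hN hup hlo
    refine h K u hu0 hu1 H (H 0) (fun i hi => ?_) (hP.2.1.trans hP.2.2.2) t err hN hup hlo
    rcases dec2 S h0 i hi with rfl | rfl
    · rfl
    · exact hP.1.symm
  by_cases hu : S = Finset.univ
  swap
  · obtain ⟨B, η, hη, h⟩ := lacS hSS hST hIT hS hκ
    refine ⟨1, B, η, one_ne_zero, hη, ?_⟩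
    intro K _ _ u hu0 hu1 H hP hH t err hN hup hlo
    obtain ⟨p1, p2, p3, p4⟩ := hP
    refine (h K u hu0 hu1 H hH (fun i _ => ?_) (fun i hi j hj hij => ?_) t err hN hup
      hlo).elim
    · fin_cases i
      · exact p2.trans p4
      · change B ≤ H 1
        rw [← p1]
        exact p2.trans p4
      · exact p2
    · rcases dec3 S h0 hu i hi j hj hij with ⟨rfl, h⟩ | ⟨rfl, h⟩
      · left
        rcases h with rfl | rfl
        · exact p3
        · rw [← p1]
          exact p3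
      · right
        rcases h with rfl | rfl
        · exact p3
        · rw [← p1]
          exact p3
  subst hu
  obtain ⟨h1, h2⟩ := mn_comp hS e12 e12_univ
  have r3 : ∀ T : Finset (Fin 1 ⊕ Fin 2), 2 ≤ T.card →
      rk (fun r : (Fin 1 ⊕ Fin 2) × Bool => ξ (e12 r.1, r.2)) T = 3 := by
    intro T hT
    apply le_antisymm
    · rw [rk_comp]
      exact rk_le ξ _
    · by_cases hTu : T = Finset.univ
      · have h3 := h2 {Sum.inr 0, Sum.inr 1} ⟨Sum.inr 0, by simp⟩ (by decide)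
        have h4 : ({Sum.inr 0, Sum.inr 1} : Finset (Fin 1 ⊕ Fin 2)).card = 2 := by decide
        rw [h4] at h3
        refine h3.trans ?_
        unfold rk
        apply Submodule.finrank_mono
        apply Submodule.span_mono
        apply Set.image_mono
        intro r _
        rw [Finset.mem_coe, mem_ov, hTu]
        exact Finset.mem_univ _
      · have h3 := h2 T (Finset.card_pos.1 (by omega)) hTu
        omega
  have r2 : rk (fun r : (Fin 1 ⊕ Fin 2) × Bool => ξ (e12 r.1, r.2)) {Sum.inl 0} = 2 := by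
    apply le_antisymm
    · have h3 := finrank_relOn (fun r : (Fin 1 ⊕ Fin 2) × Bool => ξ (e12 r.1, r.2))
        (ov {Sum.inl 0})
      rw [card_ov, Finset.card_singleton] at h3
      unfold rk
      omega
    · have h3 := h2 {Sum.inl 0} ⟨Sum.inl 0, by simp⟩ (by decide)
      rw [Finset.card_singleton] at h3
      omega
  obtain ⟨B, η, hη, h⟩ := hP12 (fun r => ξ (e12 r.1, r.2)) (r3 _ (by decide)) (r3 _ (by decide))
    r2 h2 κ0 hκ
  refine ⟨1, B, η, one_ne_zero, hη, ?_⟩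
  intro K _ _ u hu0 hu1 H hP hH t err hN hup hlo
  obtain ⟨p1, p2, p3, p4⟩ := hP
  have hHe : (fun i => H (e12 i)) = Sum.elim (fun _ => H 2) (fun _ => H 0) := by
    funext i
    rcases i with i | i
    · fin_cases i
      rfl
    · fin_cases i
      · rfl
      · exact p1.symm
  have hN' := near_comp hN le_rfl e12
  rw [hHe] at hN'
  refine (h K (fun i => u (e12 i)) (fun i => hu0 _) (fun i => hu1 _) (H 0) (H 2) p2 p3 t err hN'
    (hup 2) (hlo 2) (fun i => ?_) (fun i => ?_)).elim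
  · fin_cases i
    · exact hup 0
    · have h3 := hup 1
      rw [← p1] at h3
      exact h3
  · fin_cases i
    · exact hlo 0
    · have h3 := hlo 1
      rw [← p1] at h3
      exact h3

end Pool.Agent.H883.ZR.FX
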