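import Mathlib
import Pool.Agent.H883.ZP.Rel

set_option autoImplicit false

/-!
# ZR INT: integral polynomials, and monomials in points of small rank (by helper122)
-/

namespace Pool.Agent.H883.ZR.INT

open Module
open Pool.Agent.H883.ZP

/-- from polynomials over a number field to integral polynomials -/
theorem toInt (K0 : Type) [Field K0] [NumberField K0] (c : ℕ) (a : Fin c → K0)
    (ha : ∀ i, a i ≠ 0) (G0 : MvPolynomial (Fin c) K0) (h0 : G0 ≠ 0) :
    ∃ G : MvPolynomial (Fin c) ℤ, G ≠ 0 ∧ ∀ (K : Type) [Field K] [Algebra K0 K] (x : Fin c → K),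
      MvPolynomial.aeval x G0 = 0 →
        MvPolynomial.aeval (fun i => algebraMap K0 K (a i) * x i) G = 0 := by
  obtain ⟨G1, hG1⟩ : ∃ G1 : MvPolynomial (Fin c) K0,
    G1 = MvPolynomial.aeval (fun i => MvPolynomial.C (a i)⁻¹ * MvPolynomial.X i) G0 := ⟨_, rfl⟩
  have hval : ∀ (K : Type) [Field K] [Algebra K0 K] (x : Fin c → K),
      MvPolynomial.aeval (fun i => algebraMap K0 K (a i) * x i) G1 = MvPolynomial.aeval x G0 := by
    intro K _ _ x
    have h1 : (MvPolynomial.aeval (fun i => algebraMap K0 K (a i) * x i) :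
        MvPolynomial (Fin c) K0 →ₐ[K0] K).comp
        (MvPolynomial.aeval (fun i => MvPolynomial.C (a i)⁻¹ * MvPolynomial.X i)) =
        MvPolynomial.aeval x := by
      apply MvPolynomial.algHom_ext
      intro i
      rw [AlgHom.comp_apply, MvPolynomial.aeval_X, map_mul, MvPolynomial.aeval_X,
        MvPolynomial.aeval_X, MvPolynomial.algHom_C, ← mul_assoc, ← map_mul,
        inv_mul_cancel₀ (ha i), map_one, one_mul]
    rw [hG1, ← AlgHom.comp_apply, h1]
  have hG1ne : G1 ≠ 0 := by
    intro h
    have h1 : (MvPolynomial.aeval (fun i => MvPolynomial.C (a i) * MvPolynomial.X i) :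
        MvPolynomial (Fin c) K0 →ₐ[K0] MvPolynomial (Fin c) K0).comp
        (MvPolynomial.aeval (fun i => MvPolynomial.C (a i)⁻¹ * MvPolynomial.X i)) =
        AlgHom.id K0 (MvPolynomial (Fin c) K0) := by
      apply MvPolynomial.algHom_ext
      intro i
      rw [AlgHom.comp_apply, MvPolynomial.aeval_X, map_mul, MvPolynomial.aeval_X,
        MvPolynomial.algHom_C, ← mul_assoc, MvPolynomial.algebraMap_eq, ← map_mul,
        inv_mul_cancel₀ (ha i), map_one, one_mul, AlgHom.id_apply]
    apply h0
    have h3 : (MvPolynomial.aeval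
      (fun i => MvPolynomial.C (a i) * MvPolynomial.X i) :
        MvPolynomial (Fin c) K0 →ₐ[K0] MvPolynomial (Fin c) K0) G1 = G0 := by
      rw [hG1, ← AlgHom.comp_apply, h1, AlgHom.id_apply]
    rw [← h3, h, map_zero]
  have halg : Algebra.IsAlgebraic ℤ K0 :=
    (IsFractionRing.comap_isAlgebraic_iff (A := ℤ) (K := ℚ) (C := K0)).2 inferInstance
  obtain ⟨G, hG, hd⟩ := MvPolynomial.exists_dvd_map_of_isAlgebraic (R := ℤ) hG1ne
  refine ⟨G, hG, ?_⟩
  intro K _ _ x hx
  obtain ⟨q, hq⟩ := hd
  have h1 := MvPolynomial.aeval_map_algebraMap (A := K0) (fun i => algebraMap K0 K (a i) * x i) G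
  rw [← h1, hq, map_mul, hval K x, hx, zero_mul]

section rel

variable {F : Type} [Field F] {κ κ' : Type} [Fintype κ] [Fintype κ']

/-- the lattice of the relations of a point -/
def relL (w : κ → F) : Submodule ℤ (κ → ℤ) where
  carrier := {e | mon w e = 1}
  add_mem' := by
    intro e f he hf
    simp only [Set.mem_ofPred_eq] at he hf ⊢
    have hz : ∀ g : κ → ℤ, mon w g = 1 → ∀ l, w l = 0 → g l = 0 := by
      intro g hg l hl
      by_contra hne
      have h1 : mon w g = 0 := Finset.prod_eq_zero (Finset.mem_univ l) (by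
        rw [hl, zero_zpow _ hne])
      rw [h1] at hg
      exact zero_ne_one hg
    have h1 : mon w (e + f) = mon w e * mon w f := by
      unfold mon
      rw [← Finset.prod_mul_distrib]
      refine Finset.prod_congr rfl fun l _ => ?_
      rw [Pi.add_apply]
      by_cases hl : w l = 0
      · rw [hz e he l hl, hz f hf l hl]; simp
      · exact zpow_add₀ hl _ _
    rw [h1, he, hf, one_mul]
  zero_mem' := by
    simp [mon]
  smul_mem' := by
    intro c e he
    simp only [Set.mem_ofPred_eq] at he ⊢
    have h1 : mon w (c • e) = mon w e ^ c := by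
      unfold mon
      rw [← Finset.prod_zpow]
      refine Finset.prod_congr rfl fun l _ => ?_
      rw [Pi.smul_apply, smul_eq_mul, mul_comm, zpow_mul]
    rw [h1, he, one_zpow]

lemma mem_relL {w : κ → F} {e : κ → ℤ} : e ∈ relL w ↔ mon w e = 1 := Iff.rfl

lemma codim_iff {w : κ → F} {m : ℕ} : Codim w m ↔ m ≤ finrank ℤ (relL w) := by
  constructor
  · rintro ⟨R, hR, h⟩
    have h1 : LinearIndependent ℤ (fun k => (⟨R k, h k⟩ : relL w)) := by
      apply LinearIndependent.of_comp (relL w).subtype
      exact hR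
    have h2 := h1.fintype_card_le_finrank
    rwa [Fintype.card_fin] at h2
  · intro h
    obtain ⟨f, hf⟩ := exists_linearIndependent_of_le_finrank h
    exact ⟨fun k => (f k : κ → ℤ), hf.map' (relL w).subtype (Submodule.ker_subtype _),
      fun k => (f k).2⟩

/-- relations of a point `w` obtained from a linear map -/
theorem gen (g : κ → F) (w : κ' → F) (φ : (κ' → ℤ) →ₗ[ℤ] (κ → ℤ))
    (hφ : ∀ e, mon g (φ e) = 1 → mon w e = 1) {m M : ℕ} (h : Codim g m)
    (hM : M + Fintype.card κ ≤ Fintype.card κ' + m) : Codim w M := by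
  rw [codim_iff] at h ⊢
  have h0 := LinearMap.rank_range_add_rank_ker ((relL g).mkQ.comp φ)
  have h1 : finrank ℤ (LinearMap.range ((relL g).mkQ.comp φ)) +
      finrank ℤ (LinearMap.ker ((relL g).mkQ.comp φ)) = Fintype.card κ' := by
    rw [← finrank_eq_rank, ← finrank_eq_rank, ← finrank_eq_rank,
      finrank_fintype_fun_eq_card] at h0
    exact_mod_cast h0
  have h2 := Submodule.finrank_quotient_add_finrank (relL g)
  rw [finrank_fintype_fun_eq_card] at h2
  have h3 : finrank ℤ (LinearMap.range ((relL g).mkQ.comp φ)) ≤ finrank ℤ ((κ → ℤ) ⧸ relL g) :=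
    Submodule.finrank_le _
  have h4 : LinearMap.ker ((relL g).mkQ.comp φ) ≤ relL w := by
    intro e he
    rw [LinearMap.mem_ker, LinearMap.comp_apply, Submodule.mkQ_apply,
      Submodule.Quotient.mk_eq_zero] at he
    exact hφ e he
  have h5 := Submodule.finrank_mono h4
  omega

/-- monomials in a point of small rank -/
theorem monCodim' {n m M : ℕ} (z : Fin n → F) (hz : ∀ l, z l ≠ 0) (E : κ → Fin n → ℤ)
    (h : Codim z m) (hM : M + n ≤ Fintype.card κ + m) : Codim (fun k => mon z (E k)) M := by
  refine gen z (fun k => mon z (E k)) (Fintype.linearCombination ℤ E) ?_ h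
    (by rw [Fintype.card_fin]; exact hM)
  intro e he
  rw [mon_mon z hz]
  rw [← he]
  congr 1
  funext l
  rw [Fintype.linearCombination_apply, Finset.sum_apply]
  rfl

theorem monCodim {n N m M : ℕ} (z : Fin n → F) (hz : ∀ l, z l ≠ 0) (E : Fin N → Fin n → ℤ)
    (h : Codim z m) (hM : M + n ≤ N + m) : Codim (fun k => mon z (E k)) M :=
  monCodim' z hz E h (by rw [Fintype.card_fin]; exact hM)

/-- coordinate subsets -/
theorem codim_comp (g : κ → F) (i : κ' → κ) (hi : Function.Injective i) {m M : ℕ}
    (h : Codim g m) (hM : M + Fintype.card κ ≤ Fintype.card κ' + m) : Codim (g ∘ i) M := by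
  refine gen g (g ∘ i) (Function.ExtendByZero.linearMap ℤ i) ?_ h hM
  intro e he
  rw [← he]
  unfold mon
  apply Fintype.prod_of_injective i hi
  · intro l hl
    have h1 : Function.ExtendByZero.linearMap ℤ i e l = 0 := by
      rw [Function.ExtendByZero.linearMap_apply, Function.extend_apply']
      · rfl
      · rintro ⟨a, ha⟩
        exact hl ⟨a, ha⟩
    rw [h1, zpow_zero]
  · intro j
    rw [Function.ExtendByZero.linearMap_apply, hi.extend_apply]
    rfl

theorem codim_sub {c k m : ℕ} (g : Fin c ⊕ Fin c → F) (f : Fin k → Fin c)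
    (hf : Function.Injective f) (h : Codim g m) (M : ℕ) (hM : M + 2 * c ≤ m + 2 * k) :
    Codim (g ∘ Sum.map f f) M := by
  refine codim_comp g (Sum.map f f) (Sum.map_injective.2 ⟨hf, hf⟩) h ?_
  simp only [Fintype.card_sum, Fintype.card_fin]
  omega

end rel

end Pool.Agent.H883.ZR.INT
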