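import Pool.Agent.H883.ZR.Base4

set_option autoImplicit false
set_option linter.unusedSectionVars false

/-!
# Bounded height for products of lines at points with lacunary heights
-/

namespace Pool.Agent.H883.ZR.LB

open Real NumberField Height Module Finset MvPolynomial
open Pool.Agent.H489ZP
open Pool.Agent.H393R2.RothNS (TT DD l1)
open Pool.Agent.H883.ZQ
open Pool.Agent.H883.ZP (mon Codim relW finrank_relW log_mem_relW height_ext)

theorem lb (h : S_NFL) : S_LB := by
  classical
  intro K0 _ _ c a b hcpos ha hb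
  have hne : Nonempty (Fin c) := ⟨⟨0, hcpos⟩⟩
  obtain ⟨Bn, η, hη, hG⟩ := h (Fin c) 1 one_pos
  let s0 : Fin c × Bool → K0 := fun r => if r.2 then b r.1 else a r.1
  have hs0 : ∀ r, s0 r ≠ 0 := by
    rintro ⟨i, x⟩
    cases x
    · exact ha i
    · exact hb i
  choose C hC using fun r => height_ext (s0 r)
  set Cs : ℝ := ∑ r, |C r| with hCs
  have hCs0 : 0 ≤ Cs := Finset.sum_nonneg fun _ _ => abs_nonneg _
  have hBs : ∀ (K : Type) [Field K] [NumberField K] [Algebra K0 K] (r : Fin c × Bool),
      logHeight₁ (algebraMap K0 K (s0 r)) ≤ finrank ℚ K * Cs := by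
    intro K _ _ _ r
    refine (hC r K).trans (mul_le_mul_of_nonneg_left ?_ (by positivity))
    exact (le_abs_self _).trans (Finset.single_le_sum (f := fun r => |C r|)
      (fun _ _ => abs_nonneg _) (Finset.mem_univ r))
  set B' : ℝ := max Bn 1 with hB'
  have hB'1 : 1 ≤ B' := le_max_right _ _
  have hBB' : Bn ≤ B' := le_max_left _ _
  have hCη : 0 ≤ Cs / η := div_nonneg hCs0 hη.le
  set B0 : ℝ := 2 * B' + 2 + (2 * Cs + 2) + Cs / η with hB0
  refine ⟨η / 2, B0 + Cs, by positivity, ?_⟩
  intro K _ _ _ P g e hP hline hge hcod heε hsmall hlac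
  have hDpos : (0 : ℝ) < finrank ℚ K := finrank_pos'
  have ha' : ∀ i, algebraMap K0 K (a i) ≠ 0 := fun i => (map_ne_zero _).2 (ha i)
  have hb' : ∀ i, algebraMap K0 K (b i) ≠ 0 := fun i => (map_ne_zero _).2 (hb i)
  have hg : ∀ r, g r ≠ 0 := fun r h => hP r (by rw [hge, h, zero_mul])
  have he : ∀ r, e r ≠ 0 := fun r h => hP r (by rw [hge, h, mul_zero])
  have h1 : ∀ i, 1 - algebraMap K0 K (a i) * P (Sum.inl i) =
      algebraMap K0 K (b i) * P (Sum.inr i) := fun i => by rw [← hline i]; ring
  have hts : ∀ r, ht (algebraMap K0 K (s0 r)) ≤ Cs := by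
    intro r
    have := hBs K r
    rw [logHeight_eq] at this
    exact le_of_mul_le_mul_left this hDpos
  have hlow : ∀ i, ht (P (Sum.inl i)) ≤ ht (algebraMap K0 K (a i) * P (Sum.inl i)) + Cs := by
    intro i
    have h2 : P (Sum.inl i) = (algebraMap K0 K (a i))⁻¹ *
        (algebraMap K0 K (a i) * P (Sum.inl i)) := by
      rw [inv_mul_cancel_left₀ (ha' i)]
    have h3 := ht_mul_le (algebraMap K0 K (a i))⁻¹ (algebraMap K0 K (a i) * P (Sum.inl i))
    rw [← h2, ht_inv] at h3
    have := hts (i, false)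
    exact h3.trans (by
      have e1 : s0 (i, false) = a i := rfl
      rw [e1] at this
      linarith)
  have hup : ∀ i, ht (algebraMap K0 K (a i) * P (Sum.inl i)) ≤ ht (P (Sum.inl i)) + Cs := by
    intro i
    have h3 := ht_mul_le (algebraMap K0 K (a i)) (P (Sum.inl i))
    have := hts (i, false)
    have e1 : s0 (i, false) = a i := rfl
    rw [e1] at this
    linarith
  have hbig : ∀ i, B0 ≤ ht (algebraMap K0 K (a i) * P (Sum.inl i)) := by
    intro i
    have h2 := hsmall i
    have h3 := hlow i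
    linarith
  have hb1 : ∀ i, 1 ≤ ht (algebraMap K0 K (a i) * P (Sum.inl i)) := fun i => by
    have := hbig i
    linarith
  have hbB : ∀ i, Bn ≤ ht (algebraMap K0 K (a i) * P (Sum.inl i)) := fun i => by
    have := hbig i
    linarith
  have hbC : ∀ i, 2 * Cs + 2 ≤ ht (algebraMap K0 K (a i) * P (Sum.inl i)) := fun i => by
    have := hbig i
    linarith
  have hbη : ∀ i, Cs ≤ η * ht (algebraMap K0 K (a i) * P (Sum.inl i)) := fun i => by
    have h2 : Cs / η ≤ ht (algebraMap K0 K (a i) * P (Sum.inl i)) := by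
      have := hbig i
      linarith
    rw [div_le_iff₀ hη] at h2
    linarith
  have hstep : ∀ i j, (B0 + Cs) * ht (P (Sum.inl i)) ≤ ht (P (Sum.inl j)) →
      Bn * ht (algebraMap K0 K (a i) * P (Sum.inl i)) ≤
        ht (algebraMap K0 K (a j) * P (Sum.inl j)) := by
    intro i j hij
    have h2 := hlow j
    have h3 := hup i
    have h4 := hbC i
    have h5 : (2 * B' + 2) * ht (P (Sum.inl i)) + (2 * Cs + 2) * 1 ≤
        (B0 + Cs) * ht (P (Sum.inl i)) := by
      have h6 : 1 ≤ ht (P (Sum.inl i)) := by linarith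
      have h7 : (2 * Cs + 2) * 1 ≤ (2 * Cs + 2) * ht (P (Sum.inl i)) :=
        mul_le_mul_of_nonneg_left h6 (by linarith)
      have h8 : 0 ≤ (Cs / η + Cs) * ht (P (Sum.inl i)) := by
        apply mul_nonneg <;> linarith
      have h9 : (B0 + Cs) * ht (P (Sum.inl i)) = (2 * B' + 2) * ht (P (Sum.inl i)) +
          (2 * Cs + 2) * ht (P (Sum.inl i)) + (Cs / η + Cs) * ht (P (Sum.inl i)) := by
        rw [hB0]
        ring
      linarith
    have h6 : ht (algebraMap K0 K (a i) * P (Sum.inl i)) ≤ 2 * ht (P (Sum.inl i)) := by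
      linarith
    have h7 : Bn * ht (algebraMap K0 K (a i) * P (Sum.inl i)) ≤
        B' * ht (algebraMap K0 K (a i) * P (Sum.inl i)) :=
      mul_le_mul_of_nonneg_right hBB' (by linarith)
    have h8 : B' * ht (algebraMap K0 K (a i) * P (Sum.inl i)) ≤
        B' * (2 * ht (P (Sum.inl i))) := mul_le_mul_of_nonneg_left h6 (by linarith)
    have h9 : 1 ≤ ht (P (Sum.inl i)) := by linarith
    linarith
  have hLac : Lac Bn (fun i => ht (algebraMap K0 K (a i) * P (Sum.inl i))) := by
    refine ⟨hbB, fun i j hij => ?_⟩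
    rcases hlac i j hij with h2 | h2
    · exact Or.inl (hstep i j h2)
    · exact Or.inr (hstep j i h2)
  have hfin : finrank ℝ ((relW g).map (qs c)) ≤ Fintype.card (Fin c) := by
    refine (Submodule.finrank_map_le _ _).trans ?_
    have := finrank_relW hcod
    rw [Fintype.card_sum, Fintype.card_fin] at this
    rw [Fintype.card_fin]
    omega
  have hU : ∀ r : Fin c × Bool, U (fun i => algebraMap K0 K (a i) * P (Sum.inl i)) r =
      algebraMap K0 K (s0 r) * P (swp r) := by
    rintro ⟨i, x⟩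
    cases x
    · rfl
    · rw [U_true, h1]
      rfl
  have hmem : ∀ (v : K →*₀ ℝ), (∀ x, x ≠ 0 → 0 < v x) →
      lw v (fun i => algebraMap K0 K (a i) * P (Sum.inl i)) (fun r => algebraMap K0 K (s0 r))
        (fun r => e (swp r)) ∈ (relW g).map (qs c) := by
    intro v hv
    refine Submodule.mem_map.2 ⟨fun l => Real.log (v (g l)), log_mem_relW v hv hg, ?_⟩
    funext r
    show Real.log (v (g (swp r))) = _
    unfold lw
    rw [hU, hge, map_mul, map_mul, Real.log_mul (hv _ ((map_ne_zero _).2 (hs0 r))).ne'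
      (mul_pos (hv _ (hg _)) (hv _ (he _))).ne',
      Real.log_mul (hv _ (hg _)).ne' (hv _ (he _)).ne']
    ring
  refine hG K (fun i => algebraMap K0 K (a i) * P (Sum.inl i))
    (fun i => mul_ne_zero (ha' i) (hP _))
    (fun i => by rw [h1]; exact mul_ne_zero (hb' i) (hP _))
    (fun i => ht (algebraMap K0 K (a i) * P (Sum.inl i))) hLac hb1
    (fun i => le_of_eq (logHeight_eq _))
    (fun i => by rw [one_mul, logHeight_eq])
    (fun r => algebraMap K0 K (s0 r)) (fun r => e (swp r))
    (fun r => (map_ne_zero _).2 (hs0 r)) (fun r => he _) ?_ ?_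
    ((relW g).map (qs c)) hfin ?_ ?_
  · intro r
    exact (hBs K r).trans (mul_le_mul_of_nonneg_left (hbη r.1) hDpos.le)
  · intro r
    rw [logHeight_eq]
    have hix : ix (swp r) = r.1 := by
      rcases r with ⟨i, x⟩
      cases x
      · rfl
      · rfl
    have h2 := heε (swp r)
    rw [hix] at h2
    have h3 := hlow r.1
    have h4 := hbC r.1
    refine mul_le_mul_of_nonneg_left (h2.trans ?_) hDpos.le
    have h6 : ht (P (Sum.inl r.1)) ≤ 2 * ht (algebraMap K0 K (a r.1) * P (Sum.inl r.1)) := by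
      linarith
    calc η / 2 * ht (P (Sum.inl r.1)) ≤
          η / 2 * (2 * ht (algebraMap K0 K (a r.1) * P (Sum.inl r.1))) :=
          mul_le_mul_of_nonneg_left h6 (by positivity)
      _ = _ := by ring
  · intro σ
    exact hmem ⟨⟨fun x => ‖σ x‖, by simp⟩, by simp, fun x y => by simp⟩
      (fun x hx => norm_pos_iff.2 ((map_ne_zero σ).2 hx))
  · intro v
    exact hmem ⟨⟨fun x => v x, map_zero v⟩, map_one v, map_mul v⟩
      (fun x hx => FinitePlace.pos_iff.2 hx)

end Pool.Agent.H883.ZR.LB
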