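import Pool.Agent.H883.ZR.Base3
import Pool.Agent.H883.ZQ.Fixed2

set_option autoImplicit false
set_option linter.unusedSectionVars false

/-!
# Fixed vectors, lacunary large heights and bounded heights
-/

namespace Pool.Agent.H883.ZR.FL

open Real NumberField Height Module Finset
open Pool.Agent.H489ZP
open Pool.Agent.H393R2.RothNS (TT DD l1)
open Pool.Agent.H883.ZQ

lemma lac_mono {I : Type} {B B' : ℝ} {H : I → ℝ} (h : Lac B H) (hB : B' ≤ B)
    (hH : ∀ i, 0 ≤ H i) : Lac B' H :=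
  ⟨fun i => hB.trans (h.1 i), fun i j hij => (h.2 i j hij).imp
    (fun h1 => (mul_le_mul_of_nonneg_right hB (hH i)).trans h1)
    (fun h1 => (mul_le_mul_of_nonneg_right hB (hH j)).trans h1)⟩

variable {I : Type} [Fintype I] [DecidableEq I]

lemma nearW_mono {K : Type} [Field K] [NumberField K] {d : ℕ} {u : I → K}
    {ξ : I × Bool → Fin d → ℝ} {H : I → ℝ} {t : AbsoluteValue K ℝ → Fin d → ℝ}
    {err : AbsoluteValue K ℝ → ℝ} {η η' : ℝ} (h : NearW u ξ H t err η) (hη : η ≤ η') :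
    NearW u ξ H t err η' :=
  ⟨h.inf, h.fin, fun T => (h.tot T).trans (mul_le_mul_of_nonneg_right hη (Nat.cast_nonneg _))⟩

/-- the logarithms for the transformed coordinates -/
lemma tr_logW {K : Type} [Field K] {d : ℕ} {u : I → K} (hu0 : ∀ i, u i ≠ 0)
    (hu1 : ∀ i, 1 - u i ≠ 0) (p : I → Fin 3) {ξ : I × Bool → Fin d → ℝ} {H : I → ℝ} {e : ℝ}
    {t : Fin d → ℝ} {f : AbsoluteValue K ℝ}
    (h : ∀ r, |log (f (U u r)) - H r.1 * ∑ k, ξ r k * t k| ≤ H r.1 * e) (r : I × Bool) :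
    |log (f (U (fun i => tr (p i) (u i)) r)) - (2 * H r.1) * ∑ k, trx p ξ r k * t k| ≤
      (2 * H r.1) * e := by
  obtain ⟨i, b⟩ := r
  exact tr_log (I := Unit) (u := fun _ => u i) (fun _ => hu0 i) (fun _ => hu1 i)
    (fun _ => p i) (ξ := fun r => ξ (i, r.2)) (H := H i) (e := e) (t := t) (f := f)
    ((abs_nonneg _).trans (h (i, true))) (fun r => h (i, r.2)) ((), b)

lemma tr_nearW {K : Type} [Field K] [NumberField K] {d : ℕ} {u : I → K} (hu0 : ∀ i, u i ≠ 0)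
    (hu1 : ∀ i, 1 - u i ≠ 0) (p : I → Fin 3) {ξ : I × Bool → Fin d → ℝ} {H : I → ℝ}
    {t : AbsoluteValue K ℝ → Fin d → ℝ} {err : AbsoluteValue K ℝ → ℝ} {η : ℝ}
    (h : NearW u ξ H t err η) :
    NearW (fun i => tr (p i) (u i)) (trx p ξ) (fun i => 2 * H i) t err η :=
  ⟨fun v r => tr_logW hu0 hu1 p (h.inf v) r, fun v r => tr_logW hu0 hu1 p (h.fin v) r, h.tot⟩

/-- a lower bound for the height of a transformed coordinate -/
lemma tr_height_ge {K : Type} [Field K] [NumberField K] (p : Fin 3) (x : K) :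
    logHeight₁ x ≤ logHeight₁ (tr p x) + finrank ℚ K * 1 := by
  have hD : (0 : ℝ) ≤ finrank ℚ K := Nat.cast_nonneg _
  have hl1 : Real.log 2 < 1 := by linarith [Real.log_two_lt_d9]
  rcases fin3 p with rfl | rfl | rfl
  · rw [tr_zero]
    linarith
  · rw [tr_one]
    have h1 := height_one_sub (1 - x)
    rw [sub_sub_cancel] at h1
    have h2 : (finrank ℚ K : ℝ) * log 2 ≤ finrank ℚ K * 1 := mul_le_mul_of_nonneg_left hl1.le hD
    linarith
  · rw [tr_two, logHeight₁_inv]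
    linarith

/-- the conclusion for bad patterns -/
def BPW {d : ℕ} (ξ : I × Bool → Fin d → ℝ) (κ0 : ℝ) (Q : Finset I) (p : I → Fin 3)
    (θ θ1 m0 B η : ℝ) : Prop :=
  ∀ (K : Type) [Field K] [NumberField K] (u : I → K), (∀ i, u i ≠ 0) → (∀ i, 1 - u i ≠ 0) →
    ∀ H : I → ℝ, Lac B H → (∀ i, 1 ≤ H i) →
    ∀ (t : AbsoluteValue K ℝ → Fin d → ℝ) (err : AbsoluteValue K ℝ → ℝ),
    NearW u ξ H t err η → (∀ i, logHeight₁ (u i) ≤ finrank ℚ K * H i) →
    (∀ i, finrank ℚ K * (κ0 * H i) ≤ logHeight₁ (u i)) →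
    ∀ S : Finset (K →+* ℂ), m0 * finrank ℚ K ≤ S.card →
    ¬ ∀ σ ∈ S, (∀ i ∈ Q, log ‖σ (tr (p i) (u i))‖ ≤ -(θ * H i)) ∧
      ∀ i, i ∉ Q → ∀ b, |log ‖σ (U u (i, b))‖| ≤ θ1 * H i

lemma badW (hIT : S_IT) (hAUX : S_AUX) {d : ℕ} (ξ : I × Bool → Fin d → ℝ) {κ0 : ℝ}
    (hκ0 : 0 < κ0) (ϖ : Finset I × (I → Fin 3)) (hbad : BadPat ξ ϖ)
    (hT : ∀ T : Finset I, T.Nonempty → T.card + 1 ≤ rk ξ T) {θ m0 : ℝ} (hθ : 0 < θ)
    (hm0 : 0 < m0) :
    ∃ θ1 : ℝ, 0 < θ1 ∧ ∃ B η : ℝ, 0 < η ∧ BPW ξ κ0 ϖ.1 ϖ.2 θ θ1 m0 B η := by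
  classical
  obtain ⟨Q, p⟩ := ϖ
  obtain ⟨hp0, hbad⟩ := hbad
  have hp : ∀ i, i ∉ Q → p i = 0 := hp0
  have hne : Nonempty I := Fintype.card_pos_iff.1 (by omega)
  obtain ⟨θ1, C, δ, η, hθ1, hC, hδ, hη, h⟩ := hAUX I d (trx p ξ) Q hbad
    (fun T hne => (hT T hne).trans (rk_trx p ξ T)) (θ / 2) m0 (by linarith) hm0
  obtain ⟨B, hB⟩ := hIT I C δ (κ0 / 4) (by linarith) hδ (by linarith)
  refine ⟨θ1, hθ1, max (max C B) (2 / κ0), η, hη, ?_⟩
  intro K _ _ u hu0 hu1 H hLac hH1 t err hnear hht hκH S hScard hS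
  have hDpos : (0 : ℝ) < finrank ℚ K := by exact_mod_cast finrank_pos
  have hHB : ∀ i, C ≤ H i := fun i =>
    ((le_max_left _ _).trans (le_max_left _ _)).trans (hLac.1 i)
  have hHκ : ∀ i, 2 / κ0 ≤ H i := fun i => (le_max_right _ _).trans (hLac.1 i)
  have hLac' : Lac B H := lac_mono hLac ((le_max_right _ _).trans (le_max_left _ _))
    (fun i => by linarith [hH1 i])
  obtain ⟨i1, hi1⟩ := Finite.exists_max H
  obtain ⟨F, hF, hdeg, hl1, hvan⟩ := h K (fun i => tr (p i) (u i))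
    (fun i => tr_ne (hu0 i) (hu1 i) _) (fun i => tr_ne1 (hu0 i) (hu1 i) _) (fun i => 2 * H i) i1
    (fun i => by
      have := hi1 i
      show 2 * H i ≤ 2 * H i1
      linarith)
    (fun i => by
      have h1 := hHB i
      have h2 := hH1 i
      show C ≤ 2 * H i
      linarith) t err (tr_nearW hu0 hu1 p hnear)
    (fun i => tr_height (hH1 i) (hht i) _) S hScard (by
    intro σ hσ
    obtain ⟨h1, h2⟩ := hS σ hσ
    refine ⟨fun i hi => ?_, fun i hi b => ?_⟩
    · have := h1 i hi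
      show log ‖σ (tr (p i) (u i))‖ ≤ -(θ / 2 * (2 * H i))
      have h3 : θ / 2 * (2 * H i) = θ * H i := by ring
      rw [h3]
      exact this
    · have h3 : U (fun i => tr (p i) (u i)) (i, b) = U u (i, b) := by
        cases b
        · rw [U_false, U_false, hp i hi, tr_zero]
        · rw [U_true, U_true, hp i hi, tr_zero]
      rw [h3]
      have h4 := h2 i hi b
      have h5 : 0 ≤ θ1 * H i := mul_nonneg hθ1.le (by linarith [hH1 i])
      show |log ‖σ (U u (i, b))‖| ≤ θ1 * (2 * H i)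
      linarith)
  refine hB K (fun i => tr (p i) (u i)) (fun i => 2 * H i) i1 (fun i => by
      have := hi1 i
      show 2 * H i ≤ 2 * H i1
      linarith) ⟨fun i => ?_, fun i j hij => ?_⟩ (fun i => ?_) F hF hdeg hl1 hvan
  · have h1 := hLac'.1 i
    have h2 := hH1 i
    show B ≤ 2 * H i
    linarith
  · show B * (2 * H i) ≤ 2 * H j ∨ B * (2 * H j) ≤ 2 * H i
    rcases hLac'.2 i j hij with h1 | h1
    · left
      linarith
    · right
      linarith
  · show finrank ℚ K * (κ0 / 4 * (2 * H i)) ≤ logHeight₁ (tr (p i) (u i))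
    have h1 := tr_height_ge (p i) (u i)
    have h2 := hκH i
    have h3 : 1 ≤ κ0 / 2 * H i := by
      have h4 := hHκ i
      rw [div_le_iff₀ hκ0] at h4
      linarith
    have h4 : (finrank ℚ K : ℝ) * 1 ≤ finrank ℚ K * (κ0 / 2 * H i) :=
      mul_le_mul_of_nonneg_left h3 hDpos.le
    have h5 : (finrank ℚ K : ℝ) * (κ0 / 4 * (2 * H i)) + finrank ℚ K * (κ0 / 2 * H i) =
        finrank ℚ K * (κ0 * H i) := by ring
    linarith

lemma BPW.mono {d : ℕ} {ξ : I × Bool → Fin d → ℝ} {κ0 : ℝ} {Q : Finset I} {p : I → Fin 3}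
    {θ θ1 θ1' m0 B B' η η' : ℝ} (h : BPW ξ κ0 Q p θ θ1 m0 B η) (hθ : θ1' ≤ θ1) (hB : B ≤ B')
    (hη : η' ≤ η) : BPW ξ κ0 Q p θ θ1' m0 B' η' := by
  intro K _ _ u hu0 hu1 H hLac hH1 t err hnear hht hκH S hScard hS
  refine h K u hu0 hu1 H (lac_mono hLac hB fun i => by linarith [hH1 i]) hH1 t err
    (nearW_mono hnear hη) hht hκH S hScard ?_
  intro σ hσ
  refine ⟨(hS σ hσ).1, fun i hi b => ((hS σ hσ).2 i hi b).trans ?_⟩
  exact mul_le_mul_of_nonneg_right hθ (by linarith [hH1 i])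

lemma stepW (hIT : S_IT) (hAUX : S_AUX) {d : ℕ} (ξ : I × Bool → Fin d → ℝ) {κ0 : ℝ}
    (hκ0 : 0 < κ0)
    (hT : ∀ T : Finset I, T.Nonempty → T.card + 1 ≤ rk ξ T) {m0 : ℝ} (hm0 : 0 < m0) (θ : ℝ)
    (hθ : 0 < θ) : ∃ θ' : ℝ, (0 < θ' ∧ θ' ≤ θ) ∧ ∃ (B η : ℝ), 0 < η ∧ ∀ ϖ, 
        BadPat ξ ϖ → BPW ξ κ0 ϖ.1 ϖ.2 (θ / 2) θ' m0 B η := by
  classical
  have h1 : ∀ ϖ : Finset I × (I → Fin 3), ∃ θ1 : ℝ, 0 < θ1 ∧
      ∃ B η : ℝ, 0 < η ∧ (BadPat ξ ϖ → BPW ξ κ0 ϖ.1 ϖ.2 (θ / 2) θ1 m0 B η) := by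
    intro ϖ
    by_cases hp' : BadPat ξ ϖ
    · obtain ⟨θ1, hθ1, B, η, hη, h⟩ := badW hIT hAUX ξ hκ0 ϖ hp' hT
        (θ := θ / 2) (by linarith) hm0
      exact ⟨θ1, hθ1, B, η, hη, fun _ => h⟩
    · exact ⟨1, one_pos, 1, 1, one_pos, fun h => absurd h hp'⟩
  choose θ1 hθ1 B η hη h using h1
  obtain ⟨ε, hε, hεle⟩ := exists_pos_le θ1 hθ1
  obtain ⟨η', hη', hηle⟩ := exists_pos_le η hη
  obtain ⟨M, hM⟩ := exists_ge_all B
  exact ⟨min ε θ, ⟨lt_min hε hθ, min_le_right _ _⟩, M, η', hη', fun ϖ hp' =>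
    (h ϖ hp').mono ((min_le_left _ _).trans (hεle ϖ)) (hM ϖ) (hηle ϖ)⟩

/-- decreasing thresholds -/
lemma levelsW (hIT : S_IT) (hAUX : S_AUX) {d : ℕ} (ξ : I × Bool → Fin d → ℝ) {κ0 : ℝ}
    (hκ0 : 0 < κ0)
    (hT : ∀ T : Finset I, T.Nonempty → T.card + 1 ≤ rk ξ T) {m0 : ℝ} (hm0 : 0 < m0) {θ0 : ℝ}
    (hθ0 : 0 < θ0) (q : ℕ) : ∃ θ : ℕ → ℝ, θ 0 = θ0 ∧ (∀ l, 0 < θ l) ∧ Antitone θ ∧
      ∃ (B η : ℝ), 0 < η ∧ ∀ l ≤ q, ∀ ϖ, BadPat ξ ϖ →
        BPW ξ κ0 ϖ.1 ϖ.2 (θ l / 2) (θ (l + 1)) m0 B η := by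
  classical
  choose nx hnx B η hη hG using stepW hIT hAUX ξ hκ0 hT hm0
  let s : ℕ → {θ : ℝ // 0 < θ} := fun n =>
    Nat.rec ⟨θ0, hθ0⟩ (fun _ x => ⟨nx x.1 x.2, (hnx x.1 x.2).1⟩) n
  have hs : ∀ l, (s (l + 1)).1 = nx (s l).1 (s l).2 := fun l => rfl
  refine ⟨fun l => (s l).1, rfl, fun l => (s l).2, antitone_nat_of_succ_le fun l => ?_, ?_⟩
  · rw [hs]
    exact (hnx _ _).2
  · obtain ⟨ε, hε, hεle⟩ := exists_pos_le (fun l : Fin (q + 1) => η (s l).1 (s l).2)
      (fun l => hη _ _)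
    obtain ⟨M, hM⟩ := exists_ge_all (fun l : Fin (q + 1) => B (s l).1 (s l).2)
    refine ⟨M, ε, hε, ?_⟩
    intro l hl ϖ hp'
    let l' : Fin (q + 1) := ⟨l, by omega⟩
    exact (hG (s l').1 (s l').2 ϖ hp').mono le_rfl (hM l') (hεle l')

/-- the values of the functionals at a point in a pattern -/
lemma Phi_leW {K : Type} [Field K] {d : ℕ} {u : I → K} (hu0 : ∀ i, u i ≠ 0)
    (hu1 : ∀ i, 1 - u i ≠ 0) {ξ : I × Bool → Fin d → ℝ} {H : I → ℝ} {e θ ε : ℝ} {t : Fin d → ℝ}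
    (hH : ∀ i, 0 < H i) (hHε : ∀ i, 1 / H i ≤ ε)
    {σ : K →+* ℂ} {w : Finset I × (I → Fin 3)}
    (h : ∀ r, |log ‖σ (U u r)‖ - H r.1 * ∑ k, ξ r k * t k| ≤ H r.1 * e)
    (hw : ∀ i, i ∉ w.1 → w.2 i = 0) (h1 : ∀ i ∈ w.1, log ‖σ (tr (w.2 i) (u i))‖ ≤ -1)
    (h2 : ∀ i, i ∉ w.1 → ∀ b, |log ‖σ (U u (i, b))‖| ≤ θ * H i) (hθ : 0 ≤ θ) (r : R0 w.1) :
    |Phi ξ w t r| ≤ θ + ε + e := by
  rw [Phi_apply]
  obtain ⟨⟨i, b⟩, hr⟩ := r
  have hHpos := hH i
  have hHi : 0 < 1 / H i := by positivity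
  have hHi2 := hHε i
  let f : AbsoluteValue K ℝ :=
    { toFun := fun x => ‖σ x‖
      map_mul' := fun x y => by rw [map_mul, norm_mul]
      nonneg' := fun x => norm_nonneg _
      eq_zero' := fun x => by rw [norm_eq_zero, map_eq_zero]
      add_le' := fun x y => by rw [map_add]; exact norm_add_le _ _ }
  have hf : ∀ x, f x = ‖σ x‖ := fun x => rfl
  have h3 := tr_logW (f := f) hu0 hu1 w.2 h (i, b)
  have key : ∀ S : ℝ, |log (f (U (fun i => tr (w.2 i) (u i)) (i, b)))| ≤ S →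
      |∑ k, trx w.2 ξ (i, b) k * t k| ≤ S / (2 * H i) + e := by
    intro S hS
    have h4 : |(2 * H i) * ∑ k, trx w.2 ξ (i, b) k * t k| ≤ S + 2 * H i * e := by
      have e1 : (2 * H i) * ∑ k, trx w.2 ξ (i, b) k * t k =
          log (f (U (fun i => tr (w.2 i) (u i)) (i, b))) -
          (log (f (U (fun i => tr (w.2 i) (u i)) (i, b))) -
            (2 * H i) * ∑ k, trx w.2 ξ (i, b) k * t k) := by ring
      rw [e1]
      exact (abs_sub _ _).trans (add_le_add hS h3)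
    rw [abs_mul, abs_of_pos (by positivity : 0 < 2 * H i)] at h4
    have h5 : |∑ k, trx w.2 ξ (i, b) k * t k| ≤ (S + 2 * H i * e) / (2 * H i) := by
      rw [le_div_iff₀ (by positivity)]
      linarith
    refine h5.trans (le_of_eq ?_)
    field_simp
  by_cases hi : i ∈ w.1
  · have hb : b = true := (Finset.mem_filter.1 hr).2 hi
    subst hb
    have h4 : |log (f (U (fun i => tr (w.2 i) (u i)) (i, true)))| ≤ 1 := by
      rw [U_true, hf, map_sub, map_one]
      have hz0 : σ (tr (w.2 i) (u i)) ≠ 0 := (map_ne_zero σ).2 (tr_ne (hu0 i) (hu1 i) _)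
      have h5 := h1 i hi
      have h6 : ‖σ (tr (w.2 i) (u i))‖ ≤ 1 / 2 := by
        have h7 := (Real.log_le_iff_le_exp (norm_pos_iff.2 hz0)).1 h5
        have h9 : exp (-1) ≤ 1 / 2 := by
          rw [Real.exp_neg, one_div]
          apply inv_anti₀ (by norm_num)
          have := Real.add_one_le_exp (1 : ℝ)
          linarith
        exact h7.trans h9
      set z := σ (tr (w.2 i) (u i)) with hz
      have h7 : 1 / 2 ≤ ‖1 - z‖ := by
        have := norm_sub_norm_le (1 : ℂ) z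
        rw [norm_one] at this
        linarith
      have h8 : ‖1 - z‖ ≤ 2 := by
        have := norm_sub_le (1 : ℂ) z
        rw [norm_one] at this
        linarith
      have hl1 : Real.log 2 < 1 := by linarith [Real.log_two_lt_d9]
      rw [abs_le]
      constructor
      · have := Real.log_le_log (by norm_num) h7
        rw [one_div, Real.log_inv] at this
        linarith
      · have := Real.log_le_log (by linarith) h8
        linarith
    have h5 := key 1 h4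
    have h6 : 1 / (2 * H i) ≤ 1 / H i := by
      apply one_div_le_one_div_of_le hHpos
      linarith
    show |∑ k, trx w.2 ξ (i, true) k * t k| ≤ θ + ε + e
    linarith
  · have h4 : |log (f (U (fun i => tr (w.2 i) (u i)) (i, b)))| ≤ θ * H i := by
      have h5 : U (fun i => tr (w.2 i) (u i)) (i, b) = U u (i, b) := by
        cases b
        · rw [U_false, U_false, hw i hi, tr_zero]
        · rw [U_true, U_true, hw i hi, tr_zero]
      rw [h5]
      exact h2 i hi b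
    have h5 := key _ h4
    have h6 : θ * H i / (2 * H i) = θ / 2 := by field_simp
    rw [h6] at h5
    show |∑ k, trx w.2 ξ (i, b) k * t k| ≤ θ + ε + e
    linarith

/-- a subset of small rank does not occur -/
lemma smallRank (hSS : S_S) (hST : S_T) (hIT : S_IT) {d : ℕ} (ξ : I × Bool → Fin d → ℝ)
    (hS : ∃ S : Finset I, S.Nonempty ∧ rk ξ S ≤ S.card) {κ0 : ℝ} (hκ0 : 0 < κ0) :
    ∃ B η : ℝ, 0 < η ∧
      ∀ (K : Type) [Field K] [NumberField K] (u : I → K), (∀ i, u i ≠ 0) → (∀ i, 1 - u i ≠ 0) →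
      ∀ H : I → ℝ, Lac B H → (∀ i, 1 ≤ H i) →
      ∀ (t : AbsoluteValue K ℝ → Fin d → ℝ) (err : AbsoluteValue K ℝ → ℝ),
      NearW u ξ H t err η → (∀ i, logHeight₁ (u i) ≤ finrank ℚ K * H i) →
      ¬ ∀ i, finrank ℚ K * (κ0 * H i) ≤ logHeight₁ (u i) := by
  classical
  obtain ⟨S0, hS0, hS0r⟩ := hS
  obtain ⟨S, hSm, hmin⟩ := Finset.exists_min_image
    (Finset.univ.filter fun S : Finset I => S.Nonempty ∧ rk ξ S ≤ S.card) Finset.card
    ⟨S0, Finset.mem_filter.2 ⟨Finset.mem_univ _, hS0, hS0r⟩⟩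
  obtain ⟨hSne, hSr⟩ := (Finset.mem_filter.1 hSm).2
  let ξ' : S × Bool → Fin d → ℝ := fun r => ξ (r.1.1, r.2)
  have hrk' : ∀ T' : Finset S, rk ξ' T' = rk ξ (T'.map (Function.Embedding.subtype _)) := by
    intro T'
    have hset : ξ' '' (ov T' : Set (S × Bool)) =
        ξ '' (ov (T'.map (Function.Embedding.subtype _)) : Set (I × Bool)) := by
      ext x
      constructor
      · rintro ⟨⟨i, b⟩, hr, rfl⟩
        rw [Finset.mem_coe, mem_ov] at hr
        refine ⟨(i.1, b), ?_, rfl⟩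
        rw [Finset.mem_coe, mem_ov]
        exact Finset.mem_map_of_mem _ hr
      · rintro ⟨⟨i, b⟩, hr, rfl⟩
        rw [Finset.mem_coe, mem_ov, Finset.mem_map] at hr
        obtain ⟨i', hi', rfl⟩ := hr
        exact ⟨(i', b), by rw [Finset.mem_coe, mem_ov]; exact hi', rfl⟩
    unfold rk
    rw [hset]
  have hne : Nonempty S := ⟨⟨_, hSne.choose_spec⟩⟩
  have hmapuniv : (Finset.univ : Finset S).map (Function.Embedding.subtype _) = S := by
    ext i
    simp
  obtain ⟨C, δ, η, hC, hδ, hη, h⟩ := WLC hSS hST S ξ' (by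
    rw [hrk', hmapuniv, Fintype.card_coe]
    exact hSr) (by
    intro T' hT' hTu
    rw [hrk']
    by_contra hcon
    push Not at hcon
    have h1 : (T'.map (Function.Embedding.subtype _)) ∈
        (Finset.univ.filter fun S : Finset I => S.Nonempty ∧ rk ξ S ≤ S.card) := by
      rw [Finset.mem_filter]
      refine ⟨Finset.mem_univ _, hT'.map, ?_⟩
      rw [Finset.card_map]
      omega
    have h2 := hmin _ h1
    rw [Finset.card_map] at h2
    apply hTu
    rw [← Finset.card_eq_iff_eq_univ, Fintype.card_coe]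
    have h3 : T'.card ≤ Fintype.card S := Finset.card_le_univ _
    rw [Fintype.card_coe] at h3
    omega) hκ0
  obtain ⟨B, hB⟩ := hIT S C δ κ0 (by linarith) hδ hκ0
  refine ⟨max C B, η, hη, ?_⟩
  intro K _ _ u hu0 hu1 H hLac hH1 t err hnear hht hκH
  obtain ⟨i1, hi1⟩ := Finite.exists_max fun i : S => H i.1
  obtain ⟨F, hF, hdeg, hl1, hvan⟩ := h K (fun i => u i.1) (fun i => hu0 _) (fun i => hu1 _)
    (fun i => H i.1) i1 hi1 (fun i => (le_max_left _ _).trans (hLac.1 i.1)) t err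
    ⟨fun v r => hnear.inf v (r.1.1, r.2), fun v r => hnear.fin v (r.1.1, r.2), hnear.tot⟩
    (fun i => hht _) (hκH _)
  have hLac' : Lac B H := lac_mono hLac (le_max_right _ _) (fun i => by linarith [hH1 i])
  exact hB K (fun i => u i.1) (fun i => H i.1) i1 hi1
    ⟨fun i => hLac'.1 i.1, fun i j hij => hLac'.2 i.1 j.1 fun h0 => hij (Subtype.ext h0)⟩
    (fun i => hκH _) F hF hdeg hl1 hvan

/-- **Fixed vectors, lacunary large heights and bounded heights.** -/
theorem fl (hSS : S_S) (hST : S_T) (hAUX : S_AUX) (hIT : S_IT) : S_FL := by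
  intro I J _ _ _ _ d hd ξ ζ κ0 B0 k hκ0
  classical
  by_cases hS : ∃ S : Finset I, S.Nonempty ∧ rk ξ S ≤ S.card
  · obtain ⟨B, η, hη, h⟩ := smallRank hSS hST hIT ξ hS hκ0
    refine ⟨1, B, η, one_ne_zero, hη, ?_⟩
    intro K _ _ u w hu0 hu1 hw0 hw1 H hLac hH1 t err hnear htot hht hκH hB P hP
    exact absurd hκH (h K u hu0 hu1 H hLac hH1 t err hnear hht)
  have hT : ∀ T : Finset I, T.Nonempty → T.card + 1 ≤ rk ξ T := by
    intro T hT
    by_contra hcon
    exact hS ⟨T, hT, by omega⟩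
  have hJ : 0 < Fintype.card J := by
    rcases isEmpty_or_nonempty I with he | hne
    · rw [Fintype.card_eq_zero] at hd
      omega
    · have h1 := hT Finset.univ Finset.univ_nonempty
      rw [Finset.card_univ] at h1
      have h2 : rk ξ Finset.univ ≤ d := by
        refine (Submodule.finrank_le _).trans ?_
        rw [Module.finrank_fin_fun]
      omega
  -- the constants
  set q := Fintype.card I with hq
  set nP := Fintype.card (Finset I × (I → Fin 3)) with hnP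
  have hnP0 : 0 < nP := Fintype.card_pos_iff.2 ⟨(∅, fun _ => 0)⟩
  have hnPr : (0 : ℝ) < nP := by exact_mod_cast hnP0
  set m0 : ℝ := 1 / (16 * ((q + 1) * nP)) with hm0
  have hm00 : 0 < m0 := by positivity
  obtain ⟨G', δ, hG', hδ, hbd⟩ := Pool.Agent.H883.ZP.boundedG J
    (Fintype.card ((Finset I × (I → Fin 3)) × Fin k)) B0
  choose C hC0 hC using fun w : Finset I × (I → Fin 3) => ker_dist (Phi ξ w)
  obtain ⟨C', hC'⟩ := exists_ge_all C
  have hC'0 : 0 ≤ C' := (hC0 (∅, fun _ => 0)).trans (hC' _)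
  set Z : ℝ := ∑ r, ∑ k, |ζ r k| with hZ
  have hZ0 : 0 ≤ Z := Finset.sum_nonneg fun _ _ => Finset.sum_nonneg fun _ _ => abs_nonneg _
  set ε0 : ℝ := δ / (4 * (Z * C' + 1)) with hε0
  have hε00 : 0 < ε0 := by positivity
  have hε01 : (Z * C' + 1) * ε0 = δ / 4 := by
    rw [hε0]
    field_simp
  obtain ⟨θ, hθ0, hθpos, hθanti, B1, η, hη, hlev⟩ := levelsW hIT hAUX ξ hκ0 hT hm00 hε00 q
  refine ⟨G', max B1 (max (1 / ε0) (4 / θ q)), min η (ε0 / 16), hG',
    lt_min hη (by positivity), ?_⟩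
  intro K _ _ u w hu0 hu1 hw0 hw1 H hLac hH1 t err hnear htot hht hκH hB P hP
  have hHpos : ∀ i, 0 < H i := fun i => by linarith [hH1 i]
  have hLac1 : Lac B1 H := lac_mono hLac (le_max_left _ _) fun i => (hHpos i).le
  have hH3 : ∀ i, 1 / H i ≤ ε0 := by
    intro i
    have h1 : 1 / ε0 ≤ H i := ((le_max_left _ _).trans (le_max_right _ _)).trans (hLac.1 i)
    rw [div_le_iff₀ (hHpos i)]
    rw [div_le_iff₀ hε00] at h1
    linarith
  have hH4 : ∀ i, 4 ≤ θ q * H i := by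
    intro i
    have h1 : 4 / θ q ≤ H i := ((le_max_right _ _).trans (le_max_right _ _)).trans (hLac.1 i)
    rw [div_le_iff₀ (hθpos q)] at h1
    linarith
  have hDpos : (0 : ℝ) < finrank ℚ K := by exact_mod_cast finrank_pos
  have hJne : Nonempty J := Fintype.card_pos_iff.1 hJ
  have herr : ∀ v : InfinitePlace K, 0 ≤ err v.1 := by
    intro v
    obtain ⟨i, hi⟩ := hP v.embedding
    have := (abs_nonneg _).trans (hi (Classical.arbitrary _))
    rwa [InfinitePlace.mk_embedding] at this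
  -- the exceptional embeddings
  let Bs : ℕ → Finset I × (I → Fin 3) → Finset (K →+* ℂ) := fun l w => Finset.univ.filter fun σ =>
    (∀ i ∈ w.1, log ‖σ (tr (w.2 i) (u i))‖ ≤ -(θ l / 2 * H i)) ∧
      ∀ i, i ∉ w.1 → ∀ b, |log ‖σ (U u (i, b))‖| ≤ θ (l + 1) * H i
  have hBs : ∀ l ≤ q, ∀ w, BadPat ξ w → ((Bs l w).card : ℝ) ≤ m0 * finrank ℚ K := by
    intro l hl w hw
    by_contra hcon
    push Not at hcon
    exact hlev l hl w hw K u hu0 hu1 H hLac1 hH1 t err (nearW_mono hnear (min_le_left _ _)) hht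
      hκH (Bs l w) hcon.le (fun σ hσ => (Finset.mem_filter.1 hσ).2)
  let Ex1 : Finset (K →+* ℂ) := Finset.univ.filter fun σ => ε0 < err (InfinitePlace.mk σ).1
  let Ex2 : Finset (K →+* ℂ) := (Finset.range (q + 1)).biUnion fun l =>
    Finset.univ.biUnion fun w => if BadPat ξ w then Bs l w else ∅
  have hEx1 : (Ex1.card : ℝ) ≤ finrank ℚ K / 16 := by
    have h1 := card_le_mult Ex1
    have h2 : ε0 * ∑ v : InfinitePlace K, (v.mult : ℝ) *
        (if ∃ σ ∈ Ex1, InfinitePlace.mk σ = v then (1 : ℝ) else 0) ≤ PS ∅ err := by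
      unfold PS
      rw [Finset.sum_empty, add_zero, Finset.mul_sum]
      apply Finset.sum_le_sum
      intro v _
      have h3 : ε0 * (if ∃ σ ∈ Ex1, InfinitePlace.mk σ = v then (1 : ℝ) else 0) ≤ err v.1 := by
        split_ifs with h
        · obtain ⟨σ, hσ, rfl⟩ := h
          rw [mul_one]
          exact (Finset.mem_filter.1 hσ).2.le
        · rw [mul_zero]
          exact herr v
      have h4 := mul_le_mul_of_nonneg_left h3 (Nat.cast_nonneg (α := ℝ) v.mult)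
      linarith
    have h4 : min η (ε0 / 16) * (finrank ℚ K : ℝ) ≤ ε0 / 16 * finrank ℚ K :=
      mul_le_mul_of_nonneg_right (min_le_right _ _) hDpos.le
    have h5 : ε0 * Ex1.card ≤ ε0 / 16 * finrank ℚ K :=
      (mul_le_mul_of_nonneg_left h1 hε00.le).trans (h2.trans (htot.trans h4))
    have h6 : ε0 * Ex1.card ≤ ε0 * (finrank ℚ K / 16) := by linarith
    exact le_of_mul_le_mul_left h6 hε00
  have hEx2 : (Ex2.card : ℝ) ≤ finrank ℚ K / 16 := by
    have h1 : (Ex2.card : ℝ) ≤ ∑ l ∈ Finset.range (q + 1), ∑ w : Finset I × (I → Fin 3),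
        ((if BadPat ξ w then Bs l w else ∅ : Finset (K →+* ℂ)).card : ℝ) := by
      have h2 : Ex2.card ≤ ∑ l ∈ Finset.range (q + 1), ∑ w : Finset I × (I → Fin 3),
          (if BadPat ξ w then Bs l w else ∅ : Finset (K →+* ℂ)).card :=
        Finset.card_biUnion_le.trans (Finset.sum_le_sum fun l _ => Finset.card_biUnion_le)
      exact_mod_cast h2
    have h2 : ∑ l ∈ Finset.range (q + 1), ∑ w : Finset I × (I → Fin 3),
        ((if BadPat ξ w then Bs l w else ∅ : Finset (K →+* ℂ)).card : ℝ) ≤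
        ∑ _l ∈ Finset.range (q + 1), ∑ _w : Finset I × (I → Fin 3), m0 * finrank ℚ K := by
      apply Finset.sum_le_sum
      intro l hl
      apply Finset.sum_le_sum
      intro w _
      split_ifs with h
      · exact hBs l (by
          rw [Finset.mem_range] at hl
          omega) w h
      · rw [Finset.card_empty, Nat.cast_zero]
        positivity
    rw [Finset.sum_const, Finset.sum_const, Finset.card_range, Finset.card_univ, nsmul_eq_mul,
      nsmul_eq_mul] at h2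
    refine (h1.trans h2).trans (le_of_eq ?_)
    rw [hm0, ← hnP]
    push_cast
    field_simp
  let Ex := Ex1 ∪ Ex2
  have hEx : 8 * Ex.card ≤ finrank ℚ K := by
    have h1 : (Ex.card : ℝ) ≤ Ex1.card + Ex2.card := by
      exact_mod_cast Finset.card_union_le _ _
    have h2 : (8 : ℝ) * Ex.card ≤ finrank ℚ K := by linarith
    exact_mod_cast h2
  -- the flats
  let Zm : (Fin d → ℝ) →ₗ[ℝ] (J × Bool → ℝ) := Matrix.mulVecLin (Matrix.of fun r k => ζ r k)
  have hZm : ∀ t r, Zm t r = ∑ k, ζ r k * t k := fun t r => rfl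
  let e := (Fintype.equivFin ((Finset I × (I → Fin 3)) × Fin k)).symm
  let Fl : Finset I × (I → Fin 3) → Submodule ℝ (J × Bool → ℝ) := fun w =>
    if q ≤ finrank ℝ (Submodule.span ℝ (trx w.2 ξ '' (R0 w.1 : Set (I × Bool)))) then
      (LinearMap.ker (Phi ξ w)).map Zm else ⊥
  have hFl : ∀ w, finrank ℝ (Fl w) < Fintype.card J := by
    intro w
    by_cases h : q ≤ finrank ℝ (Submodule.span ℝ (trx w.2 ξ '' (R0 w.1 : Set (I × Bool))))
    · have h0 : Fl w = (LinearMap.ker (Phi ξ w)).map Zm := if_pos h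
      have h1 := finrank_ker_Phi ξ w
      have h2 := Submodule.finrank_map_le Zm (LinearMap.ker (Phi ξ w))
      rw [h0]
      omega
    · have h0 : Fl w = ⊥ := if_neg h
      rw [h0, finrank_bot]
      exact hJ
  refine hbd K w hw0 hw1 hB (fun i => Fl (e i).1) (fun i => P (e i).2) (fun i => hFl _) Ex hEx ?_
  intro σ hσ
  have hσ1 : err (InfinitePlace.mk σ).1 ≤ ε0 := by
    by_contra hcon
    push Not at hcon
    exact hσ (Finset.mem_union_left _ (Finset.mem_filter.2 ⟨Finset.mem_univ _, hcon⟩))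
  have hn : ∀ r, |log ‖σ (U u r)‖ - H r.1 * ∑ k, ξ r k * t (InfinitePlace.mk σ).1 k| ≤
      H r.1 * err (InfinitePlace.mk σ).1 := fun r => hnear.inf (InfinitePlace.mk σ) r
  -- the level
  obtain ⟨l, hl, hlev2⟩ := exists_level hθanti
    (fun i => max |log ‖σ (u i)‖| |log ‖1 - σ (u i)‖| / H i)
  have hθl : ∀ i, 4 ≤ θ l * H i := fun i =>
    (hH4 i).trans (mul_le_mul_of_nonneg_right (hθanti hl) (hHpos i).le)
  have htype : ∀ i, θ l < max |log ‖σ (u i)‖| |log ‖1 - σ (u i)‖| / H i →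
      ∃ p : Fin 3, log ‖tr p (σ (u i))‖ ≤ -(θ l * H i / 2) := by
    intro i hi
    rw [lt_div_iff₀ (hHpos i), lt_max_iff] at hi
    apply types ((map_ne_zero σ).2 (hu0 i)) _ (by linarith [hθl i])
    · rcases hi with hi | hi
      · exact Or.inl hi.le
      · exact Or.inr hi.le
    · rw [← map_one σ, ← map_sub]
      exact (map_ne_zero σ).2 (hu1 i)
  let Q : Finset I := Finset.univ.filter fun i =>
    θ l < max |log ‖σ (u i)‖| |log ‖1 - σ (u i)‖| / H i
  let p : I → Fin 3 := fun i =>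
    if h : θ l < max |log ‖σ (u i)‖| |log ‖1 - σ (u i)‖| / H i then (htype i h).choose else 0
  have hp0 : ∀ i, i ∉ Q → p i = 0 := by
    intro i hi
    have : ¬ θ l < max |log ‖σ (u i)‖| |log ‖1 - σ (u i)‖| / H i := fun h =>
      hi (Finset.mem_filter.2 ⟨Finset.mem_univ _, h⟩)
    exact dif_neg this
  have hpQ : ∀ i ∈ Q, log ‖σ (tr (p i) (u i))‖ ≤ -(θ l / 2 * H i) := by
    intro i hi
    have h1 := (Finset.mem_filter.1 hi).2
    have h2 : p i = (htype i h1).choose := dif_pos h1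
    rw [h2, map_tr]
    refine (htype i h1).choose_spec.trans (le_of_eq ?_)
    ring
  have hpZ : ∀ i, i ∉ Q → ∀ b, |log ‖σ (U u (i, b))‖| ≤ θ (l + 1) * H i := by
    intro i hi b
    have h1 : ¬ θ l < max |log ‖σ (u i)‖| |log ‖1 - σ (u i)‖| / H i := fun h =>
      hi (Finset.mem_filter.2 ⟨Finset.mem_univ _, h⟩)
    have h2 := (hlev2 i).resolve_right h1
    rw [div_le_iff₀ (hHpos i)] at h2
    cases b
    · rw [U_false]
      exact (le_max_left _ _).trans h2
    · rw [U_true, map_sub, map_one]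
      exact (le_max_right _ _).trans h2
  have hgood : q ≤ finrank ℝ (Submodule.span ℝ (trx p ξ '' (R0 Q : Set (I × Bool)))) := by
    by_contra hcon
    push Not at hcon
    apply hσ
    apply Finset.mem_union_right
    rw [Finset.mem_biUnion]
    refine ⟨l, Finset.mem_range.2 (by omega), ?_⟩
    rw [Finset.mem_biUnion]
    refine ⟨(Q, p), Finset.mem_univ _, ?_⟩
    have hb : BadPat ξ (Q, p) := ⟨hp0, Nat.succ_le_of_lt hcon⟩
    rw [if_pos hb]
    exact Finset.mem_filter.2 ⟨Finset.mem_univ _, hpQ, hpZ⟩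
  have hPhi : ∀ r, |Phi ξ (Q, p) (t (InfinitePlace.mk σ).1) r| ≤ 3 * ε0 := by
    intro r
    have h1 := Phi_leW hu0 hu1 hHpos hH3 hn (w := (Q, p)) hp0
      (fun i hi => by
        refine (hpQ i hi).trans ?_
        linarith [hθl i]) hpZ (hθpos _).le r
    have h2 : θ (l + 1) ≤ ε0 := by
      rw [← hθ0]
      exact hθanti (Nat.zero_le _)
    linarith
  obtain ⟨t', ht'1, ht'2⟩ := hC (Q, p) _ _ hPhi
  obtain ⟨i0, hi0⟩ := hP σ
  refine ⟨e.symm ((Q, p), i0), Zm t', ?_, fun r => ?_⟩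
  · rw [Equiv.apply_symm_apply]
    have h0 : Fl (Q, p) = (LinearMap.ker (Phi ξ (Q, p))).map Zm := if_pos hgood
    show _ ∈ Fl (Q, p)
    rw [h0]
    exact Submodule.mem_map_of_mem ht'1
  · rw [Equiv.apply_symm_apply, hZm]
    have hlc : Pool.Agent.H883.ZP.lc w σ r = log ‖σ (U w r)‖ := by
      obtain ⟨j, b⟩ := r
      cases b
      · rfl
      · rfl
    rw [hlc]
    have h1 := hi0 r
    have h2 : |∑ k, ζ r k * t (InfinitePlace.mk σ).1 k - ∑ k, ζ r k * t' k| ≤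
        Z * C' * (3 * ε0) := by
      rw [← Finset.sum_sub_distrib]
      calc |∑ k, (ζ r k * t (InfinitePlace.mk σ).1 k - ζ r k * t' k)| ≤
          ∑ k, |ζ r k * t (InfinitePlace.mk σ).1 k - ζ r k * t' k| :=
            Finset.abs_sum_le_sum_abs _ _
        _ ≤ ∑ k, |ζ r k| * (C' * (3 * ε0)) := by
            apply Finset.sum_le_sum
            intro k _
            rw [← mul_sub, abs_mul]
            apply mul_le_mul_of_nonneg_left _ (abs_nonneg _)
            exact (ht'2 k).trans (mul_le_mul_of_nonneg_right (hC' _) (by positivity))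
        _ = (∑ k, |ζ r k|) * (C' * (3 * ε0)) := by rw [Finset.sum_mul]
        _ ≤ Z * (C' * (3 * ε0)) := by
            apply mul_le_mul_of_nonneg_right _ (by positivity)
            exact Finset.single_le_sum (f := fun r => ∑ k, |ζ r k|)
              (fun _ _ => Finset.sum_nonneg fun _ _ => abs_nonneg _) (Finset.mem_univ r)
        _ = _ := by ring
    have h3 : log ‖σ (U w r)‖ - (P i0 r + ∑ k, ζ r k * t' k) =
        (log ‖σ (U w r)‖ - (P i0 r + ∑ k, ζ r k * t (InfinitePlace.mk σ).1 k)) +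
        (∑ k, ζ r k * t (InfinitePlace.mk σ).1 k - ∑ k, ζ r k * t' k) := by ring
    rw [h3]
    refine (abs_add_le _ _).trans ?_
    have h4 : 0 ≤ Z * C' * ε0 := by positivity
    linarith

end Pool.Agent.H883.ZR.FL
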