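import Pool.Agent.H883.ZR.Base4

set_option autoImplicit false
set_option linter.unusedSectionVars false

/-!
# Points of small rank on products of lines
-/

namespace Pool.Agent.H883.ZR.QL

open Real NumberField Height Module Finset MvPolynomial
open Pool.Agent.H883.ZQ
open Pool.Agent.H883.ZR
open Pool.Agent.H883.ZP (Codim mon)

/-- comparable or lacunary values -/
lemma comb {ι : Type} [DecidableEq ι] (h : ι → ℝ) (N : ℝ) (hN : 1 ≤ N) (L : Finset ι)
    (hpos : ∀ i ∈ L, 0 < h i) : ∃ T1 T2 : Finset ι, T1 ⊆ L ∧ T2 ⊆ L ∧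
      (∀ i ∈ T1, ∀ j ∈ T1, h i ≤ N * h j) ∧
      (∀ i ∈ T2, ∀ j ∈ T2, i ≠ j → N * h i ≤ h j ∨ N * h j ≤ h i) ∧
      L.card ≤ T1.card * T2.card := by
  induction L using Finset.strongInduction with
  | H L ih =>
  rcases L.eq_empty_or_nonempty with rfl | hne
  · exact ⟨∅, ∅, Finset.Subset.refl _, Finset.Subset.refl _, by simp, by simp, by simp⟩
  obtain ⟨i1, hi1, hmax⟩ := L.exists_max_image h hne
  let C1 : Finset ι := L.filter fun i => h i1 ≤ N * h i
  have hi1C : i1 ∈ C1 := by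
    refine Finset.mem_filter.2 ⟨hi1, ?_⟩
    have := hpos i1 hi1
    nlinarith
  have hCL : C1 ⊆ L := Finset.filter_subset _ _
  have hlt : L \ C1 ⊂ L := Finset.sdiff_ssubset hCL ⟨i1, hi1C⟩
  obtain ⟨T1, T2, h1, h2, h3, h4, h5⟩ := ih _ hlt fun i hi => hpos i (Finset.sdiff_subset hi)
  have hsmall : ∀ j ∈ T2, N * h j ≤ h i1 := by
    intro j hj
    have hj' := Finset.mem_sdiff.1 (h2 hj)
    by_contra hcon
    exact hj'.2 (Finset.mem_filter.2 ⟨hj'.1, (not_le.1 hcon).le⟩)
  have hi1T : i1 ∉ T2 := fun hmem => (Finset.mem_sdiff.1 (h2 hmem)).2 hi1C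
  have hC1 : ∀ i ∈ C1, ∀ j ∈ C1, h i ≤ N * h j := fun i hi j hj =>
    (hmax i (hCL hi)).trans (Finset.mem_filter.1 hj).2
  have hT2 : ∀ i ∈ insert i1 T2, ∀ j ∈ insert i1 T2, i ≠ j → N * h i ≤ h j ∨ N * h j ≤ h i := by
    intro i hi j hj hij
    rcases Finset.mem_insert.1 hi with hi' | hi'
    · rcases Finset.mem_insert.1 hj with hj' | hj'
      · exact absurd (hi'.trans hj'.symm) hij
      · rw [hi']
        exact Or.inr (hsmall j hj')
    · rcases Finset.mem_insert.1 hj with hj' | hj'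
      · rw [hj']
        exact Or.inl (hsmall i hi')
      · exact h4 i hi' j hj' hij
  have hcard : L.card = C1.card + (L \ C1).card := by
    rw [Finset.card_sdiff_of_subset hCL]
    have := Finset.card_le_card hCL
    omega
  have hT2L : insert i1 T2 ⊆ L := Finset.insert_subset hi1 (h2.trans Finset.sdiff_subset)
  rcases le_total C1.card T1.card with hle | hle
  · refine ⟨T1, insert i1 T2, h1.trans Finset.sdiff_subset, hT2L, h3, hT2, ?_⟩
    rw [Finset.card_insert_of_notMem hi1T, hcard]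
    nlinarith
  · refine ⟨C1, insert i1 T2, hCL, hT2L, hC1, hT2, ?_⟩
    rw [Finset.card_insert_of_notMem hi1T, hcard]
    have : T1.card * T2.card ≤ C1.card * T2.card := Nat.mul_le_mul_right _ hle
    nlinarith

/-- a level without values -/
lemma pigeon (c : ℕ) (lev : ℕ → ℝ) (hmono : Monotone lev) (h : Fin c → ℝ) :
    ∃ k : Fin (c + 1), ∀ i, h i ≤ lev k ∨ lev (k + 1) < h i := by
  by_contra hcon
  push Not at hcon
  choose i hi1 hi2 using hcon
  have hinj : Function.Injective i := by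
    intro k k' hkk
    by_contra hne
    rcases lt_or_gt_of_ne hne with hlt | hlt
    · have h1 : lev ((k : ℕ) + 1) ≤ lev k' := hmono (by
        have : (k : ℕ) < k' := hlt
        omega)
      have h2 := hi2 k
      have h3 := hi1 k'
      rw [← hkk] at h3
      linarith
    · have h1 : lev ((k' : ℕ) + 1) ≤ lev k := hmono (by
        have : (k' : ℕ) < k := hlt
        omega)
      have h2 := hi2 k'
      have h3 := hi1 k
      rw [hkk] at h3
      linarith
  have h4 := Fintype.card_le_of_injective i hinj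
  rw [Fintype.card_fin, Fintype.card_fin] at h4
  omega

lemma exists_eps {ι : Type} [Finite ι] (F : ι → ℝ) (hF : ∀ i, 0 < F i) :
    ∃ ε : ℝ, 0 < ε ∧ ∀ i, ε ≤ F i := by
  rcases isEmpty_or_nonempty ι with h | h
  · exact ⟨1, one_pos, fun i => h.elim i⟩
  · obtain ⟨i, hi⟩ := Finite.exists_min F
    exact ⟨F i, hF i, hi⟩

lemma le_sum_abs {ι : Type} [Fintype ι] (F : ι → ℝ) (i : ι) : F i ≤ ∑ i, |F i| :=
  (le_abs_self _).trans (Finset.single_le_sum (f := fun i => |F i|)
    (fun _ _ => abs_nonneg _) (Finset.mem_univ i))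

lemma sum_abs_nonneg {ι : Type} [Fintype ι] (F : ι → ℝ) : 0 ≤ ∑ i, |F i| :=
  Finset.sum_nonneg fun _ _ => abs_nonneg _

lemma arith {c r τ l j : ℕ} (hr : 1 ≤ r) (hc : (r - 1) ^ 2 + 2 ≤ c) (hl : l ≤ τ * τ)
    (hj : l + j = c) (h : τ + j ≤ r) : τ = r := by
  by_contra hne
  have h1 : τ ≤ r - 1 := by omega
  obtain ⟨s, rfl⟩ : ∃ s, r = s + 1 := ⟨r - 1, by omega⟩
  rw [Nat.add_sub_cancel] at h1 hc
  obtain ⟨t, rfl⟩ : ∃ t, s = τ + t := ⟨s - τ, by omega⟩
  have h2 := Nat.le_mul_self t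
  have h3 : (τ + t) ^ 2 = τ * τ + 2 * (τ * t) + t * t := by ring
  rw [h3] at hc
  have h4 : 0 ≤ τ * t := Nat.zero_le _
  omega

/-- the hypothesis on subfamilies -/
def HSub : Prop := ∀ (F : Type) [Field F] (c k m M : ℕ) (g : Fin c ⊕ Fin c → F)
    (f : Fin k → Fin c), Function.Injective f → Codim g m → M + 2 * c ≤ m + 2 * k →
    Codim (g ∘ Sum.map f f) M

theorem ql_pos (hLL : S_LL) (hLB : S_LB) (hsub : HSub)
    (K0 : Type) [Field K0] [NumberField K0] (c r : ℕ) (hr : 1 ≤ r) (a b : Fin c → K0)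
    (hc : (r - 1) ^ 2 + 2 ≤ c) (ha : ∀ i, a i ≠ 0) (hb : ∀ i, b i ≠ 0) :
    ∃ G : MvPolynomial (Fin c) K0, G ≠ 0 ∧ ∃ ε : ℝ, 0 < ε ∧
      ∀ (K : Type) [Field K] [NumberField K] [Algebra K0 K] (P g e : Fin c ⊕ Fin c → K),
        (∀ r, P r ≠ 0) →
        (∀ i, algebraMap K0 K (a i) * P (Sum.inl i) + algebraMap K0 K (b i) * P (Sum.inr i) = 1) →
        (∀ r, P r = g r * e r) → Codim g (2 * c - r) → (∀ r, ht (e r) ≤ ε) →
        aeval (fun i => P (Sum.inl i)) G = 0 := by
  classical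
  have hr0 : 0 < r := hr
  have hrc : r ≤ c := by
    obtain ⟨s, rfl⟩ : ∃ s, r = s + 1 := ⟨r - 1, by omega⟩
    rw [Nat.add_sub_cancel] at hc
    nlinarith
  choose GA hGA εL NL hεL hL using fun (f : Fin (r + 1) ↪ Fin c) (B0 : ℝ) =>
    hLL K0 (r + 1) (a ∘ f) (b ∘ f) (fun i => ha _) (fun i => hb _) B0
  choose GC hGC εC hεC hC using fun (f : Fin (r + 1) ↪ Fin c) (Λ : ℝ) =>
    linesCmp (r + 1) (a ∘ f) (b ∘ f) (fun i => ha _) (fun i => hb _) Λ
  choose GH hGH εH BH hεH hH using fun (f : Fin r ↪ Fin c) (Λ : ℝ) =>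
    linesBH r (a ∘ f) (b ∘ f) (fun i => ha _) (fun i => hb _) Λ
  choose εB BB hεB hB using fun (f : Fin r ↪ Fin c) =>
    hLB K0 r (a ∘ f) (b ∘ f) hr0 (fun i => ha _) (fun i => hb _)
  -- the constants
  let N : ℝ → ℝ := fun B => 1 + ∑ f, |NL f B| + ∑ f, |BB f|
  let Λ : ℝ → ℝ := fun B => |B| + N B
  let nx : ℝ → ℝ := fun B => |B| + N B + ∑ f, |BH f (Λ B)|
  have hN1 : ∀ B, 1 ≤ N B := fun B => by
    have h1 := sum_abs_nonneg (fun f => NL f B)
    have h2 := sum_abs_nonneg BB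
    show (1 : ℝ) ≤ 1 + _ + _
    linarith
  have hNL : ∀ B f, NL f B ≤ N B := fun B f => by
    have h1 := le_sum_abs (fun f => NL f B) f
    have h2 := sum_abs_nonneg BB
    show _ ≤ 1 + _ + _
    linarith
  have hNB : ∀ B f, BB f ≤ N B := fun B f => by
    have h1 := sum_abs_nonneg (fun f => NL f B)
    have h2 := le_sum_abs BB f
    show _ ≤ 1 + _ + _
    linarith
  have hΛN : ∀ B, N B ≤ Λ B := fun B => by
    have := abs_nonneg B
    show _ ≤ |B| + N B
    linarith
  have hΛB : ∀ B, B ≤ Λ B := fun B => by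
    have := le_abs_self B
    have := hN1 B
    show _ ≤ |B| + N B
    linarith
  have hnxB : ∀ B, B ≤ nx B := fun B => by
    have := le_abs_self B
    have := hN1 B
    have := sum_abs_nonneg (fun f => BH f (Λ B))
    show _ ≤ |B| + N B + _
    linarith
  have hnxN : ∀ B, N B ≤ nx B := fun B => by
    have := abs_nonneg B
    have := sum_abs_nonneg (fun f => BH f (Λ B))
    show _ ≤ |B| + N B + _
    linarith
  have hnxH : ∀ B f, BH f (Λ B) ≤ nx B := fun B f => by
    have := abs_nonneg B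
    have := hN1 B
    have := le_sum_abs (fun f => BH f (Λ B)) f
    show _ ≤ |B| + N B + _
    linarith
  let lev : ℕ → ℝ := fun k => nx^[k] 1
  have hlev : ∀ k, lev (k + 1) = nx (lev k) := fun k => Function.iterate_succ_apply' nx k 1
  have hmono : Monotone lev := monotone_nat_of_le_succ fun k => by
    rw [hlev]
    exact hnxB _
  -- the polynomial
  let Gk : ℕ → MvPolynomial (Fin c) K0 := fun k =>
    (∏ f : Fin (r + 1) ↪ Fin c, rename f (GA f (lev k))) *
      (∏ f : Fin (r + 1) ↪ Fin c, rename f (GC f (Λ (lev k)))) *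
      ∏ f : Fin r ↪ Fin c, rename f (GH f (Λ (lev k)))
  have hren : ∀ (k : ℕ) (f : Fin k ↪ Fin c) (p : MvPolynomial (Fin k) K0), p ≠ 0 →
      rename f p ≠ 0 := by
    intro k f p hp h
    exact hp (rename_injective f f.injective (by rw [h, map_zero]))
  have hGk : ∀ k, Gk k ≠ 0 := fun k => mul_ne_zero (mul_ne_zero
    (Finset.prod_ne_zero_iff.2 fun f _ => hren _ f _ (hGA f _))
    (Finset.prod_ne_zero_iff.2 fun f _ => hren _ f _ (hGC f _)))
    (Finset.prod_ne_zero_iff.2 fun f _ => hren _ f _ (hGH f _))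
  obtain ⟨ε1, hε1, hε1'⟩ := exists_eps
    (fun x : Fin (c + 1) × (Fin (r + 1) ↪ Fin c) => εL x.2 (lev x.1)) fun x => hεL _ _
  obtain ⟨ε2, hε2, hε2'⟩ := exists_eps
    (fun x : Fin (c + 1) × (Fin (r + 1) ↪ Fin c) => εC x.2 (Λ (lev x.1))) fun x => hεC _ _
  obtain ⟨ε3, hε3, hε3'⟩ := exists_eps
    (fun x : Fin (c + 1) × (Fin r ↪ Fin c) => εH x.2 (Λ (lev x.1))) fun x => hεH _ _
  obtain ⟨ε4, hε4, hε4'⟩ := exists_eps (fun f : Fin r ↪ Fin c => εB f) fun f => hεB _
  refine ⟨∏ k : Fin (c + 1), Gk k, Finset.prod_ne_zero_iff.2 fun k _ => hGk k,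
    min (min ε1 ε2) (min ε3 ε4), lt_min (lt_min hε1 hε2) (lt_min hε3 hε4), ?_⟩
  intro K _ _ _ P g e hP0 hP1 hP2 hP3 hP4
  have he1 : ∀ s, ht (e s) ≤ ε1 := fun s => (hP4 s).trans ((min_le_left _ _).trans
    (min_le_left _ _))
  have he2 : ∀ s, ht (e s) ≤ ε2 := fun s => (hP4 s).trans ((min_le_left _ _).trans
    (min_le_right _ _))
  have he3 : ∀ s, ht (e s) ≤ ε3 := fun s => (hP4 s).trans ((min_le_right _ _).trans
    (min_le_left _ _))
  have he4 : ∀ s, ht (e s) ≤ ε4 := fun s => (hP4 s).trans ((min_le_right _ _).trans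
    (min_le_right _ _))
  let h : Fin c → ℝ := fun i => ht (P (Sum.inl i))
  have hh0 : ∀ i, 0 ≤ h i := fun i => ht_nonneg _
  obtain ⟨k, hk⟩ := pigeon c lev hmono h
  set B : ℝ := lev k with hBdef
  rw [hlev] at hk
  -- vanishing of the factors
  have hvan : ∀ Q : MvPolynomial (Fin c) K0, Q ∣ Gk k → aeval (fun i => P (Sum.inl i)) Q = 0 →
      aeval (fun i => P (Sum.inl i)) (∏ k : Fin (c + 1), Gk k) = 0 := by
    intro Q hQ h0
    obtain ⟨R, hR⟩ := hQ.trans (Finset.dvd_prod_of_mem (fun k : Fin (c + 1) => Gk k)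
      (Finset.mem_univ k))
    rw [hR, map_mul, h0, zero_mul]
  have hvL : ∀ f : Fin (r + 1) ↪ Fin c, aeval (fun i => P (Sum.inl (f i))) (GA f B) = 0 →
      aeval (fun i => P (Sum.inl i)) (∏ k : Fin (c + 1), Gk k) = 0 := by
    intro f h0
    refine hvan (rename f (GA f B)) ?_ ?_
    · exact (Finset.dvd_prod_of_mem (fun f : Fin (r + 1) ↪ Fin c => rename f (GA f (lev k)))
        (Finset.mem_univ f)).trans ((dvd_mul_right _ _).trans (dvd_mul_right _ _))
    · rw [aeval_rename]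
      exact h0
  have hvC : ∀ f : Fin (r + 1) ↪ Fin c, aeval (fun i => P (Sum.inl (f i))) (GC f (Λ B)) = 0 →
      aeval (fun i => P (Sum.inl i)) (∏ k : Fin (c + 1), Gk k) = 0 := by
    intro f h0
    refine hvan (rename f (GC f (Λ B))) ?_ ?_
    · exact (Finset.dvd_prod_of_mem (fun f : Fin (r + 1) ↪ Fin c => rename f (GC f (Λ (lev k))))
        (Finset.mem_univ f)).trans ((dvd_mul_left _ _).trans (dvd_mul_right _ _))
    · rw [aeval_rename]
      exact h0
  have hvH : ∀ f : Fin r ↪ Fin c, aeval (fun i => P (Sum.inl (f i))) (GH f (Λ B)) = 0 →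
      aeval (fun i => P (Sum.inl i)) (∏ k : Fin (c + 1), Gk k) = 0 := by
    intro f h0
    refine hvan (rename f (GH f (Λ B))) ?_ ?_
    · exact (Finset.dvd_prod_of_mem (fun f : Fin r ↪ Fin c => rename f (GH f (Λ (lev k))))
        (Finset.mem_univ f)).trans (dvd_mul_left _ _)
    · rw [aeval_rename]
      exact h0
  have hcod1 : ∀ f : Fin (r + 1) ↪ Fin c, Codim (g ∘ Sum.map f f) (r + 1 + 1) := fun f =>
    hsub K c (r + 1) (2 * c - r) (r + 1 + 1) g f f.injective hP3 (by omega)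
  have hcod0 : ∀ f : Fin r ↪ Fin c, Codim (g ∘ Sum.map f f) r := fun f =>
    hsub K c r (2 * c - r) r g f f.injective hP3 (by omega)
  -- r + 1 comparable heights
  have hA1 : ∀ X : Finset (Fin c), r + 1 ≤ X.card →
      (∀ i ∈ X, ∀ j ∈ X, h i ≤ Λ B ∨ h j ≤ Λ B * h i) →
      aeval (fun i => P (Sum.inl i)) (∏ k : Fin (c + 1), Gk k) = 0 := by
    intro X hX hcmp
    let f : Fin (r + 1) ↪ Fin c := (X.orderEmbOfCardLe hX).toEmbedding
    have hf : ∀ i, f i ∈ X := fun i => Finset.orderEmbOfCardLe_mem _ _ _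
    exact hvC f (hC f (Λ B) K (P ∘ Sum.map f f) (g ∘ Sum.map f f) (e ∘ Sum.map f f)
      (fun s => hP0 _) (fun i => hP1 (f i)) (fun s => hP2 _) (hcod1 f)
      (fun s => (he2 _).trans (hε2' (k, f))) fun i j => hcmp _ (hf i) _ (hf j))
  -- r + 1 lacunary heights
  have hA2 : ∀ X : Finset (Fin c), r + 1 ≤ X.card →
      (∀ i ∈ X, ∀ j ∈ X, i ≠ j → h i ≤ B ∨ h j ≤ B ∨ N B * h i ≤ h j ∨ N B * h j ≤ h i) →
      aeval (fun i => P (Sum.inl i)) (∏ k : Fin (c + 1), Gk k) = 0 := by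
    intro X hX hlac
    let f : Fin (r + 1) ↪ Fin c := (X.orderEmbOfCardLe hX).toEmbedding
    have hf : ∀ i, f i ∈ X := fun i => Finset.orderEmbOfCardLe_mem _ _ _
    refine hvL f (hL f B K (P ∘ Sum.map f f) (g ∘ Sum.map f f) (e ∘ Sum.map f f)
      (fun s => hP0 _) (fun i => hP1 (f i)) (fun s => hP2 _) (hcod1 f)
      (fun s => (he1 _).trans (hε1' (k, f))) fun i j hij => ?_)
    have hm : ∀ x : Fin c, NL f B * h x ≤ N B * h x := fun x =>
      mul_le_mul_of_nonneg_right (hNL B f) (hh0 x)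
    rcases hlac _ (hf i) _ (hf j) (fun hc => hij (f.injective hc)) with h1 | h1 | h1 | h1
    · exact Or.inl h1
    · exact Or.inr (Or.inl h1)
    · exact Or.inr (Or.inr (Or.inl ((hm _).trans h1)))
    · exact Or.inr (Or.inr (Or.inr ((hm _).trans h1)))
  -- r comparable large heights
  have hB1 : ∀ T : Finset (Fin c), r ≤ T.card → (∀ i ∈ T, nx B < h i) →
      (∀ i ∈ T, ∀ j ∈ T, h i ≤ N B * h j) →
      aeval (fun i => P (Sum.inl i)) (∏ k : Fin (c + 1), Gk k) = 0 := by
    intro T hT hbig hcmp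
    let f : Fin r ↪ Fin c := (T.orderEmbOfCardLe hT).toEmbedding
    have hf : ∀ i, f i ∈ T := fun i => Finset.orderEmbOfCardLe_mem _ _ _
    have hε := hε3' (k, f)
    rcases hH f (Λ B) K (P ∘ Sum.map f f) (g ∘ Sum.map f f) (e ∘ Sum.map f f)
      (fun s => hP0 _) (fun i => hP1 (f i)) (fun s => hP2 _) (hcod0 f)
      (fun s => ⟨⟨0, hr0⟩, by
        have h1 := hh0 (f ⟨0, hr0⟩)
        have h2 := he3 (Sum.map f f s)
        have h3 := hεH f (Λ B)
        show ht (e (Sum.map f f s)) ≤ εH f (Λ B) * (1 + h (f ⟨0, hr0⟩))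
        nlinarith⟩)
      (fun i j => by
        have h1 := hcmp _ (hf j) _ (hf i)
        have h2 := hΛN B
        have h3 := hN1 B
        have h4 := hh0 (f i)
        show h (f j) ≤ Λ B * (1 + h (f i))
        nlinarith) with h0 | h0
    · exact hvH f h0
    · exfalso
      have h1 := h0 (Sum.inl ⟨0, hr0⟩)
      have h2 := hbig _ (hf ⟨0, hr0⟩)
      have h3 := hnxH B f
      have h4 : h (f ⟨0, hr0⟩) ≤ BH f (Λ B) := h1
      linarith
  -- r lacunary large heights
  have hB2 : ∀ T : Finset (Fin c), r ≤ T.card → (∀ i ∈ T, nx B < h i) →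
      (∀ i ∈ T, ∀ j ∈ T, i ≠ j → N B * h i ≤ h j ∨ N B * h j ≤ h i) → False := by
    intro T hT hbig hlac
    let f : Fin r ↪ Fin c := (T.orderEmbOfCardLe hT).toEmbedding
    have hf : ∀ i, f i ∈ T := fun i => Finset.orderEmbOfCardLe_mem _ _ _
    have hε := hε4' f
    have hm : ∀ x : Fin c, BB f * h x ≤ N B * h x := fun x =>
      mul_le_mul_of_nonneg_right (hNB B f) (hh0 x)
    refine hB f K (P ∘ Sum.map f f) (g ∘ Sum.map f f) (e ∘ Sum.map f f)
      (fun s => hP0 _) (fun i => hP1 (f i)) (fun s => hP2 _) (hcod0 f)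
      (fun s => ?_) (fun i => ?_) fun i j hij => ?_
    · have h1 := hbig _ (hf (ix s))
      have h2 := he4 (Sum.map f f s)
      have h3 := hnxN B
      have h4 := hN1 B
      have h5 := hεB f
      show ht (e (Sum.map f f s)) ≤ εB f * h (f (ix s))
      nlinarith
    · have h1 := hbig _ (hf i)
      have h3 := hnxN B
      have h4 := hNB B f
      show BB f ≤ h (f i)
      linarith
    · rcases hlac _ (hf i) _ (hf j) (fun hc => hij (f.injective hc)) with h1 | h1
      · exact Or.inl ((hm _).trans h1)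
      · exact Or.inr ((hm _).trans h1)
  -- the sets of the small and of the large heights
  let J : Finset (Fin c) := Finset.univ.filter fun i => h i ≤ B
  let L : Finset (Fin c) := Finset.univ.filter fun i => ¬ h i ≤ B
  have hLJ : L.card + J.card = c := by
    have h1 := Finset.card_filter_add_card_filter_not (s := (Finset.univ : Finset (Fin c)))
      (fun i => h i ≤ B)
    rw [Finset.card_univ, Fintype.card_fin] at h1
    rw [add_comm]
    exact h1
  have hLbig : ∀ i ∈ L, nx B < h i := by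
    intro i hi
    exact (hk i).resolve_left (Finset.mem_filter.1 hi).2
  have hLpos : ∀ i ∈ L, 1 ≤ h i := by
    intro i hi
    have h1 := hLbig i hi
    have h2 := hnxN B
    have h3 := hN1 B
    linarith
  have hJ : ∀ i ∈ J, h i ≤ B := fun i hi => (Finset.mem_filter.1 hi).2
  have hdisj : ∀ T : Finset (Fin c), T ⊆ L → (T ∪ J).card = T.card + J.card := by
    intro T hT
    refine Finset.card_union_of_disjoint ?_
    rw [Finset.disjoint_left]
    intro i hi hi'
    exact (Finset.mem_filter.1 (hT hi)).2 (hJ i hi')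
  obtain ⟨T1, T2, hT1, hT2, hT3, hT4, hT5⟩ := comb h (N B) (hN1 B) L fun i hi =>
    lt_of_lt_of_le one_pos (hLpos i hi)
  have hU1 : ∀ i ∈ T1 ∪ J, ∀ j ∈ T1 ∪ J, h i ≤ Λ B ∨ h j ≤ Λ B * h i := by
    intro i hi j hj
    rcases Finset.mem_union.1 hi with hi | hi
    · right
      have h1 := hLpos i (hT1 hi)
      have h2 := hΛN B
      have h3 := hN1 B
      rcases Finset.mem_union.1 hj with hj | hj
      · have h4 := hT3 j hj i hi
        nlinarith
      · have h4 := hJ j hj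
        have h5 := hΛB B
        nlinarith
    · left
      exact (hJ i hi).trans (hΛB B)
  have hU2 : ∀ i ∈ T2 ∪ J, ∀ j ∈ T2 ∪ J, i ≠ j →
      h i ≤ B ∨ h j ≤ B ∨ N B * h i ≤ h j ∨ N B * h j ≤ h i := by
    intro i hi j hj hij
    rcases Finset.mem_union.1 hi with hi | hi
    · rcases Finset.mem_union.1 hj with hj | hj
      · exact Or.inr (Or.inr (hT4 i hi j hj hij))
      · exact Or.inr (Or.inl (hJ j hj))
    · exact Or.inl (hJ i hi)
  rcases le_total T1.card T2.card with hle | hle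
  · by_cases hcase : r + 1 ≤ (T2 ∪ J).card
    · exact hA2 _ hcase hU2
    · rw [hdisj T2 hT2] at hcase
      have hτ : T2.card = r := arith hr hc (hT5.trans (Nat.mul_le_mul_right _ hle)) hLJ
        (by omega)
      exact (hB2 T2 hτ.ge (fun i hi => hLbig i (hT2 hi)) hT4).elim
  · by_cases hcase : r + 1 ≤ (T1 ∪ J).card
    · exact hA1 _ hcase hU1
    · rw [hdisj T1 hT1] at hcase
      have hτ : T1.card = r := arith hr hc (hT5.trans (Nat.mul_le_mul_left _ hle)) hLJ
        (by omega)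
      exact hB1 T1 hτ.ge (fun i hi => hLbig i (hT1 hi)) hT3

/-- **Points of small rank on products of lines.** -/
theorem ql (hLL : S_LL) (hLB : S_LB) (hsub : ∀ (F : Type) [Field F] (c k m M : ℕ)
    (g : Fin c ⊕ Fin c → F) (f : Fin k → Fin c), Function.Injective f → Codim g m →
    M + 2 * c ≤ m + 2 * k → Codim (g ∘ Sum.map f f) M) : S_QL := by
  intro K0 _ _ c r a b hc ha hb
  rcases Nat.eq_zero_or_pos r with rfl | hr
  · obtain ⟨G, hG, ε, hε, H⟩ := ql_pos hLL hLB hsub K0 c 1 le_rfl a b hc ha hb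
    refine ⟨G, hG, ε, hε, ?_⟩
    intro K _ _ _ P g e h0 h1 h2 h3 h4
    refine H K P g e h0 h1 h2 ?_ h4
    have h5 := hsub K c c (2 * c - 0) (2 * c - 1) g id Function.injective_id h3 (by omega)
    rw [Sum.map_id_id, Function.comp_id] at h5
    exact h5
  · exact ql_pos hLL hLB hsub K0 c r hr a b hc ha hb

end Pool.Agent.H883.ZR.QL
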