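import Pool.Agent.H883.ZR.Asm1
import Pool.Agent.H883.ZR.FX
import Pool.Agent.H883.ZR.NFL
import Pool.Agent.H883.ZR.LB
import Pool.Agent.H883.ZR.QL
import Pool.Agent.H883.ZR.INT

set_option autoImplicit false

/-!
# Assembly: bounded height for three lines, Zilber-Pink for four lines, points of small rank
-/

namespace Pool.Agent.H883.ZR

/-- **Bounded height for products of three lines.** -/
theorem S_BL_holds : S_BL :=
  S_BL_of (FX.fx111 S_S_holds S_T_holds S_IT_holds)
    (FX.fx21 S_S_holds S_T_holds S_IT_holds S_IT21_holds)
    (FX.fx12 S_S_holds S_T_holds S_IT_holds S_P12_holds) FX.fx3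

/-- **Zilber-Pink for products of four lines.** -/
theorem S_E4_holds : S_E4 := E4.e4 S_BL_holds S_LL_holds

/-- **Bounded height for products of lines at points with lacunary heights.** -/
theorem S_LB_holds : S_LB := LB.lb (NFL.nfl (NFL.fxl S_S_holds S_T_holds S_IT_holds))

/-- **Points of small rank on products of lines.** -/
theorem S_QL_holds : S_QL := QL.ql S_LL_holds S_LB_holds
  (fun _F _ _ _ _ M g f hf h hM => INT.codim_sub g f hf h M hM)

end Pool.Agent.H883.ZR
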