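import Pool.Agent.H883.ZR.Base3

set_option autoImplicit false
set_option linter.unusedSectionVars false

/-!
# Auxiliary polynomials for bad patterns, heights of different sizes
-/

namespace Pool.Agent.H883.ZR.AUX

open Real NumberField Height Module Finset
open Pool.Agent.H489ZP
open Pool.Agent.H883.ZQ
open Pool.Agent.H883.ZR
open Pool.Agent.H393R2.RothNS (TT DD l1 l1_nonneg l1_mul l1_one l1_monomial l1_add l1_sum
  coeff_le_l1 coeff_TT ch DD_monomial)

variable {I : Type} [Fintype I] [DecidableEq I]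

/-- the perturbation of the exponents outside `A` -/
def pe (A : Finset I) {n : I → ℕ} (μ : ∀ i, Fin (n i)) (r : I × Bool) : ℕ :=
  if r.2 = true ∧ r.1 ∉ A then (μ r.1 : ℕ) else 0

/-- integral exponents near the point of the space of relations, shifted and perturbed -/
noncomputable def ea (A : Finset I) (a : I → I × Bool → ℝ) (ρ : I → ℝ) (s : I × Bool → ℕ)
    {n : I → ℕ} (μ : ∀ i, Fin (n i)) (r : I × Bool) : ℕ :=
  (⌊ρ r.1 * xw a ρ μ r⌋ + s r).toNat + pe A μ r

lemma ea_cast {A : Finset I} {a : I → I × Bool → ℝ} {ρ : I → ℝ} {s : I × Bool → ℕ} {n : I → ℕ}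
    (μ : ∀ i, Fin (n i)) {r : I × Bool} (h : |ρ r.1 * xw a ρ μ r| ≤ s r) :
    (ea A a ρ s μ r : ℝ) = (⌊ρ r.1 * xw a ρ μ r⌋ : ℝ) + s r + pe A μ r := by
  have h1 : (0 : ℤ) ≤ ⌊ρ r.1 * xw a ρ μ r⌋ + s r := by
    have : (-(s r : ℤ)) ≤ ⌊ρ r.1 * xw a ρ μ r⌋ := by
      rw [Int.le_floor]
      push_cast
      exact (abs_le.1 h).1
    omega
  have h2 : (((⌊ρ r.1 * xw a ρ μ r⌋ + s r).toNat : ℕ) : ℤ) = ⌊ρ r.1 * xw a ρ μ r⌋ + s r :=
    Int.toNat_of_nonneg h1
  have h3 : ((((⌊ρ r.1 * xw a ρ μ r⌋ + s r).toNat : ℕ) : ℤ) : ℝ) =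
      ((⌊ρ r.1 * xw a ρ μ r⌋ + s r : ℤ) : ℝ) := by
    rw [h2]
  push_cast at h3
  unfold ea
  rw [Nat.cast_add, h3]

lemma pe_le {A : Finset I} {n : I → ℕ} (μ : ∀ i, Fin (n i)) {f : I → ℕ}
    (hf : ∀ i, i ∉ A → n i ≤ f i) (r : I × Bool) : pe A μ r ≤ if r.2 = true then f r.1 else 0 := by
  unfold pe
  by_cases h : r.2 = true
  · rw [if_pos h]
    split_ifs with h1
    · exact (μ r.1).2.le.trans (hf _ h1.2)
    · exact Nat.zero_le _
  · rw [if_neg h, if_neg (fun h1 => h h1.1)]

lemma ea_le {A : Finset I} {a : I → I × Bool → ℝ} {ρ : I → ℝ} {s : I × Bool → ℕ} {n : I → ℕ}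
    (μ : ∀ i, Fin (n i)) {r : I × Bool} (h : |ρ r.1 * xw a ρ μ r| ≤ s r) {f : I → ℕ}
    (hf : ∀ i, i ∉ A → n i ≤ f i) :
    ea A a ρ s μ r ≤ 2 * s r + if r.2 = true then f r.1 else 0 := by
  have h1 : (⌊ρ r.1 * xw a ρ μ r⌋ + s r).toNat ≤ 2 * s r := by
    have h2 := (abs_le.1 h).2
    have h3 : ⌊ρ r.1 * xw a ρ μ r⌋ ≤ (s r : ℤ) := by
      have h4 : (⌊ρ r.1 * xw a ρ μ r⌋ : ℝ) ≤ ((s r : ℤ) : ℝ) := by
        push_cast
        exact (Int.floor_le _).trans h2
      exact_mod_cast h4
    omega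
  unfold ea
  exact add_le_add h1 (pe_le μ hf r)

lemma ea_inj {A : Finset I} {a : I → I × Bool → ℝ} {b : I → Bool}
    (hab : ∀ i ∈ A, ∀ k ∈ A, a i (k, b k) = if i = k then 1 else 0)
    (hza : ∀ i, i ∉ A → ∀ r, a i r = 0) {ρ : I → ℝ} (hρ : ∀ i, 0 < ρ i)
    {s : I × Bool → ℕ} {n : I → ℕ}
    (hs : ∀ (μ : ∀ i, Fin (n i)) r, |ρ r.1 * xw a ρ μ r| ≤ s r) :
    Function.Injective fun (μ : ∀ i, Fin (n i)) i =>
      ea A a ρ s μ (i, if i ∈ A then b i else true) := by
  intro μ μ' hmm
  have hx : ∀ μ : ∀ i, Fin (n i), ∀ k ∈ A, ρ k * xw a ρ μ (k, b k) = μ k := by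
    intro μ k hk
    unfold xw
    rw [Finset.sum_eq_single k]
    · rw [hab k hk k hk, if_pos rfl, mul_one]
      have := (hρ k).ne'
      field_simp
    · intro i _ hik
      by_cases hi : i ∈ A
      · rw [hab i hi k hk, if_neg hik, mul_zero]
      · rw [hza i hi, mul_zero]
    · intro h
      exact absurd (Finset.mem_univ _) h
  have hA : ∀ k ∈ A, ((μ k : ℕ) : ℝ) = ((μ' k : ℕ) : ℝ) := by
    intro k hk
    have h2 := congrFun hmm k
    dsimp only at h2
    rw [if_pos hk] at h2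
    have h3 := ea_cast (A := A) μ (hs μ (k, b k))
    have h4 := ea_cast (A := A) μ' (hs μ' (k, b k))
    have hp : ∀ μ : ∀ i, Fin (n i), pe A μ (k, b k) = 0 := by
      intro μ
      unfold pe
      rw [if_neg]
      intro h
      exact h.2 hk
    rw [hp] at h3 h4
    rw [hx μ k hk] at h3
    rw [hx μ' k hk] at h4
    rw [h2, h4] at h3
    rw [Int.floor_natCast, Int.floor_natCast] at h3
    push_cast at h3
    linarith
  have hxx : ∀ r, xw a ρ μ r = xw a ρ μ' r := by
    intro r
    unfold xw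
    refine Finset.sum_congr rfl fun i _ => ?_
    by_cases hi : i ∈ A
    · rw [hA i hi]
    · rw [hza i hi, mul_zero, mul_zero]
  funext k
  by_cases hk : k ∈ A
  · exact Fin.ext (by exact_mod_cast hA k hk)
  · have h2 := congrFun hmm k
    dsimp only at h2
    rw [if_neg hk] at h2
    have h3 := ea_cast (A := A) μ (hs μ (k, true))
    have h4 := ea_cast (A := A) μ' (hs μ' (k, true))
    have hp : ∀ μ : ∀ i, Fin (n i), pe A μ (k, true) = μ k := by
      intro μ
      unfold pe
      rw [if_pos]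
      exact ⟨rfl, hk⟩
    rw [hp] at h3 h4
    rw [hxx] at h3
    rw [h2, h4] at h3
    have h5 : ((μ' k : ℕ) : ℝ) = ((μ k : ℕ) : ℝ) := by
      linarith
    exact Fin.ext (by exact_mod_cast h5.symm)

/-- the shifts -/
def sh (Q : Finset I) (β n : ℕ) (f : I → ℕ) (r : I × Bool) : ℕ :=
  if r.1 ∈ Q ∧ r.2 = false then 0 else 2 * β * n * f r.1

lemma sh_le (Q : Finset I) (β n : ℕ) (f : I → ℕ) (r : I × Bool) :
    sh Q β n f r ≤ 2 * β * n * f r.1 := by
  unfold sh
  split_ifs
  · exact Nat.zero_le _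
  · exact le_rfl

/-- the numbers of parameters -/
def nb (A : Finset I) (n : ℕ) (f : I → ℕ) (i : I) : ℕ := (if i ∈ A then n else 1) * f i

lemma nb_le {A : Finset I} {n : ℕ} (hn : 1 ≤ n) (f : I → ℕ) (i : I) : nb A n f i ≤ n * f i := by
  unfold nb
  apply Nat.mul_le_mul_right
  split_ifs
  · exact le_rfl
  · exact hn

lemma nb_pos {A : Finset I} {n : ℕ} (hn : 1 ≤ n) {f : I → ℕ} (hf : ∀ i, 1 ≤ f i) (i : I) :
    0 < nb A n f i := by
  unfold nb
  apply Nat.mul_pos _ (hf i)
  split_ifs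
  · exact hn
  · exact Nat.one_pos

lemma nb_not (A : Finset I) (n : ℕ) (f : I → ℕ) (i : I) (hi : i ∉ A) : nb A n f i ≤ f i := by
  unfold nb
  rw [if_neg hi, one_mul]

lemma prod_nb (A : Finset I) (n : ℕ) (f : I → ℕ) :
    ∏ i, nb A n f i = n ^ A.card * ∏ i, f i := by
  unfold nb
  rw [Finset.prod_mul_distrib]
  congr 1
  rw [Finset.prod_ite, Finset.prod_const, Finset.prod_const_one, mul_one]
  congr 2
  ext i
  simp

/-- bound for the exponents -/
lemma sum_ea_le {A Q : Finset I} {a : I → I × Bool → ℝ} {ρ : I → ℝ} {β n : ℕ} {f : I → ℕ}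
    (hs : ∀ (μ : ∀ i, Fin (nb A n f i)) r, |ρ r.1 * xw a ρ μ r| ≤ sh Q β n f r)
    (μ : ∀ i, Fin (nb A n f i)) (i : I) :
    ea A a ρ (sh Q β n f) μ (i, false) + ea A a ρ (sh Q β n f) μ (i, true) ≤
      (8 * β * n + 1) * f i := by
  have h1 := ea_le (A := A) μ (hs μ (i, false)) (nb_not A n f)
  have h2 := ea_le (A := A) μ (hs μ (i, true)) (nb_not A n f)
  have h3 := sh_le Q β n f (i, false)
  have h4 := sh_le Q β n f (i, true)
  dsimp only at h1 h2 h3 h4
  rw [if_neg (by decide)] at h1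
  rw [if_pos rfl] at h2
  calc ea A a ρ (sh Q β n f) μ (i, false) + ea A a ρ (sh Q β n f) μ (i, true) ≤
        4 * (2 * β * n * f i) + f i := by omega
    _ = (8 * β * n + 1) * f i := by ring

/-- **The auxiliary polynomial.** -/
lemma exists_auxW (hSS : S_S) {A : Finset I} {a : I → I × Bool → ℝ} {b : I → Bool}
    (hab : ∀ i ∈ A, ∀ k ∈ A, a i (k, b k) = if i = k then 1 else 0)
    (hza : ∀ i, i ∉ A → ∀ r, a i r = 0) {β : ℕ} (Q : Finset I)
    (hA : Qᶜ.card + 1 ≤ A.card) (d0 n : ℕ)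
    (hn : 2 * ((2 * d0) ^ Q.card * (8 * β + 2) ^ Qᶜ.card) < n)
    {ρ : I → ℝ} (hρ : ∀ i, 0 < ρ i) {f : I → ℕ} (hf1 : ∀ i, 1 ≤ f i)
    (hs : ∀ (μ : ∀ i, Fin (nb A n f i)) r, |ρ r.1 * xw a ρ μ r| ≤ sh Q β n f r) :
    ∃ c : (∀ i, Fin (nb A n f i)) → ℤ,
      (∑ m, c m • mo (ea A a ρ (sh Q β n f) m)) ≠ 0 ∧
      (∀ α ∈ (∑ m, c m • mo (ea A a ρ (sh Q β n f) m)).support,
        (∃ i ∈ Q, 2 * d0 * f i ≤ α i) ∧ ∀ i, α i ≤ (8 * β * n + 1) * f i) ∧
      (∀ i, MvPolynomial.degreeOf i (∑ m, c m • mo (ea A a ρ (sh Q β n f) m)) ≤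
        (8 * β * n + 1) * f i) ∧
      ∀ m, |(c m : ℝ)| ≤ Fintype.card (∀ i, Fin (nb A n f i)) *
        2 ^ (∑ i, (8 * β * n + 1) * f i) := by
  classical
  set q := Qᶜ.card with hq
  have hn0 : 1 ≤ n := by omega
  set Δ : ℕ := ∑ i, (8 * β * n + 1) * f i with hΔ
  let E : (∀ i, Fin (nb A n f i)) → I × Bool → ℕ := fun μ => ea A a ρ (sh Q β n f) μ
  have hEΔ : ∀ μ, ∑ r, E μ r ≤ Δ := by
    intro μ
    rw [Fintype.sum_prod_type]
    apply Finset.sum_le_sum
    intro i _
    rw [Fintype.sum_bool, add_comm]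
    exact sum_ea_le hs μ i
  let g : I → ℕ := fun i => if i ∈ Q then 2 * d0 * f i else (8 * β + 2) * n * f i
  have hprodf : 0 < ∏ i, f i := Finset.prod_pos fun i _ => hf1 i
  have hcardι : Fintype.card (∀ i, Fin (nb A n f i)) = n ^ A.card * ∏ i, f i := by
    rw [Fintype.card_pi, ← prod_nb]
    exact Finset.prod_congr rfl fun i _ => Fintype.card_fin _
  have hprodg : ∏ i, g i = (2 * d0) ^ Q.card * (8 * β + 2) ^ q * n ^ q * ∏ i, f i := by
    have h1 : ∀ i, g i = (if i ∈ Q then 2 * d0 else (8 * β + 2) * n) * f i := by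
      intro i
      show (if i ∈ Q then 2 * d0 * f i else (8 * β + 2) * n * f i) = _
      split_ifs
      · rfl
      · rfl
    rw [Finset.prod_congr rfl fun i _ => h1 i, Finset.prod_mul_distrib]
    congr 1
    have h2 : ∏ i, (if i ∈ Q then 2 * d0 else (8 * β + 2) * n) =
        (∏ i ∈ Q, if i ∈ Q then 2 * d0 else (8 * β + 2) * n) *
        ∏ i ∈ Qᶜ, if i ∈ Q then 2 * d0 else (8 * β + 2) * n :=
      (Finset.prod_mul_prod_compl Q _).symm
    rw [h2, Finset.prod_congr rfl (g := fun _ => 2 * d0) (fun i hi => if_pos hi),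
      Finset.prod_const, Finset.prod_congr rfl (s₁ := Qᶜ) (g := fun _ => (8 * β + 2) * n)
        (fun i hi => if_neg (Finset.mem_compl.1 hi)), Finset.prod_const,
      mul_pow (8 * β + 2) n, ← mul_assoc]
  have hSc : 2 * (bx g).card < Fintype.card (∀ i, Fin (nb A n f i)) := by
    have h1 := card_bx_le g
    rw [hprodg] at h1
    rw [hcardι]
    have hnq : 0 < n ^ q := pow_pos hn0 _
    calc 2 * (bx g).card ≤ 2 * ((2 * d0) ^ Q.card * (8 * β + 2) ^ q * n ^ q * ∏ i, f i) :=
          Nat.mul_le_mul_left _ h1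
      _ = 2 * ((2 * d0) ^ Q.card * (8 * β + 2) ^ q) * (n ^ q * ∏ i, f i) := by ring
      _ < n * (n ^ q * ∏ i, f i) := Nat.mul_lt_mul_of_pos_right hn (Nat.mul_pos hnq hprodf)
      _ = n ^ (q + 1) * ∏ i, f i := by rw [pow_succ]; ring
      _ ≤ n ^ A.card * ∏ i, f i := Nat.mul_le_mul_right _ (Nat.pow_le_pow_right hn0 hA)
  have hPl1 : ∀ μ, l1 (mo (E μ)) ≤ 2 ^ Δ := fun μ =>
    (l1_mo _).trans (pow_le_pow_right₀ one_le_two (hEΔ μ))
  obtain ⟨c, hc0, hc, hcle⟩ := hSS I (∀ i, Fin (nb A n f i)) (fun μ => mo (E μ)) (bx g) (2 ^ Δ) 1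
    (one_le_pow₀ one_le_two)
    (fun m α => (coeff_le_l1 _ _).trans (hPl1 m)) (by omega) (by omega)
  rw [pow_one] at hcle
  have hdeg : ∀ i, MvPolynomial.degreeOf i (∑ m, c m • mo (E m)) ≤ (8 * β * n + 1) * f i :=
    fun i => degreeOf_zcomb_le c _ i fun μ => (degreeOf_mo _ i).trans (sum_ea_le hs μ i)
  refine ⟨c, ?_, ?_, hdeg, hcle⟩
  · intro h0
    exact hc0 (mo_indep _ (fun i => if i ∈ A then b i else true) (ea_inj hab hza hρ hs) c h0)
  · intro α hα
    have hdegα : ∀ i, α i ≤ (8 * β * n + 1) * f i := fun i =>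
      (MvPolynomial.monomial_le_degreeOf i hα).trans (hdeg i)
    refine ⟨?_, hdegα⟩
    by_contra hcon
    push Not at hcon
    refine (MvPolynomial.mem_support_iff.1 hα) (hc α (mem_bx.2 fun i => ?_))
    by_cases hi : i ∈ Q
    · show α i < if i ∈ Q then 2 * d0 * f i else (8 * β + 2) * n * f i
      rw [if_pos hi]
      exact hcon i hi
    · show α i < if i ∈ Q then 2 * d0 * f i else (8 * β + 2) * n * f i
      rw [if_neg hi]
      refine lt_of_le_of_lt (hdegα i) (Nat.mul_lt_mul_of_pos_right ?_ (hf1 i))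
      have h1 : (8 * β + 2) * n = 8 * β * n + 2 * n := by ring
      omega

/-- the Taylor coefficients in terms of the coefficients, sizes -/
lemma abv_tc_le {K : Type} [Field K] (f : AbsoluteValue K ℝ) (F : MvPolynomial I ℤ) (u : I → K)
    (κ : I →₀ ℕ) {Δ : ℕ} {B : ℝ} (hB0 : 0 ≤ B) (hΔ : ∀ α ∈ F.support, ∑ i, α i ≤ Δ)
    (hB : ∀ α ∈ F.support, κ ≤ α → ∏ i, f (u i) ^ (α i - κ i) ≤ B) :
    f (tc u F κ) ≤ l1 F * (2 ^ Δ * B) := by
  have h1 : tc u F κ = ∑ α ∈ F.support, tc u (MvPolynomial.monomial α (F.coeff α)) κ := by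
    rw [← tc_sum]
    congr 1
    exact F.as_sum
  rw [h1]
  refine (f.sum_le _ _).trans ?_
  unfold l1
  rw [Finset.sum_mul]
  apply Finset.sum_le_sum
  intro α hα
  have h2 : tc u (MvPolynomial.monomial α (F.coeff α)) κ =
      ((ch α κ : ℕ) : K) * ((F.coeff α : ℤ) : K) * ∏ i, u i ^ (α i - κ i) := by
    unfold tc
    rw [MvPolynomial.map_monomial, coeff_TT, DD_monomial, MvPolynomial.eval_monomial,
      Finsupp.prod_fintype _ _ (fun i => pow_zero _)]
    rfl
  rw [h2, map_mul, map_mul]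
  by_cases hle : κ ≤ α
  · have h3 : f ((ch α κ : ℕ) : K) ≤ 2 ^ Δ := by
      have h4 := arch_int_le f ((ch α κ : ℕ) : ℤ)
      rw [Int.cast_natCast, Int.cast_natCast, Nat.abs_cast] at h4
      refine h4.trans ?_
      have h5 : ch α κ ≤ 2 ^ (∑ i, α i) := by
        unfold ch
        rw [← Finset.prod_pow_eq_pow_sum]
        exact Finset.prod_le_prod' fun i _ => Nat.choose_le_two_pow _ _
      have h6 : ((ch α κ : ℕ) : ℝ) ≤ ((2 ^ (∑ i, α i) : ℕ) : ℝ) := by exact_mod_cast h5
      refine h6.trans ?_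
      push_cast
      exact pow_le_pow_right₀ one_le_two (hΔ α hα)
    have h4 : f (∏ i, u i ^ (α i - κ i)) ≤ B := by
      rw [map_prod]
      refine le_trans (le_of_eq ?_) (hB α hα hle)
      exact Finset.prod_congr rfl fun i _ => map_pow f _ _
    have h5 := arch_int_le f (F.coeff α)
    calc f ((ch α κ : ℕ) : K) * f ((F.coeff α : ℤ) : K) * f (∏ i, u i ^ (α i - κ i)) ≤
          2 ^ Δ * |((F.coeff α : ℤ) : ℝ)| * B := by
          apply mul_le_mul (mul_le_mul h3 h5 (f.nonneg _) (by positivity)) h4 (f.nonneg _)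
          positivity
      _ = _ := by ring
  · rw [Pool.Agent.H393R2.RothNS.ch_eq_zero hle, Nat.cast_zero, map_zero, zero_mul, zero_mul]
    exact mul_nonneg (abs_nonneg _) (mul_nonneg (by positivity) hB0)

/-- the local bound -/
noncomputable def bp {K : Type} [Field K] (u : I → K) (s : I × Bool → ℝ) (C : ℝ)
    (err : AbsoluteValue K ℝ → ℝ) (κ : I →₀ ℕ) (ρ : I → ℝ) (f : AbsoluteValue K ℝ) : ℝ :=
  bw u s C err κ f + ∑ i, ρ i * |log (f (1 - u i))|

lemma expo_p {K : Type} [Field K] {d : ℕ} {u : I → K} {ξ : I × Bool → Fin d → ℝ} {H : I → ℝ}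
    {H0 : ℝ} (hHpos : ∀ i, 0 < H i) (hH00 : 0 ≤ H0) {T : Fin d → ℝ} {e : ℝ}
    {f : AbsoluteValue K ℝ}
    (hf : ∀ r, |log (f (U u r)) - H r.1 * ∑ k, ξ r k * T k| ≤ H r.1 * e)
    {x : I × Bool → ℝ} (hx : x ∈ rel ξ) {Y : ℝ} (hY : ∀ r, |x r| ≤ Y) (s p : I × Bool → ℝ)
    {ρ : I → ℝ} (hp0 : ∀ r, 0 ≤ p r) (hp1 : ∀ i, p (i, false) = 0) (hp2 : ∀ i, p (i, true) ≤ ρ i)
    (E : I × Bool → ℝ) (hE : ∀ r, E r = ⌊H0 / H r.1 * x r⌋ + s r + p r) :
    ∑ r, E r * log (f (U u r)) ≤ ∑ r, s r * log (f (U u r)) + ∑ r, |log (f (U u r))| +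
      Fintype.card (I × Bool) * Y * (H0 * e) + ∑ i, ρ i * |log (f (1 - u i))| := by
  have h1 := mono_logW hx hY (fun r => s r + p r) (fun r => log (f (U u r))) T hHpos hH00 hf
  have h2 : ∑ r, E r * log (f (U u r)) =
      ∑ r, ((⌊H0 / H r.1 * x r⌋ : ℝ) + (s r + p r)) * log (f (U u r)) :=
    Finset.sum_congr rfl fun r _ => by rw [hE]; ring
  have h3 : ∑ r, (s r + p r) * log (f (U u r)) =
      ∑ r, s r * log (f (U u r)) + ∑ r, p r * log (f (U u r)) := by
    rw [← Finset.sum_add_distrib]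
    exact Finset.sum_congr rfl fun r _ => by ring
  have h4 : ∑ r, p r * log (f (U u r)) ≤ ∑ i, ρ i * |log (f (1 - u i))| := by
    rw [Fintype.sum_prod_type]
    apply Finset.sum_le_sum
    intro i _
    rw [Fintype.sum_bool, hp1, zero_mul, add_zero, U_true]
    calc p (i, true) * log (f (1 - u i)) ≤ p (i, true) * |log (f (1 - u i))| :=
          mul_le_mul_of_nonneg_left (le_abs_self _) (hp0 _)
      _ ≤ _ := mul_le_mul_of_nonneg_right (hp2 i) (abs_nonneg _)
  rw [h2]
  refine h1.trans ?_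
  rw [h3]
  linarith

section

variable {K : Type} [Field K] [NumberField K]

lemma PS_bp {u : I → K} {H : I → ℝ} {H0 : ℝ} {err : AbsoluteValue K ℝ → ℝ} {η : ℝ}
    (hu0 : ∀ i, u i ≠ 0) (hu1 : ∀ i, 1 - u i ≠ 0) (hHH : ∀ i, H i ≤ H0) (hH1 : ∀ i, 1 ≤ H i)
    (htot : ∀ T : Finset (FinitePlace K), PS T err ≤ η * finrank ℚ K)
    (hH : ∀ i, logHeight₁ (u i) ≤ finrank ℚ K * H i) (s : I × Bool → ℝ) {C : ℝ} (hC : 0 ≤ C)
    (κ : I →₀ ℕ) {ρ : I → ℝ} (hρ : ∀ i, ρ i * H i = H0) (hρ0 : ∀ i, 0 ≤ ρ i)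
    (T : Finset (FinitePlace K)) (hT : ∀ r, ∀ v : FinitePlace K, v ∉ T → v (U u r) = 1) :
    PS T (bp u s C err κ ρ) ≤
      finrank ℚ K * (Fintype.card (I × Bool) * (2 * (H0 + 1)) + C * η +
        ∑ i, (κ i : ℝ) * (4 * (H i + 1))) + finrank ℚ K * (Fintype.card I * (4 * H0)) := by
  have hD : (0 : ℝ) ≤ finrank ℚ K := Nat.cast_nonneg _
  show PS T (fun f => bw u s C err κ f + ∑ i, ρ i * |log (f (1 - u i))|) ≤ _
  rw [PS_add, PS_sum]
  have h1 := PS_bw hu0 hu1 hHH htot hH s hC κ T hT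
  have h2 : ∑ i, PS T (fun f => ρ i * |log (f (1 - u i))|) ≤
      ∑ _i : I, finrank ℚ K * (4 * H0) := by
    apply Finset.sum_le_sum
    intro i _
    rw [PS_smul]
    have h3 := Pool.Agent.H883.ZP.PS_abs_le (U_ne hu0 hu1 (i, true)) T
    have h4 := height_UW hH (i, true)
    rw [U_true] at h3 h4
    have h5 : PS T (fun f => |log (f (1 - u i))|) ≤ finrank ℚ K * (4 * H i) := by
      have h6 : (finrank ℚ K : ℝ) * (H i + 1) ≤ finrank ℚ K * (2 * H i) :=
        mul_le_mul_of_nonneg_left (by linarith [hH1 i]) hD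
      dsimp only at h4
      linarith
    calc ρ i * PS T (fun f => |log (f (1 - u i))|) ≤ ρ i * (finrank ℚ K * (4 * H i)) :=
          mul_le_mul_of_nonneg_left h5 (hρ0 i)
      _ = finrank ℚ K * (4 * (ρ i * H i)) := by ring
      _ = _ := by rw [hρ]
  rw [Finset.sum_const, Finset.card_univ, nsmul_eq_mul] at h2
  have e2 : PS T (fun f => bw u s C err κ f) = PS T (bw u s C err κ) := rfl
  rw [e2]
  linarith

end

/-- **Auxiliary polynomials for bad patterns.** -/
theorem aux (hSS : S_S) (hST : S_T) : S_AUX := by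
  intro I _ _ d ξ Q hbad hT θ m0 hθ hm0
  classical
  obtain ⟨b, A, a1, hA, ha1, hab1⟩ := section_AUX ξ (R0 Q) Qᶜ.card (card_R0 Q) hbad hT
  let a : I → I × Bool → ℝ := fun i => if i ∈ A then a1 i else 0
  have haA : ∀ i ∈ A, a i = a1 i := fun i hi => if_pos hi
  have hza' : ∀ i, i ∉ A → a i = 0 := fun i hi => if_neg hi
  have hza : ∀ i, i ∉ A → ∀ r, a i r = 0 := fun i hi r => by
    rw [hza' i hi]
    rfl
  have hab : ∀ i ∈ A, ∀ k ∈ A, a i (k, b k) = if i = k then 1 else 0 := fun i hi k hk => by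
    rw [haA i hi]
    exact hab1 i hi k hk
  have harel : ∀ i, a i ∈ rel ξ := fun i => by
    by_cases hi : i ∈ A
    · rw [haA i hi]
      exact (mem_relOn.1 (ha1 i)).1
    · rw [hza' i hi]
      exact (rel ξ).zero_mem
  have ha0 : ∀ i r, r.1 ∈ Q → r.2 = false → a i r = 0 := by
    intro i r h1 h2
    by_cases hi : i ∈ A
    · rw [haA i hi]
      apply (mem_relOn.1 (ha1 i)).2
      intro h3
      have := (Finset.mem_filter.1 h3).2 h1
      rw [h2] at this
      cases this
    · exact hza i hi r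
  obtain ⟨β, hβ⟩ := exists_beta a
  set N : ℝ := (Fintype.card (I × Bool) : ℝ) with hN
  have hN0 : 0 ≤ N := Nat.cast_nonneg _
  set q : ℝ := (Fintype.card I : ℝ) with hq
  have hq0 : 0 ≤ q := Nat.cast_nonneg _
  have hNq : N = 2 * q := by
    rw [hN, hq, Fintype.card_prod, Fintype.card_bool]
    push_cast
    ring
  obtain ⟨d1, hd1⟩ := exists_nat_gt ((2 * (6 * N + 4)) / (θ * m0))
  have hd1' : 2 * (6 * N + 4) ≤ d1 * (θ * m0) := by
    rw [div_lt_iff₀ (by positivity)] at hd1
    exact hd1.le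
  have hd1r : (0 : ℝ) < d1 := lt_of_le_of_lt (by positivity) hd1
  obtain ⟨n, hn⟩ : ∃ n : ℕ,
      2 * ((2 * (d1 + 1)) ^ Q.card * (8 * β + 2) ^ Qᶜ.card) < n := ⟨_, Nat.lt_succ_self _⟩
  have hn1 : 1 ≤ n := by omega
  set Y : ℝ := β * n with hY
  have hY0 : 0 ≤ Y := by positivity
  set C1 : ℝ := 8 * Y + 1 with hC1
  have hC10 : 0 < C1 := by positivity
  set C3 : ℝ := 2 * n + 3 * C1 + 4 * Y + 1 with hC3
  have hnr : (0 : ℝ) ≤ n := Nat.cast_nonneg _
  have hC31 : 1 ≤ C3 := by linarith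
  set η : ℝ := 1 / (N * Y + 1) with hη
  have hη0 : 0 < η := by positivity
  have hη1 : N * Y * η ≤ 1 := by
    rw [hη, mul_one_div, div_le_one (by positivity)]
    linarith
  set δ : ℝ := 1 / (8 * (q + 1)) with hδ
  have hδ0 : 0 < δ := by positivity
  have hδ1 : 8 * q * δ ≤ 1 := by
    rw [hδ, mul_one_div, div_le_one (by positivity)]
    linarith
  have hδ2 : δ ≤ 1 := by
    rw [hδ, div_le_one (by positivity)]
    linarith
  set θ1 : ℝ := d1 * θ / (2 * (q * C1 + N * (2 * Y) + 1)) with hθ1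
  have hθ10 : 0 < θ1 := by positivity
  have hθ11 : (q * C1 + N * (2 * Y)) * θ1 ≤ d1 * θ / 2 := by
    have h1 : (q * C1 + N * (2 * Y) + 1) * θ1 = d1 * θ / 2 := by
      rw [hθ1]
      field_simp
    have h2 : 0 ≤ q * C1 + N * (2 * Y) := by positivity
    linarith
  set C : ℝ := C3 * (q + 1) + 1 + 1 / θ with hC
  have hCθ : 0 < 1 / θ := by positivity
  have hC3C : C3 * (q + 1) ≤ C := by linarith
  have hC3C' : C3 ≤ C := by nlinarith
  have hCC : 1 ≤ C := by linarith
  refine ⟨θ1, C, δ, η, hθ10, hCC, hδ0, hη0, ?_⟩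
  intro K _ _ u hu0 hu1 H i1 hHH hHC t err hnear hht S hScard hS
  have hDpos : (0 : ℝ) < finrank ℚ K := by exact_mod_cast finrank_pos
  have hH1 : ∀ i, 1 ≤ H i := fun i => hCC.trans (hHC i)
  have hHpos : ∀ i, 0 < H i := fun i => by linarith [hH1 i]
  have hHθ : ∀ i, 1 ≤ θ * H i := fun i => by
    have h1 : 1 / θ ≤ H i := by
      have := hHC i
      have : 0 ≤ C3 * (q + 1) := by positivity
      linarith
    rw [div_le_iff₀ hθ] at h1
    linarith
  set H0 : ℝ := H i1 with hH0
  have hH01 : 1 ≤ H0 := hH1 i1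
  have hH00 : 0 ≤ H0 := (hHpos i1).le
  set ρ : I → ℝ := fun i => H0 / H i with hρdef
  have hρH : ∀ i, ρ i * H i = H0 := fun i => div_mul_cancel₀ _ (hHpos i).ne'
  have hρ1 : ∀ i, 1 ≤ ρ i := fun i => by
    show 1 ≤ H0 / H i
    rw [le_div_iff₀ (hHpos i), one_mul]
    exact hHH i
  have hρpos : ∀ i, 0 < ρ i := fun i => by linarith [hρ1 i]
  set R : ℝ := ∑ i, ρ i with hR
  have hR1 : 1 ≤ R := (hρ1 i1).trans
    (Finset.single_le_sum (f := ρ) (fun i _ => (hρpos i).le) (Finset.mem_univ i1))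
  let f : I → ℕ := fun i => ⌊ρ i⌋₊
  have hf1 : ∀ i, 1 ≤ f i := fun i => by
    show 1 ≤ ⌊ρ i⌋₊
    rw [Nat.one_le_floor_iff]
    exact hρ1 i
  have hf2 : ∀ i, ρ i ≤ 2 * (f i : ℝ) := fun i => by
    have h1 : ρ i < (f i : ℝ) + 1 := Nat.lt_floor_add_one (ρ i)
    have h2 : (1 : ℝ) ≤ (f i : ℝ) := by exact_mod_cast hf1 i
    linarith
  have hf3 : ∀ i, (f i : ℝ) ≤ ρ i := fun i => Nat.floor_le (hρpos i).le
  have hnb : ∀ i, (nb A n f i : ℝ) ≤ n * ρ i := fun i => by
    have h1 : (nb A n f i : ℝ) ≤ ((n * f i : ℕ) : ℝ) := by exact_mod_cast nb_le hn1 f i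
    refine h1.trans ?_
    push_cast
    exact mul_le_mul_of_nonneg_left (hf3 i) hnr
  have hxle : ∀ (μ : ∀ i, Fin (nb A n f i)) r, |xw a ρ μ r| ≤ Y := fun μ r =>
    xw_le hρpos hnb μ hnr (hβ r)
  have hs : ∀ (μ : ∀ i, Fin (nb A n f i)) r, |ρ r.1 * xw a ρ μ r| ≤ sh Q β n f r := by
    intro μ r
    unfold sh
    split_ifs with h
    · have : xw a ρ μ r = 0 := by
        unfold xw
        exact Finset.sum_eq_zero fun i _ => by rw [ha0 i r h.1 h.2, mul_zero]
      rw [this, mul_zero, abs_zero]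
      simp
    · rw [abs_mul, abs_of_pos (hρpos _)]
      have h1 : ρ r.1 * |xw a ρ μ r| ≤ ρ r.1 * Y :=
        mul_le_mul_of_nonneg_left (hxle μ r) (hρpos _).le
      refine h1.trans ?_
      push_cast
      have h2 : ρ r.1 * Y ≤ 2 * (f r.1 : ℝ) * Y := mul_le_mul_of_nonneg_right (hf2 _) hY0
      refine h2.trans (le_of_eq ?_)
      rw [hY]
      ring
  obtain ⟨c, hF0, hsupp, hdeg, hcle⟩ := exists_auxW hSS hab hza Q hA (d1 + 1) n hn hρpos hf1 hs
  set s : I × Bool → ℕ := sh Q β n f with hsdef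
  set F : MvPolynomial I ℤ := ∑ m, c m • mo (ea A a ρ s m) with hF
  set Δ : ℕ := ∑ i, (8 * β * n + 1) * f i with hΔ
  have hC1f : ∀ i, (((8 * β * n + 1) * f i : ℕ) : ℝ) ≤ C1 * ρ i := fun i => by
    push_cast
    have h1 : (8 * (β : ℝ) * n + 1) = C1 := by
      rw [hC1, hY]
      ring
    rw [h1]
    exact mul_le_mul_of_nonneg_left (hf3 i) hC10.le
  have hΔr : (Δ : ℝ) ≤ C1 * R := by
    rw [hΔ, Nat.cast_sum, hR, Finset.mul_sum]
    exact Finset.sum_le_sum fun i _ => hC1f i
  have hl2 : log (2 : ℝ) < 1 := by linarith [Real.log_two_lt_d9]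
  have hl20 : 0 < log (2 : ℝ) := Real.log_pos one_lt_two
  have hΔlog : (Δ : ℝ) * log 2 ≤ C1 * R := by
    have : (0 : ℝ) ≤ Δ := Nat.cast_nonneg _
    nlinarith
  have hEΔ : ∀ μ : ∀ i, Fin (nb A n f i), ∑ r, ea A a ρ s μ r ≤ Δ := by
    intro μ
    rw [Fintype.sum_prod_type]
    apply Finset.sum_le_sum
    intro i _
    rw [Fintype.sum_bool, add_comm]
    exact sum_ea_le hs μ i
  set cd : ℝ := (Fintype.card (∀ i, Fin (nb A n f i)) : ℝ) with hcd
  have hcdeq : Fintype.card (∀ i, Fin (nb A n f i)) = ∏ i, nb A n f i := by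
    rw [Fintype.card_pi]
    exact Finset.prod_congr rfl fun i _ => Fintype.card_fin _
  have hcd1 : 1 ≤ cd := by
    have h1 : 0 < Fintype.card (∀ i, Fin (nb A n f i)) := by
      rw [hcdeq]
      exact Finset.prod_pos fun i _ => nb_pos hn1 hf1 i
    have h2 : 1 ≤ Fintype.card (∀ i, Fin (nb A n f i)) := h1
    rw [hcd]
    exact_mod_cast h2
  have hlogcd : log cd ≤ n * R := by
    rw [hcd, hcdeq, Nat.cast_prod,
      Real.log_prod (fun i _ => by exact_mod_cast (nb_pos hn1 hf1 i).ne'), hR, Finset.mul_sum]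
    apply Finset.sum_le_sum
    intro i _
    have h1 : log (nb A n f i : ℝ) ≤ (nb A n f i : ℝ) :=
      (Real.log_le_sub_one_of_pos (by exact_mod_cast nb_pos hn1 hf1 i)).trans (by linarith)
    exact h1.trans (hnb i)
  have hcd0 : 0 < cd := by linarith
  have hl1F : l1 F ≤ cd * ((cd * 2 ^ Δ) * 2 ^ Δ) :=
    l1_comb_le _ _ hcle (fun μ => (l1_mo _).trans (pow_le_pow_right₀ one_le_two (hEΔ μ)))
      (by positivity)
  have hl1pos : 0 < l1 F := by
    obtain ⟨α, hα⟩ := Finset.nonempty_of_ne_empty (mt MvPolynomial.support_eq_empty.1 hF0)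
    have h3 := coeff_le_l1 F α
    have h4 : (1 : ℝ) ≤ |((MvPolynomial.coeff α F : ℤ) : ℝ)| := by
      have h5 : 1 ≤ |MvPolynomial.coeff α F| :=
        Int.one_le_abs (MvPolynomial.mem_support_iff.1 hα)
      exact_mod_cast h5
    linarith
  have hlogF : log (l1 F) ≤ 2 * (n * R) + 2 * (C1 * R) := by
    have h2 := Real.log_le_log hl1pos hl1F
    rw [Real.log_mul (by positivity) (by positivity), Real.log_mul (by positivity) (by positivity),
      Real.log_mul (by positivity) (by positivity), Real.log_pow] at h2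
    linarith
  have hC1R : 0 ≤ C1 * R := by positivity
  have hYR : 0 ≤ Y * R := by positivity
  have hC3R : C3 * R = 2 * (n * R) + 3 * (C1 * R) + 4 * (Y * R) + R := by
    rw [hC3]
    ring
  refine ⟨F, hF0, ?_, ?_, ?_⟩
  · intro i
    have h1 : (MvPolynomial.degreeOf i F : ℝ) ≤ (((8 * β * n + 1) * f i : ℕ) : ℝ) := by
      exact_mod_cast hdeg i
    show _ ≤ C * ρ i
    have h2 : C1 * ρ i ≤ C * ρ i := by
      apply mul_le_mul_of_nonneg_right _ (hρpos i).le
      linarith
    exact (h1.trans (hC1f i)).trans h2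
  · show _ ≤ C * R
    have h1 : C3 * R ≤ C * R := mul_le_mul_of_nonneg_right hC3C' (by linarith)
    linarith
  · intro κ hκ
    by_contra hz
    set z : K := tc u F κ with hzdef
    set bf : AbsoluteValue K ℝ → ℝ := bp u (fun r => (s r : ℝ)) (N * Y * H0) err κ ρ with hbf
    obtain ⟨T, hTT⟩ := exists_T (K := K) (insert z (Finset.univ.image (U u))) (by
      intro w hw
      rw [Finset.mem_insert, Finset.mem_image] at hw
      rcases hw with rfl | ⟨r, -, rfl⟩
      · exact hz
      · exact U_ne hu0 hu1 r)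
    have hTz : ∀ v : FinitePlace K, v ∉ T → v z = 1 := hTT z (Finset.mem_insert_self _ _)
    have hTU : ∀ r, ∀ v : FinitePlace K, v ∉ T → v (U u r) = 1 := fun r =>
      hTT _ (Finset.mem_insert_of_mem (Finset.mem_image_of_mem _ (Finset.mem_univ r)))
    have hbfeq : ∀ g : AbsoluteValue K ℝ, bf g = ∑ r, (s r : ℝ) * log (g (U u r)) +
        ∑ r, |log (g (U u r))| + N * Y * H0 * err g + dc u κ g +
        ∑ i, ρ i * |log (g (1 - u i))| := fun g => rfl
    have hexpo : ∀ (g : AbsoluteValue K ℝ),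
        (∀ r, |log (g (U u r)) - H r.1 * ∑ k, ξ r k * t g k| ≤ H r.1 * err g) →
        ∀ m : ∀ i, Fin (nb A n f i),
          ∑ r, (ea A a ρ s m r : ℝ) * log (g (U u r)) + dc u κ g ≤ bf g := by
      intro g hg m
      have h1 := expo_p hHpos hH00 hg (xw_mem harel ρ m) (hxle m) (fun r => (s r : ℝ))
        (fun r => (pe A m r : ℝ)) (ρ := ρ) (fun r => Nat.cast_nonneg _) (fun i => by
          have : pe A m (i, false) = 0 := by
            unfold pe
            rw [if_neg]
            intro h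
            cases h.1
          rw [this, Nat.cast_zero]) (fun i => by
          have h2 : pe A m (i, true) ≤ f i := pe_le m (nb_not A n f) (i, true)
          have h3 : (pe A m (i, true) : ℝ) ≤ (f i : ℝ) := by exact_mod_cast h2
          exact h3.trans (hf3 i)) (fun r => (ea A a ρ s m r : ℝ)) (fun r => ea_cast m (hs m r))
      rw [hbfeq]
      have e : N * Y * (H0 * err g) = N * Y * H0 * err g := by ring
      rw [← e]
      linarith
    have hz1 : z = tc u ((∑ m, c m • mo (ea A a ρ s m)) * MvPolynomial.X i1 ^ 0) κ := by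
      rw [pow_zero, mul_one]
    -- the bad places
    let g : InfinitePlace K → ℝ := fun v =>
      (d1 * θ / 2 * H0) * (if ∃ σ ∈ S, InfinitePlace.mk σ = v then (1 : ℝ) else 0)
    have hbadv : ∀ σ ∈ S, log ((InfinitePlace.mk σ).1 z) ≤
        bf (InfinitePlace.mk σ).1 + C3 * R - d1 * θ / 2 * H0 := by
      intro σ hσ
      set w : AbsoluteValue K ℝ := (InfinitePlace.mk σ).1 with hw
      have hwσ : ∀ x, w x = ‖σ x‖ := fun x => rfl
      obtain ⟨hS1, hS2⟩ := hS σ hσ
      have hQ : ∀ i ∈ Q, w (u i) ≤ exp (-(θ * H i)) := by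
        intro i hi
        rw [hwσ, ← Real.log_le_iff_le_exp (norm_pos_iff.2 ((map_ne_zero σ).2 (hu0 i)))]
        exact hS1 i hi
      have hQ1 : ∀ i ∈ Q, w (u i) ≤ 1 := fun i hi => (hQ i hi).trans (by
        rw [← Real.exp_zero]
        exact Real.exp_le_exp.2 (by linarith [hHθ i]))
      have hZ : ∀ i, i ∉ Q → w (u i) ≤ exp (θ1 * H i) := by
        intro i hi
        rw [hwσ, ← Real.log_le_iff_le_exp (norm_pos_iff.2 ((map_ne_zero σ).2 (hu0 i)))]
        exact (abs_le.1 (hS2 i hi false)).2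
      -- the value
      have h1 : w z ≤ l1 F * (2 ^ Δ * exp (-(d1 * θ * H0) + q * (θ1 * C1 * H0))) := by
        apply abv_tc_le w F u κ (Real.exp_pos _).le
        · intro α hα
          exact Finset.sum_le_sum fun i _ => (hsupp α hα).2 i
        intro α hα hκα
        obtain ⟨⟨i0, hi0, hd⟩, hα2⟩ := hsupp α hα
        have hpos0 : 0 ≤ θ1 * C1 * H0 := by positivity
        have h2 : ∀ i, w (u i) ^ (α i - κ i) ≤
            exp ((if i = i0 then -(d1 * θ * H0) else 0) + θ1 * C1 * H0) := by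
          intro i
          by_cases hi : i ∈ Q
          · by_cases hii : i = i0
            · rw [if_pos hii, hii]
              have h3 : (d1 : ℝ) * ρ i0 ≤ ((α i0 - κ i0 : ℕ) : ℝ) := by
                have h4 : (((2 * (d1 + 1) * f i0 : ℕ)) : ℝ) ≤ (α i0 : ℝ) := by exact_mod_cast hd
                push_cast at h4
                have h5 : ((α i0 - κ i0 : ℕ) : ℝ) = (α i0 : ℝ) - κ i0 := Nat.cast_sub (hκα i0)
                rw [h5]
                have h6 : (κ i0 : ℝ) ≤ ρ i0 := by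
                  have h7 : (κ i0 : ℝ) ≤ δ * ρ i0 := hκ i0
                  have h8 : δ * ρ i0 ≤ 1 * ρ i0 := mul_le_mul_of_nonneg_right hδ2 (hρpos _).le
                  linarith
                have h7 : ((d1 : ℝ) + 1) * ρ i0 ≤ ((d1 : ℝ) + 1) * (2 * (f i0 : ℝ)) :=
                  mul_le_mul_of_nonneg_left (hf2 i0) (by positivity)
                linarith
              calc w (u i0) ^ (α i0 - κ i0) ≤ exp (-(θ * H i0)) ^ (α i0 - κ i0) :=
                    pow_le_pow_left₀ (w.nonneg _) (hQ i0 hi0) _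
                _ = exp (((α i0 - κ i0 : ℕ) : ℝ) * (-(θ * H i0))) := by rw [← Real.exp_nat_mul]
                _ ≤ _ := Real.exp_le_exp.2 (by
                  have h4 : (d1 : ℝ) * ρ i0 * (θ * H i0) ≤
                      ((α i0 - κ i0 : ℕ) : ℝ) * (θ * H i0) :=
                    mul_le_mul_of_nonneg_right h3 (by linarith [hHθ i0])
                  have h5 : (d1 : ℝ) * ρ i0 * (θ * H i0) = d1 * θ * H0 := by
                    rw [← hρH i0]
                    ring
                  linarith)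
            · rw [if_neg hii, zero_add]
              calc w (u i) ^ (α i - κ i) ≤ 1 := pow_le_one₀ (w.nonneg _) (hQ1 i hi)
                _ ≤ _ := Real.one_le_exp hpos0
          · have hii : i ≠ i0 := fun h => hi (h ▸ hi0)
            rw [if_neg hii, zero_add]
            calc w (u i) ^ (α i - κ i) ≤ exp (θ1 * H i) ^ (α i - κ i) :=
                  pow_le_pow_left₀ (w.nonneg _) (hZ i hi) _
              _ = exp (((α i - κ i : ℕ) : ℝ) * (θ1 * H i)) := by rw [← Real.exp_nat_mul]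
              _ ≤ _ := Real.exp_le_exp.2 (by
                have h3 : ((α i - κ i : ℕ) : ℝ) ≤ C1 * ρ i := by
                  have h4 : α i - κ i ≤ (8 * β * n + 1) * f i := (Nat.sub_le _ _).trans (hα2 i)
                  have h5 : ((α i - κ i : ℕ) : ℝ) ≤ (((8 * β * n + 1) * f i : ℕ) : ℝ) := by
                    exact_mod_cast h4
                  exact h5.trans (hC1f i)
                have h4 : ((α i - κ i : ℕ) : ℝ) * (θ1 * H i) ≤ C1 * ρ i * (θ1 * H i) :=
                  mul_le_mul_of_nonneg_right h3 (mul_nonneg hθ10.le (hHpos i).le)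
                have h5 : C1 * ρ i * (θ1 * H i) = θ1 * C1 * H0 := by
                  rw [← hρH i]
                  ring
                linarith)
        calc ∏ i, w (u i) ^ (α i - κ i) ≤
            ∏ i, exp ((if i = i0 then -(d1 * θ * H0) else 0) + θ1 * C1 * H0) :=
              Finset.prod_le_prod (fun i _ => pow_nonneg (w.nonneg _) _) fun i _ => h2 i
          _ = exp (∑ i, ((if i = i0 then -(d1 * θ * H0) else 0) + θ1 * C1 * H0)) := by
              rw [Real.exp_sum]
          _ = _ := by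
              rw [Finset.sum_add_distrib,
                Finset.sum_ite_eq' Finset.univ i0 (fun _ => -(d1 * θ * H0)),
                if_pos (Finset.mem_univ _), Finset.sum_const, Finset.card_univ, nsmul_eq_mul]
      have h2 : log (w z) ≤ log (l1 F) + Δ * log 2 +
          (-(d1 * θ * H0) + q * (θ1 * C1 * H0)) := by
        have h4 := Real.log_le_log (w.pos hz) h1
        rw [Real.log_mul (by positivity) (by positivity), Real.log_mul (by positivity)
          (by positivity), Real.log_exp, Real.log_pow] at h4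
        linarith
      -- the monomial part
      have h3 : -(4 * (Y * R) + N * (2 * Y) * θ1 * H0) ≤ ∑ r, (s r : ℝ) * log (w (U u r)) := by
        have h4 : ∀ r : I × Bool, -(2 * Y * ρ r.1 + 2 * Y * θ1 * H0) ≤
            (s r : ℝ) * log (w (U u r)) := by
          intro r
          have hpos : 0 ≤ 2 * Y * ρ r.1 + 2 * Y * θ1 * H0 := by
            have := (hρpos r.1).le
            positivity
          by_cases hr : r.1 ∈ Q ∧ r.2 = false
          · have : s r = 0 := if_pos hr
            rw [this, Nat.cast_zero, zero_mul]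
            linarith
          · have hsr : (s r : ℝ) ≤ 2 * Y * ρ r.1 := by
              have h5 : (s r : ℝ) ≤ ((2 * β * n * f r.1 : ℕ) : ℝ) := by
                exact_mod_cast sh_le Q β n f r
              refine h5.trans ?_
              push_cast
              have h6 : 2 * (β : ℝ) * n = 2 * Y := by
                rw [hY]
                ring
              rw [h6]
              exact mul_le_mul_of_nonneg_left (hf3 _) (by positivity)
            have hlow : -(1 + θ1 * H r.1) ≤ log (w (U u r)) := by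
              by_cases hrQ : r.1 ∈ Q
              · have hr2 : r.2 = true := by
                  cases h : r.2
                  · exact absurd ⟨hrQ, h⟩ hr
                  · rfl
                have hr3 : U u r = 1 - u r.1 := by
                  unfold U
                  rw [if_pos hr2]
                rw [hr3]
                have h5 : (1 / 2 : ℝ) ≤ w (1 - u r.1) := by
                  have h6 : w 1 ≤ w (1 - u r.1) + w (u r.1) := by
                    have := w.add_le (1 - u r.1) (u r.1)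
                    rwa [sub_add_cancel] at this
                  rw [map_one] at h6
                  have h7 : exp (-(θ * H r.1)) ≤ 1 / 2 := by
                    have h8 : exp (-(θ * H r.1)) ≤ exp (-1) :=
                      Real.exp_le_exp.2 (by linarith [hHθ r.1])
                    have h9 : exp (-1) ≤ 1 / 2 := by
                      rw [Real.exp_neg, one_div]
                      apply inv_anti₀ (by norm_num)
                      have := Real.add_one_le_exp (1 : ℝ)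
                      linarith
                    exact h8.trans h9
                  have h8 := hQ r.1 hrQ
                  linarith
                have h6 := Real.log_le_log (by norm_num) h5
                rw [one_div, Real.log_inv] at h6
                have : 0 ≤ θ1 * H r.1 := mul_nonneg hθ10.le (hHpos _).le
                linarith
              · have := (abs_le.1 (hS2 r.1 hrQ r.2)).1
                rw [Prod.mk.eta, ← hwσ] at this
                linarith
            have h5 : (s r : ℝ) * (-(1 + θ1 * H r.1)) ≤ (s r : ℝ) * log (w (U u r)) :=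
              mul_le_mul_of_nonneg_left hlow (Nat.cast_nonneg _)
            have h6 : (s r : ℝ) * (1 + θ1 * H r.1) ≤ 2 * Y * ρ r.1 * (1 + θ1 * H r.1) := by
              apply mul_le_mul_of_nonneg_right hsr
              have : 0 ≤ θ1 * H r.1 := mul_nonneg hθ10.le (hHpos _).le
              linarith
            have h7 : 2 * Y * ρ r.1 * (1 + θ1 * H r.1) = 2 * Y * ρ r.1 + 2 * Y * θ1 * H0 := by
              rw [← hρH r.1]
              ring
            linarith
        calc -(4 * (Y * R) + N * (2 * Y) * θ1 * H0) =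
              ∑ r : I × Bool, -(2 * Y * ρ r.1 + 2 * Y * θ1 * H0) := by
              rw [Finset.sum_neg_distrib, Finset.sum_add_distrib, Finset.sum_const,
                Finset.card_univ, nsmul_eq_mul, Fintype.sum_prod_type]
              have h5 : ∑ i : I, ∑ _b : Bool, 2 * Y * ρ i = 4 * (Y * R) := by
                rw [hR, Finset.mul_sum, Finset.mul_sum]
                refine Finset.sum_congr rfl fun i _ => ?_
                rw [Fintype.sum_bool]
                ring
              rw [h5]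
              ring
          _ ≤ _ := Finset.sum_le_sum fun r _ => h4 r
      have h4 : 0 ≤ ∑ r, |log (w (U u r))| := Finset.sum_nonneg fun _ _ => abs_nonneg _
      have h5 : 0 ≤ N * Y * H0 * err w := by
        have h6 := (abs_nonneg _).trans (hnear.inf (InfinitePlace.mk σ) (i1, false))
        have h7 : 0 ≤ err w := by
          have h8 : 0 < H i1 := hHpos i1
          exact (mul_nonneg_iff_of_pos_left h8).1 h6
        positivity
      have h6 : 0 ≤ dc u κ w := by
        unfold dc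
        exact Finset.sum_nonneg fun i _ => by positivity
      have h7 : 0 ≤ ∑ i, ρ i * |log (w (1 - u i))| :=
        Finset.sum_nonneg fun i _ => mul_nonneg (hρpos i).le (abs_nonneg _)
      have h8 : (q * C1 + N * (2 * Y)) * θ1 * H0 ≤ d1 * θ / 2 * H0 :=
        mul_le_mul_of_nonneg_right hθ11 hH00
      rw [hbfeq, hC3R]
      linarith
    set Cc : ℝ := ∑ m, |(c m : ℝ)| with hCc
    have hCc0 : 0 ≤ Cc := Finset.sum_nonneg fun _ _ => abs_nonneg _
    have hlogCc : log (Cc + 1) ≤ log 2 + 2 * (n * R) + Δ * log 2 := by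
      have h1 : Cc ≤ cd * (cd * 2 ^ Δ) := by
        calc Cc ≤ ∑ _m : ∀ i, Fin (nb A n f i), cd * 2 ^ Δ :=
              Finset.sum_le_sum fun m _ => hcle m
          _ = _ := by rw [Finset.sum_const, Finset.card_univ, nsmul_eq_mul]
      have h2 : (1 : ℝ) ≤ cd * (cd * 2 ^ Δ) := by
        have h3 : (1 : ℝ) ≤ 2 ^ Δ := one_le_pow₀ one_le_two
        have h4 : (1 : ℝ) ≤ cd * 2 ^ Δ := by nlinarith
        nlinarith
      have h3 : Cc + 1 ≤ 2 * (cd * (cd * 2 ^ Δ)) := by linarith
      have h4 := Real.log_le_log (by linarith) h3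
      rw [Real.log_mul (by positivity) (by positivity), Real.log_mul (by positivity)
        (by positivity), Real.log_mul (by positivity) (by positivity), Real.log_pow] at h4
      linarith
    have hPS := PS_le_gain T (fun g => log (g z)) bf (C3 * R) g (fun v => by
        by_cases h : ∃ σ ∈ S, InfinitePlace.mk σ = v
        · obtain ⟨σ, hσ, rfl⟩ := h
          have h1 := hbadv σ hσ
          have h2 : g (InfinitePlace.mk σ) = d1 * θ / 2 * H0 := by
            show (d1 * θ / 2 * H0) * _ = _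
            rw [if_pos ⟨σ, hσ, rfl⟩, mul_one]
          rw [h2]
          exact h1
        · have h2 : g v = 0 := by
            show (d1 * θ / 2 * H0) * _ = _
            rw [if_neg h, mul_zero]
          rw [h2, sub_zero]
          have h3 := arch_tc v.1 hST hu0 hu1 c (fun m => ea A a ρ s m) κ hEΔ
            (hexpo v.1 (hnear.inf v)) i1 0
          rw [← hz1, pow_zero, mul_one, add_zero] at h3
          have h4 : v.1 z ≤ (Cc + 1) * (2 ^ Δ * exp (bf v.1)) :=
            h3.trans (mul_le_mul_of_nonneg_right (by linarith) (by positivity))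
          have h5 := Real.log_le_log (v.1.pos hz) h4
          rw [Real.log_mul (by positivity) (by positivity), Real.log_mul (by positivity)
            (by positivity), Real.log_exp, Real.log_pow] at h5
          show log (v.1 z) ≤ _
          rw [hC3R]
          linarith) (fun v => by
        have hna : ∀ a b, v.1 (a + b) ≤ max (v.1 a) (v.1 b) := fun a b => v.add_le a b
        have h3 := fin_tc v.1 hST hna hu0 hu1 c (fun m => ea A a ρ s m) κ
          (hexpo v.1 (hnear.fin v)) i1 0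
        rw [← hz1, pow_zero, mul_one] at h3
        have h5 := Real.log_le_log (v.1.pos hz) h3
        rwa [Real.log_exp] at h5)
    rw [PS_log hz T hTz] at hPS
    have hb : PS T bf ≤ finrank ℚ K * (N * (2 * (H0 + 1)) + (N * Y * H0) * η +
        ∑ i, (κ i : ℝ) * (4 * (H i + 1))) + finrank ℚ K * (q * (4 * H0)) :=
      PS_bp hu0 hu1 hHH hH1 hnear.tot hht (fun r => (s r : ℝ)) (C := N * Y * H0) (by positivity)
        κ hρH (fun i => (hρpos i).le) T hTU
    have hκsum : ∑ i, (κ i : ℝ) * (4 * (H i + 1)) ≤ H0 := by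
      have h1 : ∀ i, (κ i : ℝ) * (4 * (H i + 1)) ≤ 8 * δ * H0 := by
        intro i
        have h2 : (κ i : ℝ) ≤ δ * ρ i := hκ i
        have h3 : (κ i : ℝ) * (4 * (H i + 1)) ≤ (δ * ρ i) * (8 * H i) := by
          apply mul_le_mul h2 _ (by have := hHpos i; positivity)
            (mul_nonneg hδ0.le (hρpos i).le)
          have := hH1 i
          linarith
        have h4 : (δ * ρ i) * (8 * H i) = 8 * δ * H0 := by
          rw [← hρH i]
          ring
        linarith
      refine (Finset.sum_le_sum fun i _ => h1 i).trans ?_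
      rw [Finset.sum_const, Finset.card_univ, nsmul_eq_mul, ← hq]
      have h2 : q * (8 * δ * H0) = (8 * q * δ) * H0 := by ring
      rw [h2]
      nlinarith
    have hRH : C3 * R ≤ H0 := by
      have h1 : ∀ i, C * ρ i ≤ H0 := by
        intro i
        rw [← hρH i, mul_comm]
        exact mul_le_mul_of_nonneg_left (hHC i) (hρpos i).le
      have h2 : C * R ≤ q * H0 := by
        rw [hR, Finset.mul_sum]
        refine (Finset.sum_le_sum fun i _ => h1 i).trans (le_of_eq ?_)
        rw [Finset.sum_const, Finset.card_univ, nsmul_eq_mul]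
      have h3 : C3 * (q + 1) * R ≤ C * R := mul_le_mul_of_nonneg_right hC3C (by linarith)
      have h4 : (q + 1) * (C3 * R) ≤ (q + 1) * H0 := by nlinarith
      exact le_of_mul_le_mul_left h4 (by linarith)
    have hgain : (d1 * θ / 2 * H0) * (m0 * finrank ℚ K) ≤
        ∑ v : InfinitePlace K, (v.mult : ℝ) * g v := by
      have h4 := card_le_mult S
      have h5 : ∑ v : InfinitePlace K, (v.mult : ℝ) * g v = (d1 * θ / 2 * H0) *
          ∑ v : InfinitePlace K, (v.mult : ℝ) *
            (if ∃ σ ∈ S, InfinitePlace.mk σ = v then (1 : ℝ) else 0) := by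
        rw [Finset.mul_sum]
        refine Finset.sum_congr rfl fun v _ => ?_
        show (v.mult : ℝ) * ((d1 * θ / 2 * H0) * _) = _
        ring
      rw [h5]
      exact mul_le_mul_of_nonneg_left (hScard.trans h4) (by positivity)
    have h1 : (6 * N + 4) * H0 ≤ d1 * θ / 2 * H0 * m0 := by
      have : d1 * θ / 2 * H0 * m0 = (d1 * (θ * m0)) / 2 * H0 := by ring
      rw [this]
      apply mul_le_mul_of_nonneg_right _ hH00
      linarith
    have h2 : (finrank ℚ K : ℝ) * ((6 * N + 4) * H0) ≤ d1 * θ / 2 * H0 * (m0 * finrank ℚ K) := by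
      have : d1 * θ / 2 * H0 * (m0 * finrank ℚ K) = finrank ℚ K * (d1 * θ / 2 * H0 * m0) := by
        ring
      rw [this]
      exact mul_le_mul_of_nonneg_left h1 hDpos.le
    have h3 : N * (2 * (H0 + 1)) + (N * Y * H0) * η +
        ∑ i, (κ i : ℝ) * (4 * (H i + 1)) ≤ (4 * N + 2) * H0 := by
      have h4 : N * (2 * (H0 + 1)) ≤ 4 * N * H0 := by nlinarith
      have h5 : (N * Y * H0) * η ≤ H0 := by
        have : (N * Y * H0) * η = (N * Y * η) * H0 := by ring
        rw [this]
        nlinarith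
      linarith
    have h4 : (finrank ℚ K : ℝ) * (N * (2 * (H0 + 1)) + (N * Y * H0) * η +
        ∑ i, (κ i : ℝ) * (4 * (H i + 1))) ≤ finrank ℚ K * ((4 * N + 2) * H0) :=
      mul_le_mul_of_nonneg_left h3 hDpos.le
    have h5 : (finrank ℚ K : ℝ) * (q * (4 * H0)) = finrank ℚ K * (2 * N * H0) := by
      rw [hNq]
      ring
    have h6 : (finrank ℚ K : ℝ) * (C3 * R) ≤ finrank ℚ K * H0 :=
      mul_le_mul_of_nonneg_left hRH hDpos.le
    have h7 : 0 < (finrank ℚ K : ℝ) * H0 := mul_pos hDpos (by linarith)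
    linarith

end Pool.Agent.H883.ZR.AUX
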