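import Pool.Agent.H883.ZR.Base3

set_option autoImplicit false
set_option linter.unusedSectionVars false

/-!
# Bounded height for products of three lines, from the number field version
-/

namespace Pool.Agent.H883.ZR.BL

open Real NumberField Height Module Finset MvPolynomial
open Pool.Agent.H489ZP
open Pool.Agent.H393R2.RothNS (TT DD l1)
open Pool.Agent.H883.ZQ
open Pool.Agent.H883.ZP (mon Codim relW finrank_relW log_mem_relW height_ext)

theorem bl (h : S_BN) : S_BL := by
  classical
  intro K0 _ _ a b ha hb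
  obtain ⟨G, B, η, hG0, hη, hG⟩ := h
  let s0 : Fin 3 × Bool → K0 := fun r => if r.2 then b r.1 else a r.1
  have hs0 : ∀ r, s0 r ≠ 0 := by
    rintro ⟨i, x⟩
    cases x
    · exact ha i
    · exact hb i
  choose C hC using fun r => height_ext (s0 r)
  set Cs : ℝ := ∑ r, |C r| with hCs
  have hCs0 : 0 ≤ Cs := Finset.sum_nonneg fun _ _ => abs_nonneg _
  have hBs : ∀ (K : Type) [Field K] [NumberField K] [Algebra K0 K] (r : Fin 3 × Bool),
      logHeight₁ (algebraMap K0 K (s0 r)) ≤ finrank ℚ K * Cs := by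
    intro K _ _ _ r
    refine (hC r K).trans (mul_le_mul_of_nonneg_left ?_ (by positivity))
    exact (le_abs_self _).trans (Finset.single_le_sum (f := fun r => |C r|)
      (fun _ _ => abs_nonneg _) (Finset.mem_univ r))
  set B0 : ℝ := max (max B Cs) (Cs / η) with hB0
  refine ⟨scaleG a G, scaleG_ne ha hG0, η / 2, B0 + Cs, by positivity, ?_⟩
  intro K _ _ _ P g e hP hline hge hcod heε
  have hDpos : (0 : ℝ) < finrank ℚ K := finrank_pos'
  rw [aeval_scaleG]
  have ha' : ∀ i, algebraMap K0 K (a i) ≠ 0 := fun i => (map_ne_zero _).2 (ha i)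
  have hb' : ∀ i, algebraMap K0 K (b i) ≠ 0 := fun i => (map_ne_zero _).2 (hb i)
  have hg : ∀ r, g r ≠ 0 := fun r h => hP r (by rw [hge, h, zero_mul])
  have he : ∀ r, e r ≠ 0 := fun r h => hP r (by rw [hge, h, mul_zero])
  have h1 : ∀ i, 1 - algebraMap K0 K (a i) * P (Sum.inl i) =
      algebraMap K0 K (b i) * P (Sum.inr i) := fun i => by rw [← hline i]; ring
  have hts : ∀ r, ht (algebraMap K0 K (s0 r)) ≤ Cs := by
    intro r
    have := hBs K r
    rw [logHeight_eq] at this
    exact le_of_mul_le_mul_left this hDpos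
  have hlow : ∀ i, ht (P (Sum.inl i)) ≤ ht (algebraMap K0 K (a i) * P (Sum.inl i)) + Cs := by
    intro i
    have h2 : P (Sum.inl i) = (algebraMap K0 K (a i))⁻¹ *
        (algebraMap K0 K (a i) * P (Sum.inl i)) := by
      rw [inv_mul_cancel_left₀ (ha' i)]
    have h3 := ht_mul_le (algebraMap K0 K (a i))⁻¹ (algebraMap K0 K (a i) * P (Sum.inl i))
    rw [← h2, ht_inv] at h3
    have := hts (i, false)
    exact h3.trans (by
      have e1 : s0 (i, false) = a i := rfl
      rw [e1] at this
      linarith)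
  by_cases hsmall : ∃ i, ht (P (Sum.inl i)) ≤ B0 + Cs
  · exact Or.inr hsmall
  push Not at hsmall
  left
  have hbig : ∀ i, B0 ≤ ht (algebraMap K0 K (a i) * P (Sum.inl i)) := by
    intro i
    have h2 := hsmall i
    have h3 := hlow i
    linarith
  have hbB : ∀ i, B ≤ ht (algebraMap K0 K (a i) * P (Sum.inl i)) := fun i =>
    ((le_max_left _ _).trans (le_max_left _ _)).trans (hbig i)
  have hbC : ∀ i, Cs ≤ ht (algebraMap K0 K (a i) * P (Sum.inl i)) := fun i =>
    ((le_max_right _ _).trans (le_max_left _ _)).trans (hbig i)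
  have hbη : ∀ i, Cs ≤ η * ht (algebraMap K0 K (a i) * P (Sum.inl i)) := fun i => by
    have h2 : Cs / η ≤ ht (algebraMap K0 K (a i) * P (Sum.inl i)) :=
      (le_max_right _ _).trans (hbig i)
    rw [div_le_iff₀ hη] at h2
    linarith
  have hfin : finrank ℝ ((relW g).map (qs 3)) ≤ 3 := by
    refine (Submodule.finrank_map_le _ _).trans ?_
    have := finrank_relW hcod
    rw [Fintype.card_sum, Fintype.card_fin] at this
    omega
  have hU : ∀ r : Fin 3 × Bool, U (fun i => algebraMap K0 K (a i) * P (Sum.inl i)) r =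
      algebraMap K0 K (s0 r) * P (swp r) := by
    rintro ⟨i, x⟩
    cases x
    · rfl
    · rw [U_true, h1]
      rfl
  have hmem : ∀ (v : K →*₀ ℝ), (∀ x, x ≠ 0 → 0 < v x) →
      lw v (fun i => algebraMap K0 K (a i) * P (Sum.inl i)) (fun r => algebraMap K0 K (s0 r))
        (fun r => e (swp r)) ∈ (relW g).map (qs 3) := by
    intro v hv
    refine Submodule.mem_map.2 ⟨fun l => Real.log (v (g l)), log_mem_relW v hv hg, ?_⟩
    funext r
    show Real.log (v (g (swp r))) = _
    unfold lw
    rw [hU, hge, map_mul, map_mul, Real.log_mul (hv _ ((map_ne_zero _).2 (hs0 r))).ne'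
      (mul_pos (hv _ (hg _)) (hv _ (he _))).ne',
      Real.log_mul (hv _ (hg _)).ne' (hv _ (he _)).ne']
    ring
  refine hG K (fun i => algebraMap K0 K (a i) * P (Sum.inl i))
    (fun i => mul_ne_zero (ha' i) (hP _))
    (fun i => by rw [h1]; exact mul_ne_zero (hb' i) (hP _)) ?_
    (fun r => algebraMap K0 K (s0 r)) (fun r => e (swp r))
    (fun r => (map_ne_zero _).2 (hs0 r)) (fun r => he _) ?_ ?_
    ((relW g).map (qs 3)) hfin ?_ ?_
  · intro i
    rw [logHeight_eq]
    exact mul_le_mul_of_nonneg_left (hbB i) hDpos.le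
  · intro r
    refine (hBs K r).trans ?_
    rw [logHeight_eq]
    calc (finrank ℚ K : ℝ) * Cs ≤
          finrank ℚ K * (η * ht (algebraMap K0 K (a r.1) * P (Sum.inl r.1))) :=
          mul_le_mul_of_nonneg_left (hbη r.1) hDpos.le
      _ = _ := by ring
  · intro r
    rw [logHeight_eq, logHeight_eq]
    have hix : ix (swp r) = r.1 := by
      rcases r with ⟨i, x⟩
      cases x
      · rfl
      · rfl
    have h2 := heε (swp r)
    rw [hix] at h2
    have h3 := hlow r.1
    have h4 := hbC r.1
    have h5 : ht (e (swp r)) ≤ η * ht (algebraMap K0 K (a r.1) * P (Sum.inl r.1)) := by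
      refine h2.trans ?_
      have h6 : ht (P (Sum.inl r.1)) ≤ 2 * ht (algebraMap K0 K (a r.1) * P (Sum.inl r.1)) := by
        linarith
      calc η / 2 * ht (P (Sum.inl r.1)) ≤
            η / 2 * (2 * ht (algebraMap K0 K (a r.1) * P (Sum.inl r.1))) :=
            mul_le_mul_of_nonneg_left h6 (by positivity)
        _ = _ := by ring
    calc (finrank ℚ K : ℝ) * ht (e (swp r)) ≤
          finrank ℚ K * (η * ht (algebraMap K0 K (a r.1) * P (Sum.inl r.1))) :=
          mul_le_mul_of_nonneg_left h5 hDpos.le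
      _ = _ := by ring
  · intro σ
    exact hmem ⟨⟨fun x => ‖σ x‖, by simp⟩, by simp, fun x y => by simp⟩
      (fun x hx => norm_pos_iff.2 ((map_ne_zero σ).2 hx))
  · intro v
    exact hmem ⟨⟨fun x => v x, map_zero v⟩, map_one v, map_mul v⟩
      (fun x hx => FinitePlace.pos_iff.2 hx)

end Pool.Agent.H883.ZR.BL
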