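import Pool.Agent.H883.ZR.Base3

set_option autoImplicit false
set_option linter.unusedSectionVars false

/-!
# Three coordinates of large height: sorting
-/

namespace Pool.Agent.H883.ZR.BN

open Real NumberField Height Module Finset MvPolynomial
open Pool.Agent.H489ZP
open Pool.Agent.H883.ZQ
open Pool.Agent.H883.ZR

/-- the conclusion for one point -/
def Good (G : MvPolynomial (Fin 3) ℤ) (η κ0 : ℝ) (K : Type) [Field K] [NumberField K]
    (u : Fin 3 → K) (H : Fin 3 → ℝ) : Prop :=
  (∀ i, 1 ≤ H i) →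
      (∀ i, logHeight₁ (u i) ≤ finrank ℚ K * H i) →
      (∀ i, finrank ℚ K * (κ0 * H i) ≤ logHeight₁ (u i)) →
      ∀ (s e : Fin 3 × Bool → K), (∀ r, s r ≠ 0) → (∀ r, e r ≠ 0) →
      (∀ r, logHeight₁ (s r) ≤ finrank ℚ K * (η * H r.1)) →
      (∀ r, logHeight₁ (e r) ≤ finrank ℚ K * (η * H r.1)) →
      ∀ (W : Submodule ℝ (Fin 3 × Bool → ℝ)), finrank ℝ W ≤ 3 →
        (∀ σ : K →+* ℂ, lw (fun x => ‖σ x‖) u s e ∈ W) →
        (∀ v : FinitePlace K, lw (fun x => v x) u s e ∈ W) → aeval u G = 0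

/-- the statement for sorted heights -/
def Sorted (G : MvPolynomial (Fin 3) ℤ) (B η : ℝ) : Prop :=
    ∀ (K : Type) [Field K] [NumberField K] (u : Fin 3 → K), (∀ i, u i ≠ 0) →
      (∀ i, 1 - u i ≠ 0) → logHeight₁ (u 1) ≤ logHeight₁ (u 0) →
      logHeight₁ (u 2) ≤ logHeight₁ (u 1) → (∀ i, finrank ℚ K * B ≤ logHeight₁ (u i)) →
      ∀ (s e : Fin 3 × Bool → K), (∀ r, s r ≠ 0) → (∀ r, e r ≠ 0) →
      (∀ r, logHeight₁ (s r) ≤ η * logHeight₁ (u r.1)) →
      (∀ r, logHeight₁ (e r) ≤ η * logHeight₁ (u r.1)) →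
      ∀ (W : Submodule ℝ (Fin 3 × Bool → ℝ)), finrank ℝ W ≤ 3 →
        (∀ σ : K →+* ℂ, lw (fun x => ‖σ x‖) u s e ∈ W) →
        (∀ v : FinitePlace K, lw (fun x => v x) u s e ∈ W) → aeval u G = 0

theorem sorted (h111 : S_NF Pt111) (h21 : S_NF Pt21) (h12 : S_NF Pt12) (h3 : S_NF Pt3) :
    ∃ (G : MvPolynomial (Fin 3) ℤ) (B η : ℝ), G ≠ 0 ∧ 0 < η ∧ Sorted G B η := by
  obtain ⟨G1, B1, η1, hG1, hη1, hs1⟩ := h111 1 one_pos
  set N1 : ℝ := max 1 B1 with hN1
  have hN11 : 1 ≤ N1 := le_max_left _ _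
  have hN1B : B1 ≤ N1 := le_max_right _ _
  have hN10 : 0 < N1 := by linarith
  obtain ⟨G2, B2, η2, hG2, hη2, hs2⟩ := h21 (1 / N1) (by positivity)
  obtain ⟨G3, B3, η3, hG3, hη3, hs3⟩ := h12 (1 / N1) (by positivity)
  set N2 : ℝ := max N1 (max B2 B3) with hN2
  have hN21 : N1 ≤ N2 := le_max_left _ _
  have hN2B2 : B2 ≤ N2 := (le_max_left _ _).trans (le_max_right _ _)
  have hN2B3 : B3 ≤ N2 := (le_max_right _ _).trans (le_max_right _ _)
  have hN20 : 0 < N2 := by linarith
  obtain ⟨G4, B4, η4, hG4, hη4, hs4⟩ := h3 (1 / (N1 * N2)) (by positivity)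
  refine ⟨G1 * G2 * (G3 * G4), max N2 B4, min (min η1 η2) (min η3 η4),
    mul_ne_zero (mul_ne_zero hG1 hG2) (mul_ne_zero hG3 hG4), by positivity, ?_⟩
  set B : ℝ := max N2 B4 with hB
  set η : ℝ := min (min η1 η2) (min η3 η4) with hη
  have hBN : N2 ≤ B := le_max_left _ _
  have hBB4 : B4 ≤ B := le_max_right _ _
  have hη0 : 0 < η := by rw [hη]; positivity
  have he1 : η ≤ η1 := (min_le_left _ _).trans (min_le_left _ _)
  have he2 : η ≤ η2 := (min_le_left _ _).trans (min_le_right _ _)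
  have he3 : η ≤ η3 := (min_le_right _ _).trans (min_le_left _ _)
  have he4 : η ≤ η4 := (min_le_right _ _).trans (min_le_right _ _)
  intro K _ _ u hu0 hu1 hs10 hs21 hBu s e hs0 he0 hsl hel W hW hW1 hW2
  have hD : (0 : ℝ) < finrank ℚ K := by exact_mod_cast Module.finrank_pos
  set h : Fin 3 → ℝ := fun i => logHeight₁ (u i) / finrank ℚ K with hh
  have hhu : ∀ i, logHeight₁ (u i) = finrank ℚ K * h i := fun i => by
    rw [hh]; field_simp
  have hhB : ∀ i, B ≤ h i := fun i => by
    have := hBu i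
    rw [hhu i] at this
    exact le_of_mul_le_mul_left this hD
  have hh10 : h 1 ≤ h 0 := by
    rw [hhu, hhu] at hs10
    exact le_of_mul_le_mul_left hs10 hD
  have hh21 : h 2 ≤ h 1 := by
    rw [hhu, hhu] at hs21
    exact le_of_mul_le_mul_left hs21 hD
  have hpos : ∀ i, 0 < h i := fun i => by have := hhB i; linarith
  -- application of one of the four cases
  have app : ∀ (G : MvPolynomial (Fin 3) ℤ) (η' κ0 : ℝ) (H : Fin 3 → ℝ), η ≤ η' →
      (∀ i, h i ≤ H i) → (∀ i, κ0 * H i ≤ h i) → Good G η' κ0 K u H → aeval u G = 0 := by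
    intro G η' κ0 H hη' h1 h2 h3
    have hle : ∀ r : Fin 3 × Bool, η * logHeight₁ (u r.1) ≤ finrank ℚ K * (η' * H r.1) := by
      intro r
      rw [hhu]
      have a1 : η * h r.1 ≤ η' * H r.1 :=
        mul_le_mul hη' (h1 _) (hpos _).le (hη0.le.trans hη')
      have a2 : (finrank ℚ K : ℝ) * (η * h r.1) ≤ finrank ℚ K * (η' * H r.1) :=
        mul_le_mul_of_nonneg_left a1 hD.le
      linarith
    refine h3 (fun i => ?_) (fun i => ?_) (fun i => ?_) s e hs0 he0
      (fun r => (hsl r).trans (hle r)) (fun r => (hel r).trans (hle r)) W hW hW1 hW2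
    · have := hhB i
      have := h1 i
      linarith
    · rw [hhu]
      exact mul_le_mul_of_nonneg_left (h1 i) hD.le
    · rw [hhu]
      exact mul_le_mul_of_nonneg_left (h2 i) hD.le
  have hB0 := hhB 0
  have hB1 := hhB 1
  have hB2 := hhB 2
  have hp0 := hpos 0
  have hp1 := hpos 1
  have hp2 := hpos 2
  have hN12 : 1 ≤ N2 := hN11.trans hN21
  have inv1 : 1 / N1 ≤ 1 := by rw [div_le_one hN10]; exact hN11
  have inv2 : 1 / (N1 * N2) ≤ 1 := by
    rw [div_le_one (by positivity)]
    nlinarith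
  rw [map_mul, map_mul, map_mul]
  -- the case of three comparable heights
  have case3 : h 0 ≤ N1 * N2 * h 2 → aeval u G4 = 0 := by
    intro hc
    refine app G4 η4 (1 / (N1 * N2)) (fun _ => h 0) he4 ?_ ?_
      (fun a1 a2 a3 s e b1 b2 b3 b4 W w1 w2 w3 =>
        hs4 K u hu0 hu1 (fun _ => h 0) ⟨rfl, rfl, hBB4.trans hB0⟩ a1 a2 a3 s e b1 b2 b3 b4 W w1 w2
          w3)
    · intro i
      fin_cases i
      · exact le_rfl
      · exact hh10
      · exact hh21.trans hh10
    · have hm : 1 / (N1 * N2) * h 0 ≤ h 2 := by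
        rw [one_div_mul_eq_div, div_le_iff₀ (by positivity)]
        linarith
      intro i
      fin_cases i
      · exact (hm.trans hh21).trans hh10
      · exact hm.trans hh21
      · exact hm
  by_cases c1 : N1 * h 2 ≤ h 1
  · by_cases c2 : N1 * h 1 ≤ h 0
    · -- lacunary
      have : aeval u G1 = 0 := by
        refine app G1 η1 1 h he1 (fun _ => le_rfl) (fun i => by rw [one_mul])
          (fun a1 a2 a3 s e b1 b2 b3 b4 W w1 w2 w3 =>
            hs1 K u hu0 hu1 h ?_ a1 a2 a3 s e b1 b2 b3 b4 W w1 w2 w3)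
        have q1 : B1 * h 1 ≤ h 0 := (mul_le_mul_of_nonneg_right hN1B hp1.le).trans c2
        have q2 : B1 * h 2 ≤ h 1 := (mul_le_mul_of_nonneg_right hN1B hp2.le).trans c1
        have q3 : B1 * h 2 ≤ h 0 := q2.trans hh10
        refine ⟨fun i => ?_, fun i j hij => ?_⟩
        · have := hhB i
          linarith
        · fin_cases i <;> fin_cases j
          · exact absurd rfl hij
          · exact Or.inr q1
          · exact Or.inr q3
          · exact Or.inl q1
          · exact absurd rfl hij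
          · exact Or.inr q2
          · exact Or.inl q3
          · exact Or.inl q2
          · exact absurd rfl hij
      rw [this, zero_mul, zero_mul]
    · push Not at c2
      by_cases c3 : N2 * h 2 ≤ h 0
      · have : aeval u G3 = 0 := by
          refine app G3 η3 (1 / N1) ![h 0, h 0, h 2] he3 ?_ ?_
            (fun a1 a2 a3 s e b1 b2 b3 b4 W w1 w2 w3 =>
              hs3 K u hu0 hu1 ![h 0, h 0, h 2] ?_ a1 a2 a3 s e b1 b2 b3 b4 W w1 w2 w3)
          · intro i
            fin_cases i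
            · exact le_rfl
            · exact hh10
            · exact le_rfl
          · intro i
            fin_cases i
            · change 1 / N1 * h 0 ≤ h 0
              nlinarith
            · change 1 / N1 * h 0 ≤ h 1
              rw [one_div_mul_eq_div, div_le_iff₀ hN10]
              linarith
            · change 1 / N1 * h 2 ≤ h 2
              nlinarith
          · refine ⟨rfl, ?_, ?_, ?_⟩
            · change B3 ≤ h 2
              linarith
            · change B3 * h 2 ≤ h 0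
              exact (mul_le_mul_of_nonneg_right hN2B3 hp2.le).trans c3
            · change h 2 ≤ h 0
              linarith
        rw [this, zero_mul, mul_zero]
      · push Not at c3
        rw [case3 (by nlinarith [mul_pos hN20 hp2]), mul_zero, mul_zero]
  · push Not at c1
    by_cases c2 : N2 * h 1 ≤ h 0
    · have : aeval u G2 = 0 := by
        refine app G2 η2 (1 / N1) ![h 0, h 1, h 1] he2 ?_ ?_
          (fun a1 a2 a3 s e b1 b2 b3 b4 W w1 w2 w3 =>
            hs2 K u hu0 hu1 ![h 0, h 1, h 1] ?_ a1 a2 a3 s e b1 b2 b3 b4 W w1 w2 w3)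
        · intro i
          fin_cases i
          · exact le_rfl
          · exact le_rfl
          · exact hh21
        · intro i
          fin_cases i
          · change 1 / N1 * h 0 ≤ h 0
            nlinarith
          · change 1 / N1 * h 1 ≤ h 1
            nlinarith
          · change 1 / N1 * h 1 ≤ h 2
            rw [one_div_mul_eq_div, div_le_iff₀ hN10]
            linarith
        · refine ⟨rfl, ?_, ?_, ?_⟩
          · change B2 ≤ h 1
            linarith
          · change B2 * h 1 ≤ h 0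
            exact (mul_le_mul_of_nonneg_right hN2B2 hp1.le).trans c2
          · change h 1 ≤ h 0
            exact hh10
      rw [this, mul_zero, zero_mul]
    · push Not at c2
      rw [case3 (by nlinarith [mul_pos hN20 hp1]), mul_zero, mul_zero]

theorem lw_comp {K : Type} [Field K] (f : K → ℝ) (u : Fin 3 → K) (s e : Fin 3 × Bool → K)
    (ϖ : Equiv.Perm (Fin 3)) :
    lw f (u ∘ ϖ) (s ∘ Prod.map ϖ id) (e ∘ Prod.map ϖ id) = lw f u s e ∘ Prod.map ϖ id := by
  funext r
  rfl

theorem bn (h111 : S_NF Pt111) (h21 : S_NF Pt21) (h12 : S_NF Pt12) (h3 : S_NF Pt3) : S_BN := by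
  obtain ⟨G0, B, η, hG0, hη, hs⟩ := sorted h111 h21 h12 h3
  refine ⟨∏ ϖ : Equiv.Perm (Fin 3), rename ϖ G0, B, η, ?_, hη, ?_⟩
  · refine Finset.prod_ne_zero_iff.2 fun ϖ _ => ?_
    intro h
    apply hG0
    apply rename_injective ϖ ϖ.injective
    rw [h, map_zero]
  · intro K _ _ u hu0 hu1 hBu s e hs0 he0 hsl hel W hW hW1 hW2
    set ϖ : Equiv.Perm (Fin 3) := Tuple.sort (fun i => -logHeight₁ (u i)) with hϖ
    have hmono : Monotone ((fun i => -logHeight₁ (u i)) ∘ ϖ) := Tuple.monotone_sort _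
    have h01 : logHeight₁ ((u ∘ ϖ) 1) ≤ logHeight₁ ((u ∘ ϖ) 0) := by
      have := hmono (show (0 : Fin 3) ≤ 1 by decide)
      simp only [Function.comp_apply] at this ⊢
      linarith
    have h12' : logHeight₁ ((u ∘ ϖ) 2) ≤ logHeight₁ ((u ∘ ϖ) 1) := by
      have := hmono (show (1 : Fin 3) ≤ 2 by decide)
      simp only [Function.comp_apply] at this ⊢
      linarith
    let L : (Fin 3 × Bool → ℝ) →ₗ[ℝ] (Fin 3 × Bool → ℝ) :=
      LinearMap.funLeft ℝ ℝ (Prod.map ϖ id)
    have hL : ∀ x : Fin 3 × Bool → ℝ, L x = x ∘ Prod.map ϖ id := fun x => rfl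
    have hkey := hs K (u ∘ ϖ) (fun i => hu0 _) (fun i => hu1 _) h01 h12' (fun i => hBu _)
      (s ∘ Prod.map ϖ id) (e ∘ Prod.map ϖ id) (fun r => hs0 _) (fun r => he0 _)
      (fun r => hsl _) (fun r => hel _) (W.map L)
      ((Submodule.finrank_map_le L W).trans hW)
      (fun σ => by
        rw [lw_comp, ← hL]
        exact Submodule.mem_map_of_mem (hW1 σ))
      (fun v => by
        rw [lw_comp, ← hL]
        exact Submodule.mem_map_of_mem (hW2 v))
    rw [map_prod]
    refine Finset.prod_eq_zero (Finset.mem_univ ϖ) ?_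
    rw [aeval_rename]
    exact hkey

end Pool.Agent.H883.ZR.BN
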