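import Pool.Agent.H883.ZR.Base3

set_option autoImplicit false
set_option linter.unusedSectionVars false

/-!
# Auxiliary polynomials on the product of a curve and a line
-/

namespace Pool.Agent.H883.ZR.CL

open Real NumberField Height Module Finset
open Pool.Agent.H489ZP
open Pool.Agent.H883.ZQ
open Pool.Agent.H393R2.RothNS (TT DD l1 l1_nonneg l1_mul l1_one l1_monomial l1_add l1_sum coeff_le_l1)

/-! ### Algebra -/

lemma l1_rename {σ τ : Type} [Fintype σ] [Fintype τ] {e : σ → τ} (he : Function.Injective e)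
    (P : MvPolynomial σ ℤ) : l1 (MvPolynomial.rename e P) = l1 P := by
  classical
  unfold l1
  rw [MvPolynomial.support_rename_of_injective he,
    Finset.sum_image (Finsupp.mapDomain_injective he).injOn]
  refine Finset.sum_congr rfl fun α _ => ?_
  rw [MvPolynomial.coeff_rename_mapDomain e he]

lemma one_le_l1 {σ : Type} [Fintype σ] {P : MvPolynomial σ ℤ} (hP : P ≠ 0) : 1 ≤ l1 P := by
  obtain ⟨α, hα⟩ := MvPolynomial.ne_zero_iff.1 hP
  have h1 : (1 : ℝ) ≤ |((MvPolynomial.coeff α P : ℤ) : ℝ)| := by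
    exact_mod_cast Int.one_le_abs hα
  exact h1.trans (coeff_le_l1 P α)

lemma rename_prime {g : MvPolynomial (Fin 2) ℤ} (hg : Irreducible g) :
    Prime (MvPolynomial.rename Sum.inr g : MvPolynomial (Fin 1 ⊕ Fin 2) ℤ) := by
  have h1 : MvPolynomial.sumAlgEquiv ℤ (Fin 1) (Fin 2) (MvPolynomial.rename Sum.inr g) =
      MvPolynomial.C g :=
    DFunLike.congr_fun (MvPolynomial.sumAlgEquiv_comp_rename_inr ℤ (Fin 1) (Fin 2)) g
  rw [← MulEquiv.prime_iff (MvPolynomial.sumAlgEquiv ℤ (Fin 1) (Fin 2)), h1,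
    MvPolynomial.prime_C_iff]
  exact hg.prime

lemma not_dvd_X {g : MvPolynomial (Fin 2) ℤ} (hg : 0 < MvPolynomial.degreeOf 1 g) :
    ¬ (MvPolynomial.rename Sum.inr g : MvPolynomial (Fin 1 ⊕ Fin 2) ℤ) ∣
      MvPolynomial.X (Sum.inr 0) := by
  rintro ⟨h, hh⟩
  have h0 : (MvPolynomial.X (Sum.inr 0) : MvPolynomial (Fin 1 ⊕ Fin 2) ℤ) ≠ 0 :=
    MvPolynomial.X_ne_zero _
  rw [hh] at h0
  have h1 : MvPolynomial.degreeOf (Sum.inr 1)
      (MvPolynomial.X (Sum.inr 0) : MvPolynomial (Fin 1 ⊕ Fin 2) ℤ) = 0 := by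
    rw [MvPolynomial.degreeOf_X, if_neg]
    simp
  rw [hh, MvPolynomial.degreeOf_mul_eq (left_ne_zero_of_mul h0) (right_ne_zero_of_mul h0),
    MvPolynomial.degreeOf_rename_of_injective Sum.inr_injective] at h1
  omega

lemma TT_rename {K : Type} [Field K] (u : Fin 1 ⊕ Fin 2 → K) (f : MvPolynomial (Fin 2) K) :
    TT u (MvPolynomial.rename Sum.inr f) =
      MvPolynomial.rename Sum.inr (TT (fun i => u (Sum.inr i)) f) := by
  unfold TT
  rw [MvPolynomial.aeval_rename]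
  induction f using MvPolynomial.induction_on with
  | C a => simp
  | add p q hp hq => rw [map_add, hp, hq, map_add, map_add]
  | mul_X p i hp => rw [map_mul, hp, map_mul, map_mul]; simp

lemma coeff_zero_TT {K : Type} [Field K] (z : Fin 2 → K) (f : MvPolynomial (Fin 2) K) :
    MvPolynomial.coeff 0 (TT z f) = MvPolynomial.aeval z f := by
  rw [← MvPolynomial.constantCoeff_eq]
  unfold TT
  induction f using MvPolynomial.induction_on with
  | C a => simp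
  | add p q hp hq => rw [map_add, map_add, hp, hq, map_add]
  | mul_X p i hp => rw [map_mul, map_mul, hp, map_mul]; simp

lemma tc_rename_mul {K : Type} [Field K] (u : Fin 1 ⊕ Fin 2 → K) {g : MvPolynomial (Fin 2) ℤ}
    (hg : MvPolynomial.aeval (fun i => u (Sum.inr i)) g = 0) (Q : MvPolynomial (Fin 1 ⊕ Fin 2) ℤ)
    (κ : Fin 1 ⊕ Fin 2 →₀ ℕ) (hκ : ∀ i, κ (Sum.inr i) = 0) :
    tc u (MvPolynomial.rename Sum.inr g * Q) κ = 0 := by
  classical
  unfold tc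
  rw [map_mul, map_mul, MvPolynomial.coeff_mul]
  refine Finset.sum_eq_zero fun p hp => ?_
  rw [Finset.HasAntidiagonal.mem_antidiagonal] at hp
  have h1 : ∀ i, p.1 (Sum.inr i) = 0 := by
    intro i
    have := DFunLike.congr_fun hp (Sum.inr i)
    rw [Finsupp.add_apply, hκ i] at this
    omega
  have h2 : MvPolynomial.coeff p.1 (TT u (MvPolynomial.map (Int.castRingHom K)
      (MvPolynomial.rename Sum.inr g))) = 0 := by
    rw [MvPolynomial.map_rename, TT_rename]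
    by_cases h4 : p.1 = 0
    · rw [h4, ← MvPolynomial.constantCoeff_eq, MvPolynomial.constantCoeff_rename,
        MvPolynomial.constantCoeff_eq, coeff_zero_TT, ← hg]
      rw [MvPolynomial.aeval_def, MvPolynomial.eval₂_map, MvPolynomial.aeval_def]
      rfl
    · apply MvPolynomial.coeff_rename_eq_zero
      intro v hv
      exfalso
      apply h4
      have h5 : v = 0 := by
        ext i
        have h6 := h1 i
        rw [← hv, Finsupp.mapDomain_apply Sum.inr_injective] at h6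
        exact h6
      rw [← hv, h5, Finsupp.mapDomain_zero]
  rw [h2, zero_mul]

/-- the first polynomial which is not divisible -/
lemma exists_first {R : Type} [CommRing R] {G : R} (hG : Prime G) {x : R} (hx : ¬ G ∣ x)
    {τ j : ℕ} (F : Fin (τ + 1) → R) (Q : R)
    (hid : ∑ t, F t * x ^ ((t : ℕ) * j) + G * Q = 0) (hex : ∃ t, ¬ G ∣ F t) :
    ∃ t0, ¬ G ∣ F t0 ∧ G ∣ F t0 + ∑ t ∈ Finset.univ.filter (fun t => t0 < t),
      F t * x ^ (((t : ℕ) - t0) * j) := by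
  classical
  have hex' : (Finset.univ.filter fun t => ¬ G ∣ F t).Nonempty := by
    obtain ⟨t, ht⟩ := hex
    exact ⟨t, Finset.mem_filter.2 ⟨Finset.mem_univ _, ht⟩⟩
  set t0 := (Finset.univ.filter fun t => ¬ G ∣ F t).min' hex' with ht0
  have ht0F : ¬ G ∣ F t0 := (Finset.mem_filter.1 (Finset.min'_mem _ hex')).2
  have hmin : ∀ t < t0, G ∣ F t := by
    intro t ht
    by_contra h
    exact absurd (Finset.min'_le _ t (Finset.mem_filter.2 ⟨Finset.mem_univ _, h⟩)) (not_le.2 ht)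
  refine ⟨t0, ht0F, ?_⟩
  have h1 : G ∣ ∑ t, F t * x ^ ((t : ℕ) * j) := by
    rw [eq_neg_of_add_eq_zero_left hid]
    exact (dvd_neg).2 (dvd_mul_right _ _)
  have hmem : t0 ∈ Finset.univ.filter (fun t => ¬ t0 < t) :=
    Finset.mem_filter.2 ⟨Finset.mem_univ _, lt_irrefl _⟩
  have h2 : G ∣ ∑ t ∈ (Finset.univ.filter (fun t => ¬ t0 < t)).erase t0,
      F t * x ^ ((t : ℕ) * j) := by
    apply Finset.dvd_sum
    intro t ht
    rw [Finset.mem_erase, Finset.mem_filter] at ht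
    have : t < t0 := lt_of_le_of_ne (not_lt.1 ht.2.2) ht.1
    exact (hmin t this).mul_right _
  have h3 : ∑ t, F t * x ^ ((t : ℕ) * j) = (F t0 + ∑ t ∈ Finset.univ.filter (fun t => t0 < t),
      F t * x ^ (((t : ℕ) - t0) * j)) * x ^ ((t0 : ℕ) * j) +
      ∑ t ∈ (Finset.univ.filter (fun t => ¬ t0 < t)).erase t0, F t * x ^ ((t : ℕ) * j) := by
    rw [← Finset.sum_filter_add_sum_filter_not Finset.univ (fun t => t0 < t),
      ← Finset.add_sum_erase _ (fun t : Fin (τ + 1) => F t * x ^ ((t : ℕ) * j)) hmem, add_mul,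
      Finset.sum_mul]
    have h4 : ∑ t ∈ Finset.univ.filter (fun t => t0 < t),
        F t * x ^ (((t : ℕ) - t0) * j) * x ^ ((t0 : ℕ) * j) =
        ∑ t ∈ Finset.univ.filter (fun t => t0 < t), F t * x ^ ((t : ℕ) * j) := by
      refine Finset.sum_congr rfl fun t ht => ?_
      have ht' : (t0 : ℕ) < t := (Finset.mem_filter.1 ht).2
      rw [mul_assoc, ← pow_add, ← add_mul, Nat.sub_add_cancel ht'.le]
    rw [h4]
    ring
  rw [h3] at h1
  have h5 := (dvd_add_left h2).1 h1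
  rcases hG.dvd_or_dvd h5 with h6 | h6
  · exact h6
  · exact absurd (hG.dvd_of_dvd_pow h6) hx

lemma mon_indep {J : Type} [Fintype J] [DecidableEq J] {N : J → ℕ} (c : (∀ i, Fin (N i)) → ℤ)
    (h : ∑ α, c α • MvPolynomial.monomial (fs fun i => (α i : ℕ)) (1 : ℤ) = 0) : c = 0 := by
  classical
  funext α0
  have h1 := congrArg (MvPolynomial.coeff (fs fun i => (α0 i : ℕ))) h
  rw [MvPolynomial.coeff_sum, MvPolynomial.coeff_zero, Finset.sum_eq_single α0] at h1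
  · rw [MvPolynomial.coeff_smul, MvPolynomial.coeff_monomial, if_pos rfl, smul_eq_mul,
      mul_one] at h1
    exact h1
  · intro α _ hne
    rw [MvPolynomial.coeff_smul, MvPolynomial.coeff_monomial, if_neg, smul_zero]
    intro he
    apply hne
    funext i
    have := DFunLike.congr_fun he i
    exact Fin.ext this
  · intro h
    exact absurd (Finset.mem_univ _) h

lemma degreeOf_inl_rename (g : MvPolynomial (Fin 2) ℤ) (i : Fin 1) :
    MvPolynomial.degreeOf (Sum.inl i)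
      (MvPolynomial.rename Sum.inr g : MvPolynomial (Fin 1 ⊕ Fin 2) ℤ) = 0 := by
  rw [← Nat.le_zero, MvPolynomial.degreeOf_le_iff]
  intro m hm
  obtain ⟨v, hv, -⟩ := MvPolynomial.coeff_rename_ne_zero _ _ _ (MvPolynomial.mem_support_iff.1 hm)
  rw [← hv, Finsupp.mapDomain_of_notMem_range]
  simp

lemma degreeOf_monomial_le {J : Type} [Fintype J] [DecidableEq J] (α : J → ℕ) (i : J) :
    MvPolynomial.degreeOf i (MvPolynomial.monomial (fs α) (1 : ℤ)) ≤ α i := by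
  rw [MvPolynomial.degreeOf_le_iff]
  intro m hm
  have h := MvPolynomial.support_monomial_subset hm
  rw [Finset.mem_singleton] at h
  rw [h]
  exact le_rfl

/-- the box of the cofactor -/
abbrev bq (m1 m2 : ℕ) : Fin 1 ⊕ Fin 2 → ℕ := Sum.elim (fun _ => m2) (fun _ => m1)

lemma prod_bq (m1 m2 : ℕ) : ∏ i, bq m1 m2 i = m1 ^ 2 * m2 := by
  rw [Fintype.prod_sum_type]
  simp only [bq, Sum.elim_inl, Sum.elim_inr, Finset.prod_const, Finset.card_univ,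
    Fintype.card_fin, pow_one]
  ring

/-- **Siegel's lemma modulo `g`.** -/
lemma siegel (hSS : S_S) {g : MvPolynomial (Fin 2) ℤ} (hg0 : g ≠ 0) {D0 : ℕ}
    (hgD : ∀ i, MvPolynomial.degreeOf i g ≤ D0) {μ : Type} [Fintype μ]
    (E : μ → (Fin 1 ⊕ Fin 2) × Bool → ℕ) {Δ : ℕ} (hΔ : ∀ m, ∑ r, E m r ≤ Δ) {τ j m1 m2 k : ℕ}
    (hm1 : 0 < m1) (hm2 : 0 < m2)
    (h2 : ∀ m, MvPolynomial.degreeOf (Sum.inl 0) (mo (E m)) < m2)
    (h1 : ∀ m i, MvPolynomial.degreeOf (Sum.inr i) (mo (E m)) + τ * j < m1)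
    (hlt : (m1 + D0) ^ 2 * m2 < (τ + 1) * Fintype.card μ + m1 ^ 2 * m2)
    (hk : (m1 + D0) ^ 2 * m2 ≤
      k * ((τ + 1) * Fintype.card μ + m1 ^ 2 * m2 - (m1 + D0) ^ 2 * m2)) :
    ∃ c : Fin (τ + 1) → μ → ℤ, c ≠ 0 ∧
      (∃ Q, ∑ t, (∑ m, c t m • mo (E m)) * MvPolynomial.X (Sum.inr 0) ^ ((t : ℕ) * j) +
        MvPolynomial.rename Sum.inr g * Q = 0) ∧
      ∀ t m, |(c t m : ℝ)| ≤
        ((((τ + 1) * Fintype.card μ + m1 ^ 2 * m2 : ℕ) : ℝ) * (2 ^ Δ * l1 g)) ^ k := by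
  classical
  let BQ : Type := ∀ i, Fin (bq m1 m2 i)
  let ι : Type := (Fin (τ + 1) × μ) ⊕ BQ
  let gg : MvPolynomial (Fin 1 ⊕ Fin 2) ℤ := MvPolynomial.rename Sum.inr g
  let P : ι → MvPolynomial (Fin 1 ⊕ Fin 2) ℤ := Sum.elim
    (fun x => mo (E x.2) * MvPolynomial.X (Sum.inr 0) ^ ((x.1 : ℕ) * j))
    (fun α => gg * MvPolynomial.monomial (fs fun i => (α i : ℕ)) (1 : ℤ))
  let M : Fin 1 ⊕ Fin 2 → ℕ := bq (m1 + D0) m2
  have hcardι : Fintype.card ι = (τ + 1) * Fintype.card μ + m1 ^ 2 * m2 := by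
    show Fintype.card ((Fin (τ + 1) × μ) ⊕ BQ) = _
    rw [Fintype.card_sum, Fintype.card_prod, Fintype.card_fin]
    congr 1
    show Fintype.card (∀ i, Fin (bq m1 m2 i)) = _
    rw [Fintype.card_pi, ← prod_bq]
    simp only [Fintype.card_fin]
  have hS : (bx M).card ≤ (m1 + D0) ^ 2 * m2 := by
    refine (card_bx_le M).trans (le_of_eq ?_)
    exact prod_bq (m1 + D0) m2
  have hl1g : 1 ≤ l1 g := one_le_l1 hg0
  have hl1gg : l1 gg = l1 g := l1_rename Sum.inr_injective g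
  have h2p : (1 : ℝ) ≤ 2 ^ Δ := one_le_pow₀ one_le_two
  have hA : (1 : ℝ) ≤ 2 ^ Δ * l1 g := by nlinarith
  have hPl1 : ∀ x, l1 (P x) ≤ 2 ^ Δ * l1 g := by
    rintro (x | α)
    · show l1 (mo (E x.2) * MvPolynomial.X (Sum.inr 0) ^ ((x.1 : ℕ) * j)) ≤ _
      refine (l1_mul _ _).trans ?_
      have h3 : l1 (mo (E x.2)) ≤ 2 ^ Δ :=
        (l1_mo _).trans (pow_le_pow_right₀ one_le_two (hΔ x.2))
      have h4 : l1 (MvPolynomial.X (Sum.inr 0) ^ ((x.1 : ℕ) * j) :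
          MvPolynomial (Fin 1 ⊕ Fin 2) ℤ) ≤ 1 := by
        refine (l1_pow_le _ (le_of_eq (l1_X _)) _).trans ?_
        rw [one_pow]
      refine mul_le_mul h3 (h4.trans hl1g) (l1_nonneg _) (by positivity)
    · show l1 (gg * MvPolynomial.monomial (fs fun i => (α i : ℕ)) (1 : ℤ)) ≤ _
      refine (l1_mul _ _).trans ?_
      rw [l1_monomial, hl1gg, mul_comm]
      refine mul_le_mul ?_ le_rfl (l1_nonneg _) (by positivity)
      simpa using h2p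
  obtain ⟨c, hc0, hc, hcle⟩ := hSS (Fin 1 ⊕ Fin 2) ι P (bx M) (2 ^ Δ * l1 g) k hA
    (fun m α => (coeff_le_l1 _ _).trans (hPl1 m)) (by rw [hcardι]; omega) (by
      rw [hcardι]
      refine hS.trans (hk.trans ?_)
      exact Nat.mul_le_mul_left _ (by omega))
  rw [hcardι] at hcle
  have hdeg : ∀ i, MvPolynomial.degreeOf i (∑ x, c x • P x) < M i := by
    rintro (i | i)
    · have hi : i = 0 := Subsingleton.elim _ _
      subst hi
      show _ < m2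
      refine lt_of_le_of_lt (degreeOf_zcomb_le c P (Sum.inl 0) (M := m2 - 1) ?_) (by omega)
      rintro (x | α)
      · show MvPolynomial.degreeOf (Sum.inl 0)
          (mo (E x.2) * MvPolynomial.X (Sum.inr 0) ^ ((x.1 : ℕ) * j)) ≤ _
        refine (MvPolynomial.degreeOf_mul_le _ _ _).trans ?_
        have h3 := h2 x.2
        have h4 : MvPolynomial.degreeOf (Sum.inl 0)
            (MvPolynomial.X (Sum.inr 0) ^ ((x.1 : ℕ) * j) :
              MvPolynomial (Fin 1 ⊕ Fin 2) ℤ) ≤ 0 := by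
          refine (MvPolynomial.degreeOf_pow_le _ _ _).trans ?_
          rw [MvPolynomial.degreeOf_X, if_neg (by simp), mul_zero]
        omega
      · show MvPolynomial.degreeOf (Sum.inl 0)
          (gg * MvPolynomial.monomial (fs fun i => (α i : ℕ)) (1 : ℤ)) ≤ _
        refine (MvPolynomial.degreeOf_mul_le _ _ _).trans ?_
        have h3 : MvPolynomial.degreeOf (Sum.inl 0) gg = 0 := degreeOf_inl_rename g 0
        have h4 := degreeOf_monomial_le (fun i => (α i : ℕ)) (Sum.inl 0)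
        have h5 : ((α (Sum.inl 0) : ℕ)) < m2 := (α (Sum.inl 0)).2
        omega
    · show _ < m1 + D0
      refine lt_of_le_of_lt (degreeOf_zcomb_le c P (Sum.inr i) (M := m1 + D0 - 1) ?_) (by omega)
      rintro (x | α)
      · show MvPolynomial.degreeOf (Sum.inr i)
          (mo (E x.2) * MvPolynomial.X (Sum.inr 0) ^ ((x.1 : ℕ) * j)) ≤ _
        refine (MvPolynomial.degreeOf_mul_le _ _ _).trans ?_
        have h3 := h1 x.2 i
        have h4 : MvPolynomial.degreeOf (Sum.inr i)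
            (MvPolynomial.X (Sum.inr 0) ^ ((x.1 : ℕ) * j) :
              MvPolynomial (Fin 1 ⊕ Fin 2) ℤ) ≤ τ * j := by
          refine (MvPolynomial.degreeOf_pow_le _ _ _).trans ?_
          rw [MvPolynomial.degreeOf_X]
          have h5 : (x.1 : ℕ) * j ≤ τ * j := Nat.mul_le_mul_right _ (by have := x.1.2; omega)
          split_ifs
          · rw [mul_one]
            exact h5
          · rw [mul_zero]
            exact Nat.zero_le _
        omega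
      · show MvPolynomial.degreeOf (Sum.inr i)
          (gg * MvPolynomial.monomial (fs fun i => (α i : ℕ)) (1 : ℤ)) ≤ _
        refine (MvPolynomial.degreeOf_mul_le _ _ _).trans ?_
        have h3 : MvPolynomial.degreeOf (Sum.inr i) gg ≤ D0 := by
          show MvPolynomial.degreeOf (Sum.inr i) (MvPolynomial.rename Sum.inr g) ≤ D0
          rw [MvPolynomial.degreeOf_rename_of_injective Sum.inr_injective]
          exact hgD i
        have h4 := degreeOf_monomial_le (fun i => (α i : ℕ)) (Sum.inr i)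
        have h5 : ((α (Sum.inr i) : ℕ)) < m1 := (α (Sum.inr i)).2
        omega
  have h0 := eq_zero_of_bx hdeg hc
  have hsplit : ∑ x, c x • P x = ∑ t : Fin (τ + 1), (∑ m, c (Sum.inl (t, m)) • mo (E m)) *
      MvPolynomial.X (Sum.inr 0) ^ ((t : ℕ) * j) +
      gg * ∑ α : BQ, c (Sum.inr α) • MvPolynomial.monomial (fs fun i => (α i : ℕ)) (1 : ℤ) := by
    show ∑ x : (Fin (τ + 1) × μ) ⊕ BQ, c x • P x = _
    rw [Fintype.sum_sum_type, Fintype.sum_prod_type, Finset.mul_sum]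
    congr 1
    · refine Finset.sum_congr rfl fun t _ => ?_
      rw [Finset.sum_mul]
      refine Finset.sum_congr rfl fun m _ => ?_
      rw [smul_mul_assoc]
      rfl
    · refine Finset.sum_congr rfl fun α _ => ?_
      rw [mul_smul_comm]
      rfl
  rw [hsplit] at h0
  refine ⟨fun t m => c (Sum.inl (t, m)), ?_, ⟨_, h0⟩, fun t m => hcle (Sum.inl (t, m))⟩
  intro hcz
  apply hc0
  have hcz' : ∀ t m, c (Sum.inl (t, m)) = 0 := fun t m => congrFun (congrFun hcz t) m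
  have h3 : gg * ∑ α : BQ, c (Sum.inr α) •
      MvPolynomial.monomial (fs fun i => (α i : ℕ)) (1 : ℤ) = 0 := by
    rw [← h0]
    simp only [hcz', zero_smul, Finset.sum_const_zero, zero_mul, zero_add]
  have hgg0 : gg ≠ 0 := by
    intro h
    apply hg0
    apply MvPolynomial.rename_injective (R := ℤ) (Sum.inr : Fin 2 → Fin 1 ⊕ Fin 2)
      Sum.inr_injective
    rw [map_zero]
    exact h
  have h4 := mon_indep (fun α : BQ => c (Sum.inr α)) ((mul_eq_zero.1 h3).resolve_left hgg0)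
  funext x
  rcases x with ⟨t, m⟩ | α
  · exact hcz' t m
  · exact congrFun h4 α

/-! ### Exponents -/

/-- integral exponents near a vector -/
noncomputable def ex {J : Type} (ρ : J → ℝ) (s : J → ℕ) (x : J × Bool → ℝ) (r : J × Bool) : ℕ :=
  (⌊ρ r.1 * x r⌋ + s r.1).toNat

lemma ex_cast {J : Type} {ρ : J → ℝ} {s : J → ℕ} {x : J × Bool → ℝ} {r : J × Bool}
    (h : |ρ r.1 * x r| ≤ s r.1) : (ex ρ s x r : ℝ) = (⌊ρ r.1 * x r⌋ : ℝ) + s r.1 := by
  have h1 : (0 : ℤ) ≤ ⌊ρ r.1 * x r⌋ + s r.1 := by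
    have : (-(s r.1 : ℤ)) ≤ ⌊ρ r.1 * x r⌋ := by
      rw [Int.le_floor]
      push_cast
      exact (abs_le.1 h).1
    omega
  have h2 : ((ex ρ s x r : ℕ) : ℤ) = ⌊ρ r.1 * x r⌋ + s r.1 := Int.toNat_of_nonneg h1
  have h3 : (((ex ρ s x r : ℕ) : ℤ) : ℝ) = ((⌊ρ r.1 * x r⌋ + s r.1 : ℤ) : ℝ) := by
    rw [h2]
  push_cast at h3
  exact h3

lemma ex_le {J : Type} {ρ : J → ℝ} {s : J → ℕ} {x : J × Bool → ℝ} {r : J × Bool}
    (h : |ρ r.1 * x r| ≤ s r.1) : ex ρ s x r ≤ 2 * s r.1 := by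
  have h1 := ex_cast h
  have h2 := Int.floor_le (ρ r.1 * x r)
  have h3 := (abs_le.1 h).2
  have : (ex ρ s x r : ℝ) ≤ ((2 * s r.1 : ℕ) : ℝ) := by
    push_cast
    linarith
  exact_mod_cast this

/-- the points of the space of relations -/
noncomputable def xv {J : Type} (a1 a2 : J × Bool → ℝ) (M0 : ℕ) (ρ : ℝ) {n1 n2 : ℕ}
    (m : Fin n1 × Fin n2) (r : J × Bool) : ℝ :=
  ((m.1 : ℕ) : ℝ) * M0 * a1 r + ((m.2 : ℕ) : ℝ) / ρ * a2 r

lemma xv_mem {J : Type} {a1 a2 : J × Bool → ℝ} {R : Submodule ℝ (J × Bool → ℝ)} (h1 : a1 ∈ R)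
    (h2 : a2 ∈ R) (M0 : ℕ) (ρ : ℝ) {n1 n2 : ℕ} (m : Fin n1 × Fin n2) :
    xv a1 a2 M0 ρ m ∈ R := by
  have : xv a1 a2 M0 ρ m =
      (((m.1 : ℕ) : ℝ) * M0) • a1 + (((m.2 : ℕ) : ℝ) / ρ) • a2 := by
    funext r
    rfl
  rw [this]
  exact R.add_mem (R.smul_mem _ h1) (R.smul_mem _ h2)

lemma xv_le {J : Type} {a1 a2 : J × Bool → ℝ} {M0 : ℕ} {ρ : ℝ} {n fl β : ℕ}
    (m : Fin n × Fin (n * fl)) {r : J × Bool} (hρ : 0 < ρ) (hfl : (fl : ℝ) ≤ ρ)
    (hM0 : (1 : ℝ) ≤ M0) (hβ : |a1 r| + |a2 r| ≤ β) :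
    |xv a1 a2 M0 ρ m r| ≤ ((M0 * β * n : ℕ) : ℝ) := by
  unfold xv
  refine (abs_add_le _ _).trans ?_
  rw [abs_mul _ (a1 r), abs_mul _ (a2 r)]
  have h1 : |((m.1 : ℕ) : ℝ) * M0| ≤ n * M0 := by
    rw [abs_of_nonneg (by positivity)]
    apply mul_le_mul_of_nonneg_right _ (Nat.cast_nonneg _)
    exact_mod_cast m.1.2.le
  have h2 : |((m.2 : ℕ) : ℝ) / ρ| ≤ n * M0 := by
    rw [abs_of_nonneg (by positivity), div_le_iff₀ hρ]
    have h3 : ((m.2 : ℕ) : ℝ) ≤ ((n * fl : ℕ) : ℝ) := by exact_mod_cast m.2.2.le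
    push_cast at h3
    have h4 : (n : ℝ) * fl ≤ n * ρ := mul_le_mul_of_nonneg_left hfl (Nat.cast_nonneg _)
    have h5 : (n : ℝ) * ρ ≤ n * M0 * ρ := by
      have : (0 : ℝ) ≤ n * ρ := by positivity
      nlinarith
    linarith
  have h3 := mul_le_mul_of_nonneg_right h1 (abs_nonneg (a1 r))
  have h4 := mul_le_mul_of_nonneg_right h2 (abs_nonneg (a2 r))
  have h5 : (n : ℝ) * M0 * |a1 r| + n * M0 * |a2 r| = n * M0 * (|a1 r| + |a2 r|) := by ring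
  have h6 : (n : ℝ) * M0 * (|a1 r| + |a2 r|) ≤ n * M0 * β :=
    mul_le_mul_of_nonneg_left hβ (by positivity)
  push_cast
  linarith

lemma phi_close {v : (Fin 1 ⊕ Fin 2) × Bool → ℝ} {e : (Fin 1 ⊕ Fin 2) × Bool → ℕ} {Yn : ℕ}
    (h : ∀ i b, (e (Sum.inr i, b) : ℝ) = (⌊v (Sum.inr i, b)⌋ : ℝ) + Yn) (q : Bool → ℝ)
    (e0 : Bool) :
    |((e (Sum.inr 0, e0) : ℝ) + ∑ b', q b' * e (Sum.inr 1, b')) -
      (v (Sum.inr 0, e0) + ∑ b', q b' * v (Sum.inr 1, b')) - Yn * (1 + ∑ b', q b')| ≤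
      1 + ∑ b', |q b'| := by
  have h1 : ∀ i b, (e (Sum.inr i, b) : ℝ) =
      v (Sum.inr i, b) - Int.fract (v (Sum.inr i, b)) + Yn := by
    intro i b
    rw [h, Int.self_sub_fract]
  have h2 : ((e (Sum.inr 0, e0) : ℝ) + ∑ b', q b' * e (Sum.inr 1, b')) -
      (v (Sum.inr 0, e0) + ∑ b', q b' * v (Sum.inr 1, b')) - Yn * (1 + ∑ b', q b') =
      -(Int.fract (v (Sum.inr 0, e0)) + ∑ b', q b' * Int.fract (v (Sum.inr 1, b'))) := by
    rw [Fintype.sum_bool, Fintype.sum_bool, Fintype.sum_bool, Fintype.sum_bool, h1, h1, h1]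
    ring
  rw [h2, abs_neg]
  refine (abs_add_le _ _).trans (add_le_add ?_ ((Finset.abs_sum_le_sum_abs _ _).trans ?_))
  · rw [abs_of_nonneg (Int.fract_nonneg _)]
    exact (Int.fract_lt_one _).le
  · apply Finset.sum_le_sum
    intro b' _
    rw [abs_mul, abs_of_nonneg (Int.fract_nonneg (v (Sum.inr 1, b')))]
    have h3 := (Int.fract_lt_one (v (Sum.inr 1, b'))).le
    have h4 := abs_nonneg (q b')
    nlinarith

/-- the exponents of the monomials -/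
lemma exponents {ξ : (Fin 1 ⊕ Fin 2) × Bool → Fin 3 → ℝ} {e0 b : Bool} {q : Bool → ℝ}
    {a1 a2 : (Fin 1 ⊕ Fin 2) × Bool → ℝ} (ha1 : a1 ∈ rel ξ) (ha2 : a2 ∈ rel ξ)
    (h11 : a1 (Sum.inr 0, e0) + ∑ b', q b' * a1 (Sum.inr 1, b') = 1) (h12 : a1 (Sum.inl 0, b) = 0)
    (h21 : a2 (Sum.inr 0, e0) + ∑ b', q b' * a2 (Sum.inr 1, b') = 0) (h22 : a2 (Sum.inl 0, b) = 1)
    {β M0 : ℕ} (hβ : ∀ r, |a1 r| + |a2 r| ≤ β) (hM0 : 2 * (1 + ∑ b', |q b'|) < M0)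
    {n fl sl : ℕ} {H0 H2 : ℝ} (hH2 : 0 < H2) (hH0 : 0 < H0) (hfl : (fl : ℝ) ≤ H0 / H2)
    (hsl : H0 / H2 * ((M0 * β * n : ℕ) : ℝ) ≤ sl) :
    ∃ (x : Fin n × Fin (n * fl) → (Fin 1 ⊕ Fin 2) × Bool → ℝ)
      (E : Fin n × Fin (n * fl) → (Fin 1 ⊕ Fin 2) × Bool → ℕ),
      (∀ m, x m ∈ rel ξ) ∧ (∀ m r, |x m r| ≤ ((M0 * β * n : ℕ) : ℝ)) ∧
      (∀ m r, (E m r : ℝ) =
        ⌊H0 / (Sum.elim (fun _ => H2) (fun _ => H0) : Fin 1 ⊕ Fin 2 → ℝ) r.1 * x m r⌋ +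
          (Sum.elim (fun _ => sl) (fun _ => M0 * β * n) : Fin 1 ⊕ Fin 2 → ℕ) r.1) ∧
      (∀ m r, E m r ≤
        2 * (Sum.elim (fun _ => sl) (fun _ => M0 * β * n) : Fin 1 ⊕ Fin 2 → ℕ) r.1) ∧
      (∀ m, E m (Sum.inl 0, b) = (m.2 : ℕ) + sl) ∧
      ∀ y, Function.Injective fun z => ((E (z, y) (Sum.inr 0, e0) : ℕ) : ℝ) +
        ∑ b', q b' * (E (z, y) (Sum.inr 1, b') : ℝ) := by
  have hq0 : 0 ≤ ∑ b', |q b'| := Finset.sum_nonneg fun _ _ => abs_nonneg _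
  have hM01 : (1 : ℝ) ≤ M0 := by linarith
  have hρpos : 0 < H0 / H2 := div_pos hH0 hH2
  let s : Fin 1 ⊕ Fin 2 → ℕ := Sum.elim (fun _ => sl) (fun _ => M0 * β * n)
  let H : Fin 1 ⊕ Fin 2 → ℝ := Sum.elim (fun _ => H2) (fun _ => H0)
  let x : Fin n × Fin (n * fl) → (Fin 1 ⊕ Fin 2) × Bool → ℝ := fun m => xv a1 a2 M0 (H0 / H2) m
  have hxle : ∀ m r, |x m r| ≤ ((M0 * β * n : ℕ) : ℝ) := fun m r =>
    xv_le m (r := r) hρpos hfl hM01 (hβ r)
  have hs : ∀ m r, |H0 / H r.1 * x m r| ≤ s r.1 := by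
    rintro m ⟨i | i, b'⟩
    · show |H0 / H2 * x m (Sum.inl i, b')| ≤ (sl : ℝ)
      rw [abs_mul, abs_of_pos hρpos]
      exact (mul_le_mul_of_nonneg_left (hxle m _) hρpos.le).trans hsl
    · show |H0 / H0 * x m (Sum.inr i, b')| ≤ ((M0 * β * n : ℕ) : ℝ)
      rw [div_self hH0.ne', one_mul]
      exact hxle m _
  let E : Fin n × Fin (n * fl) → (Fin 1 ⊕ Fin 2) × Bool → ℕ := fun m =>
    ex (fun i => H0 / H i) s (x m)
  have hE : ∀ m r, (E m r : ℝ) = ⌊H0 / H r.1 * x m r⌋ + s r.1 := fun m r =>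
    ex_cast (ρ := fun i => H0 / H i) (hs m r)
  refine ⟨x, E, fun m => xv_mem ha1 ha2 M0 _ m, hxle, hE,
    fun m r => ex_le (ρ := fun i => H0 / H i) (hs m r), ?_, ?_⟩
  · intro m
    have h1 := hE m (Sum.inl 0, b)
    have h2 : H0 / H (Sum.inl 0, b).1 * x m (Sum.inl 0, b) = ((m.2 : ℕ) : ℝ) := by
      show H0 / H2 * (((m.1 : ℕ) : ℝ) * M0 * a1 (Sum.inl 0, b) +
        ((m.2 : ℕ) : ℝ) / (H0 / H2) * a2 (Sum.inl 0, b)) = _
      rw [h12, h22, mul_zero, zero_add, mul_one, mul_div_cancel₀ _ hρpos.ne']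
    rw [h2, Int.floor_natCast] at h1
    have h3 : (E m (Sum.inl 0, b) : ℝ) = (((m.2 : ℕ) + sl : ℕ) : ℝ) := by
      rw [h1]
      push_cast
      rfl
    exact_mod_cast h3
  · intro y x1 x2 hxx
    dsimp only at hxx
    have hcl : ∀ z : Fin n, |((E (z, y) (Sum.inr 0, e0) : ℝ) +
        ∑ b', q b' * E (z, y) (Sum.inr 1, b')) - ((z : ℕ) : ℝ) * M0 -
        ((M0 * β * n : ℕ) : ℝ) * (1 + ∑ b', q b')| ≤ 1 + ∑ b', |q b'| := by
      intro z
      have h1 := phi_close (v := x (z, y)) (e := E (z, y)) (Yn := M0 * β * n) (fun i b' => by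
        have h2 := hE (z, y) (Sum.inr i, b')
        have h3 : H0 / H (Sum.inr i, b').1 * x (z, y) (Sum.inr i, b') =
            x (z, y) (Sum.inr i, b') := by
          show H0 / H0 * _ = _
          rw [div_self hH0.ne', one_mul]
        rw [h3] at h2
        exact h2) q e0
      have h4 : x (z, y) (Sum.inr 0, e0) + ∑ b', q b' * x (z, y) (Sum.inr 1, b') =
          ((z : ℕ) : ℝ) * M0 := by
        rw [Fintype.sum_bool] at h11 h21 ⊢
        show ((z : ℕ) : ℝ) * M0 * a1 (Sum.inr 0, e0) +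
          ((y : ℕ) : ℝ) / (H0 / H2) * a2 (Sum.inr 0, e0) +
          (q true * (((z : ℕ) : ℝ) * M0 * a1 (Sum.inr 1, true) +
            ((y : ℕ) : ℝ) / (H0 / H2) * a2 (Sum.inr 1, true)) +
          q false * (((z : ℕ) : ℝ) * M0 * a1 (Sum.inr 1, false) +
            ((y : ℕ) : ℝ) / (H0 / H2) * a2 (Sum.inr 1, false))) = _
        have e1 : ((z : ℕ) : ℝ) * M0 * a1 (Sum.inr 0, e0) +
          ((y : ℕ) : ℝ) / (H0 / H2) * a2 (Sum.inr 0, e0) +
          (q true * (((z : ℕ) : ℝ) * M0 * a1 (Sum.inr 1, true) +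
            ((y : ℕ) : ℝ) / (H0 / H2) * a2 (Sum.inr 1, true)) +
          q false * (((z : ℕ) : ℝ) * M0 * a1 (Sum.inr 1, false) +
            ((y : ℕ) : ℝ) / (H0 / H2) * a2 (Sum.inr 1, false))) =
          ((z : ℕ) : ℝ) * M0 * (a1 (Sum.inr 0, e0) + (q true * a1 (Sum.inr 1, true) +
            q false * a1 (Sum.inr 1, false))) +
          ((y : ℕ) : ℝ) / (H0 / H2) * (a2 (Sum.inr 0, e0) + (q true * a2 (Sum.inr 1, true) +
            q false * a2 (Sum.inr 1, false))) := by ring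
        rw [e1, h11, h21]
        ring
      rw [h4] at h1
      exact h1
    have h5 := hcl x1
    have h6 := hcl x2
    rw [hxx] at h5
    have h7 := abs_le.1 h5
    have h8 := abs_le.1 h6
    have h9 : |((x1 : ℕ) : ℝ) * M0 - ((x2 : ℕ) : ℝ) * M0| < M0 := by
      rw [abs_lt]
      constructor <;> linarith [h7.1, h7.2, h8.1, h8.2]
    have hM0pos : (0 : ℝ) < M0 := by linarith
    rw [← sub_mul, abs_mul, abs_of_pos hM0pos] at h9
    have h10 : |((x1 : ℕ) : ℝ) - ((x2 : ℕ) : ℝ)| < 1 := by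
      by_contra h
      push Not at h
      have := mul_le_mul_of_nonneg_right h hM0pos.le
      linarith
    have h11' : |(((x1 : ℕ) : ℤ) - ((x2 : ℕ) : ℤ))| < 1 := by
      exact_mod_cast h10
    have h12' := Int.abs_lt_one_iff.1 h11'
    apply Fin.ext
    omega

/-! ### Numbers -/

lemma m2_le {b0 n fl sl : ℕ} {ρ : ℝ} (hsl2 : (sl : ℝ) ≤ ρ * ((b0 * n : ℕ) : ℝ) + 1)
    (hfl2 : ρ ≤ 2 * (fl : ℝ)) (hfl1 : 1 ≤ fl) (hn5 : 5 ≤ n) :
    4 * sl + 1 ≤ (8 * b0 + 1) * (n * fl) := by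
  have h1 : ((4 * sl + 1 : ℕ) : ℝ) ≤ (((8 * b0 + 1) * (n * fl) : ℕ) : ℝ) := by
    push_cast at hsl2 ⊢
    have h3 : ρ * (b0 * n) ≤ 2 * fl * (b0 * n) :=
      mul_le_mul_of_nonneg_right hfl2 (by positivity)
    have h4 : (5 : ℝ) ≤ n * fl := by
      have : 5 * 1 ≤ n * fl := Nat.mul_le_mul hn5 hfl1
      exact_mod_cast this
    have h5 : (8 * (b0 : ℝ) + 1) * (n * fl) = 4 * (2 * fl * (b0 * n)) + n * fl := by ring
    rw [h5]
    linarith
  exact_mod_cast h1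

lemma dims {D0 b0 τ j n fl m1 m2 : ℕ} (hτ : τ = 2 * D0 * (4 * b0 + 1) * (8 * b0 + 1))
    (hn : n = τ * j + D0 + 5) (hm1 : m1 = 4 * (b0 * n) + τ * j + 1)
    (hm2 : m2 ≤ (8 * b0 + 1) * (n * fl)) :
    (m1 + D0) ^ 2 * m2 + n * (n * fl) ≤ (τ + 1) * (n * (n * fl)) + m1 ^ 2 * m2 ∧
    (m1 + D0) ^ 2 * m2 ≤ ((4 * b0 + 1) ^ 2 * (8 * b0 + 1) * n) * (n * (n * fl)) := by
  have hm1n : m1 + D0 ≤ (4 * b0 + 1) * n := by
    have : (4 * b0 + 1) * n = 4 * (b0 * n) + n := by ring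
    omega
  have h2 : (m1 + D0) * m2 ≤ ((4 * b0 + 1) * n) * ((8 * b0 + 1) * (n * fl)) :=
    Nat.mul_le_mul hm1n hm2
  constructor
  · have h1 : (m1 + D0) ^ 2 * m2 + D0 ^ 2 * m2 =
        m1 ^ 2 * m2 + 2 * D0 * ((m1 + D0) * m2) := by ring
    have h3 : 2 * D0 * ((m1 + D0) * m2) ≤
        2 * D0 * (((4 * b0 + 1) * n) * ((8 * b0 + 1) * (n * fl))) := Nat.mul_le_mul_left _ h2
    have h4 : 2 * D0 * (((4 * b0 + 1) * n) * ((8 * b0 + 1) * (n * fl))) =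
        τ * (n * (n * fl)) := by
      rw [hτ]
      ring
    have h5 : (τ + 1) * (n * (n * fl)) = τ * (n * (n * fl)) + n * (n * fl) := by ring
    rw [h4] at h3
    have h6 : 0 ≤ D0 ^ 2 * m2 := Nat.zero_le _
    linarith
  · have h1 : (m1 + D0) ^ 2 * m2 ≤ ((4 * b0 + 1) * n) ^ 2 * ((8 * b0 + 1) * (n * fl)) :=
      Nat.mul_le_mul (Nat.pow_le_pow_left hm1n 2) hm2
    refine h1.trans (le_of_eq ?_)
    ring

lemma log_bd {Nr lg C0 C1 C2 ρ : ℝ} {Δ k : ℕ} (hN1 : 1 ≤ Nr) (hN : Nr ≤ C2 * ρ)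
    (hΔ : (Δ : ℝ) * log 2 ≤ C1 * ρ) (hlg : 1 ≤ lg) (hlgl : log lg ≤ C0 * ρ) :
    1 ≤ (Nr * (2 ^ Δ * lg)) ^ k ∧ log ((Nr * (2 ^ Δ * lg)) ^ k) ≤ k * (C2 + C1 + C0) * ρ := by
  have h2Δ : (1 : ℝ) ≤ 2 ^ Δ := one_le_pow₀ one_le_two
  have h3 : (1 : ℝ) ≤ 2 ^ Δ * lg := one_le_mul_of_one_le_of_one_le h2Δ hlg
  have h4 : (1 : ℝ) ≤ Nr * (2 ^ Δ * lg) := one_le_mul_of_one_le_of_one_le hN1 h3
  refine ⟨one_le_pow₀ h4, ?_⟩
  have h5 : log Nr ≤ C2 * ρ :=
    ((Real.log_le_sub_one_of_pos (by linarith)).trans (by linarith)).trans hN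
  rw [Real.log_pow, Real.log_mul (by linarith) (by linarith),
    Real.log_mul (by positivity) (by linarith), Real.log_pow]
  have h1 : log Nr + (Δ * log 2 + log lg) ≤ (C2 + C1 + C0) * ρ := by linarith
  calc (k : ℝ) * (log Nr + (Δ * log 2 + log lg)) ≤ k * ((C2 + C1 + C0) * ρ) :=
        mul_le_mul_of_nonneg_left h1 (Nat.cast_nonneg _)
    _ = _ := by ring

lemma fin_ineq {D jr κ0 H0 N A B S h : ℝ} (hD : 0 < D) (hH0 : 1 ≤ H0) (hN0 : 0 ≤ N)
    (hj : 4 * N + 4 ≤ jr * κ0) (hj0 : 0 ≤ jr) (hκh : D * (κ0 * H0) ≤ h)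
    (hPF : jr * h ≤ D * (A + N * (2 * (H0 + 1)) + B + S)) (hA : A ≤ H0) (hB : B ≤ H0)
    (hS : S ≤ H0) : False := by
  have h1 : jr * (D * (κ0 * H0)) ≤ jr * h := mul_le_mul_of_nonneg_left hκh hj0
  have h6 : A + N * (2 * (H0 + 1)) + B + S ≤ (4 * N + 3) * H0 := by
    have : N * (2 * (H0 + 1)) ≤ 4 * N * H0 := by nlinarith
    linarith
  have h7 := mul_le_mul_of_nonneg_left h6 hD.le
  have h8 : (4 * N + 4) * H0 ≤ jr * κ0 * H0 := mul_le_mul_of_nonneg_right hj (by linarith)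
  have h9 : D * ((4 * N + 4) * H0) ≤ jr * (D * (κ0 * H0)) := by
    have : jr * (D * (κ0 * H0)) = D * (jr * κ0 * H0) := by ring
    rw [this]
    exact mul_le_mul_of_nonneg_left h8 hD.le
  have h10 : D * ((4 * N + 4) * H0) ≤ D * ((4 * N + 3) * H0) := by linarith
  have h11' := le_of_mul_le_mul_left h10 hD
  linarith

lemma count_le {τ n fl m1 m2 g2 : ℕ} {ρ : ℝ} (hflρ : (fl : ℝ) ≤ ρ)
    (hm2n : m2 ≤ g2 * (n * fl)) :
    (((τ + 1) * (n * (n * fl)) + m1 ^ 2 * m2 : ℕ) : ℝ) ≤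
      ((τ + 1) * n * n + m1 ^ 2 * (g2 * n)) * ρ := by
  have h1 : (m2 : ℝ) ≤ g2 * (n * fl) := by exact_mod_cast hm2n
  have h2 : (m1 : ℝ) ^ 2 * m2 ≤ (m1 : ℝ) ^ 2 * (g2 * (n * ρ)) := by
    apply mul_le_mul_of_nonneg_left _ (by positivity)
    refine h1.trans ?_
    apply mul_le_mul_of_nonneg_left _ (by positivity)
    exact mul_le_mul_of_nonneg_left hflρ (by positivity)
  have h3 : ((τ : ℝ) + 1) * (n * (n * fl)) ≤ ((τ : ℝ) + 1) * (n * (n * ρ)) := by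
    apply mul_le_mul_of_nonneg_left _ (by positivity)
    apply mul_le_mul_of_nonneg_left _ (by positivity)
    exact mul_le_mul_of_nonneg_left hflρ (by positivity)
  push_cast
  have h4 : (((τ : ℝ) + 1) * n * n + m1 ^ 2 * (g2 * n)) * ρ =
      ((τ : ℝ) + 1) * (n * (n * ρ)) + (m1 : ℝ) ^ 2 * (g2 * (n * ρ)) := by ring
  rw [h4]
  linarith

/-- **CL.** -/
theorem cl (hSS : S_S) (hST : S_T) (hI : S_I) (hcf : S_cf) : S_CL := by
  classical
  intro D0 ξ e0 b q a1 a2 ha1 ha2 h11 h12 h21 h22 κ0 C0 hκ0 hC0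
  obtain ⟨β, hβ⟩ : ∃ β : ℕ, ∀ r, |a1 r| + |a2 r| ≤ β := by
    obtain ⟨β, hβ⟩ := exists_nat_ge (∑ r, (|a1 r| + |a2 r|))
    refine ⟨β, fun r => le_trans ?_ hβ⟩
    exact Finset.single_le_sum (f := fun r => |a1 r| + |a2 r|) (fun r _ => by positivity)
      (Finset.mem_univ r)
  obtain ⟨M0, hM0⟩ := exists_nat_gt (2 * (1 + ∑ b', |q b'|))
  obtain ⟨N, hN⟩ : ∃ N : ℝ, N = (Fintype.card ((Fin 1 ⊕ Fin 2) × Bool) : ℝ) := ⟨_, rfl⟩
  have hN0 : 0 ≤ N := by rw [hN]; exact Nat.cast_nonneg _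
  obtain ⟨j, hj⟩ := exists_nat_ge ((4 * N + 4) / κ0)
  have hjκ : 4 * N + 4 ≤ j * κ0 := by
    rw [div_le_iff₀ hκ0] at hj
    exact hj
  obtain ⟨b0, hb0⟩ : ∃ b0 : ℕ, b0 = M0 * β := ⟨_, rfl⟩
  obtain ⟨τ, hτ⟩ : ∃ τ : ℕ, τ = 2 * D0 * (4 * b0 + 1) * (8 * b0 + 1) := ⟨_, rfl⟩
  obtain ⟨n, hn⟩ : ∃ n : ℕ, n = τ * j + D0 + 5 := ⟨_, rfl⟩
  obtain ⟨k, hk⟩ : ∃ k : ℕ, k = (4 * b0 + 1) ^ 2 * (8 * b0 + 1) * n := ⟨_, rfl⟩
  obtain ⟨Yn, hYn⟩ : ∃ Yn : ℕ, Yn = b0 * n := ⟨_, rfl⟩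
  obtain ⟨m1, hm1⟩ : ∃ m1 : ℕ, m1 = 4 * (b0 * n) + τ * j + 1 := ⟨_, rfl⟩
  have hn5 : 5 ≤ n := by omega
  have hY0 : (0 : ℝ) ≤ (Yn : ℝ) := Nat.cast_nonneg _
  obtain ⟨η, hη⟩ : ∃ η : ℝ, η = 1 / (N * Yn + 1) := ⟨_, rfl⟩
  have hη0 : 0 < η := by rw [hη]; positivity
  have hη1 : N * Yn * η ≤ 1 := by
    rw [hη, mul_one_div, div_le_one (by positivity)]
    linarith
  obtain ⟨C1, hC1⟩ : ∃ C1 : ℝ, C1 = 12 * Yn + 4 := ⟨_, rfl⟩
  obtain ⟨C2, hC2⟩ : ∃ C2 : ℝ, C2 = (τ + 1) * n * n + m1 ^ 2 * (((8 * b0 + 1 : ℕ) : ℝ) * n) :=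
    ⟨_, rfl⟩
  obtain ⟨Cb, hCb⟩ : ∃ Cb : ℝ, Cb = k * (C2 + C1 + C0) := ⟨_, rfl⟩
  have hC10 : 0 ≤ C1 := by rw [hC1]; positivity
  have hC20 : 0 ≤ C2 := by rw [hC2]; positivity
  have hCb0 : 0 ≤ Cb := by rw [hCb]; positivity
  have hτj : (0 : ℝ) ≤ ((τ * j : ℕ) : ℝ) := Nat.cast_nonneg _
  obtain ⟨C, hC⟩ : ∃ C : ℝ, C = C2 + Cb + C1 + ((τ * j : ℕ) : ℝ) + 1 := ⟨_, rfl⟩
  refine ⟨C, 1 / 8, η, by linarith, by norm_num, hη0, ?_⟩
  intro K _ _ u hu0 hu1 H0 H2 hCH2 hH20 t err hnear hht0 hht1 hκh g hg hgpos hgD hgl hgu hindep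
  have hDpos : (0 : ℝ) < finrank ℚ K := by exact_mod_cast finrank_pos
  have hH21 : 1 ≤ H2 := by linarith
  have hH2pos : 0 < H2 := by linarith
  have hH01 : 1 ≤ H0 := by linarith
  have hH0pos : 0 < H0 := by linarith
  have hHpos : ∀ i, 0 < (Sum.elim (fun _ => H2) (fun _ => H0) : Fin 1 ⊕ Fin 2 → ℝ) i := by
    rintro (i | i)
    · exact hH2pos
    · exact hH0pos
  have hHH : ∀ i, (Sum.elim (fun _ => H2) (fun _ => H0) : Fin 1 ⊕ Fin 2 → ℝ) i ≤ H0 := by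
    rintro (i | i)
    · exact hH20
    · exact le_rfl
  have hht : ∀ i, logHeight₁ (u i) ≤
      finrank ℚ K * (Sum.elim (fun _ => H2) (fun _ => H0) : Fin 1 ⊕ Fin 2 → ℝ) i := by
    rintro (i | i)
    · have hi : i = 0 := Subsingleton.elim _ _
      rw [hi]
      exact hht0
    · exact hht1 i
  obtain ⟨ρ, hρ⟩ : ∃ ρ : ℝ, ρ = H0 / H2 := ⟨_, rfl⟩
  rw [← hρ] at hgl
  have hρ1 : 1 ≤ ρ := by
    rw [hρ, le_div_iff₀ hH2pos, one_mul]
    exact hH20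
  have hρpos : 0 < ρ := by linarith
  obtain ⟨fl, hfl⟩ : ∃ fl : ℕ, fl = ⌊ρ⌋₊ := ⟨_, rfl⟩
  have hfl1 : 1 ≤ fl := by
    rw [hfl, Nat.one_le_floor_iff]
    exact hρ1
  have hfl1r : (1 : ℝ) ≤ fl := by exact_mod_cast hfl1
  have hflρ : (fl : ℝ) ≤ ρ := by
    rw [hfl]
    exact Nat.floor_le hρpos.le
  have hfl2 : ρ ≤ 2 * (fl : ℝ) := by
    have h1 := Nat.lt_floor_add_one ρ
    rw [← hfl] at h1
    linarith
  obtain ⟨sl, hsl⟩ : ∃ sl : ℕ, sl = ⌈ρ * Yn⌉₊ := ⟨_, rfl⟩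
  have hsl1 : ρ * Yn ≤ sl := by
    rw [hsl]
    exact Nat.le_ceil _
  have hsl2 : (sl : ℝ) ≤ ρ * Yn + 1 := by
    rw [hsl]
    exact (Nat.ceil_lt_add_one (mul_nonneg hρpos.le hY0)).le
  have hMβn : M0 * β * n = Yn := by rw [hYn, hb0]
  obtain ⟨x, E, hx, hxle, hE, hEle, hE1, hinj⟩ := exponents (n := n) (fl := fl) (sl := sl) ha1 ha2
    h11 h12 h21 h22 hβ hM0 hH2pos hH0pos (by rw [← hρ]; exact hflρ)
    (by rw [← hρ, hMβn]; exact hsl1)
  rw [hMβn] at hxle hE hEle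
  obtain ⟨Δ, hΔe⟩ : ∃ Δ : ℕ, Δ = 4 * sl + 8 * Yn := ⟨_, rfl⟩
  have hEl : ∀ m b', E m (Sum.inl 0, b') ≤ 2 * sl := fun m b' => hEle m (Sum.inl 0, b')
  have hEr : ∀ m i b', E m (Sum.inr i, b') ≤ 2 * Yn := fun m i b' => hEle m (Sum.inr i, b')
  have hΔ : ∀ m, ∑ r, E m r ≤ Δ := by
    intro m
    rw [Fintype.sum_prod_type, Fintype.sum_sum_type, Fin.sum_univ_one, Fin.sum_univ_two,
      Fintype.sum_bool, Fintype.sum_bool, Fintype.sum_bool, hΔe]
    have e1 := hEl m true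
    have e2 := hEl m false
    have e3 := hEr m 0 true
    have e4 := hEr m 0 false
    have e5 := hEr m 1 true
    have e6 := hEr m 1 false
    omega
  have hsC : 4 * (sl : ℝ) + 8 * Yn ≤ C1 * ρ := by
    rw [hC1]
    have h1 : (Yn : ℝ) ≤ ρ * Yn := le_mul_of_one_le_left hY0 hρ1
    have h2 : (12 * (Yn : ℝ) + 4) * ρ = 4 * (ρ * Yn) + 8 * (ρ * Yn) + 4 * ρ := by ring
    rw [h2]
    linarith
  have hΔr : (Δ : ℝ) ≤ C1 * ρ := by
    rw [hΔe]
    push_cast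
    exact hsC
  have hdl : ∀ m, MvPolynomial.degreeOf (Sum.inl 0) (mo (E m)) ≤ 4 * sl := by
    intro m
    refine (degreeOf_mo _ _).trans ?_
    have h1 := hEl m true
    have h2 := hEl m false
    omega
  have hdr : ∀ m i, MvPolynomial.degreeOf (Sum.inr i) (mo (E m)) ≤ 4 * Yn := by
    intro m i
    refine (degreeOf_mo _ _).trans ?_
    have h1 := hEr m i true
    have h2 := hEr m i false
    omega
  have hcardμ : Fintype.card (Fin n × Fin (n * fl)) = n * (n * fl) := by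
    rw [Fintype.card_prod, Fintype.card_fin, Fintype.card_fin]
  -- the box
  obtain ⟨m2, hm2⟩ : ∃ m2 : ℕ, m2 = 4 * sl + 1 := ⟨_, rfl⟩
  have hm2n : m2 ≤ (8 * b0 + 1) * (n * fl) := by
    rw [hm2]
    exact m2_le (by rw [← hYn]; exact hsl2) hfl2 hfl1 hn5
  obtain ⟨hd1, hd2⟩ := dims hτ hn hm1 hm2n
  have hnnpos : 0 < n * (n * fl) := Nat.mul_pos (by omega) (Nat.mul_pos (by omega) (by omega))
  obtain ⟨Nι, hNι⟩ : ∃ Nι : ℕ, Nι = (τ + 1) * (n * (n * fl)) + m1 ^ 2 * m2 := ⟨_, rfl⟩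
  have hNge : (τ + 1) * (n * (n * fl)) ≤ Nι := by rw [hNι]; exact Nat.le_add_right _ _
  have hNge' : n * (n * fl) ≤ Nι :=
    (Nat.le_mul_of_pos_left _ (Nat.succ_pos _)).trans hNge
  obtain ⟨c, hc0, ⟨Q, hQ⟩, hcle⟩ := siegel hSS hg.ne_zero hgD E hΔ (τ := τ) (j := j) (m1 := m1)
    (m2 := m2) (k := k) (by omega) (by omega) (fun m => by
      have h1 := hdl m
      omega) (fun m i => by
      have h1 := hdr m i
      omega) (by
      rw [hcardμ, ← hNι]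
      rw [← hNι] at hd1
      omega) (by
      rw [hcardμ, ← hNι]
      rw [← hNι] at hd1
      rw [← hk] at hd2
      exact hd2.trans (Nat.mul_le_mul_left _ (by omega)))
  rw [hcardμ, ← hNι] at hcle
  -- independence
  have hind : ∀ t, MvPolynomial.rename Sum.inr g ∣ ∑ m, c t m • mo (E m) → c t = 0 := by
    intro t ht
    refine hI g (fun e => (e (0, e0) : ℝ) + ∑ b', q b' * e (1, b')) hindep b (Fin n)
      (Fin (n * fl)) E (fun y => (y : ℕ) + sl) (fun y y' h => Fin.ext (by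
        dsimp only at h
        omega)) hE1 hinj (c t) ht
  have hex : ∃ t, ¬ MvPolynomial.rename Sum.inr g ∣ ∑ m, c t m • mo (E m) := by
    by_contra h
    push Not at h
    exact hc0 (funext fun t => hind t (h t))
  obtain ⟨t0, ht0, ht0'⟩ := exists_first (rename_prime hg) (not_dvd_X (hgpos 1))
    (fun t => ∑ m, c t m • mo (E m)) Q hQ hex
  clear hind hex hQ hI hSS hindep hm1 hτ hd1 hd2 hinj hE1 h11 h12 h21 h22 hn
  -- sizes
  have hNι1 : (1 : ℝ) ≤ Nι := by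
    have : 1 ≤ Nι := by omega
    exact_mod_cast this
  have hNιle : (Nι : ℝ) ≤ C2 * ρ := by
    rw [hNι, hC2]
    exact count_le hflρ hm2n
  have hlogN : log (Nι : ℝ) ≤ C2 * ρ := by
    refine le_trans ?_ hNιle
    exact (Real.log_le_sub_one_of_pos (by linarith)).trans (by linarith)
  have hl2 : log (2 : ℝ) ≤ 1 := by linarith [Real.log_two_lt_d9]
  have hΔ0 : (0 : ℝ) ≤ Δ := Nat.cast_nonneg _
  have hΔl : (Δ : ℝ) * log 2 ≤ C1 * ρ :=
    (mul_le_of_le_one_right hΔ0 hl2).trans hΔr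
  obtain ⟨hBd1, hlogBd⟩ := log_bd (Δ := Δ) (k := k) hNι1 hNιle hΔl (one_le_l1 hg.ne_zero) hgl
  rw [← hCb] at hlogBd
  obtain ⟨Bd, hBd⟩ : ∃ Bd : ℝ, Bd = ((Nι : ℝ) * (2 ^ Δ * l1 g)) ^ k := ⟨_, rfl⟩
  rw [← hBd] at hBd1 hlogBd hcle
  have hBdpos : 0 < Bd := by linarith
  have hF0 : (∑ m, c t0 m • mo (E m)) ≠ 0 := by
    intro h
    apply ht0
    show _ ∣ (∑ m, c t0 m • mo (E m))
    rw [h]
    exact dvd_zero _
  have hCρ : C2 * ρ + Cb * ρ + C1 * ρ + ((τ * j : ℕ) : ℝ) * ρ + ρ = C * ρ := by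
    rw [hC]
    ring
  have hr1 : 0 ≤ C2 * ρ := mul_nonneg hC20 hρpos.le
  have hr2 : 0 ≤ Cb * ρ := mul_nonneg hCb0 hρpos.le
  have hr3 : 0 ≤ C1 * ρ := mul_nonneg hC10 hρpos.le
  have hr4 : 0 ≤ ((τ * j : ℕ) : ℝ) * ρ := mul_nonneg hτj hρpos.le
  rw [← hρ]
  refine ⟨∑ m, c t0 m • mo (E m), ?_, ?_, ?_, ?_, ?_⟩
  · by_contra h
    push Not at h
    exact ht0 (((hcf 1 2 (∑ m, c t0 m • mo (E m))).2.2.2.2 g).2 h)
  · have h1 : MvPolynomial.degreeOf (Sum.inl 0) (∑ m, c t0 m • mo (E m)) ≤ 4 * sl :=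
      degreeOf_zcomb_le _ _ _ hdl
    have h2 : (MvPolynomial.degreeOf (Sum.inl 0) (∑ m, c t0 m • mo (E m)) : ℝ) ≤ 4 * sl := by
      exact_mod_cast h1
    linarith
  · intro i
    have h1 : MvPolynomial.degreeOf (Sum.inr i) (∑ m, c t0 m • mo (E m)) ≤ 4 * Yn :=
      degreeOf_zcomb_le _ _ _ (fun m => hdr m i)
    have h2 : (MvPolynomial.degreeOf (Sum.inr i) (∑ m, c t0 m • mo (E m)) : ℝ) ≤ 4 * Yn := by
      exact_mod_cast h1
    linarith
  · have h1 : l1 (∑ m, c t0 m • mo (E m)) ≤ Nι * (Bd * 2 ^ Δ) := by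
      have h2 : l1 (∑ m, c t0 m • mo (E m)) ≤
          Fintype.card (Fin n × Fin (n * fl)) * (Bd * 2 ^ Δ) :=
        l1_comb_le _ _ (fun m => hcle t0 m)
          (fun m => (l1_mo _).trans (pow_le_pow_right₀ one_le_two (hΔ m))) hBdpos.le
      refine h2.trans (mul_le_mul_of_nonneg_right ?_ (by positivity))
      rw [hcardμ]
      exact_mod_cast hNge'
    have h2 := Real.log_le_log (lt_of_lt_of_le one_pos (one_le_l1 hF0)) h1
    rw [Real.log_mul (by linarith) (by positivity), Real.log_mul (by positivity) (by positivity),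
      Real.log_pow] at h2
    linarith
  · intro κ hκ hκl
    by_contra hz
    obtain ⟨Q2, hQ2⟩ := ht0'
    have hid2 : tc u (∑ m, c t0 m • mo (E m)) κ = -∑ t ∈ Finset.univ.filter (fun t => t0 < t),
        tc u ((∑ m, c t m • mo (E m)) * MvPolynomial.X (Sum.inr 0) ^ (((t : ℕ) - t0) * j)) κ := by
      have h1 : tc u (∑ m, c t0 m • mo (E m) + ∑ t ∈ Finset.univ.filter (fun t => t0 < t),
          (∑ m, c t m • mo (E m)) * MvPolynomial.X (Sum.inr 0) ^ (((t : ℕ) - t0) * j)) κ = 0 := by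
        rw [hQ2]
        exact tc_rename_mul u hgu Q2 κ hκ
      have h2 := tc_sum (Finset.univ.filter (fun t => t0 < t)) u
        (fun t => (∑ m, c t m • mo (E m)) *
          MvPolynomial.X (Sum.inr 0) ^ (((t : ℕ) - t0) * j)) κ
      rw [tc_add, h2] at h1
      exact eq_neg_of_add_eq_zero_left h1
    have hPF := PF hST hu0 hu1 hHpos hHH hH0pos.le hnear hht x hx hY0 hxle
      (fun r => (Sum.elim (fun _ => sl) (fun _ => Yn) : Fin 1 ⊕ Fin 2 → ℕ) r.1) E hE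
      hΔ c t0 (Sum.inr 0) κ hid2 hz
    rw [← hN] at hPF
    have hCt : ∑ t, ∑ m, |(c t m : ℝ)| + 1 ≤ 2 * (Nι * Bd) := by
      have h1 : ∑ t, ∑ m, |(c t m : ℝ)| ≤ Nι * Bd := by
        have h2 : ∑ t : Fin (τ + 1), ∑ m : Fin n × Fin (n * fl), |(c t m : ℝ)| ≤
            ∑ _t : Fin (τ + 1), ∑ _m : Fin n × Fin (n * fl), Bd :=
          Finset.sum_le_sum fun t _ => Finset.sum_le_sum fun m _ => hcle t m
        refine h2.trans ?_
        rw [Finset.sum_const, Finset.sum_const, Finset.card_univ, Finset.card_univ, hcardμ,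
          Fintype.card_fin, nsmul_eq_mul, nsmul_eq_mul, ← mul_assoc]
        apply mul_le_mul_of_nonneg_right _ hBdpos.le
        rw [← Nat.cast_mul]
        exact_mod_cast hNge
      have h2 : (1 : ℝ) ≤ Nι * Bd := one_le_mul_of_one_le_of_one_le hNι1 hBd1
      linarith
    have hCt0 : 0 < ∑ t, ∑ m, |(c t m : ℝ)| + 1 := by
      have : 0 ≤ ∑ t, ∑ m, |(c t m : ℝ)| :=
        Finset.sum_nonneg fun _ _ => Finset.sum_nonneg fun _ _ => abs_nonneg _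
      linarith
    have hlogCt : log (∑ t, ∑ m, |(c t m : ℝ)| + 1) ≤ log 2 + (C2 * ρ + Cb * ρ) := by
      have h1 := Real.log_le_log hCt0 hCt
      rw [Real.log_mul (by positivity) (by positivity), Real.log_mul (by linarith)
        (by positivity)] at h1
      linarith
    have hκsum : ∑ i, (κ i : ℝ) *
        (4 * ((Sum.elim (fun _ => H2) (fun _ => H0) : Fin 1 ⊕ Fin 2 → ℝ) i + 1)) ≤ H0 := by
      rw [Fintype.sum_sum_type, Fin.sum_univ_one, Fin.sum_univ_two, hκ 0, hκ 1]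
      simp only [Nat.cast_zero, zero_mul, add_zero]
      show (κ (Sum.inl 0) : ℝ) * (4 * (H2 + 1)) ≤ H0
      have h3 : (κ (Sum.inl 0) : ℝ) * (4 * (H2 + 1)) ≤ (1 / 8 * ρ) * (8 * H2) := by
        apply mul_le_mul hκl _ (by positivity) (by positivity)
        linarith
      have h4 : (1 / 8 * ρ) * (8 * H2) = H0 := by
        rw [hρ]
        field_simp
      linarith
    have hCH : C * ρ ≤ H0 := by
      have h1 : C * ρ ≤ H2 * ρ := mul_le_mul_of_nonneg_right hCH2 hρpos.le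
      have h2 : H2 * ρ = H0 := by
        rw [hρ]
        field_simp
      linarith
    have h2 : N * Yn * (H0 * η) ≤ H0 := by
      have : N * Yn * (H0 * η) = (N * Yn * η) * H0 := by ring
      rw [this]
      exact mul_le_of_le_one_left hH0pos.le hη1
    have h3 : ((Δ + τ * j : ℕ) : ℝ) * log 2 ≤ C1 * ρ + ((τ * j : ℕ) : ℝ) * ρ := by
      refine (mul_le_of_le_one_right (Nat.cast_nonneg _) hl2).trans ?_
      rw [Nat.cast_add]
      have h4 : ((τ * j : ℕ) : ℝ) ≤ ((τ * j : ℕ) : ℝ) * ρ := le_mul_of_one_le_right hτj hρ1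
      linarith
    exact fin_ineq hDpos hH01 hN0 hjκ (Nat.cast_nonneg _) hκh hPF (by linarith) h2 hκsum

end Pool.Agent.H883.ZR.CL
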