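import Pool.Agent.H883.ZR.Base3
import Pool.Agent.H883.ZQ.Lines

set_option autoImplicit false
set_option linter.unusedSectionVars false

/-!
# Zilber-Pink for products of four lines from three theorems
-/

namespace Pool.Agent.H883.ZR.E4

open Real NumberField Height Module Finset MvPolynomial
open Pool.Agent.H883.ZQ
open Pool.Agent.H883.ZR
open Pool.Agent.H883.ZP (Codim mon mon_mon)

section restr

variable {κ : Type} [Fintype κ]

/-- restriction of the relations to a part of the coordinates -/
theorem codim_restr {F κ' : Type} [Field F] [Fintype κ'] {w : κ → F} (hw : ∀ l, w l ≠ 0)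
    (f : κ' → κ) (hf : Function.Injective f) {m n q : ℕ} (hm : n + q ≤ m)
    (hq : Fintype.card κ ≤ Fintype.card κ' + q) (h : Codim w m) : Codim (fun l => w (f l)) n := by
  classical
  obtain ⟨R, hR, hrel⟩ := h
  -- the combinations
  let Φ : (Fin m → ℤ) →ₗ[ℤ] (κ → ℤ) := Fintype.linearCombination ℤ R
  have hΦ : Function.Injective Φ := linearIndependent_iff_injective_fintypeLinearCombination.1 hR
  let S := {l : κ // l ∉ Set.range f}
  let L : (Fin m → ℤ) →ₗ[ℤ] (S → ℤ) := (LinearMap.funLeft ℤ ℤ (Subtype.val : S → κ)).comp Φ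
  have hS : Fintype.card S ≤ q := by
    have h1 : Fintype.card S = Fintype.card κ - Fintype.card κ' := by
      have h2 : Fintype.card S = Fintype.card κ - Fintype.card {l : κ // l ∈ Set.range f} :=
        Fintype.card_subtype_compl _
      rw [h2]
      congr 1
      exact (Fintype.card_congr (Equiv.ofInjective f hf)).symm
    omega
  have hker : n ≤ finrank ℤ (LinearMap.ker L) := by
    have h1 := LinearMap.rank_range_add_rank_ker L
    rw [← Module.finrank_eq_rank, ← Module.finrank_eq_rank, ← Module.finrank_eq_rank] at h1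
    have h2 : finrank ℤ (LinearMap.range L) + finrank ℤ (LinearMap.ker L) = m := by
      have h3 : finrank ℤ (Fin m → ℤ) = m := by simp
      rw [h3] at h1
      exact_mod_cast h1
    have h4 : finrank ℤ (LinearMap.range L) ≤ Fintype.card S := by
      have h5 := Submodule.finrank_le (LinearMap.range L)
      rwa [Module.finrank_fintype_fun_eq_card] at h5
    omega
  obtain ⟨v, hv⟩ := exists_linearIndependent_of_le_finrank hker
  let Ψ : LinearMap.ker L →ₗ[ℤ] (κ' → ℤ) :=
    ((LinearMap.funLeft ℤ ℤ f).comp Φ).comp (LinearMap.ker L).subtype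
  have hoff : ∀ c : LinearMap.ker L, ∀ l : κ, l ∉ Set.range f → Φ c.1 l = 0 := by
    intro c l hl
    have h1 := LinearMap.mem_ker.1 c.2
    exact congrFun h1 ⟨l, hl⟩
  have hΨ : LinearMap.ker Ψ = ⊥ := by
    rw [LinearMap.ker_eq_bot']
    intro c hc
    have h1 : Φ c.1 = 0 := by
      funext l
      by_cases hl : l ∈ Set.range f
      · obtain ⟨l', rfl⟩ := hl
        exact congrFun hc l'
      · exact hoff c l hl
    have h2 : c.1 = 0 := hΦ (by rw [h1, map_zero])
    exact Subtype.ext h2
  refine ⟨fun t => Ψ (v t), hv.map' Ψ hΨ, fun t => ?_⟩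
  have h1 : mon w (Φ (v t).1) = 1 := by
    have h2 := mon_mon w hw R (v t).1
    have h3 : (fun l => ∑ i, (v t).1 i * R i l) = Φ (v t).1 := by
      funext l
      simp only [Φ, Fintype.linearCombination_apply, Finset.sum_apply, Pi.smul_apply, smul_eq_mul]
    rw [h3] at h2
    rw [← h2]
    unfold mon at hrel ⊢
    simp [hrel]
  rw [← h1]
  unfold mon
  have h4 : ∏ l ∈ Finset.univ.image f, w l ^ Φ (v t).1 l = ∏ l, w l ^ Φ (v t).1 l := by
    apply Finset.prod_subset (Finset.subset_univ _)
    intro l _ hl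
    rw [hoff (v t) l (fun ⟨l', hl'⟩ => hl (Finset.mem_image.2 ⟨l', Finset.mem_univ _, hl'⟩)),
      zpow_zero]
  rw [← h4, Finset.prod_image fun x _ y _ hxy => hf hxy]
  rfl

end restr

/-- the restriction to a triple -/
def tm (j : Fin 4) : Fin 3 ⊕ Fin 3 → Fin 4 ⊕ Fin 4 := Sum.map j.succAbove j.succAbove

theorem tm_inj (j : Fin 4) : Function.Injective (tm j) :=
  Sum.map_injective.2 ⟨Fin.succAbove_right_injective, Fin.succAbove_right_injective⟩

theorem fourth : ∀ i j k : Fin 4, i ≠ j → i ≠ k → j ≠ k →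
    ∃ j0 : Fin 4, ∀ l : Fin 3, j0.succAbove l = i ∨ j0.succAbove l = j ∨ j0.succAbove l = k := by
  decide

theorem e4 (hBL : S_BL) (hLL : S_LL) : S_E4 := by
  intro K0 _ _ a b ha hb
  have hT := fun j0 : Fin 4 => hBL K0 (fun i => a (j0.succAbove i)) (fun i => b (j0.succAbove i))
    (fun i => ha _) (fun i => hb _)
  choose GT hGT εT BT hεT hT using hT
  set B : ℝ := 1 + ∑ j0, |BT j0| with hB
  have hB1 : 1 ≤ B := by
    have : 0 ≤ ∑ j0, |BT j0| := Finset.sum_nonneg fun _ _ => abs_nonneg _
    linarith
  have hBT : ∀ j0, BT j0 ≤ B := by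
    intro j0
    have h1 : |BT j0| ≤ ∑ j0, |BT j0| :=
      Finset.single_le_sum (f := fun j0 => |BT j0|) (fun _ _ => abs_nonneg _) (Finset.mem_univ j0)
    have h2 := le_abs_self (BT j0)
    linarith
  obtain ⟨G2, hG2, ε2, N, hε2, h2⟩ := hLL K0 4 a b ha hb B
  set Λ : ℝ := B + |N| with hΛ
  obtain ⟨G3, hG3, ε3, hε3, h3⟩ := linesCmp 4 a b ha hb Λ
  obtain ⟨ε4, hε4, h4⟩ : ∃ ε4 : ℝ, 0 < ε4 ∧ ∀ j0, ε4 ≤ εT j0 :=
    ⟨Finset.univ.inf' ⟨0, Finset.mem_univ _⟩ εT,
      (Finset.lt_inf'_iff _).2 fun j0 _ => hεT j0,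
      fun j0 => Finset.inf'_le _ (Finset.mem_univ j0)⟩
  refine ⟨(∏ j0 : Fin 4, rename j0.succAbove (GT j0)) * G2 * G3, ?_, min (min ε2 ε3) ε4,
    lt_min (lt_min hε2 hε3) hε4, ?_⟩
  · refine mul_ne_zero (mul_ne_zero (Finset.prod_ne_zero_iff.2 fun j0 _ => ?_) hG2) hG3
    intro h
    apply hGT j0
    exact rename_injective _ Fin.succAbove_right_injective (by rw [h, map_zero])
  intro K _ _ _ P g e hP hline hge hcod heε
  have hg : ∀ r, g r ≠ 0 := fun r h => hP r (by rw [hge, h, zero_mul])
  rw [map_mul, map_mul, map_prod]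
  by_cases hz : ∃ j0 : Fin 4, aeval (fun i => P (Sum.inl (j0.succAbove i))) (GT j0) = 0
  · obtain ⟨j0, hj0⟩ := hz
    have h5 : (∏ j0 : Fin 4, aeval (fun i => P (Sum.inl i)) (rename j0.succAbove (GT j0))) = 0 := by
      refine Finset.prod_eq_zero (Finset.mem_univ j0) ?_
      rw [aeval_rename]
      exact hj0
    rw [h5, zero_mul, zero_mul]
  push Not at hz
  -- every triple contains a small height
  have hsm : ∀ j0 : Fin 4, ∃ i : Fin 3, ht (P (Sum.inl (j0.succAbove i))) ≤ B := by
    intro j0
    by_contra hcon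
    push Not at hcon
    have h5 := hT j0 K (fun r => P (tm j0 r)) (fun r => g (tm j0 r)) (fun r => e (tm j0 r))
      (fun r => hP _) (fun i => hline (j0.succAbove i)) (fun r => hge _)
      (codim_restr hg (tm j0) (tm_inj j0) (q := 2) (by norm_num) (by simp) hcod) (by
        intro r
        have h6 : 1 ≤ ht (P (tm j0 (Sum.inl (ix r)))) := hB1.trans (hcon (ix r)).le
        calc ht (e (tm j0 r)) ≤ min (min ε2 ε3) ε4 := heε _
          _ ≤ ε4 := min_le_right _ _
          _ ≤ εT j0 := h4 j0
          _ = εT j0 * 1 := (mul_one _).symm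
          _ ≤ εT j0 * ht (P (tm j0 (Sum.inl (ix r)))) :=
            mul_le_mul_of_nonneg_left h6 (hεT j0).le)
    rcases h5 with h5 | ⟨i, h5⟩
    · exact hz j0 h5
    · have h6 := hcon i
      have h7 : ht (P (Sum.inl (j0.succAbove i))) ≤ BT j0 := h5
      have h8 := hBT j0
      linarith
  have hthree : ∀ i j k : Fin 4, i ≠ j → i ≠ k → j ≠ k → B < ht (P (Sum.inl i)) →
      B < ht (P (Sum.inl j)) → ht (P (Sum.inl k)) ≤ B := by
    intro i j k hij hik hjk hi hj
    by_contra hk
    push Not at hk
    obtain ⟨j0, hj0⟩ := fourth i j k hij hik hjk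
    obtain ⟨l, hl⟩ := hsm j0
    rcases hj0 l with h5 | h5 | h5 <;> rw [h5] at hl <;> linarith
  by_cases hlac : ∀ i j, i ≠ j → ht (P (Sum.inl i)) ≤ B ∨ ht (P (Sum.inl j)) ≤ B ∨
      N * ht (P (Sum.inl i)) ≤ ht (P (Sum.inl j)) ∨ N * ht (P (Sum.inl j)) ≤ ht (P (Sum.inl i))
  · have h5 := h2 K P g e hP hline hge hcod
      (fun r => (heε r).trans ((min_le_left _ _).trans (min_le_left _ _))) hlac
    rw [h5, mul_zero, zero_mul]
  · push Not at hlac
    obtain ⟨i, j, hij, hi, hj, hNi, hNj⟩ := hlac
    have hN : N ≤ |N| := le_abs_self N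
    have hN0 : 0 ≤ |N| := abs_nonneg N
    have h5 := h3 K P g e hP hline hge hcod
      (fun r => (heε r).trans ((min_le_left _ _).trans (min_le_right _ _))) (by
        intro k l
        by_cases hk : ht (P (Sum.inl k)) ≤ Λ
        · exact Or.inl hk
        · right
          push Not at hk
          have hk0 : 0 ≤ ht (P (Sum.inl k)) := ht_nonneg _
          have hkB : B < ht (P (Sum.inl k)) := by linarith
          have hself : ht (P (Sum.inl k)) ≤ Λ * ht (P (Sum.inl k)) := by nlinarith
          by_cases hl : ht (P (Sum.inl l)) ≤ B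
          · linarith
          · push Not at hl
            by_cases hkl : k = l
            · rw [← hkl]
              exact hself
            · -- then `{k, l} = {i, j}`
              have hk2 : k = i ∨ k = j := by
                by_contra hcon
                push Not at hcon
                have := hthree i j k hij (Ne.symm hcon.1) (Ne.symm hcon.2) hi hj
                linarith
              have hl2 : l = i ∨ l = j := by
                by_contra hcon
                push Not at hcon
                have := hthree i j l hij (Ne.symm hcon.1) (Ne.symm hcon.2) hi hj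
                linarith
              have hle : N * ht (P (Sum.inl k)) ≤ Λ * ht (P (Sum.inl k)) :=
                mul_le_mul_of_nonneg_right (by rw [hΛ]; linarith) hk0
              rcases hk2 with rfl | rfl <;> rcases hl2 with rfl | rfl
              · exact absurd rfl hkl
              · linarith
              · linarith
              · exact absurd rfl hkl)
    rw [h5, mul_zero]

end Pool.Agent.H883.ZR.E4
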