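import Pool.Agent.H883.ZR.Base3

set_option autoImplicit false
set_option linter.unusedSectionVars false

/-!
# No polynomials of high index at points with lacunary heights
-/

namespace Pool.Agent.H883.ZR.IT

open Real NumberField Height Module Finset MvPolynomial
open Pool.Agent.H393R2.RothNS (TT DD l1)

theorem l1_rename {σ τ : Type} [Fintype σ] [Fintype τ] {e : σ → τ} (he : Function.Injective e)
    (P : MvPolynomial σ ℤ) : l1 (rename e P) = l1 P := by
  classical
  unfold l1
  rw [support_rename_of_injective he, Finset.sum_image (Finsupp.mapDomain_injective he).injOn]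
  refine Finset.sum_congr rfl fun α _ => ?_
  rw [coeff_rename_mapDomain e he]

theorem one_le_l1 {σ : Type} [Fintype σ] {P : MvPolynomial σ ℤ} (hP : P ≠ 0) : 1 ≤ l1 P := by
  obtain ⟨α, hα⟩ := MvPolynomial.ne_zero_iff.1 hP
  have h1 : (1 : ℝ) ≤ |((coeff α P : ℤ) : ℝ)| := by
    exact_mod_cast Int.one_le_abs hα
  refine h1.trans ?_
  unfold l1
  exact Finset.single_le_sum (f := fun a => |((coeff a P : ℤ) : ℝ)|) (fun _ _ => abs_nonneg _)
    (MvPolynomial.mem_support_iff.2 hα)

theorem tc_zero {σ K : Type} [Fintype σ] [Field K] (z : σ → K) (f : MvPolynomial σ ℤ) :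
    tc z f 0 = aeval z f := by
  unfold tc
  rw [← MvPolynomial.constantCoeff_eq]
  have h1 : ∀ F : MvPolynomial σ K, constantCoeff (TT z F) = eval z F := by
    intro F
    have h : (constantCoeff : MvPolynomial σ K →+* K).comp
        ((TT z : MvPolynomial σ K →ₐ[K] MvPolynomial σ K) :
          MvPolynomial σ K →+* MvPolynomial σ K) = eval z := by
      apply MvPolynomial.ringHom_ext
      · intro r
        simp only [RingHom.comp_apply, RingHom.coe_coe]
        unfold TT
        rw [← MvPolynomial.algebraMap_eq, AlgHom.commutes, MvPolynomial.algebraMap_eq,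
          constantCoeff_C, eval_C]
      · intro i
        simp only [RingHom.comp_apply, RingHom.coe_coe]
        unfold TT
        rw [aeval_X, map_add, constantCoeff_X, constantCoeff_C, zero_add, eval_X]
    exact DFunLike.congr_fun h F
  rw [h1, eval_map, aeval_def]
  rfl

theorem tc_rename {σ τ K : Type} [Fintype σ] [Fintype τ] [Field K] (e : σ ≃ τ) (z : τ → K)
    (F : MvPolynomial τ ℤ) (κ : σ →₀ ℕ) :
    tc (fun i => z (e i)) (rename e.symm F) κ = tc z F (κ.mapDomain e) := by
  unfold tc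
  have h1 : TT (fun i => z (e i)) (map (Int.castRingHom K) (rename e.symm F)) =
      rename e.symm (TT z (map (Int.castRingHom K) F)) := by
    rw [map_rename]
    have h : (TT (fun i => z (e i))).comp (rename e.symm : MvPolynomial τ K →ₐ[K] _) =
        (rename e.symm : MvPolynomial τ K →ₐ[K] MvPolynomial σ K).comp (TT z) := by
      apply MvPolynomial.algHom_ext
      intro i
      simp [TT]
    exact DFunLike.congr_fun h _
  rw [h1]
  have h2 : κ = (κ.mapDomain e).mapDomain e.symm := by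
    rw [← Finsupp.mapDomain_comp]
    simp
  conv_lhs => rw [h2]
  exact coeff_rename_mapDomain _ e.symm.injective _ _

theorem exists_equiv {I : Type} [Fintype I] (m : ℕ) (hm : Fintype.card I = m + 1) (i1 : I)
    (H : I → ℝ) (hH : Function.Injective H) : ∃ e : Fin m ⊕ Fin 1 ≃ I, e (Sum.inr 0) = i1 ∧
      ∀ j j' : Fin m, j < j' → H (e (Sum.inl j')) < H (e (Sum.inl j)) := by
  classical
  obtain ⟨s, hs, hs'⟩ : ∃ s : Finset I, s.card = m ∧ ∀ i, i ∈ s ↔ i ≠ i1 := by
    refine ⟨Finset.univ.erase i1, ?_, fun i => ?_⟩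
    · rw [Finset.card_erase_of_mem (Finset.mem_univ _), Finset.card_univ, hm]
      rfl
    · simp
  let _ : LinearOrder I := LinearOrder.lift' (fun i => - H i) (fun a b h => hH (neg_injective h))
  let f := s.orderIsoOfFin hs
  refine ⟨Equiv.ofBijective (Sum.elim (fun j => (f j : I)) (fun _ => i1)) ⟨?_, ?_⟩, rfl,
    fun j j' h => ?_⟩
  · rintro (a | a) (b | b) h
    · exact congrArg Sum.inl (f.injective (Subtype.ext h))
    · exact absurd h ((hs' _).1 (f a).2)
    · exact absurd h.symm ((hs' _).1 (f b).2)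
    · exact congrArg Sum.inr (Subsingleton.elim a b)
  · intro i
    by_cases h : i = i1
    · exact ⟨Sum.inr 0, h.symm⟩
    · refine ⟨Sum.inl (f.symm ⟨i, (hs' i).2 h⟩), ?_⟩
      change ((f (f.symm ⟨i, (hs' i).2 h⟩) : s) : I) = i
      rw [OrderIso.apply_symm_apply]
  · have h1 : (f j : I) < (f j' : I) := f.strictMono h
    have h2 : - H (f j) < - H (f j') := h1
    exact neg_lt_neg_iff.1 h2


theorem it (hE : S_E) (hcf : S_cf) (h4 : S_4') (hR : ∀ m, S_R m) : S_IT := by
  intro I _ _ C δ κ0 hC hδ hκ0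
  rcases isEmpty_or_nonempty I with hI | hI
  · exact ⟨0, fun K _ _ u H i1 => (hI.false i1).elim⟩
  obtain ⟨m, hm⟩ : ∃ m, Fintype.card I = m + 1 :=
    Nat.exists_eq_succ_of_ne_zero Fintype.card_ne_zero
  set C1 : ℝ := (C + 2) ^ 2 with hC1
  have hC1pos : 0 < C1 := by positivity
  have hC11 : 1 ≤ C1 := by rw [hC1]; nlinarith
  set N : ℕ := ⌊C⌋₊ + 1 with hN
  have hNC : (N : ℝ) ≤ C + 1 := by
    rw [hN]
    push_cast
    have := Nat.floor_le hC.le
    linarith
  have hN1 : (1 : ℝ) ≤ N := by
    rw [hN]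
    push_cast
    have : (0 : ℝ) ≤ (⌊C⌋₊ : ℝ) := Nat.cast_nonneg _
    linarith
  obtain ⟨ω, hω, hRω⟩ := hR m (δ / (4 * C1)) (by positivity)
  set E : ℝ := log (N.factorial) + 2 * N * C * (m + 1) with hEdef
  have hE0 : 0 ≤ E := by
    have h1 : 0 ≤ log (N.factorial : ℝ) := Real.log_nonneg (by exact_mod_cast N.factorial_pos)
    positivity
  obtain ⟨B, hB2, hB3, hB4, hB5, hB6, hB7⟩ : ∃ B : ℝ, 2 ≤ B ∧ C * (m + 1) / κ0 < B ∧
      2 / ω ≤ B ∧ 2 / (κ0 * ω) ≤ B ∧ E / (ω * C1 * κ0) ≤ B ∧ 2 * N / δ ≤ B := by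
    have a1 : 0 ≤ C * (m + 1) / κ0 := by positivity
    have a2 : 0 ≤ 2 / ω := by positivity
    have a3 : 0 ≤ 2 / (κ0 * ω) := by positivity
    have a4 : 0 ≤ E / (ω * C1 * κ0) := by positivity
    have a5 : 0 ≤ 2 * N / δ := by positivity
    exact ⟨2 + C * (m + 1) / κ0 + 2 / ω + 2 / (κ0 * ω) + E / (ω * C1 * κ0) + 2 * N / δ,
      by linarith, by linarith, by linarith, by linarith, by linarith, by linarith⟩
  have hB0 : 0 < B := by linarith
  refine ⟨B, fun K _ _ u H i1 hmax hLac hht F hF hdeg hl1 hvan => ?_⟩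
  have hD : (0 : ℝ) < finrank ℚ K := by exact_mod_cast Module.finrank_pos
  have hHpos : ∀ i, 0 < H i := fun i => hB0.trans_le (hLac.1 i)
  have hBH : ∀ i j, i ≠ j → H i ≤ H j → B * H i ≤ H j := by
    intro i j hij hle
    rcases hLac.2 i j hij with h | h
    · exact h
    · exfalso
      have := hHpos j
      nlinarith
  have hinj : Function.Injective H := by
    intro i j h
    by_contra hij
    have h1 := hBH i j hij h.le
    have := hHpos j
    rw [h] at h1
    nlinarith
  obtain ⟨e, he1, he2⟩ := exists_equiv m hm i1 H hinj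
  have hne : ∀ j, e (Sum.inl j) ≠ i1 := by
    intro j h
    rw [← he1] at h
    exact Sum.inl_ne_inr (e.injective h)
  have htop : ∀ j, B * H (e (Sum.inl j)) ≤ H i1 := fun j => hBH _ _ (hne j) (hmax _)
  have hlt : ∀ j j' : Fin m, j < j' → B * H (e (Sum.inl j')) ≤ H (e (Sum.inl j)) := fun j j' h =>
    hBH _ _ (fun h' => (he2 j j' h).ne (by rw [h'])) (he2 j j' h).le
  have hM := hHpos i1
  have hMB : B ≤ H i1 := hLac.1 i1
  have hMB1 : 1 ≤ H i1 / B := (one_le_div hB0).2 hMB
  set ρ : Fin m → ℝ := fun j => H i1 / H (e (Sum.inl j)) with hρ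
  have hρ1 : ∀ j, 1 ≤ ρ j := fun j => (one_le_div (hHpos _)).2 (hmax _)
  have hρ0 : ∀ j, 0 < ρ j := fun j => one_pos.trans_le (hρ1 j)
  have hρB : ∀ j, ρ j ≤ H i1 / B := fun j =>
    div_le_div_of_nonneg_left hM.le hB0 (hLac.1 _)
  have hρBB : ∀ j, B ≤ ρ j := fun j => (le_div_iff₀ (hHpos _)).2 (htop j)
  have hsum : ∑ i, H i1 / H i = ∑ j, ρ j + 1 := by
    rw [← e.sum_comp, Fintype.sum_sum_type]
    simp only [Finset.univ_unique, Fin.default_eq_zero, Fin.isValue, he1, div_self hM.ne',
      Finset.sum_singleton]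
    rfl
  have hsumle : ∑ i, H i1 / H i ≤ (m + 1) * (H i1 / B) := by
    rw [hsum]
    have h1 : ∑ j, ρ j ≤ m * (H i1 / B) := by
      calc ∑ j, ρ j ≤ ∑ _j : Fin m, H i1 / B := Finset.sum_le_sum fun j _ => hρB j
        _ = m * (H i1 / B) := by
          rw [Finset.sum_const, Finset.card_univ, Fintype.card_fin, nsmul_eq_mul]
    linarith
  -- the polynomial in the new variables
  set F' : MvPolynomial (Fin m ⊕ Fin 1) ℤ := rename e.symm F with hF'
  have hF'0 : F' ≠ 0 := by
    intro h
    apply hF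
    apply rename_injective _ e.symm.injective
    rw [← hF', h, map_zero]
  have hdeg' : ∀ x, degreeOf x F' = degreeOf (e x) F := by
    intro x
    have h1 := degreeOf_rename_of_injective (p := F) e.symm.injective (e x)
    rwa [e.symm_apply_apply] at h1
  have hl1' : l1 F' = l1 F := l1_rename e.symm.injective F
  have hvan' : ∀ κ : Fin m ⊕ Fin 1 →₀ ℕ, (∀ i, κ (Sum.inr i) = 0) →
      ∑ i, 1 / ρ i * κ (Sum.inl i) < δ → tc (fun x => u (e x)) F' κ = 0 := by
    intro κ hκ hκs
    rw [hF', tc_rename]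
    apply hvan
    intro i
    rw [Finsupp.mapDomain_equiv_apply]
    obtain ⟨x, rfl⟩ := e.surjective i
    rw [e.symm_apply_apply]
    rcases x with j | j
    · have h1 : 1 / ρ j * κ (Sum.inl j) ≤ ∑ i, 1 / ρ i * κ (Sum.inl i) :=
        Finset.single_le_sum (f := fun i => 1 / ρ i * (κ (Sum.inl i) : ℝ))
          (fun i _ => by have := hρ0 i; positivity) (Finset.mem_univ j)
      have h2 : 1 / ρ j * κ (Sum.inl j) ≤ δ := by linarith
      rw [one_div_mul_eq_div, div_le_iff₀ (hρ0 j)] at h2
      exact h2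
    · rw [hκ j]
      have := hHpos (e (Sum.inr j))
      push_cast
      positivity
  have hcases := hE m 1 F' (fun j => ⌊C * ρ j⌋₊) (fun _ => ⌊C⌋₊) hF'0
    (fun j => by
      apply Nat.le_floor
      rw [hdeg']
      exact hdeg _)
    (fun j => by
      apply Nat.le_floor
      rw [hdeg']
      have h1 := hdeg (e (Sum.inr j))
      rw [Subsingleton.elim j 0, he1, div_self hM.ne', mul_one] at h1
      rw [Subsingleton.elim j 0, he1]
      exact h1)
    K (fun x => u (e x)) (fun j => 1 / ρ j) δ (1 / B) (fun j => by have := hρ0 j; positivity)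
    (fun j => one_div_le_one_div_of_le hB0 (hρBB j)) (by positivity) hvan'
  have hprod : (∏ _i : Fin 1, (⌊C⌋₊ + 1)) = N := by simp [hN]
  rw [hprod] at hcases
  rcases hcases with h1 | ⟨W, hW0, hWdeg, hWl1, hWvan⟩
  · -- the first case
    obtain ⟨hc1, -, -, hc4, -⟩ := hcf m 1 F'
    obtain ⟨β, hβ⟩ := hc1 hF'0
    have h2 := h4 K (cf F' β) hβ (fun i => u (e (Sum.inr i))) 1 (by
      intro κ hκ
      have h3 : κ = 0 := by
        refine Finsupp.ext fun i => ?_
        rw [Subsingleton.elim i 0]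
        simpa using hκ
      rw [h3, tc_zero]
      exact h1 β)
    rw [Nat.cast_one, one_mul, he1] at h2
    have h3 : log (l1 (cf F' β)) ≤ log (l1 F) := by
      apply Real.log_le_log (one_pos.trans_le (one_le_l1 hβ))
      rw [← hl1']
      exact hc4 β
    have h5 : (finrank ℚ K : ℝ) * (κ0 * H i1) ≤
        finrank ℚ K * (C * ((m + 1) * (H i1 / B))) := by
      refine (hht i1).trans (h2.trans ?_)
      refine mul_le_mul_of_nonneg_left ?_ hD.le
      exact h3.trans (hl1.trans (mul_le_mul_of_nonneg_left hsumle hC.le))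
    have h6 : κ0 * H i1 ≤ C * ((m + 1) * (H i1 / B)) := le_of_mul_le_mul_left h5 hD
    have h7 : κ0 * B ≤ C * (m + 1) := by
      have h8 : C * ((m + 1) * (H i1 / B)) = (C * (m + 1) / B) * H i1 := by ring
      rw [h8] at h6
      have h9 := le_of_mul_le_mul_right h6 hM
      rwa [le_div_iff₀ hB0] at h9
    rw [div_lt_iff₀ hκ0] at hB3
    linarith
  · -- the second case
    set r : Fin m → ℕ := fun j => ⌈C1 * ρ j⌉₊ with hr
    have hr1 : ∀ j, C1 * ρ j ≤ r j := fun j => Nat.le_ceil _
    have hCρ : ∀ j, 1 ≤ C1 * ρ j := fun j => by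
      have := hρ1 j
      calc (1 : ℝ) = 1 * 1 := (one_mul 1).symm
        _ ≤ C1 * ρ j := mul_le_mul hC11 this zero_le_one hC1pos.le
    have hr2 : ∀ j, (r j : ℝ) ≤ 2 * (C1 * ρ j) := fun j => by
      have h1 := (Nat.ceil_lt_add_one (show 0 ≤ C1 * ρ j by linarith [hCρ j])).le
      have := hCρ j
      linarith
    have hr0 : ∀ j, 0 < r j := fun j => Nat.ceil_pos.2 (by linarith [hCρ j])
    set R : ℝ := C1 * (κ0 * H i1) with hRdef
    have hR0 : 0 < R := by positivity
    have hWl1' : l1 W ≤ exp (ω * R) := by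
      have hW1 := one_le_l1 hW0
      have hF1 := one_le_l1 hF
      rw [← Real.log_le_iff_le_exp (one_pos.trans_le hW1)]
      rw [hl1'] at hWl1
      have h1 : log (l1 W) ≤ log (N.factorial * (2 ^ (∑ j, ⌊C * ρ j⌋₊) * l1 F) ^ N) :=
        Real.log_le_log (one_pos.trans_le hW1) hWl1
      have hfac : (0 : ℝ) < N.factorial := by exact_mod_cast N.factorial_pos
      have h2 : log (N.factorial * (2 ^ (∑ j, ⌊C * ρ j⌋₊) * l1 F) ^ N) =
          log N.factorial + N * ((∑ j, ⌊C * ρ j⌋₊ : ℕ) * log 2 + log (l1 F)) := by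
        rw [Real.log_mul hfac.ne' (by positivity), Real.log_pow, Real.log_mul (by positivity)
          (by positivity), Real.log_pow]
      have h3 : ((∑ j, ⌊C * ρ j⌋₊ : ℕ) : ℝ) * log 2 ≤ C * ∑ j, ρ j := by
        have h4 : ((∑ j, ⌊C * ρ j⌋₊ : ℕ) : ℝ) ≤ C * ∑ j, ρ j := by
          push_cast
          rw [Finset.mul_sum]
          exact Finset.sum_le_sum fun j _ => Nat.floor_le (by have := hρ0 j; positivity)
        have h5 : log 2 ≤ 1 := by
          have := Real.log_two_lt_d9
          linarith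
        have h6 : (0 : ℝ) ≤ ((∑ j, ⌊C * ρ j⌋₊ : ℕ) : ℝ) := Nat.cast_nonneg _
        calc ((∑ j, ⌊C * ρ j⌋₊ : ℕ) : ℝ) * log 2 ≤ ((∑ j, ⌊C * ρ j⌋₊ : ℕ) : ℝ) * 1 :=
              mul_le_mul_of_nonneg_left h5 h6
          _ ≤ _ := by rw [mul_one]; exact h4
      have h7 : C * ∑ j, ρ j ≤ C * ((m + 1) * (H i1 / B)) := by
        refine mul_le_mul_of_nonneg_left ?_ hC.le
        rw [hsum] at hsumle
        linarith
      have h8 : log (l1 F) ≤ C * ((m + 1) * (H i1 / B)) :=
        hl1.trans (mul_le_mul_of_nonneg_left hsumle hC.le)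
      have h9 : (N : ℝ) * ((∑ j, ⌊C * ρ j⌋₊ : ℕ) * log 2 + log (l1 F)) ≤
          N * (2 * (C * ((m + 1) * (H i1 / B)))) :=
        mul_le_mul_of_nonneg_left (by linarith) (by linarith)
      have h10 : log (N.factorial : ℝ) ≤ log (N.factorial : ℝ) * (H i1 / B) := by
        have h11 : 0 ≤ log (N.factorial : ℝ) :=
          Real.log_nonneg (by exact_mod_cast N.factorial_pos)
        exact le_mul_of_one_le_right h11 hMB1
      have h12 : E * (H i1 / B) ≤ ω * R := by
        rw [div_le_iff₀ (by positivity)] at hB6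
        have h13 : E * (H i1 / B) = (E / B) * H i1 := by ring
        have h14 : E / B ≤ ω * C1 * κ0 := by
          rw [div_le_iff₀ hB0]
          linarith
        rw [h13, hRdef]
        calc E / B * H i1 ≤ ω * C1 * κ0 * H i1 := mul_le_mul_of_nonneg_right h14 hM.le
          _ = _ := by ring
      calc log (l1 W) ≤ log (N.factorial : ℝ) * (H i1 / B) +
            N * (2 * (C * ((m + 1) * (H i1 / B)))) := by linarith
        _ = E * (H i1 / B) := by rw [hEdef]; ring
        _ ≤ _ := h12
    obtain ⟨κ, hκ1, hκ2⟩ := hRω K r R hR0 hr0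
      (fun i j hij => by
        have h1 : ρ i ≤ ρ j / B := by
          rw [le_div_iff₀ hB0, hρ]
          simp only
          rw [div_mul_eq_mul_div, div_le_div_iff₀ (hHpos _) (hHpos _)]
          have h2 := hlt i j hij
          calc H i1 * B * H (e (Sum.inl j)) = H i1 * (B * H (e (Sum.inl j))) := by ring
            _ ≤ H i1 * H (e (Sum.inl i)) := mul_le_mul_of_nonneg_left h2 hM.le
        have h3 : 2 / B ≤ ω := by
          rw [div_le_iff₀ hω] at hB4
          rw [div_le_iff₀ hB0]
          linarith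
        calc (r i : ℝ) ≤ 2 * (C1 * ρ i) := hr2 i
          _ ≤ 2 * (C1 * (ρ j / B)) := by
            have := mul_le_mul_of_nonneg_left h1 hC1pos.le
            linarith
          _ = 2 / B * (C1 * ρ j) := by ring
          _ ≤ ω * (C1 * ρ j) := mul_le_mul_of_nonneg_right h3 (by linarith [hCρ j])
          _ ≤ ω * r j := mul_le_mul_of_nonneg_left (hr1 j) hω.le)
      (fun h => by
        have h3 : 2 / (κ0 * B) ≤ ω := by
          rw [div_le_iff₀ (by positivity)] at hB5
          rw [div_le_iff₀ (by positivity)]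
          linarith
        calc (r h : ℝ) ≤ 2 * (C1 * ρ h) := hr2 h
          _ ≤ 2 * (C1 * (H i1 / B)) := by
            have := mul_le_mul_of_nonneg_left (hρB h) hC1pos.le
            linarith
          _ = 2 / (κ0 * B) * R := by
            rw [hRdef]
            field_simp
          _ ≤ ω * R := mul_le_mul_of_nonneg_right h3 hR0.le)
      (fun j => u (e (Sum.inl j)))
      (fun h => by
        have h1 := hht (e (Sum.inl h))
        have h2 := hr1 h
        have h3 : C1 * ρ h * (finrank ℚ K * (κ0 * H (e (Sum.inl h)))) = finrank ℚ K * R := by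
          rw [hRdef, hρ]
          simp only
          have := (hHpos (e (Sum.inl h))).ne'
          field_simp
        rw [← h3]
        have h4 := hHpos (e (Sum.inl h))
        exact mul_le_mul h2 h1 (by positivity) (Nat.cast_nonneg _))
      W hW0
      (fun h => by
        have h1 := hWdeg h
        have h2 : ((N * ⌊C * ρ h⌋₊ : ℕ) : ℝ) ≤ r h := by
          push_cast
          have h3 := Nat.floor_le (show 0 ≤ C * ρ h by have := hρ0 h; positivity)
          calc (N : ℝ) * ⌊C * ρ h⌋₊ ≤ (C + 1) * (C * ρ h) :=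
                mul_le_mul hNC h3 (Nat.cast_nonneg _) (by linarith)
            _ ≤ C1 * ρ h := by
              rw [← mul_assoc]
              refine mul_le_mul_of_nonneg_right ?_ (hρ0 h).le
              rw [hC1]
              nlinarith
            _ ≤ r h := hr1 h
        exact h1.trans (by exact_mod_cast h2))
      hWl1'
    apply hκ2
    apply hWvan
    have h1 : ∑ i, 1 / ρ i * (κ i : ℝ) ≤ 2 * C1 * ∑ h, (κ h : ℝ) / r h := by
      rw [Finset.mul_sum]
      refine Finset.sum_le_sum fun i _ => ?_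
      have h2 := hρ0 i
      have h3 : (0 : ℝ) < r i := by exact_mod_cast hr0 i
      have h4 : 1 / ρ i ≤ 2 * C1 / r i := by
        rw [div_le_div_iff₀ h2 h3]
        linarith [hr2 i]
      calc 1 / ρ i * (κ i : ℝ) ≤ 2 * C1 / r i * κ i :=
            mul_le_mul_of_nonneg_right h4 (Nat.cast_nonneg _)
        _ = _ := by ring
    have h2 : 2 * C1 * ∑ h, (κ h : ℝ) / r h < δ / 2 := by
      have h3 := mul_lt_mul_of_pos_left hκ1 (show 0 < 2 * C1 by positivity)
      have h4 : 2 * C1 * (δ / (4 * C1)) = δ / 2 := by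
        field_simp
        norm_num
      rwa [h4] at h3
    have h3 : (N : ℝ) * (1 / B) ≤ δ / 2 := by
      rw [div_le_iff₀ hδ] at hB7
      rw [mul_one_div, div_le_iff₀ hB0]
      linarith
    linarith

end Pool.Agent.H883.ZR.IT
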