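import Pool.Agent.H883.ZR.Base3

set_option autoImplicit false
set_option linter.unusedSectionVars false

/-!
# Polynomials of high multiplicity, one large and two equal heights
-/

namespace Pool.Agent.H883.ZR.IT21

open Real NumberField Height Module Finset MvPolynomial
open Pool.Agent.H393R2.RothNS (TT DD l1)
open Pool.Agent.H883.ZR

lemma tc0 {σ K : Type} [Fintype σ] [Field K] (z : σ → K) (f : MvPolynomial σ ℤ) :
    tc z f 0 = aeval z f := by
  have h1 : ∀ f : MvPolynomial σ K, constantCoeff (TT z f) = aeval z f := by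
    intro f
    have : (constantCoeff : MvPolynomial σ K →+* K).comp (TT z).toRingHom =
        (aeval z : MvPolynomial σ K →ₐ[K] K).toRingHom := by
      apply MvPolynomial.ringHom_ext
      · intro r
        simp [TT]
      · intro i
        simp [TT]
    exact RingHom.congr_fun this f
  change constantCoeff (TT z (map (Int.castRingHom K) f)) = aeval z f
  rw [h1, aeval_def, aeval_def, eval₂_map]
  rfl

lemma l1_ge {σ : Type} (F : MvPolynomial σ ℤ) (hF : F ≠ 0) : 1 ≤ l1 F := by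
  obtain ⟨a, ha⟩ := MvPolynomial.support_nonempty.2 hF
  have h1 : (1 : ℝ) ≤ |((coeff a F : ℤ) : ℝ)| := by
    have h2 : coeff a F ≠ 0 := MvPolynomial.mem_support_iff.1 ha
    have h3 : (1 : ℤ) ≤ |coeff a F| := Int.one_le_abs h2
    exact_mod_cast h3
  exact h1.trans (Finset.single_le_sum (f := fun a => |((coeff a F : ℤ) : ℝ)|)
    (fun _ _ => abs_nonneg _) ha)

theorem it21 (hE : S_E) (hcf : S_cf) (h4 : S_4') (h6 : S_6) : S_IT21 := by
  intro C δ κ0 hC hδ hκ0
  set n1 : ℕ := ⌊C⌋₊ + 1 with hn1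
  have hn1C : (n1 : ℝ) ≤ C + 1 := by
    rw [hn1]
    push_cast
    have := Nat.floor_le hC.le
    linarith
  set Λ : ℝ := Real.log (n1.factorial) + 3 with hΛ
  have hlogf : 0 ≤ Real.log (n1.factorial : ℝ) :=
    Real.log_nonneg (by exact_mod_cast Nat.one_le_iff_ne_zero.2 n1.factorial_ne_zero)
  have hΛ0 : 0 < Λ := by rw [hΛ]; linarith
  set c' : ℝ := δ / (4 * (C + 1) ^ 2) with hc'
  have hc'0 : 0 < c' := by rw [hc']; positivity
  obtain ⟨G, B', hG, hS6⟩ := h6 c' Λ hc'0 hΛ0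
  refine ⟨G, max (max 1 (C / κ0 + 1)) (max (B' / κ0 + 1) (2 * (c' + n1) / δ)), hG, ?_⟩
  intro K _ _ u H0 H1 hB1 hB2 hh1 hh0 F hF hd1 hd2 hl hvan
  set B : ℝ := max (max 1 (C / κ0 + 1)) (max (B' / κ0 + 1) (2 * (c' + n1) / δ)) with hB
  have hB_1 : 1 ≤ B := (le_max_left _ _).trans (le_max_left _ _)
  have hB_2 : C / κ0 + 1 ≤ B := (le_max_right _ _).trans (le_max_left _ _)
  have hB_3 : B' / κ0 + 1 ≤ B := (le_max_left _ _).trans (le_max_right _ _)
  have hB_4 : 2 * (c' + n1) / δ ≤ B := (le_max_right _ _).trans (le_max_right _ _)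
  have hH1 : 0 < H1 := by linarith
  have hD : (0 : ℝ) < finrank ℚ K := by exact_mod_cast Module.finrank_pos
  set ρ : ℝ := H0 / H1 with hρ
  have hρB : B ≤ ρ := by rw [hρ, le_div_iff₀ hH1]; exact hB2
  have hρ1 : 1 ≤ ρ := hB_1.trans hρB
  have hρ0 : 0 < ρ := by linarith
  have hH0 : H0 = ρ * H1 := by rw [hρ]; field_simp
  have hl1F : 1 ≤ l1 F := l1_ge F hF
  have hprod : (∏ _i : Fin 1, (⌊C⌋₊ + 1)) = n1 := by simp [hn1]
  have hvan' : ∀ κ : Fin 2 ⊕ Fin 1 →₀ ℕ, (∀ i, κ (Sum.inr i) = 0) →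
      ∑ i : Fin 2, (fun _ : Fin 2 => (1 : ℝ)) i * κ (Sum.inl i) < δ * ρ → tc u F κ = 0 := by
    intro κ h1 h2
    refine hvan κ (h1 0) fun i => ?_
    have h3 : (κ (Sum.inl i) : ℝ) ≤ ∑ i : Fin 2, (fun _ : Fin 2 => (1 : ℝ)) i * κ (Sum.inl i) := by
      have h4 := Finset.single_le_sum (f := fun i : Fin 2 => (1 : ℝ) * (κ (Sum.inl i) : ℝ))
        (fun i _ => by positivity) (Finset.mem_univ i)
      simpa using h4
    exact (h3.trans_lt h2).le
  rcases hE 2 1 F (fun _ => ⌊C * ρ⌋₊) (fun _ => ⌊C⌋₊) hF (fun i => Nat.le_floor (hd1 i))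
    (fun i => Nat.le_floor (by
      have : i = 0 := Subsingleton.elim _ _
      rw [this]; exact hd2)) K u (fun _ => 1) (δ * ρ) 1 (fun _ => zero_le_one) (fun _ => le_rfl)
    zero_le_one hvan' with hcase | ⟨W, hW, hWd, hWl, hWv⟩
  · -- first case
    exfalso
    obtain ⟨hc1, hc2, hc3, hc4, hc5⟩ := hcf 2 1 F
    obtain ⟨β, hβ⟩ := hc1 hF
    have h5 := h4 K (cf F β) hβ (fun i => u (Sum.inr i)) 1 (by
      intro κ hκ
      have : κ = 0 := by
        refine Finsupp.ext fun i => ?_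
        have : i = 0 := Subsingleton.elim _ _
        rw [this]
        simpa using hκ
      rw [this, tc0]
      exact hcase β)
    rw [Nat.cast_one, one_mul] at h5
    have h6 : Real.log (l1 (cf F β)) ≤ C * ρ :=
      (Real.log_le_log (by linarith [l1_ge _ hβ]) (hc4 β)).trans hl
    have h7 : (finrank ℚ K : ℝ) * (κ0 * H0) ≤ finrank ℚ K * (C * ρ) :=
      (hh0.trans h5).trans (mul_le_mul_of_nonneg_left h6 hD.le)
    have h8 : κ0 * H0 ≤ C * ρ := le_of_mul_le_mul_left h7 hD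
    rw [hH0] at h8
    have h9 : κ0 * H1 ≤ C := by
      have : ρ * (κ0 * H1) ≤ ρ * C := by linarith
      exact le_of_mul_le_mul_left this hρ0
    have h10 : C / κ0 + 1 ≤ H1 := hB_2.trans hB1
    have h11 : C < κ0 * H1 := by
      have : κ0 * (C / κ0 + 1) ≤ κ0 * H1 := mul_le_mul_of_nonneg_left h10 hκ0.le
      have h12 : κ0 * (C / κ0 + 1) = C + κ0 := by field_simp
      linarith
    linarith
  · -- second case
    rw [hprod] at hWd hWl hWv
    set N : ℕ := ⌈(C + 1) ^ 2 * ρ⌉₊ with hN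
    have hN1 : (C + 1) ^ 2 * ρ ≤ N := Nat.le_ceil _
    have hN2 : (N : ℝ) ≤ (C + 1) ^ 2 * ρ + 1 := (Nat.ceil_lt_add_one (by positivity)).le
    have hNpos : 0 < N := Nat.ceil_pos.2 (by positivity)
    have hNge1 : (1 : ℝ) ≤ N := by exact_mod_cast hNpos
    have hfl : (⌊C * ρ⌋₊ : ℝ) ≤ C * ρ := Nat.floor_le (by positivity)
    have hn0 : (0 : ℝ) ≤ n1 := Nat.cast_nonneg _
    have hmain := hS6 K (fun i => u (Sum.inl i)) N W hW hNpos (by
      intro i
      have h1 : ((n1 * ⌊C * ρ⌋₊ : ℕ) : ℝ) ≤ (N : ℝ) := by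
        push_cast
        calc (n1 : ℝ) * ⌊C * ρ⌋₊ ≤ (C + 1) * (C * ρ) :=
              mul_le_mul hn1C hfl (Nat.cast_nonneg _) (by linarith)
          _ ≤ (C + 1) ^ 2 * ρ := by nlinarith [mul_pos hC hρ0]
          _ ≤ N := hN1
      exact (hWd i).trans (by exact_mod_cast h1)) (by
      have hpos2 : (0 : ℝ) < 2 ^ (∑ _i : Fin 2, ⌊C * ρ⌋₊) * l1 F := by positivity
      have hpos3 : (0 : ℝ) < (n1.factorial : ℝ) *
          (2 ^ (∑ _i : Fin 2, ⌊C * ρ⌋₊) * l1 F) ^ n1 := by positivity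
      refine hWl.trans ?_
      rw [← Real.exp_log hpos3]
      apply Real.exp_le_exp.2
      rw [Real.log_mul (by positivity) (by positivity), Real.log_pow,
        Real.log_mul (by positivity) (by positivity), Real.log_pow]
      have e1 : ((∑ _i : Fin 2, ⌊C * ρ⌋₊ : ℕ) : ℝ) ≤ 2 * (C * ρ) := by
        simp only [Finset.sum_const, Finset.card_univ, Fintype.card_fin, smul_eq_mul]
        push_cast
        linarith
      have e2 : Real.log 2 ≤ 1 := by
        have := Real.log_two_lt_d9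
        linarith
      have e2' : 0 ≤ Real.log 2 := Real.log_nonneg (by norm_num)
      have e3 : ((∑ _i : Fin 2, ⌊C * ρ⌋₊ : ℕ) : ℝ) * Real.log 2 ≤ 2 * (C * ρ) := by
        calc _ ≤ (2 * (C * ρ)) * 1 := mul_le_mul e1 e2 e2' (by positivity)
          _ = _ := mul_one _
      have e4 : ((∑ _i : Fin 2, ⌊C * ρ⌋₊ : ℕ) : ℝ) * Real.log 2 + Real.log (l1 F) ≤ 3 * (C * ρ) := by
        linarith
      have e5 : (n1 : ℝ) * (((∑ _i : Fin 2, ⌊C * ρ⌋₊ : ℕ) : ℝ) * Real.log 2 + Real.log (l1 F)) ≤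
          (C + 1) * (3 * (C * ρ)) := by
        calc _ ≤ (n1 : ℝ) * (3 * (C * ρ)) := mul_le_mul_of_nonneg_left e4 hn0
          _ ≤ _ := mul_le_mul_of_nonneg_right hn1C (by positivity)
      have e6 : (C + 1) * (3 * (C * ρ)) ≤ 3 * N := by nlinarith [mul_pos hC hρ0]
      have e7 : Real.log (n1.factorial : ℝ) ≤ Real.log (n1.factorial : ℝ) * N := by
        nlinarith
      rw [hΛ]
      linarith) (by
      intro κ hκ
      refine hWv κ ?_
      have h1 : ∑ i : Fin 2, (1 : ℝ) * κ i = κ 0 + κ 1 := by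
        simp [Fin.sum_univ_two]
      rw [h1, mul_one]
      refine hκ.trans_le ?_
      have h2 : c' * N ≤ c' * ((C + 1) ^ 2 * ρ + 1) := mul_le_mul_of_nonneg_left hN2 hc'0.le
      have h3 : c' * ((C + 1) ^ 2 * ρ + 1) = δ * ρ / 4 + c' := by
        rw [hc']; field_simp
      have h4 : 2 * (c' + n1) ≤ δ * ρ := by
        have := hB_4.trans hρB
        rw [div_le_iff₀ hδ] at this
        linarith
      have : 0 < δ * ρ := by positivity
      linarith)
    rcases hmain with h | ⟨i, hi⟩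
    · exact h
    · exfalso
      have h1 : (finrank ℚ K : ℝ) * (κ0 * H1) ≤ finrank ℚ K * B' := (hh1 i).trans hi
      have h2 : κ0 * H1 ≤ B' := le_of_mul_le_mul_left h1 hD
      have h10 : B' / κ0 + 1 ≤ H1 := hB_3.trans hB1
      have h11 : B' < κ0 * H1 := by
        have : κ0 * (B' / κ0 + 1) ≤ κ0 * H1 := mul_le_mul_of_nonneg_left h10 hκ0.le
        have h12 : κ0 * (B' / κ0 + 1) = B' + κ0 := by field_simp
        linarith
      linarith

end Pool.Agent.H883.ZR.IT21
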