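import Pool.Agent.H883.ZR.Base3
import Pool.Agent.H883.ZQ.Lines

set_option autoImplicit false
set_option linter.unusedSectionVars false

/-!
# Products of lines at points with lacunary heights
-/

namespace Pool.Agent.H883.ZR.LL

open Real NumberField Height Module
open Pool.Agent.H489ZP
open Pool.Agent.H883.ZQ
open Pool.Agent.H883.ZP (mon Codim relW finrank_relW log_mem_relW height_ext)

/-- the step for two coordinates -/
lemma step {B0 Cs N' hi hj pi pj : ℝ} (hCs : 0 ≤ Cs) (hi1 : max B0 0 + 2 * Cs + 2 < hi)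
    (hlow : hi ≤ pi + Cs) (hup : pj ≤ hj + Cs)
    (h : (2 * max N' 1 + 1) * pi ≤ pj) : N' * hi ≤ hj := by
  have h0 : 0 ≤ max B0 0 := le_max_right _ _
  have h1 : 1 ≤ max N' 1 := le_max_right _ _
  have h2 : N' ≤ max N' 1 := le_max_left _ _
  set m := max N' 1 with hm
  have h3 : N' * hi ≤ m * hi := mul_le_mul_of_nonneg_right h2 (by linarith)
  have h4 : (2 * m + 1) * (hi - Cs) ≤ (2 * m + 1) * pi :=
    mul_le_mul_of_nonneg_left (by linarith) (by linarith)
  have h5 : 0 ≤ (m + 1) * (hi - 2 * Cs) := mul_nonneg (by linarith) (by linarith)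
  nlinarith

theorem ll (h : S_NL) : S_LL := by
  classical
  intro K0 _ _ c a b ha hb B0
  let s0 : Fin c × Bool → K0 := fun r => if r.2 then b r.1 else a r.1
  have hs0 : ∀ r, s0 r ≠ 0 := by
    rintro ⟨i, x⟩
    cases x
    · exact ha i
    · exact hb i
  choose C hC using fun r => height_ext (s0 r)
  set Cs : ℝ := ∑ r, |C r| with hCs
  have hCs0 : 0 ≤ Cs := Finset.sum_nonneg fun _ _ => abs_nonneg _
  have hBs : ∀ (K : Type) [Field K] [NumberField K] [Algebra K0 K] (r : Fin c × Bool),
      logHeight₁ (algebraMap K0 K (s0 r)) ≤ finrank ℚ K * Cs := by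
    intro K _ _ _ r
    refine (hC r K).trans (mul_le_mul_of_nonneg_left ?_ (by positivity))
    exact (le_abs_self _).trans (Finset.single_le_sum (f := fun r => |C r|)
      (fun _ _ => abs_nonneg _) (Finset.mem_univ r))
  set k := Fintype.card (K0 →+* ℂ) with hk
  let eqv : (K0 →+* ℂ) ≃ Fin k := Fintype.equivFin _
  let P0 : Fin k → Fin c × Bool → ℝ := fun i r => log ‖(eqv.symm i) (s0 r)‖
  obtain ⟨G, hG0, ε, N', hε, hG⟩ := h (Fin c) Cs (max B0 0 + 2 * Cs + 2) k
  refine ⟨scaleG a G, scaleG_ne ha hG0, ε, 2 * max N' 1 + 1, hε, ?_⟩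
  intro K _ _ _ P g e hP hline hge hcod heε hcmp
  have hDpos : (0 : ℝ) < finrank ℚ K := finrank_pos'
  rw [aeval_scaleG]
  have ha' : ∀ i, algebraMap K0 K (a i) ≠ 0 := fun i => (map_ne_zero _).2 (ha i)
  have hb' : ∀ i, algebraMap K0 K (b i) ≠ 0 := fun i => (map_ne_zero _).2 (hb i)
  have hg : ∀ r, g r ≠ 0 := fun r h => hP r (by rw [hge, h, zero_mul])
  have he : ∀ r, e r ≠ 0 := fun r h => hP r (by rw [hge, h, mul_zero])
  have h1 : ∀ i, 1 - algebraMap K0 K (a i) * P (Sum.inl i) =
      algebraMap K0 K (b i) * P (Sum.inr i) := fun i => by rw [← hline i]; ring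
  have hfin : finrank ℝ ((relW g).map (qs c)) < c := by
    refine lt_of_le_of_lt (Submodule.finrank_map_le _ _) ?_
    have := finrank_relW hcod
    rw [Fintype.card_sum, Fintype.card_fin] at this
    omega
  have hU : ∀ r : Fin c × Bool, U (fun i => algebraMap K0 K (a i) * P (Sum.inl i)) r =
      algebraMap K0 K (s0 r) * P (swp r) := by
    rintro ⟨i, x⟩
    cases x
    · rfl
    · rw [U_true, h1]
      rfl
  have hmem : ∀ (v : K →*₀ ℝ), (∀ x, x ≠ 0 → 0 < v x) →
      lw v (fun i => algebraMap K0 K (a i) * P (Sum.inl i)) (fun r => algebraMap K0 K (s0 r))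
        (fun r => e (swp r)) ∈ (relW g).map (qs c) := by
    intro v hv
    refine Submodule.mem_map.2 ⟨fun l => Real.log (v (g l)), log_mem_relW v hv hg, ?_⟩
    funext r
    show Real.log (v (g (swp r))) = _
    unfold lw
    rw [hU, hge, map_mul, map_mul, Real.log_mul (hv _ ((map_ne_zero _).2 (hs0 r))).ne'
      (mul_pos (hv _ (hg _)) (hv _ (he _))).ne',
      Real.log_mul (hv _ (hg _)).ne' (hv _ (he _)).ne']
    ring
  have hta : ∀ i, ht (algebraMap K0 K (a i)) ≤ Cs := by
    intro i
    have := hBs K (i, false)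
    rw [logHeight_eq] at this
    exact le_of_mul_le_mul_left this hDpos
  refine hG K (fun i => algebraMap K0 K (a i) * P (Sum.inl i))
    (fun i => mul_ne_zero (ha' i) (hP _))
    (fun i => by rw [h1]; exact mul_ne_zero (hb' i) (hP _))
    (fun r => algebraMap K0 K (s0 r)) (fun r => e (swp r))
    (fun r => (map_ne_zero _).2 (hs0 r)) (fun r => he _) (hBs K) (fun r => ?_) P0 ?_
    ((relW g).map (qs c)) ?_ ?_ ?_ ?_
  · rw [logHeight_eq]
    exact mul_le_mul_of_nonneg_left (heε _) hDpos.le
  · intro σ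
    refine ⟨eqv (σ.comp (algebraMap K0 K)), fun r => ?_⟩
    show log ‖(eqv.symm (eqv (σ.comp (algebraMap K0 K)))) (s0 r)‖ = _
    rw [Equiv.symm_apply_apply]
    rfl
  · rw [Fintype.card_fin]
    exact hfin
  · intro σ
    exact hmem ⟨⟨fun x => ‖σ x‖, by simp⟩, by simp, fun x y => by simp⟩
      (fun x hx => norm_pos_iff.2 ((map_ne_zero σ).2 hx))
  · intro v
    exact hmem ⟨⟨fun x => v x, map_zero v⟩, map_one v, map_mul v⟩
      (fun x hx => FinitePlace.pos_iff.2 hx)
  · intro i j hij
    have hlow : ∀ i, ht (P (Sum.inl i)) ≤ ht (algebraMap K0 K (a i) * P (Sum.inl i)) + Cs := by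
      intro i
      have h2 : P (Sum.inl i) = (algebraMap K0 K (a i))⁻¹ *
          (algebraMap K0 K (a i) * P (Sum.inl i)) := by
        rw [inv_mul_cancel_left₀ (ha' i)]
      have h3 := ht_mul_le (algebraMap K0 K (a i))⁻¹ (algebraMap K0 K (a i) * P (Sum.inl i))
      rw [← h2, ht_inv] at h3
      have := hta i
      linarith
    have hup : ∀ i, ht (algebraMap K0 K (a i) * P (Sum.inl i)) ≤ ht (P (Sum.inl i)) + Cs := by
      intro i
      have h3 := ht_mul_le (algebraMap K0 K (a i)) (P (Sum.inl i))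
      have := hta i
      linarith
    show logHeight₁ (algebraMap K0 K (a i) * P (Sum.inl i)) ≤ _ ∨
      logHeight₁ (algebraMap K0 K (a j) * P (Sum.inl j)) ≤ _ ∨
      N' * logHeight₁ (algebraMap K0 K (a i) * P (Sum.inl i)) ≤
        logHeight₁ (algebraMap K0 K (a j) * P (Sum.inl j)) ∨
      N' * logHeight₁ (algebraMap K0 K (a j) * P (Sum.inl j)) ≤
        logHeight₁ (algebraMap K0 K (a i) * P (Sum.inl i))
    rw [logHeight_eq, logHeight_eq (algebraMap K0 K (a j) * P (Sum.inl j))]
    have hi1 := hlow i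
    have hi2 := hup i
    have hj1 := hlow j
    have hj2 := hup j
    set hi := ht (algebraMap K0 K (a i) * P (Sum.inl i)) with hhi
    set hj := ht (algebraMap K0 K (a j) * P (Sum.inl j)) with hhj
    have hB0 : B0 ≤ max B0 0 := le_max_left _ _
    by_cases hbi : hi ≤ max B0 0 + 2 * Cs + 2
    · left
      exact mul_le_mul_of_nonneg_left hbi hDpos.le
    · by_cases hbj : hj ≤ max B0 0 + 2 * Cs + 2
      · right; left
        exact mul_le_mul_of_nonneg_left hbj hDpos.le
      · rw [not_le] at hbi hbj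
        right; right
        rcases hcmp i j hij with h | h | h | h
        · exfalso; linarith
        · exfalso; linarith
        · left
          have h2 := step hCs0 hbi hi2 hj1 h
          calc N' * (finrank ℚ K * hi) = finrank ℚ K * (N' * hi) := by ring
            _ ≤ finrank ℚ K * hj := mul_le_mul_of_nonneg_left h2 hDpos.le
        · right
          have h2 := step hCs0 hbj hj2 hi1 h
          calc N' * (finrank ℚ K * hj) = finrank ℚ K * (N' * hj) := by ring
            _ ≤ finrank ℚ K * hi := mul_le_mul_of_nonneg_left h2 hDpos.le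

end Pool.Agent.H883.ZR.LL
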