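import Pool.Agent.H883.ZR.Base2

set_option autoImplicit false
set_option linter.unusedSectionVars false

/-!
# Elimination at a point of high vanishing order
-/

namespace Pool.Agent.H883.ZR.SE

open MvPolynomial
open Pool.Agent.H393R2.RothNS (TT DD l1)

theorem l1_rename {σ τ : Type} [Fintype σ] [Fintype τ] {e : σ → τ} (he : Function.Injective e)
    (P : MvPolynomial σ ℤ) : l1 (rename e P) = l1 P := by
  classical
  unfold l1
  rw [support_rename_of_injective he, Finset.sum_image (Finsupp.mapDomain_injective he).injOn]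
  refine Finset.sum_congr rfl fun α _ => ?_
  rw [coeff_rename_mapDomain e he]

theorem one_le_l1 {σ : Type} [Fintype σ] {P : MvPolynomial σ ℤ} (hP : P ≠ 0) : 1 ≤ l1 P := by
  obtain ⟨α, hα⟩ := MvPolynomial.ne_zero_iff.1 hP
  have h1 : (1 : ℝ) ≤ |((coeff α P : ℤ) : ℝ)| := by
    exact_mod_cast Int.one_le_abs hα
  refine h1.trans ?_
  unfold l1
  exact Finset.single_le_sum (f := fun a => |((coeff a P : ℤ) : ℝ)|) (fun _ _ => abs_nonneg _)
    (mem_support_iff.2 hα)

/-- the exponent of a point of the box -/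
noncomputable def ex {a : ℕ} {Nt : Fin a → ℕ} (γ : (i : Fin a) → Fin (Nt i + 1)) : Fin a →₀ ℕ :=
  Finsupp.equivFunOnFinite.symm fun i => (γ i : ℕ)

theorem ex_apply {a : ℕ} {Nt : Fin a → ℕ} (γ : (i : Fin a) → Fin (Nt i + 1)) (i : Fin a) :
    ex γ i = γ i := rfl

theorem ex_inj {a : ℕ} {Nt : Fin a → ℕ} :
    Function.Injective (ex : ((i : Fin a) → Fin (Nt i + 1)) → Fin a →₀ ℕ) := by
  intro γ γ' h
  funext i
  apply Fin.ext
  rw [← ex_apply, ← ex_apply, h]

theorem ex_surj {a : ℕ} {Nt : Fin a → ℕ} (δ : Fin a →₀ ℕ) (h : ∀ i, δ i ≤ Nt i) :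
    ∃ γ : (i : Fin a) → Fin (Nt i + 1), ex γ = δ := by
  refine ⟨fun i => ⟨δ i, Nat.lt_succ_of_le (h i)⟩, ?_⟩
  ext i
  rfl

/-- the value of a polynomial as a sum over the box -/
theorem aeval_box {a : ℕ} {Nt : Fin a → ℕ} {K : Type} [Field K] (G : MvPolynomial (Fin a) ℤ)
    (hG : ∀ i, degreeOf i G ≤ Nt i) (x : Fin a → K) :
    aeval x G = ∑ γ : (i : Fin a) → Fin (Nt i + 1), (∏ i, x i ^ (γ i : ℕ)) *
      ((coeff (ex γ) G : ℤ) : K) := by
  classical
  rw [aeval_def, eval₂_eq']
  have h1 : ∑ γ : (i : Fin a) → Fin (Nt i + 1), (∏ i, x i ^ (γ i : ℕ)) *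
      ((coeff (ex γ) G : ℤ) : K) =
      ∑ d ∈ Finset.univ.image (ex : ((i : Fin a) → Fin (Nt i + 1)) → Fin a →₀ ℕ),
        (algebraMap ℤ K) (coeff d G) * ∏ i, x i ^ d i := by
    rw [Finset.sum_image ex_inj.injOn]
    refine Finset.sum_congr rfl fun γ _ => ?_
    rw [mul_comm]
    rfl
  rw [h1]
  refine Finset.sum_subset ?_ ?_
  · intro d hd
    obtain ⟨γ, hγ⟩ := ex_surj (Nt := Nt) d fun i => (monomial_le_degreeOf i hd).trans (hG i)
    exact Finset.mem_image.2 ⟨γ, Finset.mem_univ _, hγ⟩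
  · intro d _ hd
    rw [notMem_support_iff] at hd
    rw [hd, map_zero, zero_mul]

section

variable {m a : ℕ} {K : Type} [Field K]

/-- evaluation of the second group of variables -/
noncomputable def Th (u : Fin m ⊕ Fin a → K) :
    MvPolynomial (Fin m ⊕ Fin a) K →ₐ[K] MvPolynomial (Fin m) K :=
  aeval (Sum.elim X fun i => C (u (Sum.inr i)))

/-- the second group of variables is put to `0` -/
noncomputable def T0 (m a : ℕ) (K : Type) [Field K] :
    MvPolynomial (Fin m ⊕ Fin a) K →ₐ[K] MvPolynomial (Fin m) K :=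
  aeval (Sum.elim X fun _ => 0)

theorem TT_Th (u : Fin m ⊕ Fin a → K) (P : MvPolynomial (Fin m ⊕ Fin a) K) :
    TT (fun i => u (Sum.inl i)) (Th u P) = T0 m a K (TT u P) := by
  have h : (TT (fun i => u (Sum.inl i))).comp (Th u) = (T0 m a K).comp (TT u) := by
    apply MvPolynomial.algHom_ext
    rintro (i | i)
    · simp [TT, Th, T0]
    · simp [TT, Th, T0]
  exact congrArg (fun φ => φ P) h

theorem coeff_T0 (κ : Fin m →₀ ℕ) (P : MvPolynomial (Fin m ⊕ Fin a) K) :
    coeff κ (T0 m a K P) = coeff (Finsupp.sumElim κ 0) P := by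
  classical
  induction P using MvPolynomial.induction_on' with
  | monomial α c =>
    unfold T0
    rw [aeval_monomial, Finsupp.prod_fintype _ _ (fun i => pow_zero _), Fintype.prod_sum_type]
    simp only [Sum.elim_inl, Sum.elim_inr]
    rw [coeff_monomial]
    by_cases h0 : ∀ i, α (Sum.inr i) = 0
    · have h1 : ∏ i : Fin a, (0 : MvPolynomial (Fin m) K) ^ α (Sum.inr i) = 1 :=
        Finset.prod_eq_one fun i _ => by rw [h0 i, pow_zero]
      rw [h1, mul_one]
      have h2 : (algebraMap K (MvPolynomial (Fin m) K)) c *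
          ∏ i : Fin m, (X i : MvPolynomial (Fin m) K) ^ α (Sum.inl i) =
          monomial (Finsupp.equivFunOnFinite.symm fun i => α (Sum.inl i)) c := by
        rw [monomial_eq, Finsupp.prod_fintype _ _ (fun i => pow_zero _)]
        rfl
      rw [h2, coeff_monomial]
      by_cases h3 : α = Finsupp.sumElim κ 0
      · rw [if_pos h3, if_pos]
        ext i
        rw [h3]
        rfl
      · rw [if_neg h3, if_neg]
        intro h4
        apply h3
        ext (i | i)
        · rw [Finsupp.sumElim_inl, ← h4]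
          rfl
        · rw [Finsupp.sumElim_inr, h0 i]
          rfl
    · push Not at h0
      obtain ⟨i, hi⟩ := h0
      have h1 : ∏ i : Fin a, (0 : MvPolynomial (Fin m) K) ^ α (Sum.inr i) = 0 :=
        Finset.prod_eq_zero (Finset.mem_univ i) (zero_pow hi)
      rw [h1, mul_zero, mul_zero, coeff_zero, if_neg]
      intro h4
      apply hi
      rw [h4, Finsupp.sumElim_inr]
      rfl
  | add p q hp hq => rw [map_add, coeff_add, coeff_add, hp, hq]

theorem Th_eq (u : Fin m ⊕ Fin a → K) (F : MvPolynomial (Fin m ⊕ Fin a) ℤ) :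
    Th u (map (Int.castRingHom K) F) =
      map (aeval (R := ℤ) (fun i => u (Sum.inr i)) : MvPolynomial (Fin a) ℤ →ₐ[ℤ] K).toRingHom
        (sumAlgEquiv ℤ (Fin m) (Fin a) F) := by
  induction F using MvPolynomial.induction_on with
  | C c => simp
  | add p q hp hq => rw [map_add, map_add, map_add, map_add, hp, hq]
  | mul_X p i hp =>
    rw [map_mul, map_mul, map_mul, map_mul, hp]
    congr 1
    rcases i with i | i
    · simp [Th]
    · simp [Th]

theorem coeff_Th (u : Fin m ⊕ Fin a → K) (F : MvPolynomial (Fin m ⊕ Fin a) ℤ) (β : Fin m →₀ ℕ) :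
    coeff β (Th u (map (Int.castRingHom K) F)) = aeval (fun i => u (Sum.inr i)) (cf F β) := by
  rw [Th_eq, coeff_map]
  rfl

end

theorem se (hz : S_Z) (hcf : S_cf) : S_E := by
  intro m a F Nl Nt hF hNl hNt K _ _ u w c w1 hw0 hw1 hw1' hvan
  classical
  let Jt : Type := (i : Fin a) → Fin (Nt i + 1)
  have hcard : Fintype.card Jt = ∏ i, (Nt i + 1) := by
    show Fintype.card ((i : Fin a) → Fin (Nt i + 1)) = ∏ i, (Nt i + 1)
    rw [Fintype.card_pi]
    simp
  have hswap : Function.Injective (Sum.swap : Fin m ⊕ Fin a → Fin a ⊕ Fin m) :=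
    Sum.swap_leftInverse.injective
  set F' : MvPolynomial (Fin a ⊕ Fin m) ℤ := rename Sum.swap F with hF'
  let B : Jt → MvPolynomial (Fin m) ℤ := fun γ => cf F' (ex γ)
  have hBc : ∀ (γ : Jt) (β : Fin m →₀ ℕ), coeff β (B γ) = coeff (Finsupp.sumElim β (ex γ)) F := by
    intro γ β
    show coeff β (cf F' (ex γ)) = _
    rw [(hcf a m F').2.1, ← coeff_rename_mapDomain Sum.swap hswap F]
    congr 1
    ext (i | i)
    · rw [Finsupp.sumElim_inl]
      have h1 := Finsupp.mapDomain_apply hswap (Finsupp.sumElim β (ex γ)) (Sum.inr i)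
      rw [Sum.swap_inr, Finsupp.sumElim_inr] at h1
      exact h1.symm
    · rw [Finsupp.sumElim_inr]
      have h1 := Finsupp.mapDomain_apply hswap (Finsupp.sumElim β (ex γ)) (Sum.inl i)
      rw [Sum.swap_inl, Finsupp.sumElim_inl] at h1
      exact h1.symm
  have hBdeg : ∀ γ i, degreeOf i (B γ) ≤ Nl i := by
    intro γ i
    refine ((hcf a m F').2.2.1 (ex γ) i).trans ?_
    have h1 := degreeOf_rename_of_injective (p := F) hswap (Sum.inl i)
    rw [Sum.swap_inl] at h1
    rw [hF', h1]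
    exact hNl i
  have hBl : ∀ γ, l1 (B γ) ≤ l1 F := by
    intro γ
    refine ((hcf a m F').2.2.2.1 (ex γ)).trans (le_of_eq ?_)
    rw [hF']
    exact l1_rename hswap F
  have hBne : ∃ γ, B γ ≠ 0 := by
    obtain ⟨α, hα⟩ := MvPolynomial.ne_zero_iff.1 hF
    have hsup : α ∈ F.support := mem_support_iff.2 hα
    obtain ⟨γ, hγ⟩ := ex_surj (Nt := Nt)
      (Finsupp.equivFunOnFinite.symm fun i => α (Sum.inr i))
      (fun i => (monomial_le_degreeOf (Sum.inr i) hsup).trans (hNt i))
    refine ⟨γ, MvPolynomial.ne_zero_iff.2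
      ⟨Finsupp.equivFunOnFinite.symm fun i => α (Sum.inl i), ?_⟩⟩
    rw [hBc, hγ]
    have h1 : Finsupp.sumElim (Finsupp.equivFunOnFinite.symm fun i => α (Sum.inl i))
        (Finsupp.equivFunOnFinite.symm fun i => α (Sum.inr i)) = α := by
      ext (i | i)
      · rfl
      · rfl
    rw [h1]
    exact hα
  obtain ⟨W, hW0, hW1, hW2⟩ := hz m Jt B hBne
  obtain ⟨hWd, hWl⟩ := hW1 Nl hBdeg
  -- the polynomial `f`
  set A : Jt → K := fun γ => ∏ i, u (Sum.inr i) ^ (γ i : ℕ) with hA
  have hf : ∑ γ, A γ • map (Int.castRingHom K) (B γ) = Th u (map (Int.castRingHom K) F) := by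
    ext β
    rw [coeff_Th, aeval_box (Nt := Nt) (cf F β)
      (fun i => ((hcf m a F).2.2.1 β i).trans (hNt i)), coeff_sum]
    refine Finset.sum_congr rfl fun γ _ => ?_
    rw [coeff_smul, coeff_map, hBc, smul_eq_mul, (hcf m a F).2.1]
    rfl
  by_cases hf0 : ∑ γ, A γ • map (Int.castRingHom K) (B γ) = 0
  · left
    intro β
    rw [← coeff_Th, ← hf, hf0, coeff_zero]
  · right
    refine ⟨W, hW0, ?_, ?_, ?_⟩
    · intro i
      rw [← hcard]
      exact hWd i
    · rw [← hcard]
      exact hWl (l1 F) (one_le_l1 hF) hBl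
    · have h1 := hW2 K (fun i => u (Sum.inl i)) A w c w1 hw0 hw1 hw1' hf0 (by
        intro κ hκ
        rw [hf, TT_Th, coeff_T0]
        exact hvan (Finsupp.sumElim κ 0) (fun i => rfl) hκ)
      rw [hcard] at h1
      exact h1

end Pool.Agent.H883.ZR.SE
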