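import Pool.Agent.H883.ZR.Base3
import Pool.Agent.H883.ZR.SE

set_option autoImplicit false
set_option linter.unusedSectionVars false

/-!
# P12: two large comparable heights and a smaller one
-/

namespace Pool.Agent.H883.ZR.P12

open Real NumberField Height Module Finset MvPolynomial
open Pool.Agent.H489ZP
open Pool.Agent.H393R2.RothNS (TT DD l1)
open Pool.Agent.H883.ZQ
open Pool.Agent.H883.ZR.SE (l1_rename one_le_l1)

/-! ### Preparations -/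

theorem tc_zero {σ K : Type} [Fintype σ] [Field K] (z : σ → K) (f : MvPolynomial σ ℤ) :
    tc z f 0 = aeval z f := by
  unfold tc
  rw [← MvPolynomial.constantCoeff_eq]
  have h1 : ∀ F : MvPolynomial σ K, constantCoeff (TT z F) = eval z F := by
    intro F
    have h : (constantCoeff : MvPolynomial σ K →+* K).comp
        ((TT z : MvPolynomial σ K →ₐ[K] MvPolynomial σ K) :
          MvPolynomial σ K →+* MvPolynomial σ K) = eval z := by
      apply MvPolynomial.ringHom_ext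
      · intro r
        simp only [RingHom.comp_apply, RingHom.coe_coe]
        unfold TT
        rw [← MvPolynomial.algebraMap_eq, AlgHom.commutes, MvPolynomial.algebraMap_eq,
          constantCoeff_C, eval_C]
      · intro i
        simp only [RingHom.comp_apply, RingHom.coe_coe]
        unfold TT
        rw [aeval_X, map_add, constantCoeff_X, constantCoeff_C, eval_X, zero_add]
    exact congrArg (fun φ : MvPolynomial σ K →+* K => φ F) h
  rw [h1, eval_map, aeval_def]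
  rfl

/-- polynomials in one of the two variables -/
theorem onevar (h4 : S_4') {K : Type} [Field K] [NumberField K] (z : Fin 2 → K)
    (g : MvPolynomial (Fin 2) ℤ) (hg : g ≠ 0) (i : Fin 2) (h0 : degreeOf i g = 0)
    (hz : aeval z g = 0) : ∃ i', logHeight₁ (z i') ≤ finrank ℚ K * Real.log (l1 g) := by
  classical
  obtain ⟨i', hi'⟩ : ∃ i' : Fin 2, ∀ j, j ≠ i → j = i' := by
    fin_cases i
    · refine ⟨1, fun j hj => ?_⟩
      fin_cases j
      · exact absurd rfl hj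
      · rfl
    · refine ⟨0, fun j hj => ?_⟩
      fin_cases j
      · rfl
      · exact absurd rfl hj
  have hinj : Function.Injective (fun _ : Fin 1 => i') := fun a b _ => Subsingleton.elim a b
  have hv : (↑g.vars : Set (Fin 2)) ⊆ Set.range (fun _ : Fin 1 => i') := by
    intro j hj
    refine ⟨0, (hi' j ?_).symm⟩
    rintro rfl
    have h1 : j ∈ g.vars := hj
    rw [vars_def, Multiset.mem_toFinset] at h1
    rw [degreeOf_def, Multiset.count_eq_zero] at h0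
    exact h0 h1
  obtain ⟨V, hV⟩ := exists_rename_eq_of_vars_subset_range g (fun _ : Fin 1 => i') hinj hv
  have hV0 : V ≠ 0 := by
    rintro rfl
    rw [map_zero] at hV
    exact hg hV.symm
  refine ⟨i', ?_⟩
  have h5 := h4 K V hV0 (fun _ => z i') 1 (by
    intro κ hκ
    have hκ0 : κ = 0 := by
      refine Finsupp.ext fun j => ?_
      rw [Subsingleton.elim j 0]
      show κ 0 = 0
      omega
    rw [hκ0, tc_zero]
    rw [← hV, aeval_rename] at hz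
    exact hz)
  rw [Nat.cast_one, one_mul, ← l1_rename hinj V, hV] at h5
  exact h5

theorem contra {D κ0 E H0 H2 X : ℝ} (hD : 0 < D) (hκ : 0 < κ0) (hH0 : 0 < H0) (hH2 : 0 < H2)
    (h1 : D * (κ0 * H0) ≤ X) (h2 : X ≤ D * (E * (H0 / H2))) (h3 : E / κ0 < H2) : False := by
  have h4 : D * (κ0 * H0) ≤ D * (E * (H0 / H2)) := h1.trans h2
  have h5 : κ0 * H0 ≤ E * (H0 / H2) := le_of_mul_le_mul_left h4 hD
  have h6 : E * (H0 / H2) = E / H2 * H0 := by field_simp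
  rw [h6] at h5
  have h7 : κ0 ≤ E / H2 := le_of_mul_le_mul_right h5 hH0
  rw [le_div_iff₀ hH2] at h7
  rw [div_lt_iff₀ hκ] at h3
  linarith

theorem lb {J : Type} [Finite J] (δ : J → ℝ) (h : ∀ j, 0 < δ j) : ∃ d : ℝ, 0 < d ∧ ∀ j, d ≤ δ j := by
  rcases isEmpty_or_nonempty J with hJ | hJ
  · exact ⟨1, one_pos, fun j => hJ.elim j⟩
  · obtain ⟨j0, hj0⟩ := Finite.exists_min δ
    exact ⟨δ j0, h j0, hj0⟩

theorem ub {J : Type} [Finite J] (C : J → ℝ) : ∃ c : ℝ, 1 ≤ c ∧ ∀ j, C j ≤ c := by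
  obtain ⟨c, hc⟩ := (Set.finite_range C).bddAbove
  exact ⟨max 1 c, le_max_left _ _, fun j => (hc ⟨j, rfl⟩).trans (le_max_right _ _)⟩

theorem nearW_mono {I : Type} [Fintype I] [DecidableEq I] {K : Type} [Field K] [NumberField K]
    {d : ℕ} {u : I → K} {ξ : I × Bool → Fin d → ℝ} {H : I → ℝ}
    {t : AbsoluteValue K ℝ → Fin d → ℝ} {err : AbsoluteValue K ℝ → ℝ} {η η' : ℝ}
    (h : NearW u ξ H t err η) (hη : η ≤ η') : NearW u ξ H t err η' :=
  ⟨h.inf, h.fin, fun T => (h.tot T).trans (mul_le_mul_of_nonneg_right hη (Nat.cast_nonneg _))⟩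

/-! ### Transport of the section -/

theorem rk_tr {I I' : Type} [Fintype I] [DecidableEq I] [Fintype I'] [DecidableEq I'] {d : ℕ}
    (e : I ≃ I') (ξ : I × Bool → Fin d → ℝ) (T : Finset I) (T' : Finset I')
    (h : ∀ i, i ∈ T ↔ e i ∈ T') : rk (fun r : I' × Bool => ξ (e.symm r.1, r.2)) T' = rk ξ T := by
  unfold rk
  have hs : (fun r : I' × Bool => ξ (e.symm r.1, r.2)) '' (ov T' : Set (I' × Bool)) =
      ξ '' (ov T : Set (I × Bool)) := by
    ext v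
    constructor
    · rintro ⟨r, hr, rfl⟩
      refine ⟨(e.symm r.1, r.2), ?_, rfl⟩
      have hr' : r.1 ∈ T' := mem_ov.1 (Finset.mem_coe.1 hr)
      rw [Finset.mem_coe, mem_ov, h]
      show e (e.symm r.1) ∈ T'
      rw [Equiv.apply_symm_apply]
      exact hr'
    · rintro ⟨r, hr, rfl⟩
      refine ⟨(e r.1, r.2), ?_, ?_⟩
      · have hr' : r.1 ∈ T := mem_ov.1 (Finset.mem_coe.1 hr)
        rw [Finset.mem_coe, mem_ov]
        exact (h _).1 hr'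
      · show ξ (e.symm (e r.1), r.2) = ξ r
        rw [Equiv.symm_apply_apply]
  rw [hs]

theorem rel_tr {I I' : Type} [Fintype I] [DecidableEq I] [Fintype I'] [DecidableEq I'] {d : ℕ}
    (e : I ≃ I') (ξ : I × Bool → Fin d → ℝ) {a : I' × Bool → ℝ}
    (ha : a ∈ rel (fun r : I' × Bool => ξ (e.symm r.1, r.2))) :
    (fun r : I × Bool => a (e r.1, r.2)) ∈ rel ξ := by
  rw [mem_rel] at ha ⊢
  rw [← ha]
  refine Fintype.sum_equiv (e.prodCongr (Equiv.refl Bool)) _ _ fun r => ?_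
  show a (e r.1, r.2) • ξ r = a (e r.1, r.2) • ξ (e.symm (e r.1), r.2)
  rw [Equiv.symm_apply_apply]

/-- the equivalence -/
def eqv : (Fin 1 ⊕ Fin 2) ≃ Fin 3 where
  toFun := Sum.elim (fun _ => 2) (fun i => if i = 0 then 0 else 1)
  invFun := fun i => if i = 0 then Sum.inr 0 else if i = 1 then Sum.inr 1 else Sum.inl 0
  left_inv := by decide
  right_inv := by decide

theorem section12 (h9b : S_9b) (ξ : (Fin 1 ⊕ Fin 2) × Bool → Fin 3 → ℝ)
    (h3 : rk ξ Finset.univ = 3) (h01 : rk ξ {Sum.inr 0, Sum.inr 1} = 3)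
    (h2 : rk ξ {Sum.inl 0} = 2) (q : Bool → Bool → ℝ) :
    ∃ (e0 b : Bool) (a1 a2 : (Fin 1 ⊕ Fin 2) × Bool → ℝ), a1 ∈ rel ξ ∧ a2 ∈ rel ξ ∧
      a1 (Sum.inr 0, e0) + ∑ b', q e0 b' * a1 (Sum.inr 1, b') = 1 ∧ a1 (Sum.inl 0, b) = 0 ∧
      a2 (Sum.inr 0, e0) + ∑ b', q e0 b' * a2 (Sum.inr 1, b') = 0 ∧ a2 (Sum.inl 0, b) = 1 := by
  obtain ⟨e0, b, a1, a2, r1, r2, p1, p2, p3, p4⟩ :=
    h9b (fun r : Fin 3 × Bool => ξ (eqv.symm r.1, r.2))
      (by rw [rk_tr eqv ξ Finset.univ Finset.univ (by decide)]; exact h3)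
      (by rw [rk_tr eqv ξ {Sum.inr 0, Sum.inr 1} {0, 1} (by decide)]; exact h01)
      (by rw [rk_tr eqv ξ {Sum.inl 0} {2} (by decide)]; exact h2) q
  exact ⟨e0, b, _, _, rel_tr eqv ξ r1, rel_tr eqv ξ r2, p1, p2, p3, p4⟩

/-! ### Elimination of the small coordinate -/

theorem elimtop (hE : S_E) (h4 : S_4') (C δ κ0 : ℝ) (hC : 1 ≤ C) (hδ : 0 < δ)
    (hκ0 : 0 < κ0) :
    ∃ B : ℝ, 1 ≤ B ∧ ∀ (K : Type) [Field K] [NumberField K] (u : Fin 1 ⊕ Fin 2 → K) (H0 H2 : ℝ),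
      B ≤ H2 → B * H2 ≤ H0 → finrank ℚ K * (κ0 * H2) ≤ logHeight₁ (u (Sum.inl 0)) →
      ∀ F : MvPolynomial (Fin 1 ⊕ Fin 2) ℤ, F ≠ 0 →
        (degreeOf (Sum.inl 0) F : ℝ) ≤ C * (H0 / H2) →
        (∀ i, (degreeOf (Sum.inr i) F : ℝ) ≤ C) → Real.log (l1 F) ≤ C * (H0 / H2) →
        (∀ κ : Fin 1 ⊕ Fin 2 →₀ ℕ, (∀ i, κ (Sum.inr i) = 0) →
          (κ (Sum.inl 0) : ℝ) ≤ δ * (H0 / H2) → tc u F κ = 0) →
        ∀ β, aeval (fun i => u (Sum.inr i)) (cf F β) = 0 := by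
  set P : ℕ := ∏ _i : Fin 2, (⌊C⌋₊ + 1) with hP
  set E : ℝ := Real.log (P.factorial : ℝ) + P * (C + C) with hEdef
  have hlogf : 0 ≤ Real.log (P.factorial : ℝ) :=
    Real.log_nonneg (by exact_mod_cast Nat.factorial_pos P)
  have hP0 : (0 : ℝ) ≤ P := Nat.cast_nonneg _
  have hE0 : 0 ≤ E := by positivity
  refine ⟨1 + (2 * P + 4) / δ + 4 * E / (δ * κ0), ?_, ?_⟩
  · have : 0 ≤ (2 * P + 4) / δ := by positivity
    have : 0 ≤ 4 * E / (δ * κ0) := by positivity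
    linarith
  intro K _ _ u H0 H2 hB hBH hlow F hF hd1 hd2 hl htc
  have hq1 : 0 ≤ (2 * P + 4) / δ := by positivity
  have hq2 : 0 ≤ 4 * E / (δ * κ0) := by positivity
  have hH2 : 0 < H2 := by linarith
  set ρ : ℝ := H0 / H2 with hρ
  have hρB : 1 + (2 * P + 4) / δ + 4 * E / (δ * κ0) ≤ ρ := by
    rw [hρ, le_div_iff₀ hH2]
    exact hBH
  have hρ1 : 1 ≤ ρ := by linarith
  have hδρ : 2 * P + 4 ≤ δ * ρ := by
    have h1 : (2 * P + 4) / δ ≤ ρ := by linarith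
    rw [div_le_iff₀ hδ] at h1
    linarith
  rcases hE 1 2 F (fun _ => ⌊C * ρ⌋₊) (fun _ => ⌊C⌋₊) hF
    (by intro i; rw [Subsingleton.elim i 0]; exact Nat.le_floor hd1)
    (fun i => Nat.le_floor (hd2 i)) K u (fun _ => 1) (δ * ρ) 1 (fun _ => zero_le_one)
    (fun _ => le_rfl) zero_le_one (by
      intro κ h1 h2
      apply htc κ h1
      rw [Fin.sum_univ_one, one_mul] at h2
      exact h2.le) with h | ⟨W, hW0, -, hW2, hW3⟩
  · exact h
  exfalso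
  rw [Fin.sum_univ_one] at hW2
  set M : ℕ := ⌊δ * ρ / 2⌋₊ with hM
  have hM1 : (M : ℝ) ≤ δ * ρ / 2 := Nat.floor_le (by positivity)
  have hM2 : δ * ρ / 4 ≤ M := by
    have := Nat.lt_floor_add_one (δ * ρ / 2)
    rw [← hM] at this
    linarith
  have h5 := h4 K W hW0 (fun i => u (Sum.inl i)) M (by
    intro κ hκ
    apply hW3
    rw [Fin.sum_univ_one, one_mul, mul_one]
    have h6 : (κ 0 : ℝ) < M := by exact_mod_cast hκ
    have h7 : ((∏ _i : Fin 2, (⌊C⌋₊ + 1) : ℕ) : ℝ) = P := rfl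
    rw [h7]
    linarith)
  have hlW : 1 ≤ l1 W := one_le_l1 hW0
  have hlF : 1 ≤ l1 F := one_le_l1 hF
  have h6 : Real.log (l1 W) ≤ E * ρ := by
    have h7 : Real.log (l1 W) ≤
        Real.log ((P.factorial : ℝ) * (2 ^ ⌊C * ρ⌋₊ * l1 F) ^ P) :=
      Real.log_le_log (by linarith) hW2
    have hf0 : (0 : ℝ) < P.factorial := by exact_mod_cast Nat.factorial_pos P
    rw [Real.log_mul hf0.ne' (by positivity), Real.log_pow, Real.log_mul (by positivity)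
      (by positivity), Real.log_pow] at h7
    have h8 : (⌊C * ρ⌋₊ : ℝ) * Real.log 2 ≤ C * ρ := by
      have h9 : (⌊C * ρ⌋₊ : ℝ) ≤ C * ρ := Nat.floor_le (by positivity)
      have h10 : Real.log 2 ≤ 1 := by linarith [Real.log_two_lt_d9]
      have h11 : 0 ≤ Real.log 2 := Real.log_nonneg (by norm_num)
      calc (⌊C * ρ⌋₊ : ℝ) * Real.log 2 ≤ (C * ρ) * 1 :=
            mul_le_mul h9 h10 h11 (by positivity)
        _ = _ := mul_one _
    have h12 : (P : ℝ) * ((⌊C * ρ⌋₊ : ℝ) * Real.log 2 + Real.log (l1 F)) ≤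
        P * (C * ρ + C * ρ) := mul_le_mul_of_nonneg_left (by linarith) hP0
    have h13 : Real.log (P.factorial : ℝ) * 1 ≤ Real.log (P.factorial : ℝ) * ρ :=
      mul_le_mul_of_nonneg_left hρ1 hlogf
    calc Real.log (l1 W) ≤ Real.log (P.factorial : ℝ) * ρ + P * (C * ρ + C * ρ) := by linarith
      _ = E * ρ := by rw [hEdef]; ring
  have hD : (0 : ℝ) < finrank ℚ K := by exact_mod_cast finrank_pos
  have h7 : δ * ρ / 4 * (finrank ℚ K * (κ0 * H2)) ≤ finrank ℚ K * (E * ρ) := by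
    calc δ * ρ / 4 * (finrank ℚ K * (κ0 * H2)) ≤ M * logHeight₁ (u (Sum.inl 0)) :=
          mul_le_mul hM2 hlow (by positivity) (Nat.cast_nonneg _)
      _ ≤ finrank ℚ K * Real.log (l1 W) := h5
      _ ≤ _ := mul_le_mul_of_nonneg_left h6 hD.le
  have h8 : (finrank ℚ K * ρ) * (δ * κ0 * H2) ≤ (finrank ℚ K * ρ) * (4 * E) := by linarith
  have h9 : δ * κ0 * H2 ≤ 4 * E := le_of_mul_le_mul_left h8 (by positivity)
  have h10 : 4 * E / (δ * κ0) < H2 := by linarith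
  rw [div_lt_iff₀ (by positivity)] at h10
  linarith

/-- the conclusion of the construction on a curve and a line -/
def Con (D0 : ℕ) (ξ : (Fin 1 ⊕ Fin 2) × Bool → Fin 3 → ℝ) (κ0 C0 : ℝ) (e0 : Bool)
    (q : Bool → ℝ) (C δ η : ℝ) : Prop :=
  ∀ (K : Type) [Field K] [NumberField K] (u : Fin 1 ⊕ Fin 2 → K), (∀ i, u i ≠ 0) →
    (∀ i, 1 - u i ≠ 0) → ∀ H0 H2 : ℝ, C ≤ H2 → H2 ≤ H0 →
    ∀ (t : AbsoluteValue K ℝ → Fin 3 → ℝ) (err : AbsoluteValue K ℝ → ℝ),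
    NearW u ξ (Sum.elim (fun _ => H2) (fun _ => H0)) t err η →
    logHeight₁ (u (Sum.inl 0)) ≤ finrank ℚ K * H2 →
    (∀ i, logHeight₁ (u (Sum.inr i)) ≤ finrank ℚ K * H0) →
    finrank ℚ K * (κ0 * H0) ≤ logHeight₁ (u (Sum.inr 0)) →
    ∀ g : MvPolynomial (Fin 2) ℤ, Irreducible g → (∀ i, 0 < degreeOf i g) →
      (∀ i, degreeOf i g ≤ D0) → Real.log (l1 g) ≤ C0 * (H0 / H2) →
      aeval (fun i => u (Sum.inr i)) g = 0 →
      (∀ (ι : Type) [Fintype ι] (E : ι → Fin 2 × Bool → ℕ) (c : ι → ℤ),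
        Function.Injective (fun m => (E m (0, e0) : ℝ) + ∑ b', q b' * E m (1, b')) →
        g ∣ ∑ m, c m • mo (E m) → c = 0) →
      ∃ F : MvPolynomial (Fin 1 ⊕ Fin 2) ℤ, (∃ β, ¬ g ∣ cf F β) ∧
        (degreeOf (Sum.inl 0) F : ℝ) ≤ C * (H0 / H2) ∧
        (∀ i, (degreeOf (Sum.inr i) F : ℝ) ≤ C) ∧ Real.log (l1 F) ≤ C * (H0 / H2) ∧
        ∀ κ : Fin 1 ⊕ Fin 2 →₀ ℕ, (∀ i, κ (Sum.inr i) = 0) →
          (κ (Sum.inl 0) : ℝ) ≤ δ * (H0 / H2) → tc u F κ = 0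

theorem p12 (hSS : S_S) (hST : S_T) (hE : S_E) (hcf : S_cf) (h4 : S_4') (h7 : S_7) (h8 : S_8)
    (h9a : S_9a) (h9b : S_9b) (hCL : S_CL) : S_P12 := by
  classical
  intro ξ hrk3 hrk01 hrk2 hT κ0 hκ0
  obtain ⟨C1, δ1, η1, hC1, hδ1, hη1, hW⟩ := WLC hSS hST (Fin 1 ⊕ Fin 2) ξ
    (by rw [hrk3]; simp) hT hκ0
  obtain ⟨B1, hB1, hel1⟩ := elimtop hE h4 (3 * C1) δ1 κ0 (by linarith) hδ1 hκ0
  obtain ⟨D0, hD0⟩ : ∃ D0 : ℕ, D0 = ⌊C1⌋₊ := ⟨_, rfl⟩
  obtain ⟨C7, hC7, h7'⟩ := h7 D0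
  obtain ⟨C0, hC0⟩ : ∃ C0 : ℝ, C0 = 3 * C1 + C7 := ⟨_, rfl⟩
  have hC0p : 0 < C0 := by linarith
  have hfam : ∀ q : Bool → Bool → ℝ, ∃ (e0 : Bool) (C δ η : ℝ), 1 ≤ C ∧ 0 < δ ∧ 0 < η ∧
      Con D0 ξ κ0 C0 e0 (q e0) C δ η := by
    intro q
    obtain ⟨e0, b, a1, a2, r1, r2, p1, p2, p3, p4⟩ := section12 h9b ξ hrk3 hrk01 hrk2 q
    obtain ⟨C, δ, η, k1, k2, k3, k4⟩ := hCL D0 ξ e0 b (q e0) a1 a2 r1 r2 p1 p2 p3 p4 κ0 C0 hκ0 hC0p
    exact ⟨e0, C, δ, η, k1, k2, k3, k4⟩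
  choose e0 C δ η hC hδ hη hcon using fun
    j : Bool → Bool → (Finset.Icc (-(D0 : ℤ)) D0) × (Finset.Icc (-(D0 : ℤ)) D0) =>
      hfam (fun e b => (((j e b).2.1 : ℤ) : ℝ) / (((j e b).1.1 : ℤ) : ℝ))
  obtain ⟨Cs, hCs1, hCs⟩ := ub C
  obtain ⟨δs, hδs0, hδs⟩ := lb δ hδ
  obtain ⟨ηs, hηs0, hηs⟩ := lb η hη
  obtain ⟨B2, hB2, hel2⟩ := elimtop hE h4 Cs δs κ0 hCs1 hδs0 hκ0
  obtain ⟨C8, hC8, h8'⟩ := h8 (max D0 ⌊Cs⌋₊)
  obtain ⟨C9, hC9⟩ : ∃ C9 : ℝ, C9 = C8 * (1 + C0 + Cs) := ⟨_, rfl⟩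
  have hC9p : 0 ≤ C9 := by rw [hC9]; positivity
  have hx1 : 0 ≤ C0 / κ0 := by positivity
  have hx2 : 0 ≤ C9 / κ0 := by positivity
  refine ⟨C1 + B1 + Cs + B2 + C0 / κ0 + C9 / κ0, min η1 ηs, lt_min hη1 hηs0, ?_⟩
  intro K _ _ u hu0 hu1 H0 H2 hBH2 hBH t err hnear h20 h20' htop hlow
  have hH2 : 0 < H2 := by linarith
  have hmul : ∀ x : ℝ, x ≤ C1 + B1 + Cs + B2 + C0 / κ0 + C9 / κ0 → x * H2 ≤ H0 := fun x hx =>
    (mul_le_mul_of_nonneg_right hx hH2.le).trans hBH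
  have hH20 : H2 ≤ H0 := by
    have := hmul 1 (by linarith)
    linarith
  have hH0 : 0 < H0 := by linarith
  have hD : (0 : ℝ) < finrank ℚ K := by exact_mod_cast finrank_pos
  obtain ⟨ρ, hρ⟩ : ∃ ρ : ℝ, ρ = H0 / H2 := ⟨_, rfl⟩
  have hρ1 : 1 ≤ ρ := by rw [hρ, le_div_iff₀ hH2]; linarith
  obtain ⟨F, hF, hdeg, hlF, htc⟩ := hW K u hu0 hu1 (Sum.elim (fun _ => H2) (fun _ => H0))
    (Sum.inr 0) (by
      rintro (i | i)
      · exact hH20
      · exact le_rfl) (by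
      rintro (i | i)
      · show C1 ≤ H2
        linarith
      · show C1 ≤ H0
        linarith) t err (nearW_mono hnear (min_le_left _ _)) (by
      rintro (i | i)
      · rw [Subsingleton.elim i 0]
        exact h20
      · exact htop i) (hlow 0)
  have hdl : (degreeOf (Sum.inl 0) F : ℝ) ≤ C1 * (H0 / H2) := hdeg (Sum.inl 0)
  have hdr : ∀ i, (degreeOf (Sum.inr i) F : ℝ) ≤ C1 := by
    intro i
    have h1 : (degreeOf (Sum.inr i) F : ℝ) ≤ C1 * (H0 / H0) := hdeg (Sum.inr i)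
    rwa [div_self hH0.ne', mul_one] at h1
  have hlF' : Real.log (l1 F) ≤ 3 * C1 * ρ := by
    have h1 : ∑ i : Fin 1 ⊕ Fin 2, H0 / (Sum.elim (fun _ => H2) (fun _ => H0) i : ℝ) =
        ρ + 2 := by
      rw [Fintype.sum_sum_type, Fin.sum_univ_one, Fin.sum_univ_two]
      simp only [Sum.elim_inl, Sum.elim_inr]
      rw [div_self hH0.ne', hρ]
      norm_num
    have h2 : Real.log (l1 F) ≤ C1 * (ρ + 2) := by
      rw [← h1]
      exact hlF
    nlinarith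
  have hz1 : ∀ β, aeval (fun i => u (Sum.inr i)) (cf F β) = 0 := by
    refine hel1 K u H0 H2 (by linarith) (hmul B1 (by linarith)) h20' F hF ?_ ?_ ?_ ?_
    · rw [← hρ] at hdl ⊢
      nlinarith
    · intro i
      linarith [hdr i]
    · rw [← hρ]
      exact hlF'
    · intro κ hκ hκ1
      apply htc κ
      rintro (i | i)
      · rw [Subsingleton.elim i 0]
        exact hκ1
      · rw [hκ i, Nat.cast_zero]
        show 0 ≤ δ1 * (H0 / H0)
        positivity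
  obtain ⟨c1, -, c3, c4, -⟩ := hcf 1 2 F
  obtain ⟨β, hβ⟩ := c1 hF
  have hlA : Real.log (l1 (cf F β)) ≤ 3 * C1 * ρ :=
    (Real.log_le_log (by linarith [one_le_l1 hβ]) (c4 β)).trans hlF'
  obtain ⟨g, hg, -, hgz, hgd, hgl⟩ := h7' K (fun i => u (Sum.inr i)) (cf F β) hβ
    (fun i => (c3 β i).trans (by rw [hD0]; exact Nat.le_floor (hdr i))) inferInstance (hz1 β)
  have hgl' : Real.log (l1 g) ≤ C0 * ρ := by
    rw [hC0]
    nlinarith
  have hgpos : ∀ i, 0 < degreeOf i g := by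
    intro i
    rcases Nat.eq_zero_or_pos (degreeOf i g) with h0 | h0
    · exfalso
      obtain ⟨i', hi'⟩ := onevar h4 (fun i => u (Sum.inr i)) g hg.ne_zero i h0 hgz
      refine contra hD hκ0 hH0 hH2 (hlow i') (hi'.trans ?_) (E := C0) (by linarith)
      rw [← hρ]
      exact mul_le_mul_of_nonneg_left hgl' hD.le
    · exact h0
  choose k l hk hl hind using h9a D0 g hg hgpos hgd
  obtain ⟨j, hj⟩ : ∃ j : Bool → Bool →
      (Finset.Icc (-(D0 : ℤ)) D0) × (Finset.Icc (-(D0 : ℤ)) D0),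
      ∀ e b, (j e b).1.1 = k e b ∧ (j e b).2.1 = l e b := by
    refine ⟨fun e b => (⟨k e b, ?_⟩, ⟨l e b, ?_⟩), fun e b => ⟨rfl, rfl⟩⟩
    · rw [Finset.mem_Icc]
      have := hk e b
      omega
    · rw [Finset.mem_Icc, ← abs_le]
      exact hl e b
  obtain ⟨F2, ⟨β2, hβ2⟩, hd1, hd2, hl2, htc2⟩ := hcon j K u hu0 hu1 H0 H2
    (by linarith [hCs j]) hH20 t err (nearW_mono hnear ((min_le_right _ _).trans (hηs j))) h20 htop
    (hlow 0) g hg hgpos hgd (by rw [← hρ]; exact hgl') hgz (by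
      intro ι _ E c hinj hdvd
      apply hind (e0 j) ι E c _ hdvd
      have h1 : (fun m => (E m (0, e0 j) : ℝ) +
          ∑ b, ((l (e0 j) b : ℝ) / k (e0 j) b) * E m (1, b)) =
          fun m => (E m (0, e0 j) : ℝ) + ∑ b', (((j (e0 j) b').2.1 : ℤ) : ℝ) /
            (((j (e0 j) b').1.1 : ℤ) : ℝ) * E m (1, b') := by
        funext m
        simp only [(hj _ _).1, (hj _ _).2]
      rw [h1]
      exact hinj)
  have hF2 : F2 ≠ 0 := by
    rintro rfl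
    apply hβ2
    have h1 : cf (0 : MvPolynomial (Fin 1 ⊕ Fin 2) ℤ) β2 = 0 := by
      unfold cf
      rw [map_zero, coeff_zero]
    rw [h1]
    exact dvd_zero _
  have hz2 : ∀ β, aeval (fun i => u (Sum.inr i)) (cf F2 β) = 0 := by
    have hρ0 : 0 ≤ H0 / H2 := by positivity
    refine hel2 K u H0 H2 (by linarith) (hmul B2 (by linarith)) h20' F2 hF2
      (hd1.trans (mul_le_mul_of_nonneg_right (hCs j) hρ0)) (fun i => (hd2 i).trans (hCs j))
      (hl2.trans (mul_le_mul_of_nonneg_right (hCs j) hρ0)) ?_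
    intro κ hκ hκ1
    exact htc2 κ hκ (hκ1.trans (mul_le_mul_of_nonneg_right (hδs j) hρ0))
  obtain ⟨-, -, c3', c4', -⟩ := hcf 1 2 F2
  have hA2 : cf F2 β2 ≠ 0 := by
    intro h
    rw [h] at hβ2
    exact hβ2 (dvd_zero _)
  have hlA2 : Real.log (l1 (cf F2 β2)) ≤ Cs * ρ := by
    refine (Real.log_le_log (by linarith [one_le_l1 hA2]) (c4' β2)).trans (hl2.trans ?_)
    rw [← hρ]
    exact mul_le_mul_of_nonneg_right (hCs j) (by linarith)
  obtain ⟨i, hi⟩ := h8' K (fun i => u (Sum.inr i)) g (cf F2 β2) hg hgpos hβ2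
    (fun i => (hgd i).trans (le_max_left _ _))
    (fun i => (c3' β2 i).trans ((Nat.le_floor ((hd2 i).trans (hCs j))).trans (le_max_right _ _)))
    hgz (hz2 β2)
  refine contra hD hκ0 hH0 hH2 (hlow i) (hi.trans ?_) (E := C9) (by linarith)
  apply mul_le_mul_of_nonneg_left _ hD.le
  rw [← hρ, hC9, mul_assoc]
  apply mul_le_mul_of_nonneg_left _ hC8
  nlinarith

end Pool.Agent.H883.ZR.P12
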