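import Pool.Agent.H883.ZR.Base
import Pool.Graph.R_pool_sql_team_39128cda.H.MP_92cab9_nt.E

set_option autoImplicit false
set_option linter.unusedSectionVars false

/-!
# Heights of roots of high multiplicity
-/

namespace Pool.Agent.H883.ZR.S4

open Real NumberField Height Module Finset
open Pool.Agent.H393R2.RothNS (TT DD l1)
open Pool.Agent.H.MP_92cab9_nt (mahler_bound)

/-- a root of a nonzero integral polynomial is a root of an irreducible factor -/
theorem exists_factor {K : Type} [Field K] (V : Polynomial ℤ) (hV : V ≠ 0)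
    (x : K) (hx : Polynomial.aeval x V = 0) :
    ∃ p V' : Polynomial ℤ, Irreducible p ∧ Polynomial.aeval x p = 0 ∧ V = p * V' := by
  classical
  induction V using UniqueFactorizationMonoid.induction_on_prime with
  | h₁ => exact absurd rfl hV
  | h₂ u hu =>
    obtain ⟨r, hr, hr2⟩ := Polynomial.isUnit_iff.1 hu
    exfalso
    have h1 : IsUnit (Polynomial.aeval x u) := hu.map (Polynomial.aeval x)
    rw [hx] at h1
    exact not_isUnit_zero h1
  | h₃ a p ha hp ih =>
    rw [map_mul] at hx
    rcases mul_eq_zero.1 hx with h | h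
    · exact ⟨p, a, hp.irreducible, h, rfl⟩
    · obtain ⟨p', V', h1, h2, h3⟩ := ih ha h
      exact ⟨p', p * V', h1, h2, by rw [h3]; ring⟩

/-- an irreducible integral polynomial has a simple root -/
theorem simple_root {K : Type} [Field K] [CharZero K] {p : Polynomial ℤ} (hp : Irreducible p)
    (x : K) (hx : Polynomial.aeval x p = 0) :
    p.natDegree ≠ 0 ∧ ∃ q : Polynomial K, p.map (Int.castRingHom K) =
      (Polynomial.X - Polynomial.C x) * q ∧ Polynomial.eval x q ≠ 0 := by
  classical
  have hdeg : p.natDegree ≠ 0 := by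
    intro h
    rw [Polynomial.eq_C_of_natDegree_eq_zero h] at hx
    apply hp.ne_zero
    rw [Polynomial.eq_C_of_natDegree_eq_zero h, show p.coeff 0 = 0 by simpa using hx,
      Polynomial.C_0]
  refine ⟨hdeg, ?_⟩
  have hQ : Irreducible (p.map (Int.castRingHom ℚ)) :=
    (Polynomial.IsPrimitive.Int.irreducible_iff_irreducible_map_cast (hp.isPrimitive hdeg)).1 hp
  have hsep : (p.map (Int.castRingHom ℚ)).Separable := hQ.separable
  have hsep2 : (p.map (Int.castRingHom K)).Separable := by
    have h1 := hsep.map (f := algebraMap ℚ K)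
    rw [Polynomial.map_map] at h1
    have h2 : (algebraMap ℚ K).comp (Int.castRingHom ℚ) = Int.castRingHom K := RingHom.ext_int _ _
    rwa [h2] at h1
  have hroot : (p.map (Int.castRingHom K)).IsRoot x := by
    rw [Polynomial.IsRoot.def, Polynomial.eval_map]
    exact hx
  obtain ⟨q, hq⟩ := Polynomial.dvd_iff_isRoot.2 hroot
  refine ⟨q, hq, fun h => ?_⟩
  obtain ⟨q', hq'⟩ := Polynomial.dvd_iff_isRoot.2 (show q.IsRoot x from h)
  have h1 := hsep2.squarefree (Polynomial.X - Polynomial.C x) (by
    rw [hq, hq', ← mul_assoc]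
    exact dvd_mul_right _ _)
  exact Polynomial.not_isUnit_X_sub_C x h1

/-- the Mahler measure controls the height of a root of high multiplicity -/
theorem mahler_mult {K : Type} [Field K] [NumberField K] (x : K) :
    ∀ (M : ℕ) (V : Polynomial ℤ), V ≠ 0 →
      (Polynomial.X - Polynomial.C x) ^ M ∣ V.map (Int.castRingHom K) →
      (M : ℝ) * logHeight₁ x ≤
        finrank ℚ K * Real.log (V.map (Int.castRingHom ℂ)).mahlerMeasure := by
  intro M
  induction M with
  | zero =>
    intro V hV _
    rw [Nat.cast_zero, zero_mul]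
    exact mul_nonneg (Nat.cast_nonneg _)
      (Real.log_nonneg (Polynomial.one_le_mahlerMeasure_of_ne_zero hV))
  | succ M ih =>
    intro V hV hdvd
    have hx : Polynomial.aeval x V = 0 := by
      have h1 : Polynomial.X - Polynomial.C x ∣ V.map (Int.castRingHom K) :=
        (dvd_pow_self _ (Nat.succ_ne_zero M)).trans hdvd
      have h2 := Polynomial.dvd_iff_isRoot.1 h1
      rw [Polynomial.IsRoot.def, Polynomial.eval_map] at h2
      exact h2
    obtain ⟨p, V', hp, hpx, rfl⟩ := exists_factor V hV x hx
    obtain ⟨hdeg, q, hq, hqx⟩ := simple_root hp x hpx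
    have hV' : V' ≠ 0 := right_ne_zero_of_mul hV
    have hd : (Polynomial.X - Polynomial.C x) ^ M ∣ V'.map (Int.castRingHom K) := by
      rw [Polynomial.map_mul, hq, pow_succ', mul_assoc] at hdvd
      have h1 := (mul_dvd_mul_iff_left (Polynomial.X_sub_C_ne_zero x)).1 hdvd
      have hcop : IsCoprime ((Polynomial.X - Polynomial.C x) ^ M) q := by
        refine IsCoprime.pow_left ?_
        refine (Polynomial.irreducible_X_sub_C x).coprime_iff_not_dvd.2 fun h => ?_
        exact hqx (Polynomial.dvd_iff_isRoot.1 h)
      exact hcop.dvd_of_dvd_mul_left h1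
    have h1 := ih V' hV' hd
    have h2 := mahler_bound x hp hpx
    have h3 : (0 : ℝ) ≤ Real.log (p.map (Int.castRingHom ℂ)).mahlerMeasure :=
      Real.log_nonneg (Polynomial.one_le_mahlerMeasure_of_ne_zero hp.ne_zero)
    have h4 : Real.log (p.map (Int.castRingHom ℂ)).mahlerMeasure / p.natDegree ≤
        Real.log (p.map (Int.castRingHom ℂ)).mahlerMeasure := by
      refine div_le_self h3 ?_
      exact_mod_cast Nat.one_le_iff_ne_zero.2 hdeg
    have h5 : (finrank ℚ K : ℝ) *
        (Real.log (p.map (Int.castRingHom ℂ)).mahlerMeasure / p.natDegree) ≤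
        finrank ℚ K * Real.log (p.map (Int.castRingHom ℂ)).mahlerMeasure :=
      mul_le_mul_of_nonneg_left h4 (Nat.cast_nonneg _)
    have hinj : Function.Injective (Int.castRingHom ℂ) := Int.cast_injective
    have h6 : Real.log ((p * V').map (Int.castRingHom ℂ)).mahlerMeasure =
        Real.log (p.map (Int.castRingHom ℂ)).mahlerMeasure +
          Real.log (V'.map (Int.castRingHom ℂ)).mahlerMeasure := by
      rw [Polynomial.map_mul, Polynomial.mahlerMeasure_mul, Real.log_mul]
      · exact (Polynomial.mahlerMeasure_pos_of_ne_zero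
          ((Polynomial.map_ne_zero_iff hinj).2 hp.ne_zero)).ne'
      · exact (Polynomial.mahlerMeasure_pos_of_ne_zero
          ((Polynomial.map_ne_zero_iff hinj).2 hV')).ne'
    rw [h6, Nat.cast_add, Nat.cast_one, add_mul, one_mul, mul_add]
    linarith

/-- **S4.** Heights of roots of high order. -/
theorem s4 : S_4 := by
  intro K _ _ V hV x M hdvd
  refine (mahler_mult x M V hV hdvd).trans (mul_le_mul_of_nonneg_left ?_ (Nat.cast_nonneg _))
  have hinj : Function.Injective (Int.castRingHom ℂ) := Int.cast_injective
  refine Real.log_le_log (Polynomial.mahlerMeasure_pos_of_ne_zero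
    ((Polynomial.map_ne_zero_iff hinj).2 hV)) ?_
  refine (Polynomial.mahlerMeasure_le_sum_norm_coeff _).trans (le_of_eq ?_)
  rw [Polynomial.sum_def, Polynomial.support_map_of_injective _ hinj]
  refine Finset.sum_congr rfl fun i _ => ?_
  rw [Polynomial.coeff_map, eq_intCast, Complex.norm_intCast]

section uni

variable {R : Type} [CommRing R]

theorem single_fin (a : Fin 1 →₀ ℕ) : Finsupp.single 0 (a 0) = a := by
  refine Finsupp.ext fun i => ?_
  have hi : i = 0 := Fin.fin_one_eq_zero i
  rw [hi, Finsupp.single_eq_same]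

/-- polynomials in one variable -/
noncomputable def uni (R : Type) [CommRing R] : MvPolynomial (Fin 1) R →ₐ[R] Polynomial R :=
  MvPolynomial.aeval fun _ => Polynomial.X

theorem coeff_uni (f : MvPolynomial (Fin 1) R) (n : ℕ) :
    (uni R f).coeff n = MvPolynomial.coeff (Finsupp.single 0 n) f := by
  classical
  induction f using MvPolynomial.induction_on' with
  | monomial a c =>
    have h1 : uni R (MvPolynomial.monomial a c) = Polynomial.C c * Polynomial.X ^ a 0 := by
      unfold uni
      rw [MvPolynomial.aeval_monomial, Finsupp.prod_fintype _ _ (fun i => pow_zero _)]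
      simp
    rw [h1, Polynomial.coeff_C_mul_X_pow, MvPolynomial.coeff_monomial]
    have h2 : a = Finsupp.single 0 n ↔ n = a 0 := by
      constructor
      · intro h
        rw [h, Finsupp.single_eq_same]
      · intro h
        rw [h]
        exact (single_fin a).symm
    by_cases h : n = a 0
    · rw [if_pos h, if_pos (h2.2 h)]
    · rw [if_neg h, if_neg (fun h' => h (h2.1 h'))]
  | add f g hf hg =>
    rw [map_add, Polynomial.coeff_add, MvPolynomial.coeff_add, hf, hg]

theorem uni_TT {K : Type} [Field K] (x : Fin 1 → K) (V : MvPolynomial (Fin 1) ℤ) :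
    uni K (TT x (MvPolynomial.map (Int.castRingHom K) V)) =
      ((uni ℤ V).map (Int.castRingHom K)).comp (Polynomial.X + Polynomial.C (x 0)) := by
  induction V using MvPolynomial.induction_on with
  | C a =>
    unfold uni TT
    simp
  | add p q hp hq =>
    rw [map_add, map_add, map_add, hp, hq, map_add, Polynomial.map_add, Polynomial.add_comp]
  | mul_X p n hp =>
    have hn : n = 0 := Fin.fin_one_eq_zero n
    subst hn
    rw [map_mul, map_mul, map_mul, hp, map_mul, Polynomial.map_mul, Polynomial.mul_comp]
    congr 1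
    unfold uni TT
    simp

theorem support_uni (V : MvPolynomial (Fin 1) R) :
    (uni R V).support = V.support.image (fun a => a 0) := by
  classical
  ext n
  rw [Polynomial.mem_support_iff, coeff_uni, Finset.mem_image]
  constructor
  · intro h
    exact ⟨Finsupp.single 0 n, MvPolynomial.mem_support_iff.2 h, Finsupp.single_eq_same⟩
  · rintro ⟨a, ha, rfl⟩
    have h1 : Finsupp.single 0 (a 0) = a := single_fin a
    rw [h1]
    exact MvPolynomial.mem_support_iff.1 ha

end uni

/-- **S4'.** Heights of roots of high order, polynomials in one variable. -/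
theorem s4' : S_4' := by
  classical
  intro K _ _ V hV x M h
  have h0 : uni ℤ V ≠ 0 := by
    intro h0
    apply hV
    ext a
    have h1 : Finsupp.single 0 (a 0) = a := single_fin a
    rw [← h1, ← coeff_uni, h0, Polynomial.coeff_zero, MvPolynomial.coeff_zero]
  have hdvd : (Polynomial.X - Polynomial.C (x 0)) ^ M ∣ (uni ℤ V).map (Int.castRingHom K) := by
    rw [Polynomial.X_sub_C_pow_dvd_iff, ← uni_TT, Polynomial.X_pow_dvd_iff]
    intro d hd
    rw [coeff_uni]
    exact h _ (by rw [Finsupp.single_eq_same]; exact hd)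
  refine (s4 K (uni ℤ V) h0 (x 0) M hdvd).trans (le_of_eq ?_)
  congr 2
  unfold l1
  rw [support_uni, Finset.sum_image]
  · refine Finset.sum_congr rfl fun a _ => ?_
    have h1 : Finsupp.single 0 (a 0) = a := single_fin a
    rw [coeff_uni, h1]
  · intro a _ b _ hab
    rw [← single_fin a, ← single_fin b]
    exact congrArg (Finsupp.single 0) hab

end Pool.Agent.H883.ZR.S4
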