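import Pool.Agent.H883.ZR.Base

set_option autoImplicit false

/-!
# S6: points of high multiplicity lie on finitely many curves or have small height
-/

namespace Pool.Agent.H883.ZR.S6

open Real NumberField Height Module Finset MvPolynomial
open Pool.Agent.H393R2.RothNS (TT DD l1 coeff_le_l1)
open Pool.Agent.H883.ZR

section mult

variable {K : Type} [Field K]

/-- the Taylor series at `z` -/
noncomputable def ser (z : Fin 2 → K) (f : MvPolynomial (Fin 2) ℤ) : MvPowerSeries (Fin 2) K :=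
  ((TT z (map (Int.castRingHom K) f) : MvPolynomial (Fin 2) K) : MvPowerSeries (Fin 2) K)

lemma ser_mul (z : Fin 2 → K) (f g : MvPolynomial (Fin 2) ℤ) :
    ser z (f * g) = ser z f * ser z g := by
  unfold ser
  rw [map_mul, map_mul, MvPolynomial.coe_mul]

lemma ser_one (z : Fin 2 → K) : ser z 1 = 1 := by
  unfold ser
  rw [map_one, map_one, MvPolynomial.coe_one]

lemma TT_inv (z : Fin 2 → K) (F : MvPolynomial (Fin 2) K) : TT (fun i => -z i) (TT z F) = F := by
  have h : (TT (fun i => -z i)).comp (TT z) = AlgHom.id K (MvPolynomial (Fin 2) K) := by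
    apply MvPolynomial.algHom_ext
    intro i
    simp only [AlgHom.comp_apply, AlgHom.id_apply]
    unfold TT
    rw [MvPolynomial.aeval_X, map_add, MvPolynomial.aeval_X, ← MvPolynomial.algebraMap_eq,
      AlgHom.commutes, MvPolynomial.algebraMap_eq, map_neg]
    ring
  have h2 := congrArg (fun φ : MvPolynomial (Fin 2) K →ₐ[K] MvPolynomial (Fin 2) K => φ F) h
  simpa using h2

lemma ser_ne [CharZero K] (z : Fin 2 → K) {f : MvPolynomial (Fin 2) ℤ} (hf : f ≠ 0) :
    ser z f ≠ 0 := by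
  unfold ser
  intro h
  have h1 : TT z (map (Int.castRingHom K) f) = 0 := by
    apply MvPolynomial.coe_injective
    rw [h, MvPolynomial.coe_zero]
  have h2 := TT_inv z (map (Int.castRingHom K) f)
  rw [h1, map_zero] at h2
  exact hf (MvPolynomial.map_injective _ (RingHom.injective_int (Int.castRingHom K))
    (by rw [← h2, map_zero]))

/-- the multiplicity -/
noncomputable def mult (z : Fin 2 → K) (f : MvPolynomial (Fin 2) ℤ) : ℕ := (ser z f).order.toNat

lemma mult_mul [CharZero K] (z : Fin 2 → K) {f g : MvPolynomial (Fin 2) ℤ} (hf : f ≠ 0)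
    (hg : g ≠ 0) : mult z (f * g) = mult z f + mult z g := by
  unfold mult
  have h1 := MvPowerSeries.ne_zero_iff_order_finite.1 (ser_ne z hf)
  have h2 := MvPowerSeries.ne_zero_iff_order_finite.1 (ser_ne z hg)
  rw [ser_mul, MvPowerSeries.order_mul, ← h1, ← h2, ← Nat.cast_add, ENat.toNat_natCast,
    ENat.toNat_natCast, ENat.toNat_natCast]

lemma degree_two (κ : Fin 2 →₀ ℕ) : κ.degree = κ 0 + κ 1 := by
  rw [Finsupp.degree_eq_sum, Fin.sum_univ_two]

lemma coeff_ser (z : Fin 2 → K) (f : MvPolynomial (Fin 2) ℤ) (κ : Fin 2 →₀ ℕ) :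
    MvPowerSeries.coeff κ (ser z f) = tc z f κ := by
  unfold ser tc
  rw [MvPolynomial.coeff_coe]

lemma mult_ex [CharZero K] (z : Fin 2 → K) {f : MvPolynomial (Fin 2) ℤ} (hf : f ≠ 0) :
    ∃ κ : Fin 2 →₀ ℕ, κ 0 + κ 1 = mult z f ∧ tc z f κ ≠ 0 := by
  have h1 := MvPowerSeries.ne_zero_iff_order_finite.1 (ser_ne z hf)
  obtain ⟨d, hd1, hd2⟩ := MvPowerSeries.exists_coeff_ne_zero_and_order h1
  refine ⟨d, ?_, by rwa [coeff_ser] at hd1⟩
  rw [degree_two] at hd2
  unfold mult
  have h3 : ((d 0 + d 1 : ℕ) : ℕ∞) = (((ser z f).order.toNat : ℕ) : ℕ∞) := by rw [h1]; exact hd2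
  exact_mod_cast h3

lemma mult_lt [CharZero K] (z : Fin 2 → K) {f : MvPolynomial (Fin 2) ℤ} (hf : f ≠ 0)
    (κ : Fin 2 →₀ ℕ) (h : κ 0 + κ 1 < mult z f) : tc z f κ = 0 := by
  have h1 := MvPowerSeries.ne_zero_iff_order_finite.1 (ser_ne z hf)
  rw [← coeff_ser]
  apply MvPowerSeries.coeff_of_lt_order
  rw [degree_two, ← h1]
  unfold mult at h
  exact_mod_cast h

lemma tc_zero (z : Fin 2 → K) (f : MvPolynomial (Fin 2) ℤ) : tc z f 0 = aeval z f := by
  unfold tc
  rw [← MvPolynomial.constantCoeff_eq]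
  have h1 : ∀ F : MvPolynomial (Fin 2) K, constantCoeff (TT z F) = eval z F := by
    intro F
    have h : (constantCoeff : MvPolynomial (Fin 2) K →+* K).comp
        ((TT z : MvPolynomial (Fin 2) K →ₐ[K] MvPolynomial (Fin 2) K) :
          MvPolynomial (Fin 2) K →+* MvPolynomial (Fin 2) K) = eval z := by
      apply MvPolynomial.ringHom_ext
      · intro r
        simp only [RingHom.comp_apply, RingHom.coe_coe]
        unfold TT
        rw [← MvPolynomial.algebraMap_eq, AlgHom.commutes, MvPolynomial.algebraMap_eq,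
          constantCoeff_C, eval_C]
      · intro i
        simp only [RingHom.comp_apply, RingHom.coe_coe]
        unfold TT
        rw [aeval_X, map_add, constantCoeff_X, constantCoeff_C, eval_X, zero_add]
    exact congrArg (fun φ : MvPolynomial (Fin 2) K →+* K => φ F) h
  rw [h1, eval_map, aeval_def]
  rfl

end mult

/-- additive functions on products of multisets -/
lemma ms_sum (φ : MvPolynomial (Fin 2) ℤ → ℝ) (h1 : φ 1 = 0)
    (hm : ∀ f g, f ≠ 0 → g ≠ 0 → φ (f * g) = φ f + φ g) (s : Multiset (MvPolynomial (Fin 2) ℤ))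
    (hs : ∀ g ∈ s, g ≠ 0) : s.prod ≠ 0 ∧ φ s.prod = (s.map φ).sum := by
  induction s using Multiset.induction_on with
  | empty => simp [h1]
  | cons a s ih =>
    have ha : a ≠ 0 := hs a (Multiset.mem_cons_self a s)
    obtain ⟨i1, i2⟩ := ih fun g hg => hs g (Multiset.mem_cons_of_mem hg)
    rw [Multiset.prod_cons, Multiset.map_cons, Multiset.sum_cons]
    exact ⟨mul_ne_zero ha i1, by rw [hm a _ ha i1, i2]⟩

/-- finitely many integral polynomials of bounded degree and length -/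
lemma fin_box (N : ℕ) (L : ℝ) :
    {g : MvPolynomial (Fin 2) ℤ | (∀ i, degreeOf i g ≤ N) ∧ l1 g ≤ L}.Finite := by
  obtain ⟨S, hS⟩ : ∃ S : Finset (Fin 2 →₀ ℕ), ∀ κ : Fin 2 →₀ ℕ, (∀ i, κ i ≤ N) → κ ∈ S := by
    refine ⟨Finset.Iic (Finsupp.equivFunOnFinite.symm fun _ => N), fun κ hκ => ?_⟩
    rw [Finset.mem_Iic]
    intro i
    simpa using hκ i
  obtain ⟨Z, hZ⟩ : ∃ Z : ℕ, L ≤ Z := exists_nat_ge L
  obtain ⟨e, he⟩ : ∃ e : MvPolynomial (Fin 2) ℤ → (S → ℤ), e = fun g κ => coeff κ.1 g := ⟨_, rfl⟩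
  refine Set.Finite.of_finite_image (f := e) ?_ ?_
  · have hfin : {φ : S → ℤ | ∀ κ, φ κ ∈ Set.Icc (-(Z : ℤ)) Z}.Finite :=
      Set.Finite.pi' fun _ => Set.finite_Icc _ _
    refine hfin.subset ?_
    rintro φ ⟨g, ⟨-, hg⟩, rfl⟩
    intro κ
    have h1 := (coeff_le_l1 g κ.1).trans (hg.trans hZ)
    have h2 : |coeff κ.1 g| ≤ (Z : ℤ) := by
      have : ((|coeff κ.1 g| : ℤ) : ℝ) ≤ ((Z : ℤ) : ℝ) := by
        push_cast
        exact h1
      exact_mod_cast this
    rw [he]
    exact abs_le.1 h2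
  · intro g hg g' hg' hgg
    ext κ
    by_cases hκ : ∀ i, κ i ≤ N
    · have := congrArg (fun φ : S → ℤ => φ ⟨κ, hS κ hκ⟩) hgg
      rw [he] at this
      exact this
    · push Not at hκ
      obtain ⟨i, hi⟩ := hκ
      have h0 : ∀ q : MvPolynomial (Fin 2) ℤ, (∀ i, degreeOf i q ≤ N) → coeff κ q = 0 := by
        intro q hq
        by_contra hc
        have := MvPolynomial.le_degreeOf_of_mem_support i (MvPolynomial.mem_support_iff.2 hc)
        have := hq i
        omega
      rw [h0 g hg.1, h0 g' hg'.1]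

theorem s6 (hb : S_6b) (hc : S_6c) : S_6 := by
  obtain ⟨mm, hmul, hnn, hlel, hlog⟩ := hb
  obtain ⟨C, hC0, hC⟩ := hc
  intro c Λ hc0 hΛ
  obtain ⟨C1, hC1⟩ : ∃ C1 : ℝ, C1 = 3 * (Λ + log 4) / c := ⟨_, rfl⟩
  have hlog4 : 0 < log 4 := log_pos (by norm_num)
  have hC10 : 0 < C1 := by rw [hC1]; positivity
  obtain ⟨N, hN⟩ : ∃ N : ℕ, 3 / c ≤ N := exists_nat_ge _
  have hfin := fin_box N (exp C1)
  obtain ⟨G, hG⟩ : ∃ G : MvPolynomial (Fin 2) ℤ, G = ∏ g ∈ hfin.toFinset,
      (if g = 0 then 1 else g) := ⟨_, rfl⟩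
  refine ⟨G, C * (3 * C1 / c + 9 / c ^ 2), ?_, ?_⟩
  · rw [hG, Finset.prod_ne_zero_iff]
    intro g _
    split_ifs with h
    · exact one_ne_zero
    · exact h
  intro K _ _ z D W hW hD hdeg hl1 hvan
  -- the multiplicity of `W`
  have hD0 : (0 : ℝ) < D := by exact_mod_cast hD
  have hmW : c * D ≤ mult z W := by
    obtain ⟨κ, h1, h2⟩ := mult_ex z hW
    by_contra hlt
    push Not at hlt
    refine h2 (hvan κ ?_)
    rw [← h1] at hlt
    push_cast at hlt
    exact hlt
  have hl1W : mm W ≤ Λ * D := by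
    refine (hlel W hW).trans ?_
    have hpos : 0 < l1 W := by
      rcases lt_or_eq_of_le (Pool.Agent.H393R2.RothNS.l1_nonneg W) with h | h
      · exact h
      · exfalso
        apply hW
        ext κ
        have h1 := coeff_le_l1 W κ
        rw [← h] at h1
        have h2 := abs_nonpos_iff.1 h1
        have h3 : coeff κ W = 0 := by exact_mod_cast h2
        rw [h3, coeff_zero]
    rw [← log_exp (Λ * D)]
    exact log_le_log hpos hl1
  -- the functional
  have hmm1 : mm 1 = 0 := by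
    have := hmul 1 1 one_ne_zero one_ne_zero
    rw [one_mul] at this
    linarith
  have hmu1 : mult z (1 : MvPolynomial (Fin 2) ℤ) = 0 := by
    have := mult_mul z (one_ne_zero : (1 : MvPolynomial (Fin 2) ℤ) ≠ 0) one_ne_zero
    rw [one_mul] at this
    omega
  obtain ⟨φ, hφ⟩ : ∃ φ : MvPolynomial (Fin 2) ℤ → ℝ, φ = fun g =>
      c * ((degreeOf 0 g : ℝ) + degreeOf 1 g + mm g / Λ) - 3 * mult z g := ⟨_, rfl⟩
  have hφ1 : φ 1 = 0 := by
    rw [hφ]
    simp only [hmm1, hmu1, MvPolynomial.degreeOf_one]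
    simp
  have hφm : ∀ f g, f ≠ 0 → g ≠ 0 → φ (f * g) = φ f + φ g := by
    intro f g hf hg
    rw [hφ]
    simp only
    rw [hmul f g hf hg, mult_mul z hf hg, MvPolynomial.degreeOf_mul_eq hf hg,
      MvPolynomial.degreeOf_mul_eq hf hg]
    push_cast
    ring
  obtain ⟨ψ, hψ⟩ : ∃ ψ : MvPolynomial (Fin 2) ℤ → ℝ, ψ = fun g => (mult z g : ℝ) := ⟨_, rfl⟩
  have hψ1 : ψ 1 = 0 := by
    rw [hψ]
    simp only [hmu1]
    simp
  have hψm : ∀ f g, f ≠ 0 → g ≠ 0 → ψ (f * g) = ψ f + ψ g := by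
    intro f g hf hg
    rw [hψ]
    simp only
    rw [mult_mul z hf hg]
    push_cast
    ring
  -- the factorisation
  obtain ⟨s, hs⟩ : ∃ s, s = UniqueFactorizationMonoid.factors W := ⟨_, rfl⟩
  have hirr : ∀ g ∈ s, Irreducible g := by
    rw [hs]
    exact fun g hg => UniqueFactorizationMonoid.irreducible_of_factor g hg
  have hne : ∀ g ∈ s, g ≠ 0 := fun g hg => (hirr g hg).ne_zero
  obtain ⟨hp0, hsφ⟩ := ms_sum φ hφ1 hφm s hne
  obtain ⟨-, hsψ⟩ := ms_sum ψ hψ1 hψm s hne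
  obtain ⟨u, hu⟩ : ∃ u : (MvPolynomial (Fin 2) ℤ)ˣ, s.prod * u = W := by
    rw [hs]
    exact UniqueFactorizationMonoid.factors_prod hW
  have hu0 : (u : MvPolynomial (Fin 2) ℤ) ≠ 0 := u.ne_zero
  have hmu : mult z (u : MvPolynomial (Fin 2) ℤ) = 0 := by
    have h1 := mult_mul z hu0 (u⁻¹).ne_zero
    rw [Units.mul_inv, hmu1] at h1
    omega
  have hmp : mult z s.prod = mult z W := by
    rw [← hu, mult_mul z hp0 hu0, hmu, add_zero]
  have hdp : ∀ i, degreeOf i s.prod ≤ D := by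
    intro i
    have h1 := hdeg i
    rw [← hu, MvPolynomial.degreeOf_mul_eq hp0 hu0] at h1
    omega
  have hmmp : mm s.prod ≤ Λ * D := by
    have h1 := hmul _ _ hp0 hu0
    rw [hu] at h1
    have h2 := hnn _ hu0
    linarith
  have hφp : φ s.prod ≤ 0 := by
    rw [hφ]
    simp only
    rw [hmp]
    have h1 : (degreeOf 0 s.prod : ℝ) ≤ D := by exact_mod_cast hdp 0
    have h2 : (degreeOf 1 s.prod : ℝ) ≤ D := by exact_mod_cast hdp 1
    have h3 : mm s.prod / Λ ≤ D := by
      rw [div_le_iff₀ hΛ]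
      linarith
    have h4 : c * ((degreeOf 0 s.prod : ℝ) + degreeOf 1 s.prod + mm s.prod / Λ) ≤
        c * (3 * D) := mul_le_mul_of_nonneg_left (by linarith) hc0.le
    linarith
  -- a good factor
  obtain ⟨g, hg, hmg, hφg⟩ : ∃ g ∈ s, 1 ≤ mult z g ∧ φ g ≤ 0 := by
    by_contra hcon
    push Not at hcon
    have hnonneg : ∀ x ∈ s.map φ, 0 ≤ x := by
      intro x hx
      obtain ⟨g, hg, rfl⟩ := Multiset.mem_map.1 hx
      rcases Nat.eq_zero_or_pos (mult z g) with h0 | h0
      · rw [hφ]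
        simp only
        rw [h0]
        have h1 := hnn g (hne g hg)
        have : 0 ≤ c * ((degreeOf 0 g : ℝ) + degreeOf 1 g + mm g / Λ) := by positivity
        push_cast
        linarith
      · exact (hcon g hg h0).le
    have hzero : ∀ g ∈ s, mult z g = 0 := by
      intro g hg
      by_contra h0
      have h1 := hcon g hg (Nat.one_le_iff_ne_zero.2 h0)
      have h2 := Multiset.single_le_sum hnonneg (φ g) (Multiset.mem_map_of_mem φ hg)
      rw [← hsφ] at h2
      linarith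
    have h5 : (s.map ψ).sum = 0 := by
      apply Multiset.sum_eq_zero
      intro x hx
      obtain ⟨g, hg, rfl⟩ := Multiset.mem_map.1 hx
      rw [hψ]
      simp only
      rw [hzero g hg, Nat.cast_zero]
    rw [← hsψ, hψ] at h5
    simp only at h5
    rw [hmp] at h5
    have : 0 < c * D := by positivity
    linarith
  obtain ⟨μ, hμ⟩ : ∃ μ, μ = mult z g := ⟨_, rfl⟩
  rw [← hμ] at hmg
  have hg0 := hne g hg
  have hμ0 : (0 : ℝ) < μ := by exact_mod_cast hmg
  have hmmg := hnn g hg0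
  rw [hφ] at hφg
  simp only at hφg
  rw [← hμ] at hφg
  have hsum : (degreeOf 0 g : ℝ) + degreeOf 1 g + mm g / Λ ≤ 3 * μ / c := by
    rw [le_div_iff₀ hc0]
    linarith
  have hmmΛ : 0 ≤ mm g / Λ := by positivity
  have hd0 : (degreeOf 0 g : ℝ) ≤ 3 * μ / c := by
    have : (0 : ℝ) ≤ degreeOf 1 g := Nat.cast_nonneg _
    linarith
  have hd1 : (degreeOf 1 g : ℝ) ≤ 3 * μ / c := by
    have : (0 : ℝ) ≤ degreeOf 0 g := Nat.cast_nonneg _
    linarith
  have hlg : log (l1 g) ≤ C1 * μ := by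
    have h1 := hlog g hg0
    have h2 : mm g ≤ Λ * (3 * μ / c) := by
      have h3 : mm g / Λ ≤ 3 * μ / c := by
        have h4 : (0 : ℝ) ≤ degreeOf 0 g := Nat.cast_nonneg _
        have h5 : (0 : ℝ) ≤ degreeOf 1 g := Nat.cast_nonneg _
        linarith
      rw [div_le_iff₀ hΛ] at h3
      linarith
    have h3 : ((degreeOf 0 g : ℝ) + degreeOf 1 g) * log 4 ≤ (3 * μ / c) * log 4 :=
      mul_le_mul_of_nonneg_right (by linarith) hlog4.le
    have h4 : C1 * μ = Λ * (3 * μ / c) + (3 * μ / c) * log 4 := by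
      rw [hC1]
      field_simp
    linarith
  rcases Nat.lt_or_ge 1 μ with hμ1 | hμ1
  · -- `μ ≥ 2`
    right
    obtain ⟨d, hd⟩ : ∃ d, d = max (degreeOf 0 g) (degreeOf 1 g) := ⟨_, rfl⟩
    have hdi : ∀ i, degreeOf i g ≤ d := by
      intro i
      fin_cases i
      · exact hd ▸ le_max_left _ _
      · exact hd ▸ le_max_right _ _
    have hdμ : (d : ℝ) ≤ 3 * μ / c := by
      rw [hd, Nat.cast_max]
      exact max_le hd0 hd1
    obtain ⟨i, hi⟩ := hC K z g d μ (hirr g hg) hμ1 hdi (fun κ hκ => mult_lt z hg0 κ (hμ ▸ hκ))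
    refine ⟨i, ?_⟩
    have h1 : (d : ℝ) * log (l1 g) + (d : ℝ) ^ 2 ≤ (3 * C1 / c + 9 / c ^ 2) * (μ : ℝ) ^ 2 := by
      have h2 : (d : ℝ) * log (l1 g) ≤ (3 * μ / c) * (C1 * μ) :=
        (mul_le_mul_of_nonneg_left hlg (Nat.cast_nonneg _)).trans
          (mul_le_mul_of_nonneg_right hdμ (by positivity))
      have h3 : (d : ℝ) ^ 2 ≤ (3 * μ / c) ^ 2 := pow_le_pow_left₀ (Nat.cast_nonneg _) hdμ 2
      have h4 : (3 * μ / c) * (C1 * μ) + (3 * μ / c) ^ 2 =
          (3 * C1 / c + 9 / c ^ 2) * (μ : ℝ) ^ 2 := by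
        field_simp
        ring
      linarith
    have h5 : (μ : ℝ) ^ 2 * logHeight₁ (z i) ≤
        (μ : ℝ) ^ 2 * (finrank ℚ K * (C * (3 * C1 / c + 9 / c ^ 2))) := by
      refine hi.trans ?_
      have h6 := mul_le_mul_of_nonneg_left h1 hC0
      have h7 := mul_le_mul_of_nonneg_left h6 (Nat.cast_nonneg (finrank ℚ K) : (0 : ℝ) ≤ _)
      refine h7.trans (le_of_eq ?_)
      ring
    exact le_of_mul_le_mul_left h5 (by positivity)
  · -- `μ = 1`
    left
    have hμe : μ = 1 := le_antisymm hμ1 hmg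
    rw [hμe] at hd0 hd1 hlg
    simp only [Nat.cast_one, mul_one] at hd0 hd1 hlg
    have hmem : g ∈ hfin.toFinset := by
      rw [Set.Finite.mem_toFinset]
      refine ⟨fun i => ?_, ?_⟩
      · fin_cases i
        · have := hd0.trans hN
          exact_mod_cast this
        · have := hd1.trans hN
          exact_mod_cast this
      · rcases lt_or_eq_of_le (Pool.Agent.H393R2.RothNS.l1_nonneg g) with h | h
        · rw [← log_le_iff_le_exp h]
          exact hlg
        · rw [← h]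
          positivity
    have haz : aeval z g = 0 := by
      rw [← tc_zero]
      refine mult_lt z hg0 0 ?_
      rw [← hμ, hμe]
      simp
    rw [hG, map_prod]
    refine Finset.prod_eq_zero hmem ?_
    rw [if_neg hg0]
    exact haz

end Pool.Agent.H883.ZR.S6
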