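import Pool.Agent.H883.ZR.Base

set_option autoImplicit false

/-!
# A two-variable Mahler measure (statement `S_6b` by helper883)

`mm f` is the mean over the unit circle of the logarithmic Mahler measures of the specialisations
of the first variable of `f`.
-/

namespace Pool.Agent.H883.ZR.S6b

open Real MvPolynomial Finset MeasureTheory
open Pool.Agent.H393R2.RothNS (l1)
open Pool.Agent.H883.ZR

/-- the exponent `(i, j)` -/
noncomputable def ex (i j : ℕ) : Fin 2 →₀ ℕ := Finsupp.single 0 i + Finsupp.single 1 j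

lemma ex_zero (i j : ℕ) : ex i j 0 = i := by simp [ex]

lemma ex_one (i j : ℕ) : ex i j 1 = j := by simp [ex]

lemma ex_eq (s : Fin 2 →₀ ℕ) : ex (s 0) (s 1) = s := by
  ext k
  fin_cases k
  · exact ex_zero _ _
  · exact ex_one _ _

/-- passage to polynomials in the second variable over the polynomials in the first -/
noncomputable def ph : MvPolynomial (Fin 2) ℤ →+* Polynomial (Polynomial ℤ) :=
  MvPolynomial.eval₂Hom (Int.castRingHom _) ![Polynomial.C Polynomial.X, Polynomial.X]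

lemma ph_monomial (s : Fin 2 →₀ ℕ) (a : ℤ) :
    ph (monomial s a) = Polynomial.monomial (s 1) (Polynomial.monomial (s 0) a) := by
  unfold ph
  rw [MvPolynomial.eval₂Hom_monomial, Finsupp.prod_fintype _ _ (fun i => pow_zero _),
    Fin.prod_univ_two]
  simp only [Matrix.cons_val_zero, Matrix.cons_val_one]
  rw [← Polynomial.C_mul_X_pow_eq_monomial, ← Polynomial.C_mul_X_pow_eq_monomial]
  simp only [map_mul, map_pow, eq_intCast, map_intCast]
  ring

lemma coeff_ph (f : MvPolynomial (Fin 2) ℤ) (i j : ℕ) :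
    ((ph f).coeff j).coeff i = coeff (ex i j) f := by
  induction f using MvPolynomial.induction_on' with
  | monomial s a =>
    rw [ph_monomial, Polynomial.coeff_monomial, coeff_monomial]
    by_cases h1 : s 1 = j
    · rw [if_pos h1, Polynomial.coeff_monomial]
      by_cases h0 : s 0 = i
      · rw [if_pos h0, if_pos]
        rw [← h0, ← h1, ex_eq]
      · rw [if_neg h0, if_neg]
        intro h
        apply h0
        rw [h, ex_zero]
    · rw [if_neg h1, Polynomial.coeff_zero, if_neg]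
      intro h
      apply h1
      rw [h, ex_one]
  | add p q hp hq =>
    rw [map_add, Polynomial.coeff_add, Polynomial.coeff_add, hp, hq, coeff_add]

lemma ph_ne {f : MvPolynomial (Fin 2) ℤ} (hf : f ≠ 0) : ph f ≠ 0 := by
  intro h
  apply hf
  ext s
  rw [← ex_eq s, ← coeff_ph, h]
  simp

lemma deg1 (f : MvPolynomial (Fin 2) ℤ) : (ph f).natDegree ≤ degreeOf 1 f := by
  rw [Polynomial.natDegree_le_iff_coeff_eq_zero]
  intro j hj
  ext i
  rw [coeff_ph, Polynomial.coeff_zero]
  by_contra h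
  have h1 := monomial_le_degreeOf 1 (MvPolynomial.mem_support_iff.2 h)
  rw [ex_one] at h1
  omega

lemma deg0 (f : MvPolynomial (Fin 2) ℤ) (j : ℕ) : ((ph f).coeff j).natDegree ≤ degreeOf 0 f := by
  rw [Polynomial.natDegree_le_iff_coeff_eq_zero]
  intro i hi
  rw [coeff_ph]
  by_contra h
  have h1 := monomial_le_degreeOf 0 (MvPolynomial.mem_support_iff.2 h)
  rw [ex_zero] at h1
  omega

lemma l1_rect (f : MvPolynomial (Fin 2) ℤ) :
    l1 f = ∑ j ∈ range (degreeOf 1 f + 1), ∑ i ∈ range (degreeOf 0 f + 1),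
      |((coeff (ex i j) f : ℤ) : ℝ)| := by
  classical
  unfold l1
  rw [← Finset.sum_product' (f := fun j i => |((coeff (ex i j) f : ℤ) : ℝ)|)]
  rw [← Finset.sum_image (s := range (degreeOf 1 f + 1) ×ˢ range (degreeOf 0 f + 1))
    (g := fun p : ℕ × ℕ => ex p.2 p.1) (f := fun s => |((coeff s f : ℤ) : ℝ)|)]
  · refine Finset.sum_subset ?_ ?_
    · intro s hs
      rw [Finset.mem_image]
      refine ⟨(s 1, s 0), ?_, ex_eq s⟩
      rw [Finset.mem_product, Finset.mem_range, Finset.mem_range]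
      exact ⟨Nat.lt_succ_of_le (monomial_le_degreeOf 1 hs),
        Nat.lt_succ_of_le (monomial_le_degreeOf 0 hs)⟩
    · intro s _ hs
      rw [MvPolynomial.notMem_support_iff] at hs
      rw [hs]
      simp
  · intro p _ q _ h
    have h0 := congrArg (fun s => s 0) h
    have h1 := congrArg (fun s => s 1) h
    simp only [ex_zero, ex_one] at h0 h1
    exact Prod.ext h1 h0

/-- specialisation of the first variable -/
noncomputable def sp (P : Polynomial (Polynomial ℤ)) (x : ℂ) : Polynomial ℂ :=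
  P.map (Polynomial.eval₂RingHom (Int.castRingHom ℂ) x)

lemma sp_coeff (P : Polynomial (Polynomial ℤ)) (x : ℂ) (j : ℕ) :
    (sp P x).coeff j = ((P.coeff j).map (Int.castRingHom ℂ)).eval x := by
  unfold sp
  rw [Polynomial.coeff_map, Polynomial.eval_map]
  rfl

lemma sp_mul (P Q : Polynomial (Polynomial ℤ)) (x : ℂ) : sp (P * Q) x = sp P x * sp Q x := by
  unfold sp
  rw [Polynomial.map_mul]

lemma sp_deg (P : Polynomial (Polynomial ℤ)) (x : ℂ) : (sp P x).natDegree ≤ P.natDegree :=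
  Polynomial.natDegree_map_le

/-- the logarithmic Mahler measure of a specialisation -/
noncomputable def G (P : Polynomial (Polynomial ℤ)) (θ : ℝ) : ℝ :=
  (sp P (circleMap 0 1 θ)).logMahlerMeasure

/-- the two-variable Mahler measure -/
noncomputable def mm (f : MvPolynomial (Fin 2) ℤ) : ℝ :=
  (2 * π)⁻¹ * ∫ θ in (0:ℝ)..(2 * π), G (ph f) θ

lemma measurable_G (P : Polynomial (Polynomial ℤ)) : Measurable (G P) := by
  have h1 : Continuous fun z : ℝ × ℝ => (sp P (circleMap 0 1 z.1)).eval (circleMap 0 1 z.2) := by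
    unfold sp
    simp only [Polynomial.eval_map, Polynomial.eval₂_eq_sum_range]
    refine continuous_finsetSum _ fun j _ => ?_
    refine Continuous.mul ?_ ?_
    · have h2 : Continuous fun x : ℂ => Polynomial.eval₂RingHom (Int.castRingHom ℂ) x (P.coeff j) :=
        Polynomial.continuous_eval₂ (P.coeff j) (Int.castRingHom ℂ)
      exact h2.comp ((continuous_circleMap 0 1).comp continuous_fst)
    · exact (((continuous_circleMap 0 1).comp continuous_snd).pow j)
  have h2 : Measurable fun z : ℝ × ℝ =>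
      Real.log ‖(sp P (circleMap 0 1 z.1)).eval (circleMap 0 1 z.2)‖ :=
    Real.measurable_log.comp h1.norm.measurable
  have h3 := (h2.stronglyMeasurable.integral_prod_right'
    (ν := (volume : Measure ℝ).restrict (Set.Ioc 0 (2 * π)))).measurable
  have h4 : G P = fun θ => (2 * π)⁻¹ * ∫ φ in Set.Ioc 0 (2 * π),
      Real.log ‖(sp P (circleMap 0 1 θ)).eval (circleMap 0 1 φ)‖ := by
    ext θ
    unfold G
    rw [Polynomial.logMahlerMeasure_def, Real.circleAverage_def, smul_eq_mul,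
      intervalIntegral.integral_of_le (by positivity)]
  rw [h4]
  exact h3.const_mul _

lemma ae_ne {q : Polynomial ℂ} (hq : q ≠ 0) : ∀ᵐ θ : ℝ, q.eval (circleMap 0 1 θ) ≠ 0 := by
  have h1 : {θ : ℝ | ¬ q.eval (circleMap 0 1 θ) ≠ 0} ⊆
      circleMap 0 1 ⁻¹' (q.rootSet ℂ) := by
    intro θ hθ
    rw [Set.mem_ofPred_eq, not_not] at hθ
    rw [Set.mem_preimage, Polynomial.mem_rootSet]
    exact ⟨hq, by simpa using hθ⟩
  have h2 : (circleMap (0:ℂ) 1 ⁻¹' (q.rootSet ℂ)).Countable :=
    Set.Countable.preimage_circleMap (Polynomial.rootSet_finite q ℂ).countable 0 one_ne_zero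
  exact measure_mono_null h1 (h2.measure_zero _)

lemma ae_ne_int {q : Polynomial ℤ} (hq : q ≠ 0) :
    ∀ᵐ θ : ℝ, (q.map (Int.castRingHom ℂ)).eval (circleMap 0 1 θ) ≠ 0 :=
  ae_ne ((Polynomial.map_ne_zero_iff (Int.castRingHom ℂ).injective_int).2 hq)

/-- the logarithm of the modulus of an integral polynomial on the unit circle -/
noncomputable def lg (q : Polynomial ℤ) (θ : ℝ) : ℝ :=
  Real.log ‖(q.map (Int.castRingHom ℂ)).eval (circleMap 0 1 θ)‖

lemma lg_int (q : Polynomial ℤ) : IntervalIntegrable (lg q) volume 0 (2 * π) :=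
  Polynomial.intervalIntegrable_mahlerMeasure _

lemma lg_mean (q : Polynomial ℤ) :
    (2 * π)⁻¹ * ∫ θ in (0:ℝ)..(2 * π), lg q θ =
      Real.log ((q.map (Int.castRingHom ℂ)).mahlerMeasure) := by
  rw [← Polynomial.logMahlerMeasure_eq_log_MahlerMeasure, Polynomial.logMahlerMeasure_def,
    Real.circleAverage_def, smul_eq_mul]
  rfl

lemma lg_mean_nonneg {q : Polynomial ℤ} (hq : q ≠ 0) :
    0 ≤ (2 * π)⁻¹ * ∫ θ in (0:ℝ)..(2 * π), lg q θ := by
  rw [lg_mean]
  exact Real.log_nonneg (Polynomial.one_le_mahlerMeasure_of_ne_zero hq)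

lemma G_lower {P : Polynomial (Polynomial ℤ)} (hP : P ≠ 0) :
    ∀ᵐ θ : ℝ, lg P.leadingCoeff θ ≤ G P θ := by
  filter_upwards [ae_ne_int (Polynomial.leadingCoeff_ne_zero.2 hP)] with θ hθ
  unfold lg G
  rw [Polynomial.logMahlerMeasure_eq_log_MahlerMeasure]
  apply Real.log_le_log (norm_pos_iff.2 hθ)
  have h1 : (sp P (circleMap 0 1 θ)).leadingCoeff =
      (P.leadingCoeff.map (Int.castRingHom ℂ)).eval (circleMap 0 1 θ) := by
    have h2 : (sp P (circleMap 0 1 θ)).coeff P.natDegree ≠ 0 := by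
      rw [sp_coeff]
      exact hθ
    have h3 : (sp P (circleMap 0 1 θ)).natDegree = P.natDegree :=
      le_antisymm (sp_deg _ _) (Polynomial.le_natDegree_of_ne_zero h2)
    unfold Polynomial.leadingCoeff
    rw [h3, sp_coeff]
  rw [← h1]
  exact Polynomial.leadingCoeff_le_mahlerMeasure _

lemma norm_eval_le {q : Polynomial ℤ} {m : ℕ} (hq : q.natDegree ≤ m) {x : ℂ} (hx : ‖x‖ = 1) :
    ‖(q.map (Int.castRingHom ℂ)).eval x‖ ≤ ∑ i ∈ range (m + 1), |((q.coeff i : ℤ) : ℝ)| := by
  have h1 : (q.map (Int.castRingHom ℂ)).natDegree < m + 1 :=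
    Nat.lt_succ_of_le (Polynomial.natDegree_map_le.trans hq)
  rw [Polynomial.eval_eq_sum_range' h1]
  refine (norm_sum_le _ _).trans (Finset.sum_le_sum fun i _ => ?_)
  rw [norm_mul, norm_pow, hx, one_pow, mul_one, Polynomial.coeff_map, eq_intCast,
    Complex.norm_intCast]

lemma norm_cm (θ : ℝ) : ‖circleMap (0:ℂ) 1 θ‖ = 1 := by
  simp [circleMap]

lemma G_upper {P : Polynomial (Polynomial ℤ)} {m n : ℕ} {L : ℝ} (hn : P.natDegree ≤ n)
    (hm : ∀ j, (P.coeff j).natDegree ≤ m)
    (hL : ∑ j ∈ range (n + 1), ∑ i ∈ range (m + 1), |(((P.coeff j).coeff i : ℤ) : ℝ)| ≤ L)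
    (hL1 : 1 ≤ L) (θ : ℝ) : G P θ ≤ Real.log L := by
  unfold G
  rw [Polynomial.logMahlerMeasure_eq_log_MahlerMeasure]
  by_cases h0 : sp P (circleMap 0 1 θ) = 0
  · rw [h0, Polynomial.mahlerMeasure_zero, Real.log_zero]
    exact Real.log_nonneg hL1
  · apply Real.log_le_log (Polynomial.mahlerMeasure_pos_of_ne_zero h0)
    refine (Polynomial.mahlerMeasure_le_sum_norm_coeff _).trans ?_
    rw [Polynomial.sum_over_range' _ (fun _ => norm_zero) (n + 1)
      (Nat.lt_succ_of_le ((sp_deg _ _).trans hn))]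
    refine le_trans (Finset.sum_le_sum fun j _ => ?_) hL
    rw [sp_coeff]
    exact norm_eval_le (hm j) (norm_cm θ)

lemma G_int {P : Polynomial (Polynomial ℤ)} (hP : P ≠ 0) {L : ℝ} (hL : ∀ θ, G P θ ≤ L) :
    IntervalIntegrable (G P) volume 0 (2 * π) := by
  have h1 : IntervalIntegrable (fun θ => |lg P.leadingCoeff θ| + |L|) volume 0 (2 * π) :=
    (lg_int _).abs.add intervalIntegrable_const
  refine h1.mono_fun (measurable_G P).aestronglyMeasurable ?_
  refine ae_restrict_of_ae ?_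
  filter_upwards [G_lower hP] with θ hθ
  rw [Real.norm_eq_abs, Real.norm_eq_abs, abs_of_nonneg (a := _ + _) (by positivity), abs_le]
  constructor
  · have h2 := neg_abs_le (lg P.leadingCoeff θ)
    have h3 := abs_nonneg L
    linarith
  · have h2 := le_abs_self L
    have h3 := abs_nonneg (lg P.leadingCoeff θ)
    linarith [hL θ]

lemma one_le_l1 {f : MvPolynomial (Fin 2) ℤ} (hf : f ≠ 0) : 1 ≤ l1 f := by
  obtain ⟨s, hs⟩ := MvPolynomial.support_nonempty.2 hf
  unfold l1
  have h1 : (1:ℝ) ≤ |((coeff s f : ℤ) : ℝ)| := by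
    have h2 : 1 ≤ |coeff s f| := Int.one_le_abs (MvPolynomial.mem_support_iff.1 hs)
    exact_mod_cast h2
  exact h1.trans (Finset.single_le_sum (f := fun a => |((coeff a f : ℤ) : ℝ)|)
    (fun a _ => abs_nonneg _) hs)

lemma Gf_upper {f : MvPolynomial (Fin 2) ℤ} (hf : f ≠ 0) (θ : ℝ) :
    G (ph f) θ ≤ Real.log (l1 f) := by
  refine G_upper (deg1 f) (deg0 f) ?_ (one_le_l1 hf) θ
  simp only [coeff_ph]
  rw [l1_rect]

lemma Gf_int {f : MvPolynomial (Fin 2) ℤ} (hf : f ≠ 0) :
    IntervalIntegrable (G (ph f)) volume 0 (2 * π) :=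
  G_int (ph_ne hf) (Gf_upper hf)

lemma sp_ne {P : Polynomial (Polynomial ℤ)} (hP : P ≠ 0) :
    ∀ᵐ θ : ℝ, sp P (circleMap 0 1 θ) ≠ 0 := by
  filter_upwards [ae_ne_int (Polynomial.leadingCoeff_ne_zero.2 hP)] with θ hθ h
  apply hθ
  have h1 := sp_coeff P (circleMap 0 1 θ) P.natDegree
  rw [h, Polynomial.coeff_zero] at h1
  exact h1.symm

lemma mm_mul {f g : MvPolynomial (Fin 2) ℤ} (hf : f ≠ 0) (hg : g ≠ 0) :
    mm (f * g) = mm f + mm g := by
  unfold mm
  rw [← mul_add, ← intervalIntegral.integral_add (Gf_int hf) (Gf_int hg)]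
  congr 1
  apply intervalIntegral.integral_congr_ae
  filter_upwards [sp_ne (ph_ne hf), sp_ne (ph_ne hg)] with θ h1 h2 _
  unfold G
  rw [map_mul, sp_mul, Polynomial.logMahlerMeasure_mul_eq_add_logMahlerMeasure (mul_ne_zero h1 h2)]

lemma mm_le {f : MvPolynomial (Fin 2) ℤ} {b : ℝ → ℝ} (hf : f ≠ 0)
    (hb : IntervalIntegrable b volume 0 (2 * π)) (h : ∀ᵐ θ : ℝ, G (ph f) θ ≤ b θ) :
    mm f ≤ (2 * π)⁻¹ * ∫ θ in (0:ℝ)..(2 * π), b θ := by
  unfold mm
  have h1 := intervalIntegral.integral_mono_ae (μ := volume) (by positivity : (0:ℝ) ≤ 2 * π)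
    (Gf_int hf) hb h
  exact mul_le_mul_of_nonneg_left h1 (by positivity)

lemma le_mm {f : MvPolynomial (Fin 2) ℤ} {b : ℝ → ℝ} (hf : f ≠ 0)
    (hb : IntervalIntegrable b volume 0 (2 * π)) (h : ∀ᵐ θ : ℝ, b θ ≤ G (ph f) θ) :
    (2 * π)⁻¹ * ∫ θ in (0:ℝ)..(2 * π), b θ ≤ mm f := by
  unfold mm
  have h1 := intervalIntegral.integral_mono_ae (μ := volume) (by positivity : (0:ℝ) ≤ 2 * π)
    hb (Gf_int hf) h
  exact mul_le_mul_of_nonneg_left h1 (by positivity)

lemma coeff_bound {f : MvPolynomial (Fin 2) ℤ} (hf : f ≠ 0) (i j : ℕ) :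
    |((coeff (ex i j) f : ℤ) : ℝ)| ≤
      2 ^ (degreeOf 0 f + degreeOf 1 f) * Real.exp (mm f) := by
  by_cases h0 : coeff (ex i j) f = 0
  · rw [h0, Int.cast_zero, abs_zero]
    positivity
  set q : Polynomial ℤ := (ph f).coeff j with hq
  have hq0 : q ≠ 0 := by
    intro h
    apply h0
    rw [← coeff_ph, ← hq, h, Polynomial.coeff_zero]
  have h1 : (2 * π)⁻¹ * ∫ θ in (0:ℝ)..(2 * π), (lg q θ - degreeOf 1 f * Real.log 2) ≤ mm f := by
    apply le_mm hf ((lg_int q).sub intervalIntegrable_const)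
    filter_upwards [ae_ne_int hq0] with θ hθ
    have h2 : sp (ph f) (circleMap 0 1 θ) ≠ 0 := by
      intro h
      apply hθ
      have h3 := sp_coeff (ph f) (circleMap 0 1 θ) j
      rw [h, Polynomial.coeff_zero] at h3
      exact h3.symm
    have h3 : ‖(q.map (Int.castRingHom ℂ)).eval (circleMap 0 1 θ)‖ ≤
        2 ^ (degreeOf 1 f) * (sp (ph f) (circleMap 0 1 θ)).mahlerMeasure := by
      rw [← sp_coeff]
      refine (Polynomial.norm_coeff_le_choose_mul_mahlerMeasure _ _).trans ?_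
      apply mul_le_mul_of_nonneg_right _ (Polynomial.mahlerMeasure_nonneg _)
      have h4 : (sp (ph f) (circleMap 0 1 θ)).natDegree.choose j ≤ 2 ^ (degreeOf 1 f) :=
        (Nat.choose_le_two_pow _ _).trans (Nat.pow_le_pow_right (by norm_num)
          ((sp_deg _ _).trans (deg1 f)))
      exact_mod_cast h4
    have h5 := Real.log_le_log (norm_pos_iff.2 hθ) h3
    rw [Real.log_mul (by positivity) (Polynomial.mahlerMeasure_pos_of_ne_zero h2).ne',
      Real.log_pow, ← Polynomial.logMahlerMeasure_eq_log_MahlerMeasure] at h5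
    show lg q θ - degreeOf 1 f * Real.log 2 ≤ (sp (ph f) (circleMap 0 1 θ)).logMahlerMeasure
    unfold lg
    linarith
  have h2 : Real.log ((q.map (Int.castRingHom ℂ)).mahlerMeasure) ≤
      degreeOf 1 f * Real.log 2 + mm f := by
    rw [intervalIntegral.integral_sub (lg_int q) intervalIntegrable_const, mul_sub, lg_mean,
      intervalIntegral.integral_const, smul_eq_mul] at h1
    have h3 : (2 * π)⁻¹ * ((2 * π - 0) * (degreeOf 1 f * Real.log 2)) =
        degreeOf 1 f * Real.log 2 := by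
      rw [sub_zero]
      field_simp
    rw [h3] at h1
    linarith
  have h3 : (q.map (Int.castRingHom ℂ)).mahlerMeasure ≤ 2 ^ (degreeOf 1 f) * Real.exp (mm f) := by
    have h4 : 0 < (q.map (Int.castRingHom ℂ)).mahlerMeasure :=
      Polynomial.mahlerMeasure_pos_of_ne_zero
        ((Polynomial.map_ne_zero_iff (Int.castRingHom ℂ).injective_int).2 hq0)
    rw [← Real.exp_log h4]
    have h5 : (2:ℝ) ^ (degreeOf 1 f) = Real.exp (degreeOf 1 f * Real.log 2) := by
      rw [Real.exp_nat_mul, Real.exp_log (by norm_num)]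
    rw [h5, ← Real.exp_add]
    exact Real.exp_le_exp.2 h2
  have h4 := Polynomial.norm_coeff_le_choose_mul_mahlerMeasure i (q.map (Int.castRingHom ℂ))
  rw [Polynomial.coeff_map, eq_intCast, Complex.norm_intCast, hq, coeff_ph, ← hq] at h4
  refine h4.trans ?_
  have h5 : ((q.map (Int.castRingHom ℂ)).natDegree.choose i : ℝ) ≤ 2 ^ (degreeOf 0 f) := by
    have h6 : (q.map (Int.castRingHom ℂ)).natDegree.choose i ≤ 2 ^ (degreeOf 0 f) :=
      (Nat.choose_le_two_pow _ _).trans (Nat.pow_le_pow_right (by norm_num)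
        (Polynomial.natDegree_map_le.trans (deg0 f j)))
    exact_mod_cast h6
  calc ((q.map (Int.castRingHom ℂ)).natDegree.choose i : ℝ) *
        (q.map (Int.castRingHom ℂ)).mahlerMeasure
      ≤ 2 ^ (degreeOf 0 f) * (2 ^ (degreeOf 1 f) * Real.exp (mm f)) :=
        mul_le_mul h5 h3 (Polynomial.mahlerMeasure_nonneg _) (by positivity)
    _ = _ := by rw [pow_add]; ring

theorem s6b : S_6b := by
  refine ⟨mm, fun f g hf hg => mm_mul hf hg, ?_, ?_, ?_⟩
  · intro f hf
    exact (lg_mean_nonneg (Polynomial.leadingCoeff_ne_zero.2 (ph_ne hf))).trans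
      (le_mm hf (lg_int _) (G_lower (ph_ne hf)))
  · intro f hf
    refine (mm_le hf (b := fun _ => Real.log (l1 f)) intervalIntegrable_const
      (.of_forall (Gf_upper hf))).trans (le_of_eq ?_)
    rw [intervalIntegral.integral_const, smul_eq_mul, sub_zero]
    field_simp
  · intro f hf
    have h1 : l1 f ≤ 4 ^ (degreeOf 0 f + degreeOf 1 f) * Real.exp (mm f) := by
      rw [l1_rect]
      calc ∑ j ∈ range (degreeOf 1 f + 1), ∑ i ∈ range (degreeOf 0 f + 1),
            |((coeff (ex i j) f : ℤ) : ℝ)|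
          ≤ ∑ j ∈ range (degreeOf 1 f + 1), ∑ i ∈ range (degreeOf 0 f + 1),
            2 ^ (degreeOf 0 f + degreeOf 1 f) * Real.exp (mm f) :=
            Finset.sum_le_sum fun j _ => Finset.sum_le_sum fun i _ => coeff_bound hf i j
        _ = ((degreeOf 1 f + 1 : ℕ) : ℝ) * (((degreeOf 0 f + 1 : ℕ) : ℝ) *
            (2 ^ (degreeOf 0 f + degreeOf 1 f) * Real.exp (mm f))) := by
            rw [Finset.sum_const, Finset.sum_const, Finset.card_range, Finset.card_range,
              nsmul_eq_mul, nsmul_eq_mul]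
        _ ≤ ((2 ^ (degreeOf 1 f) : ℕ) : ℝ) * (((2 ^ (degreeOf 0 f) : ℕ) : ℝ) *
            (2 ^ (degreeOf 0 f + degreeOf 1 f) * Real.exp (mm f))) := by
            have h2 : degreeOf 1 f + 1 ≤ 2 ^ (degreeOf 1 f) := Nat.lt_two_pow_self
            have h3 : degreeOf 0 f + 1 ≤ 2 ^ (degreeOf 0 f) := Nat.lt_two_pow_self
            gcongr
        _ = _ := by
            push_cast
            rw [show (4:ℝ) = 2 * 2 by norm_num, mul_pow, pow_add]
            ring
    have h2 : (0:ℝ) < l1 f := lt_of_lt_of_le one_pos (one_le_l1 hf)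
    have h3 := Real.log_le_log h2 h1
    rw [Real.log_mul (by positivity) (Real.exp_pos _).ne', Real.log_pow, Real.log_exp] at h3
    push_cast at h3
    linarith

end Pool.Agent.H883.ZR.S6b
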