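import Mathlib
import Pool.Graph.R_seed8.H393R2.Roth6
import Pool.Agent.H883.ZQ.Mono
import Pool.Agent.H883.ZQ.Rk

set_option autoImplicit false
set_option linter.unusedSectionVars false

/-!
# Taylor coefficients of integral polynomials at points of number fields: statements
-/

namespace Pool.Agent.H883.ZR

open Real NumberField Height Module Finset MvPolynomial
open Pool.Agent.H393R2.RothNS (TT DD l1)
open Pool.Agent.H883.ZQ (mo rel rk)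

/-- the Taylor coefficients at `z` of an integral polynomial -/
noncomputable def tc {σ K : Type} [Fintype σ] [Field K] (z : σ → K) (F : MvPolynomial σ ℤ)
    (κ : σ →₀ ℕ) : K :=
  coeff κ (TT z (map (Int.castRingHom K) F))

/-- **S4.** Heights of roots of high order. -/
def S_4 : Prop :=
  ∀ (K : Type) [Field K] [NumberField K] (V : Polynomial ℤ), V ≠ 0 → ∀ (x : K) (M : ℕ),
    (Polynomial.X - Polynomial.C x) ^ M ∣ V.map (Int.castRingHom K) →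
    (M : ℝ) * logHeight₁ x ≤ finrank ℚ K * Real.log (∑ i ∈ V.support, |((V.coeff i : ℤ) : ℝ)|)

/-- **S4'.** The same for polynomials in one variable, given as elements of
`MvPolynomial (Fin 1) ℤ`. -/
def S_4' : Prop :=
  ∀ (K : Type) [Field K] [NumberField K] (V : MvPolynomial (Fin 1) ℤ), V ≠ 0 →
    ∀ (x : Fin 1 → K) (M : ℕ), (∀ κ : Fin 1 →₀ ℕ, κ 0 < M → tc x V κ = 0) →
    (M : ℝ) * logHeight₁ (x 0) ≤ finrank ℚ K * Real.log (l1 V)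

/-- **SZ.** Elimination of coefficients in a field by generalised Wronskians. -/
def S_Z : Prop :=
  ∀ (m : ℕ) (J : Type) [Fintype J] (B : J → MvPolynomial (Fin m) ℤ), (∃ j, B j ≠ 0) →
    ∃ W : MvPolynomial (Fin m) ℤ, W ≠ 0 ∧
      (∀ N : Fin m → ℕ, (∀ j i, degreeOf i (B j) ≤ N i) →
        (∀ i, degreeOf i W ≤ Fintype.card J * N i) ∧
        ∀ L : ℝ, 1 ≤ L → (∀ j, l1 (B j) ≤ L) →
          l1 W ≤ (Fintype.card J).factorial * (2 ^ (∑ i, N i) * L) ^ Fintype.card J) ∧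
      ∀ (K : Type) [Field K] [CharZero K] (z : Fin m → K) (a : J → K) (w : Fin m → ℝ) (c w1 : ℝ),
        (∀ i, 0 ≤ w i) → (∀ i, w i ≤ w1) → 0 ≤ w1 →
        ∑ j, a j • map (Int.castRingHom K) (B j) ≠ 0 →
        (∀ κ : Fin m →₀ ℕ, ∑ i, w i * κ i < c →
          coeff κ (TT z (∑ j, a j • map (Int.castRingHom K) (B j))) = 0) →
        ∀ κ : Fin m →₀ ℕ, ∑ i, w i * κ i < c - Fintype.card J * w1 → tc z W κ = 0

/-- **SR.** Roth's lemma at points of number fields. -/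
def S_R (m : ℕ) : Prop :=
  ∀ s : ℝ, 0 < s → ∃ ω : ℝ, 0 < ω ∧
    ∀ (K : Type) [Field K] [NumberField K] (r : Fin m → ℕ) (R : ℝ), 0 < R → (∀ h, 0 < r h) →
      (∀ i j : Fin m, i < j → (r i : ℝ) ≤ ω * r j) → (∀ h, (r h : ℝ) ≤ ω * R) →
      ∀ z : Fin m → K, (∀ h, finrank ℚ K * R ≤ r h * logHeight₁ (z h)) →
        ∀ P : MvPolynomial (Fin m) ℤ, P ≠ 0 → (∀ h, degreeOf h P ≤ r h) →
          l1 P ≤ exp (ω * R) →
          ∃ κ : Fin m →₀ ℕ, ∑ h, (κ h : ℝ) / r h < s ∧ tc z P κ ≠ 0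

/-- **S6b.** A two-variable Mahler measure. -/
def S_6b : Prop :=
  ∃ mm : MvPolynomial (Fin 2) ℤ → ℝ,
    (∀ f g, f ≠ 0 → g ≠ 0 → mm (f * g) = mm f + mm g) ∧
    (∀ f, f ≠ 0 → 0 ≤ mm f) ∧
    (∀ f, f ≠ 0 → mm f ≤ log (l1 f)) ∧
    ∀ f, f ≠ 0 → log (l1 f) ≤ mm f + (degreeOf 0 f + degreeOf 1 f) * log 4

/-- **S6c.** Irreducible curves with a singular point. -/
def S_6c : Prop :=
  ∃ C : ℝ, 0 ≤ C ∧ ∀ (K : Type) [Field K] [NumberField K] (z : Fin 2 → K)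
    (g : MvPolynomial (Fin 2) ℤ) (d μ : ℕ), Irreducible g → 2 ≤ μ → (∀ i, degreeOf i g ≤ d) →
    (∀ κ : Fin 2 →₀ ℕ, κ 0 + κ 1 < μ → tc z g κ = 0) →
    ∃ i, (μ : ℝ) ^ 2 * logHeight₁ (z i) ≤ finrank ℚ K * (C * (d * log (l1 g) + (d : ℝ) ^ 2))

/-- **S6.** Points of high multiplicity. -/
def S_6 : Prop :=
  ∀ c Λ : ℝ, 0 < c → 0 < Λ → ∃ (G : MvPolynomial (Fin 2) ℤ) (B : ℝ), G ≠ 0 ∧
    ∀ (K : Type) [Field K] [NumberField K] (z : Fin 2 → K) (D : ℕ) (W : MvPolynomial (Fin 2) ℤ),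
      W ≠ 0 → 0 < D → (∀ i, degreeOf i W ≤ D) → l1 W ≤ exp (Λ * D) →
      (∀ κ : Fin 2 →₀ ℕ, (κ 0 + κ 1 : ℝ) < c * D → tc z W κ = 0) →
      aeval z G = 0 ∨ ∃ i, logHeight₁ (z i) ≤ finrank ℚ K * B

/-- **S7.** Irreducible factors. -/
def S_7 : Prop :=
  ∀ D0 : ℕ, ∃ C : ℝ, 0 ≤ C ∧ ∀ (K : Type) [Field K] (z : Fin 2 → K) (A : MvPolynomial (Fin 2) ℤ),
    A ≠ 0 → (∀ i, degreeOf i A ≤ D0) → CharZero K → aeval z A = 0 →
    ∃ g : MvPolynomial (Fin 2) ℤ, Irreducible g ∧ g ∣ A ∧ aeval z g = 0 ∧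
      (∀ i, degreeOf i g ≤ D0) ∧ log (l1 g) ≤ log (l1 A) + C

/-- **S8.** Common zeros of coprime polynomials. -/
def S_8 : Prop :=
  ∀ D0 : ℕ, ∃ C : ℝ, 0 ≤ C ∧ ∀ (K : Type) [Field K] [NumberField K] (z : Fin 2 → K)
    (g A : MvPolynomial (Fin 2) ℤ), Irreducible g → (∀ i, 0 < degreeOf i g) → ¬ g ∣ A →
    (∀ i, degreeOf i g ≤ D0) → (∀ i, degreeOf i A ≤ D0) → aeval z g = 0 → aeval z A = 0 →
    ∃ i, logHeight₁ (z i) ≤ finrank ℚ K * (C * (1 + log (l1 g) + log (l1 A)))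

/-- **S9a.** Independence of products of powers on a curve. -/
def S_9a : Prop :=
  ∀ (D0 : ℕ) (g : MvPolynomial (Fin 2) ℤ), Irreducible g → (∀ i, 0 < degreeOf i g) →
    (∀ i, degreeOf i g ≤ D0) → ∀ e0 : Bool, ∃ k l : Bool → ℤ,
      (∀ b, 0 < k b ∧ k b ≤ D0) ∧ (∀ b, |l b| ≤ D0) ∧
      ∀ (ι : Type) [Fintype ι] (E : ι → Fin 2 × Bool → ℕ) (c : ι → ℤ),
        Function.Injective (fun m => (E m (0, e0) : ℝ) + ∑ b, ((l b : ℝ) / k b) * E m (1, b)) →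
        g ∣ ∑ m, c m • mo (E m) → c = 0

/-- **S9b.** Sections of the space of relations for a curve and a line. -/
def S_9b : Prop :=
  ∀ ξ : Fin 3 × Bool → Fin 3 → ℝ, rk ξ Finset.univ = 3 → rk ξ {0, 1} = 3 → rk ξ {2} = 2 →
    ∀ q : Bool → Bool → ℝ, ∃ (e0 b : Bool) (a1 a2 : Fin 3 × Bool → ℝ), a1 ∈ rel ξ ∧ a2 ∈ rel ξ ∧
      a1 (0, e0) + ∑ b', q e0 b' * a1 (1, b') = 1 ∧ a1 (2, b) = 0 ∧
      a2 (0, e0) + ∑ b', q e0 b' * a2 (1, b') = 0 ∧ a2 (2, b) = 1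

/-- **S6c1.** The order of the resultant of two polynomials at a common zero. The polynomials
are given by their coefficients `f i ∈ K[X]` (`i ≤ m`) and `h i ∈ K[X]` (`i ≤ n`); the
hypotheses say that they vanish at the origin to the orders `a` and `b`. -/
def S_6c1 : Prop :=
  ∀ (K : Type) [Field K] (f h : Polynomial (Polynomial K)) (m n a b : ℕ), a ≤ m → b ≤ n →
    (∀ i, Polynomial.X ^ (a - i) ∣ f.coeff i) → (∀ i, Polynomial.X ^ (b - i) ∣ h.coeff i) →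
    Polynomial.X ^ (a * b) ∣ (Polynomial.sylvester f h m n).det

/-- **SS.** Siegel's lemma for combinations of polynomials. -/
def S_S : Prop :=
  ∀ (σ ι : Type) [Fintype ι] (P : ι → MvPolynomial σ ℤ) (S : Finset (σ →₀ ℕ)) (A : ℝ) (k : ℕ),
    1 ≤ A → (∀ m α, |((coeff α (P m) : ℤ) : ℝ)| ≤ A) → S.card < Fintype.card ι →
    S.card ≤ k * (Fintype.card ι - S.card) →
    ∃ c : ι → ℤ, c ≠ 0 ∧ (∀ α ∈ S, coeff α (∑ m, c m • P m) = 0) ∧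
      ∀ m, |(c m : ℝ)| ≤ (Fintype.card ι * A) ^ k

/-- **ST.** Taylor coefficients of products of powers. -/
def S_T : Prop :=
  ∀ (I : Type) [Fintype I] [DecidableEq I] (K : Type) [Field K] (v : AbsoluteValue K ℝ)
    (u : I → K), (∀ i, u i ≠ 0) → (∀ i, 1 - u i ≠ 0) → ∀ (e : I × Bool → ℕ) (κ : I →₀ ℕ),
    v (tc u (mo e) κ) ≤ 2 ^ (∑ r, e r) * (v (aeval u (mo e)) *
      ∏ i, (max 1 (max (v (u i))⁻¹ (v (1 - u i))⁻¹)) ^ κ i) ∧
    ((∀ x y, v (x + y) ≤ max (v x) (v y)) →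
      v (tc u (mo e) κ) ≤ v (aeval u (mo e)) *
        ∏ i, (max 1 (max (v (u i))⁻¹ (v (1 - u i))⁻¹)) ^ κ i)

end Pool.Agent.H883.ZR
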