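import Mathlib
import Pool.Agent.H883.ZR.Base

set_option autoImplicit false
set_option linter.unusedSectionVars false

/-!
# S6c: singular points of irreducible curves have small height
-/

namespace Pool.Agent.H883.ZR.S6c

open Real NumberField Height Module Finset MvPolynomial
open Pool.Agent.H393R2.RothNS

section field

variable {K : Type} [Field K]

/-- the coefficients, translated -/
noncomputable def chi (x : K) : MvPolynomial (Fin 1) ℤ →+* Polynomial K :=
  ((Polynomial.taylorAlgHom x : Polynomial K →ₐ[K] Polynomial K) : Polynomial K →+* Polynomial K).comp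
    ((Polynomial.mapRingHom (Int.castRingHom K)).comp
      ((uniqueAlgEquiv ℤ (Fin 1) : MvPolynomial (Fin 1) ℤ ≃ₐ[ℤ] Polynomial ℤ) :
        MvPolynomial (Fin 1) ℤ →+* Polynomial ℤ))

theorem chi_apply (x : K) (P : MvPolynomial (Fin 1) ℤ) :
    chi x P = Polynomial.taylor x ((uniqueAlgEquiv ℤ (Fin 1) P).map (Int.castRingHom K)) := rfl

theorem chi_inj [CharZero K] (x : K) : Function.Injective (chi x) := by
  intro P Q h
  rw [chi_apply, chi_apply] at h
  have h1 := Polynomial.taylor_injective x h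
  have h2 := Polynomial.map_injective (Int.castRingHom K) (RingHom.injective_int _) h1
  exact (uniqueAlgEquiv ℤ (Fin 1)).injective h2

theorem fse_C (c : K) : finSuccEquiv K 1 (C c) = Polynomial.C (C c) := by
  simp [finSuccEquiv_apply]

theorem fse_X1 (R : Type) [CommRing R] : finSuccEquiv R 1 (X (1 : Fin 2)) =
    Polynomial.C (X (0 : Fin 1)) := finSuccEquiv_X_succ (n := 1) (j := (0 : Fin 1))

theorem una_C (c : K) : uniqueAlgEquiv K (Fin 1) (C c) = Polynomial.C c := by
  simp

theorem una_X (R : Type) [CommRing R] :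
    uniqueAlgEquiv R (Fin 1) (X (0 : Fin 1)) = Polynomial.X := by
  simp

/-- the polynomial `g` in the variable `x0` over the ring of polynomials in `x1`, translated -/
theorem compat (z : Fin 2 → K) (g : MvPolynomial (Fin 2) ℤ) :
    Polynomial.taylor (Polynomial.C (z 0)) ((finSuccEquiv ℤ 1 g).map (chi (z 1))) =
      (finSuccEquiv K 1 (TT z (map (Int.castRingHom K) g))).map
        ((uniqueAlgEquiv K (Fin 1) : MvPolynomial (Fin 1) K ≃ₐ[K] Polynomial K) :
          MvPolynomial (Fin 1) K →+* Polynomial K) := by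
  let A : MvPolynomial (Fin 2) ℤ →+* Polynomial (Polynomial K) :=
    ((Polynomial.taylorAlgHom (Polynomial.C (z 0)) :
      Polynomial (Polynomial K) →ₐ[Polynomial K] Polynomial (Polynomial K)) :
      Polynomial (Polynomial K) →+* Polynomial (Polynomial K)).comp
      ((Polynomial.mapRingHom (chi (z 1))).comp
        ((finSuccEquiv ℤ 1 : MvPolynomial (Fin 2) ℤ ≃ₐ[ℤ] Polynomial (MvPolynomial (Fin 1) ℤ)) :
          MvPolynomial (Fin 2) ℤ →+* Polynomial (MvPolynomial (Fin 1) ℤ)))
  let B : MvPolynomial (Fin 2) ℤ →+* Polynomial (Polynomial K) :=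
    (Polynomial.mapRingHom
        ((uniqueAlgEquiv K (Fin 1) : MvPolynomial (Fin 1) K ≃ₐ[K] Polynomial K) :
          MvPolynomial (Fin 1) K →+* Polynomial K)).comp
      (((finSuccEquiv K 1 : MvPolynomial (Fin 2) K ≃ₐ[K] Polynomial (MvPolynomial (Fin 1) K)) :
          MvPolynomial (Fin 2) K →+* Polynomial (MvPolynomial (Fin 1) K)).comp
        (((TT z : MvPolynomial (Fin 2) K →ₐ[K] MvPolynomial (Fin 2) K) :
          MvPolynomial (Fin 2) K →+* MvPolynomial (Fin 2) K).comp
          (map (Int.castRingHom K))))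
  have hAB : A = B := by
    apply ringHom_ext'
    · exact RingHom.ext_int _ _
    · intro i
      have hA : ∀ P, A P = Polynomial.taylor (Polynomial.C (z 0))
        ((finSuccEquiv ℤ 1 P).map (chi (z 1))) := fun P => rfl
      have hB : ∀ P, B P = (finSuccEquiv K 1 (TT z (map (Int.castRingHom K) P))).map
        ((uniqueAlgEquiv K (Fin 1) : MvPolynomial (Fin 1) K ≃ₐ[K] Polynomial K) :
          MvPolynomial (Fin 1) K →+* Polynomial K) := fun P => rfl
      rw [hA, hB]
      have hT : TT z (map (Int.castRingHom K) (X i)) = X i + C (z i) := by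
        simp [TT]
      rw [hT]
      fin_cases i
      · show Polynomial.taylor (Polynomial.C (z 0))
          ((finSuccEquiv ℤ 1 (X 0)).map (chi (z 1))) =
          (finSuccEquiv K 1 (X 0 + C (z 0))).map _
        rw [map_add, finSuccEquiv_X_zero, finSuccEquiv_X_zero, fse_C, Polynomial.map_add,
          Polynomial.map_X, Polynomial.map_X, Polynomial.map_C, Polynomial.taylor_X,
          RingHom.coe_coe, una_C]
      · show Polynomial.taylor (Polynomial.C (z 0))
          ((finSuccEquiv ℤ 1 (X 1)).map (chi (z 1))) =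
          (finSuccEquiv K 1 (X 1 + C (z 1))).map _
        rw [map_add, fse_X1, fse_X1, fse_C, Polynomial.map_add, Polynomial.map_C,
          Polynomial.map_C, Polynomial.map_C, Polynomial.taylor_C, RingHom.coe_coe, una_C, una_X,
          chi_apply, una_X, Polynomial.map_X, Polynomial.taylor_X, Polynomial.C_add]
  exact DFunLike.congr_fun hAB g

theorem coeff_compat (z : Fin 2 → K) (g : MvPolynomial (Fin 2) ℤ) (j i : ℕ) :
    ((Polynomial.taylor (Polynomial.C (z 0)) ((finSuccEquiv ℤ 1 g).map (chi (z 1)))).coeff j).coeff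
      i = tc z g ((Finsupp.single (0 : Fin 1) i).cons j) := by
  rw [compat, Polynomial.coeff_map, RingHom.coe_coe, coeff_uniqueAlgEquiv,
    finSuccEquiv_coeff_coeff]
  rfl

theorem dvd_coeff {z : Fin 2 → K} {g : MvPolynomial (Fin 2) ℤ} {μ a : ℕ}
    (hμ : ∀ κ : Fin 2 →₀ ℕ, κ 0 + κ 1 < μ → tc z g κ = 0) (ha : a ≤ μ) (j : ℕ) :
    Polynomial.X ^ (a - j) ∣
      (Polynomial.taylor (Polynomial.C (z 0)) ((finSuccEquiv ℤ 1 g).map (chi (z 1)))).coeff j := by
  rw [Polynomial.X_pow_dvd_iff]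
  intro d hd
  rw [coeff_compat]
  apply hμ
  have h0 : ((Finsupp.single (0 : Fin 1) d).cons j : Fin 2 →₀ ℕ) 0 = j := Finsupp.cons_zero _ _
  have h1 : ((Finsupp.single (0 : Fin 1) d).cons j : Fin 2 →₀ ℕ) 1 = d := by
    have := Finsupp.cons_succ (0 : Fin 1) j (Finsupp.single (0 : Fin 1) d)
    rw [Finsupp.single_eq_same] at this
    exact this
  rw [h0, h1]
  omega

theorem back (x : K) (P : MvPolynomial (Fin 1) ℤ) (M : ℕ) (h : Polynomial.X ^ M ∣ chi x P) :
    (Polynomial.X - Polynomial.C x) ^ M ∣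
      (uniqueAlgEquiv ℤ (Fin 1) P).map (Int.castRingHom K) := by
  rw [chi_apply] at h
  have h1 := map_dvd (Polynomial.taylorAlgHom (-x)) h
  rw [map_pow] at h1
  have h2 : ∀ Q : Polynomial K, Polynomial.taylorAlgHom (-x) Q = Polynomial.taylor (-x) Q :=
    fun Q => rfl
  rw [h2, h2, Polynomial.taylor_taylor, neg_add_cancel, Polynomial.taylor_zero,
    Polynomial.taylor_X, Polynomial.C_neg, ← sub_eq_add_neg] at h1
  exact h1

end field

/-- the length is the same in the two pictures -/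
theorem L1_eq (P : MvPolynomial (Fin 1) ℤ) :
    ∑ i ∈ (uniqueAlgEquiv ℤ (Fin 1) P).support,
      |(((uniqueAlgEquiv ℤ (Fin 1) P).coeff i : ℤ) : ℝ)| = l1 P := by
  unfold l1
  refine Finset.sum_bij' (fun i _ => Finsupp.single (0 : Fin 1) i) (fun a _ => a 0) ?_ ?_ ?_ ?_ ?_
  · intro i hi
    rw [Polynomial.mem_support_iff, coeff_uniqueAlgEquiv] at hi
    rw [MvPolynomial.mem_support_iff]
    exact hi
  · intro a ha
    rw [MvPolynomial.mem_support_iff] at ha
    rw [Polynomial.mem_support_iff, coeff_uniqueAlgEquiv]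
    have : Finsupp.single (default : Fin 1) (a 0) = a := by
      refine Finsupp.ext fun k => ?_
      fin_cases k
      simp
    rw [this]
    exact ha
  · intro i _
    simp
  · intro a _
    refine Finsupp.ext fun k => ?_
    fin_cases k
    simp
  · intro i _
    rw [coeff_uniqueAlgEquiv]
    rfl

theorem l1_coeff_le (g : MvPolynomial (Fin 2) ℤ) (j : ℕ) :
    l1 ((finSuccEquiv ℤ 1 g).coeff j) ≤ l1 g := by
  unfold l1
  have h : ∑ a ∈ ((finSuccEquiv ℤ 1 g).coeff j).support,
      |((coeff a ((finSuccEquiv ℤ 1 g).coeff j) : ℤ) : ℝ)| =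
      ∑ b ∈ ((finSuccEquiv ℤ 1 g).coeff j).support.image (Finsupp.cons j),
        |((coeff b g : ℤ) : ℝ)| := by
    rw [Finset.sum_image (fun x _ y _ h => Finsupp.cons_right_injective j h)]
    refine Finset.sum_congr rfl fun a _ => ?_
    rw [finSuccEquiv_coeff_coeff]
  rw [h, image_support_finSuccEquiv]
  exact Finset.sum_le_sum_of_subset_of_nonneg (Finset.filter_subset _ _) fun _ _ _ => abs_nonneg _

theorem one_le_l1 {σ : Type} {P : MvPolynomial σ ℤ} (h : P ≠ 0) : 1 ≤ l1 P := by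
  obtain ⟨a, ha⟩ := MvPolynomial.ne_zero_iff.1 h
  refine le_trans ?_ (coeff_le_l1 P a)
  have := Int.one_le_abs ha
  exact_mod_cast this

/-- the resultant of `g` and its derivative -/
theorem res_ne_zero {g : MvPolynomial (Fin 2) ℤ} (hg : Irreducible g)
    (hm : (finSuccEquiv ℤ 1 g).natDegree ≠ 0) :
    Polynomial.resultant (finSuccEquiv ℤ 1 g) (Polynomial.derivative (finSuccEquiv ℤ 1 g)) ≠ 0 := by
  intro h0
  have hirr : Irreducible (finSuccEquiv ℤ 1 g) :=
    (MulEquiv.irreducible_iff (finSuccEquiv ℤ 1).toMulEquiv).2 hg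
  have hprim := hirr.isPrimitive hm
  have hirr2 : Irreducible ((finSuccEquiv ℤ 1 g).map
      (algebraMap (MvPolynomial (Fin 1) ℤ) (FractionRing (MvPolynomial (Fin 1) ℤ)))) :=
    (hprim.irreducible_iff_irreducible_map_fraction_map).1 hirr
  have hinj : Function.Injective
      (algebraMap (MvPolynomial (Fin 1) ℤ) (FractionRing (MvPolynomial (Fin 1) ℤ))) :=
    IsFractionRing.injective _ _
  have : CharZero (FractionRing (MvPolynomial (Fin 1) ℤ)) := charZero_of_injective_algebraMap hinj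
  have hsep := hirr2.separable
  have hcop : IsCoprime ((finSuccEquiv ℤ 1 g).map
      (algebraMap (MvPolynomial (Fin 1) ℤ) (FractionRing (MvPolynomial (Fin 1) ℤ))))
      ((Polynomial.derivative (finSuccEquiv ℤ 1 g)).map
      (algebraMap (MvPolynomial (Fin 1) ℤ) (FractionRing (MvPolynomial (Fin 1) ℤ)))) := by
    rw [← Polynomial.derivative_map]
    exact hsep
  have h1 := Polynomial.resultant_ne_zero _ _ hcop
  rw [Polynomial.natDegree_map_eq_of_injective hinj,
    Polynomial.natDegree_map_eq_of_injective hinj, Polynomial.resultant_map_map, h0, map_zero]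
    at h1
  exact h1 rfl

/-- the order of the resultant at `z 1` -/
theorem res_dvd {K : Type} [Field K] [CharZero K] (h1 : S_6c1) {z : Fin 2 → K}
    {g : MvPolynomial (Fin 2) ℤ} {μ a : ℕ}
    (hμ : ∀ κ : Fin 2 →₀ ℕ, κ 0 + κ 1 < μ → tc z g κ = 0) (ha : a ≤ μ)
    (ham : a ≤ (finSuccEquiv ℤ 1 g).natDegree) :
    (Polynomial.X - Polynomial.C (z 1)) ^ (a * (a - 1)) ∣
      (uniqueAlgEquiv ℤ (Fin 1) (Polynomial.resultant (finSuccEquiv ℤ 1 g)
        (Polynomial.derivative (finSuccEquiv ℤ 1 g)))).map (Int.castRingHom K) := by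
  apply back
  have hinj := chi_inj (K := K) (z 1)
  have hchar : CharZero (MvPolynomial (Fin 1) ℤ) := inferInstance
  have hd : (Polynomial.derivative (finSuccEquiv ℤ 1 g)).natDegree =
      (finSuccEquiv ℤ 1 g).natDegree - 1 := Polynomial.natDegree_derivative _
  have e1 : chi (z 1) (Polynomial.resultant (finSuccEquiv ℤ 1 g)
        (Polynomial.derivative (finSuccEquiv ℤ 1 g))) =
      Polynomial.resultant
        (Polynomial.taylor (Polynomial.C (z 0)) ((finSuccEquiv ℤ 1 g).map (chi (z 1))))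
        (Polynomial.taylor (Polynomial.C (z 0))
          ((Polynomial.derivative (finSuccEquiv ℤ 1 g)).map (chi (z 1))))
        (finSuccEquiv ℤ 1 g).natDegree ((finSuccEquiv ℤ 1 g).natDegree - 1) := by
    have h2 := Polynomial.resultant_taylor ((finSuccEquiv ℤ 1 g).map (chi (z 1)))
      ((Polynomial.derivative (finSuccEquiv ℤ 1 g)).map (chi (z 1))) (Polynomial.C (z 0))
    rw [Polynomial.natDegree_taylor, Polynomial.natDegree_taylor,
      Polynomial.natDegree_map_eq_of_injective hinj,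
      Polynomial.natDegree_map_eq_of_injective hinj, hd, Polynomial.resultant_map_map] at h2
    rw [hd]
    exact h2.symm
  rw [e1]
  apply h1 K _ _ _ _ a (a - 1) ham (by omega)
  · exact fun i => dvd_coeff hμ ha i
  · intro i
    have h3 : Polynomial.taylor (Polynomial.C (z 0))
          ((Polynomial.derivative (finSuccEquiv ℤ 1 g)).map (chi (z 1))) =
        Polynomial.derivative (Polynomial.taylor (Polynomial.C (z 0))
          ((finSuccEquiv ℤ 1 g).map (chi (z 1)))) := by
      rw [← Polynomial.derivative_map, Polynomial.taylor_apply, Polynomial.taylor_apply,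
        Polynomial.derivative_comp]
      simp
    rw [h3, Polynomial.coeff_derivative]
    have h4 : a - 1 - i = a - (i + 1) := by omega
    rw [h4]
    exact (dvd_coeff hμ ha (i + 1)).mul_right _

/-- the length of the resultant -/
theorem l1_res (g : MvPolynomial (Fin 2) ℤ) (hg : g ≠ 0) {m : ℕ} (hm : 1 ≤ m)
    (hmg : (finSuccEquiv ℤ 1 g).natDegree = m) :
    l1 (Polynomial.resultant (finSuccEquiv ℤ 1 g)
        (Polynomial.derivative (finSuccEquiv ℤ 1 g))) ≤
      ((m + (m - 1)).factorial : ℝ) * (m * l1 g) ^ (m + (m - 1)) := by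
  have hd : (Polynomial.derivative (finSuccEquiv ℤ 1 g)).natDegree = m - 1 := by
    rw [Polynomial.natDegree_derivative, hmg]
  unfold Polynomial.resultant
  rw [hd, hmg]
  have hm1 : (1 : ℝ) ≤ m := by exact_mod_cast hm
  have hl := one_le_l1 hg
  have hG : ∀ j, l1 ((finSuccEquiv ℤ 1 g).coeff j) ≤ m * l1 g := by
    intro j
    have := l1_coeff_le g j
    nlinarith
  have hH : ∀ j, l1 ((Polynomial.derivative (finSuccEquiv ℤ 1 g)).coeff j) ≤ m * l1 g := by
    intro j
    rw [Polynomial.coeff_derivative]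
    by_cases hj : j + 1 ≤ m
    · refine (l1_mul _ _).trans ?_
      have h5 : l1 ((j : MvPolynomial (Fin 1) ℤ) + 1) ≤ m := by
        have h6 : ((j : MvPolynomial (Fin 1) ℤ) + 1) = monomial 0 ((j + 1 : ℕ) : ℤ) := by
          rw [← C_apply]
          push_cast
          simp
        rw [h6, l1_monomial]
        push_cast
        rw [abs_of_nonneg (by positivity)]
        exact_mod_cast hj
      have h7 := l1_coeff_le g (j + 1)
      have h8 := l1_nonneg ((finSuccEquiv ℤ 1 g).coeff (j + 1))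
      have h9 := l1_nonneg ((j : MvPolynomial (Fin 1) ℤ) + 1)
      calc l1 ((finSuccEquiv ℤ 1 g).coeff (j + 1)) * l1 ((j : MvPolynomial (Fin 1) ℤ) + 1)
          ≤ l1 g * m := mul_le_mul h7 h5 h9 (by linarith)
        _ = m * l1 g := mul_comm _ _
    · rw [Polynomial.coeff_eq_zero_of_natDegree_lt (by omega), zero_mul, l1_zero]
      positivity
  have h0 : l1 (0 : MvPolynomial (Fin 1) ℤ) ≤ m * l1 g := by
    rw [l1_zero]
    positivity
  apply l1_det
  intro p q
  unfold Polynomial.sylvester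
  rw [Matrix.of_apply]
  refine Fin.addCases (fun j => ?_) (fun j => ?_) q
  · rw [Fin.addCases_left]
    split_ifs
    · exact hH _
    · exact h0
  · rw [Fin.addCases_right]
    split_ifs
    · exact hG _
    · exact h0

/-- the leading coefficient -/
theorem lead_dvd {K : Type} [Field K] [CharZero K] {z : Fin 2 → K}
    {g : MvPolynomial (Fin 2) ℤ} {μ : ℕ}
    (hμ : ∀ κ : Fin 2 →₀ ℕ, κ 0 + κ 1 < μ → tc z g κ = 0) :
    (Polynomial.X - Polynomial.C (z 1)) ^ (μ - (finSuccEquiv ℤ 1 g).natDegree) ∣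
      (uniqueAlgEquiv ℤ (Fin 1) (finSuccEquiv ℤ 1 g).leadingCoeff).map (Int.castRingHom K) := by
  apply back
  have hinj := chi_inj (K := K) (z 1)
  have h1 := dvd_coeff hμ le_rfl (finSuccEquiv ℤ 1 g).natDegree
  have h2 := Polynomial.coeff_taylor_natDegree (r := Polynomial.C (z 0))
    (f := (finSuccEquiv ℤ 1 g).map (chi (z 1)))
  rw [Polynomial.natDegree_map_eq_of_injective hinj, Polynomial.leadingCoeff_map_of_injective hinj]
    at h2
  rwa [h2] at h1

theorem natDegree_lead (g : MvPolynomial (Fin 2) ℤ) (j : ℕ) :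
    (uniqueAlgEquiv ℤ (Fin 1) ((finSuccEquiv ℤ 1 g).coeff j)).natDegree ≤ degreeOf 1 g := by
  rw [Polynomial.natDegree_le_iff_coeff_eq_zero]
  intro i hi
  rw [coeff_uniqueAlgEquiv, finSuccEquiv_coeff_coeff]
  by_contra hne
  have h1 := monomial_le_degreeOf (1 : Fin 2) (MvPolynomial.mem_support_iff.2 hne)
  have h2 : ((Finsupp.single (default : Fin 1) i).cons j : Fin 2 →₀ ℕ) 1 = i := by
    have := Finsupp.cons_succ (0 : Fin 1) j (Finsupp.single (default : Fin 1) i)
    rw [show (default : Fin 1) = 0 from rfl, Finsupp.single_eq_same] at this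
    exact this
  rw [h2] at h1
  omega

/-- use of `S_4` -/
theorem use4 (h4 : S_4) {K : Type} [Field K] [NumberField K] {P : MvPolynomial (Fin 1) ℤ}
    (hP : P ≠ 0) {x : K} {M : ℕ}
    (h : (Polynomial.X - Polynomial.C x) ^ M ∣
      (uniqueAlgEquiv ℤ (Fin 1) P).map (Int.castRingHom K)) :
    (M : ℝ) * logHeight₁ x ≤ finrank ℚ K * Real.log (l1 P) := by
  have h1 := h4 K (uniqueAlgEquiv ℤ (Fin 1) P)
    (fun h0 => hP ((uniqueAlgEquiv ℤ (Fin 1)).injective (by rw [h0, map_zero]))) x M h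
  rwa [L1_eq] at h1

theorem s6c (h4 : S_4) (h1 : S_6c1) : S_6c := by
  refine ⟨48, by norm_num, ?_⟩
  intro K _ _ z g d μ hg hμ2 hd hμ
  refine ⟨1, ?_⟩
  have hg0 : g ≠ 0 := hg.ne_zero
  have hl := one_le_l1 hg0
  obtain ⟨Λ, hΛ⟩ : ∃ Λ : ℝ, Λ = Real.log (l1 g) := ⟨_, rfl⟩
  have hΛ0 : 0 ≤ Λ := by rw [hΛ]; exact Real.log_nonneg hl
  rw [← hΛ]
  obtain ⟨H, hH⟩ : ∃ H : ℝ, H = logHeight₁ (z 1) := ⟨_, rfl⟩
  have hH0 : 0 ≤ H := by rw [hH]; exact zero_le_logHeight₁ _
  rw [← hH]
  obtain ⟨D, hD⟩ : ∃ D : ℝ, D = (finrank ℚ K : ℝ) := ⟨_, rfl⟩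
  have hD0 : 0 ≤ D := by rw [hD]; positivity
  rw [← hD]
  obtain ⟨m, hm⟩ : ∃ m : ℕ, (finSuccEquiv ℤ 1 g).natDegree = m := ⟨_, rfl⟩
  have hmd : m ≤ d := by
    rw [← hm, natDegree_finSuccEquiv]
    exact hd 0
  have hmd' : (m : ℝ) ≤ d := by exact_mod_cast hmd
  have hd0 : (0 : ℝ) ≤ d := by positivity
  by_cases hcase : 2 * m ≤ μ
  · -- many zeros of the leading coefficient
    have hc0 : (finSuccEquiv ℤ 1 g).leadingCoeff ≠ 0 := by
      rw [Ne, Polynomial.leadingCoeff_eq_zero]
      intro h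
      exact hg0 ((finSuccEquiv ℤ 1).injective (by rw [h, map_zero]))
    have hdv := lead_dvd (K := K) hμ
    rw [hm] at hdv
    have h5 := use4 h4 hc0 hdv
    have h6 : l1 (finSuccEquiv ℤ 1 g).leadingCoeff ≤ l1 g := l1_coeff_le g _
    have h7 : Real.log (l1 (finSuccEquiv ℤ 1 g).leadingCoeff) ≤ Λ := by
      rw [hΛ]
      exact Real.log_le_log (by linarith [one_le_l1 hc0]) h6
    rw [← hH, ← hD] at h5
    have h8 : ((μ - m : ℕ) : ℝ) * H ≤ D * Λ :=
      h5.trans (mul_le_mul_of_nonneg_left h7 hD0)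
    have h9 : μ - m ≤ d := by
      have h10 : (uniqueAlgEquiv ℤ (Fin 1) (finSuccEquiv ℤ 1 g).leadingCoeff).map
          (Int.castRingHom K) ≠ 0 := by
        intro h
        rw [Polynomial.map_eq_zero_iff (RingHom.injective_int _)] at h
        exact hc0 ((uniqueAlgEquiv ℤ (Fin 1)).injective (by rw [h, map_zero]))
      have h11 := Polynomial.natDegree_le_of_dvd hdv h10
      rw [Polynomial.natDegree_pow, Polynomial.natDegree_X_sub_C, mul_one] at h11
      have h12 := Polynomial.natDegree_map_le (p := uniqueAlgEquiv ℤ (Fin 1)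
        (finSuccEquiv ℤ 1 g).leadingCoeff) (f := Int.castRingHom K)
      have h13 := natDegree_lead g (finSuccEquiv ℤ 1 g).natDegree
      have h14 := hd 1
      have h15 : (uniqueAlgEquiv ℤ (Fin 1) (finSuccEquiv ℤ 1 g).leadingCoeff).natDegree ≤
        degreeOf 1 g := h13
      omega
    have h9' : ((μ - m : ℕ) : ℝ) ≤ d := by exact_mod_cast h9
    have h16 : (μ : ℝ) ≤ 2 * ((μ - m : ℕ) : ℝ) := by
      have : μ ≤ 2 * (μ - m) := by omega
      exact_mod_cast this
    obtain ⟨t, ht⟩ : ∃ t : ℝ, t = ((μ - m : ℕ) : ℝ) := ⟨_, rfl⟩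
    rw [← ht] at h8 h9' h16
    have ht0 : 0 ≤ t := by rw [ht]; positivity
    have hμ0 : (0 : ℝ) ≤ μ := by positivity
    calc (μ : ℝ) ^ 2 * H ≤ (2 * t) ^ 2 * H :=
          mul_le_mul_of_nonneg_right (pow_le_pow_left₀ hμ0 h16 2) hH0
      _ = 4 * (t * (t * H)) := by ring
      _ ≤ 4 * (d * (D * Λ)) := by
          have : t * (t * H) ≤ d * (D * Λ) := mul_le_mul h9' h8 (mul_nonneg ht0 hH0) hd0
          linarith
      _ ≤ D * (48 * (d * Λ + (d : ℝ) ^ 2)) := by
          have h17 : 0 ≤ D * (d * Λ) := by positivity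
          have h18 : 0 ≤ D * (d : ℝ) ^ 2 := by positivity
          nlinarith
  · -- the resultant
    have hm2 : 2 ≤ m := by omega
    obtain ⟨a, ha⟩ : ∃ a : ℕ, a = min μ m := ⟨_, rfl⟩
    have ha1 : a ≤ μ := by rw [ha]; exact min_le_left _ _
    have ha2 : a ≤ m := by rw [ha]; exact min_le_right _ _
    have ha3 : 2 ≤ a := by rw [ha]; exact le_min hμ2 hm2
    have ha4 : μ ≤ 2 * a := by
      rcases min_choice μ m with h | h <;> omega
    have hdv := res_dvd (K := K) h1 hμ ha1 (by rw [hm]; exact ha2)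
    have hR0 := res_ne_zero hg (by rw [hm]; omega)
    have h5 := use4 h4 hR0 hdv
    have h6 := l1_res g hg0 (by omega) hm
    rw [← hH, ← hD] at h5
    have hm1' : (1 : ℝ) ≤ m := by exact_mod_cast (by omega : 1 ≤ m)
    have hk : ((m + (m - 1) : ℕ) : ℝ) ≤ 2 * d := by
      have : m + (m - 1) ≤ 2 * d := by omega
      exact_mod_cast this
    have hk1 : (1 : ℝ) ≤ ((m + (m - 1) : ℕ) : ℝ) := by
      have : 1 ≤ m + (m - 1) := by omega
      exact_mod_cast this
    obtain ⟨k, hk'⟩ : ∃ k : ℕ, k = m + (m - 1) := ⟨_, rfl⟩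
    rw [← hk'] at h6 hk hk1
    have hlog : Real.log (l1 (Polynomial.resultant (finSuccEquiv ℤ 1 g)
        (Polynomial.derivative (finSuccEquiv ℤ 1 g)))) ≤ 6 * (d : ℝ) ^ 2 + 2 * d * Λ := by
      have h7 : ((k.factorial : ℕ) : ℝ) ≤ (k : ℝ) ^ k := by
        exact_mod_cast Nat.factorial_le_pow k
      have h8 : l1 (Polynomial.resultant (finSuccEquiv ℤ 1 g)
        (Polynomial.derivative (finSuccEquiv ℤ 1 g))) ≤ (k : ℝ) ^ k * (m * l1 g) ^ k :=
        h6.trans (mul_le_mul_of_nonneg_right h7 (by positivity))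
      refine (Real.log_le_log (by linarith [one_le_l1 hR0]) h8).trans ?_
      rw [← mul_pow, Real.log_pow, Real.log_mul (by positivity) (by positivity),
        Real.log_mul (by positivity) (by positivity), ← hΛ]
      have h9 : Real.log k ≤ 2 * d := by
        have := Real.log_le_sub_one_of_pos (show (0 : ℝ) < k by linarith)
        linarith
      have h10 : Real.log m ≤ d := by
        have := Real.log_le_sub_one_of_pos (show (0 : ℝ) < m by linarith)
        linarith
      calc (k : ℝ) * (Real.log k + (Real.log m + Λ)) ≤ (2 * d) * (2 * d + (d + Λ)) := by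
            apply mul_le_mul hk (by linarith) _ (by positivity)
            have := Real.log_nonneg hk1
            have := Real.log_nonneg hm1'
            positivity
        _ = 6 * (d : ℝ) ^ 2 + 2 * d * Λ := by ring
    have h11 : ((a * (a - 1) : ℕ) : ℝ) * H ≤ D * (6 * (d : ℝ) ^ 2 + 2 * d * Λ) :=
      h5.trans (mul_le_mul_of_nonneg_left hlog hD0)
    have h12 : (μ : ℝ) ^ 2 ≤ 8 * ((a * (a - 1) : ℕ) : ℝ) := by
      have h13 : μ ^ 2 ≤ 8 * (a * (a - 1)) := by
        obtain ⟨b, rfl⟩ : ∃ b, a = b + 1 := ⟨a - 1, by omega⟩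
        rw [Nat.add_sub_cancel]
        have h14 : μ ^ 2 ≤ (2 * (b + 1)) ^ 2 := Nat.pow_le_pow_left ha4 2
        nlinarith
      exact_mod_cast h13
    calc (μ : ℝ) ^ 2 * H ≤ 8 * ((a * (a - 1) : ℕ) : ℝ) * H :=
          mul_le_mul_of_nonneg_right h12 hH0
      _ = 8 * (((a * (a - 1) : ℕ) : ℝ) * H) := by ring
      _ ≤ 8 * (D * (6 * (d : ℝ) ^ 2 + 2 * d * Λ)) := by linarith
      _ ≤ D * (48 * (d * Λ + (d : ℝ) ^ 2)) := by
          have h17 : 0 ≤ D * (d * Λ) := by positivity
          nlinarith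

end Pool.Agent.H883.ZR.S6c
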