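import Pool.Agent.H883.ZR.Base

/-!
# The order of vanishing of the Sylvester determinant
-/

set_option autoImplicit false

namespace Pool.Agent.H883.ZR.S6c1

open Finset

theorem T_le (s k : ℕ) (hk : k ≤ s) : 2 * ∑ i ∈ range k, min i s + k = k * k := by
  induction k with
  | zero => simp
  | succ k ih =>
    have h1 := ih (by omega)
    rw [sum_range_succ, min_eq_left (by omega)]
    nlinarith

theorem T_ge (s l : ℕ) : 2 * ∑ i ∈ range (s + l), min i s + s = s * s + 2 * l * s := by
  induction l with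
  | zero =>
    have h1 := T_le s s le_rfl
    simp only [Nat.add_zero, Nat.mul_zero, Nat.zero_mul]
    exact h1
  | succ l ih =>
    rw [← Nat.add_assoc, sum_range_succ, min_eq_right (by omega)]
    nlinarith

theorem total (m n a b : ℕ) (ha : a ≤ m) (hb : b ≤ n) :
    ∑ j ∈ range m, min (b + j) (a + b) + ∑ j ∈ range n, min (a + j) (a + b) =
      ∑ i ∈ range (m + n), min i (a + b) + a * b := by
  have h1 := sum_range_add (fun i => min i (a + b)) b m
  have h2 := sum_range_add (fun i => min i (a + b)) a n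
  obtain ⟨m', rfl⟩ := Nat.exists_eq_add_of_le ha
  obtain ⟨n', rfl⟩ := Nat.exists_eq_add_of_le hb
  have h3 := T_le (a + b) a (by omega)
  have h4 := T_le (a + b) b (by omega)
  have h5 := T_ge (a + b) m'
  have h6 := T_ge (a + b) n'
  have h7 := T_ge (a + b) (m' + n')
  have e1 : b + (a + m') = a + b + m' := by omega
  have e2 : a + (b + n') = a + b + n' := by omega
  have e3 : a + m' + (b + n') = a + b + (m' + n') := by omega
  rw [e1] at h1
  rw [e2] at h2
  rw [e3]
  nlinarith

/-- potentials of the rows -/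
def cc (s i : ℕ) : ℕ := min i s

/-- potentials of the columns -/
def rr (m n a b : ℕ) (j : Fin (m + n)) : ℕ :=
  j.addCases (fun j₁ : Fin m => min (b + (j₁ : ℕ)) (a + b))
    (fun j₁ : Fin n => min (a + (j₁ : ℕ)) (a + b))

theorem sum_rr (m n a b : ℕ) (ha : a ≤ m) (hb : b ≤ n) :
    ∑ j, rr m n a b j = ∑ i : Fin (m + n), cc (a + b) (i : ℕ) + a * b := by
  rw [Fin.sum_univ_add]
  have h1 : ∀ j : Fin m, rr m n a b (Fin.castAdd n j) = min (b + (j : ℕ)) (a + b) := fun j =>
    Fin.addCases_left j
  have h2 : ∀ j : Fin n, rr m n a b (Fin.natAdd m j) = min (a + (j : ℕ)) (a + b) := fun j =>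
    Fin.addCases_right j
  simp only [h1, h2]
  rw [Fin.sum_univ_eq_sum_range (fun j => min (b + j) (a + b)) m,
    Fin.sum_univ_eq_sum_range (fun j => min (a + j) (a + b)) n,
    Fin.sum_univ_eq_sum_range (fun i => cc (a + b) i) (m + n)]
  exact total m n a b ha hb

theorem entry (K : Type) [Field K] (f h : Polynomial (Polynomial K)) (m n a b : ℕ)
    (hf : ∀ i, Polynomial.X ^ (a - i) ∣ f.coeff i) (hh : ∀ i, Polynomial.X ^ (b - i) ∣ h.coeff i)
    (i j : Fin (m + n)) :
    (Polynomial.X : Polynomial K) ^ (rr m n a b j - cc (a + b) (i : ℕ)) ∣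
      Polynomial.sylvester f h m n i j := by
  rw [Polynomial.sylvester, Matrix.of_apply]
  refine Fin.addCases (fun j₁ => ?_) (fun j₁ => ?_) j
  · rw [rr, Fin.addCases_left, Fin.addCases_left]
    split_ifs with hi
    · refine (pow_dvd_pow _ ?_).trans (hh _)
      unfold cc
      have := hi.1
      omega
    · exact dvd_zero _
  · rw [rr, Fin.addCases_right, Fin.addCases_right]
    split_ifs with hi
    · refine (pow_dvd_pow _ ?_).trans (hf _)
      unfold cc
      have := hi.1
      omega
    · exact dvd_zero _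

theorem s6c1 : S_6c1 := by
  intro K _ f h m n a b ha hb hf hh
  rw [Matrix.det_apply]
  refine dvd_sum fun σ _ => ?_
  have h1 : (Polynomial.X : Polynomial K) ^ (a * b) ∣
      ∏ j, Polynomial.sylvester f h m n (σ j) j := by
    have h2 : (∏ j : Fin (m + n), (Polynomial.X : Polynomial K) ^
        (rr m n a b j - cc (a + b) ((σ j : Fin (m + n)) : ℕ))) ∣
        ∏ j, Polynomial.sylvester f h m n (σ j) j :=
      prod_dvd_prod_of_dvd _ _ fun j _ => entry K f h m n a b hf hh (σ j) j
    refine (?_ : _ ∣ _).trans h2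
    rw [prod_pow_eq_pow_sum]
    apply pow_dvd_pow
    have h3 : ∑ j : Fin (m + n), cc (a + b) ((σ j : Fin (m + n)) : ℕ) =
        ∑ i : Fin (m + n), cc (a + b) (i : ℕ) :=
      Equiv.sum_comp σ fun i : Fin (m + n) => cc (a + b) (i : ℕ)
    have h4 : ∑ j, rr m n a b j ≤
        ∑ j : Fin (m + n), ((rr m n a b j - cc (a + b) ((σ j : Fin (m + n)) : ℕ)) +
          cc (a + b) ((σ j : Fin (m + n)) : ℕ)) :=
      sum_le_sum fun j _ => by omega
    rw [sum_add_distrib, h3, sum_rr m n a b ha hb] at h4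
    omega
  obtain ⟨q, hq⟩ := h1
  refine ⟨Equiv.Perm.sign σ • q, ?_⟩
  rw [hq, mul_smul_comm]

end Pool.Agent.H883.ZR.S6c1
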