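import Pool.Agent.H883.ZR.Base

set_option autoImplicit false

namespace Pool.Agent.H883.ZR.S7

open Real NumberField Height Module Finset MvPolynomial
open Pool.Agent.H393R2.RothNS (TT DD l1)
open Pool.Agent.H883.ZQ (mo rel rk)

theorem s7 (hb : S_6b) : S_7 := by
  obtain ⟨mm, hmul, hnn, hle, hge⟩ := hb
  intro D0
  refine ⟨(D0 + D0 : ℝ) * Real.log 4, by positivity, ?_⟩
  intro K _ z A hA hdeg _ hz
  obtain ⟨f, hf, hfA⟩ := UniqueFactorizationMonoid.exists_prime_factors A hA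
  have hz' : aeval z f.prod = 0 := by
    obtain ⟨u, hu⟩ := hfA
    have h1 : aeval z (f.prod * (u : MvPolynomial (Fin 2) ℤ)) = 0 := by rw [hu]; exact hz
    rw [map_mul] at h1
    rcases mul_eq_zero.1 h1 with h | h
    · exact h
    · exfalso
      have h2 : IsUnit (aeval z (u : MvPolynomial (Fin 2) ℤ) : K) := (u.isUnit).map (aeval z)
      rw [h] at h2
      exact not_isUnit_zero h2
  rw [map_multiset_prod] at hz'
  obtain ⟨g, hg, hgz⟩ := Multiset.mem_map.1 (Multiset.prod_eq_zero_iff.1 hz')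
  have hgA : g ∣ A := (Multiset.dvd_prod hg).trans hfA.dvd
  have hgp := hf g hg
  obtain ⟨h, rfl⟩ := hgA
  have hg0 : g ≠ 0 := left_ne_zero_of_mul hA
  have hh0 : h ≠ 0 := right_ne_zero_of_mul hA
  have hd : ∀ i, degreeOf i g ≤ D0 := by
    intro i
    refine le_trans ?_ (hdeg i)
    rw [degreeOf_mul_eq hg0 hh0]
    exact Nat.le_add_right _ _
  refine ⟨g, hgp.irreducible, dvd_mul_right _ _, hgz, hd, ?_⟩
  have h1 := hge g hg0
  have h2 := hle (g * h) hA
  rw [hmul g h hg0 hh0] at h2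
  have h3 := hnn h hh0
  have h4 : (degreeOf 0 g + degreeOf 1 g : ℝ) * Real.log 4 ≤ (D0 + D0 : ℝ) * Real.log 4 := by
    refine mul_le_mul_of_nonneg_right ?_ (Real.log_nonneg (by norm_num))
    have a0 : (degreeOf 0 g : ℝ) ≤ D0 := by exact_mod_cast hd 0
    have a1 : (degreeOf 1 g : ℝ) ≤ D0 := by exact_mod_cast hd 1
    linarith
  linarith

end Pool.Agent.H883.ZR.S7
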