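import Pool.Agent.H883.ZR.Base

set_option autoImplicit false

/-!
# S8: common zeros of coprime polynomials have small height
-/

namespace Pool.Agent.H883.ZR.S8

open Real NumberField Height Module Finset MvPolynomial
open Pool.Agent.H393R2.RothNS (TT DD l1 l1_det l1_zero l1_nonneg)
open Pool.Agent.H883.ZR

/-- the length of a nonzero polynomial is at least one -/
theorem one_le {σ : Type} {P : MvPolynomial σ ℤ} (h : P ≠ 0) : 1 ≤ l1 P := by
  obtain ⟨a, ha⟩ := ne_zero_iff.1 h
  have h1 : a ∈ P.support := MvPolynomial.mem_support_iff.2 ha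
  have h2 : |((coeff a P : ℤ) : ℝ)| ≤ l1 P :=
    Finset.single_le_sum (f := fun a => |((coeff a P : ℤ) : ℝ)|) (fun _ _ => abs_nonneg _) h1
  refine le_trans ?_ h2
  have h3 : 1 ≤ |coeff a P| := Int.one_le_abs ha
  exact_mod_cast h3

/-- the length of a coefficient -/
theorem l1_coeff (P : MvPolynomial (Fin 2) ℤ) (i : ℕ) :
    l1 ((finSuccEquiv ℤ 1 P).coeff i) ≤ l1 P := by
  classical
  rw [l1]
  have h1 : ∀ a ∈ ((finSuccEquiv ℤ 1 P).coeff i).support,
      |((coeff a ((finSuccEquiv ℤ 1 P).coeff i) : ℤ) : ℝ)| =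
        |((coeff (Finsupp.cons i a) P : ℤ) : ℝ)| := by
    intro a _
    rw [finSuccEquiv_coeff_coeff]
  rw [Finset.sum_congr rfl h1]
  have h2 : Function.Injective (fun a : Fin 1 →₀ ℕ => Finsupp.cons i a) := by
    intro a b hab
    have := congrArg Finsupp.tail hab
    simpa [Finsupp.tail_cons] using this
  rw [← Finset.sum_image (g := fun a : Fin 1 →₀ ℕ => Finsupp.cons i a)
    (f := fun v => |((coeff v P : ℤ) : ℝ)|) (fun a _ b _ hab => h2 hab)]
  refine Finset.sum_le_sum_of_subset_of_nonneg ?_ (fun _ _ _ => abs_nonneg _)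
  intro v hv
  rw [Finset.mem_image] at hv
  obtain ⟨a, ha, rfl⟩ := hv
  rw [MvPolynomial.mem_support_iff] at ha ⊢
  rwa [finSuccEquiv_coeff_coeff] at ha

/-- the resultant is small -/
theorem l1_res (g A : MvPolynomial (Fin 2) ℤ) (m n : ℕ) {Z : ℝ} (hZ : 0 ≤ Z) (h1 : l1 g ≤ Z)
    (h2 : l1 A ≤ Z) :
    l1 (Polynomial.resultant (finSuccEquiv ℤ 1 g) (finSuccEquiv ℤ 1 A) m n) ≤
      ((m + n).factorial : ℝ) * Z ^ (m + n) := by
  rw [Polynomial.resultant]
  apply l1_det
  intro i j
  rw [Polynomial.sylvester, Matrix.of_apply]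
  refine Fin.addCases (fun j₁ => ?_) (fun j₁ => ?_) j
  · rw [Fin.addCases_left]
    split_ifs
    · exact (l1_coeff A _).trans h2
    · rw [l1_zero]; exact hZ
  · rw [Fin.addCases_right]
    split_ifs
    · exact (l1_coeff g _).trans h1
    · rw [l1_zero]; exact hZ

/-- the resultant is not zero -/
theorem res_ne {g A : MvPolynomial (Fin 2) ℤ} (hg : Irreducible g) (h0 : 0 < degreeOf 0 g)
    (hd : ¬ g ∣ A) :
    Polynomial.resultant (finSuccEquiv ℤ 1 g) (finSuccEquiv ℤ 1 A) ≠ 0 := by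
  set g' := finSuccEquiv ℤ 1 g with hg'
  set A' := finSuccEquiv ℤ 1 A with hA'
  have hirr : Irreducible g' := (MulEquiv.irreducible_iff (finSuccEquiv ℤ 1)).2 hg
  have hdeg : g'.natDegree ≠ 0 := by
    rw [hg', natDegree_finSuccEquiv]
    exact h0.ne'
  have hprim : g'.IsPrimitive := hirr.isPrimitive hdeg
  have hnd : ¬ g' ∣ A' := by
    rw [hg', hA', map_dvd_iff]
    exact hd
  have hinj : Function.Injective
      (algebraMap (MvPolynomial (Fin 1) ℤ) (FractionRing (MvPolynomial (Fin 1) ℤ))) :=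
    IsFractionRing.injective _ _
  have hcop : IsCoprime
      (g'.map (algebraMap (MvPolynomial (Fin 1) ℤ) (FractionRing (MvPolynomial (Fin 1) ℤ))))
      (A'.map (algebraMap (MvPolynomial (Fin 1) ℤ)
        (FractionRing (MvPolynomial (Fin 1) ℤ)))) := by
    rw [Irreducible.coprime_iff_not_dvd (hprim.irreducible_iff_irreducible_map_fraction_map.1 hirr)]
    intro h
    exact hnd (hprim.dvd_of_fraction_map_dvd_fraction_map h)
  have h1 := Polynomial.resultant_ne_zero _ _ hcop
  rw [Polynomial.natDegree_map_eq_of_injective hinj, Polynomial.natDegree_map_eq_of_injective hinj,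
    Polynomial.resultant_map_map] at h1
  intro h2
  apply h1
  rw [h2, map_zero]

/-- the resultant vanishes at the common zero -/
theorem res_zero {K : Type} [Field K] {z : Fin 2 → K} {g A : MvPolynomial (Fin 2) ℤ}
    (h0 : 0 < degreeOf 0 g) (hg : aeval z g = 0) (hA : aeval z A = 0) :
    aeval (fun _ : Fin 1 => z 1)
      (Polynomial.resultant (finSuccEquiv ℤ 1 g) (finSuccEquiv ℤ 1 A)) = 0 := by
  let ψ : Polynomial (MvPolynomial (Fin 1) ℤ) →+* K :=
    Polynomial.eval₂RingHom
      (aeval (fun _ : Fin 1 => z 1) : MvPolynomial (Fin 1) ℤ →ₐ[ℤ] K).toRingHom (z 0)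
  have hψ : ∀ P : MvPolynomial (Fin 2) ℤ, ψ (finSuccEquiv ℤ 1 P) = aeval z P := by
    have h1 : ψ.comp (finSuccEquiv ℤ 1 : MvPolynomial (Fin 2) ℤ →+* _) =
        (aeval z : MvPolynomial (Fin 2) ℤ →ₐ[ℤ] K).toRingHom := by
      apply MvPolynomial.ringHom_ext
      · intro r
        simp
      · intro i
        fin_cases i
        · show ψ ((finSuccEquiv ℤ 1) (X (0 : Fin 2))) = aeval z (X (0 : Fin 2))
          rw [finSuccEquiv_X_zero]
          simp [ψ]
        · have h2 : (finSuccEquiv ℤ 1) (X (1 : Fin 2)) = Polynomial.C (X 0) :=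
            finSuccEquiv_X_succ (n := 1) (j := 0)
          show ψ ((finSuccEquiv ℤ 1) (X (1 : Fin 2))) = aeval z (X (1 : Fin 2))
          rw [h2]
          simp [ψ]
    intro P
    exact RingHom.congr_fun h1 P
  have hdeg : (finSuccEquiv ℤ 1 g).natDegree ≠ 0 := by
    rw [natDegree_finSuccEquiv]
    exact h0.ne'
  obtain ⟨p, q, -, -, hpq⟩ := Polynomial.exists_mul_add_mul_eq_C_resultant
    (finSuccEquiv ℤ 1 g) (finSuccEquiv ℤ 1 A) le_rfl le_rfl (Or.inl hdeg)
  have h1 := congrArg ψ hpq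
  rw [map_add, map_mul, map_mul, hψ, hψ, hg, hA, zero_mul, zero_mul, add_zero] at h1
  have h2 : ψ (Polynomial.C (Polynomial.resultant (finSuccEquiv ℤ 1 g) (finSuccEquiv ℤ 1 A))) =
      aeval (fun _ : Fin 1 => z 1)
        (Polynomial.resultant (finSuccEquiv ℤ 1 g) (finSuccEquiv ℤ 1 A)) := by
    simp [ψ]
  rw [← h2]
  exact h1.symm

/-- **S4** for polynomials in one variable in `MvPolynomial (Fin 1) ℤ` -/
theorem height_le (h4 : S_4) {K : Type} [Field K] [NumberField K] {V : MvPolynomial (Fin 1) ℤ}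
    (hV : V ≠ 0) {x : K} (hx : aeval (fun _ : Fin 1 => x) V = 0) :
    logHeight₁ x ≤ finrank ℚ K * Real.log (l1 V) := by
  classical
  let W : Polynomial ℤ := uniqueAlgEquiv ℤ (Fin 1) V
  have hW : W ≠ 0 := by
    intro h
    apply hV
    exact (uniqueAlgEquiv ℤ (Fin 1)).injective (by rw [map_zero]; exact h)
  have hWx : Polynomial.aeval x W = 0 := by
    rw [← hx]
    have h1 : (Polynomial.aeval x).comp (uniqueAlgEquiv ℤ (Fin 1)).toAlgHom =
        (aeval (fun _ : Fin 1 => x) : MvPolynomial (Fin 1) ℤ →ₐ[ℤ] K) := by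
      apply MvPolynomial.algHom_ext
      intro i
      simp
    exact AlgHom.congr_fun h1 V
  have h2 := h4 K W hW x 1 (by
    rw [pow_one, Polynomial.dvd_iff_isRoot, Polynomial.IsRoot, Polynomial.eval_map]
    exact hWx)
  rw [Nat.cast_one, one_mul] at h2
  have h3 : ∑ i ∈ W.support, |((W.coeff i : ℤ) : ℝ)| = l1 V := by
    rw [l1]
    have h4 : ∀ i, W.coeff i = coeff (Finsupp.single default i) V :=
      fun i => coeff_uniqueAlgEquiv ℤ V i
    symm
    refine Finset.sum_bij (fun a _ => a 0) ?_ ?_ ?_ ?_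
    · intro a ha
      rw [Polynomial.mem_support_iff, h4]
      have h5 : Finsupp.single default (a 0) = a := by
        rw [Finsupp.unique_single a]
        simp
      rw [h5]
      exact MvPolynomial.mem_support_iff.1 ha
    · intro a _ b _ hab
      apply Finsupp.ext
      intro i
      rw [Subsingleton.elim i 0]
      exact hab
    · intro i hi
      rw [Polynomial.mem_support_iff, h4] at hi
      exact ⟨Finsupp.single default i, MvPolynomial.mem_support_iff.2 hi, by simp⟩
    · intro a _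
      have h5 : Finsupp.single default (a 0) = a := by
        rw [Finsupp.unique_single a]
        simp
      rw [h4, h5]
  rwa [h3] at h2

theorem s8 (h4 : S_4) : S_8 := by
  intro D0
  refine ⟨Real.log ((2 * D0).factorial : ℝ) + 2 * D0, ?_, ?_⟩
  · have h1 : (1 : ℝ) ≤ ((2 * D0).factorial : ℝ) := by
      exact_mod_cast Nat.one_le_iff_ne_zero.2 (Nat.factorial_ne_zero _)
    have h2 := Real.log_nonneg h1
    positivity
  intro K _ _ z g A hg hdeg hnd hgD hAD hgz hAz
  refine ⟨1, ?_⟩
  have hg0 : g ≠ 0 := hg.ne_zero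
  have hA0 : A ≠ 0 := by
    rintro rfl
    exact hnd (dvd_zero g)
  have hg1 := one_le hg0
  have hA1 := one_le hA0
  have hR := res_ne hg (hdeg 0) hnd
  have hz := res_zero (hdeg 0) hgz hAz
  have h1 := height_le h4 hR hz
  refine h1.trans ?_
  refine mul_le_mul_of_nonneg_left ?_ (Nat.cast_nonneg _)
  have hm : (finSuccEquiv ℤ 1 g).natDegree ≤ D0 := by
    rw [natDegree_finSuccEquiv]; exact hgD 0
  have hn : (finSuccEquiv ℤ 1 A).natDegree ≤ D0 := by
    rw [natDegree_finSuccEquiv]; exact hAD 0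
  set m := (finSuccEquiv ℤ 1 g).natDegree with hmdef
  set n := (finSuccEquiv ℤ 1 A).natDegree with hndef
  have hlg := Real.log_nonneg hg1
  have hlA := Real.log_nonneg hA1
  have hZ1 : 1 ≤ l1 g * l1 A := one_le_mul_of_one_le_of_one_le hg1 hA1
  have hZ := l1_res g A m n (Z := l1 g * l1 A) (by linarith) (by nlinarith) (by nlinarith)
  have hlog : Real.log (l1 g * l1 A) = Real.log (l1 g) + Real.log (l1 A) :=
    Real.log_mul (by linarith) (by linarith)
  have hfac : (0 : ℝ) < ((m + n).factorial : ℝ) := by exact_mod_cast Nat.factorial_pos _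
  have h2 : Real.log (l1 (Polynomial.resultant (finSuccEquiv ℤ 1 g) (finSuccEquiv ℤ 1 A))) ≤
      Real.log ((m + n).factorial : ℝ) + (m + n : ℕ) * (Real.log (l1 g) + Real.log (l1 A)) := by
    have h3 := Real.log_le_log (by linarith [one_le hR]) hZ
    rw [Real.log_mul hfac.ne' (by positivity), Real.log_pow, hlog] at h3
    exact h3
  have h4 : Real.log ((m + n).factorial : ℝ) ≤ Real.log ((2 * D0).factorial : ℝ) := by
    apply Real.log_le_log hfac
    exact_mod_cast Nat.factorial_le (by omega)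
  have h5 : ((m + n : ℕ) : ℝ) ≤ 2 * D0 := by
    have : m + n ≤ 2 * D0 := by omega
    exact_mod_cast this
  have h6 : ((m + n : ℕ) : ℝ) * (Real.log (l1 g) + Real.log (l1 A)) ≤
      2 * D0 * (Real.log (l1 g) + Real.log (l1 A)) :=
    mul_le_mul_of_nonneg_right h5 (by positivity)
  have h7 : 0 ≤ Real.log ((2 * D0).factorial : ℝ) := by
    apply Real.log_nonneg
    exact_mod_cast Nat.one_le_iff_ne_zero.2 (Nat.factorial_ne_zero _)
  have h8 : (0 : ℝ) ≤ D0 := Nat.cast_nonneg D0
  have h9 : 0 ≤ Real.log ((2 * D0).factorial : ℝ) * (Real.log (l1 g) + Real.log (l1 A)) := by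
    positivity
  nlinarith

end Pool.Agent.H883.ZR.S8
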