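import Pool.Agent.H883.ZR.Base

set_option autoImplicit false
set_option linter.unusedSectionVars false

/-!
# Independence of products of powers on a curve
-/

namespace Pool.Agent.H883.ZR.S9a

open Finset MvPolynomial
open Pool.Agent.H883.ZQ (mo)

/-! ### valuations -/

lemma sum_ne_zero_of_inj {F Γ ι : Type*} [Field F] [LinearOrderedCommGroupWithZero Γ]
    (v : Valuation F Γ) (S : Finset ι) (f : ι → F) (hS : S.Nonempty)
    (h0 : ∀ i ∈ S, f i ≠ 0) (hinj : ∀ i ∈ S, ∀ j ∈ S, v (f i) = v (f j) → i = j) :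
    ∑ i ∈ S, f i ≠ 0 := by
  classical
  obtain ⟨j, hj, hmax⟩ := Finset.exists_max_image S (fun i => v (f i)) hS
  have h1 : v (∑ i ∈ S, f i) = v (f j) := by
    apply v.map_sum_eq_of_lt hj
    intro i hi
    rw [Finset.mem_sdiff, Finset.mem_singleton] at hi
    refine lt_of_le_of_ne (hmax i hi.1) ?_
    intro h
    exact hi.2 (hinj i hi.1 j hj h)
  intro h
  rw [h, map_zero] at h1
  exact h0 j hj ((v.zero_iff).1 h1.symm)

lemma exists_valuation (F : Type) [Field F] [CharZero F] (s : F)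
    (hs : ∀ p : Polynomial ℤ, p ≠ 0 → Polynomial.aeval s p ≠ 0) :
    ∃ B : ValuationSubring F, B.valuation s < 1 ∧ ∀ n : ℤ, n ≠ 0 → B.valuation (n : F) = 1 := by
  have hsQ : ∀ p : Polynomial ℚ, p ≠ 0 → Polynomial.aeval s p ≠ 0 := by
    intro p hp h
    have h1 : IsAlgebraic ℤ s := (IsFractionRing.isAlgebraic_iff ℤ ℚ F).2 ⟨p, hp, h⟩
    obtain ⟨q, hq, hq0⟩ := h1
    exact hs q hq hq0
  let A : Subring F := (Polynomial.aeval s : Polynomial ℚ →ₐ[ℚ] F).range.toSubring
  have hA : ∀ p : Polynomial ℚ, Polynomial.aeval s p ∈ A := fun p => ⟨p, rfl⟩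
  have hsA : s ∈ A := by
    have := hA Polynomial.X
    rwa [Polynomial.aeval_X] at this
  let I : Ideal A := Ideal.span {⟨s, hsA⟩}
  have hI : I ≠ ⊤ := by
    intro h
    have h1 : (1 : A) ∈ I := by
      rw [h]
      exact Submodule.mem_top
    rw [Ideal.mem_span_singleton'] at h1
    obtain ⟨⟨a, p, hp⟩, ha⟩ := h1
    have h2 : a * s = 1 := congrArg Subtype.val ha
    have h3 : Polynomial.aeval s p = a := hp
    have h4 : Polynomial.aeval s (p * Polynomial.X - 1 : Polynomial ℚ) = 0 := by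
      rw [map_sub, map_mul, Polynomial.aeval_X, map_one, h3, h2, sub_self]
    refine hsQ _ ?_ h4
    intro h5
    have h6 := congrArg (Polynomial.eval 0) h5
    simp at h6
  obtain ⟨B, hAB, hIB⟩ := Ideal.image_subset_nonunits_valuationSubring I hI
  refine ⟨B, ?_, ?_⟩
  · have h1 : s ∈ B.nonunits := by
      apply hIB
      exact ⟨⟨s, hsA⟩, Ideal.subset_span rfl, rfl⟩
    exact B.mem_nonunits_iff.1 h1
  · intro n hn
    have hn' : (n : F) ≠ 0 := Int.cast_ne_zero.2 hn
    have h1 : (n : F) ∈ B := by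
      apply hAB
      exact intCast_mem A n
    have h2 : (n : F)⁻¹ ∈ B := by
      apply hAB
      have := hA (Polynomial.C ((n : ℚ)⁻¹))
      rw [Polynomial.aeval_C] at this
      simpa using this
    have h3 := (B.valuation_le_one_iff _).2 h1
    have h4 := (B.valuation_le_one_iff _).2 h2
    rw [map_inv₀] at h4
    refine le_antisymm h3 ?_
    have h5 : B.valuation (n : F) ≠ 0 := (Valuation.ne_zero_iff _).2 hn'
    by_contra hlt
    rw [not_le] at hlt
    have h6 := (one_lt_inv₀ (zero_lt_iff.2 h5)).2 hlt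
    exact absurd h4 (not_le.2 h6)

/-! ### the flip -/

lemma flip_flip (b : Fin 2 → Bool) (P : MvPolynomial (Fin 2) ℤ) :
    Pool.Agent.H883.ZQ.flip b (Pool.Agent.H883.ZQ.flip b P) = P := by
  have h : (Pool.Agent.H883.ZQ.flip b).comp (Pool.Agent.H883.ZQ.flip b) = AlgHom.id ℤ _ := by
    apply MvPolynomial.algHom_ext
    intro i
    rw [AlgHom.comp_apply, AlgHom.id_apply]
    unfold Pool.Agent.H883.ZQ.flip
    rw [aeval_X]
    cases hb : b i
    · simp only [Bool.false_eq_true, if_false]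
      rw [aeval_X, hb]
      simp
    · simp only [if_true]
      rw [map_sub, map_one, aeval_X, hb]
      simp
  exact DFunLike.congr_fun h P

lemma degreeOf_flip (b : Fin 2 → Bool) (P : MvPolynomial (Fin 2) ℤ) (i : Fin 2) :
    degreeOf i (Pool.Agent.H883.ZQ.flip b P) ≤ degreeOf i P := by
  have hX : ∀ j : Fin 2, degreeOf i (if b j then 1 - X j else X j : MvPolynomial (Fin 2) ℤ) ≤
      if i = j then 1 else 0 := by
    intro j
    have h1 : degreeOf i (X j : MvPolynomial (Fin 2) ℤ) = if i = j then 1 else 0 := degreeOf_X i j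
    cases hb : b j
    · simp only [Bool.false_eq_true, if_false]
      exact h1.le
    · simp only [if_true]
      refine (degreeOf_sub_le _ _ _).trans ?_
      rw [degreeOf_one, h1]
      simp
  unfold Pool.Agent.H883.ZQ.flip
  conv_lhs => rw [P.as_sum, map_sum]
  refine (degreeOf_sum_le _ _ _).trans (Finset.sup_le fun m hm => ?_)
  rw [aeval_monomial, Finsupp.prod_fintype _ _ (fun i => pow_zero _)]
  refine le_trans ?_ (monomial_le_degreeOf i hm)
  refine (degreeOf_mul_le _ _ _).trans ?_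
  have h2 : degreeOf i (algebraMap ℤ (MvPolynomial (Fin 2) ℤ) (coeff m P)) = 0 := by
    rw [algebraMap_eq, degreeOf_C]
  rw [h2, zero_add]
  refine (degreeOf_prod_le _ _ _).trans ?_
  calc ∑ j, degreeOf i ((if b j then 1 - X j else X j : MvPolynomial (Fin 2) ℤ) ^ m j)
      ≤ ∑ j, m j * (if i = j then 1 else 0) :=
        Finset.sum_le_sum fun j _ => (degreeOf_pow_le _ _ _).trans (Nat.mul_le_mul_left _ (hX j))
    _ = m i := by simp

/-- polynomials in the first coordinate are not divisible by `g` -/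
lemma not_dvd_of_degreeOf {g q : MvPolynomial (Fin 2) ℤ} (hg : g ≠ 0) (i : Fin 2)
    (hgi : 0 < degreeOf i g) (hq : q ≠ 0) (hqi : degreeOf i q = 0) : ¬ g ∣ q := by
  rintro ⟨r, rfl⟩
  have hr : r ≠ 0 := right_ne_zero_of_mul hq
  rw [degreeOf_mul_eq hg hr] at hqi
  omega

/-- the function field -/
lemma exists_field (g : MvPolynomial (Fin 2) ℤ) (hg : Irreducible g)
    (hd : ∀ i, 0 < degreeOf i g) :
    ∃ (F : Type) (_ : Field F) (φ : MvPolynomial (Fin 2) ℤ →+* F),
      CharZero F ∧ ∀ P, φ P = 0 ↔ g ∣ P := by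
  have hp : Prime g := UniqueFactorizationMonoid.irreducible_iff_prime.1 hg
  have hP : (Ideal.span {g}).IsPrime := (Ideal.span_singleton_prime hg.ne_zero).2 hp
  let Q := MvPolynomial (Fin 2) ℤ ⧸ Ideal.span {g}
  have hQ : IsDomain Q := Ideal.Quotient.isDomain _
  let φ : MvPolynomial (Fin 2) ℤ →+* FractionRing Q :=
    (algebraMap Q (FractionRing Q)).comp (Ideal.Quotient.mk _)
  have hφ : ∀ P, φ P = 0 ↔ g ∣ P := by
    intro P
    rw [RingHom.comp_apply, map_eq_zero_iff _ (IsFractionRing.injective Q (FractionRing Q)),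
      Ideal.Quotient.eq_zero_iff_mem, Ideal.mem_span_singleton]
  refine ⟨FractionRing Q, inferInstance, φ, ?_, hφ⟩
  apply charZero_of_inj_zero
  intro n hn
  by_contra h0
  have h1 : φ (C (n : ℤ)) = 0 := by
    have h2 : (φ.comp C) (n : ℤ) = ((n : ℤ) : FractionRing Q) := eq_intCast _ _
    rw [RingHom.comp_apply] at h2
    rw [h2, Int.cast_natCast, hn]
  rw [hφ] at h1
  refine not_dvd_of_degreeOf hg.ne_zero 0 (hd 0) ?_ ?_ h1
  · rw [Ne, C_eq_zero]
    exact_mod_cast h0
  · exact degreeOf_C _ _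

lemma degreeOf_aeval_X (p : Polynomial ℤ) :
    degreeOf 1 (Polynomial.aeval (X 0 : MvPolynomial (Fin 2) ℤ) p) = 0 := by
  rw [Polynomial.aeval_eq_sum_range]
  refine Nat.le_zero.1 ((degreeOf_sum_le _ _ _).trans (Finset.sup_le fun n _ => ?_))
  rw [smul_eq_C_mul]
  refine (degreeOf_C_mul_le _ _ _).trans ((degreeOf_pow_le _ _ _).trans ?_)
  rw [degreeOf_X]
  simp

/-- transcendence of the first coordinate -/
lemma aeval_ne_zero {F : Type} [Field F] (g : MvPolynomial (Fin 2) ℤ) (hg : g ≠ 0)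
    (hd : ∀ i, 0 < degreeOf i g) (φ : MvPolynomial (Fin 2) ℤ →+* F)
    (hφ : ∀ P, φ P = 0 ↔ g ∣ P) (b : Fin 2 → Bool) (p : Polynomial ℤ) (hp : p ≠ 0) :
    Polynomial.aeval (φ (Pool.Agent.H883.ZQ.flip b (X 0))) p ≠ 0 := by
  have h1 : Polynomial.aeval (φ (Pool.Agent.H883.ZQ.flip b (X 0))) p =
      φ (Pool.Agent.H883.ZQ.flip b (Polynomial.aeval (X 0 : MvPolynomial (Fin 2) ℤ) p)) := by
    rw [← Polynomial.aeval_algHom_apply]
    have := Polynomial.hom_eval₂ p (algebraMap ℤ (MvPolynomial (Fin 2) ℤ)) φ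
      (Pool.Agent.H883.ZQ.flip b (X 0))
    rw [Polynomial.aeval_def, Polynomial.aeval_def, this]
    congr 1
    exact RingHom.ext_int _ _
  rw [h1, Ne, hφ]
  have hq : Polynomial.aeval (X 0 : MvPolynomial (Fin 2) ℤ) p ≠ 0 := by
    intro h
    exact (transcendental_X ℤ (0 : Fin 2)) ⟨p, hp, h⟩
  apply not_dvd_of_degreeOf hg 1 (hd 1)
  · intro h
    have h2 := congrArg (Pool.Agent.H883.ZQ.flip b) h
    rw [flip_flip, map_zero] at h2
    exact hq h2
  · exact Nat.le_zero.1 ((degreeOf_flip _ _ _).trans (degreeOf_aeval_X p).le)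

/-! ### the exponents -/

/-- the coordinates and their complements -/
noncomputable def cx (i : Fin 2) (b : Bool) : MvPolynomial (Fin 2) ℤ := if b then 1 - X i else X i

lemma flip_X (b : Fin 2 → Bool) (i : Fin 2) :
    Pool.Agent.H883.ZQ.flip b (X i) = cx i (b i) := by
  unfold Pool.Agent.H883.ZQ.flip cx
  rw [aeval_X]

lemma pow_inj {Γ : Type*} [LinearOrderedCommGroupWithZero Γ] {a : Γ} (h0 : a ≠ 0) (h1 : a < 1)
    {m n : ℤ} (h : a ^ m = a ^ n) : m = n := by
  have h2 : StrictAnti fun n : ℤ => a ^ n := zpow_right_strictAnti₀ (zero_lt_iff.2 h0) h1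
  exact h2.injective h

lemma exists_exponents {F : Type} [Field F] [CharZero F] {Γ : Type*}
    [LinearOrderedCommGroupWithZero Γ] (v : Valuation F Γ) (D0 : ℕ)
    (g : MvPolynomial (Fin 2) ℤ) (hg : g ≠ 0) (hd : ∀ i, degreeOf i g ≤ D0)
    (φ : MvPolynomial (Fin 2) ℤ →+* F) (hφ : φ g = 0) (e0 b : Bool)
    (hs0 : φ (cx 0 e0) ≠ 0) (hy0 : φ (cx 1 b) ≠ 0) (hs : v (φ (cx 0 e0)) < 1)
    (hv : ∀ n : ℤ, n ≠ 0 → v (n : F) = 1) :
    ∃ k l : ℤ, 0 < k ∧ k ≤ D0 ∧ |l| ≤ D0 ∧ v (φ (cx 1 b)) ^ k = v (φ (cx 0 e0)) ^ l := by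
  classical
  set s : F := φ (cx 0 e0) with hsdef
  set y : F := φ (cx 1 b) with hydef
  set β : Fin 2 → Bool := ![e0, b] with hβ
  set g' := Pool.Agent.H883.ZQ.flip β g with hg'
  have hvs0 : v s ≠ 0 := v.ne_zero_iff.2 hs0
  have hvy0 : v y ≠ 0 := v.ne_zero_iff.2 hy0
  have hg'0 : g' ≠ 0 := by
    intro h
    have h2 := congrArg (Pool.Agent.H883.ZQ.flip β) h
    rw [hg', flip_flip, map_zero] at h2
    exact hg h2
  have hdeg : ∀ m ∈ g'.support, ∀ i, m i ≤ D0 := fun m hm i =>
    (monomial_le_degreeOf i hm).trans ((degreeOf_flip β g i).trans (hd i))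
  let f : (Fin 2 →₀ ℕ) → F := fun m => ((coeff m g' : ℤ) : F) * (s ^ m 0 * y ^ m 1)
  have hsum : ∑ m ∈ g'.support, f m = 0 := by
    have h1 : φ (Pool.Agent.H883.ZQ.flip β g') = 0 := by rw [hg', flip_flip, hφ]
    rw [g'.as_sum, map_sum, map_sum] at h1
    rw [← h1]
    refine Finset.sum_congr rfl fun m _ => ?_
    rw [monomial_eq, Finsupp.prod_fintype _ _ (fun i => pow_zero _), Fin.prod_univ_two, map_mul,
      map_mul, map_mul (Pool.Agent.H883.ZQ.flip β) (X 0 ^ m 0), map_mul, map_pow,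
      map_pow, flip_X, map_pow, map_pow, flip_X]
    have h3 : φ (Pool.Agent.H883.ZQ.flip β (C (coeff m g'))) = ((coeff m g' : ℤ) : F) :=
      eq_intCast ((φ.comp (Pool.Agent.H883.ZQ.flip β).toRingHom).comp C) _
    rw [h3]
    rfl
  have hvf : ∀ m ∈ g'.support, v (f m) = v s ^ (m 0 : ℤ) * v y ^ (m 1 : ℤ) := by
    intro m hm
    have hc : coeff m g' ≠ 0 := mem_support_iff.1 hm
    rw [map_mul, map_mul, map_pow, map_pow, hv _ hc, one_mul, zpow_natCast, zpow_natCast]
  have hf0 : ∀ m ∈ g'.support, f m ≠ 0 := by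
    intro m hm
    have hc : coeff m g' ≠ 0 := mem_support_iff.1 hm
    exact mul_ne_zero (Int.cast_ne_zero.2 hc) (mul_ne_zero (pow_ne_zero _ hs0) (pow_ne_zero _ hy0))
  have hex : ∃ m ∈ g'.support, ∃ m' ∈ g'.support, v (f m) = v (f m') ∧ m ≠ m' := by
    by_contra hcon
    refine sum_ne_zero_of_inj v g'.support f (support_nonempty.2 hg'0) hf0 ?_ hsum
    intro m hm m' hm' h
    by_contra hne
    exact hcon ⟨m, hm, m', hm', h, hne⟩
  obtain ⟨m, hm, m', hm', hvv, hne⟩ := hex
  rw [hvf m hm, hvf m' hm'] at hvv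
  have hrel : v y ^ ((m 1 : ℤ) - m' 1) = v s ^ ((m' 0 : ℤ) - m 0) := by
    rw [zpow_sub₀ hvy0, zpow_sub₀ hvs0, div_eq_div_iff (zpow_ne_zero _ hvy0)
      (zpow_ne_zero _ hvs0), mul_comm, hvv]
  have hrel' : v y ^ ((m' 1 : ℤ) - m 1) = v s ^ ((m 0 : ℤ) - m' 0) := by
    rw [← neg_sub, ← neg_sub (m' 0 : ℤ), zpow_neg, zpow_neg, hrel]
  have b0 := hdeg m hm 0
  have b1 := hdeg m hm 1
  have b0' := hdeg m' hm' 0
  have b1' := hdeg m' hm' 1
  rcases lt_trichotomy (m 1) (m' 1) with h | h | h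
  · refine ⟨(m' 1 : ℤ) - m 1, (m 0 : ℤ) - m' 0, by omega, by omega, ?_, hrel'⟩
    rw [abs_le]
    constructor <;> omega
  · exfalso
    rw [h] at hrel
    rw [sub_self, zpow_zero] at hrel
    have h1 : (0 : ℤ) = (m' 0 : ℤ) - m 0 := by
      apply pow_inj hvs0 hs
      rw [zpow_zero, hrel]
    apply hne
    ext i
    fin_cases i
    · have : m 0 = m' 0 := by omega
      exact this
    · exact h
  · refine ⟨(m 1 : ℤ) - m' 1, (m' 0 : ℤ) - m 0, by omega, by omega, ?_, hrel⟩
    rw [abs_le]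
    constructor <;> omega

/-! ### the theorem -/

theorem s9a : S_9a := by
  intro D0 g hg hpos hd e0
  obtain ⟨F, hF, φ, hchar, hφ⟩ := exists_field g hg hpos
  have hgφ : φ g = 0 := (hφ g).2 dvd_rfl
  have hs : ∀ p : Polynomial ℤ, p ≠ 0 → Polynomial.aeval (φ (cx 0 e0)) p ≠ 0 := by
    intro p hp
    have h1 := aeval_ne_zero g hg.ne_zero hpos φ hφ ![e0, e0] p hp
    rw [flip_X] at h1
    exact h1
  obtain ⟨B, hvs, hvn⟩ := exists_valuation F (φ (cx 0 e0)) hs
  set v := B.valuation with hv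
  have hcx : ∀ i b, φ (cx i b) ≠ 0 := by
    intro i b h
    rw [hφ] at h
    obtain ⟨j, hj⟩ : ∃ j : Fin 2, j ≠ i := exists_ne i
    have hX0 : degreeOf j (X i : MvPolynomial (Fin 2) ℤ) = 0 := by
      rw [degreeOf_X, if_neg hj]
    refine not_dvd_of_degreeOf hg.ne_zero j (hpos j) ?_ ?_ h
    · intro h0
      have h1 := flip_flip (fun _ => b) (X i)
      rw [flip_X, h0, map_zero] at h1
      exact X_ne_zero i h1.symm
    · unfold cx
      cases b
      · simpa using hX0
      · simp only [if_true]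
        refine Nat.le_zero.1 ((degreeOf_sub_le _ _ _).trans ?_)
        rw [degreeOf_one, hX0]
        simp
  have hvs0 : v (φ (cx 0 e0)) ≠ 0 := v.ne_zero_iff.2 (hcx _ _)
  have hex := fun b => exists_exponents v D0 g hg.ne_zero hd φ hgφ e0 b (hcx _ _) (hcx _ _) hvs hvn
  choose k l hk1 hk2 hl hkl using hex
  refine ⟨k, l, fun b => ⟨hk1 b, hk2 b⟩, hl, ?_⟩
  intro ι _ E c hinj hdvd
  by_contra hc
  classical
  -- the other value at the first coordinate
  have hv1 : v (φ (cx 0 (!e0))) = 1 := by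
    have h1 : cx 0 (!e0) = 1 - cx 0 e0 := by
      unfold cx
      cases e0 <;> simp
    rw [h1, map_sub, map_one, v.map_sub_eq_of_lt_left (by rwa [map_one]), map_one]
  have hmo : ∀ e : Fin 2 × Bool → ℕ, v (φ (mo e)) =
      v (φ (cx 0 e0)) ^ (e (0, e0)) * ∏ b, v (φ (cx 1 b)) ^ e (1, b) := by
    intro e
    have h1 : mo e = (cx 0 e0 ^ e (0, e0) * cx 0 (!e0) ^ e (0, !e0)) *
        ∏ b, cx 1 b ^ e (1, b) := by
      rw [mo, Fin.prod_univ_two, Fintype.prod_bool]
      unfold cx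
      cases e0
      · simp only [Bool.false_eq_true, if_false, Bool.not_false, if_true]
        ring
      · simp only [Bool.false_eq_true, if_false, Bool.not_true, if_true]
        ring
    rw [h1, map_mul, map_mul, map_mul, map_mul, map_pow, map_pow, map_pow, map_pow, hv1, one_pow,
      mul_one, map_prod, map_prod]
    congr 1
    refine Finset.prod_congr rfl fun b _ => ?_
    rw [map_pow, map_pow]
  set a := v (φ (cx 0 e0)) with ha
  have hN : ∀ e : Fin 2 × Bool → ℕ, v (φ (mo e)) ^ (k true * k false) =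
      a ^ (k true * k false * e (0, e0) + (k false * l true * e (1, true) +
        k true * l false * e (1, false))) := by
    intro e
    rw [hmo, Fintype.prod_bool, ← zpow_natCast, ← zpow_natCast, ← zpow_natCast, mul_zpow,
      mul_zpow, ← zpow_mul, ← zpow_mul, ← zpow_mul, zpow_add₀ hvs0, zpow_add₀ hvs0]
    have h1 : ∀ b : Bool, ∀ q : ℤ, v (φ (cx 1 b)) ^ (k b * q) = a ^ (l b * q) := by
      intro b q
      rw [zpow_mul, hkl, ← zpow_mul]
    have h2 : ((e (1, true) : ℤ) * (k true * k false)) = k true * (k false * e (1, true)) := by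
      ring
    have h3 : ((e (1, false) : ℤ) * (k true * k false)) = k false * (k true * e (1, false)) := by
      ring
    have h4 : l true * (k false * (e (1, true) : ℤ)) = k false * l true * e (1, true) := by ring
    have h5 : l false * (k true * (e (1, false) : ℤ)) = k true * l false * e (1, false) := by ring
    rw [h2, h3, h1, h1, h4, h5, mul_comm (e (0, e0) : ℤ)]
  have hNinj : ∀ m m' : ι, v (φ (mo (E m))) = v (φ (mo (E m'))) → m = m' := by
    intro m m' h
    apply hinj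
    have h1 : v (φ (mo (E m))) ^ (k true * k false) = v (φ (mo (E m'))) ^ (k true * k false) := by
      rw [h]
    rw [hN, hN] at h1
    have h2 := pow_inj hvs0 hvs h1
    have kt : ((k true : ℤ) : ℝ) ≠ 0 := Int.cast_ne_zero.2 (hk1 true).ne'
    have kf : ((k false : ℤ) : ℝ) ≠ 0 := Int.cast_ne_zero.2 (hk1 false).ne'
    have h3 : ((k true * k false * E m (0, e0) + (k false * l true * E m (1, true) +
        k true * l false * E m (1, false)) : ℤ) : ℝ) =
        ((k true * k false * E m' (0, e0) + (k false * l true * E m' (1, true) +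
        k true * l false * E m' (1, false)) : ℤ) : ℝ) := by rw [h2]
    push_cast at h3
    simp only [Fintype.sum_bool]
    have h4 : ∀ e : Fin 2 × Bool → ℕ, ((e (0, e0) : ℕ) : ℝ) + ((l true : ℝ) / k true * e (1, true) +
        (l false : ℝ) / k false * e (1, false)) = ((k true : ℝ) * k false * e (0, e0) +
          (k false * l true * e (1, true) + k true * l false * e (1, false))) /
          (k true * k false) := by
      intro e
      field_simp
    rw [h4, h4, h3]
  have hne : (univ.filter fun m => c m ≠ 0).Nonempty := by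
    by_contra h0
    rw [Finset.not_nonempty_iff_eq_empty, Finset.filter_eq_empty_iff] at h0
    apply hc
    funext m
    by_contra hm
    exact h0 (Finset.mem_univ m) hm
  have hmo0 : ∀ e : Fin 2 × Bool → ℕ, v (φ (mo e)) ≠ 0 := by
    intro e
    rw [hmo]
    refine mul_ne_zero (pow_ne_zero _ hvs0) (Finset.prod_ne_zero_iff.2 fun b _ => ?_)
    exact pow_ne_zero _ (v.ne_zero_iff.2 (hcx _ _))
  have h0 : φ (∑ m, c m • mo (E m)) = 0 := (hφ _).2 hdvd
  have h1 : ∑ m ∈ univ.filter (fun m => c m ≠ 0), ((c m : ℤ) : F) * φ (mo (E m)) = 0 := by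
    rw [← h0, map_sum, Finset.sum_filter]
    refine Finset.sum_congr rfl fun m _ => ?_
    rw [map_zsmul, zsmul_eq_mul]
    split_ifs with h
    · rfl
    · rw [not_not] at h
      rw [h, Int.cast_zero, zero_mul]
  have hvc : ∀ m, c m ≠ 0 → v (((c m : ℤ) : F) * φ (mo (E m))) = v (φ (mo (E m))) := by
    intro m hm
    rw [map_mul, hvn _ hm, one_mul]
  refine sum_ne_zero_of_inj v _ _ hne ?_ ?_ h1
  · intro m hm
    have hcm := (Finset.mem_filter.1 hm).2
    exact mul_ne_zero (Int.cast_ne_zero.2 hcm) (v.ne_zero_iff.1 (hmo0 _))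
  · intro m hm m' hm' h
    rw [hvc m (Finset.mem_filter.1 hm).2, hvc m' (Finset.mem_filter.1 hm').2] at h
    exact hNinj m m' h

end Pool.Agent.H883.ZR.S9a
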