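import Pool.Agent.H883.ZR.Base

set_option autoImplicit false
set_option linter.unusedSectionVars false

/-!
# S9b: sections of a three-dimensional space of relations
-/

namespace Pool.Agent.H883.ZR.S9b

open Module Submodule
open Pool.Agent.H883.ZQ (rel rk ov mem_ov)

/-- functionals which vanish on the relations -/
theorem dual (ξ : Fin 3 × Bool → Fin 3 → ℝ) (f : (Fin 3 × Bool → ℝ) →ₗ[ℝ] ℝ)
    (hf : ∀ y ∈ rel ξ, f y = 0) :
    ∃ g : (Fin 3 → ℝ) →ₗ[ℝ] ℝ, ∀ r, f (Pi.single r 1) = g (ξ r) := by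
  have hm : f ∈ (LinearMap.ker (Fintype.linearCombination ℝ ξ)).dualAnnihilator :=
    (Submodule.mem_dualAnnihilator f).2 hf
  rw [← LinearMap.range_dualMap_eq_dualAnnihilator_ker] at hm
  obtain ⟨g, hg⟩ := hm
  refine ⟨g, fun r => ?_⟩
  rw [← hg]
  change g (Fintype.linearCombination ℝ ξ (Pi.single r 1)) = g (ξ r)
  rw [Fintype.linearCombination_apply_single, one_smul]

/-- the functionals `φ_e` -/
noncomputable def phi (q : Bool → Bool → ℝ) (e : Bool) : (Fin 3 × Bool → ℝ) →ₗ[ℝ] ℝ :=
  LinearMap.proj ((0 : Fin 3), e) + ∑ b', q e b' • LinearMap.proj ((1 : Fin 3), b')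

theorem phi_apply (q : Bool → Bool → ℝ) (e : Bool) (y : Fin 3 × Bool → ℝ) :
    phi q e y = y (0, e) + ∑ b', q e b' * y (1, b') := by
  unfold phi
  simp [LinearMap.add_apply]

/-- no functional in the coordinates over `2` vanishes on the relations -/
theorem two (ξ : Fin 3 × Bool → Fin 3 → ℝ) (h01 : rk ξ {0, 1} = 3) (c : Bool → ℝ)
    (hf : ∀ y ∈ rel ξ, ∑ b, c b * y (2, b) = 0) (b : Bool) : c b = 0 := by
  let f : (Fin 3 × Bool → ℝ) →ₗ[ℝ] ℝ := ∑ b, c b • LinearMap.proj ((2 : Fin 3), b)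
  have hfa : ∀ y, f y = ∑ b, c b * y (2, b) := by
    intro y
    simp [f]
  obtain ⟨g, hg⟩ := dual ξ f (fun y hy => by rw [hfa]; exact hf y hy)
  have htop : span ℝ (ξ '' (ov ({0, 1} : Finset (Fin 3)) : Set (Fin 3 × Bool))) = ⊤ := by
    apply Submodule.eq_top_of_finrank_eq
    rw [Module.finrank_fintype_fun_eq_card, Fintype.card_fin]
    exact h01
  have hg0 : g = 0 := by
    apply LinearMap.ext_on htop
    rintro _ ⟨r, hr, rfl⟩
    rw [← hg r, hfa, LinearMap.zero_apply]
    have hr' : r.1 ∈ ({0, 1} : Finset (Fin 3)) := mem_ov.1 (Finset.mem_coe.1 hr)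
    have hne : r.1 ≠ 2 := by
      rintro h
      rw [h] at hr'
      revert hr'
      decide
    refine Finset.sum_eq_zero fun b _ => ?_
    rw [Pi.single_eq_of_ne, mul_zero]
    rintro h
    exact hne (by rw [← h])
  have h2 := hg (2, b)
  rw [hg0, LinearMap.zero_apply, hfa] at h2
  rw [Finset.sum_eq_single b] at h2
  · rwa [Pi.single_eq_same, mul_one] at h2
  · intro b' _ hb'
    rw [Pi.single_eq_of_ne, mul_zero]
    rintro h
    exact hb' (congrArg Prod.snd h)
  · intro h
    exact absurd (Finset.mem_univ b) h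

/-- one of the functionals `φ_e` does not vanish on the relations -/
theorem one (ξ : Fin 3 × Bool → Fin 3 → ℝ) (h2 : rk ξ {2} = 2) (q : Bool → Bool → ℝ) :
    ∃ e, ∃ y ∈ rel ξ, phi q e y ≠ 0 := by
  by_contra hcon
  push Not at hcon
  choose g hg using fun e => dual ξ (phi q e) (hcon e)
  have h0 : ∀ e e', g e (ξ (0, e')) = if e' = e then 1 else 0 := by
    intro e e'
    rw [← hg, phi_apply, Finset.sum_eq_zero, add_zero]
    · by_cases h : e' = e
      · rw [h, Pi.single_eq_same, if_pos rfl]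
      · rw [if_neg h, Pi.single_eq_of_ne]
        intro h'
        exact h (congrArg Prod.snd h').symm
    · intro b' _
      rw [Pi.single_eq_of_ne, mul_zero]
      intro h'
      have h'' := congrArg Prod.fst h'
      simp at h''
  have h22 : ∀ e b, g e (ξ (2, b)) = 0 := by
    intro e b
    rw [← hg, phi_apply, Finset.sum_eq_zero, add_zero]
    · rw [Pi.single_eq_of_ne]
      intro h'
      have h'' : (0 : Fin 3) = 2 := congrArg Prod.fst h'
      exact absurd h'' (by decide)
    · intro b' _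
      rw [Pi.single_eq_of_ne, mul_zero]
      intro h'
      have h'' : (1 : Fin 3) = 2 := congrArg Prod.fst h'
      exact absurd h'' (by decide)
  let P : (Fin 3 → ℝ) →ₗ[ℝ] (Bool → ℝ) := LinearMap.pi g
  have hsurj : Function.Surjective P := by
    intro t
    refine ⟨t false • ξ (0, false) + t true • ξ (0, true), ?_⟩
    funext e
    change g e (t false • ξ (0, false) + t true • ξ (0, true)) = t e
    rw [map_add, map_smul, map_smul, h0, h0]
    cases e <;> simp
  have hle : span ℝ (ξ '' (ov ({2} : Finset (Fin 3)) : Set (Fin 3 × Bool))) ≤ LinearMap.ker P := by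
    rw [span_le]
    rintro _ ⟨r, hr, rfl⟩
    have hr' : r.1 = 2 := by
      have := mem_ov.1 (Finset.mem_coe.1 hr)
      exact Finset.mem_singleton.1 this
    rw [SetLike.mem_coe, LinearMap.mem_ker]
    funext e
    change g e (ξ r) = 0
    have : r = (2, r.2) := Prod.ext hr' rfl
    rw [this]
    exact h22 e r.2
  have hf1 := Submodule.finrank_mono hle
  have hf2 := LinearMap.finrank_range_add_finrank_ker P
  rw [LinearMap.range_eq_top.2 hsurj, finrank_top, Module.finrank_fintype_fun_eq_card,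
    Module.finrank_fintype_fun_eq_card, Fintype.card_fin, Fintype.card_bool] at hf2
  have hf3 : finrank ℝ (span ℝ (ξ '' (ov ({2} : Finset (Fin 3)) : Set (Fin 3 × Bool)))) = 2 := h2
  omega

theorem s9b : S_9b := by
  intro ξ _ h01 h2 q
  obtain ⟨e, y, hy, hφ⟩ := one ξ h2 q
  -- normalise
  let y0 : Fin 3 × Bool → ℝ := (phi q e y)⁻¹ • y
  have hy0 : y0 ∈ rel ξ := (rel ξ).smul_mem _ hy
  have hy01 : phi q e y0 = 1 := by
    change phi q e ((phi q e y)⁻¹ • y) = 1
    rw [map_smul, smul_eq_mul, inv_mul_cancel₀ hφ]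
  -- an element with `φ = 0` and a coordinate over `2` not zero
  have hex : ∃ b, ∃ z ∈ rel ξ, phi q e z = 0 ∧ z (2, b) ≠ 0 := by
    by_contra hcon
    push Not at hcon
    have h3 : ∀ b, ∀ z ∈ rel ξ, z (2, b) = phi q e z * y0 (2, b) := by
      intro b z hz
      have h4 := hcon b (z - phi q e z • y0) ((rel ξ).sub_mem hz ((rel ξ).smul_mem _ hy0)) (by
        rw [map_sub, map_smul, hy01, smul_eq_mul, mul_one, sub_self])
      rw [Pi.sub_apply, Pi.smul_apply, smul_eq_mul] at h4
      linarith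
    have h5 := two ξ h01 (fun b => if b = true then - y0 (2, false) else y0 (2, true)) (by
      intro z hz
      rw [Fintype.sum_bool, if_pos rfl, if_neg (by decide), h3 true z hz, h3 false z hz]
      ring)
    have h6 : y0 (2, true) = 0 := by
      have := h5 false
      simpa using this
    have h7 := two ξ h01 (fun b => if b = true then 1 else 0) (by
      intro z hz
      rw [Fintype.sum_bool, if_pos rfl, if_neg (by decide), h3 true z hz, h6]
      ring) true
    rw [if_pos rfl] at h7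
    exact one_ne_zero h7
  obtain ⟨b, z, hz, hz0, hzb⟩ := hex
  let a2 : Fin 3 × Bool → ℝ := (z (2, b))⁻¹ • z
  have ha2 : a2 ∈ rel ξ := (rel ξ).smul_mem _ hz
  have ha20 : phi q e a2 = 0 := by
    change phi q e ((z (2, b))⁻¹ • z) = 0
    rw [map_smul, hz0, smul_zero]
  have ha2b : a2 (2, b) = 1 := by
    change (z (2, b))⁻¹ * z (2, b) = 1
    exact inv_mul_cancel₀ hzb
  refine ⟨e, b, y0 - y0 (2, b) • a2, a2, (rel ξ).sub_mem hy0 ((rel ξ).smul_mem _ ha2), ha2, ?_, ?_,
    ?_, ha2b⟩
  · have h8 : phi q e (y0 - y0 (2, b) • a2) = phi q e y0 - y0 (2, b) • phi q e a2 :=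
      ((phi q e).map_sub y0 _).trans (by rw [(phi q e).map_smul (y0 (2, b)) a2])
    rw [← phi_apply, h8, ha20, smul_zero, sub_zero, hy01]
  · rw [Pi.sub_apply, Pi.smul_apply, ha2b, smul_eq_mul, mul_one, sub_self]
  · rw [← phi_apply, ha20]

end Pool.Agent.H883.ZR.S9b
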