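import Pool.Agent.H883.ZR.Base

/-!
# Roth's lemma at points of number fields
-/

set_option autoImplicit false

open Finset

namespace Pool.Agent.H883.ZR.SR

open Pool.Agent.H393R2.RothNS
open Pool.Agent.H883.ZR

/-! ### index -/

section Index

variable {K : Type} [Field K] {n : ℕ} (r : Fin n → ℕ) (ζ : Fin n → K)

/-- index at least `c` -/
def InI (c : ℝ) (f : MvPolynomial (Fin n) K) : Prop :=
  ∀ κ, MvPolynomial.coeff κ (TT ζ f) ≠ 0 → c ≤ wt r κ

variable {r ζ}

theorem InI_zero (f : MvPolynomial (Fin n) K) : InI r ζ 0 f := fun κ _ => wt_nonneg r κ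

theorem InI_mono {c c' : ℝ} (h : c' ≤ c) {f : MvPolynomial (Fin n) K} (hf : InI r ζ c f) :
    InI r ζ c' f := fun κ hκ => h.trans (hf κ hκ)

theorem InI_add {c : ℝ} {f g : MvPolynomial (Fin n) K} (hf : InI r ζ c f) (hg : InI r ζ c g) :
    InI r ζ c (f + g) := by
  intro κ hκ
  rw [map_add, MvPolynomial.coeff_add] at hκ
  by_cases h : MvPolynomial.coeff κ (TT ζ f) = 0
  · rw [h, zero_add] at hκ
    exact hg κ hκ
  · exact hf κ h

theorem InI_sum {ι : Type*} {c : ℝ} (s : Finset ι) {f : ι → MvPolynomial (Fin n) K}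
    (hf : ∀ i ∈ s, InI r ζ c (f i)) : InI r ζ c (∑ i ∈ s, f i) := by
  classical
  induction s using Finset.induction_on with
  | empty =>
    intro κ hκ
    simp at hκ
  | insert i s hi ih =>
    rw [Finset.sum_insert hi]
    exact InI_add (hf i (Finset.mem_insert_self i s))
      (ih (fun j hj => hf j (Finset.mem_insert_of_mem hj)))

theorem InI_mul {c c' : ℝ} {f g : MvPolynomial (Fin n) K} (hf : InI r ζ c f)
    (hg : InI r ζ c' g) : InI r ζ (c + c') (f * g) := by
  classical
  intro κ hκ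
  rw [map_mul, MvPolynomial.coeff_mul] at hκ
  obtain ⟨x, hx, hne⟩ := Finset.exists_ne_zero_of_sum_ne_zero hκ
  rw [HasAntidiagonal.mem_antidiagonal] at hx
  rw [← hx, wt_add]
  exact add_le_add (hf _ (left_ne_zero_of_mul hne)) (hg _ (right_ne_zero_of_mul hne))

theorem InI_prod {ι : Type*} (s : Finset ι) {c : ι → ℝ} {f : ι → MvPolynomial (Fin n) K}
    (hf : ∀ i ∈ s, InI r ζ (c i) (f i)) : InI r ζ (∑ i ∈ s, c i) (∏ i ∈ s, f i) := by
  classical
  induction s using Finset.induction_on with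
  | empty => simpa using InI_zero _
  | insert i s hi ih =>
    rw [Finset.sum_insert hi, Finset.prod_insert hi]
    exact InI_mul (hf i (Finset.mem_insert_self i s))
      (ih (fun j hj => hf j (Finset.mem_insert_of_mem hj)))

theorem InI_det {k : ℕ} {c : Fin k → ℝ} (E : Matrix (Fin k) (Fin k) (MvPolynomial (Fin n) K))
    (hE : ∀ a b, InI r ζ (c b) (E a b)) : InI r ζ (∑ b, c b) E.det := by
  rw [Matrix.det_apply']
  apply InI_sum
  intro π _
  have h1 := InI_prod (r := r) (ζ := ζ) Finset.univ (c := c) (f := fun i => E (π i) i)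
    (fun i _ => hE _ _)
  have h2 := InI_mul (InI_zero (r := r) (ζ := ζ) (((Equiv.Perm.sign π : ℤ) : MvPolynomial (Fin n) K))) h1
  rw [zero_add] at h2
  exact h2

theorem InI_DD {c : ℝ} {f : MvPolynomial (Fin n) K} (hf : InI r ζ c f) (μ : Fin n →₀ ℕ) :
    InI r ζ (c - wt r μ) (DD μ f) := by
  intro κ hκ
  rw [TT_DD, coeff_DD] at hκ
  have := hf _ (right_ne_zero_of_mul hκ)
  rw [wt_add] at this
  linarith

end Index

/-! ### one variable -/

open Polynomial in
theorem one_var (h4 : S_4) {K : Type} [Field K] [NumberField K] (σ ω R : ℝ) (hωσ : ω < σ)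
    (hσ : 0 < σ) (hR : 0 < R) (r : ℕ) (hr : 0 < r) (z : K)
    (hlog : (Module.finrank ℚ K : ℝ) * R ≤ r * Height.logHeight₁ z) (P : ℤ[X]) (hP : P ≠ 0)
    (hco : ∑ i ∈ P.support, |((P.coeff i : ℤ) : ℝ)| ≤ Real.exp (ω * R)) :
    ∃ k : ℕ, (k : ℝ) / r < σ ∧
      (hasseDeriv k (P.map (Int.castRingHom K))).eval z ≠ 0 := by
  by_contra hcon
  push Not at hcon
  have hr' : (0 : ℝ) < r := by exact_mod_cast hr
  have hD : (0 : ℝ) < Module.finrank ℚ K := by exact_mod_cast Module.finrank_pos
  set M := ⌈σ * r⌉₊ with hM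
  have hMge : σ * r ≤ M := Nat.le_ceil _
  have hvan : ∀ k < M, (hasseDeriv k (P.map (Int.castRingHom K))).eval z = 0 := by
    intro k hk
    apply hcon
    rw [div_lt_iff₀ hr']
    exact Nat.lt_ceil.mp hk
  have hdvd : (X - C z) ^ M ∣ P.map (Int.castRingHom K) := by
    rw [X_sub_C_pow_dvd_iff, X_pow_dvd_iff]
    intro d hd
    have := hvan d hd
    rw [← taylor_coeff] at this
    rw [← this]
    rfl
  have h1 := h4 K P hP z M hdvd
  have hpos : 0 < ∑ i ∈ P.support, |((P.coeff i : ℤ) : ℝ)| := by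
    apply Finset.sum_pos
    · intro i hi
      rw [abs_pos]
      exact_mod_cast Polynomial.mem_support_iff.1 hi
    · exact Polynomial.support_nonempty.2 hP
  have h2 : Real.log (∑ i ∈ P.support, |((P.coeff i : ℤ) : ℝ)|) ≤ ω * R := by
    rw [← Real.log_exp (ω * R)]
    exact Real.log_le_log hpos hco
  have hh : 0 ≤ Height.logHeight₁ z := by
    by_contra hneg
    push Not at hneg
    have : (r : ℝ) * Height.logHeight₁ z ≤ 0 := mul_nonpos_of_nonneg_of_nonpos hr'.le hneg.le
    have h3 : 0 < (Module.finrank ℚ K : ℝ) * R := mul_pos hD hR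
    linarith
  have h5 : σ * ((Module.finrank ℚ K : ℝ) * R) ≤ M * Height.logHeight₁ z := by
    calc σ * ((Module.finrank ℚ K : ℝ) * R) ≤ σ * (r * Height.logHeight₁ z) :=
          mul_le_mul_of_nonneg_left hlog hσ.le
      _ = (σ * r) * Height.logHeight₁ z := by ring
      _ ≤ M * Height.logHeight₁ z := mul_le_mul_of_nonneg_right hMge hh
  have h6 : (Module.finrank ℚ K : ℝ) * Real.log (∑ i ∈ P.support, |((P.coeff i : ℤ) : ℝ)|) ≤
      (Module.finrank ℚ K : ℝ) * (ω * R) := mul_le_mul_of_nonneg_left h2 hD.le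
  have h7 : (Module.finrank ℚ K : ℝ) * R * ω < (Module.finrank ℚ K : ℝ) * R * σ :=
    mul_lt_mul_of_pos_left hωσ (mul_pos hD hR)
  linarith

/-! ### Roth's lemma -/

theorem sr_zero : S_R 0 := by
  intro σ hσ
  refine ⟨1, one_pos, ?_⟩
  intro K _ _ r R _ _ _ _ z _ P hP _ _
  refine ⟨0, by simpa using hσ, ?_⟩
  have h1 : P = MvPolynomial.C (MvPolynomial.coeff 0 P) := MvPolynomial.eq_C_of_isEmpty P
  have h2 : MvPolynomial.coeff 0 P ≠ 0 := by
    intro h; apply hP; rw [h1, h, map_zero]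
  unfold tc
  rw [h1, MvPolynomial.map_C]
  have hTC : ∀ (ζ : Fin 0 → K) (c : K), TT ζ (MvPolynomial.C c) = MvPolynomial.C c :=
    fun ζ c => by simp [TT]
  rw [hTC, MvPolynomial.coeff_C, if_pos rfl]
  simpa using h2

theorem sr_succ (h4 : S_4) (m : ℕ) (ih : S_R m) : S_R (m + 1) := by
  classical
  intro σ hσ
  -- choice of parameters
  set σ₁ : ℝ := min σ 1 with hσ₁
  have hσ₁pos : 0 < σ₁ := lt_min hσ one_pos
  have hσ₁le : σ₁ ≤ 1 := min_le_right _ _
  have hσ₁le' : σ₁ ≤ σ := min_le_left _ _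
  set σ' : ℝ := σ₁ ^ 2 / 32 with hσ'
  have hσ'pos : 0 < σ' := by positivity
  obtain ⟨ω₀, hω₀, H⟩ := ih σ' hσ'pos
  set ωm : ℝ := min (σ₁ / 2) (min ω₀ (σ' / 2)) with hωm
  have hωmpos : 0 < ωm := lt_min (by positivity) (lt_min hω₀ (by positivity))
  set ω : ℝ := ωm / (1 + 3 * (m + 1)) with hω
  have hden : (0 : ℝ) < 1 + 3 * (m + 1) := by positivity
  have hωpos : 0 < ω := by positivity
  have hωmul : ω * (1 + 3 * (m + 1)) = ωm := by rw [hω]; field_simp
  have hωle : ω ≤ ωm := by
    rw [← hωmul]; apply le_mul_of_one_le_right hωpos.le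
    have : (0 : ℝ) ≤ m := by positivity
    linarith
  have hωmσ : ωm ≤ σ₁ / 2 := min_le_left _ _
  have hωm0 : ωm ≤ ω₀ := (min_le_right _ _).trans (min_le_left _ _)
  have hωm1 : ωm ≤ σ' / 2 := (min_le_right _ _).trans (min_le_right _ _)
  refine ⟨ω, hωpos, ?_⟩
  intro K _ _ r R hR hr hri hrR z hlog P hP hdegP hl1
  by_contra hcon
  push Not at hcon
  have hdeg : ∀ a ∈ P.support, ∀ h, a h ≤ r h := by
    intro a ha h
    exact (MvPolynomial.degreeOf_le_iff.mp (hdegP h)) a ha
  set PQ : MvPolynomial (Fin (m+1)) ℚ := MvPolynomial.map (Int.castRingHom ℚ) P with hPQ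
  set PK : MvPolynomial (Fin (m+1)) K := MvPolynomial.map (Int.castRingHom K) P with hPK
  have hinj : Function.Injective (Int.castRingHom ℚ) := RingHom.injective_int _
  have hPQ0 : PQ ≠ 0 := by
    intro h
    apply hP
    exact (MvPolynomial.map_injective _ hinj) (by rw [← hPQ, h, map_zero])
  have hsupPQ : ∀ a ∈ PQ.support, ∀ h, a h ≤ r h := by
    intro a ha h
    apply hdeg a _ h
    exact MvPolynomial.support_map_subset _ _ ha
  -- index of P
  have hPI : InI r z σ₁ PK := by
    intro κ hκ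
    by_contra hlt
    exact hκ (hcon κ (lt_of_lt_of_le (not_le.mp hlt) hσ₁le'))
  obtain ⟨k, hk0, hkr, f, g, hfg, hf, hg⟩ := sep_decomp PQ hPQ0 (r 0) (fun a ha => hsupPQ a ha 0)
  obtain ⟨μ, hμ, hU⟩ := gw_mv f hf
  have hV := gw_poly g hg
  set A : Matrix (Fin k) (Fin k) (MvPolynomial (Fin m) ℚ) := Matrix.of fun a i => DD (μ a) (f i) with hA
  set B : Matrix (Fin k) (Fin k) (Polynomial ℚ) :=
    Matrix.of fun b i : Fin k => Polynomial.hasseDeriv (b : ℕ) (g i) with hB
  set U := A.det with hUdef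
  set V := B.det with hVdef
  let E : Matrix (Fin k) (Fin k) (MvPolynomial (Fin (m+1)) ℤ) :=
    Matrix.of fun a b => DD (Finsupp.cons (b : ℕ) (μ a)) P
  have hEmap : E.map (MvPolynomial.map (Int.castRingHom ℚ)) =
      (A.map (i1 ℚ m)) * (B.map (i2 ℚ m)).transpose := by
    ext a b : 1
    rw [Matrix.map_apply, Matrix.mul_apply]
    simp only [E, Matrix.of_apply, DD_map]
    rw [← hPQ, hfg, map_sum]
    apply Finset.sum_congr rfl
    intro i _
    rw [DD_sep]
    rfl
  set W := E.det with hW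
  have hWmap : MvPolynomial.map (Int.castRingHom ℚ) W = i1 ℚ m U * i2 ℚ m V := by
    have h1 : MvPolynomial.map (Int.castRingHom ℚ) W =
        (E.map (MvPolynomial.map (Int.castRingHom ℚ))).det := by
      rw [hW]
      exact RingHom.map_det _ _
    rw [h1, hEmap, Matrix.det_mul, Matrix.det_transpose]
    congr 1
    · rw [hUdef]; exact (RingHom.map_det _ _).symm
    · rw [hVdef]; exact (RingHom.map_det _ _).symm
  have hWcoeff : ∀ n a, ((MvPolynomial.coeff (Finsupp.cons n a) W : ℤ) : ℚ) =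
      MvPolynomial.coeff a U * V.coeff n := by
    intro n a
    rw [← coeff_sep, ← hWmap, MvPolynomial.coeff_map]
    simp
  have hr' : ∀ h, (0 : ℝ) < r h := fun h => by exact_mod_cast hr h
  have hk0' : (0 : ℝ) < k := by exact_mod_cast hk0
  -- index of W
  set s : ℝ := σ₁ - ω with hs
  have hs0 : 0 < s := by
    have : ω ≤ σ₁ / 2 := hωle.trans hωmσ
    linarith
  have hs1 : s ≤ 1 := by linarith
  have hentry : ∀ a b : Fin k, InI r z (max 0 (s - (b : ℕ) / (r 0 : ℝ)))
      ((E.map (MvPolynomial.map (Int.castRingHom K))) a b) := by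
    intro a b
    rw [Matrix.map_apply]
    simp only [E, Matrix.of_apply, DD_map]
    rw [← hPK]
    have h1 := InI_DD hPI (Finsupp.cons (b : ℕ) (μ a))
    have hwt : wt r (Finsupp.cons (b : ℕ) (μ a)) ≤ (b : ℕ) / (r 0 : ℝ) + ω := by
      rw [wt, Fin.sum_univ_succ, Finsupp.cons_zero]
      apply add_le_add le_rfl
      have h2 : ∀ h : Fin m, ((Finsupp.cons (b : ℕ) (μ a) : Fin (m+1) →₀ ℕ) h.succ : ℝ) / r h.succ ≤
          (μ a h : ℝ) * (ω / r 0) := by
        intro h
        rw [Finsupp.cons_succ, div_eq_mul_inv]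
        apply mul_le_mul_of_nonneg_left _ (by positivity)
        have h3 := hri 0 h.succ (Fin.succ_pos h)
        rw [inv_le_iff_one_le_mul₀ (hr' _), div_mul_eq_mul_div, le_div_iff₀ (hr' 0), one_mul]
        exact h3
      refine (Finset.sum_le_sum (fun h _ => h2 h)).trans ?_
      rw [← Finset.sum_mul]
      have h4 : (∑ i : Fin m, ((μ a i : ℕ) : ℝ)) ≤ r 0 := by
        have : ∑ i, μ a i ≤ r 0 := (hμ a).trans (by have := a.isLt; omega)
        exact_mod_cast this
      calc (∑ i : Fin m, ((μ a i : ℕ) : ℝ)) * (ω / r 0) ≤ (r 0 : ℝ) * (ω / r 0) :=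
            mul_le_mul_of_nonneg_right h4 (by have := hr' 0; positivity)
        _ = ω := by have := hr' 0; field_simp
    rcases le_total 0 (s - (b : ℕ) / (r 0 : ℝ)) with h | h
    · rw [max_eq_right h]
      exact InI_mono (by linarith) h1
    · rw [max_eq_left h]
      exact InI_zero _
  have hWI' : InI r z (∑ b : Fin k, max 0 (s - (b : ℕ) / (r 0 : ℝ)))
      (MvPolynomial.map (Int.castRingHom K) W) := by
    have h1 : MvPolynomial.map (Int.castRingHom K) W =
        (E.map (MvPolynomial.map (Int.castRingHom K))).det := by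
      rw [hW]
      exact RingHom.map_det _ _
    rw [h1]
    exact InI_det _ hentry
  have hlow := sum_lower (r 0) (hr 0) s hs0 hs1 k hkr
  -- size of W
  have hexp : l1 W ≤ Real.exp (ωm * (k * R)) := by
    set N := ∑ h, r h with hN
    have h2N : (1 : ℝ) ≤ 2 ^ N := one_le_pow₀ (by norm_num)
    have hPl1 : l1 P ≤ 2 ^ N * Real.exp (ω * R) :=
      hl1.trans (le_mul_of_one_le_left (Real.exp_pos _).le h2N)
    have hE : ∀ a b, l1 (E a b) ≤ 4 ^ N * Real.exp (ω * R) := by
      intro a b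
      simp only [E, Matrix.of_apply]
      refine (l1_DD _ P N ?_).trans ?_
      · intro c hc
        exact Finset.sum_le_sum (fun h _ => hdeg c hc h)
      · calc (2 : ℝ) ^ N * l1 P ≤ 2 ^ N * (2 ^ N * Real.exp (ω * R)) :=
              mul_le_mul_of_nonneg_left hPl1 (by positivity)
          _ = 4 ^ N * Real.exp (ω * R) := by
              rw [← mul_assoc, ← mul_pow]; norm_num
    have h1 := l1_det E _ hE
    have hr0N : r 0 ≤ N := Finset.single_le_sum (f := r) (fun _ _ => Nat.zero_le _) (Finset.mem_univ 0)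
    have h2 : (k.factorial : ℝ) ≤ (2 ^ N) ^ k := by
      have h3 : k ≤ 2 ^ N := by
        calc k ≤ r 0 + 1 := hkr
          _ ≤ 2 ^ (r 0) := Nat.lt_two_pow_self
          _ ≤ 2 ^ N := Nat.pow_le_pow_right (by norm_num) hr0N
      have h4 : k.factorial ≤ (2 ^ N) ^ k := (Nat.factorial_le_pow k).trans (Nat.pow_le_pow_left h3 k)
      exact_mod_cast h4
    have hNR : (N : ℝ) ≤ (m + 1) * (ω * R) := by
      rw [hN]; push_cast
      refine (Finset.sum_le_card_nsmul _ _ (ω * R) (fun h _ => hrR h)).trans ?_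
      simp
    have h8 : (8 : ℝ) ≤ Real.exp 3 := by
      have h9 : (2 : ℝ) ≤ Real.exp 1 := by
        have := Real.add_one_le_exp (1 : ℝ); linarith
      have h10 : Real.exp 3 = Real.exp 1 ^ 3 := by
        rw [← Real.exp_nat_mul]; norm_num
      rw [h10]
      calc (8 : ℝ) = 2 ^ 3 := by norm_num
        _ ≤ _ := pow_le_pow_left₀ (by norm_num) h9 3
    have h11 : (8 : ℝ) ^ N * Real.exp (ω * R) ≤ Real.exp (ωm * R) := by
      calc (8 : ℝ) ^ N * Real.exp (ω * R) ≤ Real.exp 3 ^ N * Real.exp (ω * R) :=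
            mul_le_mul_of_nonneg_right (pow_le_pow_left₀ (by norm_num) h8 N) (Real.exp_pos _).le
        _ = Real.exp (N * 3 + ω * R) := by rw [← Real.exp_nat_mul, Real.exp_add]
        _ ≤ Real.exp (ωm * R) := by
          apply Real.exp_le_exp.mpr
          rw [← hωmul]
          nlinarith
    calc l1 W ≤ (k.factorial : ℝ) * (4 ^ N * Real.exp (ω * R)) ^ k := h1
      _ ≤ (2 ^ N) ^ k * (4 ^ N * Real.exp (ω * R)) ^ k :=
          mul_le_mul_of_nonneg_right h2 (by positivity)
      _ = ((8 : ℝ) ^ N * Real.exp (ω * R)) ^ k := by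
          rw [← mul_pow, ← mul_assoc, ← mul_pow]; norm_num
      _ ≤ (Real.exp (ωm * R)) ^ k := pow_le_pow_left₀ (by positivity) h11 k
      _ = Real.exp (ωm * (k * R)) := by
          rw [← Real.exp_nat_mul]; congr 1; ring
  -- the integral polynomials
  have hkR : 0 < (k : ℝ) * R := by positivity
  obtain ⟨n₀, hn₀⟩ : ∃ n, V.coeff n ≠ 0 := by
    by_contra h
    push Not at h
    exact hV (Polynomial.ext (by simpa using h))
  obtain ⟨a₀, ha₀⟩ : ∃ a, MvPolynomial.coeff a U ≠ 0 := MvPolynomial.ne_zero_iff.mp hU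
  -- U₁
  set U₁ : MvPolynomial (Fin m) ℤ := (MvPolynomial.finSuccEquiv ℤ m W).coeff n₀ with hU₁
  have hU₁c : ∀ a, MvPolynomial.coeff a U₁ = MvPolynomial.coeff (Finsupp.cons n₀ a) W :=
    fun a => MvPolynomial.finSuccEquiv_coeff_coeff _ _ _
  have hw0 : MvPolynomial.coeff (Finsupp.cons n₀ a₀) W ≠ 0 := by
    intro h
    have h1 := hWcoeff n₀ a₀
    rw [h, Int.cast_zero] at h1
    exact mul_ne_zero ha₀ hn₀ h1.symm
  have hU₁0 : U₁ ≠ 0 := by
    intro h
    apply hw0
    rw [← hU₁c, h, MvPolynomial.coeff_zero]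
  have hdegW : ∀ h, MvPolynomial.degreeOf h W ≤ k * r h := by
    intro h
    apply support_det
    intro a b
    rw [MvPolynomial.degreeOf_le_iff]
    intro c hc
    simp only [E, Matrix.of_apply] at hc
    rw [MvPolynomial.mem_support_iff, coeff_DD] at hc
    have := hdeg _ (MvPolynomial.mem_support_iff.mpr (right_ne_zero_of_mul hc)) h
    rw [Finsupp.add_apply] at this
    omega
  have hl1U : l1 U₁ ≤ l1 W := by
    have hi : Function.Injective (fun a : Fin m →₀ ℕ => (Finsupp.cons n₀ a : Fin (m+1) →₀ ℕ)) :=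
      fun a b hab => by
        have := congrArg Finsupp.tail hab
        simpa using this
    have h1 : l1 U₁ = ∑ c ∈ U₁.support.image (fun a => (Finsupp.cons n₀ a : Fin (m+1) →₀ ℕ)),
        |((MvPolynomial.coeff c W : ℤ) : ℝ)| := by
      rw [Finset.sum_image (fun a _ b _ h => hi h), l1]
      refine Finset.sum_congr rfl fun a _ => ?_
      rw [hU₁c]
    rw [h1, l1]
    refine Finset.sum_le_sum_of_subset_of_nonneg ?_ (fun _ _ _ => abs_nonneg _)
    intro c hc
    obtain ⟨a, ha, rfl⟩ := Finset.mem_image.1 hc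
    rw [MvPolynomial.mem_support_iff, ← hU₁c]
    exact MvPolynomial.mem_support_iff.1 ha
  obtain ⟨κ', hκ'wt, hκ'⟩ := H K (fun h => k * r h.succ) (k * R) hkR
    (fun h => Nat.mul_pos hk0 (hr _))
    (by
      intro i j hij
      have h1 := hri i.succ j.succ (Fin.succ_lt_succ_iff.mpr hij)
      push_cast
      calc (k : ℝ) * r i.succ ≤ k * (ω * r j.succ) := mul_le_mul_of_nonneg_left h1 hk0'.le
        _ ≤ k * (ω₀ * r j.succ) := by
            apply mul_le_mul_of_nonneg_left _ hk0'.le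
            exact mul_le_mul_of_nonneg_right (hωle.trans hωm0) (hr' _).le
        _ = ω₀ * (k * r j.succ) := by ring)
    (by
      intro h
      push_cast
      calc (k : ℝ) * r h.succ ≤ k * (ω * R) := mul_le_mul_of_nonneg_left (hrR _) hk0'.le
        _ ≤ k * (ω₀ * R) := by
            apply mul_le_mul_of_nonneg_left _ hk0'.le
            exact mul_le_mul_of_nonneg_right (hωle.trans hωm0) hR.le
        _ = ω₀ * (k * R) := by ring)
    (fun h => z h.succ)
    (by
      intro h
      push_cast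
      calc (Module.finrank ℚ K : ℝ) * (k * R) = k * ((Module.finrank ℚ K : ℝ) * R) := by ring
        _ ≤ k * (r h.succ * Height.logHeight₁ (z h.succ)) :=
          mul_le_mul_of_nonneg_left (hlog _) hk0'.le
        _ = k * r h.succ * Height.logHeight₁ (z h.succ) := by ring)
    U₁ hU₁0
    (by
      intro h
      rw [MvPolynomial.degreeOf_le_iff]
      intro a ha
      rw [MvPolynomial.mem_support_iff, hU₁c] at ha
      have := (MvPolynomial.degreeOf_le_iff.mp (hdegW h.succ)) _ (MvPolynomial.mem_support_iff.mpr ha)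
      rwa [Finsupp.cons_succ] at this)
    (by
      refine hl1U.trans (hexp.trans ?_)
      apply Real.exp_le_exp.mpr
      exact mul_le_mul_of_nonneg_right hωm0 hkR.le)
  -- V₁
  set Nv : ℕ := k * r 0 with hNv
  set V₁ : Polynomial ℤ := ∑ n ∈ Finset.range (Nv + 1),
    Polynomial.monomial n (MvPolynomial.coeff (Finsupp.cons n a₀) W) with hV₁
  have hV₁c : ∀ n, V₁.coeff n = MvPolynomial.coeff (Finsupp.cons n a₀) W := by
    intro n
    rw [hV₁, Polynomial.finsetSum_coeff]
    simp_rw [Polynomial.coeff_monomial]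
    rw [Finset.sum_ite_eq']
    split_ifs with hn
    · rfl
    · by_contra hne
      have := (MvPolynomial.degreeOf_le_iff.mp (hdegW 0)) _
        (MvPolynomial.mem_support_iff.mpr (Ne.symm hne))
      rw [Finsupp.cons_zero] at this
      apply hn
      rw [Finset.mem_range]
      omega
  have hV₁0 : V₁ ≠ 0 := by
    intro h
    apply hw0
    rw [← hV₁c, h, Polynomial.coeff_zero]
  have hl1V : ∑ n ∈ V₁.support, |((V₁.coeff n : ℤ) : ℝ)| ≤ l1 W := by
    have hi : Function.Injective (fun n : ℕ => (Finsupp.cons n a₀ : Fin (m+1) →₀ ℕ)) :=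
      fun a b hab => by
        have := DFunLike.congr_fun hab 0
        simpa using this
    have h1 : ∑ n ∈ V₁.support, |((V₁.coeff n : ℤ) : ℝ)| =
        ∑ c ∈ V₁.support.image (fun n => (Finsupp.cons n a₀ : Fin (m+1) →₀ ℕ)),
        |((MvPolynomial.coeff c W : ℤ) : ℝ)| := by
      rw [Finset.sum_image (fun a _ b _ h => hi h)]
      refine Finset.sum_congr rfl fun a _ => ?_
      rw [hV₁c]
    rw [h1, l1]
    refine Finset.sum_le_sum_of_subset_of_nonneg ?_ (fun _ _ _ => abs_nonneg _)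
    intro c hc
    obtain ⟨n, hn, rfl⟩ := Finset.mem_image.1 hc
    rw [MvPolynomial.mem_support_iff, ← hV₁c]
    exact Polynomial.mem_support_iff.1 hn
  obtain ⟨ν, hνwt, hν⟩ := one_var h4 σ' (σ' / 2) (k * R) (by linarith) hσ'pos hkR (k * r 0)
    (Nat.mul_pos hk0 (hr 0)) (z 0)
    (by
      push_cast
      calc (Module.finrank ℚ K : ℝ) * (k * R) = k * ((Module.finrank ℚ K : ℝ) * R) := by ring
        _ ≤ k * (r 0 * Height.logHeight₁ (z 0)) :=
          mul_le_mul_of_nonneg_left (hlog _) hk0'.le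
        _ = k * r 0 * Height.logHeight₁ (z 0) := by ring) V₁ hV₁0
    (by
      refine hl1V.trans (hexp.trans ?_)
      apply Real.exp_le_exp.mpr
      exact mul_le_mul_of_nonneg_right hωm1 hkR.le)
  -- combine
  have hprod : MvPolynomial.C (MvPolynomial.coeff (Finsupp.cons n₀ a₀) W) * W =
      i1 ℤ m U₁ * i2 ℤ m V₁ := by
    apply ext_cons
    intro n a
    rw [coeff_sep, MvPolynomial.coeff_C_mul, hU₁c, hV₁c]
    have h1 := hWcoeff n a
    have h2 := hWcoeff n₀ a₀
    have h3 := hWcoeff n₀ a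
    have h5 := hWcoeff n a₀
    have h6 : ((MvPolynomial.coeff (Finsupp.cons n₀ a₀) W *
        MvPolynomial.coeff (Finsupp.cons n a) W : ℤ) : ℚ) =
        ((MvPolynomial.coeff (Finsupp.cons n₀ a) W *
          MvPolynomial.coeff (Finsupp.cons n a₀) W : ℤ) : ℚ) := by
      push_cast
      rw [h1, h2, h3, h5]
      ring
    exact_mod_cast h6
  have hi1K : MvPolynomial.map (Int.castRingHom K) (i1 ℤ m U₁ * i2 ℤ m V₁) =
      i1 K m (MvPolynomial.map (Int.castRingHom K) U₁) *
        i2 K m (V₁.map (Int.castRingHom K)) := by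
    apply ext_cons
    intro n a
    rw [MvPolynomial.coeff_map, coeff_sep, coeff_sep, map_mul, MvPolynomial.coeff_map,
      Polynomial.coeff_map]
  have hUne : MvPolynomial.eval (fun h : Fin m => z h.succ)
      (DD κ' (MvPolynomial.map (Int.castRingHom K) U₁)) ≠ 0 := by
    intro h0
    apply hκ'
    unfold tc
    rw [coeff_TT]
    exact h0
  have hne : MvPolynomial.coeff (Finsupp.cons ν κ') (TT z (MvPolynomial.map (Int.castRingHom K)
      (i1 ℤ m U₁ * i2 ℤ m V₁))) ≠ 0 := by
    rw [hi1K, coeff_TT, DD_sep, map_mul, eval_i1, eval_i2]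
    exact mul_ne_zero hUne hν
  have hne2 : MvPolynomial.coeff (Finsupp.cons ν κ')
      (TT z (MvPolynomial.map (Int.castRingHom K) W)) ≠ 0 := by
    intro h0
    apply hne
    rw [← hprod, map_mul, MvPolynomial.map_C, map_mul]
    have hTC : TT z (MvPolynomial.C ((Int.castRingHom K)
        (MvPolynomial.coeff (Finsupp.cons n₀ a₀) W))) = MvPolynomial.C ((Int.castRingHom K)
        (MvPolynomial.coeff (Finsupp.cons n₀ a₀) W)) := by
      simp [TT]
    rw [hTC, MvPolynomial.coeff_C_mul, h0, mul_zero]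
  have hfin := hWI' (Finsupp.cons ν κ') hne2
  have hwt2 : wt r (Finsupp.cons ν κ') < k * σ' + k * σ' := by
    rw [wt, Fin.sum_univ_succ, Finsupp.cons_zero]
    apply add_lt_add_of_lt_of_le
    · push_cast at hνwt
      rw [div_lt_iff₀ (by have := hr' 0; positivity)] at hνwt
      rw [div_lt_iff₀ (hr' 0)]
      calc (ν : ℝ) < σ' * (k * r 0) := hνwt
        _ = k * σ' * r 0 := by ring
    · have h1 : ∑ h : Fin m, ((Finsupp.cons ν κ' : Fin (m+1) →₀ ℕ) h.succ : ℝ) / r h.succ =
          k * wt (fun h : Fin m => k * r h.succ) κ' := by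
        rw [wt, Finset.mul_sum]
        refine Finset.sum_congr rfl (fun h _ => ?_)
        rw [Finsupp.cons_succ]
        push_cast
        have := hr' h.succ
        field_simp
      rw [h1]
      exact mul_le_mul_of_nonneg_left hκ'wt.le hk0'.le
  have hsge : σ₁ / 2 ≤ s := by
    have : ω ≤ σ₁ / 2 := hωle.trans hωmσ
    linarith
  have hs2 : σ₁ ^ 2 / 4 ≤ s ^ 2 := by nlinarith
  have : (k : ℝ) * (σ₁ ^ 2 / 4) / 4 ≤ k * s ^ 2 / 4 := by
    apply div_le_div_of_nonneg_right _ (by norm_num)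
    exact mul_le_mul_of_nonneg_left hs2 hk0'.le
  have hσ'2 : k * σ' + k * σ' = (k : ℝ) * (σ₁ ^ 2 / 4) / 4 := by
    rw [hσ']; ring
  linarith

/-- Roth's lemma, from the polynomial version of the bound for one variable -/
theorem sr_of_S4 (h4 : S_4) (m : ℕ) : S_R m := by
  induction m with
  | zero => exact sr_zero
  | succ m ih => exact sr_succ h4 m ih

/-! ### the version for polynomials in one variable given as elements of `MvPolynomial (Fin 1) ℤ` -/

theorem i2_eq (R : Type) [CommRing R] (V : Polynomial R) : i2 R 0 V = i1 R 0 1 * i2 R 0 V := by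
  rw [map_one, one_mul]

theorem coeff_i2 (R : Type) [CommRing R] (V : Polynomial R) (n : ℕ) (a : Fin 0 →₀ ℕ) :
    MvPolynomial.coeff (Finsupp.cons n a) (i2 R 0 V) = V.coeff n := by
  have ha : a = 0 := Subsingleton.elim _ _
  rw [i2_eq, coeff_sep, ha, MvPolynomial.coeff_zero_one, one_mul]

theorem s4_of_s4' (h4 : S_4') : S_4 := by
  classical
  intro K _ _ V hV x M hdvd
  have hvan : ∀ k < M, (Polynomial.hasseDeriv k (V.map (Int.castRingHom K))).eval x = 0 := by
    intro k hk
    rw [Polynomial.X_sub_C_pow_dvd_iff, Polynomial.X_pow_dvd_iff] at hdvd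
    have h1 := hdvd k hk
    rw [← Polynomial.taylor_coeff]
    rw [← h1]
    rfl
  have hV' : i2 ℤ 0 V ≠ 0 := by
    intro h
    apply hV
    ext n
    rw [← coeff_i2 ℤ V n 0, h, MvPolynomial.coeff_zero, Polynomial.coeff_zero]
  have hmap : MvPolynomial.map (Int.castRingHom K) (i2 ℤ 0 V) =
      i2 K 0 (V.map (Int.castRingHom K)) := by
    apply ext_cons
    intro n a
    rw [MvPolynomial.coeff_map, coeff_i2, coeff_i2, Polynomial.coeff_map]
  have h1 := h4 K (i2 ℤ 0 V) hV' (fun _ => x) M (by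
    intro κ hκ
    unfold tc
    rw [hmap, coeff_TT, ← Finsupp.cons_tail κ, i2_eq, DD_sep, map_mul, eval_i2, hvan _ hκ,
      mul_zero])
  have hl1 : l1 (i2 ℤ 0 V) = ∑ i ∈ V.support, |((V.coeff i : ℤ) : ℝ)| := by
    have hi : Function.Injective (fun n : ℕ => (Finsupp.cons n 0 : Fin (0+1) →₀ ℕ)) :=
      fun a b hab => by
        have := DFunLike.congr_fun hab 0
        simpa using this
    have h2 : (i2 ℤ 0 V).support =
        V.support.image (fun n => (Finsupp.cons n 0 : Fin (0+1) →₀ ℕ)) := by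
      ext c
      rw [Finset.mem_image, MvPolynomial.mem_support_iff]
      constructor
      · intro hc
        refine ⟨c 0, ?_, ?_⟩
        · rw [Polynomial.mem_support_iff, ← coeff_i2 ℤ V (c 0) c.tail, Finsupp.cons_tail]
          exact hc
        · have h3 : (0 : Fin 0 →₀ ℕ) = c.tail := Subsingleton.elim _ _
          rw [h3, Finsupp.cons_tail]
      · rintro ⟨n, hn, rfl⟩
        rw [coeff_i2]
        exact Polynomial.mem_support_iff.1 hn
    rw [l1, h2, Finset.sum_image (fun a _ b _ h => hi h)]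
    refine Finset.sum_congr rfl fun a _ => ?_
    rw [coeff_i2]
  rw [hl1] at h1
  exact h1

/-- **Roth's lemma at points of number fields** -/
theorem sr (h4 : S_4') (m : ℕ) : S_R m := sr_of_S4 (s4_of_s4' h4) m

end Pool.Agent.H883.ZR.SR
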