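import Pool.Agent.H883.ZR.Base

set_option autoImplicit false

namespace Pool.Agent.H883.ZR.SS

open Finset MvPolynomial
attribute [local instance] Matrix.seminormedAddCommGroup

theorem ss : S_S := by
  classical
  intro σ ι _ P S A k hA hP hS hk
  by_cases hS0 : S = ∅
  · have hne : Nonempty ι := by
      rw [← Fintype.card_pos_iff]; omega
    obtain ⟨i₀⟩ := hne
    refine ⟨fun i => if i = i₀ then 1 else 0, ?_, ?_, ?_⟩
    · intro h
      have := congrFun h i₀
      simp at this
    · intro α hα
      rw [hS0] at hα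
      exact absurd hα (notMem_empty α)
    · intro m
      have h1 : (1 : ℝ) ≤ Fintype.card ι * A := by
        have h2 : (1 : ℝ) ≤ Fintype.card ι := by
          have : 1 ≤ Fintype.card ι := by omega
          exact_mod_cast this
        calc (1 : ℝ) = 1 * 1 := by ring
          _ ≤ Fintype.card ι * A := mul_le_mul h2 hA (by norm_num) (by linarith)
      have h3 : (1 : ℝ) ≤ (Fintype.card ι * A) ^ k := one_le_pow₀ h1
      dsimp only
      split_ifs
      · simpa using h3
      · simp only [Int.cast_zero, abs_zero]; linarith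
  · have hSpos : 0 < S.card := card_pos.2 (nonempty_iff_ne_empty.2 hS0)
    let M : Matrix S ι ℤ := fun α m => coeff α.1 (P m)
    have hn : Fintype.card S < Fintype.card ι := by rw [Fintype.card_coe]; exact hS
    have hm : 0 < Fintype.card S := by rw [Fintype.card_coe]; exact hSpos
    obtain ⟨c, hc0, hc1, hc2⟩ := Int.Matrix.exists_ne_zero_int_vec_norm_le M hn hm
    refine ⟨c, hc0, ?_, ?_⟩
    · intro α hα
      have h1 := congrFun hc1 ⟨α, hα⟩
      rw [coeff_sum]
      simp only [Matrix.mulVec, dotProduct, Pi.zero_apply] at h1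
      rw [← h1]
      refine sum_congr rfl fun m _ => ?_
      rw [coeff_smul, smul_eq_mul, mul_comm]
    · intro m
      have hnorm : ‖M‖ ≤ A := by
        rw [Matrix.norm_le_iff (by linarith)]
        intro α m
        rw [Int.norm_eq_abs]
        exact hP m α.1
      have h1 : |(c m : ℝ)| ≤ ‖c‖ := by
        rw [← Int.norm_eq_abs]; exact norm_le_pi_norm c m
      have hcard1 : (1 : ℝ) ≤ Fintype.card ι := by
        have : 1 ≤ Fintype.card ι := by omega
        exact_mod_cast this
      have hb1 : (1 : ℝ) ≤ Fintype.card ι * max 1 ‖M‖ := by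
        calc (1 : ℝ) = 1 * 1 := by ring
          _ ≤ Fintype.card ι * max 1 ‖M‖ := mul_le_mul hcard1 (le_max_left _ _) (by norm_num) (by linarith)
      have hexp : (Fintype.card S : ℝ) / (Fintype.card ι - Fintype.card S) ≤ k := by
        rw [Fintype.card_coe]
        have h2 : (0 : ℝ) < (Fintype.card ι : ℝ) - S.card := by
          have : (S.card : ℝ) < Fintype.card ι := by exact_mod_cast hS
          linarith
        rw [div_le_iff₀ h2]
        have h3 : ((S.card : ℕ) : ℝ) ≤ ((k * (Fintype.card ι - S.card) : ℕ) : ℝ) := by exact_mod_cast hk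
        rw [Nat.cast_mul, Nat.cast_sub hS.le] at h3
        exact h3
      calc |(c m : ℝ)| ≤ ‖c‖ := h1
        _ ≤ (Fintype.card ι * max 1 ‖M‖) ^ ((Fintype.card S : ℝ) / (Fintype.card ι - Fintype.card S)) := hc2
        _ ≤ (Fintype.card ι * max 1 ‖M‖) ^ ((k : ℕ) : ℝ) := Real.rpow_le_rpow_of_exponent_le hb1 hexp
        _ = (Fintype.card ι * max 1 ‖M‖) ^ k := Real.rpow_natCast _ _
        _ ≤ (Fintype.card ι * A) ^ k := by
            refine pow_le_pow_left₀ (by linarith) ?_ k
            exact mul_le_mul_of_nonneg_left (max_le hA hnorm) (by linarith)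

end Pool.Agent.H883.ZR.SS
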