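import Pool.Agent.H883.ZR.Base

set_option autoImplicit false
set_option linter.unusedSectionVars false

/-!
# Taylor coefficients of products of powers of `X_i` and `1 - X_i`
-/

namespace Pool.Agent.H883.ZR.ST

open MvPolynomial Finset
open Pool.Agent.H393R2.RothNS (TT DD l1)
open Pool.Agent.H883.ZQ (mo aeval_mo)
open Pool.Agent.H883.ZR

variable {I : Type} [Fintype I] [DecidableEq I] {K : Type} [Field K]

/-- the Taylor expansion of the product -/
lemma TT_mo (u : I → K) (e : I × Bool → ℕ) :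
    TT u (map (Int.castRingHom K) (mo e)) =
      ∏ i, ((X i + C (u i)) ^ e (i, false) * (C (1 - u i) - X i) ^ e (i, true)) := by
  unfold mo
  rw [map_prod, map_prod]
  refine prod_congr rfl fun i _ => ?_
  rw [map_mul, map_pow, map_pow, map_sub, map_one, map_X, map_mul, map_pow, map_pow, map_sub, map_one]
  unfold TT
  rw [aeval_X, map_sub, map_one]
  congr 2
  ring

/-! ### majorants -/

/-- `F` is a majorant of `f` -/
def Maj (v : AbsoluteValue K ℝ) (f : MvPolynomial I K) (F : MvPolynomial I ℝ) : Prop :=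
  ∀ κ, v (coeff κ f) ≤ coeff κ F

lemma Maj.nonneg {v : AbsoluteValue K ℝ} {f : MvPolynomial I K} {F : MvPolynomial I ℝ}
    (h : Maj v f F) (κ : I →₀ ℕ) : 0 ≤ coeff κ F := (v.nonneg _).trans (h κ)

lemma Maj.mul {v : AbsoluteValue K ℝ} {f g : MvPolynomial I K} {F G : MvPolynomial I ℝ}
    (hf : Maj v f F) (hg : Maj v g G) : Maj v (f * g) (F * G) := by
  intro κ
  rw [coeff_mul, coeff_mul]
  refine (v.sum_le _ _).trans (sum_le_sum fun x _ => ?_)
  rw [v.map_mul]
  exact mul_le_mul (hf _) (hg _) (v.nonneg _) (hf.nonneg _)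

lemma Maj.one {v : AbsoluteValue K ℝ} : Maj v (1 : MvPolynomial I K) 1 := by
  intro κ
  rw [coeff_one, coeff_one]
  split_ifs
  · rw [v.map_one]
  · rw [v.map_zero]

lemma Maj.pow {v : AbsoluteValue K ℝ} {f : MvPolynomial I K} {F : MvPolynomial I ℝ}
    (hf : Maj v f F) (n : ℕ) : Maj v (f ^ n) (F ^ n) := by
  induction n with
  | zero => rw [pow_zero, pow_zero]; exact Maj.one
  | succ n ih => rw [pow_succ, pow_succ]; exact ih.mul hf

lemma Maj.prod {v : AbsoluteValue K ℝ} (s : Finset I) {f : I → MvPolynomial I K}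
    {F : I → MvPolynomial I ℝ} (h : ∀ i, Maj v (f i) (F i)) : Maj v (∏ i ∈ s, f i) (∏ i ∈ s, F i) := by
  induction s using Finset.induction_on with
  | empty => rw [prod_empty, prod_empty]; exact Maj.one
  | insert a s ha ih => rw [prod_insert ha, prod_insert ha]; exact (h a).mul ih

lemma Maj.le {v : AbsoluteValue K ℝ} {f : MvPolynomial I K} {F : MvPolynomial I ℝ}
    (h : Maj v f F) (x : I → ℝ) (hx : ∀ i, 0 ≤ x i) (κ : I →₀ ℕ) :
    v (coeff κ f) * ∏ i, x i ^ κ i ≤ eval x F := by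
  have hp : ∀ d : I →₀ ℕ, 0 ≤ ∏ i, x i ^ d i := fun d => prod_nonneg fun i _ => pow_nonneg (hx i) _
  refine (mul_le_mul_of_nonneg_right (h κ) (hp κ)).trans ?_
  rw [eval_eq']
  by_cases hκ : κ ∈ F.support
  · exact single_le_sum (f := fun d => coeff d F * ∏ i, x i ^ d i)
      (fun d _ => mul_nonneg (h.nonneg d) (hp d)) hκ
  · rw [notMem_support_iff.1 hκ, zero_mul]
    exact sum_nonneg fun d _ => mul_nonneg (h.nonneg d) (hp d)

lemma maj_lin (v : AbsoluteValue K ℝ) (i : I) (c : K) : Maj v (X i + C c) (X i + C (v c)) := by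
  intro κ
  rw [coeff_add, coeff_add, coeff_X, coeff_X, coeff_C, coeff_C]
  refine (v.add_le _ _).trans (add_le_add ?_ ?_)
  · split_ifs
    · rw [v.map_one]
    · rw [v.map_zero]
  · split_ifs
    · rfl
    · rw [v.map_zero]

lemma maj_lin' (v : AbsoluteValue K ℝ) (i : I) (c : K) : Maj v (C c - X i) (X i + C (v c)) := by
  intro κ
  have h := maj_lin v i (-c) κ
  have e : (C c - X i : MvPolynomial I K) = -(X i + C (-c)) := by
    rw [map_neg]
    ring
  rw [e, coeff_neg, v.map_neg]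
  rw [v.map_neg] at h
  exact h

/-! ### Gauss norm -/

/-- the bound for the coefficients -/
def Gs (v : AbsoluteValue K ℝ) (R : I → ℝ) (f : MvPolynomial I K) (A : ℝ) : Prop :=
  0 ≤ A ∧ ∀ κ : I →₀ ℕ, v (coeff κ f) ≤ A * ∏ i, R i ^ κ i

lemma sum_le_of_ultra {v : AbsoluteValue K ℝ} (hu : ∀ x y, v (x + y) ≤ max (v x) (v y)) {ι : Type}
    (s : Finset ι) (f : ι → K) (B : ℝ) (hB : 0 ≤ B) (h : ∀ i ∈ s, v (f i) ≤ B) :
    v (∑ i ∈ s, f i) ≤ B := by
  classical
  induction s using Finset.induction_on with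
  | empty => rw [sum_empty, v.map_zero]; exact hB
  | insert a s ha ih =>
    rw [sum_insert ha]
    exact (hu _ _).trans (max_le (h a (mem_insert_self _ _))
      (ih fun i hi => h i (mem_insert_of_mem hi)))

lemma Gs.mul {v : AbsoluteValue K ℝ} (hu : ∀ x y, v (x + y) ≤ max (v x) (v y)) {R : I → ℝ}
    (hR : ∀ i, 0 ≤ R i) {f g : MvPolynomial I K} {A B : ℝ} (hf : Gs v R f A) (hg : Gs v R g B) :
    Gs v R (f * g) (A * B) := by
  have hp : ∀ d : I →₀ ℕ, 0 ≤ ∏ i, R i ^ d i := fun d => prod_nonneg fun i _ => pow_nonneg (hR i) _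
  refine ⟨mul_nonneg hf.1 hg.1, fun κ => ?_⟩
  rw [coeff_mul]
  refine sum_le_of_ultra hu _ _ _ (mul_nonneg (mul_nonneg hf.1 hg.1) (hp κ)) fun x hx => ?_
  have hx' : x.1 + x.2 = κ := mem_antidiagonal.1 hx
  have e : ∏ i, R i ^ κ i = (∏ i, R i ^ x.1 i) * ∏ i, R i ^ x.2 i := by
    rw [← prod_mul_distrib]
    refine prod_congr rfl fun i _ => ?_
    rw [← pow_add, ← hx', Finsupp.add_apply]
  rw [v.map_mul, e]
  calc v (coeff x.1 f) * v (coeff x.2 g) ≤ (A * ∏ i, R i ^ x.1 i) * (B * ∏ i, R i ^ x.2 i) :=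
        mul_le_mul (hf.2 _) (hg.2 _) (v.nonneg _) (mul_nonneg hf.1 (hp _))
    _ = _ := by ring

lemma Gs.one {v : AbsoluteValue K ℝ} {R : I → ℝ} (hR : ∀ i, 0 ≤ R i) :
    Gs v R (1 : MvPolynomial I K) 1 := by
  refine ⟨zero_le_one, fun κ => ?_⟩
  have hp : ∀ d : I →₀ ℕ, 0 ≤ ∏ i, R i ^ d i := fun d => prod_nonneg fun i _ => pow_nonneg (hR i) _
  rw [coeff_one, one_mul]
  split_ifs with h
  · rw [v.map_one, ← h]
    simp
  · rw [v.map_zero]
    exact hp κ

lemma Gs.pow {v : AbsoluteValue K ℝ} (hu : ∀ x y, v (x + y) ≤ max (v x) (v y)) {R : I → ℝ}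
    (hR : ∀ i, 0 ≤ R i) {f : MvPolynomial I K} {A : ℝ} (hf : Gs v R f A) (n : ℕ) :
    Gs v R (f ^ n) (A ^ n) := by
  induction n with
  | zero => rw [pow_zero, pow_zero]; exact Gs.one hR
  | succ n ih => rw [pow_succ, pow_succ]; exact ih.mul hu hR hf

lemma Gs.prod {v : AbsoluteValue K ℝ} (hu : ∀ x y, v (x + y) ≤ max (v x) (v y)) {R : I → ℝ}
    (hR : ∀ i, 0 ≤ R i) (s : Finset I) {f : I → MvPolynomial I K} {A : I → ℝ}
    (h : ∀ i, Gs v R (f i) (A i)) : Gs v R (∏ i ∈ s, f i) (∏ i ∈ s, A i) := by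
  induction s using Finset.induction_on with
  | empty => rw [prod_empty, prod_empty]; exact Gs.one hR
  | insert a s ha ih => rw [prod_insert ha, prod_insert ha]; exact (h a).mul hu hR ih

lemma gs_lin {v : AbsoluteValue K ℝ} {R : I → ℝ} (hR : ∀ i, 0 ≤ R i) (i : I) (c : K)
    (hc : 1 ≤ v c * R i) : Gs v R (X i + C c) (v c) := by
  have hp : ∀ d : I →₀ ℕ, 0 ≤ ∏ i, R i ^ d i := fun d => prod_nonneg fun i _ => pow_nonneg (hR i) _
  refine ⟨v.nonneg _, fun κ => ?_⟩
  rw [coeff_add, coeff_X, coeff_C]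
  by_cases h0 : (0 : I →₀ ℕ) = κ
  · have h1 : Finsupp.single i 1 ≠ κ := by
      rw [← h0]
      exact Finsupp.single_ne_zero.2 one_ne_zero
    rw [if_pos h0, if_neg h1, zero_add, ← h0]
    simp
  · rw [if_neg h0, add_zero]
    split_ifs with h1
    · rw [v.map_one, ← h1]
      have e : ∏ j, R j ^ (Finsupp.single i 1 : I →₀ ℕ) j = R i := by
        rw [prod_eq_single i]
        · rw [Finsupp.single_eq_same, pow_one]
        · intro j _ hj
          rw [Finsupp.single_apply, if_neg (Ne.symm hj), pow_zero]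
        · intro h
          exact absurd (mem_univ i) h
      rw [e]
      exact hc
    · rw [v.map_zero]
      exact mul_nonneg (v.nonneg _) (hp κ)

lemma gs_lin' {v : AbsoluteValue K ℝ} {R : I → ℝ} (hR : ∀ i, 0 ≤ R i) (i : I) (c : K)
    (hc : 1 ≤ v c * R i) : Gs v R (C c - X i) (v c) := by
  have h := gs_lin (v := v) hR i (-c) (by rwa [v.map_neg])
  rw [v.map_neg] at h
  refine ⟨h.1, fun κ => ?_⟩
  have e : (C c - X i : MvPolynomial I K) = -(X i + C (-c)) := by
    rw [map_neg]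
    ring
  rw [e, coeff_neg, v.map_neg]
  exact h.2 κ

/-! ### the theorem -/

theorem st : S_T := by
  intro I _ _ K _ v u hu0 hu1 e κ
  set R : I → ℝ := fun i => max 1 (max (v (u i))⁻¹ (v (1 - u i))⁻¹) with hRdef
  have hR1 : ∀ i, 1 ≤ R i := fun i => le_max_left _ _
  have hR0 : ∀ i, 0 ≤ R i := fun i => zero_le_one.trans (hR1 i)
  have hRp : ∀ i, 0 < R i := fun i => zero_lt_one.trans_le (hR1 i)
  have hv0 : ∀ i, 0 < v (u i) := fun i => v.pos (hu0 i)
  have hv1 : ∀ i, 0 < v (1 - u i) := fun i => v.pos (hu1 i)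
  have ha : ∀ i, 1 ≤ v (u i) * R i := by
    intro i
    have h : (v (u i))⁻¹ ≤ R i := (le_max_left _ _).trans (le_max_right _ _)
    calc (1 : ℝ) = v (u i) * (v (u i))⁻¹ := (mul_inv_cancel₀ (hv0 i).ne').symm
      _ ≤ _ := mul_le_mul_of_nonneg_left h (hv0 i).le
  have hb : ∀ i, 1 ≤ v (1 - u i) * R i := by
    intro i
    have h : (v (1 - u i))⁻¹ ≤ R i := (le_max_right _ _).trans (le_max_right _ _)
    calc (1 : ℝ) = v (1 - u i) * (v (1 - u i))⁻¹ := (mul_inv_cancel₀ (hv1 i).ne').symm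
      _ ≤ _ := mul_le_mul_of_nonneg_left h (hv1 i).le
  have hval : v (aeval u (mo e)) = ∏ i, (v (u i) ^ e (i, false) * v (1 - u i) ^ e (i, true)) := by
    rw [aeval_mo, map_prod]
    refine prod_congr rfl fun i _ => ?_
    rw [v.map_mul, v.map_pow, v.map_pow]
  have hRκ : 0 < ∏ i, R i ^ κ i := prod_pos fun i _ => pow_pos (hRp i) _
  constructor
  · have hM : Maj v (TT u (map (Int.castRingHom K) (mo e)))
        (∏ i, ((X i + C (v (u i))) ^ e (i, false) * (X i + C (v (1 - u i))) ^ e (i, true))) := by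
      rw [TT_mo]
      exact Maj.prod _ fun i => ((maj_lin v i (u i)).pow _).mul ((maj_lin' v i (1 - u i)).pow _)
    have h1 := hM.le (fun i => (R i)⁻¹) (fun i => inv_nonneg.2 (hR0 i)) κ
    have h2 : eval (fun i => (R i)⁻¹)
        (∏ i, ((X i + C (v (u i))) ^ e (i, false) * (X i + C (v (1 - u i))) ^ e (i, true)) :
          MvPolynomial I ℝ) =
        ∏ i, (((R i)⁻¹ + v (u i)) ^ e (i, false) * ((R i)⁻¹ + v (1 - u i)) ^ e (i, true)) := by
      rw [map_prod]
      refine prod_congr rfl fun i _ => ?_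
      rw [map_mul, map_pow, map_pow, map_add, map_add, eval_X, eval_C, eval_C]
    have hinva : ∀ i, (R i)⁻¹ ≤ v (u i) := fun i => by
      rw [inv_le_iff_one_le_mul₀ (hRp i)]
      exact ha i
    have hinvb : ∀ i, (R i)⁻¹ ≤ v (1 - u i) := fun i => by
      rw [inv_le_iff_one_le_mul₀ (hRp i)]
      exact hb i
    have h3 : ∏ i, (((R i)⁻¹ + v (u i)) ^ e (i, false) * ((R i)⁻¹ + v (1 - u i)) ^ e (i, true)) ≤
        ∏ i, ((2 * v (u i)) ^ e (i, false) * (2 * v (1 - u i)) ^ e (i, true)) := by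
      refine prod_le_prod (fun i _ => ?_) fun i _ => ?_
      · have h4 := inv_nonneg.2 (hR0 i)
        have h5 := hv0 i
        have h6 := hv1 i
        positivity
      · have h4 := inv_nonneg.2 (hR0 i)
        have h5 := hv0 i
        have h6 := hv1 i
        have h7 := hinva i
        have h8 := hinvb i
        refine mul_le_mul (pow_le_pow_left₀ (by linarith) (by linarith) _)
          (pow_le_pow_left₀ (by linarith) (by linarith) _) (by positivity) (by positivity)
    have h4 : ∏ i, ((2 * v (u i)) ^ e (i, false) * (2 * v (1 - u i)) ^ e (i, true)) =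
        2 ^ (∑ r, e r) * v (aeval u (mo e)) := by
      rw [hval, Fintype.sum_prod_type, ← prod_pow_eq_pow_sum, ← prod_mul_distrib]
      refine prod_congr rfl fun i _ => ?_
      rw [Fintype.sum_bool, pow_add, mul_pow, mul_pow]
      ring
    have h5 : (∏ i, ((R i)⁻¹) ^ κ i) * ∏ i, R i ^ κ i = 1 := by
      rw [← prod_mul_distrib]
      refine prod_eq_one fun i _ => ?_
      rw [← mul_pow, inv_mul_cancel₀ (hRp i).ne', one_pow]
    rw [h2] at h1
    have h6 := (h1.trans h3).trans (le_of_eq h4)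
    have h7 := mul_le_mul_of_nonneg_right h6 hRκ.le
    rw [mul_assoc, h5, mul_one, mul_assoc] at h7
    exact h7
  · intro hu
    have hG : Gs v R (TT u (map (Int.castRingHom K) (mo e)))
        (∏ i, (v (u i) ^ e (i, false) * v (1 - u i) ^ e (i, true))) := by
      rw [TT_mo]
      exact Gs.prod hu hR0 _ fun i => ((gs_lin hR0 i (u i) (ha i)).pow hu hR0 _).mul hu hR0
        ((gs_lin' hR0 i (1 - u i) (hb i)).pow hu hR0 _)
    rw [hval]
    exact hG.2 κ

end Pool.Agent.H883.ZR.ST
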