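import Pool.Agent.H883.ZR.Base

set_option autoImplicit false
set_option linter.unusedSectionVars false

/-!
# Elimination of coefficients in a field by generalised Wronskians (by helper591)
-/

namespace Pool.Agent.H883.ZR.SZ

open Finset MvPolynomial
open Pool.Agent.H393R2.RothNS
open Pool.Agent.H883.ZR

/-! ### index over a field -/

section Index

variable {n : ℕ} {K : Type} [Field K] (w : Fin n → ℝ) (z : Fin n → K)

/-- weight of an exponent -/
noncomputable def wq (κ : Fin n →₀ ℕ) : ℝ := ∑ h, w h * (κ h : ℝ)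

theorem wq_add (κ μ : Fin n →₀ ℕ) : wq w (κ + μ) = wq w κ + wq w μ := by
  simp [wq, mul_add, Finset.sum_add_distrib]

theorem wq_nonneg (hw : ∀ i, 0 ≤ w i) (κ : Fin n →₀ ℕ) : 0 ≤ wq w κ :=
  Finset.sum_nonneg (fun i _ => mul_nonneg (hw i) (Nat.cast_nonneg _))

/-- index at least `c` -/
def InK (c : ℝ) (f : MvPolynomial (Fin n) K) : Prop :=
  ∀ κ, coeff κ (TT z f) ≠ 0 → c ≤ wq w κ

variable {w z}

theorem InK_zero (hw : ∀ i, 0 ≤ w i) (f : MvPolynomial (Fin n) K) : InK w z 0 f := fun κ _ => wq_nonneg w hw κ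

theorem InK_mono {c c' : ℝ} (h : c' ≤ c) {f : MvPolynomial (Fin n) K} (hf : InK w z c f) :
    InK w z c' f := fun κ hκ => h.trans (hf κ hκ)

theorem InK_add {c : ℝ} {f g : MvPolynomial (Fin n) K} (hf : InK w z c f) (hg : InK w z c g) :
    InK w z c (f + g) := by
  intro κ hκ
  rw [map_add, coeff_add] at hκ
  by_cases h : coeff κ (TT z f) = 0
  · rw [h, zero_add] at hκ
    exact hg κ hκ
  · exact hf κ h

theorem InK_sum {ι : Type*} {c : ℝ} (s : Finset ι) {f : ι → MvPolynomial (Fin n) K}
    (hf : ∀ i ∈ s, InK w z c (f i)) : InK w z c (∑ i ∈ s, f i) := by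
  classical
  induction s using Finset.induction_on with
  | empty =>
    intro κ hκ
    simp at hκ
  | insert i s hi ih =>
    rw [Finset.sum_insert hi]
    exact InK_add (hf i (Finset.mem_insert_self i s))
      (ih (fun j hj => hf j (Finset.mem_insert_of_mem hj)))

theorem InK_mul {c c' : ℝ} {f g : MvPolynomial (Fin n) K} (hf : InK w z c f)
    (hg : InK w z c' g) : InK w z (c + c') (f * g) := by
  classical
  intro κ hκ
  rw [map_mul, coeff_mul] at hκ
  obtain ⟨x, hx, hne⟩ := Finset.exists_ne_zero_of_sum_ne_zero hκ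
  rw [HasAntidiagonal.mem_antidiagonal] at hx
  rw [← hx, wq_add]
  exact add_le_add (hf _ (left_ne_zero_of_mul hne)) (hg _ (right_ne_zero_of_mul hne))

theorem InK_prod {ι : Type*} (hw : ∀ i, 0 ≤ w i) (s : Finset ι) {c : ι → ℝ} {f : ι → MvPolynomial (Fin n) K}
    (hf : ∀ i ∈ s, InK w z (c i) (f i)) : InK w z (∑ i ∈ s, c i) (∏ i ∈ s, f i) := by
  classical
  induction s using Finset.induction_on with
  | empty => simpa using InK_zero hw _
  | insert i s hi ih =>
    rw [Finset.sum_insert hi, Finset.prod_insert hi]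
    exact InK_mul (hf i (Finset.mem_insert_self i s))
      (ih (fun j hj => hf j (Finset.mem_insert_of_mem hj)))

theorem InK_det (hw : ∀ i, 0 ≤ w i) {k : ℕ} {c : Fin k → ℝ} (E : Matrix (Fin k) (Fin k) (MvPolynomial (Fin n) K))
    (hE : ∀ a b, InK w z (c b) (E a b)) : InK w z (∑ b, c b) E.det := by
  rw [Matrix.det_apply']
  apply InK_sum
  intro π _
  have h1 := InK_prod (w := w) (z := z) hw Finset.univ (c := c) (f := fun i => E (π i) i)
    (fun i _ => hE _ _)
  have h2 := InK_mul (InK_zero (w := w) (z := z) hw (((Equiv.Perm.sign π : ℤ) : MvPolynomial (Fin n) K))) h1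
  rw [zero_add] at h2
  exact h2

theorem InK_DD {c : ℝ} {f : MvPolynomial (Fin n) K} (hf : InK w z c f) (μ : Fin n →₀ ℕ) :
    InK w z (c - wq w μ) (DD μ f) := by
  intro κ hκ
  rw [TT_DD, coeff_DD] at hκ
  have := hf _ (right_ne_zero_of_mul hκ)
  rw [wq_add] at this
  linarith

end Index

theorem degreeOf_DD {m : ℕ} (μ : Fin m →₀ ℕ) (P : MvPolynomial (Fin m) ℤ) (i : Fin m) :
    degreeOf i (DD μ P) ≤ degreeOf i P := by
  rw [degreeOf_le_iff]
  intro c hc
  rw [mem_support_iff, coeff_DD] at hc
  have h1 := (degreeOf_le_iff.mp (le_refl (degreeOf i P))) _ (mem_support_iff.mpr (right_ne_zero_of_mul hc))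
  rw [Finsupp.add_apply] at h1
  omega

theorem TT_smul' {m : ℕ} {K : Type} [Field K] (z : Fin m → K) (a : K) (f : MvPolynomial (Fin m) K)
    (κ : Fin m →₀ ℕ) : coeff κ (TT z (a • f)) = a * coeff κ (TT z f) := by
  rw [map_smul, coeff_smul, smul_eq_mul]

/-- the index of the Wronskian -/
theorem index {m r : ℕ} {K : Type} [Field K] (z : Fin m → K) (w : Fin m → ℝ) (c w1 : ℝ) (hw : ∀ i, 0 ≤ w i)
    (hw1 : ∀ i, w i ≤ w1) (h1 : 0 ≤ w1) (μ : Fin r → (Fin m →₀ ℕ)) (hμ : ∀ a, ∑ i, μ a i ≤ (a : ℕ))
    (F : Fin r → MvPolynomial (Fin m) K) (α : Fin r → K) (k : Fin r) (hk : α k ≠ 0)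
    (hf : InK w z c (∑ i, α i • F i)) :
    InK w z (c - r * w1) (Matrix.of fun a i => DD (μ a) (F i)).det := by
  classical
  set E : Matrix (Fin r) (Fin r) (MvPolynomial (Fin m) K) := Matrix.of fun a i => DD (μ a) (F i) with hE
  have e1 : (E.updateCol k (fun a => DD (μ a) (∑ i, α i • F i))).det = C (α k) * E.det := by
    have h2 := Matrix.det_updateCol_sum E k (fun i => (C (α i) : MvPolynomial (Fin m) K))
    rw [smul_eq_mul] at h2
    rw [← h2]
    congr 1
    congr 1
    funext a
    rw [map_sum]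
    refine Finset.sum_congr rfl fun i _ => ?_
    rw [map_smul, hE, Matrix.of_apply, smul_eq_mul, smul_eq_C_mul]
  have hwt : ∀ a : Fin r, wq w (μ a) ≤ r * w1 := by
    intro a
    have h3 : wq w (μ a) ≤ ∑ h, w1 * (μ a h : ℝ) :=
      Finset.sum_le_sum fun h _ => mul_le_mul_of_nonneg_right (hw1 h) (Nat.cast_nonneg _)
    rw [← Finset.mul_sum] at h3
    have h4 : (∑ h, (μ a h : ℝ)) ≤ r := by
      have : ∑ i, μ a i ≤ r := (hμ a).trans a.isLt.le
      exact_mod_cast this
    calc wq w (μ a) ≤ w1 * ∑ h, (μ a h : ℝ) := h3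
      _ ≤ w1 * r := mul_le_mul_of_nonneg_left h4 h1
      _ = r * w1 := mul_comm _ _
  have h5 : InK w z (∑ b : Fin r, if b = k then c - r * w1 else 0)
      (E.updateCol k (fun a => DD (μ a) (∑ i, α i • F i))).det := by
    apply InK_det hw
    intro a b
    by_cases hb : b = k
    · subst hb
      rw [if_pos rfl, Matrix.updateCol_self]
      exact InK_mono (by linarith [hwt a]) (InK_DD hf (μ a))
    · rw [if_neg hb]
      exact InK_zero hw _
  rw [Finset.sum_ite_eq' Finset.univ k, if_pos (Finset.mem_univ k), e1] at h5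
  intro κ hκ
  apply h5 κ
  rw [← smul_eq_C_mul, TT_smul']
  exact mul_ne_zero hk hκ

theorem sz : S_Z := by
  classical
  intro m J _ B hB
  set BQ : J → MvPolynomial (Fin m) ℚ := fun j => map (Int.castRingHom ℚ) (B j) with hBQ
  obtain ⟨κ, e, he, hspan, hli⟩ := exists_linearIndependent' ℚ BQ
  have : Finite κ := Finite.of_injective e he
  have := Fintype.ofFinite κ
  set r := Fintype.card κ with hr
  have hrJ : r ≤ Fintype.card J := Fintype.card_le_of_injective e he
  set q : Fin r ≃ κ := (Fintype.equivFin κ).symm with hq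
  have hli' : LinearIndependent ℚ (fun i : Fin r => BQ (e (q i))) := hli.comp q q.injective
  obtain ⟨μ, hμ, hdet⟩ := gw_mv (fun i : Fin r => BQ (e (q i))) hli'
  set W : MvPolynomial (Fin m) ℤ := (Matrix.of fun a i : Fin r => DD (μ a) (B (e (q i)))).det with hW
  have hmap : ∀ (S : Type) [CommRing S] (φ : ℤ →+* S), map φ W =
      (Matrix.of fun a i : Fin r => DD (μ a) (map φ (B (e (q i))))).det := by
    intro S _ φ
    rw [hW, RingHom.map_det]
    congr 1
    ext a i : 2
    rw [RingHom.mapMatrix_apply, Matrix.map_apply, Matrix.of_apply, Matrix.of_apply, DD_map]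
  refine ⟨W, ?_, ?_, ?_⟩
  · intro h0
    apply hdet
    have := hmap ℚ (Int.castRingHom ℚ)
    rw [h0, map_zero] at this
    exact this.symm
  · intro N hN
    refine ⟨fun i => ?_, ?_⟩
    · have h1 : degreeOf i W ≤ r * N i := by
        apply support_det
        intro a b
        rw [Matrix.of_apply]
        exact (degreeOf_DD _ _ _).trans (hN _ _)
      exact h1.trans (Nat.mul_le_mul_right _ hrJ)
    · intro L hL1 hL
      have h1 : l1 W ≤ (r.factorial : ℝ) * (2 ^ (∑ i, N i) * L) ^ r := by
        apply l1_det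
        intro a b
        rw [Matrix.of_apply]
        refine (l1_DD _ _ (∑ i, N i) ?_).trans ?_
        · intro c hc
          exact Finset.sum_le_sum fun i _ => (degreeOf_le_iff.mp (hN _ i)) c hc
        · exact mul_le_mul_of_nonneg_left (hL _) (by positivity)
      refine h1.trans ?_
      have h2 : (1 : ℝ) ≤ 2 ^ (∑ i, N i) * L := by
        have : (1 : ℝ) ≤ 2 ^ (∑ i, N i) := one_le_pow₀ (by norm_num)
        nlinarith
      have h3 : (r.factorial : ℝ) ≤ (Fintype.card J).factorial := by
        exact_mod_cast Nat.factorial_le hrJ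
      exact mul_le_mul h3 (pow_le_pow_right₀ h2 hrJ) (by positivity) (by positivity)
  · intro K _ _ z a w c w1 hw hw1 h1 hne hvan ν hν
    set φ : ℤ →+* K := Int.castRingHom K with hφ
    -- coordinates in the basis
    have hc : ∀ j, ∃ β : Fin r → ℚ, BQ j = ∑ i, β i • BQ (e (q i)) := by
      intro j
      have h2 : BQ j ∈ Submodule.span ℚ (Set.range fun i : Fin r => BQ (e (q i))) := by
        have h3 : (Set.range fun i : Fin r => BQ (e (q i))) = Set.range (BQ ∘ e) := by
          ext x
          constructor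
          · rintro ⟨i, rfl⟩
            exact ⟨q i, rfl⟩
          · rintro ⟨k, rfl⟩
            exact ⟨q.symm k, by simp⟩
        rw [h3, hspan]
        exact Submodule.subset_span ⟨j, rfl⟩
      obtain ⟨β, hβ⟩ := (Submodule.mem_span_range_iff_exists_fun ℚ).1 h2
      exact ⟨β, hβ.symm⟩
    choose β hβ using hc
    have hQK : ∀ P : MvPolynomial (Fin m) ℤ, map (algebraMap ℚ K) (map (Int.castRingHom ℚ) P) = map φ P := by
      intro P
      have h2 : (algebraMap ℚ K).comp (Int.castRingHom ℚ) = φ := RingHom.ext_int _ _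
      rw [MvPolynomial.map_map, h2]
    have hβK : ∀ j, map φ (B j) = ∑ i, (algebraMap ℚ K (β j i)) • map φ (B (e (q i))) := by
      intro j
      rw [← hQK (B j)]
      have h2 : map (Int.castRingHom ℚ) (B j) = ∑ i, β j i • BQ (e (q i)) := hβ j
      rw [h2, map_sum]
      refine Finset.sum_congr rfl fun i _ => ?_
      rw [smul_eq_C_mul, map_mul, MvPolynomial.map_C, smul_eq_C_mul, ← hQK (B (e (q i)))]
    set α : Fin r → K := fun i => ∑ j, a j * algebraMap ℚ K (β j i) with hα
    have hf : ∑ j, a j • map φ (B j) = ∑ i, α i • map φ (B (e (q i))) := by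
      calc ∑ j, a j • map φ (B j) = ∑ j, ∑ i, (a j * algebraMap ℚ K (β j i)) • map φ (B (e (q i))) := by
            refine Finset.sum_congr rfl fun j _ => ?_
            rw [hβK j, Finset.smul_sum]
            refine Finset.sum_congr rfl fun i _ => ?_
            rw [smul_smul]
        _ = ∑ i, ∑ j, (a j * algebraMap ℚ K (β j i)) • map φ (B (e (q i))) := Finset.sum_comm
        _ = _ := by
            refine Finset.sum_congr rfl fun i _ => ?_
            rw [hα, Finset.sum_smul]
    have hk : ∃ k, α k ≠ 0 := by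
      by_contra hcon
      push Not at hcon
      apply hne
      rw [hf]
      exact Finset.sum_eq_zero fun i _ => by rw [hcon i, zero_smul]
    obtain ⟨k, hk⟩ := hk
    have hIn : InK w z c (∑ i, α i • map φ (B (e (q i)))) := by
      rw [← hf]
      intro κ' hκ'
      by_contra hlt
      exact hκ' (hvan κ' (not_le.1 hlt))
    have hfin := index z w c w1 hw hw1 h1 μ hμ (fun i => map φ (B (e (q i)))) α k hk hIn
    rw [← hmap K φ] at hfin
    by_contra hcon
    have h3 := hfin ν hcon
    have h4 : (r : ℝ) * w1 ≤ Fintype.card J * w1 := by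
      apply mul_le_mul_of_nonneg_right _ h1
      exact_mod_cast hrJ
    unfold wq at h3
    linarith

end Pool.Agent.H883.ZR.SZ
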