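import Pool.Agent.H883.ZR.Base2

set_option autoImplicit false
set_option linter.unusedSectionVars false

/-!
# Coefficients with respect to a part of the variables: proof of Scf
-/

namespace Pool.Agent.H883.ZR.Scf

open Real NumberField Height Module Finset MvPolynomial
open Pool.Agent.H393R2.RothNS (TT DD l1 l1_nonneg l1_eq_of_subset)
open Pool.Agent.H883.ZQ (mo rel rk)

variable {m a : ℕ}

theorem coeff_cf (F : MvPolynomial (Fin m ⊕ Fin a) ℤ) (β : Fin m →₀ ℕ) (γ : Fin a →₀ ℕ) :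
    coeff γ (cf F β) = coeff (Finsupp.sumElim β γ) F := by
  simp [cf, sumAlgEquiv, coeff, AddMonoidAlgebra.curryAlgEquiv,
    AddMonoidAlgebra.curryRingEquiv, AddMonoidAlgebra.curryAddEquiv]

theorem exists_cf_ne (F : MvPolynomial (Fin m ⊕ Fin a) ℤ) (hF : F ≠ 0) : ∃ β, cf F β ≠ 0 := by
  by_contra h
  push Not at h
  apply hF
  have h1 : sumAlgEquiv ℤ (Fin m) (Fin a) F = 0 := by
    refine MvPolynomial.ext _ _ fun β => ?_
    rw [coeff_zero]
    exact h β
  exact (map_eq_zero_iff _ (sumAlgEquiv ℤ (Fin m) (Fin a)).injective).1 h1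

theorem sumElim_mem_support (F : MvPolynomial (Fin m ⊕ Fin a) ℤ) (β : Fin m →₀ ℕ)
    {γ : Fin a →₀ ℕ} (h : γ ∈ (cf F β).support) : Finsupp.sumElim β γ ∈ F.support := by
  rw [MvPolynomial.mem_support_iff] at h ⊢
  rwa [coeff_cf] at h

theorem degreeOf_cf (F : MvPolynomial (Fin m ⊕ Fin a) ℤ) (β : Fin m →₀ ℕ) (i : Fin a) :
    degreeOf i (cf F β) ≤ degreeOf (Sum.inr i) F := by
  rw [degreeOf_le_iff]
  intro γ hγ
  have h1 := monomial_le_degreeOf (Sum.inr i) (sumElim_mem_support F β hγ)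
  simpa using h1

theorem l1_cf (F : MvPolynomial (Fin m ⊕ Fin a) ℤ) (β : Fin m →₀ ℕ) : l1 (cf F β) ≤ l1 F := by
  classical
  have h1 : l1 (cf F β) =
      ∑ δ ∈ (cf F β).support.image (fun γ => Finsupp.sumElim β γ), |((coeff δ F : ℤ) : ℝ)| := by
    rw [Finset.sum_image]
    · unfold Pool.Agent.H393R2.RothNS.l1
      exact Finset.sum_congr rfl fun γ _ => by rw [coeff_cf]
    · intro γ _ γ' _ h
      refine Finsupp.ext fun i => ?_
      have h2 := DFunLike.congr_fun h (Sum.inr i)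
      simpa using h2
  rw [h1]
  unfold Pool.Agent.H393R2.RothNS.l1
  refine Finset.sum_le_sum_of_subset_of_nonneg ?_ fun _ _ _ => abs_nonneg _
  intro δ hδ
  obtain ⟨γ, hγ, rfl⟩ := Finset.mem_image.1 hδ
  exact sumElim_mem_support F β hγ

theorem dvd_cf (F : MvPolynomial (Fin m ⊕ Fin a) ℤ) (g : MvPolynomial (Fin a) ℤ) :
    rename Sum.inr g ∣ F ↔ ∀ β, g ∣ cf F β := by
  have h1 : sumAlgEquiv ℤ (Fin m) (Fin a) (rename Sum.inr g) = C g := by
    have h2 := DFunLike.congr_fun (sumAlgEquiv_comp_rename_inr ℤ (Fin m) (Fin a)) g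
    simpa using h2
  have h3 : rename Sum.inr g ∣ F ↔ C g ∣ sumAlgEquiv ℤ (Fin m) (Fin a) F := by
    rw [← h1]
    exact (map_dvd_iff (sumAlgEquiv ℤ (Fin m) (Fin a))).symm
  rw [h3, C_dvd_iff_dvd_coeff]
  rfl

theorem scf : S_cf := fun _ _ F =>
  ⟨exists_cf_ne F, coeff_cf F, degreeOf_cf F, l1_cf F, dvd_cf F⟩

end Pool.Agent.H883.ZR.Scf
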