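import Pool.Agent.H883.ZR.Base3

set_option autoImplicit false
set_option linter.unusedSectionVars false

/-!
# Lacunary heights: uniformity in the vectors, and the version over number fields
-/

namespace Pool.Agent.H883.ZR.ULNL

open Real NumberField Height Module Finset
open Pool.Agent.H489ZP
open Pool.Agent.H883.ZQ
open Pool.Agent.H883.ZR

lemma Lac_mono {I : Type} {B B' : ℝ} {H : I → ℝ} (hB : B ≤ B') (hH : ∀ i, 0 ≤ H i)
    (h : Lac B' H) : Lac B H := by
  refine ⟨fun i => hB.trans (h.1 i), fun i j hij => ?_⟩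
  rcases h.2 i j hij with h1 | h1
  · left
    exact (mul_le_mul_of_nonneg_right hB (hH i)).trans h1
  · right
    exact (mul_le_mul_of_nonneg_right hB (hH j)).trans h1

/-- **Uniform version.** -/
theorem ul (h : S_FL) : S_UL := by
  intro I J _ _ _ _ d hd κ0 B0 A k hκ0
  classical
  choose G B η hG hη hx using
    fun x : (I × Bool → Fin d → ℝ) × (J × Bool → Fin d → ℝ) => h I J d hd x.1 x.2 κ0 B0 k hκ0
  set A' : ℝ := max A 1 with hA'
  have hA'0 : 0 < A' := lt_of_lt_of_le one_pos (le_max_right _ _)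
  have hAA' : A ≤ A' := le_max_left _ _
  let s : Set ((I × Bool → Fin d → ℝ) × (J × Bool → Fin d → ℝ)) := Set.Icc (-1) 1
  have hs : IsCompact s := isCompact_Icc
  obtain ⟨T0, -, hT0⟩ := hs.elim_nhds_subcover (fun x => Metric.ball x (η x / (2 * A')))
    (fun x _ => Metric.ball_mem_nhds x (by have := hη x; positivity))
  obtain ⟨ε, hε, hεle⟩ := exists_pos_le (fun x : T0 => η x.1 / 2)
    (fun x => by have := hη x.1; positivity)
  obtain ⟨M, hM⟩ := exists_ge_all (fun x : T0 => B x.1)
  refine ⟨∏ x : T0, G x.1, M, ε, Finset.prod_ne_zero_iff.2 fun x _ => hG x.1, hε, ?_⟩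
  intro ξ ζ hξ hζ K _ _ u w hu0 hu1 hw0 hw1 H hLac hH1 t err hnear herr0 ht hH hκH hB P hP
  have hmem : (ξ, ζ) ∈ s := by
    rw [Set.mem_Icc]
    refine ⟨⟨fun r k => ?_, fun r k => ?_⟩, ⟨fun r k => ?_, fun r k => ?_⟩⟩
    · exact (abs_le.1 (hξ r k)).1
    · exact (abs_le.1 (hζ r k)).1
    · exact (abs_le.1 (hξ r k)).2
    · exact (abs_le.1 (hζ r k)).2
  obtain ⟨x, hxT, hxb⟩ := Set.mem_iUnion₂.1 (hT0 hmem)
  set x' : T0 := ⟨x, hxT⟩ with hx'
  rw [Metric.mem_ball] at hxb
  set δ : ℝ := η x / (2 * A') with hδ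
  have hηx := hη x
  have hδ0 : 0 < δ := by positivity
  have hξx : ∀ r k, |ξ r k - x.1 r k| ≤ δ := by
    intro r k
    have h1 : dist ξ x.1 ≤ dist (ξ, ζ) x := le_max_left _ _
    have h2 := (dist_le_pi_dist ξ x.1 r)
    have h3 := (dist_le_pi_dist (ξ r) (x.1 r) k)
    rw [Real.dist_eq] at h3
    linarith
  have hζx : ∀ r k, |ζ r k - x.2 r k| ≤ δ := by
    intro r k
    have h1 : dist ζ x.2 ≤ dist (ξ, ζ) x := le_max_right _ _
    have h2 := (dist_le_pi_dist ζ x.2 r)
    have h3 := (dist_le_pi_dist (ζ r) (x.2 r) k)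
    rw [Real.dist_eq] at h3
    linarith
  let err' : AbsoluteValue K ℝ → ℝ := fun f => err f + δ * ∑ k, |t f k|
  have hHnn : ∀ i, 0 ≤ H i := fun i => zero_le_one.trans (hH1 i)
  have hstep : ∀ (f : AbsoluteValue K ℝ) (L : ℝ) (r : I × Bool),
      |L - H r.1 * ∑ k, ξ r k * t f k| ≤ H r.1 * err f →
      |L - H r.1 * ∑ k, x.1 r k * t f k| ≤ H r.1 * err' f := by
    intro f L r hL
    have h1 := sum_change (t := t f) (hξx r)
    have e1 : L - H r.1 * ∑ k, x.1 r k * t f k = (L - H r.1 * ∑ k, ξ r k * t f k) +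
        H r.1 * (∑ k, ξ r k * t f k - ∑ k, x.1 r k * t f k) := by ring
    rw [e1]
    refine (abs_add_le _ _).trans ?_
    rw [abs_mul, abs_of_nonneg (hHnn r.1)]
    have h2 : H r.1 * |∑ k, ξ r k * t f k - ∑ k, x.1 r k * t f k| ≤
        H r.1 * (δ * ∑ k, |t f k|) := mul_le_mul_of_nonneg_left h1 (hHnn r.1)
    show _ ≤ H r.1 * (err f + δ * ∑ k, |t f k|)
    rw [mul_add]
    linarith
  have hDpos : (0 : ℝ) < finrank ℚ K := by exact_mod_cast finrank_pos
  have hnear' : NearW u x.1 H t err' (η x) := by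
    refine ⟨fun v r => hstep _ _ r (hnear.inf v r), fun v r => hstep _ _ r (hnear.fin v r), ?_⟩
    intro T
    show PS T (fun f => err f + δ * ∑ k, |t f k|) ≤ _
    rw [PS_add, PS_smul]
    have h1 := hnear.tot T
    have h2 := ht T
    have h3 : ε ≤ η x / 2 := hεle x'
    have h4 : ε * (finrank ℚ K : ℝ) ≤ η x / 2 * finrank ℚ K :=
      mul_le_mul_of_nonneg_right h3 hDpos.le
    have h5 : A * (finrank ℚ K : ℝ) ≤ A' * finrank ℚ K := mul_le_mul_of_nonneg_right hAA' hDpos.le
    have h6 : δ * PS T (fun f => ∑ k, |t f k|) ≤ δ * (A' * finrank ℚ K) :=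
      mul_le_mul_of_nonneg_left (h2.trans h5) hδ0.le
    have h7 : δ * (A' * finrank ℚ K) = η x / 2 * finrank ℚ K := by
      rw [hδ]
      field_simp
    linarith
  have hfin := hx x K u w hu0 hu1 hw0 hw1 H (Lac_mono (hM x') hHnn hLac) hH1 t err' hnear'
    (hnear'.tot ∅) hH hκH hB P (by
    intro σ
    obtain ⟨i, hi⟩ := hP σ
    refine ⟨i, fun r => ?_⟩
    have h1 := hi r
    have h2 := sum_change (t := t (InfinitePlace.mk σ).1) (hζx r)
    have e1 : log ‖σ (U w r)‖ - (P i r + ∑ k, x.2 r k * t (InfinitePlace.mk σ).1 k) =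
        (log ‖σ (U w r)‖ - (P i r + ∑ k, ζ r k * t (InfinitePlace.mk σ).1 k)) +
        (∑ k, ζ r k * t (InfinitePlace.mk σ).1 k - ∑ k, x.2 r k * t (InfinitePlace.mk σ).1 k) := by
      ring
    rw [e1]
    exact (abs_add_le _ _).trans (add_le_add h1 h2))
  rw [map_prod]
  exact Finset.prod_eq_zero (Finset.mem_univ x') hfin

/-- A level without coordinates between it and the next one. -/
lemma exists_level {ι : Type} [Fintype ι] (x : ι → ℝ) (L : ℕ → ℝ) (hL : Monotone L) :
    ∃ m ≤ Fintype.card ι, ∀ i, x i ≤ L m ∨ L (m + 1) < x i := by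
  by_contra hcon
  push Not at hcon
  have h1 : ∀ m : Fin (Fintype.card ι + 1), ∃ i, L m < x i ∧ x i ≤ L (m + 1) :=
    fun m => hcon m (Nat.lt_succ_iff.1 m.2)
  choose f hf1 hf2 using h1
  have hinj : Function.Injective f := by
    intro m n hmn
    by_contra hne
    rcases lt_or_gt_of_ne hne with h | h
    · have h2 : (m : ℕ) + 1 ≤ n := h
      have h3 := hL h2
      have h4 := hf2 m
      have h5 := hf1 n
      rw [hmn] at h4
      linarith
    · have h2 : (n : ℕ) + 1 ≤ m := h
      have h3 := hL h2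
      have h4 := hf2 n
      have h5 := hf1 m
      rw [hmn] at h5
      linarith
  have h2 := Fintype.card_le_of_injective f hinj
  rw [Fintype.card_fin] at h2
  omega

/-- **The version over number fields.** -/
theorem nl (h : S_UL) : S_NL := by
  intro ι _ _ Bs B0 k
  classical
  rcases Nat.eq_zero_or_pos (Fintype.card ι) with h0 | hpos
  · refine ⟨1, one_ne_zero, 1, 1, one_pos, ?_⟩
    intro K _ _ u hu0 hu1 s e hs0 he0 hsB heB P hP W hW
    omega
  obtain ⟨d, hd⟩ : ∃ d, Fintype.card ι = d + 1 := ⟨Fintype.card ι - 1, by omega⟩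
  set Bs' : ℝ := max Bs 0 with hBs'
  have hBs'0 : 0 ≤ Bs' := le_max_right _ _
  have hBsBs' : Bs ≤ Bs' := le_max_left _ _
  set N0 : ℝ := (Fintype.card (ι × Bool) : ℝ) with hN0
  have hN00 : 0 ≤ N0 := Nat.cast_nonneg _
  have hdI : ∀ I : Finset ι, d < Fintype.card I + Fintype.card {j // j ∉ I} := by
    intro I
    have h1 : Fintype.card {j // j ∉ I} = Fintype.card ι - Fintype.card {j // j ∈ I} :=
      Fintype.card_subtype_compl _
    have h2 : Fintype.card {j // j ∈ I} ≤ Fintype.card ι := Fintype.card_subtype_le _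
    have h3 : Fintype.card I = Fintype.card {j // j ∈ I} := rfl
    omega
  let A : ℝ → ℝ := fun l => d * (N0 * (N0 * (2 * (l + 4) + 2 * Bs' + 2)))
  choose G B η hG hη hI using fun (l : ℝ) (I : Finset ι) => h I {j // j ∉ I} d (hdI I) 1 l (A l) k
    one_pos
  -- the levels
  have hnext : ∀ l : ℝ, ∃ l' : ℝ, l ≤ l' ∧ 1 ≤ l' ∧ (∀ I, B l I ≤ l') ∧
      ∀ I, (4 * N0 + 1) * (Bs' + 1) / η l I ≤ l' := by
    intro l
    obtain ⟨M1, hM1⟩ := exists_ge_all (B l)
    obtain ⟨M2, hM2⟩ := exists_ge_all (fun I => (4 * N0 + 1) * (Bs' + 1) / η l I)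
    refine ⟨max (max l 1) (max M1 M2), (le_max_left _ _).trans (le_max_left _ _),
      (le_max_right _ _).trans (le_max_left _ _), fun I => ?_, fun I => ?_⟩
    · exact (hM1 I).trans ((le_max_left _ _).trans (le_max_right _ _))
    · exact (hM2 I).trans ((le_max_right _ _).trans (le_max_right _ _))
  choose nx hnx1 hnx2 hnx3 hnx4 using hnext
  let L : ℕ → ℝ := fun m => nx^[m] (max B0 1)
  have hL0 : L 0 = max B0 1 := rfl
  have hLs : ∀ m, L (m + 1) = nx (L m) := fun m => Function.iterate_succ_apply' _ _ _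
  have hLmono : Monotone L := monotone_nat_of_le_succ fun m => by
    rw [hLs]
    exact hnx1 _
  have hLB0 : ∀ m, B0 ≤ L m := fun m =>
    (le_max_left B0 1).trans (hL0 ▸ hLmono (Nat.zero_le m))
  have hL1 : ∀ m, 1 ≤ L m := fun m =>
    (le_max_right B0 1).trans (hL0 ▸ hLmono (Nat.zero_le m))
  set c : ℕ := Fintype.card ι with hc
  obtain ⟨η0, hη0, hη0le⟩ := exists_pos_le (fun x : Fin (c + 1) × Finset ι => η (L x.1) x.2)
    (fun x => hη _ _)
  obtain ⟨NB, hNB⟩ := exists_ge_all (fun x : Fin (c + 1) × Finset ι => B (L x.1) x.2)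
  set ε : ℝ := min 1 (η0 / (4 * N0 + 1)) with hε
  have hεpos : 0 < ε := lt_min one_pos (by positivity)
  have hε1 : ε ≤ 1 := min_le_left _ _
  have hε2 : (4 * N0 + 1) * ε ≤ η0 := by
    have h1 : ε ≤ η0 / (4 * N0 + 1) := min_le_right _ _
    rw [le_div_iff₀ (by positivity)] at h1
    linarith
  refine ⟨∏ x : Fin (c + 1) × Finset ι, MvPolynomial.rename Subtype.val (G (L x.1) x.2),
    Finset.prod_ne_zero_iff.2 fun x _ h => hG (L x.1) x.2
      (MvPolynomial.rename_injective _ Subtype.val_injective (by rw [h, map_zero])),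
    ε, NB, hεpos, ?_⟩
  intro K _ _ u hu0 hu1 s e hs0 he0 hsB heB P hP W hW hσ hv hlac
  have hDpos : (0 : ℝ) < finrank ℚ K := by exact_mod_cast finrank_pos
  have hsBB : ∀ r, logHeight₁ (s r) ≤ finrank ℚ K * Bs' := fun r =>
    (hsB r).trans (mul_le_mul_of_nonneg_left hBsBs' hDpos.le)
  have hinf : ∀ v : InfinitePlace K, lw (fun x => v.1 x) u s e ∈ W := by
    intro v
    have h := hσ v.embedding
    have e : (fun x : K => ‖v.embedding x‖) = fun x => v.1 x := by
      funext x
      exact InfinitePlace.norm_embedding_eq v x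
    rw [e] at h
    exact h
  -- the level
  obtain ⟨m, hmc, hm⟩ := exists_level (fun i => logHeight₁ (u i) / finrank ℚ K) L hLmono
  set l : ℝ := L m with hl
  set M : ℝ := L (m + 1) with hM
  have hl1 : 1 ≤ l := hL1 m
  have hM1 : 1 ≤ M := hL1 (m + 1)
  have hMpos : 0 < M := by linarith
  have hMnx : M = nx l := hLs m
  let H : ι → ℝ := fun i => logHeight₁ (u i) / finrank ℚ K
  have hHD : ∀ i, (finrank ℚ K : ℝ) * H i = logHeight₁ (u i) := by
    intro i
    show (finrank ℚ K : ℝ) * (logHeight₁ (u i) / finrank ℚ K) = _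
    field_simp
  let I : Finset ι := Finset.univ.filter fun i => M < H i
  have hIH : ∀ i ∈ I, M < H i := fun i hi => (Finset.mem_filter.1 hi).2
  have hJH : ∀ i, i ∉ I → H i ≤ l := by
    intro i hi
    rcases hm i with h1 | h1
    · exact h1
    · exact absurd (show i ∈ I from Finset.mem_filter.2 ⟨Finset.mem_univ _, h1⟩) hi
  have hηI : η0 ≤ η l I := hη0le (⟨m, Nat.lt_succ_iff.2 hmc⟩, I)
  have hNBI : B l I ≤ NB := hNB (⟨m, Nat.lt_succ_iff.2 hmc⟩, I)
  have hηpos : 0 < η l I := hη l I
  have hMB : B l I ≤ M := hMnx ▸ hnx3 l I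
  have hMη : (4 * N0 + 1) * (Bs' + 1) / η l I ≤ M := hMnx ▸ hnx4 l I
  have hLac : Lac (B l I) (fun i : I => H i.1) := by
    refine ⟨fun i => hMB.trans (hIH i.1 i.2).le, fun i j hij => ?_⟩
    have hne : i.1 ≠ j.1 := fun h => hij (Subtype.ext h)
    have hbig : ∀ a : I, ¬ logHeight₁ (u a.1) ≤ finrank ℚ K * B0 := by
      intro a ha
      rw [← hHD] at ha
      have h1 := le_of_mul_le_mul_left ha hDpos
      have h2 := hIH a.1 a.2
      have h3 := hLB0 (m + 1)
      linarith
    have hdiv : ∀ a b : ι, NB * logHeight₁ (u a) ≤ logHeight₁ (u b) → NB * H a ≤ H b := by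
      intro a b hab
      rw [← hHD, ← hHD b] at hab
      have : (finrank ℚ K : ℝ) * (NB * H a) ≤ finrank ℚ K * H b := by linarith
      exact le_of_mul_le_mul_left this hDpos
    have hH0 : ∀ a : I, 0 ≤ H a.1 := fun a => by
      have := hIH a.1 a.2
      linarith
    rcases hlac i.1 j.1 hne with h1 | h1 | h1 | h1
    · exact absurd h1 (hbig i)
    · exact absurd h1 (hbig j)
    · left
      exact (mul_le_mul_of_nonneg_right hNBI (hH0 i)).trans (hdiv _ _ h1)
    · right
      exact (mul_le_mul_of_nonneg_right hNBI (hH0 j)).trans (hdiv _ _ h1)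
  -- the scaled subspace
  let g : ι × Bool → ℝ := fun r => if r.1 ∈ I then 1 / H r.1 else 1
  have hHI1 : ∀ i ∈ I, 1 ≤ H i := fun i hi => hM1.trans (hIH i hi).le
  have hg1 : ∀ r, 0 ≤ g r ∧ g r ≤ 1 := by
    intro r
    show 0 ≤ (if _ then _ else _ : ℝ) ∧ (if _ then _ else _ : ℝ) ≤ 1
    split_ifs with hr
    · have h1 := hHI1 _ hr
      refine ⟨by positivity, ?_⟩
      rw [div_le_one (by linarith)]
      exact h1
    · exact ⟨zero_le_one, le_rfl⟩
  let W' : Submodule ℝ (ι × Bool → ℝ) := W.map (dg g)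
  have hW' : finrank ℝ W' ≤ d := (Submodule.finrank_map_le (dg g) W).trans (by omega)
  obtain ⟨b, hb1, hb2⟩ := Pool.Agent.H883.ZP.basis W' hW'
  let wf : AbsoluteValue K ℝ → ι × Bool → ℝ := fun f => dg g (lw (fun x => f x) u s e)
  have hwf : ∀ f r, wf f r = g r * lw (fun x => f x) u s e r := fun f r => rfl
  let Sf : AbsoluteValue K ℝ → ℝ := fun f => ∑ r, |wf f r|
  have hSf : ∀ f r, |wf f r| ≤ Sf f := fun f r =>
    Finset.single_le_sum (f := fun r => |wf f r|) (fun _ _ => abs_nonneg _) (Finset.mem_univ r)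
  have hSf0 : ∀ f, 0 ≤ Sf f := fun f => Finset.sum_nonneg fun _ _ => abs_nonneg _
  have hex : ∀ f : AbsoluteValue K ℝ, ∃ t : Fin d → ℝ, (∀ j, |t j| ≤ N0 * Sf f) ∧
      (wf f ∈ W' → ∀ r, wf f r = ∑ j, t j * b j r) := by
    intro f
    by_cases h : wf f ∈ W'
    · obtain ⟨t, ht1, ht2⟩ := hb2 (wf f) h (Sf f) (hSf f)
      exact ⟨t, ht1, fun _ => ht2⟩
    · exact ⟨0, fun j => by
        rw [Pi.zero_apply, abs_zero]
        exact mul_nonneg hN00 (hSf0 f), fun h' => absurd h' h⟩
  choose t ht1 ht2 using hex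
  have hwfinf : ∀ v : InfinitePlace K, wf v.1 ∈ W' := fun v =>
    Submodule.mem_map_of_mem (hinf v)
  have hwffin : ∀ v : FinitePlace K, wf v.1 ∈ W' := fun v =>
    Submodule.mem_map_of_mem (hv v)
  let err : AbsoluteValue K ℝ → ℝ := fun f =>
    (∑ r, |log (f (e r))|) + (1 / M) * ∑ r, |log (f (s r))|
  have herr1 : ∀ (f : AbsoluteValue K ℝ) (r : ι × Bool), wf f ∈ W' → r.1 ∈ I →
      |log (f (U u r)) - H r.1 * ∑ k, b k r * t f k| ≤ H r.1 * err f := by
    intro f r hf hr
    have hHr := hIH r.1 hr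
    have hHr1 := hHI1 r.1 hr
    have hHrpos : 0 < H r.1 := by linarith
    have h1 := ht2 f hf r
    have h2 : ∑ k, b k r * t f k = wf f r := by
      rw [h1]
      exact Finset.sum_congr rfl fun k _ => mul_comm _ _
    have hgr : g r = 1 / H r.1 := if_pos hr
    rw [h2, hwf, hgr]
    have h3 : log (f (U u r)) - H r.1 * (1 / H r.1 * lw (fun x => f x) u s e r) =
        log (f (s r)) + log (f (e r)) := by
      unfold lw
      field_simp
      ring
    rw [h3]
    have h4 : |log (f (s r))| ≤ ∑ r, |log (f (s r))| :=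
      Finset.single_le_sum (f := fun r => |log (f (s r))|) (fun _ _ => abs_nonneg _)
        (Finset.mem_univ r)
    have h5 : |log (f (e r))| ≤ ∑ r, |log (f (e r))| :=
      Finset.single_le_sum (f := fun r => |log (f (e r))|) (fun _ _ => abs_nonneg _)
        (Finset.mem_univ r)
    have hse : 0 ≤ ∑ r, |log (f (e r))| := Finset.sum_nonneg fun _ _ => abs_nonneg _
    have hss : 0 ≤ ∑ r, |log (f (s r))| := Finset.sum_nonneg fun _ _ => abs_nonneg _
    have h6 : H r.1 * err f = H r.1 * (∑ r, |log (f (e r))|) +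
        (H r.1 / M) * ∑ r, |log (f (s r))| := by
      show H r.1 * ((∑ r, |log (f (e r))|) + (1 / M) * ∑ r, |log (f (s r))|) = _
      field_simp
    rw [h6]
    have h7 : ∑ r, |log (f (e r))| ≤ H r.1 * ∑ r, |log (f (e r))| := by nlinarith
    have h8 : 1 ≤ H r.1 / M := by
      rw [one_le_div hMpos]
      exact hHr.le
    have h9 : ∑ r, |log (f (s r))| ≤ (H r.1 / M) * ∑ r, |log (f (s r))| := by nlinarith
    refine (abs_add_le _ _).trans ?_
    linarith
  have herrPS : ∀ T : Finset (FinitePlace K), PS T err ≤ η l I * finrank ℚ K := by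
    intro T
    show PS T (fun f => (∑ r, |log (f (e r))|) + (1 / M) * ∑ r, |log (f (s r))|) ≤ _
    rw [PS_add, PS_smul]
    have h1 := PS_abs_sum he0 heB T
    have h2 := PS_abs_sum hs0 hsBB T
    rw [← hN0] at h1 h2
    have h3 : (1 / M) * PS T (fun f => ∑ r, |log (f (s r))|) ≤
        (1 / M) * (finrank ℚ K * (N0 * (2 * Bs'))) :=
      mul_le_mul_of_nonneg_left h2 (by positivity)
    have h4 : (1 / M) * (N0 * (2 * Bs')) ≤ η l I / 2 := by
      rw [div_mul_eq_mul_div, one_mul, div_le_iff₀ hMpos]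
      rw [div_le_iff₀ hηpos] at hMη
      nlinarith
    have h5 : N0 * (2 * ε) ≤ η l I / 2 := by nlinarith
    have h6 : (finrank ℚ K : ℝ) * (N0 * (2 * ε)) ≤ finrank ℚ K * (η l I / 2) :=
      mul_le_mul_of_nonneg_left h5 hDpos.le
    have h7 : (finrank ℚ K : ℝ) * ((1 / M) * (N0 * (2 * Bs'))) ≤ finrank ℚ K * (η l I / 2) :=
      mul_le_mul_of_nonneg_left h4 hDpos.le
    have h9 : (1 / M) * ((finrank ℚ K : ℝ) * (N0 * (2 * Bs'))) =
      finrank ℚ K * ((1 / M) * (N0 * (2 * Bs'))) := by ring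
    rw [h9] at h3
    linarith
  have hheight : ∀ r : ι × Bool, logHeight₁ (U u r) ≤ finrank ℚ K * (H r.1 + 1) := fun r =>
    height_U (u := fun _ : Unit => u r.1) (H := H r.1) (fun _ => (hHD r.1).ge) ((), r.2)
  have htPS : ∀ T : Finset (FinitePlace K), PS T (fun f => ∑ k, |t f k|) ≤
      A l * finrank ℚ K := by
    intro T
    have h1 : PS T (fun f => ∑ k, |t f k|) ≤ PS T (fun f => (d * N0) * Sf f) +
        finrank ℚ K * 0 := by
      apply PS_le
      · intro v
        rw [add_zero]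
        calc ∑ k, |t v.1 k| ≤ ∑ _k : Fin d, N0 * Sf v.1 := Finset.sum_le_sum fun k _ => ht1 _ k
          _ = _ := by
            rw [Finset.sum_const, Finset.card_univ, Fintype.card_fin, nsmul_eq_mul]
            ring
      · intro v
        calc ∑ k, |t v.1 k| ≤ ∑ _k : Fin d, N0 * Sf v.1 := Finset.sum_le_sum fun k _ => ht1 _ k
          _ = _ := by
            rw [Finset.sum_const, Finset.card_univ, Fintype.card_fin, nsmul_eq_mul]
            ring
    have h2 : PS T Sf ≤ finrank ℚ K * (N0 * (2 * (l + 4) + 2 * Bs' + 2)) := by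
      show PS T (fun f => ∑ r, |wf f r|) ≤ _
      rw [PS_sum]
      have h3 : ∀ r, PS T (fun f => |wf f r|) ≤
          finrank ℚ K * (2 * (l + 4) + 2 * Bs' + 2) := by
        intro r
        have h4 : PS T (fun f => |wf f r|) ≤ PS T (fun f => g r * |log (f (U u r))| +
            |log (f (s r))| + |log (f (e r))|) + finrank ℚ K * 0 := by
          have h5 : ∀ f : AbsoluteValue K ℝ, |wf f r| ≤ g r * |log (f (U u r))| +
            |log (f (s r))| + |log (f (e r))| := by
            intro f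
            rw [hwf, abs_mul, abs_of_nonneg (hg1 r).1]
            have h6 : |lw (fun x => f x) u s e r| ≤ |log (f (U u r))| +
                |log (f (s r))| + |log (f (e r))| := by
              unfold lw
              refine (abs_sub _ _).trans ?_
              have := abs_sub (log (f (U u r))) (log (f (s r)))
              linarith
            calc g r * |lw (fun x => f x) u s e r| ≤ g r * (|log (f (U u r))| +
                |log (f (s r))| + |log (f (e r))|) :=
                  mul_le_mul_of_nonneg_left h6 (hg1 r).1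
              _ = g r * |log (f (U u r))| + g r * (|log (f (s r))| + |log (f (e r))|) := by ring
              _ ≤ g r * |log (f (U u r))| + 1 * (|log (f (s r))| + |log (f (e r))|) := by
                  have := mul_le_mul_of_nonneg_right (hg1 r).2
                    (by positivity : 0 ≤ |log (f (s r))| + |log (f (e r))|)
                  linarith
              _ = _ := by ring
          apply PS_le
          · intro v
            rw [add_zero]
            exact h5 _
          · intro v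
            exact h5 _
        rw [PS_add, PS_add, PS_smul, mul_zero, add_zero] at h4
        have h5 := Pool.Agent.H883.ZP.PS_abs_le (hs0 r) T
        have h6 := Pool.Agent.H883.ZP.PS_abs_le (he0 r) T
        have h7 := Pool.Agent.H883.ZP.PS_abs_le (U_ne hu0 hu1 r) T
        have h8 := hsBB r
        have h9 := heB r
        have h10 : (finrank ℚ K : ℝ) * ε ≤ finrank ℚ K * 1 :=
          mul_le_mul_of_nonneg_left hε1 hDpos.le
        have h12 := hheight r
        have h11 : g r * PS T (fun f => |log (f (U u r))|) ≤ finrank ℚ K * (2 * (l + 4)) := by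
          by_cases hr : r.1 ∈ I
          · have hgr : g r = 1 / H r.1 := if_pos hr
            have hHr1 := hHI1 r.1 hr
            have hHrpos : 0 < H r.1 := by linarith
            have h13 : PS T (fun f => |log (f (U u r))|) ≤ finrank ℚ K * (2 * (H r.1 + 1)) := by
              linarith
            have h14 : g r * PS T (fun f => |log (f (U u r))|) ≤
                (1 / H r.1) * (finrank ℚ K * (2 * (H r.1 + 1))) := by
              rw [hgr]
              exact mul_le_mul_of_nonneg_left h13 (by positivity)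
            refine h14.trans ?_
            rw [div_mul_eq_mul_div, one_mul, div_le_iff₀ hHrpos]
            have h15 : 2 * (H r.1 + 1) ≤ 2 * (l + 4) * H r.1 := by nlinarith
            have h16 := mul_le_mul_of_nonneg_left h15 hDpos.le
            linarith
          · have hgr : g r = 1 := if_neg hr
            rw [hgr, one_mul]
            have h13 : (finrank ℚ K : ℝ) * (H r.1 + 1) ≤ finrank ℚ K * (l + 4) :=
              mul_le_mul_of_nonneg_left (by linarith [hJH r.1 hr]) hDpos.le
            linarith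
        linarith
      calc ∑ r, PS T (fun f => |wf f r|) ≤
          ∑ _r : ι × Bool, finrank ℚ K * (2 * (l + 4) + 2 * Bs' + 2) :=
            Finset.sum_le_sum fun r _ => h3 r
        _ = _ := by
            rw [Finset.sum_const, Finset.card_univ, nsmul_eq_mul]
            ring
    rw [PS_smul, mul_zero, add_zero] at h1
    have h3 : (d * N0) * PS T Sf ≤
        (d * N0) * (finrank ℚ K * (N0 * (2 * (l + 4) + 2 * Bs' + 2))) :=
      mul_le_mul_of_nonneg_left h2 (by positivity)
    refine h1.trans (h3.trans (le_of_eq ?_))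
    show _ = d * (N0 * (N0 * (2 * (l + 4) + 2 * Bs' + 2))) * (finrank ℚ K : ℝ)
    ring
  have hfinal := hI l I (fun r k => b k (r.1.1, r.2)) (fun r k => b k (r.1.1, r.2))
    (fun r k => hb1 k _) (fun r k => hb1 k _) K (fun i : I => u i.1)
    (fun j : {j // j ∉ I} => u j.1) (fun i => hu0 _) (fun i => hu1 _) (fun j => hu0 _)
    (fun j => hu1 _) (fun i : I => H i.1) hLac (fun i => hHI1 i.1 i.2) t err
    ⟨fun v r => herr1 v.1 (r.1.1, r.2) (hwfinf v) r.1.2,
     fun v r => herr1 v.1 (r.1.1, r.2) (hwffin v) r.1.2, herrPS⟩ (herrPS ∅) htPS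
    (fun i => (hHD i.1).ge) (fun i => by
      have := (hHD i.1).le
      show (finrank ℚ K : ℝ) * (1 * H i.1) ≤ logHeight₁ (u i.1)
      rw [one_mul]
      exact this)
    (fun j => by
      have := mul_le_mul_of_nonneg_left (hJH j.1 j.2) hDpos.le
      rw [hHD] at this
      exact this) (fun i r => P i (r.1.1, r.2)) (by
      intro σ
      obtain ⟨i, hi⟩ := hP σ
      refine ⟨i, fun r => ?_⟩
      set f : AbsoluteValue K ℝ := (InfinitePlace.mk σ).1 with hf
      have h1 := ht2 f (hwfinf _) (r.1.1, r.2)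
      have h2 : ∑ k, b k (r.1.1, r.2) * t f k = wf f (r.1.1, r.2) := by
        rw [h1]
        exact Finset.sum_congr rfl fun k _ => mul_comm _ _
      have hgr : g (r.1.1, r.2) = 1 := if_neg r.1.2
      rw [h2, hwf, hgr, one_mul, hi]
      have hfx : ∀ x, f x = ‖σ x‖ := fun x => rfl
      have h3 : log ‖σ (U (fun j : {j // j ∉ I} => u j.1) r)‖ -
          (log ‖σ (s (r.1.1, r.2))‖ + lw (fun x => f x) u s e (r.1.1, r.2)) =
          log (f (e (r.1.1, r.2))) := by
        unfold lw
        simp only [hfx]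
        have : U (fun j : {j // j ∉ I} => u j.1) r = U u (r.1.1, r.2) := rfl
        rw [this]
        ring
      rw [h3]
      have h5 : |log (f (e (r.1.1, r.2)))| ≤ ∑ r, |log (f (e r))| :=
        Finset.single_le_sum (f := fun r => |log (f (e r))|) (fun _ _ => abs_nonneg _)
          (Finset.mem_univ _)
      have h6 : 0 ≤ (1 / M) * ∑ r, |log (f (s r))| :=
        mul_nonneg (by positivity) (Finset.sum_nonneg fun _ _ => abs_nonneg _)
      show _ ≤ (∑ r, |log (f (e r))|) + (1 / M) * ∑ r, |log (f (s r))|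
      linarith)
  rw [map_prod]
  refine Finset.prod_eq_zero (Finset.mem_univ (⟨m, Nat.lt_succ_iff.2 hmc⟩, I)) ?_
  rw [MvPolynomial.aeval_rename]
  exact hfinal

end Pool.Agent.H883.ZR.ULNL
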