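import Pool.Agent.H883.ZR.Base3

set_option autoImplicit false
set_option linter.unusedSectionVars false

/-!
# Compactness in the vectors and the number field version, for patterns of heights
-/

namespace Pool.Agent.H883.ZR.UNF

open Real NumberField Height Module Finset MvPolynomial
open Pool.Agent.H489ZP
open Pool.Agent.H883.ZQ
open Pool.Agent.H883.ZR

/-! ### Monotonicity of the patterns -/

theorem mono111 (B B' : ℝ) (H : Fin 3 → ℝ) (hB : B' ≤ B) (hH : ∀ i, 1 ≤ H i)
    (h : Pt111 B H) : Pt111 B' H := by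
  refine ⟨fun i => hB.trans (h.1 i), fun i j hij => ?_⟩
  have h1 : ∀ k, B' * H k ≤ B * H k := fun k =>
    mul_le_mul_of_nonneg_right hB (zero_le_one.trans (hH k))
  rcases h.2 i j hij with h2 | h2
  · exact Or.inl ((h1 i).trans h2)
  · exact Or.inr ((h1 j).trans h2)

theorem mono21 (B B' : ℝ) (H : Fin 3 → ℝ) (hB : B' ≤ B) (hH : ∀ i, 1 ≤ H i)
    (h : Pt21 B H) : Pt21 B' H := by
  obtain ⟨h1, h2, h3, h4⟩ := h
  exact ⟨h1, hB.trans h2,
    (mul_le_mul_of_nonneg_right hB (zero_le_one.trans (hH 1))).trans h3, h4⟩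

theorem mono12 (B B' : ℝ) (H : Fin 3 → ℝ) (hB : B' ≤ B) (hH : ∀ i, 1 ≤ H i)
    (h : Pt12 B H) : Pt12 B' H := by
  obtain ⟨h1, h2, h3, h4⟩ := h
  exact ⟨h1, hB.trans h2,
    (mul_le_mul_of_nonneg_right hB (zero_le_one.trans (hH 2))).trans h3, h4⟩

theorem mono3 (B B' : ℝ) (H : Fin 3 → ℝ) (hB : B' ≤ B) (_hH : ∀ i, 1 ≤ H i)
    (h : Pt3 B H) : Pt3 B' H := ⟨h.1, h.2.1, hB.trans h.2.2⟩

/-! ### Uniformity in the vectors -/

theorem un (Pt : ℝ → (Fin 3 → ℝ) → Prop)
    (hm : ∀ (B B' : ℝ) (H : Fin 3 → ℝ), B' ≤ B → (∀ i, 1 ≤ H i) → Pt B H → Pt B' H)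
    (h : S_FX Pt) : S_UN Pt := by
  classical
  intro κ0 A hκ0
  choose G B η hG hη h using fun x : Fin 3 × Bool → Fin 3 → ℝ => h x κ0 hκ0
  set A' : ℝ := max A 1 with hA'
  have hA'0 : 0 < A' := lt_of_lt_of_le one_pos (le_max_right _ _)
  have hAA' : A ≤ A' := le_max_left _ _
  let s : Set (Fin 3 × Bool → Fin 3 → ℝ) := Set.Icc (-1) 1
  have hs : IsCompact s := isCompact_Icc
  obtain ⟨T0, -, hT0⟩ := hs.elim_nhds_subcover (fun x => Metric.ball x (η x / (2 * A')))
    (fun x _ => Metric.ball_mem_nhds x (by have := hη x; positivity))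
  obtain ⟨ε, hε, hεle⟩ := exists_pos_le (fun x : T0 => η x.1 / 2)
    (fun x => by have := hη x.1; positivity)
  obtain ⟨M, hM⟩ := exists_ge_all (fun x : T0 => B x.1)
  refine ⟨∏ x : T0, G x.1, M, ε, Finset.prod_ne_zero_iff.2 fun x _ => hG x.1, hε, ?_⟩
  intro ξ hξ K _ _ u hu0 hu1 H hPt hH1 t err hnear ht hH hκH
  have hHnn : ∀ i, 0 ≤ H i := fun i => zero_le_one.trans (hH1 i)
  have hmem : ξ ∈ s := by
    rw [Set.mem_Icc]
    exact ⟨fun r k => (abs_le.1 (hξ r k)).1, fun r k => (abs_le.1 (hξ r k)).2⟩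
  obtain ⟨x, hx, hxb⟩ := Set.mem_iUnion₂.1 (hT0 hmem)
  set x' : T0 := ⟨x, hx⟩ with hx'
  rw [Metric.mem_ball] at hxb
  set δ : ℝ := η x / (2 * A') with hδ
  have hηx := hη x
  have hδ0 : 0 < δ := by positivity
  have hξx : ∀ r k, |ξ r k - x r k| ≤ δ := by
    intro r k
    have h2 := (dist_le_pi_dist ξ x r)
    have h3 := (dist_le_pi_dist (ξ r) (x r) k)
    rw [Real.dist_eq] at h3
    linarith
  let err' : AbsoluteValue K ℝ → ℝ := fun f => err f + δ * ∑ k, |t f k|
  have hstep : ∀ (f : AbsoluteValue K ℝ) (L : ℝ) (r : Fin 3 × Bool),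
      |L - H r.1 * ∑ k, ξ r k * t f k| ≤ H r.1 * err f →
      |L - H r.1 * ∑ k, x r k * t f k| ≤ H r.1 * err' f := by
    intro f L r hL
    have h1 := sum_change (t := t f) (hξx r)
    have e1 : L - H r.1 * ∑ k, x r k * t f k = (L - H r.1 * ∑ k, ξ r k * t f k) +
        H r.1 * (∑ k, ξ r k * t f k - ∑ k, x r k * t f k) := by ring
    rw [e1]
    refine (abs_add_le _ _).trans ?_
    rw [abs_mul, abs_of_nonneg (hHnn r.1)]
    have h2 : H r.1 * |∑ k, ξ r k * t f k - ∑ k, x r k * t f k| ≤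
        H r.1 * (δ * ∑ k, |t f k|) := mul_le_mul_of_nonneg_left h1 (hHnn r.1)
    show _ ≤ H r.1 * (err f + δ * ∑ k, |t f k|)
    rw [mul_add]
    linarith
  have hDpos : (0 : ℝ) < finrank ℚ K := finrank_pos'
  have hnear' : NearW u x H t err' (η x) := by
    refine ⟨fun v r => hstep _ _ r (hnear.inf v r), fun v r => hstep _ _ r (hnear.fin v r), ?_⟩
    intro T
    show PS T (fun f => err f + δ * ∑ k, |t f k|) ≤ _
    rw [PS_add, PS_smul]
    have h1 := hnear.tot T
    have h2 := ht T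
    have h3 : ε ≤ η x / 2 := hεle x'
    have h4 : ε * (finrank ℚ K : ℝ) ≤ η x / 2 * finrank ℚ K :=
      mul_le_mul_of_nonneg_right h3 hDpos.le
    have h5 : A * (finrank ℚ K : ℝ) ≤ A' * finrank ℚ K := mul_le_mul_of_nonneg_right hAA' hDpos.le
    have h6 : δ * PS T (fun f => ∑ k, |t f k|) ≤ δ * (A' * finrank ℚ K) :=
      mul_le_mul_of_nonneg_left (h2.trans h5) hδ0.le
    have h7 : δ * (A' * finrank ℚ K) = η x / 2 * finrank ℚ K := by
      rw [hδ]
      field_simp
    linarith
  have hfin := h x K u hu0 hu1 H (hm M (B x) H (hM x') hH1 hPt) hH1 t err' hnear' hH hκH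
  rw [map_prod]
  exact Finset.prod_eq_zero (Finset.mem_univ x') hfin

/-! ### The number field version -/

theorem nf (Pt : ℝ → (Fin 3 → ℝ) → Prop) (h : S_UN Pt) : S_NF Pt := by
  classical
  intro κ0 hκ0
  set N : ℝ := (Fintype.card (Fin 3 × Bool) : ℝ) with hN
  have hN0 : 0 ≤ N := Nat.cast_nonneg _
  obtain ⟨G, B, η, hG, hη, h⟩ := h κ0 ((3 : ℕ) * (N * (N * 8))) hκ0
  refine ⟨G, B, min 1 (η / (4 * N + 1)), hG, lt_min one_pos (by positivity), ?_⟩
  intro K _ _ u hu0 hu1 H hPt hH1 hH hκH s e hs0 he0 hsB heB W hW hσ hv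
  have hDpos : (0 : ℝ) < finrank ℚ K := finrank_pos'
  have hHpos : ∀ i, 0 < H i := fun i => zero_lt_one.trans_le (hH1 i)
  set ε : ℝ := min 1 (η / (4 * N + 1)) with hε
  have hε1 : ε ≤ 1 := min_le_left _ _
  have hε2 : (4 * N + 1) * ε ≤ η := by
    have h1 : ε ≤ η / (4 * N + 1) := min_le_right _ _
    rw [le_div_iff₀ (by positivity)] at h1
    linarith
  have hε0 : 0 < ε := lt_min one_pos (by positivity)
  have hinf : ∀ v : InfinitePlace K, lw (fun x => v.1 x) u s e ∈ W := by
    intro v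
    have h := hσ v.embedding
    have e : (fun x : K => ‖v.embedding x‖) = fun x => v.1 x := by
      funext x
      exact InfinitePlace.norm_embedding_eq v x
    rw [e] at h
    exact h
  let g : Fin 3 × Bool → ℝ := fun r => 1 / H r.1
  have hg0 : ∀ r, 0 < g r := fun r => by
    show 0 < 1 / H r.1
    have := hHpos r.1
    positivity
  have hgH : ∀ r, H r.1 * g r = 1 := fun r => by
    show H r.1 * (1 / H r.1) = 1
    rw [mul_one_div_cancel (hHpos r.1).ne']
  let W' : Submodule ℝ (Fin 3 × Bool → ℝ) := W.map (dg g)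
  have hW' : finrank ℝ W' ≤ 3 := (Submodule.finrank_map_le (dg g) W).trans hW
  obtain ⟨b, hb1, hb2⟩ := Pool.Agent.H883.ZP.basis W' hW'
  let wf : AbsoluteValue K ℝ → Fin 3 × Bool → ℝ := fun f => dg g (lw (fun x => f x) u s e)
  have hwf : ∀ f r, wf f r = g r * lw (fun x => f x) u s e r := fun f r => rfl
  let Sf : AbsoluteValue K ℝ → ℝ := fun f => ∑ r, |wf f r|
  have hSf : ∀ f r, |wf f r| ≤ Sf f := fun f r =>
    Finset.single_le_sum (f := fun r => |wf f r|) (fun _ _ => abs_nonneg _) (Finset.mem_univ r)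
  have hSf0 : ∀ f, 0 ≤ Sf f := fun f => Finset.sum_nonneg fun _ _ => abs_nonneg _
  have hex : ∀ f : AbsoluteValue K ℝ, ∃ t : Fin 3 → ℝ, (∀ j, |t j| ≤ N * Sf f) ∧
      (wf f ∈ W' → ∀ r, wf f r = ∑ j, t j * b j r) := by
    intro f
    by_cases h : wf f ∈ W'
    · obtain ⟨t, ht1, ht2⟩ := hb2 (wf f) h (Sf f) (hSf f)
      exact ⟨t, ht1, fun _ => ht2⟩
    · exact ⟨0, fun j => by
        rw [Pi.zero_apply, abs_zero]
        exact mul_nonneg hN0 (hSf0 f), fun h' => absurd h' h⟩
  choose t ht1 ht2 using hex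
  have hwfinf : ∀ v : InfinitePlace K, wf v.1 ∈ W' := fun v =>
    Submodule.mem_map_of_mem (hinf v)
  have hwffin : ∀ v : FinitePlace K, wf v.1 ∈ W' := fun v =>
    Submodule.mem_map_of_mem (hv v)
  let err : AbsoluteValue K ℝ → ℝ := fun f =>
    ∑ r, g r * (|log (f (e r))| + |log (f (s r))|)
  have herr1 : ∀ (f : AbsoluteValue K ℝ) (r : Fin 3 × Bool), wf f ∈ W' →
      |log (f (U u r)) - H r.1 * ∑ k, b k r * t f k| ≤ H r.1 * err f := by
    intro f r hf
    have h1 := ht2 f hf r
    have h2 : ∑ k, b k r * t f k = wf f r := by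
      rw [h1]
      exact Finset.sum_congr rfl fun k _ => mul_comm _ _
    rw [h2, hwf, ← mul_assoc, hgH, one_mul]
    have h3 : log (f (U u r)) - lw (fun x => f x) u s e r =
        log (f (e r)) + log (f (s r)) := by
      unfold lw
      ring
    rw [h3]
    have h4 : g r * (|log (f (e r))| + |log (f (s r))|) ≤ err f :=
      Finset.single_le_sum (f := fun r => g r * (|log (f (e r))| + |log (f (s r))|))
        (fun r _ => mul_nonneg (hg0 r).le (by positivity)) (Finset.mem_univ r)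
    have h5 := mul_le_mul_of_nonneg_left h4 (hHpos r.1).le
    rw [← mul_assoc, hgH, one_mul] at h5
    exact (abs_add_le _ _).trans h5
  have habs : ∀ (x : Fin 3 × Bool → K), (∀ r, x r ≠ 0) →
      (∀ r, logHeight₁ (x r) ≤ finrank ℚ K * (ε * H r.1)) → ∀ (T : Finset (FinitePlace K)) r,
      g r * PS T (fun f => |log (f (x r))|) ≤ finrank ℚ K * (2 * ε) := by
    intro x hx hxB T r
    have h1 := Pool.Agent.H883.ZP.PS_abs_le (hx r) T
    have h2 := hxB r
    have h3 : g r * PS T (fun f => |log (f (x r))|) ≤ g r * (2 * (finrank ℚ K * (ε * H r.1))) :=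
      mul_le_mul_of_nonneg_left (by linarith) (hg0 r).le
    have h4 : g r * (2 * (finrank ℚ K * (ε * H r.1))) =
        (H r.1 * g r) * (finrank ℚ K * (2 * ε)) := by ring
    rw [h4, hgH, one_mul] at h3
    exact h3
  have herrPS : ∀ T : Finset (FinitePlace K), PS T err ≤ η * finrank ℚ K := by
    intro T
    show PS T (fun f => ∑ r, g r * (|log (f (e r))| + |log (f (s r))|)) ≤ _
    rw [PS_sum]
    have h1 : ∀ r, PS T (fun f => g r * (|log (f (e r))| + |log (f (s r))|)) ≤
        finrank ℚ K * (4 * ε) := by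
      intro r
      rw [PS_smul, PS_add, mul_add]
      have h2 := habs e he0 heB T r
      have h3 := habs s hs0 hsB T r
      linarith
    have h2 : ∑ r, PS T (fun f => g r * (|log (f (e r))| + |log (f (s r))|)) ≤
        ∑ _r : Fin 3 × Bool, (finrank ℚ K : ℝ) * (4 * ε) := Finset.sum_le_sum fun r _ => h1 r
    rw [Finset.sum_const, Finset.card_univ, nsmul_eq_mul] at h2
    refine h2.trans ?_
    have h3 : (Fintype.card (Fin 3 × Bool) : ℝ) * ((finrank ℚ K : ℝ) * (4 * ε)) =
        finrank ℚ K * (4 * N * ε) := by rw [hN]; ring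
    rw [h3]
    have h4 : 4 * N * ε ≤ η := by linarith
    have h5 := mul_le_mul_of_nonneg_left h4 hDpos.le
    linarith
  have htPS : ∀ T : Finset (FinitePlace K), PS T (fun f => ∑ k, |t f k|) ≤
      ((3 : ℕ) * (N * (N * 8))) * finrank ℚ K := by
    intro T
    have h1 : PS T (fun f => ∑ k, |t f k|) ≤
        PS T (fun f => ((3 : ℕ) * N) * Sf f) + finrank ℚ K * 0 := by
      apply PS_le
      · intro v
        rw [add_zero]
        calc ∑ k, |t v.1 k| ≤ ∑ _k : Fin 3, N * Sf v.1 := Finset.sum_le_sum fun k _ => ht1 _ k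
          _ = _ := by
            rw [Finset.sum_const, Finset.card_univ, Fintype.card_fin, nsmul_eq_mul]
            ring
      · intro v
        calc ∑ k, |t v.1 k| ≤ ∑ _k : Fin 3, N * Sf v.1 := Finset.sum_le_sum fun k _ => ht1 _ k
          _ = _ := by
            rw [Finset.sum_const, Finset.card_univ, Fintype.card_fin, nsmul_eq_mul]
            ring
    have h2 : PS T Sf ≤ finrank ℚ K * (N * 8) := by
      show PS T (fun f => ∑ r, |wf f r|) ≤ _
      rw [PS_sum]
      have h3 : ∀ r, PS T (fun f => |wf f r|) ≤ finrank ℚ K * 8 := by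
        intro r
        have h4 : PS T (fun f => |wf f r|) ≤ PS T (fun f => g r * (|log (f (U u r))| +
            |log (f (s r))| + |log (f (e r))|)) + finrank ℚ K * 0 := by
          have h5 : ∀ f : AbsoluteValue K ℝ, |wf f r| ≤ g r * (|log (f (U u r))| +
            |log (f (s r))| + |log (f (e r))|) := by
            intro f
            rw [hwf, abs_mul, abs_of_pos (hg0 r)]
            apply mul_le_mul_of_nonneg_left _ (hg0 r).le
            unfold lw
            refine (abs_sub _ _).trans ?_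
            have := abs_sub (log (f (U u r))) (log (f (s r)))
            linarith
          apply PS_le
          · intro v
            rw [add_zero]
            exact h5 _
          · intro v
            exact h5 _
        rw [PS_smul, PS_add, PS_add, mul_zero, add_zero, mul_add, mul_add] at h4
        have h5 := habs s hs0 hsB T r
        have h6 := habs e he0 heB T r
        have h7 := Pool.Agent.H883.ZP.PS_abs_le (U_ne hu0 hu1 r) T
        have h8 := height_UW hH r
        have h9 : g r * PS T (fun f => |log (f (U u r))|) ≤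
            g r * (2 * (finrank ℚ K * (2 * H r.1))) := by
          apply mul_le_mul_of_nonneg_left _ (hg0 r).le
          have h10 : (finrank ℚ K : ℝ) * (H r.1 + 1) ≤ finrank ℚ K * (2 * H r.1) := by
            apply mul_le_mul_of_nonneg_left _ hDpos.le
            have := hH1 r.1
            linarith
          linarith
        have h11 : g r * (2 * (finrank ℚ K * (2 * H r.1))) =
            (H r.1 * g r) * (finrank ℚ K * 4) := by ring
        rw [h11, hgH, one_mul] at h9
        have h12 : (finrank ℚ K : ℝ) * (2 * ε) ≤ finrank ℚ K * 2 := by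
          apply mul_le_mul_of_nonneg_left _ hDpos.le
          linarith
        linarith
      calc ∑ r, PS T (fun f => |wf f r|) ≤ ∑ _r : Fin 3 × Bool, (finrank ℚ K : ℝ) * 8 :=
            Finset.sum_le_sum fun r _ => h3 r
        _ = _ := by
            rw [Finset.sum_const, Finset.card_univ, nsmul_eq_mul]
            ring
    rw [PS_smul, mul_zero, add_zero] at h1
    have h3 : ((3 : ℕ) * N) * PS T Sf ≤ ((3 : ℕ) * N) * (finrank ℚ K * (N * 8)) :=
      mul_le_mul_of_nonneg_left h2 (by positivity)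
    refine h1.trans (h3.trans (le_of_eq ?_))
    ring
  exact h (fun r k => b k r) (fun r k => hb1 k _) K u hu0 hu1 H hPt hH1 t err
    ⟨fun v r => herr1 v.1 r (hwfinf v), fun v r => herr1 v.1 r (hwffin v), herrPS⟩ htPS hH hκH

end Pool.Agent.H883.ZR.UNF
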