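import Pool.Agent.H883.ZR.Base4
import Pool.Agent.H883.ZR.S4
import Pool.Agent.H883.ZR.SZ
import Pool.Agent.H883.ZR.SR
import Pool.Agent.H883.ZR.S6b
import Pool.Agent.H883.ZR.S6c1
import Pool.Agent.H883.ZR.S6c
import Pool.Agent.H883.ZR.S6
import Pool.Agent.H883.ZR.S7
import Pool.Agent.H883.ZR.S8
import Pool.Agent.H883.ZR.S9a
import Pool.Agent.H883.ZR.S9b
import Pool.Agent.H883.ZR.SS
import Pool.Agent.H883.ZR.ST
import Pool.Agent.H883.ZR.SE
import Pool.Agent.H883.ZR.SI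
import Pool.Agent.H883.ZR.Scf
import Pool.Agent.H883.ZR.CL
import Pool.Agent.H883.ZR.IT
import Pool.Agent.H883.ZR.IT21
import Pool.Agent.H883.ZR.P12
import Pool.Agent.H883.ZR.UNF
import Pool.Agent.H883.ZR.BN
import Pool.Agent.H883.ZR.BL
import Pool.Agent.H883.ZR.Auxil
import Pool.Agent.H883.ZR.FL
import Pool.Agent.H883.ZR.ULNL
import Pool.Agent.H883.ZR.LL
import Pool.Agent.H883.ZR.E4

set_option autoImplicit false

/-!
# Assembly
-/

namespace Pool.Agent.H883.ZR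

theorem S_S_holds : S_S := SS.ss
theorem S_T_holds : S_T := ST.st
theorem S_cf_holds : S_cf := Scf.scf
theorem S_4'_holds : S_4' := S4.s4'
theorem S_4_holds : S_4 := S4.s4
theorem S_E_holds : S_E := SE.se SZ.sz S_cf_holds
theorem S_6_holds : S_6 := S6.s6 S6b.s6b (S6c.s6c S_4_holds S6c1.s6c1)
theorem S_IT_holds : S_IT := IT.it S_E_holds S_cf_holds S_4'_holds (SR.sr S_4'_holds)
theorem S_IT21_holds : S_IT21 := IT21.it21 S_E_holds S_cf_holds S_4'_holds S_6_holds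
theorem S_CL_holds : S_CL := CL.cl S_S_holds S_T_holds (SI.si S_cf_holds) S_cf_holds
theorem S_P12_holds : S_P12 :=
  P12.p12 S_S_holds S_T_holds S_E_holds S_cf_holds S_4'_holds (S7.s7 S6b.s6b) (S8.s8 S_4_holds)
    S9a.s9a S9b.s9b S_CL_holds
theorem S_AUX_holds : S_AUX := AUX.aux S_S_holds S_T_holds
theorem S_FL_holds : S_FL := FL.fl S_S_holds S_T_holds S_AUX_holds S_IT_holds

/-- **Zilber-Pink at lacunary heights.** -/
theorem S_LL_holds : S_LL := LL.ll (ULNL.nl (ULNL.ul S_FL_holds))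

/-- bounded height for products of three lines, from the theorem on fixed vectors -/
theorem S_BL_of (h111 : S_FX Pt111) (h21 : S_FX Pt21) (h12 : S_FX Pt12) (h3 : S_FX Pt3) : S_BL :=
  BL.bl (BN.bn (UNF.nf _ (UNF.un _ UNF.mono111 h111)) (UNF.nf _ (UNF.un _ UNF.mono21 h21))
    (UNF.nf _ (UNF.un _ UNF.mono12 h12)) (UNF.nf _ (UNF.un _ UNF.mono3 h3)))

end Pool.Agent.H883.ZR
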