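import Pool.Agent.H883.ZR.Base4
import Pool.Agent.H883.ZR.INT
import Pool.Agent.H883.ZP.Spec

set_option autoImplicit false
set_option linter.unusedSectionVars false

/-!
# Points of small rank on subvarieties of tori cut out by trinomials
-/

namespace Pool.Agent.H883.ZR.A2

open Real NumberField Height Module Finset MvPolynomial
open Pool.Agent.H883.ZQ
open Pool.Agent.H883.ZP (Codim mon PairCond nfRel exists_spec monU map_monU map_codim map_aevalZ)

lemma ht_one' {K : Type} [Field K] [NumberField K] : ht (1 : K) = 0 := by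
  unfold ht
  rw [logHeight₁_one, zero_div]

/-- the statement for products of `k` lines and subgroups of codimension `M` -/
def Lines (K0 : Type) [Field K0] [NumberField K0] (k M : ℕ) (a b : Fin k → K0) : Prop :=
  ∃ G : MvPolynomial (Fin k) K0, G ≠ 0 ∧
    ∀ (K : Type) [Field K] [NumberField K] [Algebra K0 K] (P : Fin k ⊕ Fin k → K),
      (∀ r, P r ≠ 0) →
      (∀ i, algebraMap K0 K (a i) * P (Sum.inl i) + algebraMap K0 K (b i) * P (Sum.inr i) = 1) →
      Codim P M → aeval (fun i => P (Sum.inl i)) G = 0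

theorem lines4 (hE : S_E4) (K0 : Type) [Field K0] [NumberField K0] (a b : Fin 4 → K0)
    (ha : ∀ i, a i ≠ 0) (hb : ∀ i, b i ≠ 0) : Lines K0 4 5 a b := by
  obtain ⟨G, hG, ε, hε, H⟩ := hE K0 a b ha hb
  refine ⟨G, hG, ?_⟩
  intro K _ _ _ P h0 h1 h2
  refine H K P P (fun _ => 1) h0 h1 (fun r => (mul_one _).symm) h2 ?_
  intro r
  rw [ht_one']
  exact hε.le

theorem linesQ (hQ : S_QL) (K0 : Type) [Field K0] [NumberField K0] (c r : ℕ) (a b : Fin c → K0)
    (hc : (r - 1) ^ 2 + 2 ≤ c) (ha : ∀ i, a i ≠ 0) (hb : ∀ i, b i ≠ 0) :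
    Lines K0 c (2 * c - r) a b := by
  obtain ⟨G, hG, ε, hε, H⟩ := hQ K0 c r a b hc ha hb
  refine ⟨G, hG, ?_⟩
  intro K _ _ _ P h0 h1 h2
  refine H K P P (fun _ => 1) h0 h1 (fun r => (mul_one _).symm) h2 ?_
  intro r
  rw [ht_one']
  exact hε.le

/-- The conclusion for a number field `K0`, `c` equations and a condition on the dimension `n` of
the torus, the codimension `m` of the subgroup (and the point). -/
def Nf (K0 : Type) [Field K0] [NumberField K0] (c : ℕ) (a b : Fin c → K0)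
    (C : ℕ → ℕ → Prop) : Prop :=
  ∃ G : MvPolynomial (Fin c) ℤ, G ≠ 0 ∧
    ∀ (K : Type) [Field K] [NumberField K] [Algebra K0 K] (n m : ℕ) (α β : Fin c → Fin n → ℤ)
      (z : Fin n → K), (∀ l, z l ≠ 0) →
      (∀ i, algebraMap K0 K (a i) * mon z (α i) + algebraMap K0 K (b i) * mon z (β i) = 1) →
      Codim z m → C n m →
      MvPolynomial.aeval (fun i => algebraMap K0 K (a i) * mon z (α i)) G = 0

theorem nf_of_lines (K0 : Type) [Field K0] [NumberField K0] (k M : ℕ) (a b : Fin k → K0)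
    (ha : ∀ i, a i ≠ 0) (h : Lines K0 k M a b) : Nf K0 k a b (fun n m => M + n ≤ 2 * k + m) := by
  obtain ⟨G0, hG0, H⟩ := h
  obtain ⟨G, hG, hv⟩ := INT.toInt K0 k a ha G0 hG0
  refine ⟨G, hG, ?_⟩
  intro K _ _ _ n m α β z hz heq hcod hM
  have hz' : ∀ e : Fin n → ℤ, mon z e ≠ 0 := fun e =>
    Finset.prod_ne_zero_iff.2 fun l _ => zpow_ne_zero _ (hz l)
  have h1 := INT.monCodim' z hz (Sum.elim α β) hcod (M := M)
    (by rw [Fintype.card_sum, Fintype.card_fin]; omega)
  have h2 := H K (fun r => mon z (Sum.elim α β r)) (fun r => hz' _) (fun i => heq i) h1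
  exact hv K (fun i => mon z (α i)) h2

theorem nf_lift (K0 : Type) [Field K0] [NumberField K0] (k c : ℕ) (hkc : k ≤ c) (a b : Fin c → K0)
    (C : ℕ → ℕ → Prop) (h : Nf K0 k (fun i => a (Fin.castLE hkc i)) (fun i => b (Fin.castLE hkc i)) C) :
    Nf K0 c a b C := by
  obtain ⟨G, hG, H⟩ := h
  refine ⟨rename (Fin.castLE hkc) G, ?_, ?_⟩
  · intro h0
    exact hG (rename_injective _ (Fin.castLE_injective hkc) (by rw [h0, map_zero]))
  · intro K _ _ _ n m α β z hz heq hcod hC
    rw [aeval_rename]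
    exact H K n m (fun i => α (Fin.castLE hkc i)) (fun i => β (Fin.castLE hkc i)) z hz
      (fun i => heq _) hcod hC

theorem nf_or (K0 : Type) [Field K0] [NumberField K0] (c : ℕ) (a b : Fin c → K0)
    (C C' : ℕ → ℕ → Prop) (h : Nf K0 c a b C) (h' : Nf K0 c a b C') :
    Nf K0 c a b (fun n m => C n m ∨ C' n m) := by
  obtain ⟨G, hG, H⟩ := h
  obtain ⟨G', hG', H'⟩ := h'
  refine ⟨G * G', mul_ne_zero hG hG', ?_⟩
  intro K _ _ _ n m α β z hz heq hcod hC
  rw [map_mul, mul_eq_zero]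
  rcases hC with hC | hC
  · exact Or.inl (H K n m α β z hz heq hcod hC)
  · exact Or.inr (H' K n m α β z hz heq hcod hC)

theorem nf_mono (K0 : Type) [Field K0] [NumberField K0] (c : ℕ) (a b : Fin c → K0)
    (C C' : ℕ → ℕ → Prop) (h : Nf K0 c a b C) (hC : ∀ n m, C' n m → C n m) :
    Nf K0 c a b C' := by
  obtain ⟨G, hG, H⟩ := h
  refine ⟨G, hG, ?_⟩
  intro K _ _ _ n m α β z hz heq hcod hC'
  exact H K n m α β z hz heq hcod (hC n m hC')

theorem nf_false (K0 : Type) [Field K0] [NumberField K0] (c : ℕ) (a b : Fin c → K0) :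
    Nf K0 c a b (fun _ _ => False) :=
  ⟨1, one_ne_zero, fun _ _ _ _ _ _ _ _ _ _ _ _ h => h.elim⟩

theorem nf_bigOr (K0 : Type) [Field K0] [NumberField K0] (c : ℕ) (a b : Fin c → K0)
    (C : ℕ → ℕ → ℕ → Prop) (N : ℕ) (h : ∀ r < N, Nf K0 c a b (C r)) :
    Nf K0 c a b (fun n m => ∃ r < N, C r n m) := by
  induction N with
  | zero =>
    refine nf_mono K0 c a b _ _ (nf_false K0 c a b) ?_
    rintro n m ⟨r, hr, -⟩
    omega
  | succ N ih =>
    refine nf_mono K0 c a b _ _ (nf_or K0 c a b _ _ (ih fun r hr => h r (by omega))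
      (h N (by omega))) ?_
    rintro n m ⟨r, hr, h1⟩
    rcases Nat.lt_succ_iff_lt_or_eq.1 hr with h2 | rfl
    · exact Or.inl ⟨r, h2, h1⟩
    · exact Or.inr h1

/-- the condition on the rank -/
def RankCond (c r : ℕ) : Prop := (r < c ∧ r ≤ 3) ∨ (r - 1) ^ 2 + 2 ≤ c

theorem nf_rank (hE : S_E4) (hQ : S_QL) (K0 : Type) [Field K0] [NumberField K0] (c r : ℕ)
    (a b : Fin c → K0) (ha : ∀ i, a i ≠ 0) (hb : ∀ i, b i ≠ 0) (hr : RankCond c r) :
    Nf K0 c a b (fun n m => n ≤ m + r) := by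
  rcases hr with ⟨h1, h2⟩ | h1
  · rcases Nat.lt_or_ge r 3 with h3 | h3
    · refine nf_lift K0 (r + 1) c h1 a b _ ?_
      obtain ⟨G, hG, H⟩ := nfRel (r + 1) (fun i => a (Fin.castLE h1 i))
        (fun i => b (Fin.castLE h1 i)) (fun i => ha _) (fun i => hb _)
      refine ⟨G, hG, ?_⟩
      intro K _ _ _ n m α β z hz heq hcod hC
      exact H K n m α β z hz heq hcod (by omega) (fun h => absurd h (by omega))
    · have hr3 : r = 3 := by omega
      subst hr3
      refine nf_lift K0 4 c h1 a b _ ?_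
      refine nf_mono K0 4 _ _ _ _ (nf_of_lines K0 4 5 _ _ (fun i => ha _)
        (lines4 hE K0 _ _ (fun i => ha _) (fun i => hb _))) ?_
      intro n m h
      show 5 + n ≤ 2 * 4 + m
      omega
  · have hrc : r ≤ 2 * c := by
      have : r - 1 ≤ (r - 1) ^ 2 := Nat.le_self_pow (by norm_num) _
      omega
    refine nf_mono K0 c _ _ _ _ (nf_of_lines K0 c (2 * c - r) a b ha
      (linesQ hQ K0 c r a b h1 ha hb)) ?_
    intro n m h
    show 2 * c - r + n ≤ 2 * c + m
    omega

lemma rank_le {c r : ℕ} (hr : RankCond c r) : r < c + 2 := by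
  rcases hr with h | h
  · omega
  · have : r - 1 ≤ (r - 1) ^ 2 := Nat.le_self_pow (by norm_num) _
    omega

theorem nf_all (hE : S_E4) (hQ : S_QL) (K0 : Type) [Field K0] [NumberField K0] (c : ℕ)
    (a b : Fin c → K0) (ha : ∀ i, a i ≠ 0) (hb : ∀ i, b i ≠ 0) :
    Nf K0 c a b (fun n m => ∃ r, RankCond c r ∧ n ≤ m + r) := by
  classical
  refine nf_mono K0 c a b _ _ (nf_bigOr K0 c a b (fun r n m => RankCond c r ∧ n ≤ m + r) (c + 2)
    fun r _ => ?_) ?_
  · by_cases hr : RankCond c r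
    · exact nf_mono K0 c a b _ _ (nf_rank hE hQ K0 c r a b ha hb hr) fun n m h => h.2
    · exact nf_mono K0 c a b _ _ (nf_false K0 c a b) fun n m h => hr h.1
  · rintro n m ⟨r, hr, h⟩
    exact ⟨r, rank_le hr, hr, h⟩

/-- from number fields to all fields -/
theorem any_of_nf (K0 : Type) [Field K0] [NumberField K0] (c : ℕ) (a b : Fin c → K0)
    (C : ℕ → ℕ → Prop) (h : Nf K0 c a b C) :
    ∃ G : MvPolynomial (Fin c) ℤ, G ≠ 0 ∧
      ∀ (L : Type) [Field L] [Algebra K0 L] (n m : ℕ) (α β : Fin c → Fin n → ℤ)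
        (z : Fin n → L), (∀ l, z l ≠ 0) →
        (∀ i, algebraMap K0 L (a i) * mon z (α i) + algebraMap K0 L (b i) * mon z (β i) = 1) →
        Codim z m → C n m →
        MvPolynomial.aeval (fun i => algebraMap K0 L (a i) * mon z (α i)) G = 0 := by
  classical
  obtain ⟨G, hG0, hG⟩ := h
  refine ⟨G, hG0, ?_⟩
  intro L _ _ n m α β z hz heq hcod hm
  by_contra hne
  set g : L := MvPolynomial.aeval (fun i => algebraMap K0 L (a i) * mon z (α i)) G with hg
  let T : Finset L := Finset.univ.image z ∪ Finset.univ.image (fun l => (z l)⁻¹) ∪ {g⁻¹}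
  let A : Subalgebra K0 L := Algebra.adjoin K0 (T : Set L)
  have hFT : Algebra.FiniteType K0 A :=
    (Subalgebra.fg_iff_finiteType A).1 ⟨T, rfl⟩
  have hzA : ∀ l, z l ∈ A := fun l => Algebra.subset_adjoin (by
    simp only [T, Finset.coe_union, Set.mem_union]
    left; left
    exact Finset.mem_coe.2 (Finset.mem_image_of_mem _ (Finset.mem_univ l)))
  have hziA : ∀ l, (z l)⁻¹ ∈ A := fun l => Algebra.subset_adjoin (by
    simp only [T, Finset.coe_union, Set.mem_union]
    left; right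
    exact Finset.mem_coe.2 (Finset.mem_image_of_mem (fun l => (z l)⁻¹) (Finset.mem_univ l)))
  have hgA : g⁻¹ ∈ A := Algebra.subset_adjoin (by
    simp only [T, Finset.coe_union, Set.mem_union]
    right
    simp)
  let Z : Fin n → Aˣ := fun l => ⟨⟨z l, hzA l⟩, ⟨(z l)⁻¹, hziA l⟩,
    Subtype.ext (mul_inv_cancel₀ (hz l)), Subtype.ext (inv_mul_cancel₀ (hz l))⟩
  let φ : A →+* L := (A.val : A →+* L)
  have hφ : Function.Injective φ := Subtype.val_injective
  have hφZ : (fun l => φ (Z l : A)) = z := rfl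
  obtain ⟨K, _, _, _, ⟨ψ⟩⟩ := exists_spec K0 A
  -- the equations
  have heqA : ∀ i, algebraMap K0 A (a i) * (monU Z (α i) : A) +
      algebraMap K0 A (b i) * (monU Z (β i) : A) = 1 := by
    intro i
    apply hφ
    rw [map_add, map_mul, map_mul, map_monU, map_monU, map_one]
    exact heq i
  have hψ : ∀ e : Fin n → ℤ, ψ (monU Z e : A) = mon (fun l => ψ (Z l : A)) e := fun e =>
    map_monU (ψ : A →+* K) Z e
  have h1 := hG K n m α β (fun l => ψ (Z l : A)) (fun l => by
      have : IsUnit (ψ (Z l : A)) := (Z l).isUnit.map ψ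
      exact this.ne_zero) (fun i => by
      have := congrArg ψ (heqA i)
      rw [map_add, map_mul, map_mul, hψ, hψ, map_one, AlgHom.commutes, AlgHom.commutes] at this
      exact this)
    (map_codim hφ (ψ : A →+* K) Z hcod) hm
  -- the value of `G`
  let gA : A := MvPolynomial.aeval (fun i => algebraMap K0 A (a i) * (monU Z (α i) : A)) G
  have hgA1 : φ gA = g := by
    rw [map_aevalZ, hg]
    congr 2
    funext i
    rw [map_mul, map_monU]
    rfl
  have hgA2 : ψ gA = 0 := by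
    rw [← h1]
    have h2 := map_aevalZ (ψ : A →+* K) (fun i => algebraMap K0 A (a i) * (monU Z (α i) : A)) G
    refine h2.trans ?_
    congr 2
    funext i
    show ψ (algebraMap K0 A (a i) * (monU Z (α i) : A)) = _
    rw [map_mul, hψ, AlgHom.commutes]
  have hunit : gA * ⟨g⁻¹, hgA⟩ = 1 := by
    apply hφ
    rw [map_mul, hgA1, map_one]
    exact mul_inv_cancel₀ hne
  have h2 := congrArg ψ hunit
  rw [map_mul, hgA2, zero_mul, map_one] at h2
  exact zero_ne_one h2

end Pool.Agent.H883.ZR.A2
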