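import Pool.Agent.H883.ZR.Base

set_option autoImplicit false
set_option linter.unusedSectionVars false

/-!
# Coefficients with respect to a part of the variables: statements
-/

namespace Pool.Agent.H883.ZR

open Real NumberField Height Module Finset MvPolynomial
open Pool.Agent.H393R2.RothNS (TT DD l1)
open Pool.Agent.H883.ZQ (mo rel rk)

/-- the coefficient at the exponent `β` of the first group of variables, a polynomial in the second
group of variables -/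
noncomputable def cf {m a : ℕ} (F : MvPolynomial (Fin m ⊕ Fin a) ℤ) (β : Fin m →₀ ℕ) :
    MvPolynomial (Fin a) ℤ :=
  coeff β (sumAlgEquiv ℤ (Fin m) (Fin a) F)

/-- **Scf.** Properties of `cf`. -/
def S_cf : Prop :=
  ∀ (m a : ℕ) (F : MvPolynomial (Fin m ⊕ Fin a) ℤ),
    (F ≠ 0 → ∃ β, cf F β ≠ 0) ∧
    (∀ β γ, coeff γ (cf F β) = coeff (Finsupp.sumElim β γ) F) ∧
    (∀ β i, degreeOf i (cf F β) ≤ degreeOf (Sum.inr i) F) ∧
    (∀ β, l1 (cf F β) ≤ l1 F) ∧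
    (∀ g : MvPolynomial (Fin a) ℤ, rename Sum.inr g ∣ F ↔ ∀ β, g ∣ cf F β)

/-- **SE.** Elimination: a polynomial in two groups of variables (the first group `inl` and the
second group `inr`) which vanishes to a high order with respect to the first group at a point. -/
def S_E : Prop :=
  ∀ (m a : ℕ) (F : MvPolynomial (Fin m ⊕ Fin a) ℤ) (Nl : Fin m → ℕ) (Nt : Fin a → ℕ), F ≠ 0 →
    (∀ i, degreeOf (Sum.inl i) F ≤ Nl i) → (∀ i, degreeOf (Sum.inr i) F ≤ Nt i) →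
    ∀ (K : Type) [Field K] [CharZero K] (u : Fin m ⊕ Fin a → K) (w : Fin m → ℝ) (c w1 : ℝ),
      (∀ i, 0 ≤ w i) → (∀ i, w i ≤ w1) → 0 ≤ w1 →
      (∀ κ : Fin m ⊕ Fin a →₀ ℕ, (∀ i, κ (Sum.inr i) = 0) →
        ∑ i, w i * κ (Sum.inl i) < c → tc u F κ = 0) →
      (∀ β : Fin m →₀ ℕ, aeval (fun i => u (Sum.inr i)) (cf F β) = 0) ∨
      ∃ W : MvPolynomial (Fin m) ℤ, W ≠ 0 ∧
        (∀ i, degreeOf i W ≤ (∏ i, (Nt i + 1)) * Nl i) ∧
        l1 W ≤ (∏ i, (Nt i + 1)).factorial *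
          (2 ^ (∑ i, Nl i) * l1 F) ^ (∏ i, (Nt i + 1)) ∧
        ∀ κ : Fin m →₀ ℕ, ∑ i, w i * κ i < c - (∏ i, (Nt i + 1) : ℕ) * w1 →
          tc (fun i => u (Sum.inl i)) W κ = 0

/-- **SI.** Independence of products of powers modulo a polynomial in a part of the variables. -/
def S_I : Prop :=
  ∀ (g : MvPolynomial (Fin 2) ℤ) (φ : (Fin 2 × Bool → ℕ) → ℝ),
    (∀ (ι : Type) [Fintype ι] (E : ι → Fin 2 × Bool → ℕ) (c : ι → ℤ),
      Function.Injective (fun m => φ (E m)) → g ∣ ∑ m, c m • mo (E m) → c = 0) →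
    ∀ (b : Bool) (ι1 ι2 : Type) [Fintype ι1] [Fintype ι2]
      (E : ι1 × ι2 → (Fin 1 ⊕ Fin 2) × Bool → ℕ) (p : ι2 → ℕ), Function.Injective p →
      (∀ x, E x (Sum.inl 0, b) = p x.2) →
      (∀ y, Function.Injective fun x => φ (fun r => E (x, y) (Sum.inr r.1, r.2))) →
      ∀ c : ι1 × ι2 → ℤ, rename Sum.inr g ∣ ∑ x, c x • mo (E x) → c = 0

end Pool.Agent.H883.ZR
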