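import Pool.Agent.H883.ZR.PF

set_option autoImplicit false
set_option linter.unusedSectionVars false

/-!
# Sets of coordinates of small rank with heights of different sizes
-/

namespace Pool.Agent.H883.ZR

open Real NumberField Height Module Finset
open Pool.Agent.H489ZP
open Pool.Agent.H883.ZQ
open Pool.Agent.H393R2.RothNS (TT DD l1 l1_nonneg l1_mul l1_one l1_monomial l1_add l1_sum coeff_le_l1)

variable {I : Type} [Fintype I] [DecidableEq I]

/-- the point of the space of relations with parameters `μ` -/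
noncomputable def xw (a : I → I × Bool → ℝ) (ρ : I → ℝ) {n : I → ℕ} (μ : ∀ i, Fin (n i))
    (r : I × Bool) : ℝ := ∑ i, ((μ i : ℕ) : ℝ) / ρ i * a i r

/-- integral exponents near it -/
noncomputable def ew (a : I → I × Bool → ℝ) (ρ : I → ℝ) (s : I → ℕ) {n : I → ℕ}
    (μ : ∀ i, Fin (n i)) (r : I × Bool) : ℕ := (⌊ρ r.1 * xw a ρ μ r⌋ + s r.1).toNat

lemma xw_mem {a : I → I × Bool → ℝ} {R : Submodule ℝ (I × Bool → ℝ)} (ha : ∀ i, a i ∈ R)
    (ρ : I → ℝ) {n : I → ℕ} (μ : ∀ i, Fin (n i)) : xw a ρ μ ∈ R := by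
  have : xw a ρ μ = ∑ i, (((μ i : ℕ) : ℝ) / ρ i) • a i := by
    funext r
    rw [Finset.sum_apply]
    rfl
  rw [this]
  exact R.sum_mem fun i _ => R.smul_mem _ (ha i)

lemma xw_le {a : I → I × Bool → ℝ} {ρ : I → ℝ} (hρ : ∀ i, 0 < ρ i) {n : I → ℕ} {nn β : ℝ}
    (hn : ∀ i, (n i : ℝ) ≤ nn * ρ i) (μ : ∀ i, Fin (n i)) {r : I × Bool} (hnn : 0 ≤ nn)
    (hβ : ∑ i, |a i r| ≤ β) : |xw a ρ μ r| ≤ β * nn := by
  unfold xw
  refine (Finset.abs_sum_le_sum_abs _ _).trans ?_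
  have h1 : ∑ i, |((μ i : ℕ) : ℝ) / ρ i * a i r| ≤ ∑ i, nn * |a i r| := by
    apply Finset.sum_le_sum
    intro i _
    rw [abs_mul]
    apply mul_le_mul_of_nonneg_right _ (abs_nonneg _)
    rw [abs_of_nonneg (div_nonneg (Nat.cast_nonneg _) (hρ i).le), div_le_iff₀ (hρ i)]
    refine le_trans ?_ (hn i)
    exact_mod_cast (μ i).2.le
  refine h1.trans ?_
  rw [← Finset.mul_sum, mul_comm]
  exact mul_le_mul_of_nonneg_right hβ hnn

lemma ew_cast {a : I → I × Bool → ℝ} {ρ : I → ℝ} {s : I → ℕ} {n : I → ℕ} (μ : ∀ i, Fin (n i))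
    {r : I × Bool} (h : |ρ r.1 * xw a ρ μ r| ≤ s r.1) :
    (ew a ρ s μ r : ℝ) = (⌊ρ r.1 * xw a ρ μ r⌋ : ℝ) + s r.1 := by
  have h1 : (0 : ℤ) ≤ ⌊ρ r.1 * xw a ρ μ r⌋ + s r.1 := by
    have : (-(s r.1 : ℤ)) ≤ ⌊ρ r.1 * xw a ρ μ r⌋ := by
      rw [Int.le_floor]
      push_cast
      exact (abs_le.1 h).1
    omega
  have h2 : ((ew a ρ s μ r : ℕ) : ℤ) = ⌊ρ r.1 * xw a ρ μ r⌋ + s r.1 := Int.toNat_of_nonneg h1
  have h3 : (((ew a ρ s μ r : ℕ) : ℤ) : ℝ) = ((⌊ρ r.1 * xw a ρ μ r⌋ + s r.1 : ℤ) : ℝ) := by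
    rw [h2]
  push_cast at h3
  exact h3

lemma ew_le {a : I → I × Bool → ℝ} {ρ : I → ℝ} {s : I → ℕ} {n : I → ℕ} (μ : ∀ i, Fin (n i))
    {r : I × Bool} (h : |ρ r.1 * xw a ρ μ r| ≤ s r.1) : ew a ρ s μ r ≤ 2 * s r.1 := by
  have h1 := ew_cast μ h
  have h2 := Int.floor_le (ρ r.1 * xw a ρ μ r)
  have h3 := (abs_le.1 h).2
  have : (ew a ρ s μ r : ℝ) ≤ ((2 * s r.1 : ℕ) : ℝ) := by
    push_cast
    linarith
  exact_mod_cast this

lemma ew_inj {a : I → I × Bool → ℝ} {b : I → Bool}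
    (hab : ∀ i k, a i (k, b k) = if i = k then 1 else 0) {ρ : I → ℝ} (hρ : ∀ i, 0 < ρ i)
    {s : I → ℕ} {n : I → ℕ} (hs : ∀ (μ : ∀ i, Fin (n i)) r, |ρ r.1 * xw a ρ μ r| ≤ s r.1) :
    Function.Injective fun (μ : ∀ i, Fin (n i)) i => ew a ρ s μ (i, b i) := by
  intro μ μ' hmm
  funext k
  have h1 : ∀ μ : ∀ i, Fin (n i), ρ k * xw a ρ μ (k, b k) = μ k := by
    intro μ
    unfold xw
    rw [Finset.sum_eq_single k]
    · rw [hab k k, if_pos rfl, mul_one]
      have := (hρ k).ne'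
      field_simp
    · intro i _ hik
      rw [hab i k, if_neg hik, mul_zero]
    · intro h
      exact absurd (Finset.mem_univ _) h
  have h2 := congrFun hmm k
  dsimp only at h2
  have h3 := ew_cast μ (hs μ (k, b k))
  have h4 := ew_cast μ' (hs μ' (k, b k))
  rw [h1 μ] at h3
  rw [h1 μ'] at h4
  rw [h2, h4] at h3
  rw [Int.floor_natCast, Int.floor_natCast] at h3
  have h5 : ((μ' k : ℕ) : ℝ) = ((μ k : ℕ) : ℝ) := by
    push_cast at h3
    linarith
  exact Fin.ext (by exact_mod_cast h5.symm)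

lemma l1_pow_le (P : MvPolynomial I ℤ) {A : ℝ} (hA : l1 P ≤ A) (k : ℕ) : l1 (P ^ k) ≤ A ^ k := by
  have hA0 : 0 ≤ A := (l1_nonneg P).trans hA
  induction k with
  | zero => rw [pow_zero, pow_zero, l1_one]
  | succ k ih =>
    rw [pow_succ, pow_succ]
    exact (l1_mul _ _).trans (mul_le_mul ih hA (l1_nonneg _) (pow_nonneg hA0 _))

lemma l1_X (i : I) : l1 (MvPolynomial.X i : MvPolynomial I ℤ) = 1 := by
  have : (MvPolynomial.X i : MvPolynomial I ℤ) = MvPolynomial.monomial (Finsupp.single i 1) 1 := rfl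
  rw [this, l1_monomial]
  simp

lemma l1_mo (e : I × Bool → ℕ) : l1 (mo e) ≤ 2 ^ (∑ r, e r) := by
  have h1 : ∀ i : I, l1 (MvPolynomial.X i ^ e (i, false) * (1 - MvPolynomial.X i) ^ e (i, true) :
      MvPolynomial I ℤ) ≤ 2 ^ (e (i, false) + e (i, true)) := by
    intro i
    refine (l1_mul _ _).trans ?_
    rw [pow_add]
    apply mul_le_mul _ _ (l1_nonneg _) (by positivity)
    · exact l1_pow_le _ (by rw [l1_X]; norm_num) _
    · apply l1_pow_le
      have h2 : (1 - MvPolynomial.X i : MvPolynomial I ℤ) = 1 + (-1 : ℤ) • MvPolynomial.X i := by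
        rw [neg_one_zsmul, sub_eq_add_neg]
      rw [h2]
      refine (l1_add _ _).trans ?_
      rw [l1_one]
      have h3 : l1 ((-1 : ℤ) • MvPolynomial.X i : MvPolynomial I ℤ) ≤ 1 := by
        have : ((-1 : ℤ) • MvPolynomial.X i : MvPolynomial I ℤ) =
            MvPolynomial.monomial (Finsupp.single i 1) (-1) := by
          rw [MvPolynomial.X, MvPolynomial.smul_monomial]
          rfl
        rw [this, l1_monomial]
        simp
      linarith
  have h2 : ∀ s : Finset I, l1 (∏ i ∈ s, (MvPolynomial.X i ^ e (i, false) *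
      (1 - MvPolynomial.X i) ^ e (i, true) : MvPolynomial I ℤ)) ≤
      2 ^ (∑ i ∈ s, (e (i, false) + e (i, true))) := by
    intro s
    induction s using Finset.induction_on with
    | empty => rw [Finset.prod_empty, Finset.sum_empty, pow_zero, l1_one]
    | insert i s hi ih =>
      rw [Finset.prod_insert hi, Finset.sum_insert hi, pow_add]
      exact (l1_mul _ _).trans (mul_le_mul (h1 i) ih (l1_nonneg _) (by positivity))
  refine (h2 Finset.univ).trans (le_of_eq ?_)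
  congr 1
  rw [Fintype.sum_prod_type]
  refine Finset.sum_congr rfl fun i _ => ?_
  rw [Fintype.sum_bool, add_comm]

lemma l1_zsmul_le (c : ℤ) (P : MvPolynomial I ℤ) : l1 (c • P) ≤ |(c : ℝ)| * l1 P := by
  have h : (c • P) = MvPolynomial.monomial 0 c * P := by
    rw [zsmul_eq_mul]
    congr 1
  rw [h]
  refine (l1_mul _ _).trans (le_of_eq ?_)
  rw [l1_monomial]

lemma l1_comb_le {ι : Type} [Fintype ι] (c : ι → ℤ) (P : ι → MvPolynomial I ℤ) {A B : ℝ}
    (hA : ∀ m, |(c m : ℝ)| ≤ A) (hB : ∀ m, l1 (P m) ≤ B) (hA0 : 0 ≤ A) :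
    l1 (∑ m, c m • P m) ≤ Fintype.card ι * (A * B) := by
  refine (l1_sum _ _).trans ?_
  calc ∑ m, l1 (c m • P m) ≤ ∑ _m : ι, A * B := by
        apply Finset.sum_le_sum
        intro m _
        refine (l1_zsmul_le _ _).trans ?_
        exact mul_le_mul (hA m) (hB m) (l1_nonneg _) hA0
    _ = _ := by rw [Finset.sum_const, Finset.card_univ, nsmul_eq_mul]

lemma degreeOf_zcomb_le {ι : Type} [Fintype ι] (c : ι → ℤ) (P : ι → MvPolynomial I ℤ) {M : ℕ}
    (i : I) (h : ∀ m, MvPolynomial.degreeOf i (P m) ≤ M) :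
    MvPolynomial.degreeOf i (∑ m, c m • P m) ≤ M := by
  refine (MvPolynomial.degreeOf_sum_le _ _ _).trans ?_
  apply Finset.sup_le
  intro m _
  rw [zsmul_eq_mul]
  have : ((c m : ℤ) : MvPolynomial I ℤ) = MvPolynomial.C (c m) := by simp
  rw [this]
  exact (MvPolynomial.degreeOf_C_mul_le _ _ _).trans (h m)

lemma eq_zero_of_bx {p : MvPolynomial I ℤ} {M : I → ℕ}
    (hdeg : ∀ i, MvPolynomial.degreeOf i p < M i)
    (h : ∀ α ∈ bx M, MvPolynomial.coeff α p = 0) : p = 0 := by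
  by_contra hp
  obtain ⟨α, hα⟩ := Finset.nonempty_of_ne_empty (mt MvPolynomial.support_eq_empty.1 hp)
  refine (MvPolynomial.mem_support_iff.1 hα) (h α (mem_bx.2 fun i => ?_))
  exact (MvPolynomial.monomial_le_degreeOf i hα).trans_lt (hdeg i)

/-- **Weighted version of LC.** -/
theorem WLC (hSS : S_S) (hST : S_T) (I : Type) [Fintype I] [DecidableEq I] [Nonempty I] {d : ℕ}
    (ξ : I × Bool → Fin d → ℝ) (hrk : rk ξ Finset.univ ≤ Fintype.card I)
    (hT : ∀ T : Finset I, T.Nonempty → T ≠ Finset.univ → T.card + 1 ≤ rk ξ T) {κ0 : ℝ}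
    (hκ0 : 0 < κ0) :
    ∃ C δ η : ℝ, 1 ≤ C ∧ 0 < δ ∧ 0 < η ∧
      ∀ (K : Type) [Field K] [NumberField K] (u : I → K), (∀ i, u i ≠ 0) → (∀ i, 1 - u i ≠ 0) →
      ∀ (H : I → ℝ) (i1 : I), (∀ i, H i ≤ H i1) → (∀ i, C ≤ H i) →
      ∀ (t : AbsoluteValue K ℝ → Fin d → ℝ) (err : AbsoluteValue K ℝ → ℝ),
      NearW u ξ H t err η → (∀ i, logHeight₁ (u i) ≤ finrank ℚ K * H i) →
      finrank ℚ K * (κ0 * H i1) ≤ logHeight₁ (u i1) →
      ∃ F : MvPolynomial I ℤ, F ≠ 0 ∧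
        (∀ i, (MvPolynomial.degreeOf i F : ℝ) ≤ C * (H i1 / H i)) ∧
        log (l1 F) ≤ C * ∑ i, H i1 / H i ∧
        ∀ κ : I →₀ ℕ, (∀ i, (κ i : ℝ) ≤ δ * (H i1 / H i)) → tc u F κ = 0 := by
  classical
  obtain ⟨b, a, ha, hab⟩ := section_LC ξ hrk hT
  obtain ⟨β, hβ⟩ := exists_beta a
  set N : ℝ := (Fintype.card (I × Bool) : ℝ) with hN
  have hN0 : 0 ≤ N := Nat.cast_nonneg _
  set q := Fintype.card I with hq
  have hq0 : 0 < q := Fintype.card_pos
  have hqr : (0 : ℝ) < q := by exact_mod_cast hq0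
  obtain ⟨j, hj⟩ := exists_nat_ge ((4 * N + 4) / κ0)
  have hjκ : 4 * N + 4 ≤ j * κ0 := by
    rw [div_le_iff₀ hκ0] at hj
    exact hj
  set g : ℕ := 2 * (4 * β + 1) with hg
  set τ : ℕ := 2 * g ^ q with hτ
  set n : ℕ := τ * j + 5 with hn
  have hnr : (5 : ℝ) ≤ n := by
    have : 5 ≤ n := by omega
    exact_mod_cast this
  set Y : ℝ := β * n with hY
  have hY0 : 0 ≤ Y := by positivity
  set η : ℝ := 1 / (N * Y + 1) with hη
  have hη0 : 0 < η := by positivity
  have hη1 : N * Y * η ≤ 1 := by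
    rw [hη, mul_one_div, div_le_one (by positivity)]
    linarith
  set δ : ℝ := 1 / (8 * q) with hδ
  have hδ0 : 0 < δ := by positivity
  -- the constants for the sizes
  set C1 : ℝ := 4 * n * β + 4 with hC1
  set C2 : ℝ := τ + 1 + n with hC2
  set C3 : ℝ := 2 * C2 + 2 * C1 + (τ * j : ℕ) + 1 with hC3
  have hC10 : 0 ≤ C1 := by positivity
  have hC20 : 0 ≤ C2 := by positivity
  have hC3' : 1 ≤ C3 := by
    have : (0 : ℝ) ≤ ((τ * j : ℕ) : ℝ) := Nat.cast_nonneg _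
    linarith
  set C : ℝ := C3 * q + 1 with hC
  have hC31 : C3 ≤ C := by
    have : (1 : ℝ) ≤ q := by exact_mod_cast hq0
    nlinarith
  refine ⟨C, δ, η, by nlinarith, hδ0, hη0, ?_⟩
  intro K _ _ u hu0 hu1 H i1 hHH hHC t err hnear hht hκh
  have hDpos : (0 : ℝ) < finrank ℚ K := by exact_mod_cast finrank_pos
  have hH1 : ∀ i, 1 ≤ H i := fun i => by
    have := hHC i
    nlinarith
  have hHpos : ∀ i, 0 < H i := fun i => by linarith [hH1 i]
  set H0 : ℝ := H i1 with hH0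
  have hH00 : 0 ≤ H0 := (hHpos i1).le
  set ρ : I → ℝ := fun i => H0 / H i with hρdef
  have hρ1 : ∀ i, 1 ≤ ρ i := fun i => by
    show 1 ≤ H0 / H i
    rw [le_div_iff₀ (hHpos i), one_mul]
    exact hHH i
  have hρpos : ∀ i, 0 < ρ i := fun i => by linarith [hρ1 i]
  set R : ℝ := ∑ i, ρ i with hR
  have hRρ : ∀ i, ρ i ≤ R := fun i =>
    Finset.single_le_sum (f := ρ) (fun i _ => (hρpos i).le) (Finset.mem_univ i)
  have hR1 : 1 ≤ R := (hρ1 i1).trans (hRρ i1)
  let nf : I → ℕ := fun i => n * ⌊ρ i⌋₊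
  have hfl1 : ∀ i, 1 ≤ ⌊ρ i⌋₊ := fun i => by
    rw [Nat.one_le_floor_iff]
    exact hρ1 i
  have hfl2 : ∀ i, ρ i ≤ 2 * (⌊ρ i⌋₊ : ℝ) := fun i => by
    have h1 := Nat.lt_floor_add_one (ρ i)
    have h2 : (1 : ℝ) ≤ (⌊ρ i⌋₊ : ℝ) := by exact_mod_cast hfl1 i
    linarith
  have hnf : ∀ i, (nf i : ℝ) ≤ n * ρ i := fun i => by
    show ((n * ⌊ρ i⌋₊ : ℕ) : ℝ) ≤ n * ρ i
    push_cast
    exact mul_le_mul_of_nonneg_left (Nat.floor_le (hρpos i).le) (Nat.cast_nonneg _)
  have hnf0 : ∀ i, 0 < nf i := fun i => Nat.mul_pos (by omega) (hfl1 i)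
  let s : I → ℕ := fun i => ⌈ρ i * Y⌉₊
  have hs1 : ∀ i, ρ i * Y ≤ s i := fun i => Nat.le_ceil _
  have hs2 : ∀ i, (s i : ℝ) ≤ ρ i * Y + 1 := fun i =>
    (Nat.ceil_lt_add_one (mul_nonneg (hρpos i).le hY0)).le
  have hxle : ∀ (μ : ∀ i, Fin (nf i)) r, |xw a ρ μ r| ≤ Y := fun μ r =>
    xw_le hρpos hnf μ (Nat.cast_nonneg _) (hβ r)
  have hs : ∀ (μ : ∀ i, Fin (nf i)) r, |ρ r.1 * xw a ρ μ r| ≤ s r.1 := by
    intro μ r
    rw [abs_mul, abs_of_pos (hρpos _)]
    exact (mul_le_mul_of_nonneg_left (hxle μ r) (hρpos _).le).trans (hs1 _)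
  let E : (∀ i, Fin (nf i)) → I × Bool → ℕ := fun μ => ew a ρ s μ
  let Δ : ℕ := ∑ i, 4 * s i
  have hΔ : ∀ μ, ∑ r, E μ r ≤ Δ := by
    intro μ
    rw [Fintype.sum_prod_type]
    apply Finset.sum_le_sum
    intro i _
    rw [Fintype.sum_bool]
    have h1 : E μ (i, true) ≤ 2 * s i := ew_le μ (hs μ (i, true))
    have h2 : E μ (i, false) ≤ 2 * s i := ew_le μ (hs μ (i, false))
    omega
  have hΔr : (Δ : ℝ) ≤ C1 * R := by
    show ((∑ i, 4 * s i : ℕ) : ℝ) ≤ _
    push_cast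
    rw [hR, Finset.mul_sum]
    apply Finset.sum_le_sum
    intro i _
    have h1 := hs2 i
    have h2 := hρ1 i
    rw [hC1]
    have h3 : 4 * (s i : ℝ) ≤ 4 * (ρ i * Y + 1) := by linarith
    rw [hY] at h3
    nlinarith
  let M : I → ℕ := fun i => nf i * g
  let ι : Type := Fin (τ + 1) × (∀ i, Fin (nf i))
  let P : ι → MvPolynomial I ℤ := fun x => mo (E x.2) * MvPolynomial.X i1 ^ ((x.1 : ℕ) * j)
  have hcardι : Fintype.card ι = (τ + 1) * ∏ i, nf i := by
    show Fintype.card (Fin (τ + 1) × (∀ i, Fin (nf i))) = _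
    rw [Fintype.card_prod, Fintype.card_fin, Fintype.card_pi]
    simp
  have hprodM : ∏ i, M i = g ^ q * ∏ i, nf i := by
    show ∏ i, nf i * g = _
    rw [Finset.prod_mul_distrib, Finset.prod_const, Finset.card_univ, mul_comm]
  have hprodpos : 0 < ∏ i, nf i := Finset.prod_pos fun i _ => hnf0 i
  have hSc : 2 * (bx M).card < Fintype.card ι := by
    have h1 := card_bx_le M
    rw [hprodM] at h1
    rw [hcardι]
    calc 2 * (bx M).card ≤ 2 * (g ^ q * ∏ i, nf i) := Nat.mul_le_mul_left _ h1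
      _ = τ * ∏ i, nf i := by rw [hτ]; ring
      _ < (τ + 1) * ∏ i, nf i := Nat.mul_lt_mul_of_pos_right (Nat.lt_succ_self τ) hprodpos
  have hPl1 : ∀ x, l1 (P x) ≤ 2 ^ Δ := by
    intro x
    refine (l1_mul _ _).trans ?_
    have h1 : l1 (mo (E x.2)) ≤ 2 ^ Δ :=
      (l1_mo _).trans (pow_le_pow_right₀ one_le_two (hΔ x.2))
    have h2 : l1 (MvPolynomial.X i1 ^ ((x.1 : ℕ) * j) : MvPolynomial I ℤ) ≤ 1 := by
      refine (l1_pow_le _ (le_of_eq (l1_X i1)) _).trans ?_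
      rw [one_pow]
    calc l1 (mo (E x.2)) * l1 (MvPolynomial.X i1 ^ ((x.1 : ℕ) * j) : MvPolynomial I ℤ) ≤
          2 ^ Δ * 1 := mul_le_mul h1 h2 (l1_nonneg _) (by positivity)
      _ = _ := mul_one _
  obtain ⟨c, hc0, hc, hcle⟩ := hSS I ι P (bx M) (2 ^ Δ) 1 (one_le_pow₀ one_le_two)
    (fun m α => (coeff_le_l1 _ _).trans (hPl1 m)) (by omega) (by omega)
  rw [pow_one] at hcle
  have hdegE : ∀ μ i, MvPolynomial.degreeOf i (mo (E μ)) ≤ 4 * s i := by
    intro μ i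
    refine (degreeOf_mo _ i).trans ?_
    have h1 : E μ (i, true) ≤ 2 * s i := ew_le μ (hs μ (i, true))
    have h2 : E μ (i, false) ≤ 2 * s i := ew_le μ (hs μ (i, false))
    omega
  have hM : ∀ i, 4 * s i + τ * j < M i := by
    intro i
    have h1 := hs2 i
    have h2 := hfl2 i
    have h3 := hρ1 i
    have h4 : ((4 * s i + τ * j : ℕ) : ℝ) < ((nf i * g : ℕ) : ℝ) := by
      show ((4 * s i + τ * j : ℕ) : ℝ) < ((n * ⌊ρ i⌋₊ * g : ℕ) : ℝ)
      have hnn : (n : ℝ) = ((τ * j : ℕ) : ℝ) + 5 := by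
        rw [hn]
        push_cast
        ring
      have hτj : (0 : ℝ) ≤ ((τ * j : ℕ) : ℝ) := Nat.cast_nonneg _
      have h5 : ((4 * s i + τ * j : ℕ) : ℝ) ≤ 4 * (ρ i * (β * n) + 1) + ((τ * j : ℕ) : ℝ) := by
        push_cast
        rw [hY] at h1
        linarith
      have h6 : 4 * (ρ i * (β * n) + 1) + ((τ * j : ℕ) : ℝ) < ρ i * n * (4 * β + 1) := by
        have h7 : (n : ℝ) ≤ ρ i * n := by nlinarith
        nlinarith
      have h7 : ρ i * n * (4 * β + 1) ≤ 2 * (⌊ρ i⌋₊ : ℝ) * n * (4 * β + 1) := by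
        have : (0 : ℝ) ≤ n * (4 * β + 1) := by positivity
        nlinarith
      have h8 : ((n * ⌊ρ i⌋₊ * g : ℕ) : ℝ) = 2 * (⌊ρ i⌋₊ : ℝ) * n * (4 * β + 1) := by
        rw [hg]
        push_cast
        ring
      rw [h8]
      linarith
    exact_mod_cast h4
  have hdeg : ∀ i, MvPolynomial.degreeOf i (∑ x, c x • P x) < M i := by
    intro i
    refine lt_of_le_of_lt (degreeOf_zcomb_le c P i (M := 4 * s i + τ * j) ?_) (hM i)
    intro x
    refine (MvPolynomial.degreeOf_mul_le _ _ _).trans (add_le_add (hdegE x.2 i) ?_)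
    refine (MvPolynomial.degreeOf_pow_le _ _ _).trans ?_
    rw [MvPolynomial.degreeOf_X]
    have h3 : (x.1 : ℕ) * j ≤ τ * j := Nat.mul_le_mul_right _ (by have := x.1.2; omega)
    split_ifs
    · rw [mul_one]
      exact h3
    · rw [mul_zero]
      exact Nat.zero_le _
  have h0 := eq_zero_of_bx hdeg hc
  let ct : Fin (τ + 1) → (∀ i, Fin (nf i)) → ℤ := fun t m => c (t, m)
  let F : Fin (τ + 1) → MvPolynomial I ℤ := fun t => ∑ m, ct t m • mo (E m)
  have hid : ∑ t, F t * MvPolynomial.X i1 ^ ((t : ℕ) * j) = 0 := by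
    rw [← h0]
    show _ = ∑ x : Fin (τ + 1) × (∀ i, Fin (nf i)), c x • P x
    rw [Fintype.sum_prod_type]
    refine Finset.sum_congr rfl fun t _ => ?_
    show (∑ m, ct t m • mo (E m)) * _ = _
    rw [Finset.sum_mul]
    refine Finset.sum_congr rfl fun m _ => ?_
    show _ = c (t, m) • (_ * _)
    rw [smul_mul_assoc]
  have hex : (Finset.univ.filter fun t => F t ≠ 0).Nonempty := by
    by_contra h0
    rw [Finset.not_nonempty_iff_eq_empty, Finset.filter_eq_empty_iff] at h0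
    apply hc0
    funext x
    have h1 : F x.1 = 0 := by
      by_contra h
      exact h0 (Finset.mem_univ x.1) h
    exact congrFun (mo_indep _ b (ew_inj hab hρpos hs) (ct x.1) h1) x.2
  set t0 := (Finset.univ.filter fun t => F t ≠ 0).min' hex with ht0
  have ht0F : F t0 ≠ 0 := (Finset.mem_filter.1 (Finset.min'_mem _ hex)).2
  have hmin : ∀ t < t0, F t = 0 := by
    intro t ht
    by_contra h
    exact absurd (Finset.min'_le _ t (Finset.mem_filter.2 ⟨Finset.mem_univ _, h⟩)) (not_le.2 ht)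
  have hpoly : F t0 = -∑ t ∈ Finset.univ.filter (fun t => t0 < t),
      F t * MvPolynomial.X i1 ^ (((t : ℕ) - t0) * j) := by
    have h2 : ∑ t, F t * MvPolynomial.X i1 ^ ((t : ℕ) * j) =
        (F t0 + ∑ t ∈ Finset.univ.filter (fun t => t0 < t),
          F t * MvPolynomial.X i1 ^ (((t : ℕ) - t0) * j)) *
            MvPolynomial.X i1 ^ ((t0 : ℕ) * j) := by
      rw [← Finset.sum_filter_add_sum_filter_not Finset.univ (fun t => t0 < t), add_comm, add_mul]
      congr 1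
      · rw [Finset.sum_eq_single t0]
        · intro t ht htt
          rw [Finset.mem_filter] at ht
          have : t < t0 := lt_of_le_of_ne (not_lt.1 ht.2) htt
          rw [hmin t this, zero_mul]
        · intro h
          exact absurd (Finset.mem_filter.2 ⟨Finset.mem_univ t0, lt_irrefl t0⟩) h
      · rw [Finset.sum_mul]
        refine Finset.sum_congr rfl fun t ht => ?_
        have ht' : (t0 : ℕ) < t := (Finset.mem_filter.1 ht).2
        rw [mul_assoc, ← pow_add, ← add_mul, Nat.sub_add_cancel ht'.le]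
    rw [h2] at hid
    rcases mul_eq_zero.1 hid with h3 | h3
    · exact eq_neg_of_add_eq_zero_left h3
    · exact absurd h3 (pow_ne_zero _ (MvPolynomial.X_ne_zero _))
  -- sizes
  have hcard1 : (1 : ℝ) ≤ Fintype.card ι := by
    have : 1 ≤ Fintype.card ι := by omega
    exact_mod_cast this
  have hlogcard : log (Fintype.card ι) ≤ C2 * R := by
    have h1 : ∀ x : ℕ, 0 < x → log (x : ℝ) ≤ x := fun x hx =>
      (Real.log_le_sub_one_of_pos (by exact_mod_cast hx)).trans (by linarith)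
    rw [hcardι, Nat.cast_mul, Nat.cast_prod, Real.log_mul (by positivity)
      (Finset.prod_ne_zero_iff.2 fun i _ => by exact_mod_cast (hnf0 i).ne'),
      Real.log_prod (fun i _ => by exact_mod_cast (hnf0 i).ne')]
    have h2 : log ((τ + 1 : ℕ) : ℝ) ≤ (τ + 1) * R := by
      have h3 := h1 (τ + 1) (Nat.succ_pos _)
      have h4 : ((τ + 1 : ℕ) : ℝ) = (τ : ℝ) + 1 := by push_cast; ring
      rw [h4] at h3 ⊢
      nlinarith [Nat.cast_nonneg (α := ℝ) τ]
    have h3 : ∑ i, log (nf i : ℝ) ≤ n * R := by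
      rw [hR, Finset.mul_sum]
      exact Finset.sum_le_sum fun i _ => (h1 _ (hnf0 i)).trans (hnf i)
    rw [hC2]
    linarith
  have hcle' : ∀ x, |(c x : ℝ)| ≤ Fintype.card ι * 2 ^ Δ := hcle
  have hl2 : log (2 : ℝ) < 1 := by linarith [Real.log_two_lt_d9]
  have hl20 : 0 < log (2 : ℝ) := Real.log_pos one_lt_two
  refine ⟨F t0, ht0F, ?_, ?_, ?_⟩
  · intro i
    have h1 : MvPolynomial.degreeOf i (F t0) ≤ 4 * s i :=
      degreeOf_zcomb_le _ _ i (fun μ => hdegE μ i)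
    have h2 : (MvPolynomial.degreeOf i (F t0) : ℝ) ≤ 4 * s i := by exact_mod_cast h1
    have h3 := hs2 i
    have h4 := hρ1 i
    show _ ≤ C * ρ i
    have h5 : 4 * (s i : ℝ) ≤ C1 * ρ i := by
      rw [hC1]
      rw [hY] at h3
      nlinarith
    have h6 : C1 * ρ i ≤ C * ρ i := by
      apply mul_le_mul_of_nonneg_right _ (hρpos i).le
      have : (0 : ℝ) ≤ ((τ * j : ℕ) : ℝ) := Nat.cast_nonneg _
      linarith
    linarith
  · have h1 : l1 (F t0) ≤ Fintype.card ι * ((Fintype.card ι * 2 ^ Δ) * 2 ^ Δ) := by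
      have h2 : l1 (F t0) ≤ Fintype.card (∀ i, Fin (nf i)) * ((Fintype.card ι * 2 ^ Δ) * 2 ^ Δ) :=
        l1_comb_le _ _ (fun μ => hcle' (t0, μ))
          (fun μ => (l1_mo _).trans (pow_le_pow_right₀ one_le_two (hΔ μ))) (by positivity)
      refine h2.trans (mul_le_mul_of_nonneg_right ?_ (by positivity))
      have : Fintype.card (∀ i, Fin (nf i)) ≤ Fintype.card ι := by
        show _ ≤ Fintype.card (Fin (τ + 1) × (∀ i, Fin (nf i)))
        rw [Fintype.card_prod, Fintype.card_fin]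
        exact Nat.le_mul_of_pos_left _ (Nat.succ_pos _)
      exact_mod_cast this
    have hl1pos : 0 < l1 (F t0) := by
      obtain ⟨α, hα⟩ := Finset.nonempty_of_ne_empty (mt MvPolynomial.support_eq_empty.1 ht0F)
      have h3 := coeff_le_l1 (F t0) α
      have h4 : (1 : ℝ) ≤ |((MvPolynomial.coeff α (F t0) : ℤ) : ℝ)| := by
        have h5 : 1 ≤ |MvPolynomial.coeff α (F t0)| :=
          Int.one_le_abs (MvPolynomial.mem_support_iff.1 hα)
        exact_mod_cast h5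
      linarith
    have h2 := Real.log_le_log hl1pos h1
    rw [Real.log_mul (by positivity) (by positivity), Real.log_mul (by positivity) (by positivity),
      Real.log_mul (by positivity) (by positivity), Real.log_pow] at h2
    show _ ≤ C * R
    have h3 : (Δ : ℝ) * log 2 ≤ C1 * R := by
      have : (0 : ℝ) ≤ Δ := Nat.cast_nonneg _
      nlinarith
    have h4 : 2 * C2 * R + 2 * C1 * R ≤ C * R := by
      have h5 : 2 * C2 + 2 * C1 ≤ C := by
        have : (0 : ℝ) ≤ ((τ * j : ℕ) : ℝ) := Nat.cast_nonneg _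
        linarith
      nlinarith
    linarith
  · intro κ hκ
    by_contra hz
    have hid2 : tc u (∑ m, ct t0 m • mo (E m)) κ = -∑ t ∈ Finset.univ.filter (fun t => t0 < t),
        tc u ((∑ m, ct t m • mo (E m)) * MvPolynomial.X i1 ^ (((t : ℕ) - t0) * j)) κ := by
      have h1 : tc u (F t0) κ = tc u (-∑ t ∈ Finset.univ.filter (fun t => t0 < t),
          F t * MvPolynomial.X i1 ^ (((t : ℕ) - t0) * j)) κ := by
        rw [← hpoly]
      have h2 := tc_sum (Finset.univ.filter (fun t => t0 < t)) u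
        (fun t => F t * MvPolynomial.X i1 ^ (((t : ℕ) - t0) * j)) κ
      rw [tc_neg, h2] at h1
      exact h1
    have hE : ∀ μ r, (E μ r : ℝ) = ⌊H0 / H r.1 * xw a ρ μ r⌋ + s r.1 := fun μ r =>
      ew_cast μ (hs μ r)
    have hPF := PF hST hu0 hu1 hHpos hHH hH00 hnear hht (fun μ => xw a ρ μ)
      (fun μ => xw_mem ha ρ μ) hY0 hxle (fun r => s r.1) E hE hΔ ct t0 i1 κ hid2 hz
    have hCt : ∑ t, ∑ m, |(ct t m : ℝ)| + 1 ≤ 2 * (Fintype.card ι * (Fintype.card ι * 2 ^ Δ)) := by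
      have h1 : ∑ t, ∑ m, |(ct t m : ℝ)| ≤ Fintype.card ι * (Fintype.card ι * 2 ^ Δ) := by
        have h2 : ∑ t, ∑ m, |(ct t m : ℝ)| = ∑ x : ι, |(c x : ℝ)| := by
          show _ = ∑ x : Fin (τ + 1) × (∀ i, Fin (nf i)), |(c x : ℝ)|
          rw [Fintype.sum_prod_type]
        rw [h2]
        calc ∑ x : ι, |(c x : ℝ)| ≤ ∑ _x : ι, (Fintype.card ι : ℝ) * 2 ^ Δ :=
              Finset.sum_le_sum fun x _ => hcle' x
          _ = _ := by rw [Finset.sum_const, Finset.card_univ, nsmul_eq_mul]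
      have h2 : (1 : ℝ) ≤ Fintype.card ι * (Fintype.card ι * 2 ^ Δ) := by
        have h3 : (1 : ℝ) ≤ 2 ^ Δ := one_le_pow₀ one_le_two
        have h4 : (1 : ℝ) ≤ Fintype.card ι * 2 ^ Δ := by nlinarith
        nlinarith
      linarith
    have hCt0 : 0 < ∑ t, ∑ m, |(ct t m : ℝ)| + 1 := by
      have : 0 ≤ ∑ t, ∑ m, |(ct t m : ℝ)| :=
        Finset.sum_nonneg fun _ _ => Finset.sum_nonneg fun _ _ => abs_nonneg _
      linarith
    have hlogCt : log (∑ t, ∑ m, |(ct t m : ℝ)| + 1) ≤ log 2 + 2 * (C2 * R) + Δ * log 2 := by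
      have h1 := Real.log_le_log hCt0 hCt
      rw [Real.log_mul (by positivity) (by positivity), Real.log_mul (by positivity)
        (by positivity), Real.log_mul (by positivity) (by positivity), Real.log_pow] at h1
      linarith
    have hκsum : ∑ i, (κ i : ℝ) * (4 * (H i + 1)) ≤ H0 := by
      have h1 : ∀ i, (κ i : ℝ) * (4 * (H i + 1)) ≤ H0 / q := by
        intro i
        have h2 := hκ i
        have h3 : (κ i : ℝ) * (4 * (H i + 1)) ≤ (δ * (H0 / H i)) * (8 * H i) := by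
          apply mul_le_mul h2 _ (by have := hHpos i; positivity)
            (by have := hHpos i; positivity)
          have := hH1 i
          linarith
        have h4 : (δ * (H0 / H i)) * (8 * H i) = H0 / q := by
          rw [hδ]
          have := (hHpos i).ne'
          field_simp
        linarith
      refine (Finset.sum_le_sum fun i _ => h1 i).trans (le_of_eq ?_)
      rw [Finset.sum_const, Finset.card_univ, nsmul_eq_mul, ← hq]
      field_simp
    have hRH : C3 * R ≤ H0 := by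
      have h1 : ∀ i, ρ i ≤ H0 / (C3 * q) := by
        intro i
        show H0 / H i ≤ _
        apply div_le_div_of_nonneg_left hH00 (by positivity)
        have := hHC i
        linarith
      have h2 : R ≤ q * (H0 / (C3 * q)) := by
        refine (Finset.sum_le_sum fun i _ => h1 i).trans (le_of_eq ?_)
        rw [Finset.sum_const, Finset.card_univ, nsmul_eq_mul]
      have h3 : C3 * R ≤ C3 * (q * (H0 / (C3 * q))) :=
        mul_le_mul_of_nonneg_left h2 (by linarith)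
      have h4 : C3 * (q * (H0 / (C3 * q))) = H0 := by
        have : C3 ≠ 0 := by linarith
        field_simp
      linarith
    have h1 : (j : ℝ) * (finrank ℚ K * (κ0 * H0)) ≤ j * logHeight₁ (u i1) :=
      mul_le_mul_of_nonneg_left hκh (Nat.cast_nonneg _)
    have h2 : N * Y * (H0 * η) ≤ H0 := by
      have : N * Y * (H0 * η) = (N * Y * η) * H0 := by ring
      rw [this]
      nlinarith
    have h3 : ((Δ + τ * j : ℕ) : ℝ) * log 2 ≤ C1 * R + ((τ * j : ℕ) : ℝ) * R := by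
      have h4 : ((Δ + τ * j : ℕ) : ℝ) ≤ C1 * R + ((τ * j : ℕ) : ℝ) * R := by
        rw [Nat.cast_add]
        have : (0 : ℝ) ≤ ((τ * j : ℕ) : ℝ) := Nat.cast_nonneg _
        nlinarith
      have h5 : (0 : ℝ) ≤ ((Δ + τ * j : ℕ) : ℝ) := Nat.cast_nonneg _
      nlinarith
    have h4 : (Δ : ℝ) * log 2 ≤ C1 * R := by
      have : (0 : ℝ) ≤ Δ := Nat.cast_nonneg _
      nlinarith
    have h5 : log (∑ t, ∑ m, |(ct t m : ℝ)| + 1) + ((Δ + τ * j : ℕ) : ℝ) * log 2 ≤ C3 * R := by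
      have h6 : C3 * R = 2 * (C2 * R) + 2 * (C1 * R) + ((τ * j : ℕ) : ℝ) * R + R := by
        rw [hC3]
        ring
      rw [h6]
      linarith
    have hH01 : 1 ≤ H0 := hH1 i1
    have h6 : log (∑ t, ∑ m, |(ct t m : ℝ)| + 1) + ((Δ + τ * j : ℕ) : ℝ) * log 2 +
        N * (2 * (H0 + 1)) + N * Y * (H0 * η) + ∑ i, (κ i : ℝ) * (4 * (H i + 1)) ≤
        (4 * N + 3) * H0 := by
      have : N * (2 * (H0 + 1)) ≤ 4 * N * H0 := by nlinarith
      linarith
    have h7 := mul_le_mul_of_nonneg_left h6 hDpos.le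
    have h8 : (4 * N + 4) * H0 ≤ j * κ0 * H0 := mul_le_mul_of_nonneg_right hjκ hH00
    have h9 : (finrank ℚ K : ℝ) * ((4 * N + 4) * H0) ≤ j * (finrank ℚ K * (κ0 * H0)) := by
      have : (j : ℝ) * (finrank ℚ K * (κ0 * H0)) = finrank ℚ K * (j * κ0 * H0) := by ring
      rw [this]
      exact mul_le_mul_of_nonneg_left h8 hDpos.le
    have h10 : (finrank ℚ K : ℝ) * ((4 * N + 4) * H0) ≤ finrank ℚ K * ((4 * N + 3) * H0) := by
      linarith
    have h11 := le_of_mul_le_mul_left h10 hDpos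
    nlinarith

end Pool.Agent.H883.ZR
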