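import Pool.Agent.H883.ZR.Base2
import Pool.Agent.H883.ZR.WLC
import Pool.Agent.H883.ZQ.Sector

set_option autoImplicit false
set_option linter.unusedSectionVars false

/-!
# Heights of different sizes: statements
-/

namespace Pool.Agent.H883.ZR

open Real NumberField Height Module Finset MvPolynomial
open Pool.Agent.H489ZP
open Pool.Agent.H393R2.RothNS (TT DD l1)
open Pool.Agent.H883.ZQ
open Pool.Agent.H883.ZP (Codim)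

/-- lacunary heights: all are at least `B`, and so are the quotients of different ones -/
def Lac {I : Type} (B : ℝ) (H : I → ℝ) : Prop :=
  (∀ i, B ≤ H i) ∧ ∀ i j, i ≠ j → B * H i ≤ H j ∨ B * H j ≤ H i

/-- **SIT.** Polynomials vanishing to a high order at a point with lacunary heights do not exist. -/
def S_IT : Prop :=
  ∀ (I : Type) [Fintype I] [DecidableEq I] (C δ κ0 : ℝ), 0 < C → 0 < δ → 0 < κ0 → ∃ B : ℝ,
    ∀ (K : Type) [Field K] [NumberField K] (u : I → K) (H : I → ℝ) (i1 : I), (∀ i, H i ≤ H i1) →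
      Lac B H → (∀ i, finrank ℚ K * (κ0 * H i) ≤ logHeight₁ (u i)) →
      ∀ F : MvPolynomial I ℤ, F ≠ 0 → (∀ i, (degreeOf i F : ℝ) ≤ C * (H i1 / H i)) →
        log (l1 F) ≤ C * ∑ i, H i1 / H i →
        ¬ ∀ κ : I →₀ ℕ, (∀ i, (κ i : ℝ) ≤ δ * (H i1 / H i)) → tc u F κ = 0

/-- **SIT21.** The same for one large height and two smaller equal ones. -/
def S_IT21 : Prop :=
  ∀ C δ κ0 : ℝ, 0 < C → 0 < δ → 0 < κ0 → ∃ (G : MvPolynomial (Fin 2) ℤ) (B : ℝ), G ≠ 0 ∧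
    ∀ (K : Type) [Field K] [NumberField K] (u : Fin 2 ⊕ Fin 1 → K) (H0 H1 : ℝ), B ≤ H1 →
      B * H1 ≤ H0 → (∀ i, finrank ℚ K * (κ0 * H1) ≤ logHeight₁ (u (Sum.inl i))) →
      finrank ℚ K * (κ0 * H0) ≤ logHeight₁ (u (Sum.inr 0)) →
      ∀ F : MvPolynomial (Fin 2 ⊕ Fin 1) ℤ, F ≠ 0 →
        (∀ i, (degreeOf (Sum.inl i) F : ℝ) ≤ C * (H0 / H1)) →
        (degreeOf (Sum.inr 0) F : ℝ) ≤ C → log (l1 F) ≤ C * (H0 / H1) →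
        (∀ κ : Fin 2 ⊕ Fin 1 →₀ ℕ, κ (Sum.inr 0) = 0 →
          (∀ i, (κ (Sum.inl i) : ℝ) ≤ δ * (H0 / H1)) → tc u F κ = 0) →
        aeval (fun i => u (Sum.inl i)) G = 0

/-- **SCL.** Auxiliary polynomials on the product of a curve and a line. -/
def S_CL : Prop :=
  ∀ (D0 : ℕ) (ξ : (Fin 1 ⊕ Fin 2) × Bool → Fin 3 → ℝ) (e0 b : Bool) (q : Bool → ℝ)
    (a1 a2 : (Fin 1 ⊕ Fin 2) × Bool → ℝ), a1 ∈ rel ξ → a2 ∈ rel ξ →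
    a1 (Sum.inr 0, e0) + ∑ b', q b' * a1 (Sum.inr 1, b') = 1 → a1 (Sum.inl 0, b) = 0 →
    a2 (Sum.inr 0, e0) + ∑ b', q b' * a2 (Sum.inr 1, b') = 0 → a2 (Sum.inl 0, b) = 1 →
    ∀ κ0 C0 : ℝ, 0 < κ0 → 0 < C0 → ∃ C δ η : ℝ, 1 ≤ C ∧ 0 < δ ∧ 0 < η ∧
      ∀ (K : Type) [Field K] [NumberField K] (u : Fin 1 ⊕ Fin 2 → K), (∀ i, u i ≠ 0) →
      (∀ i, 1 - u i ≠ 0) → ∀ H0 H2 : ℝ, C ≤ H2 → H2 ≤ H0 →
      ∀ (t : AbsoluteValue K ℝ → Fin 3 → ℝ) (err : AbsoluteValue K ℝ → ℝ),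
      NearW u ξ (Sum.elim (fun _ => H2) (fun _ => H0)) t err η →
      logHeight₁ (u (Sum.inl 0)) ≤ finrank ℚ K * H2 →
      (∀ i, logHeight₁ (u (Sum.inr i)) ≤ finrank ℚ K * H0) →
      finrank ℚ K * (κ0 * H0) ≤ logHeight₁ (u (Sum.inr 0)) →
      ∀ g : MvPolynomial (Fin 2) ℤ, Irreducible g → (∀ i, 0 < degreeOf i g) →
        (∀ i, degreeOf i g ≤ D0) → log (l1 g) ≤ C0 * (H0 / H2) →
        aeval (fun i => u (Sum.inr i)) g = 0 →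
        (∀ (ι : Type) [Fintype ι] (E : ι → Fin 2 × Bool → ℕ) (c : ι → ℤ),
          Function.Injective (fun m => (E m (0, e0) : ℝ) + ∑ b', q b' * E m (1, b')) →
          g ∣ ∑ m, c m • mo (E m) → c = 0) →
        ∃ F : MvPolynomial (Fin 1 ⊕ Fin 2) ℤ, (∃ β, ¬ g ∣ cf F β) ∧
          (degreeOf (Sum.inl 0) F : ℝ) ≤ C * (H0 / H2) ∧
          (∀ i, (degreeOf (Sum.inr i) F : ℝ) ≤ C) ∧ log (l1 F) ≤ C * (H0 / H2) ∧
          ∀ κ : Fin 1 ⊕ Fin 2 →₀ ℕ, (∀ i, κ (Sum.inr i) = 0) →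
            (κ (Sum.inl 0) : ℝ) ≤ δ * (H0 / H2) → tc u F κ = 0

/-- **SP12.** Two large comparable coordinates and one smaller one. -/
def S_P12 : Prop :=
  ∀ ξ : (Fin 1 ⊕ Fin 2) × Bool → Fin 3 → ℝ, rk ξ Finset.univ = 3 →
    rk ξ {Sum.inr 0, Sum.inr 1} = 3 → rk ξ {Sum.inl 0} = 2 →
    (∀ T : Finset (Fin 1 ⊕ Fin 2), T.Nonempty → T ≠ Finset.univ → T.card + 1 ≤ rk ξ T) →
    ∀ κ0 : ℝ, 0 < κ0 → ∃ B η : ℝ, 0 < η ∧
      ∀ (K : Type) [Field K] [NumberField K] (u : Fin 1 ⊕ Fin 2 → K), (∀ i, u i ≠ 0) →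
      (∀ i, 1 - u i ≠ 0) → ∀ H0 H2 : ℝ, B ≤ H2 → B * H2 ≤ H0 →
      ∀ (t : AbsoluteValue K ℝ → Fin 3 → ℝ) (err : AbsoluteValue K ℝ → ℝ),
      NearW u ξ (Sum.elim (fun _ => H2) (fun _ => H0)) t err η →
      logHeight₁ (u (Sum.inl 0)) ≤ finrank ℚ K * H2 →
      finrank ℚ K * (κ0 * H2) ≤ logHeight₁ (u (Sum.inl 0)) →
      (∀ i, logHeight₁ (u (Sum.inr i)) ≤ finrank ℚ K * H0) →
      ¬ ∀ i, finrank ℚ K * (κ0 * H0) ≤ logHeight₁ (u (Sum.inr i))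

/-- **SAUX.** Auxiliary polynomials for bad patterns. -/
def S_AUX : Prop :=
  ∀ (I : Type) [Fintype I] [DecidableEq I] (d : ℕ) (ξ : I × Bool → Fin d → ℝ) (Q : Finset I),
    finrank ℝ (Submodule.span ℝ (ξ '' (R0 Q : Set (I × Bool)))) + 1 ≤ Fintype.card I →
    (∀ T : Finset I, T.Nonempty → T.card + 1 ≤ rk ξ T) → ∀ θ m0 : ℝ, 0 < θ → 0 < m0 →
    ∃ θ1 C δ η : ℝ, 0 < θ1 ∧ 1 ≤ C ∧ 0 < δ ∧ 0 < η ∧
      ∀ (K : Type) [Field K] [NumberField K] (u : I → K), (∀ i, u i ≠ 0) → (∀ i, 1 - u i ≠ 0) →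
      ∀ (H : I → ℝ) (i1 : I), (∀ i, H i ≤ H i1) → (∀ i, C ≤ H i) →
      ∀ (t : AbsoluteValue K ℝ → Fin d → ℝ) (err : AbsoluteValue K ℝ → ℝ),
      NearW u ξ H t err η → (∀ i, logHeight₁ (u i) ≤ finrank ℚ K * H i) →
      ∀ S : Finset (K →+* ℂ), m0 * finrank ℚ K ≤ S.card →
      (∀ σ ∈ S, (∀ i ∈ Q, log ‖σ (u i)‖ ≤ -(θ * H i)) ∧
        ∀ i, i ∉ Q → ∀ b, |log ‖σ (U u (i, b))‖| ≤ θ1 * H i) →
      ∃ F : MvPolynomial I ℤ, F ≠ 0 ∧ (∀ i, (degreeOf i F : ℝ) ≤ C * (H i1 / H i)) ∧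
        log (l1 F) ≤ C * ∑ i, H i1 / H i ∧
        ∀ κ : I →₀ ℕ, (∀ i, (κ i : ℝ) ≤ δ * (H i1 / H i)) → tc u F κ = 0

/-- the patterns of three heights -/
def Pt111 (B : ℝ) (H : Fin 3 → ℝ) : Prop := Lac B H

/-- one large height and two smaller equal ones -/
def Pt21 (B : ℝ) (H : Fin 3 → ℝ) : Prop := H 1 = H 2 ∧ B ≤ H 1 ∧ B * H 1 ≤ H 0 ∧ H 1 ≤ H 0

/-- two large equal heights and a smaller one -/
def Pt12 (B : ℝ) (H : Fin 3 → ℝ) : Prop := H 0 = H 1 ∧ B ≤ H 2 ∧ B * H 2 ≤ H 0 ∧ H 2 ≤ H 0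

/-- three equal heights -/
def Pt3 (B : ℝ) (H : Fin 3 → ℝ) : Prop := H 0 = H 1 ∧ H 1 = H 2 ∧ B ≤ H 0

/-- **SFX.** Fixed vectors, for a pattern of heights. -/
def S_FX (Pt : ℝ → (Fin 3 → ℝ) → Prop) : Prop :=
  ∀ (ξ : Fin 3 × Bool → Fin 3 → ℝ) (κ0 : ℝ), 0 < κ0 →
    ∃ (G : MvPolynomial (Fin 3) ℤ) (B η : ℝ), G ≠ 0 ∧ 0 < η ∧
      ∀ (K : Type) [Field K] [NumberField K] (u : Fin 3 → K), (∀ i, u i ≠ 0) →
      (∀ i, 1 - u i ≠ 0) → ∀ H : Fin 3 → ℝ, Pt B H → (∀ i, 1 ≤ H i) →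
      ∀ (t : AbsoluteValue K ℝ → Fin 3 → ℝ) (err : AbsoluteValue K ℝ → ℝ),
      NearW u ξ H t err η → (∀ i, logHeight₁ (u i) ≤ finrank ℚ K * H i) →
      (∀ i, finrank ℚ K * (κ0 * H i) ≤ logHeight₁ (u i)) → aeval u G = 0

/-- **SUN.** The uniform version. -/
def S_UN (Pt : ℝ → (Fin 3 → ℝ) → Prop) : Prop :=
  ∀ κ0 A : ℝ, 0 < κ0 → ∃ (G : MvPolynomial (Fin 3) ℤ) (B η : ℝ), G ≠ 0 ∧ 0 < η ∧
    ∀ ξ : Fin 3 × Bool → Fin 3 → ℝ, (∀ r k, |ξ r k| ≤ 1) →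
      ∀ (K : Type) [Field K] [NumberField K] (u : Fin 3 → K), (∀ i, u i ≠ 0) →
      (∀ i, 1 - u i ≠ 0) → ∀ H : Fin 3 → ℝ, Pt B H → (∀ i, 1 ≤ H i) →
      ∀ (t : AbsoluteValue K ℝ → Fin 3 → ℝ) (err : AbsoluteValue K ℝ → ℝ),
      NearW u ξ H t err η →
      (∀ T : Finset (FinitePlace K), PS T (fun f => ∑ k, |t f k|) ≤ A * finrank ℚ K) →
      (∀ i, logHeight₁ (u i) ≤ finrank ℚ K * H i) →
      (∀ i, finrank ℚ K * (κ0 * H i) ≤ logHeight₁ (u i)) → aeval u G = 0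

/-- **SNF.** The version with a real subspace containing the logarithms. -/
def S_NF (Pt : ℝ → (Fin 3 → ℝ) → Prop) : Prop :=
  ∀ κ0 : ℝ, 0 < κ0 → ∃ (G : MvPolynomial (Fin 3) ℤ) (B η : ℝ), G ≠ 0 ∧ 0 < η ∧
    ∀ (K : Type) [Field K] [NumberField K] (u : Fin 3 → K), (∀ i, u i ≠ 0) →
      (∀ i, 1 - u i ≠ 0) → ∀ H : Fin 3 → ℝ, Pt B H → (∀ i, 1 ≤ H i) →
      (∀ i, logHeight₁ (u i) ≤ finrank ℚ K * H i) →
      (∀ i, finrank ℚ K * (κ0 * H i) ≤ logHeight₁ (u i)) →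
      ∀ (s e : Fin 3 × Bool → K), (∀ r, s r ≠ 0) → (∀ r, e r ≠ 0) →
      (∀ r, logHeight₁ (s r) ≤ finrank ℚ K * (η * H r.1)) →
      (∀ r, logHeight₁ (e r) ≤ finrank ℚ K * (η * H r.1)) →
      ∀ (W : Submodule ℝ (Fin 3 × Bool → ℝ)), finrank ℝ W ≤ 3 →
        (∀ σ : K →+* ℂ, lw (fun x => ‖σ x‖) u s e ∈ W) →
        (∀ v : FinitePlace K, lw (fun x => v x) u s e ∈ W) → aeval u G = 0

/-- **SBN.** Three coordinates of large height. -/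
def S_BN : Prop :=
  ∃ (G : MvPolynomial (Fin 3) ℤ) (B η : ℝ), G ≠ 0 ∧ 0 < η ∧
    ∀ (K : Type) [Field K] [NumberField K] (u : Fin 3 → K), (∀ i, u i ≠ 0) →
      (∀ i, 1 - u i ≠ 0) → (∀ i, finrank ℚ K * B ≤ logHeight₁ (u i)) →
      ∀ (s e : Fin 3 × Bool → K), (∀ r, s r ≠ 0) → (∀ r, e r ≠ 0) →
      (∀ r, logHeight₁ (s r) ≤ η * logHeight₁ (u r.1)) →
      (∀ r, logHeight₁ (e r) ≤ η * logHeight₁ (u r.1)) →
      ∀ (W : Submodule ℝ (Fin 3 × Bool → ℝ)), finrank ℝ W ≤ 3 →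
        (∀ σ : K →+* ℂ, lw (fun x => ‖σ x‖) u s e ∈ W) →
        (∀ v : FinitePlace K, lw (fun x => v x) u s e ∈ W) → aeval u G = 0

/-- the line of a coordinate -/
def ix {c : ℕ} : Fin c ⊕ Fin c → Fin c := Sum.elim id id

/-- **SBL.** Bounded height for products of three lines. -/
def S_BL : Prop :=
  ∀ (K0 : Type) [Field K0] [NumberField K0] (a b : Fin 3 → K0), (∀ i, a i ≠ 0) → (∀ i, b i ≠ 0) →
    ∃ G : MvPolynomial (Fin 3) K0, G ≠ 0 ∧ ∃ ε B : ℝ, 0 < ε ∧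
      ∀ (K : Type) [Field K] [NumberField K] [Algebra K0 K] (P g e : Fin 3 ⊕ Fin 3 → K),
        (∀ r, P r ≠ 0) →
        (∀ i, algebraMap K0 K (a i) * P (Sum.inl i) + algebraMap K0 K (b i) * P (Sum.inr i) = 1) →
        (∀ r, P r = g r * e r) → Codim g 3 → (∀ r, ht (e r) ≤ ε * ht (P (Sum.inl (ix r)))) →
        aeval (fun i => P (Sum.inl i)) G = 0 ∨ ∃ i, ht (P (Sum.inl i)) ≤ B

/-- **SFL.** Fixed vectors, lacunary large heights and bounded heights. -/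
def S_FL : Prop :=
  ∀ (I J : Type) [Fintype I] [DecidableEq I] [Fintype J] [DecidableEq J] (d : ℕ),
    d < Fintype.card I + Fintype.card J → ∀ (ξ : I × Bool → Fin d → ℝ) (ζ : J × Bool → Fin d → ℝ)
    (κ0 B0 : ℝ) (k : ℕ), 0 < κ0 →
    ∃ (G : MvPolynomial J ℤ) (B η : ℝ), G ≠ 0 ∧ 0 < η ∧
      ∀ (K : Type) [Field K] [NumberField K] (u : I → K) (w : J → K), (∀ i, u i ≠ 0) →
      (∀ i, 1 - u i ≠ 0) → (∀ j, w j ≠ 0) → (∀ j, 1 - w j ≠ 0) →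
      ∀ H : I → ℝ, Lac B H → (∀ i, 1 ≤ H i) →
      ∀ (t : AbsoluteValue K ℝ → Fin d → ℝ) (err : AbsoluteValue K ℝ → ℝ),
      NearW u ξ H t err η → PS ∅ err ≤ η * finrank ℚ K →
      (∀ i, logHeight₁ (u i) ≤ finrank ℚ K * H i) →
      (∀ i, finrank ℚ K * (κ0 * H i) ≤ logHeight₁ (u i)) →
      (∀ j, logHeight₁ (w j) ≤ finrank ℚ K * B0) →
      ∀ P : Fin k → J × Bool → ℝ, (∀ σ : K →+* ℂ, ∃ i, ∀ r, |log ‖σ (U w r)‖ -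
        (P i r + ∑ k, ζ r k * t (InfinitePlace.mk σ).1 k)| ≤ err (InfinitePlace.mk σ).1) →
      aeval w G = 0

/-- **SUL.** The uniform version. -/
def S_UL : Prop :=
  ∀ (I J : Type) [Fintype I] [DecidableEq I] [Fintype J] [DecidableEq J] (d : ℕ),
    d < Fintype.card I + Fintype.card J → ∀ (κ0 B0 A : ℝ) (k : ℕ), 0 < κ0 →
    ∃ (G : MvPolynomial J ℤ) (B η : ℝ), G ≠ 0 ∧ 0 < η ∧
      ∀ (ξ : I × Bool → Fin d → ℝ) (ζ : J × Bool → Fin d → ℝ), (∀ r k, |ξ r k| ≤ 1) →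
      (∀ r k, |ζ r k| ≤ 1) →
      ∀ (K : Type) [Field K] [NumberField K] (u : I → K) (w : J → K), (∀ i, u i ≠ 0) →
      (∀ i, 1 - u i ≠ 0) → (∀ j, w j ≠ 0) → (∀ j, 1 - w j ≠ 0) →
      ∀ H : I → ℝ, Lac B H → (∀ i, 1 ≤ H i) →
      ∀ (t : AbsoluteValue K ℝ → Fin d → ℝ) (err : AbsoluteValue K ℝ → ℝ),
      NearW u ξ H t err η → PS ∅ err ≤ η * finrank ℚ K →
      (∀ T : Finset (FinitePlace K), PS T (fun f => ∑ k, |t f k|) ≤ A * finrank ℚ K) →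
      (∀ i, logHeight₁ (u i) ≤ finrank ℚ K * H i) →
      (∀ i, finrank ℚ K * (κ0 * H i) ≤ logHeight₁ (u i)) →
      (∀ j, logHeight₁ (w j) ≤ finrank ℚ K * B0) →
      ∀ P : Fin k → J × Bool → ℝ, (∀ σ : K →+* ℂ, ∃ i, ∀ r, |log ‖σ (U w r)‖ -
        (P i r + ∑ k, ζ r k * t (InfinitePlace.mk σ).1 k)| ≤ err (InfinitePlace.mk σ).1) →
      aeval w G = 0

/-- lacunary above a bound: different coordinates with heights larger than `B0` have heights with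
quotient at least `N` -/
def LacH {I : Type} {K : Type} [Field K] [NumberField K] (B0 N : ℝ) (u : I → K) : Prop :=
  ∀ i j, i ≠ j → logHeight₁ (u i) ≤ finrank ℚ K * B0 ∨ logHeight₁ (u j) ≤ finrank ℚ K * B0 ∨
    N * logHeight₁ (u i) ≤ logHeight₁ (u j) ∨ N * logHeight₁ (u j) ≤ logHeight₁ (u i)

/-- **SNL.** The version with a real subspace containing the logarithms. -/
def S_NL : Prop :=
  ∀ (ι : Type) [Fintype ι] [DecidableEq ι] (Bs B0 : ℝ) (k : ℕ),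
    ∃ G : MvPolynomial ι ℤ, G ≠ 0 ∧ ∃ ε N : ℝ, 0 < ε ∧
      ∀ (K : Type) [Field K] [NumberField K] (u : ι → K), (∀ j, u j ≠ 0) → (∀ j, 1 - u j ≠ 0) →
      ∀ (s e : ι × Bool → K), (∀ r, s r ≠ 0) → (∀ r, e r ≠ 0) →
      (∀ r, logHeight₁ (s r) ≤ finrank ℚ K * Bs) → (∀ r, logHeight₁ (e r) ≤ finrank ℚ K * ε) →
      ∀ (P : Fin k → ι × Bool → ℝ), (∀ σ : K →+* ℂ, ∃ i, ∀ r, P i r = log ‖σ (s r)‖) →
      ∀ (W : Submodule ℝ (ι × Bool → ℝ)), finrank ℝ W < Fintype.card ι →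
        (∀ σ : K →+* ℂ, lw (fun x => ‖σ x‖) u s e ∈ W) →
        (∀ v : FinitePlace K, lw (fun x => v x) u s e ∈ W) → LacH B0 N u → aeval u G = 0

/-- **SLL.** Zilber-Pink for products of lines at points with lacunary heights. -/
def S_LL : Prop :=
  ∀ (K0 : Type) [Field K0] [NumberField K0] (c : ℕ) (a b : Fin c → K0), (∀ i, a i ≠ 0) →
    (∀ i, b i ≠ 0) → ∀ B0 : ℝ,
    ∃ G : MvPolynomial (Fin c) K0, G ≠ 0 ∧ ∃ ε N : ℝ, 0 < ε ∧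
      ∀ (K : Type) [Field K] [NumberField K] [Algebra K0 K] (P g e : Fin c ⊕ Fin c → K),
        (∀ r, P r ≠ 0) →
        (∀ i, algebraMap K0 K (a i) * P (Sum.inl i) + algebraMap K0 K (b i) * P (Sum.inr i) = 1) →
        (∀ r, P r = g r * e r) → Codim g (c + 1) → (∀ r, ht (e r) ≤ ε) →
        (∀ i j, i ≠ j → ht (P (Sum.inl i)) ≤ B0 ∨ ht (P (Sum.inl j)) ≤ B0 ∨
          N * ht (P (Sum.inl i)) ≤ ht (P (Sum.inl j)) ∨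
          N * ht (P (Sum.inl j)) ≤ ht (P (Sum.inl i))) →
        aeval (fun i => P (Sum.inl i)) G = 0

/-- **SE4.** Zilber-Pink for products of four lines, in the form of Pink. -/
def S_E4 : Prop :=
  ∀ (K0 : Type) [Field K0] [NumberField K0] (a b : Fin 4 → K0), (∀ i, a i ≠ 0) → (∀ i, b i ≠ 0) →
    ∃ G : MvPolynomial (Fin 4) K0, G ≠ 0 ∧ ∃ ε : ℝ, 0 < ε ∧
      ∀ (K : Type) [Field K] [NumberField K] [Algebra K0 K] (P g e : Fin 4 ⊕ Fin 4 → K),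
        (∀ r, P r ≠ 0) →
        (∀ i, algebraMap K0 K (a i) * P (Sum.inl i) + algebraMap K0 K (b i) * P (Sum.inr i) = 1) →
        (∀ r, P r = g r * e r) → Codim g 5 → (∀ r, ht (e r) ≤ ε) →
        aeval (fun i => P (Sum.inl i)) G = 0

end Pool.Agent.H883.ZR
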