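import Pool.Agent.H883.ZR.Base3

set_option autoImplicit false
set_option linter.unusedSectionVars false

/-!
# Lacunary heights: bounded height; points of small rank: statements
-/

namespace Pool.Agent.H883.ZR

open Real NumberField Height Module Finset MvPolynomial
open Pool.Agent.H489ZP
open Pool.Agent.H393R2.RothNS (TT DD l1)
open Pool.Agent.H883.ZQ
open Pool.Agent.H883.ZP (Codim mon)

/-- **SFXL.** Fixed vectors, lacunary heights, small rank: there are no points. -/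
def S_FXL : Prop :=
  ∀ (I : Type) [Fintype I] [DecidableEq I] [Nonempty I] (d : ℕ), d ≤ Fintype.card I →
    ∀ (ξ : I × Bool → Fin d → ℝ) (κ0 : ℝ), 0 < κ0 → ∃ B η : ℝ, 0 < η ∧
      ∀ (K : Type) [Field K] [NumberField K] (u : I → K), (∀ i, u i ≠ 0) →
      (∀ i, 1 - u i ≠ 0) → ∀ H : I → ℝ, Lac B H → (∀ i, 1 ≤ H i) →
      ∀ (t : AbsoluteValue K ℝ → Fin d → ℝ) (err : AbsoluteValue K ℝ → ℝ),
      NearW u ξ H t err η → (∀ i, logHeight₁ (u i) ≤ finrank ℚ K * H i) →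
      ¬ ∀ i, finrank ℚ K * (κ0 * H i) ≤ logHeight₁ (u i)

/-- **SNFL.** The version with a real subspace containing the logarithms. -/
def S_NFL : Prop :=
  ∀ (ι : Type) [Fintype ι] [DecidableEq ι] [Nonempty ι] (κ0 : ℝ), 0 < κ0 → ∃ B η : ℝ, 0 < η ∧
    ∀ (K : Type) [Field K] [NumberField K] (u : ι → K), (∀ i, u i ≠ 0) →
      (∀ i, 1 - u i ≠ 0) → ∀ H : ι → ℝ, Lac B H → (∀ i, 1 ≤ H i) →
      (∀ i, logHeight₁ (u i) ≤ finrank ℚ K * H i) →
      (∀ i, finrank ℚ K * (κ0 * H i) ≤ logHeight₁ (u i)) →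
      ∀ (s e : ι × Bool → K), (∀ r, s r ≠ 0) → (∀ r, e r ≠ 0) →
      (∀ r, logHeight₁ (s r) ≤ finrank ℚ K * (η * H r.1)) →
      (∀ r, logHeight₁ (e r) ≤ finrank ℚ K * (η * H r.1)) →
      ∀ (W : Submodule ℝ (ι × Bool → ℝ)), finrank ℝ W ≤ Fintype.card ι →
        (∀ σ : K →+* ℂ, lw (fun x => ‖σ x‖) u s e ∈ W) →
        ¬ ∀ v : FinitePlace K, lw (fun x => v x) u s e ∈ W

/-- **SLB.** Bounded height for products of lines at points with lacunary heights. -/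
def S_LB : Prop :=
  ∀ (K0 : Type) [Field K0] [NumberField K0] (c : ℕ) (a b : Fin c → K0), 0 < c →
    (∀ i, a i ≠ 0) → (∀ i, b i ≠ 0) → ∃ ε B : ℝ, 0 < ε ∧
      ∀ (K : Type) [Field K] [NumberField K] [Algebra K0 K] (P g e : Fin c ⊕ Fin c → K),
        (∀ r, P r ≠ 0) →
        (∀ i, algebraMap K0 K (a i) * P (Sum.inl i) + algebraMap K0 K (b i) * P (Sum.inr i) = 1) →
        (∀ r, P r = g r * e r) → Codim g c → (∀ r, ht (e r) ≤ ε * ht (P (Sum.inl (ix r)))) →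
        (∀ i, B ≤ ht (P (Sum.inl i))) →
        ¬ ∀ i j, i ≠ j → B * ht (P (Sum.inl i)) ≤ ht (P (Sum.inl j)) ∨
          B * ht (P (Sum.inl j)) ≤ ht (P (Sum.inl i))

/-- **SQL.** Points of small rank on products of lines. -/
def S_QL : Prop :=
  ∀ (K0 : Type) [Field K0] [NumberField K0] (c r : ℕ) (a b : Fin c → K0),
    (r - 1) ^ 2 + 2 ≤ c → (∀ i, a i ≠ 0) → (∀ i, b i ≠ 0) →
    ∃ G : MvPolynomial (Fin c) K0, G ≠ 0 ∧ ∃ ε : ℝ, 0 < ε ∧
      ∀ (K : Type) [Field K] [NumberField K] [Algebra K0 K] (P g e : Fin c ⊕ Fin c → K),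
        (∀ r, P r ≠ 0) →
        (∀ i, algebraMap K0 K (a i) * P (Sum.inl i) + algebraMap K0 K (b i) * P (Sum.inr i) = 1) →
        (∀ r, P r = g r * e r) → Codim g (2 * c - r) → (∀ r, ht (e r) ≤ ε) →
        aeval (fun i => P (Sum.inl i)) G = 0

end Pool.Agent.H883.ZR
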