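import Pool.Agent.H883.ZR.Asm2
import Pool.Agent.H883.ZR.Asm3
import Pool.Agent.H883.ZQ.Lines

set_option autoImplicit false
set_option linter.unusedSectionVars false

/-!
# Points near subgroups of small dimension on products of lines
-/

namespace Pool.Agent.H883.ZR.A2

open Real NumberField Height Module Finset MvPolynomial
open Pool.Agent.H883.ZQ
open Pool.Agent.H883.ZP (Codim)

theorem near (K0 : Type) [Field K0] [NumberField K0] (c r : ℕ) (a b : Fin c → K0)
    (ha : ∀ i, a i ≠ 0) (hb : ∀ i, b i ≠ 0) (hr : RankCond c r) :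
    ∃ G : MvPolynomial (Fin c) K0, G ≠ 0 ∧ ∃ ε : ℝ, 0 < ε ∧
      ∀ (K : Type) [Field K] [NumberField K] [Algebra K0 K] (P g e : Fin c ⊕ Fin c → K),
        (∀ r, P r ≠ 0) →
        (∀ i, algebraMap K0 K (a i) * P (Sum.inl i) + algebraMap K0 K (b i) * P (Sum.inr i) = 1) →
        (∀ r, P r = g r * e r) → Codim g (2 * c - r) → (∀ r, ht (e r) ≤ ε) →
        aeval (fun i => P (Sum.inl i)) G = 0 := by
  by_cases h1 : (r - 1) ^ 2 + 2 ≤ c
  · exact S_QL_holds K0 c r a b h1 ha hb
  · have h2 : r < c ∧ r ≤ 3 := by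
      rcases hr with h | h
      · exact h
      · exact absurd h h1
    obtain ⟨h2, h3⟩ := h2
    have hcase : (c = 1 ∧ r = 0) ∨ r = 3 := by
      rcases Nat.lt_or_ge r 3 with h4 | h4
      · left
        interval_cases r
        · simp at h1
          omega
        · simp at h1
          omega
        · simp at h1
          omega
      · right
        omega
    rcases hcase with ⟨rfl, rfl⟩ | rfl
    · obtain ⟨G, hG, ε, hε, H⟩ := linesCmp 1 a b ha hb 1
      refine ⟨G, hG, ε, hε, ?_⟩
      intro K _ _ _ P g e h0 h4 h5 h6 h7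
      refine H K P g e h0 h4 h5 h6 h7 ?_
      intro i j
      rw [Subsingleton.elim i j, one_mul]
      exact Or.inr le_rfl
    · obtain ⟨G, hG, ε, hε, H⟩ := S_E4_holds K0 (fun i => a (Fin.castLE h2 i))
        (fun i => b (Fin.castLE h2 i)) (fun i => ha _) (fun i => hb _)
      refine ⟨rename (Fin.castLE h2) G, ?_, ε, hε, ?_⟩
      · intro h0
        exact hG (rename_injective _ (Fin.castLE_injective h2) (by rw [h0, map_zero]))
      · intro K _ _ _ P g e h0 h4 h5 h6 h7
        rw [aeval_rename]
        exact H K (P ∘ Sum.map (Fin.castLE h2) (Fin.castLE h2))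
          (g ∘ Sum.map (Fin.castLE h2) (Fin.castLE h2))
          (e ∘ Sum.map (Fin.castLE h2) (Fin.castLE h2)) (fun r => h0 _) (fun i => h4 _)
          (fun r => h5 _) (INT.codim_sub g _ (Fin.castLE_injective h2) h6 5 (by omega))
          (fun r => h7 _)

end Pool.Agent.H883.ZR.A2
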