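import Pool.Agent.H883.ZR.Base
import Pool.Agent.H883.ZQ.CaseA

set_option autoImplicit false
set_option linter.unusedSectionVars false

/-!
# The product formula for Taylor coefficients of combinations of near-constant monomials
-/

namespace Pool.Agent.H883.ZR

open Real NumberField Height Module Finset
open Pool.Agent.H489ZP
open Pool.Agent.H883.ZQ
open Pool.Agent.H393R2.RothNS (TT DD l1)

variable {I : Type} [Fintype I] [DecidableEq I]

/-- the logarithms of the sizes of `u_i` and `1 - u_i` are nearly `H i` times the values of the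
functionals `ξ r` at a point `t v` -/
structure NearW {K : Type} [Field K] [NumberField K] {d : ℕ} (u : I → K)
    (ξ : I × Bool → Fin d → ℝ) (H : I → ℝ) (t : AbsoluteValue K ℝ → Fin d → ℝ)
    (err : AbsoluteValue K ℝ → ℝ) (η : ℝ) : Prop where
  inf : ∀ v : InfinitePlace K, ∀ r,
    |log (v.1 (U u r)) - H r.1 * ∑ k, ξ r k * t v.1 k| ≤ H r.1 * err v.1
  fin : ∀ v : FinitePlace K, ∀ r,
    |log (v.1 (U u r)) - H r.1 * ∑ k, ξ r k * t v.1 k| ≤ H r.1 * err v.1
  tot : ∀ T : Finset (FinitePlace K), PS T err ≤ η * finrank ℚ K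

/-- the logarithm of a near-constant monomial -/
lemma mono_logW {d : ℕ} {ξ : I × Bool → Fin d → ℝ} {x : I × Bool → ℝ} (hx : x ∈ rel ξ) {Y : ℝ}
    (hY : ∀ r, |x r| ≤ Y) (s L : I × Bool → ℝ) (T : Fin d → ℝ) {H : I → ℝ} {H0 e : ℝ}
    (hH : ∀ i, 0 < H i) (hH0 : 0 ≤ H0)
    (hL : ∀ r, |L r - H r.1 * ∑ k, ξ r k * T k| ≤ H r.1 * e) :
    ∑ r, ((⌊H0 / H r.1 * x r⌋ : ℝ) + s r) * L r ≤
      ∑ r, s r * L r + ∑ r, |L r| + Fintype.card (I × Bool) * Y * (H0 * e) := by
  have h1 : ∀ r, ((⌊H0 / H r.1 * x r⌋ : ℝ) + s r) * L r ≤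
      s r * L r + |L r| + (H0 / H r.1 * x r) * L r := by
    intro r
    set y := H0 / H r.1 * x r with hy
    have h2 : -(Int.fract y * L r) ≤ |L r| := by
      have h3 := Int.fract_nonneg y
      have h4 := (Int.fract_lt_one y).le
      calc -(Int.fract y * L r) ≤ |Int.fract y * L r| := neg_le_abs _
        _ = Int.fract y * |L r| := by rw [abs_mul, abs_of_nonneg h3]
        _ ≤ 1 * |L r| := mul_le_mul_of_nonneg_right h4 (abs_nonneg _)
        _ = _ := one_mul _
    have h5 : (⌊y⌋ : ℝ) = y - Int.fract y := by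
      have := Int.floor_add_fract y
      linarith
    rw [h5]
    linarith
  have h2 : ∑ r, (H0 / H r.1 * x r) * L r ≤ Fintype.card (I × Bool) * Y * (H0 * e) := by
    have h3 : ∑ r, (H0 / H r.1 * x r) * (H r.1 * ∑ k, ξ r k * T k) = 0 := by
      have h4 : ∀ k, ∑ r, x r * ξ r k = 0 := by
        intro k
        have := congrFun (mem_rel.1 hx) k
        rw [Finset.sum_apply] at this
        exact this
      calc ∑ r, (H0 / H r.1 * x r) * (H r.1 * ∑ k, ξ r k * T k) =
            ∑ r, H0 * (x r * ∑ k, ξ r k * T k) := by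
            refine Finset.sum_congr rfl fun r _ => ?_
            have := (hH r.1).ne'
            field_simp
        _ = H0 * ∑ k, (∑ r, x r * ξ r k) * T k := by
            simp_rw [Finset.sum_mul, Finset.mul_sum]
            rw [Finset.sum_comm]
            refine Finset.sum_congr rfl fun r _ => Finset.sum_congr rfl fun k _ => by ring
        _ = 0 := by simp [h4]
    have h4 : ∑ r, (H0 / H r.1 * x r) * L r =
        ∑ r, (H0 / H r.1 * x r) * (L r - H r.1 * ∑ k, ξ r k * T k) := by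
      simp_rw [mul_sub]
      rw [Finset.sum_sub_distrib, h3, sub_zero]
    rw [h4]
    calc ∑ r, (H0 / H r.1 * x r) * (L r - H r.1 * ∑ k, ξ r k * T k) ≤
          ∑ _r : I × Bool, Y * (H0 * e) := by
          apply Finset.sum_le_sum
          intro r _
          have hHr := hH r.1
          calc (H0 / H r.1 * x r) * (L r - H r.1 * ∑ k, ξ r k * T k) ≤
                |(H0 / H r.1 * x r) * (L r - H r.1 * ∑ k, ξ r k * T k)| := le_abs_self _
            _ = (H0 / H r.1 * |x r|) * |L r - H r.1 * ∑ k, ξ r k * T k| := by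
                rw [abs_mul, abs_mul, abs_of_nonneg (div_nonneg hH0 hHr.le)]
            _ ≤ (H0 / H r.1 * Y) * (H r.1 * e) := by
                apply mul_le_mul (mul_le_mul_of_nonneg_left (hY r) (div_nonneg hH0 hHr.le)) (hL r)
                  (abs_nonneg _) (mul_nonneg (div_nonneg hH0 hHr.le) ((abs_nonneg _).trans (hY r)))
            _ = _ := by
                field_simp
      _ = _ := by
          rw [Finset.sum_const, Finset.card_univ, nsmul_eq_mul]
          ring
  have h3 : ∑ r, ((⌊H0 / H r.1 * x r⌋ : ℝ) + s r) * L r ≤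
      ∑ r, (s r * L r + |L r| + (H0 / H r.1 * x r) * L r) :=
    Finset.sum_le_sum fun r _ => h1 r
  rw [Finset.sum_add_distrib, Finset.sum_add_distrib] at h3
  linarith

/-- the cost of one derivative -/
noncomputable def dc {K : Type} [Field K] (u : I → K) (κ : I →₀ ℕ) (f : AbsoluteValue K ℝ) : ℝ :=
  ∑ i, (κ i : ℝ) * (|log (f (u i))| + |log (f (1 - u i))|)

lemma mx_le {K : Type} [Field K] (f : AbsoluteValue K ℝ) {u : I → K} (hu0 : ∀ i, u i ≠ 0)
    (hu1 : ∀ i, 1 - u i ≠ 0) (κ : I →₀ ℕ) :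
    ∏ i, (max 1 (max (f (u i))⁻¹ (f (1 - u i))⁻¹)) ^ κ i ≤ exp (dc u κ f) := by
  unfold dc
  rw [Real.exp_sum]
  apply Finset.prod_le_prod
  · intro i _
    positivity
  · intro i _
    rw [Real.exp_nat_mul]
    apply pow_le_pow_left₀ (by positivity)
    have hinv : ∀ y : K, y ≠ 0 → (f y)⁻¹ ≤ exp |log (f y)| := by
      intro y hy
      rw [← Real.exp_log (f.pos hy), ← Real.exp_neg, Real.log_exp]
      exact Real.exp_le_exp.2 (neg_le_abs _)
    apply max_le
    · apply Real.one_le_exp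
      positivity
    · apply max_le
      · refine (hinv _ (hu0 i)).trans (Real.exp_le_exp.2 ?_)
        have := abs_nonneg (log (f (1 - u i)))
        linarith
      · refine (hinv _ (hu1 i)).trans (Real.exp_le_exp.2 ?_)
        have := abs_nonneg (log (f (u i)))
        linarith

lemma mo_mul_pow (e : I × Bool → ℕ) (i : I) (k : ℕ) :
    mo e * MvPolynomial.X i ^ k = mo (e + Pi.single (i, false) k) := by
  unfold mo
  rw [Finset.prod_mul_distrib, Finset.prod_mul_distrib]
  have h1 : ∀ x : I, (e + Pi.single (i, false) k : I × Bool → ℕ) (x, true) = e (x, true) := by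
    intro x
    rw [Pi.add_apply, Pi.single_eq_of_ne (by simp), add_zero]
  have h2 : ∏ x, (MvPolynomial.X x : MvPolynomial I ℤ) ^
      (e + Pi.single (i, false) k : I × Bool → ℕ) (x, false) =
      (∏ x, (MvPolynomial.X x : MvPolynomial I ℤ) ^ e (x, false)) * MvPolynomial.X i ^ k := by
    simp_rw [Pi.add_apply, pow_add]
    rw [Finset.prod_mul_distrib]
    congr 1
    rw [Finset.prod_eq_single i]
    · rw [Pi.single_eq_same]
    · intro x _ hx
      rw [Pi.single_eq_of_ne (by simp [hx]), pow_zero]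
    · intro h
      exact absurd (Finset.mem_univ i) h
  rw [h2]
  simp_rw [h1]
  ring

lemma tc_sum {K : Type} [Field K] {ι : Type} (s : Finset ι) (u : I → K)
    (F : ι → MvPolynomial I ℤ) (κ : I →₀ ℕ) : tc u (∑ m ∈ s, F m) κ = ∑ m ∈ s, tc u (F m) κ := by
  unfold tc
  rw [map_sum, map_sum, MvPolynomial.coeff_sum]

lemma tc_zsmul {K : Type} [Field K] (u : I → K) (F : MvPolynomial I ℤ) (c : ℤ) (κ : I →₀ ℕ) :
    tc u (c • F) κ = (c : K) * tc u F κ := by
  unfold tc
  rw [map_zsmul, map_zsmul, MvPolynomial.coeff_smul, zsmul_eq_mul]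

lemma tc_add {K : Type} [Field K] (u : I → K) (F G : MvPolynomial I ℤ) (κ : I →₀ ℕ) :
    tc u (F + G) κ = tc u F κ + tc u G κ := by
  unfold tc
  rw [map_add, map_add, MvPolynomial.coeff_add]

lemma tc_neg {K : Type} [Field K] (u : I → K) (F : MvPolynomial I ℤ) (κ : I →₀ ℕ) :
    tc u (-F) κ = -tc u F κ := by
  unfold tc
  rw [map_neg, map_neg, MvPolynomial.coeff_neg]

/-- the local bound for the Taylor coefficients -/
noncomputable def bw {K : Type} [Field K] (u : I → K) (s : I × Bool → ℝ) (C : ℝ)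
    (err : AbsoluteValue K ℝ → ℝ) (κ : I →₀ ℕ) (f : AbsoluteValue K ℝ) : ℝ :=
  ∑ r, s r * log (f (U u r)) + ∑ r, |log (f (U u r))| + C * err f + dc u κ f

section local_bounds

variable {K : Type} [Field K] (f : AbsoluteValue K ℝ) {u : I → K}

lemma sum_single_log (e : I × Bool → ℕ) (i1 : I) (k : ℕ) :
    ∑ r, ((e + Pi.single (i1, false) k : I × Bool → ℕ) r : ℝ) * log (f (U u r)) =
      ∑ r, (e r : ℝ) * log (f (U u r)) + k * log (f (u i1)) := by
  have h1 : ∀ r, ((e + Pi.single (i1, false) k : I × Bool → ℕ) r : ℝ) * log (f (U u r)) =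
      (e r : ℝ) * log (f (U u r)) +
        ((Pi.single (i1, false) k : I × Bool → ℕ) r : ℝ) * log (f (U u r)) := by
    intro r
    rw [Pi.add_apply, Nat.cast_add, add_mul]
  rw [Finset.sum_congr rfl fun r _ => h1 r, Finset.sum_add_distrib]
  congr 1
  rw [Finset.sum_eq_single (i1, false)]
  · rw [Pi.single_eq_same]
    rfl
  · intro r _ hr
    rw [Pi.single_eq_of_ne hr, Nat.cast_zero, zero_mul]
  · intro h
    exact absurd (Finset.mem_univ _) h

lemma sum_single_nat (e : I × Bool → ℕ) (i1 : I) (k : ℕ) :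
    ∑ r, (e + Pi.single (i1, false) k : I × Bool → ℕ) r = ∑ r, e r + k := by
  simp_rw [Pi.add_apply]
  rw [Finset.sum_add_distrib]
  congr 1
  rw [Finset.sum_eq_single (i1, false)]
  · rw [Pi.single_eq_same]
  · intro r _ hr
    rw [Pi.single_eq_of_ne hr]
  · intro h
    exact absurd (Finset.mem_univ _) h

/-- archimedean bound -/
lemma arch_tc (hST : S_T) (hu0 : ∀ i, u i ≠ 0) (hu1 : ∀ i, 1 - u i ≠ 0) {ι : Type} [Fintype ι]
    (c : ι → ℤ) (E : ι → I × Bool → ℕ) (κ : I →₀ ℕ) {b : ℝ} {Δ : ℕ} (hΔ : ∀ m, ∑ r, E m r ≤ Δ)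
    (hb : ∀ m, ∑ r, (E m r : ℝ) * log (f (U u r)) + dc u κ f ≤ b) (i1 : I) (k : ℕ) :
    f (tc u ((∑ m, c m • mo (E m)) * MvPolynomial.X i1 ^ k) κ) ≤
      (∑ m, |(c m : ℝ)|) * (2 ^ (Δ + k) * (exp b * f (u i1) ^ k)) := by
  rw [Finset.sum_mul, tc_sum]
  refine (f.sum_le _ _).trans ?_
  rw [Finset.sum_mul]
  apply Finset.sum_le_sum
  intro m _
  rw [smul_mul_assoc, tc_zsmul, map_mul, mo_mul_pow]
  apply mul_le_mul (arch_int_le f _) _ (f.nonneg _) (abs_nonneg _)
  refine (hST I K f u hu0 hu1 _ κ).1.trans ?_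
  rw [sum_single_nat]
  apply mul_le_mul
  · exact pow_le_pow_right₀ one_le_two (by have := hΔ m; omega)
  · rw [abv_mo f hu0 hu1, sum_single_log f, Real.exp_add]
    have h1 := mx_le f hu0 hu1 κ
    have h2 : exp ((k : ℝ) * log (f (u i1))) = f (u i1) ^ k := by
      rw [Real.exp_nat_mul, Real.exp_log (f.pos (hu0 i1))]
    rw [h2]
    calc exp (∑ r, (E m r : ℝ) * log (f (U u r))) * f (u i1) ^ k *
          ∏ i, (max 1 (max (f (u i))⁻¹ (f (1 - u i))⁻¹)) ^ κ i ≤
          exp (∑ r, (E m r : ℝ) * log (f (U u r))) * f (u i1) ^ k * exp (dc u κ f) :=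
          mul_le_mul_of_nonneg_left h1 (mul_nonneg (exp_pos _).le (pow_nonneg (f.nonneg _) _))
      _ = exp (∑ r, (E m r : ℝ) * log (f (U u r)) + dc u κ f) * f (u i1) ^ k := by
          rw [Real.exp_add]
          ring
      _ ≤ exp b * f (u i1) ^ k :=
          mul_le_mul_of_nonneg_right (exp_le_exp.2 (hb m)) (pow_nonneg (f.nonneg _) _)
  · exact mul_nonneg (f.nonneg _) (Finset.prod_nonneg fun i _ => by positivity)
  · positivity

/-- ultrametric bound -/
lemma fin_tc (hST : S_T) (hna : ∀ a b, f (a + b) ≤ max (f a) (f b)) (hu0 : ∀ i, u i ≠ 0)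
    (hu1 : ∀ i, 1 - u i ≠ 0) {ι : Type} [Fintype ι]
    (c : ι → ℤ) (E : ι → I × Bool → ℕ) (κ : I →₀ ℕ) {b : ℝ}
    (hb : ∀ m, ∑ r, (E m r : ℝ) * log (f (U u r)) + dc u κ f ≤ b) (i1 : I) (k : ℕ) :
    f (tc u ((∑ m, c m • mo (E m)) * MvPolynomial.X i1 ^ k) κ) ≤ exp b * f (u i1) ^ k := by
  rw [Finset.sum_mul, tc_sum]
  apply na_sum_le f hna _ _ (mul_nonneg (exp_pos _).le (pow_nonneg (f.nonneg _) _))
  intro m _
  rw [smul_mul_assoc, tc_zsmul, map_mul, mo_mul_pow]
  have h0 : f (c m : K) * f (tc u (mo (E m + Pi.single (i1, false) k)) κ) ≤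
      1 * f (tc u (mo (E m + Pi.single (i1, false) k)) κ) :=
    mul_le_mul_of_nonneg_right (na_int_le f hna _) (f.nonneg _)
  refine h0.trans ?_
  rw [one_mul]
  refine ((hST I K f u hu0 hu1 _ κ).2 hna).trans ?_
  rw [abv_mo f hu0 hu1, sum_single_log f, Real.exp_add]
  have h1 := mx_le f hu0 hu1 κ
  have h2 : exp ((k : ℝ) * log (f (u i1))) = f (u i1) ^ k := by
    rw [Real.exp_nat_mul, Real.exp_log (f.pos (hu0 i1))]
  rw [h2]
  calc exp (∑ r, (E m r : ℝ) * log (f (U u r))) * f (u i1) ^ k *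
        ∏ i, (max 1 (max (f (u i))⁻¹ (f (1 - u i))⁻¹)) ^ κ i ≤
        exp (∑ r, (E m r : ℝ) * log (f (U u r))) * f (u i1) ^ k * exp (dc u κ f) :=
        mul_le_mul_of_nonneg_left h1 (mul_nonneg (exp_pos _).le (pow_nonneg (f.nonneg _) _))
    _ = exp (∑ r, (E m r : ℝ) * log (f (U u r)) + dc u κ f) * f (u i1) ^ k := by
        rw [Real.exp_add]
        ring
    _ ≤ exp b * f (u i1) ^ k :=
        mul_le_mul_of_nonneg_right (exp_le_exp.2 (hb m)) (pow_nonneg (f.nonneg _) _)

end local_bounds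

section

variable {K : Type} [Field K] [NumberField K]

lemma height_UW {u : I → K} {H : I → ℝ} (hH : ∀ i, logHeight₁ (u i) ≤ finrank ℚ K * H i)
    (r : I × Bool) : logHeight₁ (U u r) ≤ finrank ℚ K * (H r.1 + 1) := by
  have hD : (0 : ℝ) ≤ finrank ℚ K := Nat.cast_nonneg _
  have hl1 : Real.log 2 < 1 := by linarith [Real.log_two_lt_d9]
  obtain ⟨i, b⟩ := r
  cases b
  · rw [U_false]
    exact (hH i).trans (mul_le_mul_of_nonneg_left (by linarith) hD)
  · rw [U_true]
    have h1 := height_one_sub (u i)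
    have h2 : (finrank ℚ K : ℝ) * log 2 ≤ finrank ℚ K * 1 := mul_le_mul_of_nonneg_left hl1.le hD
    have h3 := hH i
    show _ ≤ (finrank ℚ K : ℝ) * (H i + 1)
    rw [mul_add]
    linarith

/-- the total size of the bound -/
lemma PS_bw {u : I → K} {H : I → ℝ} {H0 : ℝ} {err : AbsoluteValue K ℝ → ℝ} {η : ℝ}
    (hu0 : ∀ i, u i ≠ 0) (hu1 : ∀ i, 1 - u i ≠ 0) (hHH : ∀ i, H i ≤ H0)
    (htot : ∀ T : Finset (FinitePlace K), PS T err ≤ η * finrank ℚ K)
    (hH : ∀ i, logHeight₁ (u i) ≤ finrank ℚ K * H i) (s : I × Bool → ℝ) {C : ℝ} (hC : 0 ≤ C)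
    (κ : I →₀ ℕ)
    (T : Finset (FinitePlace K)) (hT : ∀ r, ∀ v : FinitePlace K, v ∉ T → v (U u r) = 1) :
    PS T (bw u s C err κ) ≤
      finrank ℚ K * (Fintype.card (I × Bool) * (2 * (H0 + 1)) + C * η +
        ∑ i, (κ i : ℝ) * (4 * (H i + 1))) := by
  show PS T (fun f => ∑ r, s r * log (f (U u r)) + ∑ r, |log (f (U u r))| + C * err f +
    dc u κ f) ≤ _
  rw [PS_add, PS_add, PS_add, PS_sum, PS_sum]
  have hD : (0 : ℝ) ≤ finrank ℚ K := Nat.cast_nonneg _
  have h1 : ∑ r, PS T (fun f => s r * log (f (U u r))) = 0 := by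
    apply Finset.sum_eq_zero
    intro r _
    rw [PS_smul, PS_log (U_ne hu0 hu1 r) T (hT r), mul_zero]
  have habs : ∀ r, PS T (fun f => |log (f (U u r))|) ≤ finrank ℚ K * (2 * (H r.1 + 1)) := by
    intro r
    have h3 := Pool.Agent.H883.ZP.PS_abs_le (U_ne hu0 hu1 r) T
    have h4 := height_UW hH r
    linarith
  have h2 : ∑ r, PS T (fun f => |log (f (U u r))|) ≤
      ∑ _r : I × Bool, finrank ℚ K * (2 * (H0 + 1)) := by
    apply Finset.sum_le_sum
    intro r _
    refine (habs r).trans (mul_le_mul_of_nonneg_left ?_ hD)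
    have := hHH r.1
    linarith
  have h3 : PS T (fun f => C * err f) ≤ C * (η * finrank ℚ K) := by
    rw [PS_smul]
    exact mul_le_mul_of_nonneg_left (htot T) hC
  have h4 : PS T (dc u κ) ≤ finrank ℚ K * ∑ i, (κ i : ℝ) * (4 * (H i + 1)) := by
    show PS T (fun f => ∑ i, (κ i : ℝ) * (|log (f (u i))| + |log (f (1 - u i))|)) ≤ _
    rw [PS_sum, Finset.mul_sum]
    apply Finset.sum_le_sum
    intro i _
    rw [PS_smul, PS_add]
    have h5 := habs (i, false)
    have h6 := habs (i, true)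
    rw [U_false] at h5
    rw [U_true] at h6
    have h7 : PS T (fun f => |log (f (u i))|) + PS T (fun f => |log (f (1 - u i))|) ≤
        finrank ℚ K * (4 * (H i + 1)) := by
      have e : (finrank ℚ K : ℝ) * (4 * (H i + 1)) = finrank ℚ K * (2 * (H i + 1)) +
        finrank ℚ K * (2 * (H i + 1)) := by ring
      rw [e]
      exact add_le_add h5 h6
    calc (κ i : ℝ) * (PS T (fun f => |log (f (u i))|) + PS T (fun f => |log (f (1 - u i))|)) ≤
          κ i * (finrank ℚ K * (4 * (H i + 1))) := mul_le_mul_of_nonneg_left h7 (Nat.cast_nonneg _)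
      _ = _ := by ring
  rw [Finset.sum_const, Finset.card_univ, nsmul_eq_mul] at h2
  rw [h1]
  have e2 : PS T (fun f => dc u κ f) = PS T (dc u κ) := rfl
  rw [e2]
  have e3 : (finrank ℚ K : ℝ) * (Fintype.card (I × Bool) * (2 * (H0 + 1)) + C * η +
        ∑ i, (κ i : ℝ) * (4 * (H i + 1))) = Fintype.card (I × Bool) *
        (finrank ℚ K * (2 * (H0 + 1))) + C * (η * finrank ℚ K) +
        finrank ℚ K * ∑ i, (κ i : ℝ) * (4 * (H i + 1)) := by ring
  rw [e3]
  linarith

/-- **The product formula.** -/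
theorem PF (hST : S_T) {d : ℕ} {u : I → K} (hu0 : ∀ i, u i ≠ 0) (hu1 : ∀ i, 1 - u i ≠ 0)
    {ξ : I × Bool → Fin d → ℝ} {H : I → ℝ} {H0 : ℝ} (hHpos : ∀ i, 0 < H i) (hHH : ∀ i, H i ≤ H0)
    (hH00 : 0 ≤ H0)
    {t : AbsoluteValue K ℝ → Fin d → ℝ} {err : AbsoluteValue K ℝ → ℝ} {η : ℝ}
    (hn : NearW u ξ H t err η) (hH : ∀ i, logHeight₁ (u i) ≤ finrank ℚ K * H i)
    {ι : Type} [Fintype ι] (x : ι → I × Bool → ℝ) (hx : ∀ m, x m ∈ rel ξ) {Y : ℝ} (hY0 : 0 ≤ Y)
    (hY : ∀ m r, |x m r| ≤ Y) (s : I × Bool → ℕ) (E : ι → I × Bool → ℕ)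
    (hE : ∀ m r, (E m r : ℝ) = ⌊H0 / H r.1 * x m r⌋ + s r) {Δ : ℕ} (hΔ : ∀ m, ∑ r, E m r ≤ Δ)
    {τ j : ℕ} (c : Fin (τ + 1) → ι → ℤ) (t0 : Fin (τ + 1)) (i1 : I) (κ : I →₀ ℕ)
    (hid : tc u (∑ m, c t0 m • mo (E m)) κ = -∑ t ∈ Finset.univ.filter (fun t => t0 < t),
      tc u ((∑ m, c t m • mo (E m)) * MvPolynomial.X i1 ^ (((t : ℕ) - t0) * j)) κ)
    (hz : tc u (∑ m, c t0 m • mo (E m)) κ ≠ 0) :
    (j : ℝ) * logHeight₁ (u i1) ≤ finrank ℚ K * (log (∑ t, ∑ m, |(c t m : ℝ)| + 1) +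
      (Δ + τ * j : ℕ) * log 2 + Fintype.card (I × Bool) * (2 * (H0 + 1)) +
      Fintype.card (I × Bool) * Y * (H0 * η) + ∑ i, (κ i : ℝ) * (4 * (H i + 1))) := by
  classical
  set Ct : ℝ := ∑ t, ∑ m, |(c t m : ℝ)| with hCt
  have hCt0 : 0 ≤ Ct := Finset.sum_nonneg fun _ _ => Finset.sum_nonneg fun _ _ => abs_nonneg _
  set N : ℝ := (Fintype.card (I × Bool) : ℝ) with hN
  have hN0 : 0 ≤ N := Nat.cast_nonneg _
  set z : K := tc u (∑ m, c t0 m • mo (E m)) κ with hzdef
  set b : AbsoluteValue K ℝ → ℝ := bw u (fun r => (s r : ℝ)) (N * Y * H0) err κ with hb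
  obtain ⟨T, hTT⟩ := exists_T (K := K) (insert z (Finset.univ.image (U u))) (by
    intro w hw
    rw [Finset.mem_insert, Finset.mem_image] at hw
    rcases hw with rfl | ⟨r, -, rfl⟩
    · exact hz
    · exact U_ne hu0 hu1 r)
  have hTz : ∀ v : FinitePlace K, v ∉ T → v z = 1 := hTT z (Finset.mem_insert_self _ _)
  have hTU : ∀ r, ∀ v : FinitePlace K, v ∉ T → v (U u r) = 1 := fun r =>
    hTT _ (Finset.mem_insert_of_mem (Finset.mem_image_of_mem _ (Finset.mem_univ r)))
  have hexpo : ∀ (f : AbsoluteValue K ℝ),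
      (∀ r, |log (f (U u r)) - H r.1 * ∑ k, ξ r k * t f k| ≤ H r.1 * err f) →
      ∀ m, ∑ r, (E m r : ℝ) * log (f (U u r)) + dc u κ f ≤ b f := by
    intro f hf m
    have h1 := mono_logW (hx m) (hY m) (fun r => (s r : ℝ)) (fun r => log (f (U u r))) (t f)
      hHpos hH00 hf
    have h2 : ∑ r, (E m r : ℝ) * log (f (U u r)) =
        ∑ r, ((⌊H0 / H r.1 * x m r⌋ : ℝ) + s r) * log (f (U u r)) :=
      Finset.sum_congr rfl fun r _ => by rw [hE]
    rw [h2]
    show _ ≤ ∑ r, (s r : ℝ) * log (f (U u r)) + ∑ r, |log (f (U u r))| + N * Y * H0 * err f +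
      dc u κ f
    have e : N * Y * (H0 * err f) = N * Y * H0 * err f := by ring
    rw [← e]
    linarith
  have hz1 : z = tc u ((∑ m, c t0 m • mo (E m)) * MvPolynomial.X i1 ^ 0) κ := by
    rw [pow_zero, mul_one]
  have hpow : ∀ (f : AbsoluteValue K ℝ) (t : Fin (τ + 1)), t0 < t → f (u i1) ≤ 1 →
      f (u i1) ^ (((t : ℕ) - t0) * j) ≤ f (u i1) ^ j := by
    intro f t ht h
    apply pow_le_pow_of_le_one (f.nonneg _) h
    have ht' : (t0 : ℕ) < t := ht
    exact Nat.le_mul_of_pos_left _ (by omega)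
  have hloc : ∀ (f : AbsoluteValue K ℝ) (C1 : ℝ), 1 ≤ C1 →
      f z ≤ C1 * exp (b f) → (f (u i1) ≤ 1 → f z ≤ C1 * (exp (b f) * f (u i1) ^ j)) →
      log (f z) ≤ b f - j * max 0 (-log (f (u i1))) + log C1 := by
    intro f C1 hC1 h1 h2
    have hfz := f.pos hz
    have hfu := f.pos (hu0 i1)
    rcases le_or_gt (f (u i1)) 1 with h | h
    · have h3 := h2 h
      rw [max_eq_right (by linarith [Real.log_nonpos hfu.le h])]
      have h4 := Real.log_le_log hfz h3
      rw [Real.log_mul (by positivity) (by positivity), Real.log_mul (by positivity)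
        (by positivity), Real.log_exp, Real.log_pow] at h4
      linarith
    · rw [max_eq_left (by linarith [Real.log_pos h]), mul_zero, sub_zero]
      have h4 := Real.log_le_log hfz h1
      rw [Real.log_mul (by positivity) (by positivity), Real.log_exp] at h4
      linarith
  set C1 : ℝ := (Ct + 1) * 2 ^ (Δ + τ * j) with hC1
  have hC11 : 1 ≤ C1 := by
    rw [hC1]
    have h1 : (1 : ℝ) ≤ 2 ^ (Δ + τ * j) := one_le_pow₀ one_le_two
    nlinarith
  have hlogC1 : log C1 = log (Ct + 1) + (Δ + τ * j : ℕ) * log 2 := by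
    rw [hC1, Real.log_mul (by positivity) (by positivity), Real.log_pow]
  have hPS := PS_le T (fun f => log (f z))
    (fun f => b f + (-(j : ℝ)) * max 0 (-log (f (u i1)))) (log C1) (fun v => by
      have hb := hexpo v.1 (hn.inf v)
      have h1 := hloc v.1 C1 hC11 (by
        rw [hz1]
        refine (arch_tc v.1 hST hu0 hu1 (c t0) E κ hΔ hb i1 0).trans ?_
        rw [pow_zero, mul_one, add_zero, ← mul_assoc]
        apply mul_le_mul_of_nonneg_right _ (Real.exp_pos _).le
        rw [hC1]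
        apply mul_le_mul _ (pow_le_pow_right₀ one_le_two (by omega)) (by positivity)
          (by linarith)
        have := Finset.single_le_sum (f := fun t => ∑ m, |(c t m : ℝ)|)
          (fun _ _ => Finset.sum_nonneg fun _ _ => abs_nonneg _) (Finset.mem_univ t0)
        linarith) (by
        intro h
        rw [hid, v.1.map_neg]
        refine (v.1.sum_le _ _).trans ?_
        calc ∑ t ∈ Finset.univ.filter (fun t => t0 < t), v.1 (tc u ((∑ m, c t m • mo (E m)) *
              MvPolynomial.X i1 ^ (((t : ℕ) - t0) * j)) κ) ≤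
            ∑ t ∈ Finset.univ.filter (fun t => t0 < t), (∑ m, |(c t m : ℝ)|) *
              (2 ^ (Δ + τ * j) * (exp (b v.1) * v.1 (u i1) ^ j)) := by
              apply Finset.sum_le_sum
              intro t ht
              refine (arch_tc v.1 hST hu0 hu1 (c t) E κ hΔ hb i1 _).trans ?_
              apply mul_le_mul_of_nonneg_left _ (Finset.sum_nonneg fun _ _ => abs_nonneg _)
              apply mul_le_mul
              · apply pow_le_pow_right₀ one_le_two
                have h5 : ((t : ℕ) - t0) * j ≤ τ * j := Nat.mul_le_mul_right _ (by omega)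
                omega
              · exact mul_le_mul_of_nonneg_left (hpow v.1 t (Finset.mem_filter.1 ht).2 h)
                  (exp_pos _).le
              · exact mul_nonneg (exp_pos _).le (pow_nonneg (v.1.nonneg _) _)
              · positivity
          _ ≤ ∑ t, (∑ m, |(c t m : ℝ)|) *
              (2 ^ (Δ + τ * j) * (exp (b v.1) * v.1 (u i1) ^ j)) := by
              apply Finset.sum_le_sum_of_subset_of_nonneg (Finset.subset_univ _)
              intro t _ _
              exact mul_nonneg (Finset.sum_nonneg fun _ _ => abs_nonneg _)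
                (mul_nonneg (by positivity)
                  (mul_nonneg (Real.exp_pos _).le (pow_nonneg (v.1.nonneg _) _)))
          _ ≤ _ := by
              rw [← Finset.sum_mul, ← mul_assoc]
              apply mul_le_mul_of_nonneg_right _
                (mul_nonneg (Real.exp_pos _).le (pow_nonneg (v.1.nonneg _) _))
              rw [hC1]
              exact mul_le_mul_of_nonneg_right (by linarith) (by positivity))
      linarith) (fun v => by
      have hna : ∀ a b, v.1 (a + b) ≤ max (v.1 a) (v.1 b) := fun a b => v.add_le a b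
      have hb := hexpo v.1 (hn.fin v)
      have h1 := hloc v.1 1 le_rfl (by
        rw [one_mul, hz1]
        have := fin_tc v.1 hST hna hu0 hu1 (c t0) E κ hb i1 0
        rwa [pow_zero (v.1 (u i1)), mul_one] at this) (by
        intro h
        rw [hid, v.1.map_neg, one_mul]
        apply na_sum_le v.1 hna _ _ (mul_nonneg (Real.exp_pos _).le (pow_nonneg (v.1.nonneg _) _))
        intro t ht
        refine (fin_tc v.1 hST hna hu0 hu1 (c t) E κ hb i1 _).trans ?_
        exact mul_le_mul_of_nonneg_left (hpow v.1 t (Finset.mem_filter.1 ht).2 h) (exp_pos _).le)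
      rw [Real.log_one] at h1
      linarith)
  rw [PS_log hz T hTz, PS_add, PS_smul, PS_neg (z := u i1) T (hTU (i1, false))] at hPS
  have hbw : PS T (fun f => b f) ≤ finrank ℚ K * (N * (2 * (H0 + 1)) + (N * Y * H0) * η +
        ∑ i, (κ i : ℝ) * (4 * (H i + 1))) :=
    PS_bw hu0 hu1 hHH hn.tot hH (fun r => (s r : ℝ)) (C := N * Y * H0) (by positivity) κ T hTU
  rw [hlogC1] at hPS
  have e1 : (finrank ℚ K : ℝ) * (log (Ct + 1) + (Δ + τ * j : ℕ) * log 2 + N * (2 * (H0 + 1)) +
      N * Y * (H0 * η) + ∑ i, (κ i : ℝ) * (4 * (H i + 1))) =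
      finrank ℚ K * (N * (2 * (H0 + 1)) + (N * Y * H0) * η +
        ∑ i, (κ i : ℝ) * (4 * (H i + 1))) +
      finrank ℚ K * (log (Ct + 1) + (Δ + τ * j : ℕ) * log 2) := by ring
  rw [e1]
  linarith

end

end Pool.Agent.H883.ZR
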