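import Pool.Agent.H883.ZR.Base2

set_option autoImplicit false

/-!
# ZR SI (helper52): independence modulo a polynomial in a part of the variables
-/

namespace Pool.Agent.H883.ZR.SI

open MvPolynomial
open Pool.Agent.H883.ZQ (mo)

/-- the first variable becomes the variable of a polynomial ring, with `z` or `1 - z` -/
noncomputable def Psi (b : Bool) :
    MvPolynomial (Fin 1 ⊕ Fin 2) ℤ →ₐ[ℤ] Polynomial (MvPolynomial (Fin 2) ℤ) :=
  aeval (Sum.elim (fun _ => if b then 1 - Polynomial.X else Polynomial.X)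
    (fun i => Polynomial.C (X i)))

lemma Psi_mo (b : Bool) (e : (Fin 1 ⊕ Fin 2) × Bool → ℕ) :
    Psi b (mo e) = Polynomial.X ^ e (Sum.inl 0, b) * ((1 - Polynomial.X) ^ e (Sum.inl 0, !b) *
      Polynomial.C (mo fun r => e (Sum.inr r.1, r.2))) := by
  have h0 : Psi b (mo e) = ∏ i, (Sum.elim (fun _ : Fin 1 => if b then 1 - Polynomial.X
      else (Polynomial.X : Polynomial (MvPolynomial (Fin 2) ℤ)))
      (fun i => Polynomial.C (X i)) i ^ e (i, false) *
      (1 - Sum.elim (fun _ : Fin 1 => if b then 1 - Polynomial.X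
      else (Polynomial.X : Polynomial (MvPolynomial (Fin 2) ℤ)))
      (fun i => Polynomial.C (X i)) i) ^ e (i, true)) := by
    unfold mo
    rw [Psi, map_prod]
    refine Finset.prod_congr rfl fun i _ => ?_
    rw [map_mul, map_pow, map_pow, map_sub, map_one, aeval_X]
  rw [h0, Fintype.prod_sum_type]
  have h1 : ∏ i : Fin 2, (Sum.elim (fun _ : Fin 1 => if b then 1 - Polynomial.X
      else (Polynomial.X : Polynomial (MvPolynomial (Fin 2) ℤ)))
      (fun i => Polynomial.C (X i)) (Sum.inr i) ^ e (Sum.inr i, false) *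
      (1 - Sum.elim (fun _ : Fin 1 => if b then 1 - Polynomial.X
      else (Polynomial.X : Polynomial (MvPolynomial (Fin 2) ℤ)))
      (fun i => Polynomial.C (X i)) (Sum.inr i)) ^ e (Sum.inr i, true)) =
      Polynomial.C (mo fun r : Fin 2 × Bool => e (Sum.inr r.1, r.2)) := by
    unfold mo
    rw [map_prod]
    refine Finset.prod_congr rfl fun i _ => ?_
    rw [map_mul, map_pow, map_pow, map_sub, map_one, Sum.elim_inr]
  rw [h1, ← mul_assoc]
  congr 1
  rw [Fin.prod_univ_one, Sum.elim_inl]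
  cases b
  · simp
  · simp only [if_true, Bool.not_true, sub_sub_cancel]
    rw [mul_comm]

lemma Psi_rename (b : Bool) (g : MvPolynomial (Fin 2) ℤ) :
    Psi b (rename Sum.inr g) = Polynomial.C g := by
  rw [Psi, aeval_rename]
  have h1 : (Sum.elim (fun _ : Fin 1 => if b then 1 - Polynomial.X else Polynomial.X)
      (fun i : Fin 2 => Polynomial.C (X i : MvPolynomial (Fin 2) ℤ))) ∘ Sum.inr =
      fun i => Polynomial.C (X i) := rfl
  rw [h1]
  induction g using MvPolynomial.induction_on with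
  | C a => simp
  | add p q hp hq => rw [map_add, hp, hq, map_add]
  | mul_X p i hp => rw [map_mul, hp, aeval_X, map_mul]

lemma coeff_Psi_mo (b : Bool) (e : (Fin 1 ⊕ Fin 2) × Bool → ℕ) (N : ℕ) (h : N ≤ e (Sum.inl 0, b)) :
    (Psi b (mo e)).coeff N =
      if e (Sum.inl 0, b) = N then mo (fun r => e (Sum.inr r.1, r.2)) else 0 := by
  rw [Psi_mo, Polynomial.coeff_X_pow_mul']
  by_cases h1 : e (Sum.inl 0, b) = N
  · rw [if_pos h1.le, if_pos h1, h1, Nat.sub_self, Polynomial.mul_coeff_zero,
      Polynomial.coeff_C_zero, Polynomial.coeff_zero_eq_eval_zero]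
    simp
  · rw [if_neg (fun h2 => h1 (le_antisymm h2 h)), if_neg h1]

theorem si (hcf : S_cf) : S_I := by
  clear hcf
  classical
  intro g φ hg b ι1 ι2 _ _ E p hp hE hinj c hdvd
  by_contra hc
  -- the set of the second indices which occur
  have hne : (Finset.univ.filter fun y : ι2 => ∃ x, c (x, y) ≠ 0).Nonempty := by
    by_contra h0
    rw [Finset.not_nonempty_iff_eq_empty, Finset.filter_eq_empty_iff] at h0
    apply hc
    funext x
    by_contra hx
    exact h0 (Finset.mem_univ x.2) ⟨x.1, hx⟩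
  obtain ⟨y0, hy0, hmin⟩ := Finset.exists_min_image _ p hne
  obtain ⟨x0, hx0⟩ := (Finset.mem_filter.1 hy0).2
  have hcoef : ∀ N, g ∣ (Psi b (∑ x, c x • mo (E x))).coeff N := by
    have h1 : Polynomial.C g ∣ Psi b (∑ x, c x • mo (E x)) := by
      rw [← Psi_rename b g]
      exact map_dvd (Psi b) hdvd
    exact (Polynomial.C_dvd_iff_dvd_coeff g _).1 h1
  have h2 := hcoef (p y0)
  have h3 : (Psi b (∑ x, c x • mo (E x))).coeff (p y0) =
      ∑ x1, c (x1, y0) • mo (fun r => E (x1, y0) (Sum.inr r.1, r.2)) := by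
    rw [map_sum, Polynomial.finsetSum_coeff, Fintype.sum_prod_type_right]
    rw [Finset.sum_eq_single y0]
    · refine Finset.sum_congr rfl fun x1 _ => ?_
      rw [map_zsmul, Polynomial.coeff_smul, coeff_Psi_mo b _ _ (hE (x1, y0)).ge,
        if_pos (hE (x1, y0))]
    · intro y _ hy
      refine Finset.sum_eq_zero fun x1 _ => ?_
      by_cases hcy : c (x1, y) = 0
      · rw [hcy, zero_smul, map_zero, Polynomial.coeff_zero]
      · have h4 : p y0 ≤ p y := hmin y (Finset.mem_filter.2 ⟨Finset.mem_univ _, x1, hcy⟩)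
        rw [map_zsmul, Polynomial.coeff_smul, coeff_Psi_mo b _ _ (by rw [hE]; exact h4),
          if_neg (by rw [hE]; exact fun h => hy (hp h)), smul_zero]
    · intro h
      exact absurd (Finset.mem_univ _) h
  rw [h3] at h2
  have h5 := hg ι1 (fun x1 r => E (x1, y0) (Sum.inr r.1, r.2)) (fun x1 => c (x1, y0)) (hinj y0) h2
  exact hx0 (congrFun h5 x0)

end Pool.Agent.H883.ZR.SI
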