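import Pool.Agent.H883.ZR.Base3

set_option autoImplicit false
set_option linter.unusedSectionVars false

/-!
# Lacunary heights, or at most two large heights
-/

namespace Pool.Agent.H883.ZR

open Real NumberField Height Module Finset MvPolynomial
open Pool.Agent.H489ZP
open Pool.Agent.H883.ZQ
open Pool.Agent.H883.ZP (Codim)

theorem two (hLL : S_LL) (K0 : Type) [Field K0] [NumberField K0] (c : ℕ) (a b : Fin c → K0)
    (ha : ∀ i, a i ≠ 0) (hb : ∀ i, b i ≠ 0) (B0 : ℝ) :
    ∃ G : MvPolynomial (Fin c) K0, G ≠ 0 ∧ ∃ ε N : ℝ, 0 < ε ∧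
      ∀ (K : Type) [Field K] [NumberField K] [Algebra K0 K] (P g e : Fin c ⊕ Fin c → K),
        (∀ r, P r ≠ 0) →
        (∀ i, algebraMap K0 K (a i) * P (Sum.inl i) + algebraMap K0 K (b i) * P (Sum.inr i) = 1) →
        (∀ r, P r = g r * e r) → Codim g (c + 1) → (∀ r, ht (e r) ≤ ε) →
        ((∀ i j, i ≠ j → ht (P (Sum.inl i)) ≤ B0 ∨ ht (P (Sum.inl j)) ≤ B0 ∨
          N * ht (P (Sum.inl i)) ≤ ht (P (Sum.inl j)) ∨
          N * ht (P (Sum.inl j)) ≤ ht (P (Sum.inl i))) ∨
        (∀ i j k, i ≠ j → i ≠ k → j ≠ k → ht (P (Sum.inl i)) ≤ B0 ∨ ht (P (Sum.inl j)) ≤ B0 ∨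
          ht (P (Sum.inl k)) ≤ B0)) →
        aeval (fun i => P (Sum.inl i)) G = 0 := by
  classical
  set B : ℝ := max B0 1 with hB
  have hB1 : 1 ≤ B := le_max_right _ _
  have hB0 : B0 ≤ B := le_max_left _ _
  obtain ⟨G2, hG2, ε2, N, hε2, h2⟩ := hLL K0 c a b ha hb B
  set Λ : ℝ := B + |N| with hΛ
  obtain ⟨G3, hG3, ε3, hε3, h3⟩ := linesCmp c a b ha hb Λ
  refine ⟨G2 * G3, mul_ne_zero hG2 hG3, min ε2 ε3, N, lt_min hε2 hε3, ?_⟩
  intro K _ _ _ P g e hP hline hge hcod heε hcase
  rw [map_mul]
  by_cases hlac : ∀ i j, i ≠ j → ht (P (Sum.inl i)) ≤ B ∨ ht (P (Sum.inl j)) ≤ B ∨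
      N * ht (P (Sum.inl i)) ≤ ht (P (Sum.inl j)) ∨ N * ht (P (Sum.inl j)) ≤ ht (P (Sum.inl i))
  · have h5 := h2 K P g e hP hline hge hcod (fun r => (heε r).trans (min_le_left _ _)) hlac
    rw [h5, zero_mul]
  · rcases hcase with hcase | hcase
    · exfalso
      apply hlac
      intro i j hij
      rcases hcase i j hij with h | h | h | h
      · exact Or.inl (h.trans hB0)
      · exact Or.inr (Or.inl (h.trans hB0))
      · exact Or.inr (Or.inr (Or.inl h))
      · exact Or.inr (Or.inr (Or.inr h))
    push Not at hlac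
    obtain ⟨i, j, hij, hi, hj, hNi, hNj⟩ := hlac
    have hN : N ≤ |N| := le_abs_self N
    have hN0 : 0 ≤ |N| := abs_nonneg N
    have hthree : ∀ k, k ≠ i → k ≠ j → ht (P (Sum.inl k)) ≤ B := by
      intro k hki hkj
      rcases hcase i j k hij hki.symm hkj.symm with h | h | h
      · linarith
      · linarith
      · linarith
    have h5 := h3 K P g e hP hline hge hcod
      (fun r => (heε r).trans (min_le_right _ _)) (by
        intro k l
        by_cases hk : ht (P (Sum.inl k)) ≤ Λ
        · exact Or.inl hk
        · right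
          push Not at hk
          have hk0 : 0 ≤ ht (P (Sum.inl k)) := ht_nonneg _
          have hkB : B < ht (P (Sum.inl k)) := by linarith
          have hself : ht (P (Sum.inl k)) ≤ Λ * ht (P (Sum.inl k)) := by nlinarith
          by_cases hl : ht (P (Sum.inl l)) ≤ B
          · linarith
          · push Not at hl
            by_cases hkl : k = l
            · rw [← hkl]
              exact hself
            · have hk2 : k = i ∨ k = j := by
                by_contra hcon
                push Not at hcon
                have := hthree k hcon.1 hcon.2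
                linarith
              have hl2 : l = i ∨ l = j := by
                by_contra hcon
                push Not at hcon
                have := hthree l hcon.1 hcon.2
                linarith
              have hle : N * ht (P (Sum.inl k)) ≤ Λ * ht (P (Sum.inl k)) :=
                mul_le_mul_of_nonneg_right (by rw [hΛ]; linarith) hk0
              rcases hk2 with rfl | rfl <;> rcases hl2 with rfl | rfl
              · exact absurd rfl hkl
              · linarith
              · linarith
              · exact absurd rfl hkl)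
    rw [h5, mul_zero]

end Pool.Agent.H883.ZR
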